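import Pool.Agent.LGAlt2.Index

/-!
# The balance equations

Let `W` be a circle and `g` a function on faces (`F U`).  The right-hand gap of a strand `i` at the level
`j` is `i + 1` if it points up and `i` if it points down.  Put
`Φ j = ∑ eps (ori j i) * g (F U (gl j (right-hand gap of i)))`, the sum over the strands `i` of the circle `W`.
* At a crossing `c = j` (strands `k`, `k + 1` up) only the gap `k + 1` changes its label, it is the
  right-hand gap of the strand `k` only (`k + 1` points up), so
  `Φ (j + 1) = Φ j + [cl c = W] (g (F U (cor c T)) - g (F U (cor c B)))`.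
* At a cup and a cap `Φ` does not change: the two strands belong to the same circle, have opposite
  orientations, and the right-hand gaps of both are the gap `k + 1` (orientations up, down) or the gaps
  `k`, `k + 2` (orientations down, up), which belong to the same face (`fre_cap`, resp. the same label).
* `Φ 0 = [ci 0 = W] g (F U 1)`, `Φ n = [ci (sl n 0) = W] g (F U (gl n 1))`; `F U (gl n 1) = F U 1`
  (`fre_gl_last`), and `ci (sl n 0) = ci 0` (the sum of the orientations of the strands of the circle of
  the label `0` is `1` at all levels).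
This gives `bal_l`; `bal_r` is the same for left-hand gaps (crossings with `cr c = W`, the leftmost gap has
always the label `0`).  The mirror image would exchange the two statements.

* `const_l` : if no crossing in `U` has `cl c = W` then `F U (cor c T)` is the same for all crossings `c` with
  `cl c = W`: apply `circle_const` to `φ j i = F U (gl j (right-hand gap of i))`: at a crossing `c ∉ U`,
  `F U (cor c T) = F U (cor c B)` (`fre_cross`).
-/

namespace LGAlt

lemma mem_C_iff (D : Dia) (c : ℕ) : c ∈ D.C ↔ c < D.n ∧ ∃ k pos, D.pc c = .cross k pos := by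
  simp only [Dia.C, Finset.mem_filter, Finset.mem_range]
  refine and_congr_right (fun _ => ?_)
  cases h : D.pc c <;> simp [Piece.isX]

lemma F_inactive (D : Dia) (U : Finset ℕ) (c : ℕ) (hc : c ∈ D.C) (hU : c ∉ U) :
    D.F U (cor D.pc c .T) = D.F U (cor D.pc c .B) := by
  obtain ⟨hn, k, pos, hp⟩ := (mem_C_iff D c).mp hc
  simp only [Dia.F, cor, hp, Piece.at]
  exact fre_cross D.pc U c D.n hn k pos hp hU

lemma ne_eq_not : ∀ b s : Bool, ¬ b = s → b = !s := by decide

/-- the gap on the right-hand side (`b = true`) or left-hand side of a strand -/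
def sdg (b o : Bool) (i : ℕ) : ℕ := if b = o then i + 1 else i

/-- the summand of `Φ` -/
noncomputable def hsum (D : Dia) (U : Finset ℕ) (W : ℕ) (g : ℕ → ℤ) (b : Bool) (j i : ℕ) : ℤ :=
  if D.ci (sl D.pc j i) = W then
    eps (ori D.pc j i) * g (D.F U (gl D.pc j (sdg b (ori D.pc j i) i))) else 0

lemma sum_insert2 (h h' : ℕ → ℤ) (k m : ℕ) (hk : k ≤ m) (h1 : ∀ i < k, h' i = h i)
    (h2 : ∀ i, k ≤ i → i < m → h' (i + 2) = h i) :
    ∑ i ∈ Finset.range (m + 2), h' i = ∑ i ∈ Finset.range m, h i + (h' k + h' (k + 1)) := by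
  obtain ⟨d, rfl⟩ := Nat.exists_eq_add_of_le hk
  have e1 : k + d + 2 = k + (2 + d) := by omega
  rw [e1, Finset.sum_range_add, Finset.sum_range_add h k d, Finset.sum_range_add _ 2 d]
  have e2 : ∑ x ∈ Finset.range k, h' x = ∑ x ∈ Finset.range k, h x :=
    Finset.sum_congr rfl (fun i hi => h1 i (Finset.mem_range.mp hi))
  have e3 : ∑ x ∈ Finset.range d, h' (k + (2 + x)) = ∑ x ∈ Finset.range d, h (k + x) := by
    refine Finset.sum_congr rfl (fun i hi => ?_)
    have := h2 (k + i) (by omega) (by have := Finset.mem_range.mp hi; omega)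
    rw [← this]
    congr 1
    omega
  rw [e2, e3, Finset.sum_range_succ, Finset.sum_range_succ, Finset.sum_range_zero]
  simp only [add_zero, zero_add]
  ring

lemma bal_eps_not (s : Bool) : eps (!s) = -eps s := by cases s <;> rfl

/-- side strand of a crossing -/
def sdk (b : Bool) (k : ℕ) : ℕ := if b then k else k + 1

lemma step_cross (D : Dia) (U : Finset ℕ) (W : ℕ) (g : ℕ → ℤ) (b : Bool) (j : ℕ) (hj : j < D.n)
    (k : ℕ) (pos : Bool) (hp : D.pc j = .cross k pos) :
    ∑ i ∈ Finset.range (str D.pc (j + 1)), hsum D U W g b (j + 1) i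
      = ∑ i ∈ Finset.range (str D.pc j), hsum D U W g b j i
        + (if D.ci (sl D.pc j (sdk b k)) = W then
            g (D.F U (j + 2)) - g (D.F U (gl D.pc j (k + 1))) else 0) := by
  obtain ⟨hk, ho1, ho2, -, -, -⟩ := D.hcross j hj k pos hp
  have hs : str D.pc (j + 1) = str D.pc j := by simp only [str, hp]
  rw [hs]
  have hi0 : sdk b k < str D.pc j := by unfold sdk; split_ifs <;> omega
  have key : ∀ i ∈ Finset.range (str D.pc j), hsum D U W g b (j + 1) i = hsum D U W g b j i +
      (if i = sdk b k then (if D.ci (sl D.pc j (sdk b k)) = W then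
            g (D.F U (j + 2)) - g (D.F U (gl D.pc j (k + 1))) else 0) else 0) := by
    intro i hi
    have hsl : sl D.pc (j + 1) i = sl D.pc j i := by simp only [sl, hp]
    have hor : ori D.pc (j + 1) i = ori D.pc j i := by simp only [ori, hp]
    have hgl : ∀ g', gl D.pc (j + 1) g' = if g' = k + 1 then j + 2 else gl D.pc j g' := by
      intro g'; simp only [gl, hp]
    simp only [hsum, hsl, hor, hgl]
    by_cases h1 : i = sdk b k
    · subst h1
      have ho : ori D.pc j (sdk b k) = true := by
        unfold sdk; split_ifs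
        · exact ho1
        · exact ho2
      have hg : sdg b (ori D.pc j (sdk b k)) (sdk b k) = k + 1 := by
        rw [ho]; cases b <;> simp [sdg, sdk]
      rw [hg, ho]
      simp only [if_true, eps, one_mul]
      split_ifs <;> ring
    · have hg : sdg b (ori D.pc j i) i ≠ k + 1 := by
        unfold sdg sdk at *
        by_cases h2 : b = ori D.pc j i
        · rw [if_pos h2]
          intro h3
          have : i = k := by omega
          subst this
          rw [ho1] at h2
          rw [h2] at h1
          simp at h1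
        · rw [if_neg h2]
          intro h3
          subst h3
          rw [ho2] at h2
          have : b = false := by cases b <;> simp_all
          rw [this] at h1
          simp at h1
      rw [if_neg hg, if_neg h1, add_zero]
  rw [Finset.sum_congr rfl key, Finset.sum_add_distrib, Finset.sum_ite_eq' (Finset.range _),
    if_pos (Finset.mem_range.mpr hi0)]

lemma step_cup (D : Dia) (U : Finset ℕ) (W : ℕ) (g : ℕ → ℤ) (b : Bool) (j : ℕ) (hj : j < D.n)
    (k : ℕ) (s : Bool) (hp : D.pc j = .cup k s) :
    ∑ i ∈ Finset.range (str D.pc (j + 1)), hsum D U W g b (j + 1) i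
      = ∑ i ∈ Finset.range (str D.pc j), hsum D U W g b j i := by
  obtain ⟨hk, -, -, -⟩ := D.hcup j hj k s hp
  have hs : str D.pc (j + 1) = str D.pc j + 2 := by simp only [str, hp]
  have hsl : ∀ i, sl D.pc (j + 1) i = if i < k then sl D.pc j i else if i < k + 2 then j + 1
      else sl D.pc j (i - 2) := by intro i; simp only [sl, hp]
  have hor : ∀ i, ori D.pc (j + 1) i = if i < k then ori D.pc j i else if i = k then s else
        if i = k + 1 then !s else ori D.pc j (i - 2) := by intro i; simp only [ori, hp]
  have hgl : ∀ g', gl D.pc (j + 1) g' = if g' ≤ k then gl D.pc j g' else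
      if g' = k + 1 then j + 2 else gl D.pc j (g' - 2) := by intro g'; simp only [gl, hp]
  have hsd : ∀ o i, sdg b o i = i ∨ sdg b o i = i + 1 := by
    intro o i; unfold sdg; split_ifs <;> simp
  rw [hs, sum_insert2 (hsum D U W g b j) (hsum D U W g b (j + 1)) k _ hk]
  · have : hsum D U W g b (j + 1) k + hsum D U W g b (j + 1) (k + 1) = 0 := by
      have e1 : sl D.pc (j + 1) k = j + 1 := by rw [hsl]; simp
      have e2 : sl D.pc (j + 1) (k + 1) = j + 1 := by
        rw [hsl, if_neg (by omega), if_pos (by omega)]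
      have e3 : ori D.pc (j + 1) k = s := by rw [hor]; simp
      have e4 : ori D.pc (j + 1) (k + 1) = !s := by
        rw [hor, if_neg (by omega), if_neg (by omega), if_pos rfl]
      simp only [hsum, e1, e2, e3, e4, bal_eps_not]
      split_ifs with hW
      · have e5 : gl D.pc (j + 1) (sdg b s k) = gl D.pc (j + 1) (sdg b (!s) (k + 1)) := by
          by_cases hb : b = s
          · subst hb
            have : sdg b (!b) (k + 1) = k + 1 := by cases b <;> simp [sdg]
            rw [this]; simp [sdg]
          · have h1 : b = !s := ne_eq_not b s hb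
            have h2 : sdg b s k = k := by simp [sdg, hb]
            have h3 : sdg b (!s) (k + 1) = k + 2 := by simp [sdg, h1]
            rw [h2, h3, hgl, hgl, if_pos le_rfl, if_neg (by omega), if_neg (by omega)]
            simp
        rw [e5]; ring
      · simp
    rw [this, add_zero]
  · intro i hi
    have e1 : sl D.pc (j + 1) i = sl D.pc j i := by rw [hsl, if_pos hi]
    have e2 : ori D.pc (j + 1) i = ori D.pc j i := by rw [hor, if_pos hi]
    have e3 : gl D.pc (j + 1) (sdg b (ori D.pc j i) i) = gl D.pc j (sdg b (ori D.pc j i) i) := by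
      rw [hgl, if_pos]
      rcases hsd (ori D.pc j i) i with h | h <;> omega
    simp only [hsum, e1, e2, e3]
  · intro i hki hi
    have e1 : sl D.pc (j + 1) (i + 2) = sl D.pc j i := by
      rw [hsl, if_neg (by omega), if_neg (by omega)]; simp
    have e2 : ori D.pc (j + 1) (i + 2) = ori D.pc j i := by
      rw [hor, if_neg (by omega), if_neg (by omega), if_neg (by omega)]; simp
    have e3 : gl D.pc (j + 1) (sdg b (ori D.pc j i) (i + 2))
        = gl D.pc j (sdg b (ori D.pc j i) i) := by
      have : sdg b (ori D.pc j i) (i + 2) = sdg b (ori D.pc j i) i + 2 := by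
        unfold sdg; split_ifs <;> omega
      rw [this, hgl]
      rcases hsd (ori D.pc j i) i with h | h <;>
        rw [if_neg (by omega), if_neg (by omega)] <;> simp
    simp only [hsum, e1, e2, e3]

lemma step_cap (D : Dia) (U : Finset ℕ) (W : ℕ) (g : ℕ → ℤ) (b : Bool) (j : ℕ) (hj : j < D.n)
    (k : ℕ) (s : Bool) (hp : D.pc j = .cap k s) :
    ∑ i ∈ Finset.range (str D.pc (j + 1)), hsum D U W g b (j + 1) i
      = ∑ i ∈ Finset.range (str D.pc j), hsum D U W g b j i := by
  obtain ⟨hk, ho1, ho2, -, -, -⟩ := D.hcap j hj k s hp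
  have hs : str D.pc (j + 1) = str D.pc j - 2 := by simp only [str, hp]
  have hs' : str D.pc j = str D.pc (j + 1) + 2 := by omega
  have hsl : ∀ i, sl D.pc (j + 1) i = if i < k then sl D.pc j i else sl D.pc j (i + 2) := by
    intro i; simp only [sl, hp]
  have hor : ∀ i, ori D.pc (j + 1) i = if i < k then ori D.pc j i else ori D.pc j (i + 2) := by
    intro i; simp only [ori, hp]
  have hgl : ∀ g', gl D.pc (j + 1) g' = if g' ≤ k then gl D.pc j g' else gl D.pc j (g' + 2) := by
    intro g'; simp only [gl, hp]
  have hsd : ∀ o i, sdg b o i = i ∨ sdg b o i = i + 1 := by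
    intro o i; unfold sdg; split_ifs <;> simp
  have hF : D.F U (gl D.pc j k) = D.F U (gl D.pc j (k + 2)) :=
    fre_cap D.pc U j D.n hj k s hp
  rw [hs', sum_insert2 (hsum D U W g b (j + 1)) (hsum D U W g b j) k _ (by omega)]
  · have : hsum D U W g b j k + hsum D U W g b j (k + 1) = 0 := by
      have hc : D.ci (sl D.pc j k) = D.ci (sl D.pc j (k + 1)) := cre_cap D.pc j D.n hj k s hp
      simp only [hsum, ho1, ho2, ← hc, bal_eps_not]
      split_ifs with hW
      · have e5 : D.F U (gl D.pc j (sdg b s k)) = D.F U (gl D.pc j (sdg b (!s) (k + 1))) := by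
          by_cases hb : b = s
          · subst hb
            have : sdg b (!b) (k + 1) = k + 1 := by cases b <;> simp [sdg]
            rw [this]; simp [sdg]
          · have h1 : b = !s := ne_eq_not b s hb
            have h2 : sdg b s k = k := by simp [sdg, hb]
            have h3 : sdg b (!s) (k + 1) = k + 2 := by simp [sdg, h1]
            rw [h2, h3, hF]
        rw [e5]; ring
      · simp
    rw [this, add_zero]
  · intro i hi
    have e1 : sl D.pc (j + 1) i = sl D.pc j i := by rw [hsl, if_pos hi]
    have e2 : ori D.pc (j + 1) i = ori D.pc j i := by rw [hor, if_pos hi]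
    have e3 : gl D.pc (j + 1) (sdg b (ori D.pc j i) i) = gl D.pc j (sdg b (ori D.pc j i) i) := by
      rw [hgl, if_pos]
      rcases hsd (ori D.pc j i) i with h | h <;> omega
    simp only [hsum, e1, e2, e3]
  · intro i hki hi
    have e1 : sl D.pc (j + 1) i = sl D.pc j (i + 2) := by rw [hsl, if_neg (by omega)]
    have e2 : ori D.pc (j + 1) i = ori D.pc j (i + 2) := by rw [hor, if_neg (by omega)]
    have e3 : D.F U (gl D.pc (j + 1) (sdg b (ori D.pc j (i + 2)) i))
        = D.F U (gl D.pc j (sdg b (ori D.pc j (i + 2)) (i + 2))) := by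
      have : sdg b (ori D.pc j (i + 2)) (i + 2) = sdg b (ori D.pc j (i + 2)) i + 2 := by
        unfold sdg; split_ifs <;> omega
      rw [this, hgl]
      by_cases h1 : sdg b (ori D.pc j (i + 2)) i ≤ k
      · rw [if_pos h1]
        have h2 : sdg b (ori D.pc j (i + 2)) i = k := by
          rcases hsd (ori D.pc j (i + 2)) i with h | h <;> omega
        rw [h2, hF]
      · rw [if_neg h1]
    simp only [hsum, e1, e2, e3]

/-- the telescoping sum -/
lemma phi_n (D : Dia) (U : Finset ℕ) (W : ℕ) (g : ℕ → ℤ) (b : Bool) (j : ℕ) (hj : j ≤ D.n) :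
    ∑ i ∈ Finset.range (str D.pc j), hsum D U W g b j i
      = ∑ i ∈ Finset.range (str D.pc 0), hsum D U W g b 0 i
        + ∑ c ∈ (Finset.range j).filter (fun c => (D.pc c).isX = true ∧
            D.ci (sl D.pc c (sdk b (D.pc c).at)) = W),
          (g (D.F U (cor D.pc c .T)) - g (D.F U (cor D.pc c .B))) := by
  induction j with
  | zero => simp
  | succ j ih =>
    have ih' := ih (by omega)
    have hr : ∀ p : ℕ → Prop, ∀ [DecidablePred p], ∀ f : ℕ → ℤ,
        ∑ c ∈ (Finset.range (j + 1)).filter p, f c
          = ∑ c ∈ (Finset.range j).filter p, f c + (if p j then f j else 0) := by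
      intro p _ f
      rw [Finset.sum_filter, Finset.sum_range_succ, Finset.sum_filter]
    rw [hr]
    cases hp : D.pc j with
    | cross k pos =>
      rw [step_cross D U W g b j (by omega) k pos hp, ih']
      simp only [Piece.isX, Piece.at, cor, hp, true_and]
      ring
    | cup k s =>
      rw [step_cup D U W g b j (by omega) k s hp, ih']
      simp [Piece.isX]
    | cap k s =>
      rw [step_cap D U W g b j (by omega) k s hp, ih']
      simp [Piece.isX]

lemma phi_ends (D : Dia) (U : Finset ℕ) (W : ℕ) (g : ℕ → ℤ) (b : Bool) :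
    ∑ i ∈ Finset.range (str D.pc D.n), hsum D U W g b D.n i
      = ∑ i ∈ Finset.range (str D.pc 0), hsum D U W g b 0 i := by
  obtain ⟨h1, h2⟩ := last_circle D
  have hg0 : gl D.pc D.n 0 = 0 := gl_zero D.pc D.n (posOK D) D.n le_rfl
  have hg1 : D.F U (gl D.pc D.n 1) = D.F U 1 := by
    have := fre_gl_last D.pc U D.n (posOK D) D.n le_rfl
    rw [D.hfin] at this
    exact this
  rw [D.hfin]
  simp only [str, Finset.sum_range_one, hsum, h1, h2, sl, ori]
  congr 2
  cases b
  · simp only [sdg, Bool.false_eq_true, if_false, hg0, gl]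
  · simp only [sdg, if_true, zero_add, hg1, gl]

lemma bal_side (D : Dia) (U : Finset ℕ) (W : ℕ) (g : ℕ → ℤ) (b : Bool) :
    ∑ c ∈ D.C.filter (fun c => D.ci (sl D.pc c (sdk b (D.pc c).at)) = W),
      (g (D.F U (cor D.pc c .T)) - g (D.F U (cor D.pc c .B))) = 0 := by
  have h1 := phi_n D U W g b D.n le_rfl
  rw [phi_ends] at h1
  have h2 : D.C.filter (fun c => D.ci (sl D.pc c (sdk b (D.pc c).at)) = W)
      = (Finset.range D.n).filter (fun c => (D.pc c).isX = true ∧
            D.ci (sl D.pc c (sdk b (D.pc c).at)) = W) := by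
    ext c
    simp only [Dia.C, Finset.mem_filter]
    tauto
  rw [h2]
  linarith

theorem bal_l (D : Dia) (U : Finset ℕ) (W : ℕ) (g : ℕ → ℤ) :
    ∑ c ∈ D.C.filter (fun c => D.cl c = W), (g (D.F U (cor D.pc c .T)) - g (D.F U (cor D.pc c .B)))
      = 0 := bal_side D U W g true

theorem bal_r (D : Dia) (U : Finset ℕ) (W : ℕ) (g : ℕ → ℤ) :
    ∑ c ∈ D.C.filter (fun c => D.cr c = W), (g (D.F U (cor D.pc c .T)) - g (D.F U (cor D.pc c .B)))
      = 0 := bal_side D U W g false

lemma const_side (D : Dia) (U : Finset ℕ) (W : ℕ) (b : Bool)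
    (hU : ∀ c ∈ U, c ∈ D.C → D.ci (sl D.pc c (sdk b (D.pc c).at)) ≠ W) (c c' : ℕ)
    (hc : c ∈ D.C) (hc' : c' ∈ D.C) (h : D.ci (sl D.pc c (sdk b (D.pc c).at)) = W)
    (h' : D.ci (sl D.pc c' (sdk b (D.pc c').at)) = W) :
    D.F U (cor D.pc c .T) = D.F U (cor D.pc c' .T) := by
  have hsd : ∀ o i, sdg b o i = i ∨ sdg b o i = i + 1 := by
    intro o i; unfold sdg; split_ifs <;> simp
  have key : ∀ c, c ∈ D.C → D.ci (sl D.pc c (sdk b (D.pc c).at)) = W →
      ∃ r, D.IsRoot r ∧ D.rc r = W ∧
        D.F U (gl D.pc r.1 (sdg b (ori D.pc r.1 r.2) r.2)) = D.F U (cor D.pc c .T) := by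
    intro c hc h
    obtain ⟨hn, k, pos, hp⟩ := (mem_C_iff D c).mp hc
    obtain ⟨hk, ho1, ho2, -, -, -⟩ := D.hcross c hn k pos hp
    simp only [hp, Piece.at] at h
    have hs : str D.pc (c + 1) = str D.pc c := by simp only [str, hp]
    have hsl : ∀ i, sl D.pc (c + 1) i = sl D.pc c i := by intro i; simp only [sl, hp]
    have hor : ∀ i, ori D.pc (c + 1) i = ori D.pc c i := by intro i; simp only [ori, hp]
    refine ⟨(c + 1, sdk b k), ⟨hn, ?_⟩, ?_, ?_⟩
    · show sdk b k < str D.pc (c + 1)
      rw [hs]; unfold sdk; split_ifs <;> omega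
    · show D.ci (sl D.pc (c + 1) (sdk b k)) = W
      rw [hsl]; exact h
    · show D.F U (gl D.pc (c + 1) (sdg b (ori D.pc (c + 1) (sdk b k)) (sdk b k))) = _
      have ho : ori D.pc (c + 1) (sdk b k) = true := by
        rw [hor]; unfold sdk; split_ifs
        · exact ho1
        · exact ho2
      have hg : sdg b (ori D.pc (c + 1) (sdk b k)) (sdk b k) = k + 1 := by
        rw [ho]; cases b <;> simp [sdg, sdk]
      rw [hg]
      simp only [gl, hp, cor, if_true]
  obtain ⟨r, hr, hrW, hrF⟩ := key c hc h
  obtain ⟨r', hr', hrW', hrF'⟩ := key c' hc' h'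
  rw [← hrF, ← hrF']
  refine circle_const D W (fun j i => D.F U (gl D.pc j (sdg b (ori D.pc j i) i))) ?_ ?_ ?_ r r' hr hr'
    hrW hrW'
  · intro j hj k pos hp i hi hW
    obtain ⟨hk, ho1, ho2, -, -, -⟩ := D.hcross j hj k pos hp
    have hor : ori D.pc (j + 1) i = ori D.pc j i := by simp only [ori, hp]
    have hgl : ∀ g', gl D.pc (j + 1) g' = if g' = k + 1 then j + 2 else gl D.pc j g' := by
      intro g'; simp only [gl, hp]
    simp only [hor, hgl]
    split_ifs with hg
    · have hi0 : i = sdk b k := by
        unfold sdg sdk at *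
        by_cases h2 : b = ori D.pc j i
        · rw [if_pos h2] at hg
          have : i = k := by omega
          subst this
          rw [ho1] at h2
          rw [h2]
          simp
        · rw [if_neg h2] at hg
          subst hg
          rw [ho2] at h2
          have : b = false := by cases b <;> simp_all
          rw [this]
          simp
      have hjC : j ∈ D.C := (mem_C_iff D j).mpr ⟨hj, k, pos, hp⟩
      have hjU : j ∉ U := by
        intro hjU
        refine hU j hjU hjC ?_
        rw [hp]
        simp only [Piece.at]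
        rw [← hi0]; exact hW
      rw [hg]
      exact fre_cross D.pc U j D.n hj k pos hp hjU
    · rfl
  · intro j hj k s hp
    have hsl : ∀ i, sl D.pc (j + 1) i = if i < k then sl D.pc j i else if i < k + 2 then j + 1
        else sl D.pc j (i - 2) := by intro i; simp only [sl, hp]
    have hor : ∀ i, ori D.pc (j + 1) i = if i < k then ori D.pc j i else if i = k then s else
          if i = k + 1 then !s else ori D.pc j (i - 2) := by intro i; simp only [ori, hp]
    have hgl : ∀ g', gl D.pc (j + 1) g' = if g' ≤ k then gl D.pc j g' else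
        if g' = k + 1 then j + 2 else gl D.pc j (g' - 2) := by intro g'; simp only [gl, hp]
    refine ⟨fun i hi _ => ?_, fun i hki hi _ => ?_, fun _ => ?_⟩
    · have e2 : ori D.pc (j + 1) i = ori D.pc j i := by rw [hor, if_pos hi]
      have e3 : gl D.pc (j + 1) (sdg b (ori D.pc j i) i) = gl D.pc j (sdg b (ori D.pc j i) i) := by
        rw [hgl, if_pos]
        rcases hsd (ori D.pc j i) i with h | h <;> omega
      simp only [e2, e3]
    · have e2 : ori D.pc (j + 1) (i + 2) = ori D.pc j i := by
        rw [hor, if_neg (by omega), if_neg (by omega), if_neg (by omega)]; simp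
      have e3 : gl D.pc (j + 1) (sdg b (ori D.pc j i) (i + 2))
          = gl D.pc j (sdg b (ori D.pc j i) i) := by
        have : sdg b (ori D.pc j i) (i + 2) = sdg b (ori D.pc j i) i + 2 := by
          unfold sdg; split_ifs <;> omega
        rw [this, hgl]
        rcases hsd (ori D.pc j i) i with h | h <;>
          rw [if_neg (by omega), if_neg (by omega)] <;> simp
      simp only [e2, e3]
    · have e3 : ori D.pc (j + 1) k = s := by rw [hor]; simp
      have e4 : ori D.pc (j + 1) (k + 1) = !s := by
        rw [hor, if_neg (by omega), if_neg (by omega), if_pos rfl]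
      have e5 : gl D.pc (j + 1) (sdg b s k) = gl D.pc (j + 1) (sdg b (!s) (k + 1)) := by
        by_cases hb : b = s
        · subst hb
          have : sdg b (!b) (k + 1) = k + 1 := by cases b <;> simp [sdg]
          rw [this]; simp [sdg]
        · have h1 : b = !s := ne_eq_not b s hb
          have h2 : sdg b s k = k := by simp [sdg, hb]
          have h3 : sdg b (!s) (k + 1) = k + 2 := by simp [sdg, h1]
          rw [h2, h3, hgl, hgl, if_pos le_rfl, if_neg (by omega), if_neg (by omega)]
          simp
      simp only [e3, e4, e5]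
  · intro j hj k s hp
    obtain ⟨hk, ho1, ho2, -, -, -⟩ := D.hcap j hj k s hp
    have hor : ∀ i, ori D.pc (j + 1) i = if i < k then ori D.pc j i else ori D.pc j (i + 2) := by
      intro i; simp only [ori, hp]
    have hgl : ∀ g', gl D.pc (j + 1) g' = if g' ≤ k then gl D.pc j g' else gl D.pc j (g' + 2) := by
      intro g'; simp only [gl, hp]
    have hF : D.F U (gl D.pc j k) = D.F U (gl D.pc j (k + 2)) :=
      fre_cap D.pc U j D.n hj k s hp
    refine ⟨fun i hi _ => ?_, fun i hki hi _ => ?_, fun _ => ?_⟩
    · have e2 : ori D.pc (j + 1) i = ori D.pc j i := by rw [hor, if_pos hi]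
      have e3 : gl D.pc (j + 1) (sdg b (ori D.pc j i) i) = gl D.pc j (sdg b (ori D.pc j i) i) := by
        rw [hgl, if_pos]
        rcases hsd (ori D.pc j i) i with h | h <;> omega
      simp only [e2, e3]
    · have e2 : ori D.pc (j + 1) i = ori D.pc j (i + 2) := by rw [hor, if_neg (by omega)]
      have : sdg b (ori D.pc j (i + 2)) (i + 2) = sdg b (ori D.pc j (i + 2)) i + 2 := by
        unfold sdg; split_ifs <;> omega
      simp only [e2, this, hgl]
      by_cases h1 : sdg b (ori D.pc j (i + 2)) i ≤ k
      · rw [if_pos h1]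
        have h2 : sdg b (ori D.pc j (i + 2)) i = k := by
          rcases hsd (ori D.pc j (i + 2)) i with h | h <;> omega
        rw [h2, hF]
      · rw [if_neg h1]
    · simp only [ho1, ho2]
      by_cases hb : b = s
      · subst hb
        have : sdg b (!b) (k + 1) = k + 1 := by cases b <;> simp [sdg]
        rw [this]; simp [sdg]
      · have h1 : b = !s := ne_eq_not b s hb
        have h2 : sdg b s k = k := by simp [sdg, hb]
        have h3 : sdg b (!s) (k + 1) = k + 2 := by simp [sdg, h1]
        rw [h2, h3, hF]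

theorem const_l (D : Dia) (U : Finset ℕ) (W : ℕ) (hU : ∀ c ∈ U, c ∈ D.C → D.cl c ≠ W) (c c' : ℕ)
    (hc : c ∈ D.C) (hc' : c' ∈ D.C) (h : D.cl c = W) (h' : D.cl c' = W) :
    D.F U (cor D.pc c .T) = D.F U (cor D.pc c' .T) :=
  const_side D U W true hU c c' hc hc' h h'

theorem const_r (D : Dia) (U : Finset ℕ) (W : ℕ) (hU : ∀ c ∈ U, c ∈ D.C → D.cr c ≠ W) (c c' : ℕ)
    (hc : c ∈ D.C) (hc' : c' ∈ D.C) (h : D.cr c = W) (h' : D.cr c' = W) :
    D.F U (cor D.pc c .T) = D.F U (cor D.pc c' .T) :=
  const_side D U W false hU c c' hc hc' h h'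

end LGAlt
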