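import Pool.Agent.LGAlt.Word

/-!
# Base definitions for the support theorem (no interior zeros)

The pieces of a word are given by a function `pc : ℕ → Piece`, the piece `pc j` leads from the level
`j` to the level `j + 1`.  The strands of a level are numbered from the left, starting with `0`, the
gap `g` is the one on the left of the strand `g` (so there are `str pc j + 1` gaps).
`U` is a finite set of crossings (numbers `j` of the pieces), the crossings in `U` are active, the
other ones are omitted.

* gap labels `gl`: a gap label is `0`, `1` (the two gaps of the level `0`) or `j + 2` for the gap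
  above the crossing `j`, or for the gap inside the cup `j`;
* strand labels `sl`: `0` or `j + 1` for the strands of the cup `j`;
* `fre pc U n x` : representative of the face of the label `x`;
* `cre pc n x` : representative of the Seifert circle of the strand label `x`;
* `cmp pc U n x` : representative of the connected component of the strand label `x`.
-/

namespace LGAlt

/-- The four marks of a crossing: top, bottom, left, right. -/
inductive Mk
  | T | B | L | R
  deriving DecidableEq

instance : Fintype Mk := ⟨{.T, .B, .L, .R}, by intro x; cases x <;> decide⟩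

/-- number of strands at level `j` -/
def str (pc : ℕ → Piece) : ℕ → ℕ
  | 0 => 1
  | j + 1 =>
    match pc j with
    | .cross _ _ => str pc j
    | .cup _ _ => str pc j + 2
    | .cap _ _ => str pc j - 2

/-- orientation of strand `i` at level `j` (`true` = up) -/
def ori (pc : ℕ → Piece) : ℕ → ℕ → Bool
  | 0, _ => true
  | j + 1, i =>
    match pc j with
    | .cross _ _ => ori pc j i
    | .cup k s => if i < k then ori pc j i else if i = k then s else
        if i = k + 1 then !s else ori pc j (i - 2)
    | .cap k _ => if i < k then ori pc j i else ori pc j (i + 2)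

/-- label of the gap `g` at level `j` -/
def gl (pc : ℕ → Piece) : ℕ → ℕ → ℕ
  | 0, g => g
  | j + 1, g =>
    match pc j with
    | .cross k _ => if g = k + 1 then j + 2 else gl pc j g
    | .cup k _ => if g ≤ k then gl pc j g else if g = k + 1 then j + 2 else gl pc j (g - 2)
    | .cap k _ => if g ≤ k then gl pc j g else gl pc j (g + 2)

/-- label of the strand `i` at level `j` -/
def sl (pc : ℕ → Piece) : ℕ → ℕ → ℕ
  | 0, _ => 0
  | j + 1, i =>
    match pc j with
    | .cross _ _ => sl pc j i
    | .cup k _ => if i < k then sl pc j i else if i < k + 2 then j + 1 else sl pc j (i - 2)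
    | .cap k _ => if i < k then sl pc j i else sl pc j (i + 2)

/-- identification of the representatives `a` and `b` -/
def mrg (a b x : ℕ) : ℕ := if x = max a b then min a b else x

/-- representative of the circle of a strand label, after the pieces `0, …, j - 1` -/
def cre (pc : ℕ → Piece) : ℕ → ℕ → ℕ
  | 0, x => x
  | j + 1, x =>
    match pc j with
    | .cross _ _ => cre pc j x
    | .cup _ _ => cre pc j x
    | .cap k _ => mrg (cre pc j (sl pc j k)) (cre pc j (sl pc j (k + 1))) (cre pc j x)

/-- representative of the connected component of a strand label -/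
def cmp (pc : ℕ → Piece) (U : Finset ℕ) : ℕ → ℕ → ℕ
  | 0, x => x
  | j + 1, x =>
    match pc j with
    | .cross k _ => if j ∈ U then
        mrg (cmp pc U j (sl pc j k)) (cmp pc U j (sl pc j (k + 1))) (cmp pc U j x)
        else cmp pc U j x
    | .cup _ _ => cmp pc U j x
    | .cap k _ => mrg (cmp pc U j (sl pc j k)) (cmp pc U j (sl pc j (k + 1))) (cmp pc U j x)

/-- representative of the face of a gap label -/
def fre (pc : ℕ → Piece) (U : Finset ℕ) : ℕ → ℕ → ℕ
  | 0, x => x
  | j + 1, x =>
    match pc j with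
    | .cross k _ => if j ∈ U then fre pc U j x
        else mrg (fre pc U j (j + 2)) (fre pc U j (gl pc j (k + 1))) (fre pc U j x)
    | .cup _ _ => fre pc U j x
    | .cap k _ => mrg (fre pc U j (gl pc j k)) (fre pc U j (gl pc j (k + 2))) (fre pc U j x)

/-- is the piece a crossing -/
def Piece.isX : Piece → Bool
  | .cross _ _ => true
  | _ => false

/-- is the piece a cup -/
def Piece.isCup : Piece → Bool
  | .cup _ _ => true
  | _ => false

/-- is the piece a cap -/
def Piece.isCap : Piece → Bool
  | .cap _ _ => true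
  | _ => false

/-- position of a piece -/
def Piece.at : Piece → ℕ
  | .cross k _ => k
  | .cup k _ => k
  | .cap k _ => k

/-- sign of a crossing -/
def Piece.pos : Piece → Bool
  | .cross _ p => p
  | _ => true

/-- the label of the corner of the crossing `c` with the mark `m` -/
def cor (pc : ℕ → Piece) (c : ℕ) : Mk → ℕ
  | .T => c + 2
  | .B => gl pc c ((pc c).at + 1)
  | .L => gl pc c (pc c).at
  | .R => gl pc c ((pc c).at + 2)

/-- the first bit of a mark -/
def ub (pc : ℕ → Piece) (c : ℕ) : Mk → Bool
  | .T => true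
  | .B => false
  | .L => !(pc c).pos
  | .R => (pc c).pos

/-- the second bit of a mark -/
def vb (pc : ℕ → Piece) (c : ℕ) : Mk → Bool
  | .T => false
  | .B => true
  | .L => !(pc c).pos
  | .R => (pc c).pos

/-- the sign of the crossing `c` as an integer -/
def sgc (pc : ℕ → Piece) (c : ℕ) : ℤ := if (pc c).pos then 1 else -1

/-- the exponent of a pair of markings -/
def Val (pc : ℕ → Piece) (U : Finset ℕ) (m₁ m₂ : ℕ → Mk) : ℤ × ℤ :=
  (∑ c ∈ U, if ub pc c (m₁ c) = true ∧ vb pc c (m₂ c) = false then sgc pc c else 0,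
   ∑ c ∈ U, if ub pc c (m₁ c) = false ∧ vb pc c (m₂ c) = true then sgc pc c else 0)

/-- One step of a history.  `act` : is the crossing active, `N` : number of strands before the
piece (so that the gaps are `0, …, N`), `X`, `Y` : holes before and after the piece. -/
def stp (p : Piece) (act : Prop) (mk : Mk) (N : ℕ) (X Y : ℕ → Bool) : Prop :=
  match p with
  | .cross k _ =>
    (act →
      match mk with
      | .T => X (k + 1) = false ∧ ∀ g ≤ N, Y g = X g
      | .B => X (k + 1) = true ∧ ∀ g ≤ N, Y g = X g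
      | .L => X k = true ∧ X (k + 1) = false ∧ Y k = false ∧ Y (k + 1) = true ∧
          ∀ g ≤ N, g ≠ k → g ≠ k + 1 → Y g = X g
      | .R => X (k + 2) = true ∧ X (k + 1) = false ∧ Y (k + 2) = false ∧ Y (k + 1) = true ∧
          ∀ g ≤ N, g ≠ k + 2 → g ≠ k + 1 → Y g = X g) ∧
    (¬ act → ∀ g ≤ N, Y g = X g)
  | .cup k _ => Y (k + 1) = true ∧ (Y k).toNat + (Y (k + 2)).toNat = (X k).toNat ∧
      (∀ g < k, Y g = X g) ∧ ∀ g, k < g → g ≤ N → Y (g + 2) = X g
  | .cap k _ => X (k + 1) = false ∧ (Y k).toNat + 1 = (X k).toNat + (X (k + 2)).toNat ∧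
      (∀ g < k, Y g = X g) ∧ ∀ g, k < g → g + 2 ≤ N → Y g = X (g + 2)

/-- at the root `r = (level, strand)` the holes in the two gaps next to the strand are removed -/
def abr (r : ℕ × ℕ) (j : ℕ) (X : ℕ → Bool) : ℕ → Bool :=
  fun g => if j = r.1 ∧ (g = r.2 ∨ g = r.2 + 1) then false else X g

/-- `m` is the marking of a history (of one layer) with root `r` -/
def Hist (pc : ℕ → Piece) (n : ℕ) (U : Finset ℕ) (r : ℕ × ℕ) (m : ℕ → Mk) : Prop :=
  ∃ X : ℕ → ℕ → Bool, X 0 0 = true ∧ X 0 1 = true ∧ X r.1 r.2 = true ∧ X r.1 (r.2 + 1) = true ∧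
    (∀ j < n, stp (pc j) (j ∈ U) (m j) (str pc j) (abr r j (X j)) (X (j + 1))) ∧
    abr r n (X n) 0 = false ∧ abr r n (X n) 1 = false

/-- the exponents of the pairs of histories -/
def PH (pc : ℕ → Piece) (n : ℕ) (U : Finset ℕ) (r : ℕ × ℕ) : Set (ℤ × ℤ) :=
  {z | ∃ m₁ m₂, Hist pc n U r m₁ ∧ Hist pc n U r m₂ ∧ z = Val pc U m₁ m₂}

/-- `m` is a Kauffman state with root `r` of the subdiagram `U` -/
def Kst (pc : ℕ → Piece) (n : ℕ) (U : Finset ℕ) (r : ℕ × ℕ) (m : ℕ → Mk) : Prop :=
  (∀ c ∈ U, ∀ c' ∈ U, fre pc U n (cor pc c (m c)) = fre pc U n (cor pc c' (m c')) → c = c') ∧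
  (∀ c ∈ U, fre pc U n (cor pc c (m c)) ≠ fre pc U n (gl pc r.1 r.2)) ∧
  (∀ c ∈ U, fre pc U n (cor pc c (m c)) ≠ fre pc U n (gl pc r.1 (r.2 + 1)))

/-- the exponents of the pairs of Kauffman states -/
def PK (pc : ℕ → Piece) (n : ℕ) (U : Finset ℕ) (r : ℕ × ℕ) : Set (ℤ × ℤ) :=
  {z | ∃ m₁ m₂, Kst pc n U r m₁ ∧ Kst pc n U r m₂ ∧ z = Val pc U m₁ m₂}

/-- Diagrams in function form: `n` pieces `pc 0, …, pc (n - 1)`, and the labels `al j i` (the label
of the strand `i` at level `j` in the sense of `AltStep`). -/
structure Dia where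
  n : ℕ
  pc : ℕ → Piece
  al : ℕ → ℕ → Bool
  hcross : ∀ j < n, ∀ k pos, pc j = .cross k pos → k + 2 ≤ str pc j ∧ ori pc j k = true ∧
    ori pc j (k + 1) = true ∧ al j k = pos ∧ al j (k + 1) = !pos ∧
    ∀ i < str pc j, al (j + 1) i = al j i
  hcup : ∀ j < n, ∀ k s, pc j = .cup k s → k ≤ str pc j ∧ al (j + 1) (k + 1) = !(al (j + 1) k) ∧
    (∀ i < k, al (j + 1) i = al j i) ∧ ∀ i, k ≤ i → i < str pc j → al (j + 1) (i + 2) = al j i
  hcap : ∀ j < n, ∀ k s, pc j = .cap k s → k + 2 ≤ str pc j ∧ ori pc j k = s ∧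
    ori pc j (k + 1) = !s ∧ al j (k + 1) = !(al j k) ∧
    (∀ i < k, al (j + 1) i = al j i) ∧ ∀ i, k ≤ i → i + 2 < str pc j → al (j + 1) i = al j (i + 2)
  hfin : str pc n = 1

namespace Dia

variable (D : Dia)

/-- the crossings -/
def C : Finset ℕ := (Finset.range D.n).filter (fun j => (D.pc j).isX = true)

/-- the face of a label -/
def F (U : Finset ℕ) (x : ℕ) : ℕ := fre D.pc U D.n x

/-- the circle of a strand label -/
def ci (x : ℕ) : ℕ := cre D.pc D.n x

/-- the left circle of a crossing -/
def cl (c : ℕ) : ℕ := D.ci (sl D.pc c (D.pc c).at)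

/-- the right circle of a crossing -/
def cr (c : ℕ) : ℕ := D.ci (sl D.pc c ((D.pc c).at + 1))

/-- the strand labels -/
def SLb : Finset ℕ := insert 0 (((Finset.range D.n).filter (fun j => (D.pc j).isCup = true)).image
  (fun j => j + 1))

/-- the gap labels -/
def GLb : Finset ℕ := insert 0 (insert 1
  (((Finset.range D.n).filter (fun j => (D.pc j).isCap = false)).image (fun j => j + 2)))

/-- the circles -/
def V : Finset ℕ := D.SLb.image D.ci

/-- roots: a level and a strand -/
def IsRoot (r : ℕ × ℕ) : Prop := r.1 ≤ D.n ∧ r.2 < str D.pc r.1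

/-- the circle of a root -/
def rc (r : ℕ × ℕ) : ℕ := D.ci (sl D.pc r.1 r.2)

/-- the subdiagram with all circles and with the crossings `U` is connected -/
def ConnU (U : Finset ℕ) : Prop :=
  ∀ x ∈ D.SLb, ∀ y ∈ D.SLb, cmp D.pc U D.n x = cmp D.pc U D.n y

/-- the set of exponents does not depend on the root, for connected diagrams -/
def RI : Prop := ∀ U ⊆ D.C, D.ConnU U → ∀ r r', D.IsRoot r → D.IsRoot r' →
  PK D.pc D.n U r = PK D.pc D.n U r'

end Dia

end LGAlt
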