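import Pool.Agent.LGAlt2.Univ

/-!
# Circles, heights and types

* `circle_const` : a function `φ j i` of the strands which is unchanged when a strand of the circle `W` passes
  a piece, has the same values at the two new strands of a cup of the circle `W` and at the two strands of a
  cap of the circle `W`, is constant on the strands of the circle `W`.  Proof: let `ψ x` be the value of `φ` at
  the strand where the label `x` is created (`ψ 0 = φ 0 0`, `ψ (j + 1) = φ (j + 1) k` for a cup `j` at `k`).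
  Then `φ j i = ψ (sl j i)` for the strands of the circle `W`, by induction on `j`, and
  `f x = if ci x = W then some (ψ x) else none` satisfies the hypothesis of `cre_const`.
* `ty_exists` : `al j i = ori j i` is the same for all strands of a circle.
-/

namespace LGAlt

/-- the value of a function of the strands at the strand where a label is created -/
private def psiC {α : Type*} (D : Dia) (φ : ℕ → ℕ → α) : ℕ → α
  | 0 => φ 0 0
  | j + 1 => φ (j + 1) (D.pc j).at

private lemma psiC_eq {α : Type*} (D : Dia) (W : ℕ) (φ : ℕ → ℕ → α)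
    (hx : ∀ j < D.n, ∀ k pos, D.pc j = .cross k pos → ∀ i < str D.pc j,
      D.ci (sl D.pc j i) = W → φ (j + 1) i = φ j i)
    (hcup : ∀ j < D.n, ∀ k s, D.pc j = .cup k s →
      (∀ i < k, D.ci (sl D.pc j i) = W → φ (j + 1) i = φ j i) ∧
      (∀ i, k ≤ i → i < str D.pc j → D.ci (sl D.pc j i) = W → φ (j + 1) (i + 2) = φ j i) ∧
      (D.ci (j + 1) = W → φ (j + 1) k = φ (j + 1) (k + 1)))
    (hcap : ∀ j < D.n, ∀ k s, D.pc j = .cap k s →
      (∀ i < k, D.ci (sl D.pc j i) = W → φ (j + 1) i = φ j i) ∧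
      (∀ i, k ≤ i → i + 2 < str D.pc j → D.ci (sl D.pc j (i + 2)) = W →
        φ (j + 1) i = φ j (i + 2)) ∧
      (D.ci (sl D.pc j k) = W → φ j k = φ j (k + 1)))
    (j : ℕ) (hj : j ≤ D.n) (i : ℕ) (hi : i < str D.pc j) (h : D.ci (sl D.pc j i) = W) :
    φ j i = psiC D φ (sl D.pc j i) := by
  induction j generalizing i with
  | zero =>
    simp only [str] at hi
    obtain rfl : i = 0 := by omega
    rfl
  | succ j ih =>
    have hjn : j < D.n := hj
    rcases hc : D.pc j with ⟨k, s⟩ | ⟨k, s⟩ | ⟨k, s⟩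
    · have e1 : sl D.pc (j + 1) i = sl D.pc j i := by rw [sl, hc]
      have e2 : str D.pc (j + 1) = str D.pc j := by rw [str, hc]
      rw [e1] at h ⊢
      rw [e2] at hi
      rw [hx j hjn k s hc i hi h]
      exact ih hjn.le i hi h
    · have e1 : sl D.pc (j + 1) i = if i < k then sl D.pc j i else if i < k + 2 then j + 1
          else sl D.pc j (i - 2) := by rw [sl, hc]
      have e2 : str D.pc (j + 1) = str D.pc j + 2 := by rw [str, hc]
      obtain ⟨h1, h2, h3⟩ := hcup j hjn k s hc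
      have hk := (D.hcup j hjn k s hc).1
      rw [e1] at h ⊢
      rw [e2] at hi
      have hat : (D.pc j).at = k := by rw [hc]; rfl
      by_cases c1 : i < k
      · rw [if_pos c1] at h ⊢
        rw [h1 i c1 h]
        exact ih hjn.le i (by omega) h
      · rw [if_neg c1] at h ⊢
        by_cases c2 : i < k + 2
        · rw [if_pos c2] at h ⊢
          show φ (j + 1) i = φ (j + 1) (D.pc j).at
          rw [hat]
          rcases (by omega : i = k ∨ i = k + 1) with rfl | rfl
          · rfl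
          · exact (h3 h).symm
        · rw [if_neg c2] at h ⊢
          have := h2 (i - 2) (by omega) (by omega) h
          rw [Nat.sub_add_cancel (by omega)] at this
          rw [this]
          exact ih hjn.le (i - 2) (by omega) h
    · have e1 : sl D.pc (j + 1) i = if i < k then sl D.pc j i else sl D.pc j (i + 2) := by
        rw [sl, hc]
      have e2 : str D.pc (j + 1) = str D.pc j - 2 := by rw [str, hc]
      obtain ⟨h1, h2, -⟩ := hcap j hjn k s hc
      have hk := (D.hcap j hjn k s hc).1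
      rw [e1] at h ⊢
      rw [e2] at hi
      by_cases c1 : i < k
      · rw [if_pos c1] at h ⊢
        rw [h1 i c1 h]
        exact ih hjn.le i (by omega) h
      · rw [if_neg c1] at h ⊢
        rw [h2 i (by omega) (by omega) h]
        exact ih hjn.le (i + 2) (by omega) h

theorem circle_const {α : Type*} (D : Dia) (W : ℕ) (φ : ℕ → ℕ → α)
    (hx : ∀ j < D.n, ∀ k pos, D.pc j = .cross k pos → ∀ i < str D.pc j,
      D.ci (sl D.pc j i) = W → φ (j + 1) i = φ j i)
    (hcup : ∀ j < D.n, ∀ k s, D.pc j = .cup k s →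
      (∀ i < k, D.ci (sl D.pc j i) = W → φ (j + 1) i = φ j i) ∧
      (∀ i, k ≤ i → i < str D.pc j → D.ci (sl D.pc j i) = W → φ (j + 1) (i + 2) = φ j i) ∧
      (D.ci (j + 1) = W → φ (j + 1) k = φ (j + 1) (k + 1)))
    (hcap : ∀ j < D.n, ∀ k s, D.pc j = .cap k s →
      (∀ i < k, D.ci (sl D.pc j i) = W → φ (j + 1) i = φ j i) ∧
      (∀ i, k ≤ i → i + 2 < str D.pc j → D.ci (sl D.pc j (i + 2)) = W →
        φ (j + 1) i = φ j (i + 2)) ∧
      (D.ci (sl D.pc j k) = W → φ j k = φ j (k + 1)))
    (r r' : ℕ × ℕ) (hr : D.IsRoot r) (hr' : D.IsRoot r') (h : D.rc r = W) (h' : D.rc r' = W) :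
    φ r.1 r.2 = φ r'.1 r'.2 := by
  classical
  have key := psiC_eq D W φ hx hcup hcap
  have e := cre_const D.pc D.n (fun x => if D.ci x = W then some (psiC D φ x) else none)
    (fun j hj k s hp => by
      have hci : D.ci (sl D.pc j k) = D.ci (sl D.pc j (k + 1)) := cre_cap D.pc j D.n hj k s hp
      have hk := (D.hcap j hj k s hp).1
      show (if D.ci (sl D.pc j k) = W then some (psiC D φ (sl D.pc j k)) else none) =
        (if D.ci (sl D.pc j (k + 1)) = W then some (psiC D φ (sl D.pc j (k + 1))) else none)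
      rw [← hci]
      split_ifs with hW
      · rw [← key j hj.le k (by omega) hW, ← key j hj.le (k + 1) (by omega) (hci ▸ hW),
          (hcap j hj k s hp).2.2 hW]
      · rfl)
    (sl D.pc r.1 r.2) (sl D.pc r'.1 r'.2) (h.trans h'.symm)
  have h1 : D.ci (sl D.pc r.1 r.2) = W := h
  have h2 : D.ci (sl D.pc r'.1 r'.2) = W := h'
  rw [if_pos h1, if_pos h2] at e
  rw [key r.1 hr.1 r.2 hr.2 h1, key r'.1 hr'.1 r'.2 hr'.2 h2]
  exact Option.some.inj e

private lemma not_beq_not (a b : Bool) : ((!a) == (!b)) = (a == b) := by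
  cases a <;> cases b <;> rfl

/-- the type of a circle -/
theorem ty_exists (D : Dia) : ∃ ty : ℕ → Bool, ∀ r, D.IsRoot r →
    ty (D.rc r) = (D.al r.1 r.2 == ori D.pc r.1 r.2) := by
  classical
  refine ⟨fun W => if h : ∃ r, D.IsRoot r ∧ D.rc r = W then
    (D.al h.choose.1 h.choose.2 == ori D.pc h.choose.1 h.choose.2) else true, ?_⟩
  intro r hr
  have hex : ∃ r', D.IsRoot r' ∧ D.rc r' = D.rc r := ⟨r, hr, rfl⟩
  simp only
  rw [dif_pos hex]
  refine circle_const D (D.rc r) (fun j i => (D.al j i == ori D.pc j i)) ?_ ?_ ?_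
    hex.choose r hex.choose_spec.1 hr hex.choose_spec.2 rfl
  · intro j hj k pos hp i hi _
    have h1 := (D.hcross j hj k pos hp).2.2.2.2.2 i hi
    have h2 : ori D.pc (j + 1) i = ori D.pc j i := by rw [ori, hp]
    rw [h1, h2]
  · intro j hj k s hp
    obtain ⟨hk, h1, h2, h3⟩ := D.hcup j hj k s hp
    have ho : ∀ i, ori D.pc (j + 1) i = if i < k then ori D.pc j i else if i = k then s else
        if i = k + 1 then !s else ori D.pc j (i - 2) := fun i => by rw [ori, hp]
    refine ⟨fun i hi _ => ?_, fun i hi hi' _ => ?_, fun _ => ?_⟩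
    · rw [h2 i hi, ho, if_pos hi]
    · rw [h3 i hi hi', ho, if_neg (by omega), if_neg (by omega), if_neg (by omega),
        Nat.add_sub_cancel]
    · rw [h1, ho, ho, if_neg (lt_irrefl _), if_pos rfl, if_neg (by omega), if_neg (by omega),
        if_pos rfl, not_beq_not]
  · intro j hj k s hp
    obtain ⟨hk, h1, h2, h3, h4, h5⟩ := D.hcap j hj k s hp
    have ho : ∀ i, ori D.pc (j + 1) i = if i < k then ori D.pc j i else ori D.pc j (i + 2) :=
      fun i => by rw [ori, hp]
    refine ⟨fun i hi _ => ?_, fun i hi hi' _ => ?_, fun _ => ?_⟩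
    · rw [h4 i hi, ho, if_pos hi]
    · rw [h5 i hi hi', ho, if_neg (by omega)]
    · rw [h1, h2, h3, not_beq_not]

/-- the type of a circle -/
noncomputable def Dia.ty (D : Dia) : ℕ → Bool := (ty_exists D).choose

lemma ty_root (D : Dia) (r : ℕ × ℕ) (hr : D.IsRoot r) :
    D.ty (D.rc r) = (D.al r.1 r.2 == ori D.pc r.1 r.2) := (ty_exists D).choose_spec r hr

private lemma mem_C_data (D : Dia) (c : ℕ) (hc : c ∈ D.C) :
    c < D.n ∧ ∃ k pos, D.pc c = .cross k pos := by
  have h := Finset.mem_filter.mp hc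
  refine ⟨Finset.mem_range.mp h.1, ?_⟩
  rcases hp : D.pc c with ⟨k, s⟩ | ⟨k, s⟩ | ⟨k, s⟩
  · exact ⟨k, s, rfl⟩
  · have := h.2
    rw [hp] at this
    exact absurd this (by simp [Piece.isX])
  · have := h.2
    rw [hp] at this
    exact absurd this (by simp [Piece.isX])

lemma ty_cl (D : Dia) (c : ℕ) (hc : c ∈ D.C) : D.ty (D.cl c) = (D.pc c).pos := by
  obtain ⟨hn, k, pos, hp⟩ := mem_C_data D c hc
  obtain ⟨hk, h1, h2, h3, h4, -⟩ := D.hcross c hn k pos hp
  have hr : D.IsRoot (c, k) := ⟨hn.le, by simp only; omega⟩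
  have e : D.cl c = D.rc (c, k) := by
    simp only [Dia.cl, Dia.rc, hp, Piece.at]
  rw [e, ty_root D (c, k) hr, hp]
  simp only [Piece.pos]
  rw [h1, h3]
  cases pos <;> rfl

lemma ty_cr (D : Dia) (c : ℕ) (hc : c ∈ D.C) : D.ty (D.cr c) = !(D.pc c).pos := by
  obtain ⟨hn, k, pos, hp⟩ := mem_C_data D c hc
  obtain ⟨hk, h1, h2, h3, h4, -⟩ := D.hcross c hn k pos hp
  have hr : D.IsRoot (c, k + 1) := ⟨hn.le, by simp only; omega⟩
  have e : D.cr c = D.rc (c, k + 1) := by
    simp only [Dia.cr, Dia.rc, hp, Piece.at]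
  rw [e, ty_root D (c, k + 1) hr, hp]
  simp only [Piece.pos]
  rw [h2, h4]
  cases pos <;> rfl

lemma cl_mem (D : Dia) (c : ℕ) (hc : c ∈ D.C) : D.cl c ∈ D.V := by
  obtain ⟨hn, k, pos, hp⟩ := mem_C_data D c hc
  have hk := (D.hcross c hn k pos hp).1
  refine Finset.mem_image_of_mem _ (sl_mem D c hn.le _ ?_)
  rw [hp]
  simp only [Piece.at]
  omega

lemma cr_mem (D : Dia) (c : ℕ) (hc : c ∈ D.C) : D.cr c ∈ D.V := by
  obtain ⟨hn, k, pos, hp⟩ := mem_C_data D c hc
  have hk := (D.hcross c hn k pos hp).1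
  refine Finset.mem_image_of_mem _ (sl_mem D c hn.le _ ?_)
  rw [hp]
  simp only [Piece.at]
  omega

lemma cl_ne_cr (D : Dia) (c : ℕ) (hc : c ∈ D.C) : D.cl c ≠ D.cr c := by
  intro h
  have h1 := ty_cl D c hc
  have h2 := ty_cr D c hc
  rw [h, h2] at h1
  cases hb : (D.pc c).pos <;> simp [hb] at h1

end LGAlt
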