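import Pool.Agent.LGAlt2.Base

/-!
# Representatives: basic properties

* `fre_const` : a function on labels which respects all identifications is constant on faces.  Show
  `f (fre pc U n x) = f x` by induction on `n` (`mrg a b y` is `y`, or `y = max a b` and the value is
  `min a b`; `f (fre (gl j k)) = f (gl j k)` by the induction hypothesis).
* `fre_le`, `fre_fresh`, `gl_lt` : `fre pc U j x ≤ x`, labels `≥ j + 2` are not yet identified.
* `fre_trans` : labels identified at the level `j` are identified at all later levels.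
* the same for `cre` (`sl_lt` : labels `≥ j + 1` are new) and `cmp`.
-/

namespace LGAlt

lemma mrg_left (a b : ℕ) : mrg a b a = min a b := by
  unfold mrg; split_ifs <;> omega

lemma mrg_right (a b : ℕ) : mrg a b b = min a b := by
  unfold mrg; split_ifs <;> omega

lemma mrg_le (a b x : ℕ) : mrg a b x ≤ x := by
  unfold mrg; split_ifs <;> omega

/-- two elements are identified iff they are equal or both belong to `{a, b}` -/
lemma mrg_eq_iff (a b x y : ℕ) :
    mrg a b x = mrg a b y ↔ x = y ∨ ((x = a ∨ x = b) ∧ (y = a ∨ y = b)) := by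
  unfold mrg; split_ifs <;> omega

private lemma mrg_of_gt (a b x : ℕ) (ha : a < x) (hb : b < x) : mrg a b x = x := by
  unfold mrg
  rw [if_neg (by omega)]

private lemma mrg_cong (a b x y : ℕ) (h : x = y) : mrg a b x = mrg a b y := by rw [h]

/-- a function which takes the same value at `a` and `b` does not see `mrg a b` -/
private lemma apply_mrg {α : Type*} (f : ℕ → α) (a b x : ℕ) (h : f a = f b) :
    f (mrg a b x) = f x := by
  unfold mrg
  split_ifs with hx
  · rcases le_total a b with hab | hab
    · rw [min_eq_left hab, hx, max_eq_right hab, h]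
    · rw [min_eq_right hab, hx, max_eq_left hab, h]
  · rfl

variable (pc : ℕ → Piece)

/-! ### Gap labels and faces -/

/-- hypothesis: the positions of the pieces are in range -/
def PosOK (n : ℕ) : Prop := ∀ j < n, match pc j with
  | .cross k _ => k + 2 ≤ str pc j
  | .cup k _ => k ≤ str pc j
  | .cap k _ => k + 2 ≤ str pc j

private lemma pos_cross {n : ℕ} (hp : PosOK pc n) {j : ℕ} (hj : j < n) {k : ℕ} {s : Bool}
    (h : pc j = .cross k s) : k + 2 ≤ str pc j := by
  have := hp j hj
  rw [h] at this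
  exact this

private lemma pos_cup {n : ℕ} (hp : PosOK pc n) {j : ℕ} (hj : j < n) {k : ℕ} {s : Bool}
    (h : pc j = .cup k s) : k ≤ str pc j := by
  have := hp j hj
  rw [h] at this
  exact this

private lemma pos_cap {n : ℕ} (hp : PosOK pc n) {j : ℕ} (hj : j < n) {k : ℕ} {s : Bool}
    (h : pc j = .cap k s) : k + 2 ≤ str pc j := by
  have := hp j hj
  rw [h] at this
  exact this

private lemma str_cross {j k : ℕ} {s : Bool} (h : pc j = .cross k s) :
    str pc (j + 1) = str pc j := by
  rw [str, h]

private lemma str_cup {j k : ℕ} {s : Bool} (h : pc j = .cup k s) :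
    str pc (j + 1) = str pc j + 2 := by
  rw [str, h]

private lemma str_cap {j k : ℕ} {s : Bool} (h : pc j = .cap k s) :
    str pc (j + 1) = str pc j - 2 := by
  rw [str, h]

private lemma gl_cross {j k : ℕ} {s : Bool} (h : pc j = .cross k s) (g : ℕ) :
    gl pc (j + 1) g = if g = k + 1 then j + 2 else gl pc j g := by
  rw [gl, h]

private lemma gl_cup {j k : ℕ} {s : Bool} (h : pc j = .cup k s) (g : ℕ) :
    gl pc (j + 1) g = if g ≤ k then gl pc j g else if g = k + 1 then j + 2
      else gl pc j (g - 2) := by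
  rw [gl, h]

private lemma gl_cap {j k : ℕ} {s : Bool} (h : pc j = .cap k s) (g : ℕ) :
    gl pc (j + 1) g = if g ≤ k then gl pc j g else gl pc j (g + 2) := by
  rw [gl, h]

private lemma sl_cross {j k : ℕ} {s : Bool} (h : pc j = .cross k s) (i : ℕ) :
    sl pc (j + 1) i = sl pc j i := by
  rw [sl, h]

private lemma sl_cup {j k : ℕ} {s : Bool} (h : pc j = .cup k s) (i : ℕ) :
    sl pc (j + 1) i = if i < k then sl pc j i else if i < k + 2 then j + 1
      else sl pc j (i - 2) := by
  rw [sl, h]

private lemma sl_cap {j k : ℕ} {s : Bool} (h : pc j = .cap k s) (i : ℕ) :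
    sl pc (j + 1) i = if i < k then sl pc j i else sl pc j (i + 2) := by
  rw [sl, h]

lemma gl_lt (n : ℕ) (hp : PosOK pc n) (j : ℕ) (hj : j ≤ n) (g : ℕ) (hg : g ≤ str pc j) :
    gl pc j g < j + 2 := by
  induction j generalizing g with
  | zero =>
    simp only [str, gl] at hg ⊢
    omega
  | succ j ih =>
    have hjn : j < n := hj
    rcases h : pc j with ⟨k, s⟩ | ⟨k, s⟩ | ⟨k, s⟩
    · rw [str_cross pc h] at hg
      rw [gl_cross pc h]
      split_ifs
      · omega
      · have := ih hjn.le g hg
        omega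
    · rw [str_cup pc h] at hg
      have hk := pos_cup pc hp hjn h
      rw [gl_cup pc h]
      split_ifs
      · have := ih hjn.le g (by omega)
        omega
      · omega
      · have := ih hjn.le (g - 2) (by omega)
        omega
    · rw [str_cap pc h] at hg
      have hk := pos_cap pc hp hjn h
      rw [gl_cap pc h]
      split_ifs
      · have := ih hjn.le g (by omega)
        omega
      · have := ih hjn.le (g + 2) (by omega)
        omega

lemma sl_lt (n : ℕ) (hp : PosOK pc n) (j : ℕ) (hj : j ≤ n) (i : ℕ) (hi : i < str pc j) :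
    sl pc j i < j + 1 := by
  induction j generalizing i with
  | zero =>
    simp only [sl]
    omega
  | succ j ih =>
    have hjn : j < n := hj
    rcases h : pc j with ⟨k, s⟩ | ⟨k, s⟩ | ⟨k, s⟩
    · rw [str_cross pc h] at hi
      rw [sl_cross pc h]
      have := ih hjn.le i hi
      omega
    · rw [str_cup pc h] at hi
      have hk := pos_cup pc hp hjn h
      rw [sl_cup pc h]
      split_ifs
      · have := ih hjn.le i (by omega)
        omega
      · omega
      · have := ih hjn.le (i - 2) (by omega)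
        omega
    · rw [str_cap pc h] at hi
      have hk := pos_cap pc hp hjn h
      rw [sl_cap pc h]
      split_ifs
      · have := ih hjn.le i (by omega)
        omega
      · have := ih hjn.le (i + 2) (by omega)
        omega

variable (U : Finset ℕ)

private lemma fre_x_mem {j k : ℕ} {s : Bool} (h : pc j = .cross k s) (hU : j ∈ U) (x : ℕ) :
    fre pc U (j + 1) x = fre pc U j x := by
  rw [fre, h]
  simp only
  rw [if_pos hU]

private lemma fre_x_not {j k : ℕ} {s : Bool} (h : pc j = .cross k s) (hU : j ∉ U) (x : ℕ) :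
    fre pc U (j + 1) x =
      mrg (fre pc U j (j + 2)) (fre pc U j (gl pc j (k + 1))) (fre pc U j x) := by
  rw [fre, h]
  simp only
  rw [if_neg hU]

private lemma fre_u {j k : ℕ} {s : Bool} (h : pc j = .cup k s) (x : ℕ) :
    fre pc U (j + 1) x = fre pc U j x := by
  rw [fre, h]

private lemma fre_a {j k : ℕ} {s : Bool} (h : pc j = .cap k s) (x : ℕ) :
    fre pc U (j + 1) x =
      mrg (fre pc U j (gl pc j k)) (fre pc U j (gl pc j (k + 2))) (fre pc U j x) := by
  rw [fre, h]

private lemma cre_x {j k : ℕ} {s : Bool} (h : pc j = .cross k s) (x : ℕ) :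
    cre pc (j + 1) x = cre pc j x := by
  rw [cre, h]

private lemma cre_u {j k : ℕ} {s : Bool} (h : pc j = .cup k s) (x : ℕ) :
    cre pc (j + 1) x = cre pc j x := by
  rw [cre, h]

private lemma cre_a {j k : ℕ} {s : Bool} (h : pc j = .cap k s) (x : ℕ) :
    cre pc (j + 1) x =
      mrg (cre pc j (sl pc j k)) (cre pc j (sl pc j (k + 1))) (cre pc j x) := by
  rw [cre, h]

private lemma cmp_x_mem {j k : ℕ} {s : Bool} (h : pc j = .cross k s) (hU : j ∈ U) (x : ℕ) :
    cmp pc U (j + 1) x =
      mrg (cmp pc U j (sl pc j k)) (cmp pc U j (sl pc j (k + 1))) (cmp pc U j x) := by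
  rw [cmp, h]
  simp only
  rw [if_pos hU]

private lemma cmp_x_not {j k : ℕ} {s : Bool} (h : pc j = .cross k s) (hU : j ∉ U) (x : ℕ) :
    cmp pc U (j + 1) x = cmp pc U j x := by
  rw [cmp, h]
  simp only
  rw [if_neg hU]

private lemma cmp_u {j k : ℕ} {s : Bool} (h : pc j = .cup k s) (x : ℕ) :
    cmp pc U (j + 1) x = cmp pc U j x := by
  rw [cmp, h]

private lemma cmp_a {j k : ℕ} {s : Bool} (h : pc j = .cap k s) (x : ℕ) :
    cmp pc U (j + 1) x =
      mrg (cmp pc U j (sl pc j k)) (cmp pc U j (sl pc j (k + 1))) (cmp pc U j x) := by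
  rw [cmp, h]

lemma fre_le (j x : ℕ) : fre pc U j x ≤ x := by
  induction j with
  | zero => exact le_rfl
  | succ j ih =>
    rcases h : pc j with ⟨k, s⟩ | ⟨k, s⟩ | ⟨k, s⟩
    · by_cases hU : j ∈ U
      · rw [fre_x_mem pc U h hU]
        exact ih
      · rw [fre_x_not pc U h hU]
        exact (mrg_le _ _ _).trans ih
    · rw [fre_u pc U h]
      exact ih
    · rw [fre_a pc U h]
      exact (mrg_le _ _ _).trans ih

lemma fre_fresh (n : ℕ) (hp : PosOK pc n) (j : ℕ) (hj : j ≤ n) (x : ℕ) (hx : j + 2 ≤ x) :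
    fre pc U j x = x := by
  induction j generalizing x with
  | zero => rfl
  | succ j ih =>
    have hjn : j < n := hj
    have hix := ih hjn.le x (by omega)
    rcases h : pc j with ⟨k, s⟩ | ⟨k, s⟩ | ⟨k, s⟩
    · by_cases hU : j ∈ U
      · rw [fre_x_mem pc U h hU]
        exact hix
      · rw [fre_x_not pc U h hU, hix]
        have hk := pos_cross pc hp hjn h
        refine mrg_of_gt _ _ _ ?_ ?_
        · exact lt_of_le_of_lt (fre_le pc U j _) (by omega)
        · exact lt_of_le_of_lt (fre_le pc U j _)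
            (lt_of_lt_of_le (gl_lt pc n hp j hjn.le (k + 1) (by omega)) (by omega))
    · rw [fre_u pc U h]
      exact hix
    · rw [fre_a pc U h, hix]
      have hk := pos_cap pc hp hjn h
      refine mrg_of_gt _ _ _ ?_ ?_
      · exact lt_of_le_of_lt (fre_le pc U j _)
          (lt_of_lt_of_le (gl_lt pc n hp j hjn.le k (by omega)) (by omega))
      · exact lt_of_le_of_lt (fre_le pc U j _)
          (lt_of_lt_of_le (gl_lt pc n hp j hjn.le (k + 2) (by omega)) (by omega))

private lemma fre_step (j : ℕ) (x y : ℕ) (h : fre pc U j x = fre pc U j y) :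
    fre pc U (j + 1) x = fre pc U (j + 1) y := by
  rcases hc : pc j with ⟨k, s⟩ | ⟨k, s⟩ | ⟨k, s⟩
  · by_cases hU : j ∈ U
    · rw [fre_x_mem pc U hc hU, fre_x_mem pc U hc hU, h]
    · rw [fre_x_not pc U hc hU, fre_x_not pc U hc hU, h]
  · rw [fre_u pc U hc, fre_u pc U hc, h]
  · rw [fre_a pc U hc, fre_a pc U hc, h]

lemma fre_trans (j n : ℕ) (hj : j ≤ n) (x y : ℕ) (h : fre pc U j x = fre pc U j y) :
    fre pc U n x = fre pc U n y := by
  induction n, hj using Nat.le_induction with
  | base => exact h
  | succ n _ ih => exact fre_step pc U n x y ih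

lemma fre_cross (j n : ℕ) (hj : j < n) (k : ℕ) (pos : Bool) (hp : pc j = .cross k pos)
    (hU : j ∉ U) : fre pc U n (j + 2) = fre pc U n (gl pc j (k + 1)) := by
  refine fre_trans pc U (j + 1) n hj _ _ ?_
  rw [fre_x_not pc U hp hU, fre_x_not pc U hp hU, mrg_left, mrg_right]

lemma fre_cap (j n : ℕ) (hj : j < n) (k : ℕ) (s : Bool) (hp : pc j = .cap k s) :
    fre pc U n (gl pc j k) = fre pc U n (gl pc j (k + 2)) := by
  refine fre_trans pc U (j + 1) n hj _ _ ?_
  rw [fre_a pc U hp, fre_a pc U hp, mrg_left, mrg_right]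

private lemma fre_inv {α : Type*} (n : ℕ) (f : ℕ → α)
    (hx : ∀ j < n, ∀ k pos, pc j = .cross k pos → j ∉ U → f (j + 2) = f (gl pc j (k + 1)))
    (hc : ∀ j < n, ∀ k s, pc j = .cap k s → f (gl pc j k) = f (gl pc j (k + 2)))
    (x : ℕ) : f (fre pc U n x) = f x := by
  induction n generalizing x with
  | zero => rfl
  | succ n ih =>
    have ih' := ih (fun j hj => hx j (by omega)) (fun j hj => hc j (by omega))
    rcases h : pc n with ⟨k, s⟩ | ⟨k, s⟩ | ⟨k, s⟩
    · by_cases hU : n ∈ U
      · rw [fre_x_mem pc U h hU]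
        exact ih' x
      · rw [fre_x_not pc U h hU, apply_mrg f _ _ _ (by
          rw [ih', ih']
          exact hx n (by omega) k s h hU)]
        exact ih' x
    · rw [fre_u pc U h]
      exact ih' x
    · rw [fre_a pc U h, apply_mrg f _ _ _ (by
        rw [ih', ih']
        exact hc n (by omega) k s h)]
      exact ih' x

theorem fre_const {α : Type*} (n : ℕ) (f : ℕ → α)
    (hx : ∀ j < n, ∀ k pos, pc j = .cross k pos → j ∉ U → f (j + 2) = f (gl pc j (k + 1)))
    (hc : ∀ j < n, ∀ k s, pc j = .cap k s → f (gl pc j k) = f (gl pc j (k + 2)))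
    (x y : ℕ) (h : fre pc U n x = fre pc U n y) : f x = f y := by
  rw [← fre_inv pc U n f hx hc x, ← fre_inv pc U n f hx hc y, h]

lemma fre_mono (n : ℕ) {U U' : Finset ℕ} (hU : U ⊆ U') (x y : ℕ)
    (h : fre pc U' n x = fre pc U' n y) : fre pc U n x = fre pc U n y := by
  refine fre_const pc U' n (fre pc U n) ?_ ?_ x y h
  · intro j hj k pos hp hjU
    exact fre_cross pc U j n hj k pos hp (fun hm => hjU (hU hm))
  · intro j hj k s hp
    exact fre_cap pc U j n hj k s hp

/-- the leftmost gap has always the label `0` -/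
lemma gl_zero (n : ℕ) (hp : PosOK pc n) (j : ℕ) (hj : j ≤ n) : gl pc j 0 = 0 := by
  induction j with
  | zero => rfl
  | succ j ih =>
    have hi := ih (by omega)
    rcases h : pc j with ⟨k, s⟩ | ⟨k, s⟩ | ⟨k, s⟩
    · rw [gl_cross pc h, if_neg (by omega)]
      exact hi
    · rw [gl_cup pc h, if_pos (by omega)]
      exact hi
    · rw [gl_cap pc h, if_pos (by omega)]
      exact hi

/-- the rightmost gap belongs always to the face of the label `1` -/
lemma fre_gl_last (n : ℕ) (hp : PosOK pc n) (j : ℕ) (hj : j ≤ n) :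
    fre pc U n (gl pc j (str pc j)) = fre pc U n 1 := by
  induction j with
  | zero => rfl
  | succ j ih =>
    have hjn : j < n := hj
    have hi := ih hjn.le
    rcases h : pc j with ⟨k, s⟩ | ⟨k, s⟩ | ⟨k, s⟩
    · have hk := pos_cross pc hp hjn h
      rw [str_cross pc h, gl_cross pc h, if_neg (by omega)]
      exact hi
    · have hk := pos_cup pc hp hjn h
      rw [str_cup pc h, gl_cup pc h, if_neg (by omega), if_neg (by omega),
        Nat.add_sub_cancel]
      exact hi
    · have hk := pos_cap pc hp hjn h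
      rw [str_cap pc h, gl_cap pc h]
      split_ifs with hle
      · have e1 : str pc j - 2 = k := by omega
        have e2 : k + 2 = str pc j := by omega
        rw [e1, fre_cap pc U j n hjn k s h, e2]
        exact hi
      · rw [Nat.sub_add_cancel (by omega)]
        exact hi

/-! ### Strand labels, circles and components -/

private lemma cre_step (j : ℕ) (x y : ℕ) (h : cre pc j x = cre pc j y) :
    cre pc (j + 1) x = cre pc (j + 1) y := by
  rcases hc : pc j with ⟨k, s⟩ | ⟨k, s⟩ | ⟨k, s⟩
  · rw [cre_x pc hc, cre_x pc hc, h]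
  · rw [cre_u pc hc, cre_u pc hc, h]
  · rw [cre_a pc hc, cre_a pc hc, h]

lemma cre_trans (j n : ℕ) (hj : j ≤ n) (x y : ℕ) (h : cre pc j x = cre pc j y) :
    cre pc n x = cre pc n y := by
  induction n, hj using Nat.le_induction with
  | base => exact h
  | succ n _ ih => exact cre_step pc n x y ih

lemma cre_cap (j n : ℕ) (hj : j < n) (k : ℕ) (s : Bool) (hp : pc j = .cap k s) :
    cre pc n (sl pc j k) = cre pc n (sl pc j (k + 1)) := by
  refine cre_trans pc (j + 1) n hj _ _ ?_
  rw [cre_a pc hp, cre_a pc hp, mrg_left, mrg_right]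

private lemma cre_inv {α : Type*} (n : ℕ) (f : ℕ → α)
    (hc : ∀ j < n, ∀ k s, pc j = .cap k s → f (sl pc j k) = f (sl pc j (k + 1)))
    (x : ℕ) : f (cre pc n x) = f x := by
  induction n generalizing x with
  | zero => rfl
  | succ n ih =>
    have ih' := ih (fun j hj => hc j (by omega))
    rcases h : pc n with ⟨k, s⟩ | ⟨k, s⟩ | ⟨k, s⟩
    · rw [cre_x pc h]
      exact ih' x
    · rw [cre_u pc h]
      exact ih' x
    · rw [cre_a pc h, apply_mrg f _ _ _ (by
        rw [ih', ih']
        exact hc n (by omega) k s h)]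
      exact ih' x

theorem cre_const {α : Type*} (n : ℕ) (f : ℕ → α)
    (hc : ∀ j < n, ∀ k s, pc j = .cap k s → f (sl pc j k) = f (sl pc j (k + 1)))
    (x y : ℕ) (h : cre pc n x = cre pc n y) : f x = f y := by
  rw [← cre_inv pc n f hc x, ← cre_inv pc n f hc y, h]

lemma cmp_le (j x : ℕ) : cmp pc U j x ≤ x := by
  induction j with
  | zero => exact le_rfl
  | succ j ih =>
    rcases h : pc j with ⟨k, s⟩ | ⟨k, s⟩ | ⟨k, s⟩
    · by_cases hU : j ∈ U
      · rw [cmp_x_mem pc U h hU]
        exact (mrg_le _ _ _).trans ih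
      · rw [cmp_x_not pc U h hU]
        exact ih
    · rw [cmp_u pc U h]
      exact ih
    · rw [cmp_a pc U h]
      exact (mrg_le _ _ _).trans ih

lemma cmp_fresh (n : ℕ) (hp : PosOK pc n) (j : ℕ) (hj : j ≤ n) (x : ℕ) (hx : j + 1 ≤ x) :
    cmp pc U j x = x := by
  induction j generalizing x with
  | zero => rfl
  | succ j ih =>
    have hjn : j < n := hj
    have hix := ih hjn.le x (by omega)
    rcases h : pc j with ⟨k, s⟩ | ⟨k, s⟩ | ⟨k, s⟩
    · have hk := pos_cross pc hp hjn h
      by_cases hU : j ∈ U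
      · rw [cmp_x_mem pc U h hU, hix]
        refine mrg_of_gt _ _ _ ?_ ?_
        · exact lt_of_le_of_lt (cmp_le pc U j _)
            (lt_of_lt_of_le (sl_lt pc n hp j hjn.le k (by omega)) (by omega))
        · exact lt_of_le_of_lt (cmp_le pc U j _)
            (lt_of_lt_of_le (sl_lt pc n hp j hjn.le (k + 1) (by omega)) (by omega))
      · rw [cmp_x_not pc U h hU]
        exact hix
    · rw [cmp_u pc U h]
      exact hix
    · rw [cmp_a pc U h, hix]
      have hk := pos_cap pc hp hjn h
      refine mrg_of_gt _ _ _ ?_ ?_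
      · exact lt_of_le_of_lt (cmp_le pc U j _)
          (lt_of_lt_of_le (sl_lt pc n hp j hjn.le k (by omega)) (by omega))
      · exact lt_of_le_of_lt (cmp_le pc U j _)
          (lt_of_lt_of_le (sl_lt pc n hp j hjn.le (k + 1) (by omega)) (by omega))

private lemma cmp_step (j : ℕ) (x y : ℕ) (h : cmp pc U j x = cmp pc U j y) :
    cmp pc U (j + 1) x = cmp pc U (j + 1) y := by
  rcases hc : pc j with ⟨k, s⟩ | ⟨k, s⟩ | ⟨k, s⟩
  · by_cases hU : j ∈ U
    · rw [cmp_x_mem pc U hc hU, cmp_x_mem pc U hc hU, h]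
    · rw [cmp_x_not pc U hc hU, cmp_x_not pc U hc hU, h]
  · rw [cmp_u pc U hc, cmp_u pc U hc, h]
  · rw [cmp_a pc U hc, cmp_a pc U hc, h]

lemma cmp_trans (j n : ℕ) (hj : j ≤ n) (x y : ℕ) (h : cmp pc U j x = cmp pc U j y) :
    cmp pc U n x = cmp pc U n y := by
  induction n, hj using Nat.le_induction with
  | base => exact h
  | succ n _ ih => exact cmp_step pc U n x y ih

lemma cmp_cross (j n : ℕ) (hj : j < n) (k : ℕ) (pos : Bool) (hp : pc j = .cross k pos)
    (hU : j ∈ U) : cmp pc U n (sl pc j k) = cmp pc U n (sl pc j (k + 1)) := by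
  refine cmp_trans pc U (j + 1) n hj _ _ ?_
  rw [cmp_x_mem pc U hp hU, cmp_x_mem pc U hp hU, mrg_left, mrg_right]

lemma cmp_cap (j n : ℕ) (hj : j < n) (k : ℕ) (s : Bool) (hp : pc j = .cap k s) :
    cmp pc U n (sl pc j k) = cmp pc U n (sl pc j (k + 1)) := by
  refine cmp_trans pc U (j + 1) n hj _ _ ?_
  rw [cmp_a pc U hp, cmp_a pc U hp, mrg_left, mrg_right]

/-- strands of the same circle are in the same component -/
lemma cmp_of_cre (n : ℕ) (x y : ℕ) (h : cre pc n x = cre pc n y) :
    cmp pc U n x = cmp pc U n y :=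
  cre_const pc n (cmp pc U n) (fun j hj k s hp => cmp_cap pc U j n hj k s hp) x y h

/-- all strand labels of a level are strand labels of the diagram -/
lemma sl_mem (D : Dia) (j : ℕ) (hj : j ≤ D.n) (i : ℕ) (hi : i < str D.pc j) :
    sl D.pc j i ∈ D.SLb := by
  induction j generalizing i with
  | zero => exact Finset.mem_insert_self _ _
  | succ j ih =>
    have hjn : j < D.n := hj
    rcases h : D.pc j with ⟨k, s⟩ | ⟨k, s⟩ | ⟨k, s⟩
    · rw [str_cross D.pc h] at hi
      rw [sl_cross D.pc h]
      exact ih hjn.le i hi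
    · rw [str_cup D.pc h] at hi
      have hk := (D.hcup j hjn k s h).1
      rw [sl_cup D.pc h]
      split_ifs
      · exact ih hjn.le i (by omega)
      · refine Finset.mem_insert_of_mem (Finset.mem_image.mpr ⟨j, ?_, rfl⟩)
        rw [Finset.mem_filter, Finset.mem_range]
        exact ⟨hjn, by rw [h]; rfl⟩
      · exact ih hjn.le (i - 2) (by omega)
    · rw [str_cap D.pc h] at hi
      have hk := (D.hcap j hjn k s h).1
      rw [sl_cap D.pc h]
      split_ifs
      · exact ih hjn.le i (by omega)
      · exact ih hjn.le (i + 2) (by omega)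

lemma gl_mem (D : Dia) (j : ℕ) (hj : j ≤ D.n) (g : ℕ) (hg : g ≤ str D.pc j) :
    gl D.pc j g ∈ D.GLb := by
  have key : ∀ j < D.n, (D.pc j).isCap = false → j + 2 ∈ D.GLb := by
    intro j hj hc
    refine Finset.mem_insert_of_mem (Finset.mem_insert_of_mem
      (Finset.mem_image.mpr ⟨j, ?_, rfl⟩))
    rw [Finset.mem_filter, Finset.mem_range]
    exact ⟨hj, hc⟩
  induction j generalizing g with
  | zero =>
    simp only [str] at hg
    rcases Nat.le_one_iff_eq_zero_or_eq_one.mp hg with rfl | rfl
    · exact Finset.mem_insert_self _ _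
    · exact Finset.mem_insert_of_mem (Finset.mem_insert_self _ _)
  | succ j ih =>
    have hjn : j < D.n := hj
    rcases h : D.pc j with ⟨k, s⟩ | ⟨k, s⟩ | ⟨k, s⟩
    · rw [str_cross D.pc h] at hg
      rw [gl_cross D.pc h]
      split_ifs
      · exact key j hjn (by rw [h]; rfl)
      · exact ih hjn.le g hg
    · rw [str_cup D.pc h] at hg
      have hk := (D.hcup j hjn k s h).1
      rw [gl_cup D.pc h]
      split_ifs
      · exact ih hjn.le g (by omega)
      · exact key j hjn (by rw [h]; rfl)
      · exact ih hjn.le (g - 2) (by omega)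
    · rw [str_cap D.pc h] at hg
      have hk := (D.hcap j hjn k s h).1
      rw [gl_cap D.pc h]
      split_ifs
      · exact ih hjn.le g (by omega)
      · exact ih hjn.le (g + 2) (by omega)

/-- every strand label is the label of a strand -/
lemma exists_root (D : Dia) (x : ℕ) (hx : x ∈ D.SLb) :
    ∃ r, D.IsRoot r ∧ sl D.pc r.1 r.2 = x := by
  rcases Finset.mem_insert.mp hx with rfl | hx
  · exact ⟨(0, 0), ⟨Nat.zero_le _, Nat.one_pos⟩, rfl⟩
  · obtain ⟨j, hj, rfl⟩ := Finset.mem_image.mp hx
    rw [Finset.mem_filter, Finset.mem_range] at hj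
    obtain ⟨hjn, hc⟩ := hj
    rcases h : D.pc j with ⟨k, s⟩ | ⟨k, s⟩ | ⟨k, s⟩
    · rw [h] at hc
      exact absurd hc (by simp [Piece.isCup])
    · have hk := (D.hcup j hjn k s h).1
      refine ⟨(j + 1, k), ⟨hjn, ?_⟩, ?_⟩
      · simp only
        rw [str_cup D.pc h]
        omega
      · simp only
        rw [sl_cup D.pc h, if_neg (by omega), if_pos (by omega)]
    · rw [h] at hc
      exact absurd hc (by simp [Piece.isCup])

lemma posOK (D : Dia) : PosOK D.pc D.n := by
  intro j hj
  split
  · next k pos h => exact (D.hcross j hj k pos h).1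
  · next k s h => exact (D.hcup j hj k s h).1
  · next k s h => exact (D.hcap j hj k s h).1

/-- orientation as an integer -/
def eps (b : Bool) : ℤ := if b then 1 else -1

private lemma eps_add_not (b : Bool) : eps b + eps (!b) = 0 := by
  cases b <;> simp [eps]

private lemma sum_skip (f : ℕ → ℤ) (N k : ℕ) (hk : k ≤ N) :
    ∑ i ∈ Finset.range (N + 2), f i =
      ∑ i ∈ Finset.range N, (if i < k then f i else f (i + 2)) + (f k + f (k + 1)) := by
  induction N, hk using Nat.le_induction with
  | base =>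
    rw [Finset.sum_range_succ, Finset.sum_range_succ]
    have : ∑ i ∈ Finset.range k, (if i < k then f i else f (i + 2)) =
        ∑ i ∈ Finset.range k, f i :=
      Finset.sum_congr rfl (fun i hi => if_pos (Finset.mem_range.mp hi))
    rw [this]
    ring
  | succ N hN ih =>
    rw [show N + 1 + 2 = (N + 2) + 1 by ring, Finset.sum_range_succ, ih,
      Finset.sum_range_succ (fun i => if i < k then f i else f (i + 2)) N,
      if_neg (by omega)]
    ring

private lemma ori_cross {j k : ℕ} {s : Bool} (h : pc j = .cross k s) (i : ℕ) :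
    ori pc (j + 1) i = ori pc j i := by
  rw [ori, h]

private lemma ori_cup {j k : ℕ} {s : Bool} (h : pc j = .cup k s) (i : ℕ) :
    ori pc (j + 1) i = if i < k then ori pc j i else if i = k then s else
        if i = k + 1 then !s else ori pc j (i - 2) := by
  rw [ori, h]

private lemma ori_cap {j k : ℕ} {s : Bool} (h : pc j = .cap k s) (i : ℕ) :
    ori pc (j + 1) i = if i < k then ori pc j i else ori pc j (i + 2) := by
  rw [ori, h]

/-- the sum of the orientations of a level is one -/
lemma sum_eps (D : Dia) (j : ℕ) (hj : j ≤ D.n) :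
    ∑ i ∈ Finset.range (str D.pc j), eps (ori D.pc j i) = 1 := by
  induction j with
  | zero =>
    simp [str, ori, eps]
  | succ j ih =>
    have hjn : j < D.n := hj
    have hi := ih hjn.le
    rcases h : D.pc j with ⟨k, s⟩ | ⟨k, s⟩ | ⟨k, s⟩
    · rw [str_cross D.pc h, ← hi]
      exact Finset.sum_congr rfl (fun i _ => by rw [ori_cross D.pc h])
    · have hk := (D.hcup j hjn k s h).1
      rw [str_cup D.pc h, sum_skip _ _ k hk, ori_cup D.pc h, ori_cup D.pc h,
        if_neg (lt_irrefl _), if_pos rfl, if_neg (by omega), if_neg (by omega), if_pos rfl,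
        eps_add_not, add_zero, ← hi]
      refine Finset.sum_congr rfl (fun i _ => ?_)
      split_ifs with hik
      · rw [ori_cup D.pc h, if_pos hik]
      · rw [ori_cup D.pc h, if_neg (by omega), if_neg (by omega), if_neg (by omega),
          Nat.add_sub_cancel]
    · obtain ⟨hk, h1, h2, -⟩ := D.hcap j hjn k s h
      obtain ⟨N, hN⟩ : ∃ N, str D.pc j = N + 2 := ⟨str D.pc j - 2, by omega⟩
      rw [str_cap D.pc h, hN, Nat.add_sub_cancel]
      rw [hN, sum_skip _ _ k (by omega), h1, h2, eps_add_not, add_zero] at hi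
      rw [← hi]
      refine Finset.sum_congr rfl (fun i _ => ?_)
      rw [ori_cap D.pc h]
      split_ifs <;> rfl

lemma str_odd (D : Dia) (j : ℕ) (hj : j ≤ D.n) : str D.pc j % 2 = 1 := by
  induction j with
  | zero => rfl
  | succ j ih =>
    have hjn : j < D.n := hj
    have hi := ih hjn.le
    rcases h : D.pc j with ⟨k, s⟩ | ⟨k, s⟩ | ⟨k, s⟩
    · rw [str_cross D.pc h]
      exact hi
    · rw [str_cup D.pc h]
      omega
    · have hk := (D.hcap j hjn k s h).1
      rw [str_cap D.pc h]
      omega

end LGAlt
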