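import Pool.Agent.LGAlt2.SuppW
import Pool.Agent.LGAlt2.Univ

/-!
# The diagram of a word

* `exists_dia` : the function form of a word.  Choose the labels of the levels from `AltPath`
  (`altPath_levels`) and put `al j i = (ls j).getD i false`.
* `levels` : the orientations of the level `j` are `osl pc j`.
-/

namespace LGAlt

/-- the pieces of a word as a function -/
def pcOf (w : List Piece) (j : ℕ) : Piece := w.getD j (.cap 0 true)

/-- the list of the orientations of a level -/
def osl (pc : ℕ → Piece) (j : ℕ) : List Bool := (List.range (str pc j)).map (ori pc j)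

theorem osl_length (pc : ℕ → Piece) (j : ℕ) : (osl pc j).length = str pc j := by
  simp [osl]

theorem osl_getElem (pc : ℕ → Piece) (j i : ℕ) (h : i < (osl pc j).length) :
    (osl pc j)[i] = ori pc j i := by
  simp [osl]

theorem osl_getElem? (pc : ℕ → Piece) (j i : ℕ) (h : i < str pc j) :
    (osl pc j)[i]? = some (ori pc j i) := by
  simp [osl, h]

theorem oPath_snoc {w : List Piece} {x y z : List Bool} {p : Piece} (h : OPath w x y)
    (hs : OStep p y z) : OPath (w ++ [p]) x z := by
  induction h with
  | nil x => exact .cons _ _ _ _ _ hs (.nil _)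
  | cons p' w x y z' hs' _ ih => exact .cons _ _ _ _ _ hs' (ih hs)

theorem oStep_osl (pc : ℕ → Piece) (j : ℕ) {p : Piece} {x y : List Bool} (hp : pc j = p)
    (hx : osl pc j = x) (h : OStep p x y) : y = osl pc (j + 1) := by
  have hlen : str pc j = x.length := by rw [← hx, osl_length]
  have hel : ∀ i, i < x.length → x[i]? = some (ori pc j i) := by
    intro i hi
    rw [← hx]
    exact osl_getElem? pc j i (by omega)
  cases h with
  | cross l₁ l₂ pos =>
    rw [← hx]
    have h1 : str pc (j + 1) = str pc j := by simp [str, hp]
    unfold osl
    rw [h1]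
    refine List.map_congr_left fun i _ => ?_
    simp [ori, hp]
  | cup l₁ l₂ s =>
    have h1 : str pc (j + 1) = str pc j + 2 := by simp [str, hp]
    simp only [List.length_append] at hlen hel
    apply List.ext_getElem?
    intro i
    by_cases hi : i < str pc (j + 1)
    · rw [osl_getElem? pc (j + 1) i hi]
      have h2 : ori pc (j + 1) i = if i < l₁.length then ori pc j i else if i = l₁.length then s else
        if i = l₁.length + 1 then !s else ori pc j (i - 2) := by
        simp [ori, hp]
      rw [h2]
      by_cases c1 : i < l₁.length
      · rw [if_pos c1, ← hel i (by omega), List.getElem?_append_left c1, List.getElem?_append_left c1]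
      · rw [if_neg c1]
        by_cases c2 : i = l₁.length
        · subst c2
          simp
        · rw [if_neg c2]
          by_cases c3 : i = l₁.length + 1
          · subst c3
            simp
          · rw [if_neg c3, ← hel (i - 2) (by omega), List.getElem?_append_right (by omega),
              List.getElem?_append_right (by omega)]
            obtain ⟨m, rfl⟩ : ∃ m, i = l₁.length + 2 + m := ⟨i - (l₁.length + 2), by omega⟩
            rw [show l₁.length + 2 + m - l₁.length = m + 2 by omega,
              show l₁.length + 2 + m - 2 - l₁.length = m by omega]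
            simp
    · rw [List.getElem?_eq_none (by simp; omega), List.getElem?_eq_none (by rw [osl_length]; omega)]
  | cap l₁ l₂ s =>
    have h1 : str pc (j + 1) = str pc j - 2 := by simp [str, hp]
    simp only [List.length_append, List.length_cons] at hlen hel
    apply List.ext_getElem?
    intro i
    by_cases hi : i < str pc (j + 1)
    · rw [osl_getElem? pc (j + 1) i hi]
      have h2 : ori pc (j + 1) i = if i < l₁.length then ori pc j i else ori pc j (i + 2) := by
        simp [ori, hp]
      rw [h2]
      by_cases c1 : i < l₁.length
      · rw [if_pos c1, ← hel i (by omega), List.getElem?_append_left c1, List.getElem?_append_left c1]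
      · rw [if_neg c1, ← hel (i + 2) (by omega), List.getElem?_append_right (by omega),
          List.getElem?_append_right (by omega)]
        obtain ⟨m, rfl⟩ : ∃ m, i = l₁.length + m := ⟨i - l₁.length, by omega⟩
        rw [show l₁.length + m - l₁.length = m by omega,
          show l₁.length + m + 2 - l₁.length = m + 2 by omega]
        simp
    · rw [List.getElem?_eq_none (by simp; omega), List.getElem?_eq_none (by rw [osl_length]; omega)]

theorem pcOf_getElem (w : List Piece) (j : ℕ) (hj : j < w.length) : pcOf w j = w[j] := by
  simp [pcOf, hj]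

theorem levels {w : List Piece} (hw : OPath w [true] [true]) (j : ℕ) (hj : j ≤ w.length) :
    OPath (w.take j) [true] (osl (pcOf w) j) ∧ OPath (w.drop j) (osl (pcOf w) j) [true] := by
  induction j with
  | zero =>
    have h : osl (pcOf w) 0 = [true] := by simp [osl, str, ori, List.range_succ]
    rw [h]
    simp only [List.take_zero, List.drop_zero]
    exact ⟨.nil _, hw⟩
  | succ j ih =>
    obtain ⟨h1, h2⟩ := ih (by omega)
    have hj' : j < w.length := hj
    rw [List.drop_eq_getElem_cons hj'] at h2
    cases h2 with
    | cons _ _ _ y _ hs hp =>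
      have hy := oStep_osl (pcOf w) j (pcOf_getElem w j hj') rfl hs
      subst hy
      refine ⟨?_, hp⟩
      rw [← List.take_append_getElem hj']
      exact oPath_snoc h1 hs

theorem level_step {w : List Piece} (hw : OPath w [true] [true]) (j : ℕ) (hj : j < w.length) :
    OStep (pcOf w j) (osl (pcOf w) j) (osl (pcOf w) (j + 1)) := by
  obtain ⟨-, h2⟩ := levels hw j hj.le
  rw [List.drop_eq_getElem_cons hj] at h2
  cases h2 with
  | cons _ _ _ y _ hs hp =>
    have hy := oStep_osl (pcOf w) j (pcOf_getElem w j hj) rfl hs
    subst hy
    rw [pcOf_getElem w j hj]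
    exact hs

theorem altPath_levels {w : List Piece} {a b : List Bool} (ha : AltPath w a b) :
    ∃ ls : ℕ → List Bool, ls 0 = a ∧ ls w.length = b ∧
      ∀ j < w.length, AltStep (pcOf w j) (ls j) (ls (j + 1)) := by
  induction ha with
  | nil x => exact ⟨fun _ => x, rfl, rfl, fun j hj => absurd hj (by simp)⟩
  | cons p w x y z hs _ ih =>
    obtain ⟨ls, h0, h1, h2⟩ := ih
    refine ⟨fun j => Nat.casesOn j x ls, rfl, h1, ?_⟩
    intro j hj
    cases j with
    | zero =>
      have : pcOf (p :: w) 0 = p := by simp [pcOf]
      rw [this]
      change AltStep p x (ls 0)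
      rw [h0]
      exact hs
    | succ j =>
      have : pcOf (p :: w) (j + 1) = pcOf w j := by simp [pcOf]
      rw [this]
      exact h2 j (by simpa using hj)

/-- the conditions on the orientations -/
theorem oStep_cross {pc : ℕ → Piece} {j k : ℕ} {pos : Bool} {y : List Bool}
    (h : OStep (.cross k pos) (osl pc j) y) :
    k + 2 ≤ str pc j ∧ ori pc j k = true ∧ ori pc j (k + 1) = true := by
  generalize hx : osl pc j = x at h
  have hlen : str pc j = x.length := by rw [← hx, osl_length]
  have hel : ∀ i, i < x.length → x[i]? = some (ori pc j i) := by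
    intro i hi
    rw [← hx]
    exact osl_getElem? pc j i (by omega)
  cases h with
  | cross l₁ l₂ pos =>
    simp only [List.length_append, List.length_cons] at hlen hel
    refine ⟨by omega, ?_, ?_⟩
    · have := hel l₁.length (by omega)
      simpa using this.symm
    · have := hel (l₁.length + 1) (by omega)
      simpa using this.symm

theorem oStep_cap {pc : ℕ → Piece} {j k : ℕ} {s : Bool} {y : List Bool}
    (h : OStep (.cap k s) (osl pc j) y) :
    k + 2 ≤ str pc j ∧ ori pc j k = s ∧ ori pc j (k + 1) = !s := by
  generalize hx : osl pc j = x at h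
  have hlen : str pc j = x.length := by rw [← hx, osl_length]
  have hel : ∀ i, i < x.length → x[i]? = some (ori pc j i) := by
    intro i hi
    rw [← hx]
    exact osl_getElem? pc j i (by omega)
  cases h with
  | cap l₁ l₂ s =>
    simp only [List.length_append, List.length_cons] at hlen hel
    refine ⟨by omega, ?_, ?_⟩
    · have := hel l₁.length (by omega)
      simpa using this.symm
    · have := hel (l₁.length + 1) (by omega)
      simpa using this.symm

theorem oStep_cup {pc : ℕ → Piece} {j k : ℕ} {s : Bool} {y : List Bool}
    (h : OStep (.cup k s) (osl pc j) y) : k ≤ str pc j := by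
  generalize hx : osl pc j = x at h
  have hlen : str pc j = x.length := by rw [← hx, osl_length]
  cases h with
  | cup l₁ l₂ s =>
    simp only [List.length_append] at hlen
    omega

theorem altStep_cross {k : ℕ} {pos : Bool} {x y : List Bool} (h : AltStep (.cross k pos) x y) :
    x.getD k false = pos ∧ x.getD (k + 1) false = (!pos) ∧ y = x := by
  cases h with
  | cross l₁ l₂ pos =>
    refine ⟨?_, ?_, rfl⟩
    · simp [List.getD_eq_getElem?_getD]
    · simp [List.getD_eq_getElem?_getD]

theorem altStep_cup {k : ℕ} {s : Bool} {x y : List Bool} (h : AltStep (.cup k s) x y) :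
    y.getD (k + 1) false = (!(y.getD k false)) ∧ (∀ i < k, y.getD i false = x.getD i false) ∧
      ∀ i, k ≤ i → y.getD (i + 2) false = x.getD i false := by
  cases h with
  | cup l₁ l₂ s b =>
    refine ⟨?_, ?_, ?_⟩
    · simp [List.getD_eq_getElem?_getD]
    · intro i hi
      simp [List.getD_eq_getElem?_getD, List.getElem?_append_left hi]
    · intro i hi
      obtain ⟨m, rfl⟩ : ∃ m, i = l₁.length + m := ⟨i - l₁.length, by omega⟩
      rw [List.getD_eq_getElem?_getD, List.getD_eq_getElem?_getD,
        List.getElem?_append_right (by omega), List.getElem?_append_right (by omega),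
        show l₁.length + m + 2 - l₁.length = m + 2 by omega,
        show l₁.length + m - l₁.length = m by omega]
      simp

theorem altStep_cap {k : ℕ} {s : Bool} {x y : List Bool} (h : AltStep (.cap k s) x y) :
    x.getD (k + 1) false = (!(x.getD k false)) ∧ (∀ i < k, y.getD i false = x.getD i false) ∧
      ∀ i, k ≤ i → y.getD i false = x.getD (i + 2) false := by
  cases h with
  | cap l₁ l₂ s b =>
    refine ⟨?_, ?_, ?_⟩
    · simp [List.getD_eq_getElem?_getD]
    · intro i hi
      simp [List.getD_eq_getElem?_getD, List.getElem?_append_left hi]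
    · intro i hi
      obtain ⟨m, rfl⟩ : ∃ m, i = l₁.length + m := ⟨i - l₁.length, by omega⟩
      rw [List.getD_eq_getElem?_getD, List.getD_eq_getElem?_getD,
        List.getElem?_append_right (by omega), List.getElem?_append_right (by omega),
        show l₁.length + m + 2 - l₁.length = m + 2 by omega,
        show l₁.length + m - l₁.length = m by omega]
      simp

theorem exists_dia {w : List Piece} (hw : OPath w [true] [true]) {x : Bool}
    (ha : AltPath w [x] [x]) : ∃ D : Dia, D.n = w.length ∧ D.pc = pcOf w := by
  obtain ⟨ls, -, -, hls⟩ := altPath_levels ha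
  refine ⟨⟨w.length, pcOf w, fun j i => (ls j).getD i false, ?_, ?_, ?_, ?_⟩, rfl, rfl⟩
  · intro j hj k pos hpc
    have h1 := level_step hw j hj
    have h2 := hls j hj
    rw [hpc] at h1 h2
    obtain ⟨a1, a2, a3⟩ := oStep_cross h1
    obtain ⟨b1, b2, b3⟩ := altStep_cross h2
    exact ⟨a1, a2, a3, b1, b2, fun i _ => by rw [b3]⟩
  · intro j hj k s hpc
    have h1 := level_step hw j hj
    have h2 := hls j hj
    rw [hpc] at h1 h2
    obtain ⟨b1, b2, b3⟩ := altStep_cup h2
    exact ⟨oStep_cup h1, b1, b2, fun i hi _ => b3 i hi⟩
  · intro j hj k s hpc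
    have h1 := level_step hw j hj
    have h2 := hls j hj
    rw [hpc] at h1 h2
    obtain ⟨a1, a2, a3⟩ := oStep_cap h1
    obtain ⟨b1, b2, b3⟩ := altStep_cap h2
    exact ⟨a1, a2, a3, b1, b2, fun i hi _ => b3 i hi⟩
  · have h := (levels hw w.length le_rfl).2
    rw [List.drop_length] at h
    have h1 : osl (pcOf w) w.length = [true] := by
      generalize osl (pcOf w) w.length = x at h
      cases h
      rfl
    have h2 := congrArg List.length h1
    rw [osl_length] at h2
    simpa using h2

end LGAlt
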