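import Pool.Agent.LGAlt2.Graph

/-!
# An end block of a graph without vertices of degree one

Proof of `endBlock`.  Call `(a, X)` closed if `a ∈ V`, `X ⊆ V.erase a` is nonempty and there is no edge
between `X` and `V \ (X ∪ {a})`.  Such pairs exist (`X = V.erase a`).  Choose one with `X.card`
minimal.
* Let `v ∈ X`, and suppose that `V.erase v` is not connected by the edges avoiding `v`: there is
  `Y ⊆ V.erase v`, nonempty, proper, without edges (avoiding `v`) between `Y` and the rest of
  `V.erase v`.  Replacing `Y` by `(V.erase v) \ Y` we may assume `a ∉ Y`.  If `Y ∩ X ≠ ∅` then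
  `(v, Y ∩ X)` is closed (edges from `Y ∩ X` go to `Y ∪ {v}` and to `X ∪ {a}`), and
  `(Y ∩ X).card < X.card` as `v ∉ Y`: contradiction.  If `Y ∩ X = ∅` then edges from `Y` go to
  `Y ∪ {v}`, and not to `v ∈ X` (no edges between `X` and `V \ (X ∪ {a})`), so the cut of `Y` is
  empty: contradiction to the connectivity.
* `X` is connected by the edges avoiding `a`: if `Y ⊆ X` is nonempty and proper, without edges between
  `Y` and `X \ Y`, then `(a, Y)` is closed: contradiction.
* Let `Y ⊆ X ∪ {a}` be nonempty and proper; replacing `Y` by its complement in `X ∪ {a}` (the set of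
  separated edges among those touching `X` does not change) we may assume `a ∉ Y`, so `Y ⊆ X`, and
  all edges of `E` in the cut of `Y` touch `X`.  The cut is not empty.  If it has only one edge `e`,
  with the end `y ∈ Y`: if `Y = {y}` then `y` has degree `1`; otherwise `Y.erase y` is a nonempty
  proper subset of `V.erase y`, and no edge avoiding `y` leaves it: contradiction to the first part.
-/

namespace LGAlt

namespace MG

variable (G : MG)

/-- the edges which touch a vertex of `X` -/
def tch (E X : Finset ℕ) : Finset ℕ := E.filter (fun e => G.tl e ∈ X ∨ G.hd e ∈ X)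

/-- closed pairs -/
private def EBClosed (V E : Finset ℕ) (a : ℕ) (X : Finset ℕ) : Prop :=
  a ∈ V ∧ X ⊆ V ∧ X.Nonempty ∧ a ∉ X ∧ ∀ e ∈ E, (G.tl e ∈ X ∨ G.hd e ∈ X) →
    G.tl e ∈ insert a X ∧ G.hd e ∈ insert a X

variable {G}

private theorem eb_key {V E : Finset ℕ} (h : G.Conn V E) {a : ℕ} {X : Finset ℕ}
    (hc : G.EBClosed V E a X) (hmin : ∀ a' X', G.EBClosed V E a' X' → X.card ≤ X'.card) {v : ℕ}
    (hv : v ∈ X) {Y : Finset ℕ} (hY : Y ⊆ V.erase v) (hne : Y.Nonempty) (haY : a ∉ Y)
    (hsep : ∀ e ∈ G.del E v, (G.tl e ∈ Y ↔ G.hd e ∈ Y)) : False := by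
  obtain ⟨ha, hX, hXne, haX, hcl⟩ := hc
  have hvY : v ∉ Y := fun h' => (Finset.mem_erase.1 (hY h')).1 rfl
  have hYV : Y ⊆ V := fun y hy => (Finset.mem_erase.1 (hY hy)).2
  -- an edge of `E` which is separated by `Y` touches `v`
  have ht : ∀ e ∈ E, ¬ (G.tl e ∈ Y ↔ G.hd e ∈ Y) → G.Touch v e := by
    intro e he hs
    by_contra hcon
    exact hs (hsep e (Finset.mem_filter.2 ⟨he, hcon⟩))
  by_cases hYX : (Y ∩ X).Nonempty
  · have hcl' : G.EBClosed V E v (Y ∩ X) := by
      refine ⟨hX hv, fun y hy => hX (Finset.mem_inter.1 hy).2, hYX,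
        fun h' => hvY (Finset.mem_inter.1 h').1, fun e he hte => ?_⟩
      have h1 : G.tl e ∈ X ∨ G.hd e ∈ X := by
        rcases hte with h' | h'
        · exact Or.inl (Finset.mem_inter.1 h').2
        · exact Or.inr (Finset.mem_inter.1 h').2
      obtain ⟨h2, h3⟩ := hcl e he h1
      rw [Finset.mem_insert] at h2 h3 ⊢
      rw [Finset.mem_insert, Finset.mem_inter, Finset.mem_inter]
      rw [Finset.mem_inter, Finset.mem_inter] at hte
      by_cases hs : (G.tl e ∈ Y ↔ G.hd e ∈ Y)
      · have h4 : G.tl e ∈ Y := by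
          rcases hte with h' | h'
          · exact h'.1
          · exact hs.2 h'.1
        have h5 : G.hd e ∈ Y := hs.1 h4
        refine ⟨Or.inr ⟨h4, ?_⟩, Or.inr ⟨h5, ?_⟩⟩
        · rcases h2 with h2 | h2
          · rw [h2] at h4; exact absurd h4 haY
          · exact h2
        · rcases h3 with h3 | h3
          · rw [h3] at h5; exact absurd h5 haY
          · exact h3
      · rcases ht e he hs with h6 | h6
        · have h7 : G.tl e ∉ Y := by rw [h6]; exact hvY
          refine ⟨Or.inl h6, Or.inr ?_⟩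
          rcases hte with h' | h'
          · exact absurd h'.1 h7
          · exact h'
        · have h7 : G.hd e ∉ Y := by rw [h6]; exact hvY
          refine ⟨Or.inr ?_, Or.inl h6⟩
          rcases hte with h' | h'
          · exact h'
          · exact absurd h'.1 h7
    have h8 := hmin _ _ hcl'
    have h9 : Y ∩ X ⊂ X := by
      refine ⟨Finset.inter_subset_right, fun h' => ?_⟩
      exact hvY (Finset.mem_inter.1 (h' hv)).1
    exact absurd (Finset.card_lt_card h9) (not_lt.2 h8)
  · obtain ⟨e, he, hs⟩ := h.cut Y hYV hne (fun h' => by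
      rw [h'] at hvY; exact hvY (hX hv))
    have hdis : ∀ y ∈ Y, y ∉ X := fun y hy hyX => hYX ⟨y, Finset.mem_inter.2 ⟨hy, hyX⟩⟩
    have hs' : ¬ (G.tl e ∈ Y ↔ G.hd e ∈ Y) := hs
    have h1 : G.tl e ∈ X ∨ G.hd e ∈ X := by
      rcases ht e he hs' with h2 | h2
      · rw [h2]; exact Or.inl hv
      · rw [h2]; exact Or.inr hv
    obtain ⟨h2, h3⟩ := hcl e he h1
    rw [Finset.mem_insert] at h2 h3
    apply hs'
    constructor
    · intro h4
      rcases h2 with h2 | h2
      · rw [h2] at h4; exact absurd h4 haY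
      · exact absurd h2 (hdis _ h4)
    · intro h4
      rcases h3 with h3 | h3
      · rw [h3] at h4; exact absurd h4 haY
      · exact absurd h3 (hdis _ h4)

/-- deletion of a vertex of a minimal closed set -/
private theorem eb_del {V E : Finset ℕ} (h : G.Conn V E) {a : ℕ} {X : Finset ℕ}
    (hc : G.EBClosed V E a X) (hmin : ∀ a' X', G.EBClosed V E a' X' → X.card ≤ X'.card) {v : ℕ}
    (hv : v ∈ X) : G.Conn (V.erase v) (G.del E v) := by
  have hav : a ≠ v := fun h' => hc.2.2.2.1 (h' ▸ hv)
  have hends : ∀ e ∈ G.del E v, G.tl e ∈ V.erase v ∧ G.hd e ∈ V.erase v := by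
    intro e he
    obtain ⟨he, ht⟩ := Finset.mem_filter.1 he
    unfold Touch at ht
    rw [not_or] at ht
    exact ⟨Finset.mem_erase.2 ⟨ht.1, (h.ends e he).1⟩, Finset.mem_erase.2 ⟨ht.2, (h.ends e he).2⟩⟩
  refine ⟨⟨a, Finset.mem_erase.2 ⟨hav, hc.1⟩⟩, hends, fun Y hY hne hYne => ?_⟩
  by_contra hcon
  push Not at hcon
  have hsep : ∀ e ∈ G.del E v, (G.tl e ∈ Y ↔ G.hd e ∈ Y) := by
    intro e he
    have := hcon e he
    unfold Sep at this
    exact not_not.1 this
  by_cases haY : a ∈ Y
  · refine eb_key h hc hmin hv (Y := V.erase v \ Y) Finset.sdiff_subset ?_ ?_ ?_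
    · rw [Finset.sdiff_nonempty]
      exact fun h' => hYne (Finset.Subset.antisymm hY h')
    · exact fun h' => (Finset.mem_sdiff.1 h').2 haY
    · intro e he
      obtain ⟨h1, h2⟩ := hends e he
      rw [Finset.mem_sdiff, Finset.mem_sdiff]
      have := hsep e he
      tauto
  · exact eb_key h hc hmin hv hY hne haY hsep

variable (G)

theorem endBlock (V E : Finset ℕ) (h : G.Conn V E) (hnl : ∀ e ∈ E, G.tl e ≠ G.hd e)
    (h2 : 2 ≤ V.card) (hdeg : ∀ v ∈ V, 2 ≤ (E.filter (fun e => G.Touch v e)).card) :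
    ∃ a ∈ V, ∃ X ⊆ V, X.Nonempty ∧ a ∉ X ∧
      (∀ e ∈ G.tch E X, G.tl e ∈ insert a X ∧ G.hd e ∈ insert a X) ∧
      (∀ v ∈ X, G.Conn (V.erase v) (G.del E v)) ∧
      G.Conn (insert a X) (G.tch E X) ∧
      (∀ Y ⊆ X, Y.Nonempty → Y ≠ X → ∃ e ∈ E, G.tl e ∈ X ∧ G.hd e ∈ X ∧ G.Sep Y e) ∧
      (∀ Y ⊆ insert a X, Y.Nonempty → Y ≠ insert a X →
        2 ≤ ((G.tch E X).filter (fun e => G.Sep Y e)).card) := by
  -- a minimal closed pair
  obtain ⟨⟨a, X⟩, hc, hmin⟩ : ∃ p : ℕ × Finset ℕ, G.EBClosed V E p.1 p.2 ∧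
      ∀ a' X', G.EBClosed V E a' X' → p.2.card ≤ X'.card := by
    have hex : {p : ℕ × Finset ℕ | G.EBClosed V E p.1 p.2}.Nonempty := by
      obtain ⟨a, ha⟩ := h.ne
      refine ⟨(a, V.erase a), ha, Finset.erase_subset _ _, ?_, Finset.notMem_erase a V,
        fun e he _ => ?_⟩
      · rw [← Finset.card_pos, Finset.card_erase_of_mem ha]
        omega
      · rw [Finset.insert_erase ha]
        exact h.ends e he
    obtain ⟨p, hp, hp'⟩ := (measure fun p : ℕ × Finset ℕ => p.2.card).wf.has_min _ hex
    exact ⟨p, hp, fun a' X' hc' => not_lt.1 (hp' (a', X') hc')⟩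
  simp only at hc hmin
  obtain ⟨ha, hX, hXne, haX, hcl⟩ := id hc
  have hends : ∀ e ∈ G.tch E X, G.tl e ∈ insert a X ∧ G.hd e ∈ insert a X := by
    intro e he
    obtain ⟨he, ht⟩ := Finset.mem_filter.1 he
    exact hcl e he ht
  -- at least two edges in the cuts of subsets of `X`
  have key : ∀ Y ⊆ X, Y.Nonempty → 2 ≤ ((G.tch E X).filter (fun e => G.Sep Y e)).card := by
    intro Y hYX hne
    have haY : a ∉ Y := fun h' => haX (hYX h')
    have heq : (G.tch E X).filter (fun e => G.Sep Y e) = E.filter (fun e => G.Sep Y e) := by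
      ext e
      unfold tch
      rw [Finset.mem_filter, Finset.mem_filter, Finset.mem_filter]
      constructor
      · rintro ⟨⟨h1, -⟩, h3⟩
        exact ⟨h1, h3⟩
      · rintro ⟨h1, h3⟩
        refine ⟨⟨h1, ?_⟩, h3⟩
        unfold Sep at h3
        by_contra hcon
        rw [not_or] at hcon
        exact h3 ⟨fun h' => absurd (hYX h') hcon.1, fun h' => absurd (hYX h') hcon.2⟩
    rw [heq]
    by_contra hcon
    rw [not_le] at hcon
    obtain ⟨e, he, hs⟩ := h.cut Y (hYX.trans hX) hne (fun h' => haY (h' ▸ ha))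
    have hmem : e ∈ E.filter (fun e => G.Sep Y e) := Finset.mem_filter.2 ⟨he, hs⟩
    have hcon' : (E.filter (fun e => G.Sep Y e)).card ≤ 1 := by omega
    have huniq : ∀ e' ∈ E, G.Sep Y e' → e' = e := by
      intro e' he' hs'
      exact Finset.card_le_one.1 hcon' e' (Finset.mem_filter.2 ⟨he', hs'⟩) e hmem
    obtain ⟨y, hy, hty⟩ : ∃ y ∈ Y, G.Touch y e := by
      unfold Sep at hs
      by_cases h1 : G.tl e ∈ Y
      · exact ⟨_, h1, Or.inl rfl⟩
      · by_cases h3 : G.hd e ∈ Y
        · exact ⟨_, h3, Or.inr rfl⟩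
        · exact absurd (iff_of_false h1 h3) hs
    by_cases hYy : Y = {y}
    · have h3 := hdeg y (hX (hYX hy))
      have h4 : E.filter (fun e => G.Touch y e) ⊆ {e} := by
        intro e' he'
        obtain ⟨he', ht'⟩ := Finset.mem_filter.1 he'
        rw [Finset.mem_singleton]
        refine huniq e' he' ?_
        unfold Sep
        rw [hYy, Finset.mem_singleton, Finset.mem_singleton]
        have h5 := hnl e' he'
        rcases ht' with h6 | h6
        · rw [h6]
          rw [h6] at h5
          exact fun h7 => h5 (h7.1 rfl).symm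
        · rw [h6]
          rw [h6] at h5
          exact fun h7 => h5 (h7.2 rfl)
      have h5 := Finset.card_le_card h4
      rw [Finset.card_singleton] at h5
      omega
    · have hdel := eb_del h hc hmin (hYX hy)
      have h3 : (Y.erase y).Nonempty := by
        rw [Finset.nonempty_iff_ne_empty]
        intro h4
        rw [Finset.erase_eq_empty_iff] at h4
        rcases h4 with h4 | h4
        · rw [h4] at hy; exact absurd hy (Finset.notMem_empty y)
        · exact hYy h4
      have h4 : Y.erase y ≠ V.erase y := by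
        intro h5
        have h6 : a ∈ V.erase y := Finset.mem_erase.2 ⟨fun h' => haY (h' ▸ hy), ha⟩
        rw [← h5] at h6
        exact haY (Finset.mem_erase.1 h6).2
      obtain ⟨e', he', hs'⟩ := hdel.cut (Y.erase y)
        (Finset.erase_subset_erase y (hYX.trans hX)) h3 h4
      obtain ⟨he', ht'⟩ := Finset.mem_filter.1 he'
      have h5 : G.Sep Y e' := by
        unfold Sep at hs' ⊢
        unfold Touch at ht'
        rw [not_or] at ht'
        rw [Finset.mem_erase, Finset.mem_erase] at hs'
        tauto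
      rw [huniq e' he' h5] at ht'
      exact ht' hty
  have key2 : ∀ Y ⊆ insert a X, Y.Nonempty → Y ≠ insert a X →
      2 ≤ ((G.tch E X).filter (fun e => G.Sep Y e)).card := by
    intro Y hY hne hYne
    by_cases haY : a ∈ Y
    · have h1 : (G.tch E X).filter (fun e => G.Sep Y e) =
          (G.tch E X).filter (fun e => G.Sep (insert a X \ Y) e) := by
        refine Finset.filter_congr fun e he => ?_
        obtain ⟨h3, h4⟩ := hends e he
        unfold Sep
        rw [Finset.mem_sdiff, Finset.mem_sdiff]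
        tauto
      rw [h1]
      refine key _ ?_ ?_
      · intro y hy
        obtain ⟨h3, h4⟩ := Finset.mem_sdiff.1 hy
        rcases Finset.mem_insert.1 h3 with h5 | h5
        · rw [h5] at h4; exact absurd haY h4
        · exact h5
      · rw [Finset.sdiff_nonempty]
        exact fun h' => hYne (Finset.Subset.antisymm hY h')
    · refine key Y ?_ hne
      intro y hy
      rcases Finset.mem_insert.1 (hY hy) with h5 | h5
      · rw [h5] at hy; exact absurd hy haY
      · exact h5
  refine ⟨a, ha, X, hX, hXne, haX, hends, fun v hv => eb_del h hc hmin hv, ?_, ?_, key2⟩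
  · refine ⟨⟨a, Finset.mem_insert_self a X⟩, hends, fun Y hY hne hYne => ?_⟩
    have h3 := key2 Y hY hne hYne
    obtain ⟨e, he⟩ : ((G.tch E X).filter (fun e => G.Sep Y e)).Nonempty := by
      rw [← Finset.card_pos]; omega
    obtain ⟨he, hs⟩ := Finset.mem_filter.1 he
    exact ⟨e, he, hs⟩
  · intro Y hY hne hYX
    by_contra hcon
    push Not at hcon
    have hcl' : G.EBClosed V E a Y := by
      refine ⟨ha, hY.trans hX, hne, fun h' => haX (hY h'), fun e he hte => ?_⟩
      have h1 : G.tl e ∈ X ∨ G.hd e ∈ X := by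
        rcases hte with h' | h'
        · exact Or.inl (hY h')
        · exact Or.inr (hY h')
      obtain ⟨h3, h4⟩ := hcl e he h1
      have h5 := hcon e he
      unfold Sep at h5
      rw [Finset.mem_insert] at h3 h4 ⊢
      rw [Finset.mem_insert]
      rcases h3 with h3 | h3
      · rcases h4 with h4 | h4
        · exact ⟨Or.inl h3, Or.inl h4⟩
        · refine ⟨Or.inl h3, Or.inr ?_⟩
          rcases hte with h' | h'
          · rw [h3] at h'
            exact absurd (hY h') haX
          · exact h'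
      · rcases h4 with h4 | h4
        · refine ⟨Or.inr ?_, Or.inl h4⟩
          rcases hte with h' | h'
          · exact h'
          · rw [h4] at h'
            exact absurd (hY h') haX
        · have h6 := not_not.1 (h5 h3 h4)
          rcases hte with h' | h'
          · exact ⟨Or.inr h', Or.inr (h6.1 h')⟩
          · exact ⟨Or.inr (h6.2 h'), Or.inr h'⟩
    have h8 := hmin _ _ hcl'
    have h9 : Y ⊂ X := ⟨hY, fun h' => hYX (Finset.Subset.antisymm hY h')⟩
    exact absurd (Finset.card_lt_card h9) (not_lt.2 h8)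

end MG

end LGAlt
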