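import Pool.Agent.LGAlt2.KCzero

/-!
# Adding a circle all of whose crossings have the same sign, second part

`c0_ext`, `c0_rel` : see the proof in `KCzero.lean`.
-/

namespace LGAlt

variable {D : Dia} {V' E : Finset ℕ} {A : ℕ} {p : Bool}

private lemma EA_adj (h : C0Ctx D V' E A p) (c : ℕ) (hc : c ∈ D.EA E A) (q : Mk)
    (hq : q = .T ∨ q = .B) : D.Adj (V'.erase A) (cor D.pc c q) := by
  obtain ⟨hcE, ht⟩ := Finset.mem_filter.1 hc
  have ho := EA_other h c hc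
  rcases (touch_iff D A c).mp ht with h2 | h2
  · rw [other_cl D A c (h.EC hcE) h2] at ho
    have := adj_cr D _ c (h.EC hcE) ho
    rcases hq with rfl | rfl
    · exact this.2.2
    · exact this.2.1
  · rw [other_cr D A c (h.EC hcE) h2] at ho
    have := adj_cl D _ c (h.EC hcE) ho
    rcases hq with rfl | rfl
    · exact this.2.2
    · exact this.2.1

/-- the taken labels -/
private def Slab (D : Dia) (U : Finset ℕ) (r : ℕ × ℕ) (m : ℕ → Mk) (y : ℕ) : Prop :=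
  (∃ c ∈ U, y = cor D.pc c (m c)) ∨ y = gl D.pc r.1 r.2 ∨ y = gl D.pc r.1 (r.2 + 1)

private lemma slab_inj (U : Finset ℕ) (r : ℕ × ℕ) (hr : D.IsRoot r) (m : ℕ → Mk)
    (hm : Kst D.pc D.n U r m) (y z : ℕ) (hy : Slab D U r m y) (hz : Slab D U r m z)
    (hyz : D.F U y = D.F U z) : y = z := by
  rcases hy with ⟨c, hc, rfl⟩ | rfl | rfl <;> rcases hz with ⟨c', hc', rfl⟩ | rfl | rfl
  · rw [hm.1 c hc c' hc' hyz]
  · exact absurd hyz (hm.2.1 c hc)
  · exact absurd hyz (hm.2.2 c hc)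
  · exact absurd hyz.symm (hm.2.1 c' hc')
  · rfl
  · exact absurd hyz (star_ne D U r hr)
  · exact absurd hyz.symm (hm.2.2 c' hc')
  · exact absurd hyz.symm (star_ne D U r hr)
  · rfl

theorem c0_ext (h : C0Ctx D V' E A p) (r : ℕ × ℕ) (hr : D.IsRoot r) (hrV : D.rc r ∈ V'.erase A)
    (m : ℕ → Mk) (hm : Kst D.pc D.n (D.MGr.del E A) r m) (q : Mk) (hq : q = .T ∨ q = .B) :
    ∃ m', Kst D.pc D.n E r m' ∧ (∀ c ∈ D.MGr.del E A, m' c = m c) ∧
      ∀ c ∈ D.EA E A, m' c = q ∨ m' c = D.far A c := by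
  classical
  set U := D.MGr.del E A with hU
  have hUE : U ⊆ E := Finset.filter_subset _ E
  have hUC : U ⊆ D.C := hUE.trans h.EC
  obtain ⟨c0, hc0⟩ := EA_nonempty h
  have hmono : ∀ a b, D.F E a = D.F E b → D.F U a = D.F U b :=
    fun a b hab => fre_mono D.pc D.n hUE a b hab
  have hNA : ∀ c ∈ D.EA E A, D.F E (cor D.pc c q) ∈ D.NA E A := by
    intro c hc
    rw [← (c0_img h q hq).1]
    exact Finset.mem_image_of_mem _ hc
  -- the taken label
  have hx : ∃ x, Slab D U r m x ∧ D.F U x = D.F U (cor D.pc c0 q) := by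
    rcases full D h.hD (V'.erase A) U h.conn' ((Finset.erase_subset A V').trans h.V'V) hUC r hr hrV
      m hm (cor D.pc c0 q) (EA_adj h c0 hc0 q hq) with ⟨c, hc, e⟩ | e | e
    · exact ⟨_, Or.inl ⟨c, hc, rfl⟩, e⟩
    · exact ⟨_, Or.inr (Or.inl rfl), e⟩
    · exact ⟨_, Or.inr (Or.inr rfl), e⟩
  obtain ⟨x, hxS, hxF⟩ := hx
  have hxN : D.F E x ∈ D.NA E A := by
    rcases (c0_merge h x (cor D.pc c0 q)).1 hxF with e | e
    · rw [e]; exact hNA c0 hc0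
    · exact e.1
  -- all taken labels in `N` are in the face of `x`
  have hP : ∀ y, Slab D U r m y → D.F E y ∈ D.NA E A → D.F E y = D.F E x := by
    intro y hy hyN
    have h1 : D.F U y = D.F U x := (c0_merge h y x).2 (Or.inr ⟨hyN, hxN⟩)
    rw [slab_inj U r hr m hm y x hy hxS h1]
  obtain ⟨c', hc', hcx⟩ : ∃ c' ∈ D.EA E A, D.F E (cor D.pc c' q) = D.F E x := by
    have h1 := hxN
    rw [← (c0_img h q hq).1, Finset.mem_image] at h1
    exact h1
  have hcE' := Finset.mem_filter.1 hc'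
  have hex : ∀ y, D.Adj (V'.erase A) y → D.F E y ≠ D.F E (cor D.pc c' (D.far A c')) :=
    fun y hy => far_excl D (V'.erase A) U hUC h.conn' A c' (Finset.notMem_erase A V')
      (h.EC hcE'.1) hcE'.2 (EA_other h c' hc') E y hy
  -- a label `cor c q` with `c ≠ c'` is not in the face of a taken label
  have hQ : ∀ c ∈ D.EA E A, c ≠ c' → ∀ y, Slab D U r m y → D.F E (cor D.pc c q) ≠ D.F E y := by
    intro c hc hne y hy he
    have h1 : D.F E y ∈ D.NA E A := by rw [← he]; exact hNA c hc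
    have h2 := hP y hy h1
    exact hne ((c0_img h q hq).2 c hc c' hc' (by rw [he, h2, hcx]))
  have hsplit : ∀ c ∈ E, c ∈ D.EA E A ∨ c ∈ U := by
    intro c hc
    by_cases ht : D.MGr.Touch A c
    · exact Or.inl (Finset.mem_filter.2 ⟨hc, ht⟩)
    · exact Or.inr (Finset.mem_filter.2 ⟨hc, ht⟩)
  have hdis : ∀ c ∈ U, c ∉ D.EA E A := fun c hc hm' =>
    (Finset.mem_filter.1 hc).2 (Finset.mem_filter.1 hm').2
  have hEAE : ∀ c ∈ D.EA E A, c ∈ E := fun c hc => (Finset.mem_filter.1 hc).1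
  let m' : ℕ → Mk := fun c => if c ∈ D.EA E A then (if c = c' then D.far A c' else q) else m c
  have hmU : ∀ c ∈ U, m' c = m c := fun c hc => if_neg (hdis c hc)
  have hmc : m' c' = D.far A c' := by
    simp only [m', if_pos hc', if_true]
  have hmq : ∀ c ∈ D.EA E A, c ≠ c' → m' c = q := by
    intro c hc hne
    simp only [m', if_pos hc, if_neg hne]
  have hr1 : Slab D U r m (gl D.pc r.1 r.2) := Or.inr (Or.inl rfl)
  have hr2 : Slab D U r m (gl D.pc r.1 (r.2 + 1)) := Or.inr (Or.inr rfl)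
  have ha1 : D.Adj (V'.erase A) (gl D.pc r.1 r.2) := ⟨r, hr, hrV, Or.inl rfl⟩
  have ha2 : D.Adj (V'.erase A) (gl D.pc r.1 (r.2 + 1)) := ⟨r, hr, hrV, Or.inr rfl⟩
  refine ⟨m', ⟨?_, ?_, ?_⟩, hmU, ?_⟩
  · intro c₁ h₁ c₂ h₂ e
    change D.F E _ = D.F E _ at e
    rcases hsplit c₁ h₁ with k₁ | k₁ <;> rcases hsplit c₂ h₂ with k₂ | k₂
    · by_cases e₁ : c₁ = c' <;> by_cases e₂ : c₂ = c'
      · rw [e₁, e₂]
      · exfalso
        rw [e₁, hmc, hmq c₂ k₂ e₂] at e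
        exact hex _ (EA_adj h c₂ k₂ q hq) e.symm
      · exfalso
        rw [e₂, hmc, hmq c₁ k₁ e₁] at e
        exact hex _ (EA_adj h c₁ k₁ q hq) e
      · rw [hmq c₁ k₁ e₁, hmq c₂ k₂ e₂] at e
        exact (c0_img h q hq).2 c₁ k₁ c₂ k₂ e
    · exfalso
      rw [hmU c₂ k₂] at e
      by_cases e₁ : c₁ = c'
      · rw [e₁, hmc] at e
        exact hex _ (mk_adj D _ U hUC h.conn' c₂ k₂ (m c₂)) e.symm
      · rw [hmq c₁ k₁ e₁] at e
        exact hQ c₁ k₁ e₁ _ (Or.inl ⟨c₂, k₂, rfl⟩) e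
    · exfalso
      rw [hmU c₁ k₁] at e
      by_cases e₂ : c₂ = c'
      · rw [e₂, hmc] at e
        exact hex _ (mk_adj D _ U hUC h.conn' c₁ k₁ (m c₁)) e
      · rw [hmq c₂ k₂ e₂] at e
        exact hQ c₂ k₂ e₂ _ (Or.inl ⟨c₁, k₁, rfl⟩) e.symm
    · rw [hmU c₁ k₁, hmU c₂ k₂] at e
      exact hm.1 c₁ k₁ c₂ k₂ (hmono _ _ e)
  · intro c₁ h₁ e
    change D.F E _ = D.F E _ at e
    rcases hsplit c₁ h₁ with k₁ | k₁
    · by_cases e₁ : c₁ = c'
      · rw [e₁, hmc] at e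
        exact hex _ ha1 e.symm
      · rw [hmq c₁ k₁ e₁] at e
        exact hQ c₁ k₁ e₁ _ hr1 e
    · rw [hmU c₁ k₁] at e
      exact hm.2.1 c₁ k₁ (hmono _ _ e)
  · intro c₁ h₁ e
    change D.F E _ = D.F E _ at e
    rcases hsplit c₁ h₁ with k₁ | k₁
    · by_cases e₁ : c₁ = c'
      · rw [e₁, hmc] at e
        exact hex _ ha2 e.symm
      · rw [hmq c₁ k₁ e₁] at e
        exact hQ c₁ k₁ e₁ _ hr2 e
    · rw [hmU c₁ k₁] at e
      exact hm.2.2 c₁ k₁ (hmono _ _ e)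
  · intro c hc
    by_cases e : c = c'
    · right; rw [e, hmc]
    · left; exact hmq c hc e

private lemma val_split (m₁ m₂ m₁' m₂' : ℕ → Mk)
    (h₁ : ∀ c ∈ D.MGr.del E A, m₁' c = m₁ c) (h₂ : ∀ c ∈ D.MGr.del E A, m₂' c = m₂ c)
    (h₃ : ∀ c ∈ D.EA E A, ub D.pc c (m₁' c) = vb D.pc c (m₂' c)) :
    Val D.pc (D.MGr.del E A) m₁ m₂ = Val D.pc E m₁' m₂' := by
  classical
  have key : ∀ f g : ℕ → ℤ, (∀ c ∈ D.MGr.del E A, f c = g c) → (∀ c ∈ D.EA E A, g c = 0) →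
      ∑ c ∈ D.MGr.del E A, f c = ∑ c ∈ E, g c := by
    intro f g h1 h2
    rw [Finset.sum_congr rfl h1]
    refine Finset.sum_subset (Finset.filter_subset _ E) ?_
    intro c hc hcn
    refine h2 c (Finset.mem_filter.2 ⟨hc, ?_⟩)
    by_contra ht
    exact hcn (Finset.mem_filter.2 ⟨hc, ht⟩)
  unfold Val
  refine Prod.ext ?_ ?_
  · refine key _ _ ?_ ?_
    · intro c hc
      simp only [h₁ c hc, h₂ c hc]
    · intro c hc
      rw [h₃ c hc]
      cases vb D.pc c (m₂' c) <;> simp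
  · refine key _ _ ?_ ?_
    · intro c hc
      simp only [h₁ c hc, h₂ c hc]
    · intro c hc
      rw [h₃ c hc]
      cases vb D.pc c (m₂' c) <;> simp

theorem c0_rel (h : C0Ctx D V' E A p) (r : ℕ × ℕ) (hr : D.IsRoot r) (hrV : D.rc r ∈ V'.erase A) :
    PK D.pc D.n (D.MGr.del E A) r ⊆ PK D.pc D.n E r := by
  rintro z ⟨m₁, m₂, hm₁, hm₂, rfl⟩
  cases hty : D.ty A with
  | false =>
    obtain ⟨m₁', k₁, g₁, f₁⟩ := c0_ext h r hr hrV m₁ hm₁ .T (Or.inl rfl)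
    obtain ⟨m₂', k₂, g₂, f₂⟩ := c0_ext h r hr hrV m₂ hm₂ .B (Or.inr rfl)
    refine ⟨m₁', m₂', k₁, k₂, val_split m₁ m₂ m₁' m₂' g₁ g₂ ?_⟩
    intro c hc
    have hcE := Finset.mem_filter.1 hc
    have h1 : ub D.pc c (m₁' c) = true := by
      rcases f₁ c hc with e | e
      · rw [e]; rfl
      · rw [e, ub_far D A c (h.EC hcE.1) hcE.2, hty]; rfl
    have h2 : vb D.pc c (m₂' c) = true := by
      rcases f₂ c hc with e | e
      · rw [e]; rfl
      · rw [e, vb_far D A c (h.EC hcE.1) hcE.2, hty]; rfl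
    rw [h1, h2]
  | true =>
    obtain ⟨m₁', k₁, g₁, f₁⟩ := c0_ext h r hr hrV m₁ hm₁ .B (Or.inr rfl)
    obtain ⟨m₂', k₂, g₂, f₂⟩ := c0_ext h r hr hrV m₂ hm₂ .T (Or.inl rfl)
    refine ⟨m₁', m₂', k₁, k₂, val_split m₁ m₂ m₁' m₂' g₁ g₂ ?_⟩
    intro c hc
    have hcE := Finset.mem_filter.1 hc
    have h1 : ub D.pc c (m₁' c) = false := by
      rcases f₁ c hc with e | e
      · rw [e]; rfl
      · rw [e, ub_far D A c (h.EC hcE.1) hcE.2, hty]; rfl
    have h2 : vb D.pc c (m₂' c) = false := by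
      rcases f₂ c hc with e | e
      · rw [e]; rfl
      · rw [e, vb_far D A c (h.EC hcE.1) hcE.2, hty]; rfl
    rw [h1, h2]

end LGAlt
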