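import Pool.Agent.LGAlt2.KEar2
import Pool.Agent.LGAlt2.KCzero2

/-!
# The lower bound hypotheses

`PP V' E` is the set of the exponents of the pairs of Kauffman states of the subdiagram `E` with a root in
`V'`.  `lbhyp` : it satisfies `LBHyp`.
* `tyt`, `tyh` : `ty_tl`, `ty_hd`; `sepr` : `sepHyp`.
* `base` : a circle has a root (`exists_root`), the empty state.
* `leaf` : `pend_PK`.
* `ear` : `ear_rel`.
* `c0` : `c0_rel`.
-/

namespace LGAlt

/-- the exponents of the pairs of Kauffman states of `E` with a root in `V'` -/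
def Dia.PP (D : Dia) (V' E : Finset ℕ) : Set (ℤ × ℤ) :=
  {z | ∃ r, D.IsRoot r ∧ D.rc r ∈ V' ∧ z ∈ PK D.pc D.n E r}

theorem lbhyp (D : Dia) (hRI : D.RI) (hD : D.MGr.Conn D.V D.C) :
    D.MGr.LBHyp D.ty D.V D.C D.PP := by
  refine ⟨fun e he => ty_tl D e he, fun e he => ty_hd D e he, sepHyp D, ?_, ?_, ?_, ?_⟩
  · -- `base`
    intro v hv
    obtain ⟨x, hx, hxv⟩ := Finset.mem_image.1 hv
    obtain ⟨r, hr, hrx⟩ := exists_root D x hx
    refine ⟨r, hr, ?_, fun _ => .T, fun _ => .T, ?_, ?_, ?_⟩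
    · rw [Finset.mem_singleton]
      unfold Dia.rc
      rw [hrx, hxv]
    · refine ⟨?_, ?_, ?_⟩
      · intro c hc
        exact absurd hc (Finset.notMem_empty c)
      · intro c hc
        exact absurd hc (Finset.notMem_empty c)
      · intro c hc
        exact absurd hc (Finset.notMem_empty c)
    · refine ⟨?_, ?_, ?_⟩
      · intro c hc
        exact absurd hc (Finset.notMem_empty c)
      · intro c hc
        exact absurd hc (Finset.notMem_empty c)
      · intro c hc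
        exact absurd hc (Finset.notMem_empty c)
    · unfold Val
      rw [Finset.sum_empty, Finset.sum_empty]
  · -- `leaf`
    intro V' E w c hV hE hconn hw hw' hc hc' htch hoth z hz
    obtain ⟨r, hr, hrV, hz⟩ := hz
    refine ⟨r, hr, Finset.mem_insert_of_mem hrV, ?_⟩
    have hp : Pend D V' E w c := ⟨hconn, hV, hE, hw, hw', hc, hc', htch, hoth⟩
    rw [pend_PK D hD hp r hr hrV]
    exact hz
  · -- `ear`
    intro V₁ E₁ k W c p hV hE hconn hear heV hc z hz l hl hlk
    obtain ⟨r₀, hr₀, hr₀V, hz⟩ := hz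
    have hctx : KEarCtx D V₁ E₁ k W c p :=
      ⟨hD, hV, hE, hconn, hear, heV, fun i hi => (hc i hi).1, fun i hi => (hc i hi).2⟩
    have hsub : V₁ ⊆ MG.earV V₁ k W := Finset.subset_union_left
    obtain ⟨r, hr, hrV, h1⟩ := ear_rel hRI hctx r₀ hr₀ hr₀V z hz true l hl hlk
    obtain ⟨r', hr', hrV', h2⟩ := ear_rel hRI hctx r₀ hr₀ hr₀V z hz false l hl hlk
    rw [if_pos rfl] at h1
    rw [if_neg Bool.false_ne_true] at h2
    exact ⟨⟨r, hr, hsub hrV, h1⟩, ⟨r', hr', hsub hrV', h2⟩⟩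
  · -- `c0`
    intro V' E A p hV hE hconn hA hsg hconn' z hz
    obtain ⟨r, hr, hrV, hz⟩ := hz
    have hctx : C0Ctx D V' E A p := ⟨hD, hV, hE, hconn, hA, hsg, hconn'⟩
    exact ⟨r, hr, Finset.mem_of_mem_erase hrV, c0_rel hctx r hr hrV hz⟩

end LGAlt
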