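import Pool.Agent.LGAlt2.LBear

/-!
# The lower bound

If the sets `P V E` have the properties `LBHyp`, then `P V E` contains the octagon `Oct V E J` for every
connected graph `(V, E)` and every minimal dijoin `J`.

Induction on the number of edges.  We prove at the same time the inequalities `CC` between the
parameters `N = nb V E true`, `M = nJ E J true`, `L = nb V E false`, `m = nJ E J false`,
`g = E.card - V.card + 1`.

* `V.card = 1`: no edges (there are no loops), `J = ∅`, all parameters are `0`; `LBHyp.base`.
* There is a vertex `w` of degree at most one: `leaf_step`; all parameters are the same for the smaller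
  graph; `LBHyp.leaf`.
* Otherwise take the `EarData` from `ear_step`, with the sign `p`.
  Let first `p = true`.  `CC` for `(V, E)` follows from `CC` for `(V₁, E₁)` and `CC_step`: the parameters of
  `(V₁, E₁)`, `J \ Q`, are `N - k`, `M - (k + 1) / 2`, `L`, `m`, `g - 1` (`Q` has `k` elements, `J ∩ Q` has
  `k / 2`, all of sign `p`; `V.card = V₁.card + (k - 1)`).
  Let `z ∈ Oct V E J`.  If `-L < z.1 + z.2` use `arith_ear`, the induction
  hypothesis for `(V₁, E₁)` and `LBHyp.ear`.  If `z.1 + z.2 = -L`, then `z` belongs to the octagon of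
  `(V.erase C, del E C)` with `J₂` (it has fewer edges), with the parameters `N₂, M₂, L, m₂ ≥ m, g₂`:
  `z.1, z.2 ≥ -m ≥ -m₂`; `z.1 ≤ m - L ≤ 0 ≤ M₂` (`m ≤ L` by `nJ_le_nb`, and the same for `z.2`);
  `|z.1 - z.2| ≤ 2 m - L ≤ 2 m₂ - L ≤ g₂` by `CC` for `(V.erase C, del E C)`; so `LBHyp.c0` applies.
  The case `p = false` is the mirror image (`z ↦ -z`, exchange the signs, i.e. `N ↔ L`, `M ↔ m`; `CC` is
  symmetric).
-/

namespace LGAlt

namespace MG

variable (G : MG)

private theorem CC_symm {N M L m g : ℤ} (h : CC N M L m g) : CC L m N M g := by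
  obtain ⟨h1, h2, h3, h4, h5, h6, h7⟩ := h
  exact ⟨h2, h1, h4, h3, by omega, by omega, fun h => by have := h7 (by omega); omega⟩

private theorem CCG_iff (V E J : Finset ℕ) (p : Bool) :
    G.CCG V E J ↔ CC (G.nb V E p) (G.nJ E J p) (G.nb V E (!p)) (G.nJ E J (!p))
      ((E.card : ℤ) - V.card + 1) := by
  cases p
  · exact ⟨fun h => CC_symm h, fun h => CC_symm h⟩
  · exact Iff.rfl

private theorem Oct_iff (V E J : Finset ℕ) (p : Bool) (z : ℤ × ℤ) :
    z ∈ G.Oct V E J ↔ InOct (G.nb V E p) (G.nJ E J p) (G.nb V E (!p)) (G.nJ E J (!p))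
      ((E.card : ℤ) - V.card + 1) ((if p then 1 else -1) * z.1) ((if p then 1 else -1) * z.2) := by
  unfold Oct InOct
  rw [Set.mem_setOf_eq, abs_le]
  cases p
  · simp only [Bool.not_false, Bool.false_eq_true, if_false]
    constructor
    · rintro ⟨h1, h2, ⟨h3, h4⟩, h5, h6, h7, h8⟩
      refine ⟨by omega, by omega, by omega, by omega, by omega, by omega, by omega, by omega⟩
    · rintro ⟨h1, h2, h3, h4, h5, h6, h7, h8⟩
      refine ⟨by omega, by omega, ⟨by omega, by omega⟩, by omega, by omega, by omega, by omega⟩
  · simp only [Bool.not_true, if_true]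
    constructor
    · rintro ⟨h1, h2, ⟨h3, h4⟩, h5, h6, h7, h8⟩
      refine ⟨by omega, by omega, by omega, by omega, by omega, by omega, by omega, by omega⟩
    · rintro ⟨h1, h2, h3, h4, h5, h6, h7, h8⟩
      refine ⟨by omega, by omega, ⟨by omega, by omega⟩, by omega, by omega, by omega, by omega⟩

private theorem ear_disj {V₁ E₁ : Finset ℕ} {k : ℕ} {W c : ℕ → ℕ} (h : G.IsEar V₁ E₁ k W c) :
    Disjoint E₁ (earQ k c) ∧ (earQ k c).card = k ∧ Disjoint V₁ ((Finset.Ico 1 k).image W) ∧
      ((Finset.Ico 1 k).image W).card = k - 1 := by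
  refine ⟨?_, ?_, ?_, ?_⟩
  · rw [Finset.disjoint_left]
    intro e he hq
    unfold earQ at hq
    rw [Finset.mem_image] at hq
    obtain ⟨i, hi, rfl⟩ := hq
    exact h.cnot i (Finset.mem_range.mp hi) he
  · unfold earQ
    rw [Finset.card_image_of_injOn, Finset.card_range]
    intro i hi j hj hij
    exact h.cinj i (Finset.mem_range.mp hi) j (Finset.mem_range.mp hj) hij
  · rw [Finset.disjoint_left]
    intro v hv hq
    rw [Finset.mem_image] at hq
    obtain ⟨i, hi, rfl⟩ := hq
    rw [Finset.mem_Ico] at hi
    exact h.Wint i (by omega) hi.2 hv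
  · rw [Finset.card_image_of_injOn, Nat.card_Ico]
    intro i hi j hj hij
    rw [Finset.coe_Ico, Set.mem_Ico] at hi hj
    exact h.Winj i j (by omega) hi.2 (by omega) hj.2 hij

private theorem ear_params {V E J : Finset ℕ} {p : Bool} {V₁ E₁ : Finset ℕ} {k : ℕ} {W c : ℕ → ℕ}
    {C : ℕ} (hJ : J ⊆ E) (h : G.EarData V E J p V₁ E₁ k W c C) :
    E.card = E₁.card + k ∧ V.card + 1 = V₁.card + k ∧
      G.nJ E J p = G.nJ E₁ (J \ earQ k c) p + ((k + 1) / 2 : ℕ) ∧
      G.nJ E J (!p) = G.nJ E₁ (J \ earQ k c) (!p) := by
  obtain ⟨d1, d2, d3, d4⟩ := G.ear_disj h.ear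
  have hk := h.ear.kpos
  have hE : E = E₁ ∪ earQ k c := h.hE
  have hQs : ∀ e ∈ earQ k c, G.sg e = p := by
    intro e he
    unfold earQ at he
    rw [Finset.mem_image] at he
    obtain ⟨i, hi, rfl⟩ := he
    exact h.sgn i (Finset.mem_range.mp hi)
  have hJd : J = (J \ earQ k c) ∪ (J ∩ earQ k c) := by
    rw [Finset.sdiff_union_inter]
  have hJdd : Disjoint (J \ earQ k c) (J ∩ earQ k c) := Finset.disjoint_sdiff_inter _ _
  have f1 : (E.filter (fun e => G.sg e = p)).card = (E₁.filter (fun e => G.sg e = p)).card + k := by
    rw [hE, Finset.filter_union, Finset.card_union_of_disjoint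
      (Finset.disjoint_filter_filter d1), Finset.filter_true_of_mem hQs, d2]
  have f2 : (E.filter (fun e => G.sg e = !p)).card = (E₁.filter (fun e => G.sg e = !p)).card := by
    rw [hE, Finset.filter_union, Finset.card_union_of_disjoint
      (Finset.disjoint_filter_filter d1)]
    rw [Finset.filter_false_of_mem (s := earQ k c), Finset.card_empty, Nat.add_zero]
    intro e he h'
    rw [hQs e he] at h'
    cases p <;> simp at h'
  have f3 : (J.filter (fun e => G.sg e = p)).card =
      ((J \ earQ k c).filter (fun e => G.sg e = p)).card + k / 2 := by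
    conv_lhs => rw [hJd]
    rw [Finset.filter_union, Finset.card_union_of_disjoint (Finset.disjoint_filter_filter hJdd),
      Finset.filter_true_of_mem (s := J ∩ earQ k c)
        (fun e he => hQs e (Finset.mem_inter.mp he).2), h.cardJ]
  have f4 : (J.filter (fun e => G.sg e = !p)).card =
      ((J \ earQ k c).filter (fun e => G.sg e = !p)).card := by
    conv_lhs => rw [hJd]
    rw [Finset.filter_union, Finset.card_union_of_disjoint (Finset.disjoint_filter_filter hJdd)]
    rw [Finset.filter_false_of_mem (s := J ∩ earQ k c), Finset.card_empty, Nat.add_zero]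
    intro e he h'
    rw [hQs e (Finset.mem_inter.mp he).2] at h'
    cases p <;> simp at h'
  refine ⟨?_, ?_, ?_, ?_⟩
  · rw [hE, Finset.card_union_of_disjoint d1, d2]
  · rw [h.hV]
    unfold earV
    rw [Finset.card_union_of_disjoint d3, d4]
    omega
  · unfold nJ
    rw [f1, f3]
    push_cast
    omega
  · unfold nJ
    rw [f2, f4]

theorem lb (ty : ℕ → Bool) (V₀ E₀ : Finset ℕ) (P : Finset ℕ → Finset ℕ → Set (ℤ × ℤ))
    (hP : G.LBHyp ty V₀ E₀ P) (V E : Finset ℕ) (hV : V ⊆ V₀) (hE : E ⊆ E₀) (h : G.Conn V E)
    (J : Finset ℕ) (hJ : G.MinDijoin V E J) : G.Oct V E J ⊆ P V E ∧ G.CCG V E J := by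
  obtain ⟨n, hn⟩ : ∃ n, E.card = n := ⟨_, rfl⟩
  induction n using Nat.strong_induction_on generalizing V E J with
  | _ n ih =>
    have hnl : ∀ e ∈ E, G.tl e ≠ G.hd e := by
      intro e he heq
      have h1 := hP.tyt e (hE he)
      have h2 := hP.tyh e (hE he)
      rw [heq, h2] at h1
      exact absurd h1 (by simp)
    rcases Nat.lt_or_ge V.card 2 with hc | hc
    · have hc1 : V.card = 1 := by
        have := Finset.card_pos.mpr h.ne
        omega
      obtain ⟨v, hv⟩ := Finset.card_eq_one.mp hc1
      have hE0 : E = ∅ := by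
        rw [Finset.eq_empty_iff_forall_notMem]
        intro e he
        have h1 := h.ends e he
        rw [hv, Finset.mem_singleton, Finset.mem_singleton] at h1
        exact hnl e he (h1.1.trans h1.2.symm)
      have hJ0 : J = ∅ := by
        have := hJ.dj.sub
        rw [hE0] at this
        exact Finset.subset_empty.mp this
      subst hv
      subst hE0
      subst hJ0
      have e1 : ∀ p, G.nb {v} ∅ p = 0 := by intro p; simp [nb]
      have e2 : ∀ p, G.nJ ∅ ∅ p = 0 := by intro p; simp [nJ]
      refine ⟨?_, ?_⟩
      · rintro ⟨z1, z2⟩ hz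
        unfold Oct at hz
        rw [Set.mem_setOf_eq, e1, e1, e2, e2, abs_le] at hz
        simp only [Finset.card_empty, Finset.card_singleton, Nat.cast_zero, Nat.cast_one] at hz
        have h1 : z1 = 0 := by omega
        have h2 : z2 = 0 := by omega
        subst h1
        subst h2
        exact hP.base v (hV (Finset.mem_singleton_self v))
      · unfold CCG
        rw [e1, e1, e2, e2]
        simp [CC]
    · by_cases hdeg : ∃ w ∈ V, (E.filter (fun e => G.Touch w e)).card ≤ 1
      · obtain ⟨w, hw, hwd⟩ := hdeg
        obtain ⟨c, hcE, htc, hoc, hconn, hnb, hJs⟩ := G.leaf_step V E h hnl hc w hw hwd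
        obtain ⟨hJ', hnJ⟩ := hJs J hJ
        have hcard : (E.erase c).card < n := by
          rw [Finset.card_erase_of_mem hcE]
          have := Finset.card_pos.mpr ⟨c, hcE⟩
          omega
        have hV' : V.erase w ⊆ V₀ := (Finset.erase_subset _ _).trans hV
        have hE' : E.erase c ⊆ E₀ := (Finset.erase_subset _ _).trans hE
        obtain ⟨i1, i2⟩ := ih _ hcard (V.erase w) (E.erase c) hV' hE' hconn (J.erase c) hJ' rfl
        have hg : ((E.card : ℤ) - V.card + 1) = ((E.erase c).card : ℤ) - (V.erase w).card + 1 := by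
          rw [Finset.card_erase_of_mem hcE, Finset.card_erase_of_mem hw]
          have h1 := Finset.card_pos.mpr ⟨c, hcE⟩
          have h2 := Finset.card_pos.mpr ⟨w, hw⟩
          push_cast [Nat.cast_sub h1, Nat.cast_sub h2]
          omega
        have hO : G.Oct V E J = G.Oct (V.erase w) (E.erase c) (J.erase c) := by
          unfold Oct
          rw [hnb true, hnb false, hnJ true, hnJ false, hg]
        refine ⟨?_, ?_⟩
        · rw [hO]
          refine i1.trans ?_
          have := hP.leaf (V.erase w) (E.erase c) w c hV' hE' hconn (hV hw)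
            (Finset.notMem_erase w V) (hE hcE) (Finset.notMem_erase c E) htc hoc
          rw [Finset.insert_erase hw, Finset.insert_erase hcE] at this
          exact this
        · unfold CCG
          rw [hnb true, hnb false, hnJ true, hnJ false, hg]
          exact i2
      · push Not at hdeg
        obtain ⟨p, V₁, E₁, k, W, c, C, hed⟩ := G.ear_step ty E₀ hP.sepr hP.tyt hP.tyh V E hE h hc
          (fun v hv => hdeg v hv) J hJ
        obtain ⟨q1, q2, q3, q4⟩ := G.ear_params hJ.dj.sub hed
        have hk := hed.ear.kpos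
        have hV₁ : V₁ ⊆ V₀ := by
          refine (?_ : V₁ ⊆ V).trans hV
          rw [hed.hV]
          exact Finset.subset_union_left
        have hE₁ : E₁ ⊆ E₀ := by
          refine (?_ : E₁ ⊆ E).trans hE
          rw [hed.hE]
          exact Finset.subset_union_left
        obtain ⟨i1, i2⟩ := ih E₁.card (by omega) V₁ E₁ hV₁ hE₁ hed.conn (J \ earQ k c) hed.minJ rfl
        rw [G.CCG_iff V₁ E₁ (J \ earQ k c) p] at i2
        have hCC' : CC (G.nb V E p - k) (G.nJ E J p - ((k + 1) / 2 : ℕ)) (G.nb V E (!p))
            (G.nJ E J (!p)) (((E.card : ℤ) - V.card + 1) - 1) := by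
          rw [hed.nbp, hed.nbq, q3, q4]
          convert i2 using 1
          · ring
          · ring
          · omega
        have hCC : CC (G.nb V E p) (G.nJ E J p) (G.nb V E (!p)) (G.nJ E J (!p))
            ((E.card : ℤ) - V.card + 1) := by
          refine CC_step k _ _ _ _ _ hk hCC' fun hodd => ?_
          have h1 := hed.odd hodd
          have h2 := hCC'.2.1
          rw [hed.nbp]
          omega
        refine ⟨?_, (G.CCG_iff V E J p).mpr hCC⟩
        intro z hz
        rw [G.Oct_iff V E J p z] at hz
        by_cases hS : -(G.nb V E (!p)) < (if p then 1 else -1) * z.1 + (if p then 1 else -1) * z.2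
        · obtain ⟨l, hl1, hl2, hl⟩ := arith_ear k _ _ _ _ _ _ _ hk hCC hCC' hz hS
          have hcE : ∀ i < k, c i ∈ E := by
            intro i hi
            rw [hed.hE]
            exact Finset.mem_union_right _ (Finset.mem_image_of_mem c (Finset.mem_range.mpr hi))
          have hear := hP.ear V₁ E₁ k W c p hV₁ hE₁ hed.conn hed.ear (by rw [← hed.hV]; exact hV)
            (fun i hi => ⟨hE (hcE i hi), hed.sgn i hi⟩)
          rw [← hed.hV, ← hed.hE] at hear
          have hpar : ∀ x y : ℤ, InOct (G.nb V E p - k) (G.nJ E J p - ((k + 1) / 2 : ℕ)) (G.nb V E (!p))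
              (G.nJ E J (!p)) (((E.card : ℤ) - V.card + 1) - 1) ((if p then 1 else -1) * x)
              ((if p then 1 else -1) * y) → (x, y) ∈ P V₁ E₁ := by
            intro x y hxy
            apply i1
            rw [G.Oct_iff V₁ E₁ (J \ earQ k c) p (x, y)]
            rw [hed.nbp, hed.nbq, q3, q4] at hxy
            convert hxy using 1
            · ring
            · ring
            · omega
          have hss : (if p then (1 : ℤ) else -1) * (if p then 1 else -1) = 1 := by
            cases p <;> simp
          rcases hl with hl | hl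
          · have hm := hpar (z.1 - (if p then 1 else -1) * (((l + 1) / 2 : ℕ) : ℤ))
              (z.2 - (if p then 1 else -1) * ((l / 2 : ℕ) : ℤ)) (by
                convert hl using 1
                · rw [mul_sub, ← mul_assoc, hss, one_mul]
                · rw [mul_sub, ← mul_assoc, hss, one_mul])
            have := (hear _ hm l hl1 hl2).1
            simpa using this
          · have hm := hpar (z.1 - (if p then 1 else -1) * ((l / 2 : ℕ) : ℤ))
              (z.2 - (if p then 1 else -1) * (((l + 1) / 2 : ℕ) : ℤ)) (by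
                convert hl using 1
                · rw [mul_sub, ← mul_assoc, hss, one_mul]
                · rw [mul_sub, ← mul_assoc, hss, one_mul])
            have := (hear _ hm l hl1 hl2).2
            simpa using this
        · obtain ⟨J₂, hJ₂, hm⟩ := hed.dijC
          have hdel : (G.del E C).card < n := by
            have h1 : (E.filter (fun e => G.Touch C e)).card + (G.del E C).card = E.card := by
              unfold del
              exact Finset.card_filter_add_card_filter_not _
            have h2 := hdeg C hed.hC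
            omega
          have hV₂ : V.erase C ⊆ V₀ := (Finset.erase_subset _ _).trans hV
          have hE₂ : G.del E C ⊆ E₀ := (Finset.filter_subset _ _).trans hE
          obtain ⟨j1, j2⟩ := ih _ hdel (V.erase C) (G.del E C) hV₂ hE₂ hed.connC J₂ hJ₂ rfl
          rw [G.CCG_iff _ _ _ p] at j2
          apply hP.c0 V E C p hV hE h hed.hC hed.pureC hed.connC
          apply j1
          rw [G.Oct_iff _ _ _ p z]
          have hml := G.nJ_le_nb V E J h hJ.dj (!p)
          have hLL := hed.nbC
          obtain ⟨c1, c2, c3, c4, c5, c6, c7⟩ := j2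
          obtain ⟨z1, z2, z3, z4, z5, z6, z7, z8⟩ := hz
          generalize hx : (if p then 1 else -1) * z.1 = x at *
          generalize hy : (if p then 1 else -1) * z.2 = y at *
          refine ⟨by omega, by omega, by omega, by omega, by omega, by omega, by omega, by omega⟩

end MG

end LGAlt
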