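import Pool.Agent.LGAlt2.UBa

/-!
# The upper bound, second part

* `diff_le` : for every crossing, `sgn * (u - v) = 1 - …` : if `sg c = true` then
  `u - v = 1 - [m₁ c ∈ {B, L}] - [m₂ c ∈ {B, R}]`, if `sg c = false` then
  `-(u - v) = 1 - [m₁ c ∈ {T, L}] - [m₂ c ∈ {T, R}]`.  So
  `z.1 - z.2 ≤ C.card - #{c | m₁ c = L} - #{c | m₂ c = R}`.  In the same way
  `z.2 - z.1 ≤ C.card - #{c | m₁ c = R} - #{c | m₂ c = L}`.
* `LR_count` : for two histories `m`, `m'`: `#{c | m c = L} + #{c | m' c = R} ≥ V.card - 1`.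
  For a circle `W ≠ R₀` let `Y_W = {W} ∪ {A ∈ V | A ≠ W, HC W A ≠ HC W R₀}`.  `R₀ ∉ Y_W`.  A separated crossing
  touches `W` (`HC_edge`) and its other circle has the height `HC W R₀`.  So by `HC_cl`, `HC_cr`: if
  `HC W R₀ = Eta W` then `W = cl c` for all separated crossings (call `W` of side `L`), and by `topV` there is
  `c` with `cl c = W`, `m c = L`.  Otherwise (`topV` shows that there is a separated crossing, so
  `HC W R₀ = Eta W + 1`) `W = cr c` for all of them, and there is `c` with `cr c = W`, `m' c = R`.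
  Different `W` of side `L` give different crossings with `m c = L`, and the same for `R`.
-/

namespace LGAlt

private lemma ub_rc_mem (D : Dia) : D.rc (0, 0) ∈ D.V := by
  refine Finset.mem_image_of_mem _ ?_
  exact Finset.mem_insert_self _ _

/-- for every circle which is not the circle of the root there is a crossing with a far mark -/
private lemma ub_mark (D : Dia) (m m' : ℕ → Mk)
    (h : Hist D.pc D.n D.C (0, 0) m) (h' : Hist D.pc D.n D.C (0, 0) m') (W : ℕ) (hW : W ∈ D.V)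
    (hW0 : W ≠ D.rc (0, 0)) :
    (∃ c ∈ D.C, m c = .L ∧ D.cl c = W) ∨ (∃ c ∈ D.C, m' c = .R ∧ D.cr c = W) := by
  classical
  obtain ⟨Y, hYdef⟩ : ∃ Y : Finset ℕ, Y = insert W (D.V.filter
      (fun A => A ≠ W ∧ D.HC W A ≠ D.HC W (D.rc (0, 0)))) := ⟨_, rfl⟩
  have hmem : ∀ A ∈ D.V, (A ∈ Y ↔ A = W ∨ D.HC W A ≠ D.HC W (D.rc (0, 0))) := by
    intro A hA
    rw [hYdef, Finset.mem_insert, Finset.mem_filter]
    tauto
  have hYV : Y ⊆ D.V := by
    rw [hYdef]
    exact Finset.insert_subset hW (Finset.filter_subset _ _)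
  have hYne : Y.Nonempty := ⟨W, by rw [hYdef]; exact Finset.mem_insert_self _ _⟩
  have hR0 : D.rc (0, 0) ∉ Y := by
    rw [hmem _ (ub_rc_mem D)]
    rintro (h1 | h1)
    · exact hW0 h1.symm
    · exact h1 rfl
  have hWY : W ∈ Y := (hmem W hW).2 (Or.inl rfl)
  -- a separated crossing touches `W`
  have hsep : ∀ c ∈ D.C, ¬ (D.cl c ∈ Y ↔ D.cr c ∈ Y) →
      (D.cl c = W ∧ D.cr c ∉ Y ∧ D.HC W (D.rc (0, 0)) = D.Eta W) ∨
      (D.cr c = W ∧ D.cl c ∉ Y ∧ D.HC W (D.rc (0, 0)) = D.Eta W + 1) := by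
    intro c hc hs
    have hcl := hmem _ (cl_mem D c hc)
    have hcr := hmem _ (cr_mem D c hc)
    by_cases h1 : D.cl c = W
    · left
      have h2 : D.cr c ∉ Y := fun h3 => hs ⟨fun _ => h3, fun _ => h1 ▸ hWY⟩
      have h3 : D.HC W (D.cr c) = D.HC W (D.rc (0, 0)) := by
        by_contra h4
        exact h2 (hcr.2 (Or.inr h4))
      exact ⟨h1, h2, h3.symm.trans (HC_cl D W c hc h1)⟩
    · by_cases h2 : D.cr c = W
      · right
        have h3 : D.cl c ∉ Y := fun h4 => hs ⟨fun _ => h2 ▸ hWY, fun _ => h4⟩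
        have h4 : D.HC W (D.cl c) = D.HC W (D.rc (0, 0)) := by
          by_contra h5
          exact h3 (hcl.2 (Or.inr h5))
        exact ⟨h2, h3, h4.symm.trans (HC_cr D W c hc h2)⟩
      · exfalso
        apply hs
        rw [hcl, hcr, HC_edge D W c hc h1 h2]
        tauto
  by_cases hE : D.HC W (D.rc (0, 0)) = D.Eta W
  · left
    obtain ⟨c, hc, h1⟩ := topV D m h Y hYV hYne hR0
    rcases h1 with ⟨h2, h3, h4⟩ | ⟨h2, h3, h4⟩
    · rcases hsep c hc (fun h5 => h3 (h5.1 h2)) with h6 | h6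
      · exact ⟨c, hc, h4, h6.1⟩
      · exact absurd (h6.1 ▸ hWY) h3
    · rcases hsep c hc (fun h5 => h3 (h5.2 h2)) with h6 | h6
      · exact absurd (h6.1 ▸ hWY) h3
      · exfalso
        have := h6.2.2
        omega
  · right
    obtain ⟨c, hc, h1⟩ := topV D m' h' Y hYV hYne hR0
    rcases h1 with ⟨h2, h3, h4⟩ | ⟨h2, h3, h4⟩
    · rcases hsep c hc (fun h5 => h3 (h5.1 h2)) with h6 | h6
      · exact absurd h6.2.2 hE
      · exact absurd (h6.1 ▸ hWY) h3
    · rcases hsep c hc (fun h5 => h3 (h5.2 h2)) with h6 | h6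
      · exact absurd h6.2.2 hE
      · exact ⟨c, hc, h4, h6.1⟩

theorem LR_count (D : Dia) (m m' : ℕ → Mk)
    (h : Hist D.pc D.n D.C (0, 0) m) (h' : Hist D.pc D.n D.C (0, 0) m') :
    D.V.card ≤ (D.C.filter (fun c => m c = .L)).card + (D.C.filter (fun c => m' c = .R)).card + 1 := by
  classical
  have hsub : D.V.erase (D.rc (0, 0)) ⊆ (D.C.filter (fun c => m c = .L)).image D.cl ∪
      (D.C.filter (fun c => m' c = .R)).image D.cr := by
    intro W hW
    obtain ⟨h1, h2⟩ := Finset.mem_erase.1 hW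
    rw [Finset.mem_union, Finset.mem_image, Finset.mem_image]
    rcases ub_mark D m m' h h' W h2 h1 with ⟨c, hc, h3, h4⟩ | ⟨c, hc, h3, h4⟩
    · exact Or.inl ⟨c, Finset.mem_filter.2 ⟨hc, h3⟩, h4⟩
    · exact Or.inr ⟨c, Finset.mem_filter.2 ⟨hc, h3⟩, h4⟩
  have h1 := Finset.card_le_card hsub
  have h2 := Finset.card_union_le ((D.C.filter (fun c => m c = .L)).image D.cl)
    ((D.C.filter (fun c => m' c = .R)).image D.cr)
  have h3 := Finset.card_image_le (s := D.C.filter (fun c => m c = .L)) (f := D.cl)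
  have h4 := Finset.card_image_le (s := D.C.filter (fun c => m' c = .R)) (f := D.cr)
  have h5 := Finset.card_erase_add_one (ub_rc_mem D)
  omega

/-- the difference of the two exponents is a sum over the crossings -/
private lemma ub_diff_sum (D : Dia) (m₁ m₂ : ℕ → Mk) :
    (Val D.pc D.C m₁ m₂).1 - (Val D.pc D.C m₁ m₂).2 ≤ (D.C.card : ℤ)
        - (D.C.filter (fun c => m₁ c = .L)).card - (D.C.filter (fun c => m₂ c = .R)).card ∧
    (Val D.pc D.C m₁ m₂).2 - (Val D.pc D.C m₁ m₂).1 ≤ (D.C.card : ℤ)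
        - (D.C.filter (fun c => m₂ c = .L)).card - (D.C.filter (fun c => m₁ c = .R)).card := by
  have e1 : ∀ (m : ℕ → Mk) (k : Mk), ((D.C.filter (fun c => m c = k)).card : ℤ)
      = ∑ c ∈ D.C, (if m c = k then (1 : ℤ) else 0) := by
    intro m k
    rw [Finset.card_filter]
    push_cast
    rfl
  have e2 : (D.C.card : ℤ) = ∑ _c ∈ D.C, (1 : ℤ) := by simp
  rw [e1, e1, e1, e1, e2]
  unfold Val
  simp only
  rw [← Finset.sum_sub_distrib, ← Finset.sum_sub_distrib, ← Finset.sum_sub_distrib,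
    ← Finset.sum_sub_distrib, ← Finset.sum_sub_distrib, ← Finset.sum_sub_distrib]
  constructor
  · refine Finset.sum_le_sum fun c _ => ?_
    unfold sgc
    cases h0 : (D.pc c).pos <;> cases h1 : m₁ c <;> cases h2 : m₂ c <;>
      simp [ub, vb, h0]
  · refine Finset.sum_le_sum fun c _ => ?_
    unfold sgc
    cases h0 : (D.pc c).pos <;> cases h1 : m₁ c <;> cases h2 : m₂ c <;>
      simp [ub, vb, h0]

theorem diff_le (D : Dia) (m₁ m₂ : ℕ → Mk)
    (h₁ : Hist D.pc D.n D.C (0, 0) m₁) (h₂ : Hist D.pc D.n D.C (0, 0) m₂) :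
    |(Val D.pc D.C m₁ m₂).1 - (Val D.pc D.C m₁ m₂).2| ≤ (D.C.card : ℤ) - D.V.card + 1 := by
  obtain ⟨h3, h4⟩ := ub_diff_sum D m₁ m₂
  have h5 := LR_count D m₁ m₂ h₁ h₂
  have h6 := LR_count D m₂ m₁ h₂ h₁
  rw [abs_le]
  constructor
  · omega
  · omega

theorem ub_oct (D : Dia) (hD : D.MGr.Conn D.V D.C) (J : Finset ℕ)
    (hJ : D.MGr.MinDijoin D.V D.C J) : PH D.pc D.n D.C (0, 0) ⊆ D.MGr.Oct D.V D.C J := by
  rintro z ⟨m₁, m₂, h₁, h₂, rfl⟩
  obtain ⟨h3, h4⟩ := sum_le D hD m₁ m₂ h₁ h₂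
  have h5 := diff_le D m₁ m₂ h₁ h₂
  obtain ⟨h6, h7⟩ := val_XS D m₁ m₂
  have t1 := XS_le D hD m₁ m₂ h₁ h₂ J hJ true true
  have t2 := XS_le D hD m₁ m₂ h₁ h₂ J hJ true false
  have t3 := XS_le D hD m₁ m₂ h₁ h₂ J hJ false true
  have t4 := XS_le D hD m₁ m₂ h₁ h₂ J hJ false false
  refine ⟨h3, h4, h5, ?_, ?_, ?_, ?_⟩
  · omega
  · omega
  · omega
  · omega

end LGAlt
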