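import Pool.Agent.LGAlt2.FinalA
import Pool.Agent.LGAlt2.KMain
import Pool.Agent.LGAlt2.UB
import Pool.Agent.LGAlt2.LB

/-!
# The support of the Links–Gould invariant of an alternating link, second part

* `PH_oct` : if the graph is connected, `PH C (0, 0) = PK C (0, 0)` contains the octagon (`lb`, `lbhyp`; an
  element of `PP V C` belongs to `PK C r` for some root `r`, so to `PK C (0, 0)` by `RI`), and it is contained in
  the octagon (`ub_oct`).  Otherwise it is empty (`no_hist`).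
* `no_interior_zeros` : so the support is empty or defined by inequalities of the form
  `a ≤ x + y ≤ b`, `|x - y| ≤ c`, `a ≤ x ≤ b`, `a ≤ y ≤ b` (for `2 z - g`), which define a convex set.  If
  `(i, j)` is a lattice point of the convex hull of `{(i, j) | coeff (2 i, 2 j) ≠ 0}`, then `(2 i + g, 2 j + g)`
  satisfies the inequalities; `g` is even if the support is not empty (`LG_sign`: the exponents are even), so it
  is `2 z` with `z` in the octagon.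
-/

namespace LGAlt

theorem PH_oct (D : Dia) (hRI : D.RI) (hD : D.MGr.Conn D.V D.C) (J : Finset ℕ)
    (hJ : D.MGr.MinDijoin D.V D.C J) : PH D.pc D.n D.C (0, 0) = D.MGr.Oct D.V D.C J := by
  refine Set.Subset.antisymm (ub_oct D hD J hJ) ?_
  have hcU : D.ConnU D.C := connU_of_conn D D.C (Finset.Subset.refl _) hD
  have h0 : D.IsRoot (0, 0) := ⟨Nat.zero_le _, Nat.zero_lt_one⟩
  intro z hz
  have h1 := (D.MGr.lb D.ty D.V D.C D.PP (lbhyp D hRI hD) D.V D.C (Finset.Subset.refl _)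
    (Finset.Subset.refl _) hD J hJ).1 hz
  obtain ⟨r, hr, -, hzr⟩ := h1
  rw [PH_eq_PK D D.C (Finset.Subset.refl _) hcU (0, 0) h0,
    ← hRI D.C (Finset.Subset.refl _) hcU r (0, 0) hr h0]
  exact hzr

/-- the support of the Links–Gould invariant, in the variables `t₀`, `t₁`, as a subset of the plane -/
def suppR (w : List Piece) : Set (ℝ × ℝ) :=
  {v | ∃ i j : ℤ, (LG w).coeff (2 * i, 2 * j) ≠ 0 ∧ v = ((i : ℝ), (j : ℝ))}

/-- there is a minimal dijoin -/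
private theorem fin_exists_minDijoin (G : MG) {V E : Finset ℕ} (h : G.Conn V E) :
    ∃ J, G.MinDijoin V E J := by
  classical
  have hE : G.Dijoin V E E :=
    ⟨Finset.Subset.refl _, fun Y hY hne hnV _ => h.cut Y hY hne hnV⟩
  have hne : (E.powerset.filter (fun J => G.Dijoin V E J)).Nonempty :=
    ⟨E, Finset.mem_filter.2 ⟨Finset.mem_powerset.2 (Finset.Subset.refl _), hE⟩⟩
  obtain ⟨J, hJ, hmin⟩ := Finset.exists_min_image _ (fun J : Finset ℕ => J.card) hne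
  rw [Finset.mem_filter] at hJ
  refine ⟨J, hJ.2, fun J' hJ' => hmin J' ?_⟩
  rw [Finset.mem_filter, Finset.mem_powerset]
  exact ⟨hJ'.sub, hJ'⟩

/-- octagons are convex -/
private theorem fin_convex (a₁ b₁ a₂ b₂ a₃ b₃ a₄ b₄ : ℝ) :
    Convex ℝ {v : ℝ × ℝ | (a₁ ≤ v.1 + v.2 ∧ v.1 + v.2 ≤ b₁) ∧ (a₂ ≤ v.1 - v.2 ∧ v.1 - v.2 ≤ b₂) ∧
      (a₃ ≤ v.1 ∧ v.1 ≤ b₃) ∧ (a₄ ≤ v.2 ∧ v.2 ≤ b₄)} := by
  have lin : ∀ (f : ℝ × ℝ → ℝ) (_ : ∀ x y : ℝ × ℝ, ∀ s t : ℝ, f (s • x + t • y) = s * f x + t * f y)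
      (a b : ℝ) (x y : ℝ × ℝ) (s t : ℝ), 0 ≤ s → 0 ≤ t → s + t = 1 → (a ≤ f x ∧ f x ≤ b) →
      (a ≤ f y ∧ f y ≤ b) → (a ≤ f (s • x + t • y) ∧ f (s • x + t • y) ≤ b) := by
    intro f hf a b x y s t hs ht hst hx hy
    rw [hf]
    have e1 : s * a + t * a = a := by rw [← add_mul, hst, one_mul]
    have e2 : s * b + t * b = b := by rw [← add_mul, hst, one_mul]
    have i1 := mul_le_mul_of_nonneg_left hx.1 hs
    have i2 := mul_le_mul_of_nonneg_left hx.2 hs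
    have i3 := mul_le_mul_of_nonneg_left hy.1 ht
    have i4 := mul_le_mul_of_nonneg_left hy.2 ht
    constructor <;> linarith
  rintro x ⟨x1, x2, x3, x4⟩ y ⟨y1, y2, y3, y4⟩ s t hs ht hst
  refine ⟨?_, ?_, ?_, ?_⟩
  · exact lin (fun v => v.1 + v.2) (fun x y s t => by simp; ring) a₁ b₁ x y s t hs ht hst x1 y1
  · exact lin (fun v => v.1 - v.2) (fun x y s t => by simp; ring) a₂ b₂ x y s t hs ht hst x2 y2
  · exact lin (fun v => v.1) (fun x y s t => by simp) a₃ b₃ x y s t hs ht hst x3 y3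
  · exact lin (fun v => v.2) (fun x y s t => by simp) a₄ b₄ x y s t hs ht hst x4 y4

/-- **Theorem.**  The coefficients of the Links–Gould invariant of an alternating link have no interior zeros. -/
theorem no_interior_zeros {w : List Piece} {μ : ℕ} (hd : IsDiagram w μ) (ha : IsAlternating w)
    (i j : ℤ) (h : ((i : ℝ), (j : ℝ)) ∈ convexHull ℝ (suppR w)) :
    (LG w).coeff (2 * i, 2 * j) ≠ 0 := by
  obtain ⟨c, n, m, hpath, rfl⟩ := hd
  have hw : OPath w [true] [true] := by simpa using hpath.oPath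
  obtain ⟨x, hx⟩ := ha
  obtain ⟨D, hn, hpc⟩ := exists_dia hw hx
  have hRI := ri_dia hw hx D hn hpc
  have hsupp := supp_LG hw hx D hn hpc
  set g : ℤ := g0 0 w with hg
  have hne : (suppR w).Nonempty := by
    rw [← convexHull_nonempty_iff (𝕜 := ℝ)]
    exact ⟨_, h⟩
  by_cases hD : D.MGr.Conn D.V D.C
  swap
  · exfalso
    obtain ⟨-, i₀, j₀, h0, -⟩ := hne
    obtain ⟨z, ⟨m₁, m₂, h1, -, -⟩, -⟩ := (hsupp _).1 h0
    exact no_hist D hD m₁ h1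
  obtain ⟨J, hJ⟩ := fin_exists_minDijoin D.MGr hD
  have hoct := PH_oct D hRI hD J hJ
  rw [hoct] at hsupp
  -- the parity of `g`
  obtain ⟨g', hg'⟩ : ∃ g' : ℤ, g = 2 * g' := by
    obtain ⟨-, i₀, j₀, h0, -⟩ := hne
    obtain ⟨z, -, hz⟩ := (hsupp _).1 h0
    rw [Prod.mk.injEq] at hz
    exact ⟨z.1 - i₀, by omega⟩
  set F := D.MGr.nb D.V D.C false with hF
  set Tr := D.MGr.nb D.V D.C true with hTr
  set F' := D.MGr.nJ D.C J false with hF'
  set T' := D.MGr.nJ D.C J true with hT'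
  set q : ℤ := (D.C.card : ℤ) - D.V.card + 1 with hq
  have hsub : suppR w ⊆ {v : ℝ × ℝ | (((-F - g : ℤ) : ℝ) ≤ v.1 + v.2 ∧ v.1 + v.2 ≤ ((Tr - g : ℤ) : ℝ)) ∧
      (((-q : ℤ) : ℝ) ≤ v.1 - v.2 ∧ v.1 - v.2 ≤ ((q : ℤ) : ℝ)) ∧
      (((-F' - g' : ℤ) : ℝ) ≤ v.1 ∧ v.1 ≤ ((T' - g' : ℤ) : ℝ)) ∧
      (((-F' - g' : ℤ) : ℝ) ≤ v.2 ∧ v.2 ≤ ((T' - g' : ℤ) : ℝ))} := by
    rintro v ⟨i₁, j₁, h1, rfl⟩
    obtain ⟨z, hz, he⟩ := (hsupp _).1 h1
    rw [Prod.mk.injEq] at he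
    obtain ⟨z1, z2, z3, z4, z5, z6, z7⟩ := hz
    rw [abs_le] at z3
    obtain ⟨z31, z32⟩ := z3
    rw [← hF] at z1
    rw [← hTr] at z2
    rw [← hq] at z31 z32
    rw [← hF'] at z4 z6
    rw [← hT'] at z5 z7
    refine ⟨⟨?_, ?_⟩, ⟨?_, ?_⟩, ⟨?_, ?_⟩, ⟨?_, ?_⟩⟩
    · have : -F - g ≤ i₁ + j₁ := by omega
      show ((-F - g : ℤ) : ℝ) ≤ (i₁ : ℝ) + (j₁ : ℝ)
      exact_mod_cast this
    · have : i₁ + j₁ ≤ Tr - g := by omega
      show (i₁ : ℝ) + (j₁ : ℝ) ≤ ((Tr - g : ℤ) : ℝ)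
      exact_mod_cast this
    · have : -q ≤ i₁ - j₁ := by omega
      show ((-q : ℤ) : ℝ) ≤ (i₁ : ℝ) - (j₁ : ℝ)
      exact_mod_cast this
    · have : i₁ - j₁ ≤ q := by omega
      show (i₁ : ℝ) - (j₁ : ℝ) ≤ ((q : ℤ) : ℝ)
      exact_mod_cast this
    · have : -F' - g' ≤ i₁ := by omega
      show ((-F' - g' : ℤ) : ℝ) ≤ (i₁ : ℝ)
      exact_mod_cast this
    · have : i₁ ≤ T' - g' := by omega
      show (i₁ : ℝ) ≤ ((T' - g' : ℤ) : ℝ)
      exact_mod_cast this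
    · have : -F' - g' ≤ j₁ := by omega
      show ((-F' - g' : ℤ) : ℝ) ≤ (j₁ : ℝ)
      exact_mod_cast this
    · have : j₁ ≤ T' - g' := by omega
      show (j₁ : ℝ) ≤ ((T' - g' : ℤ) : ℝ)
      exact_mod_cast this
  have hK := convexHull_min hsub (fin_convex _ _ _ _ _ _ _ _) h
  obtain ⟨⟨k1, k2⟩, ⟨k3, k4⟩, ⟨k5, k6⟩, ⟨k7, k8⟩⟩ := hK
  have k1' : -F - g ≤ i + j := by
    have k : ((-F - g : ℤ) : ℝ) ≤ (i : ℝ) + (j : ℝ) := k1
    exact_mod_cast k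
  have k2' : i + j ≤ Tr - g := by
    have k : (i : ℝ) + (j : ℝ) ≤ ((Tr - g : ℤ) : ℝ) := k2
    exact_mod_cast k
  have k3' : -q ≤ i - j := by
    have k : ((-q : ℤ) : ℝ) ≤ (i : ℝ) - (j : ℝ) := k3
    exact_mod_cast k
  have k4' : i - j ≤ q := by
    have k : (i : ℝ) - (j : ℝ) ≤ ((q : ℤ) : ℝ) := k4
    exact_mod_cast k
  have k5' : -F' - g' ≤ i := by
    have k : ((-F' - g' : ℤ) : ℝ) ≤ (i : ℝ) := k5
    exact_mod_cast k
  have k6' : i ≤ T' - g' := by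
    have k : (i : ℝ) ≤ ((T' - g' : ℤ) : ℝ) := k6
    exact_mod_cast k
  have k7' : -F' - g' ≤ j := by
    have k : ((-F' - g' : ℤ) : ℝ) ≤ (j : ℝ) := k7
    exact_mod_cast k
  have k8' : j ≤ T' - g' := by
    have k : (j : ℝ) ≤ ((T' - g' : ℤ) : ℝ) := k8
    exact_mod_cast k
  rw [hsupp]
  refine ⟨(i + g', j + g'), ?_, ?_⟩
  · refine ⟨?_, ?_, ?_, ?_, ?_, ?_, ?_⟩
    · rw [← hF]; omega
    · rw [← hTr]; omega
    · rw [← hq, abs_le]; omega
    · rw [← hF']; omega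
    · rw [← hT']; omega
    · rw [← hF']; omega
    · rw [← hT']; omega
  · rw [Prod.mk.injEq]
    omega

end LGAlt
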