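import Pool.Agent.LGAlt2.HK36

/-!
# Histories and Kauffman states

The proof is in `HK36.lean`.
-/

namespace LGAlt

theorem hist_iff_kst (D : Dia) (U : Finset ℕ) (hUC : U ⊆ D.C) (hU : D.ConnU U) (r : ℕ × ℕ)
    (hr : D.IsRoot r) (m : ℕ → Mk) : Hist D.pc D.n U r m ↔ Kst D.pc D.n U r m :=
  HK.hist_iff_kst36 D U hUC hU r hr m

theorem PH_eq_PK (D : Dia) (U : Finset ℕ) (hUC : U ⊆ D.C) (hU : D.ConnU U) (r : ℕ × ℕ)
    (hr : D.IsRoot r) : PH D.pc D.n U r = PK D.pc D.n U r := by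
  simp only [PH, PK, hist_iff_kst D U hUC hU r hr]

end LGAlt
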