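import Pool.Agent.LGAlt2.LHist
import Pool.Agent.LGAlt2.HK

/-!
# The support of the Links–Gould invariant of an alternating link

* `ri_dia` : the diagram of a word satisfies `RI`: for `ConnU U` and roots `r`, `r'`, by `root_indep` both
  values `evL U r 0 w [F, F]` are equal to the one for the root `(0, 0)`, so by `supp_evL`, `LH_iff`, `VL_eq`
  `PH U r = PH U r'`, and `PH = PK` by `PH_eq_PK`.
* `supp_LG` : the support of `LG w` is `{(2 z.1 - g, 2 z.2 - g) | z ∈ PH C (0, 0)}`.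
-/

namespace LGAlt

private theorem rootOK_of {w : List Piece} (hw : OPath w [true] [true]) (r : ℕ × ℕ)
    (hr : r.1 ≤ w.length ∧ r.2 < str (pcOf w) r.1) : RootOK r 0 w [true] := by
  refine Or.inr ⟨Nat.zero_le _, w.take r.1, w.drop r.1, osl (pcOf w) r.1,
    (List.take_append_drop r.1 w).symm, ?_, (levels hw r.1 hr.1).1, ?_⟩
  · rw [List.length_take, Nat.min_eq_left hr.1, Nat.zero_add]
  · rw [osl_length]; exact hr.2

private theorem mem_PH_iff {w : List Piece} (hw : OPath w [true] [true]) {x : Bool}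
    (ha : AltPath w [x] [x]) (U : Finset ℕ)
    (hU : ∀ j ∈ U, j < w.length ∧ (pcOf w j).isX = true) (r : ℕ × ℕ)
    (hr : r.1 ≤ w.length ∧ r.2 < str (pcOf w) r.1) (e : ℤ × ℤ) :
    (evL U r 0 w [(true, true), (true, true)]).coeff e ≠ 0 ↔
      ∃ z ∈ PH (pcOf w) w.length U r, e = (2 * z.1 - g0 0 w, 2 * z.2 - g0 0 w) := by
  rw [supp_evL U r hw ha (rootOK_of hw r hr) e]
  constructor
  · rintro ⟨m₁, m₂, h₁, h₂, he⟩
    refine ⟨Val (pcOf w) U m₁ m₂, ⟨m₁, m₂, (LH_iff hw U r hr m₁).1 h₁,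
      (LH_iff hw U r hr m₂).1 h₂, rfl⟩, ?_⟩
    rw [he, VL_eq w U hU m₁ m₂]
  · rintro ⟨z, ⟨m₁, m₂, h₁, h₂, hz⟩, he⟩
    refine ⟨m₁, m₂, (LH_iff hw U r hr m₁).2 h₁, (LH_iff hw U r hr m₂).2 h₂, ?_⟩
    rw [he, hz, VL_eq w U hU m₁ m₂]

private theorem evL_root {w : List Piece} (hw : OPath w [true] [true]) (U : Finset ℕ)
    (r : ℕ × ℕ) (hr : r.1 ≤ w.length ∧ r.2 < str (pcOf w) r.1) :
    evL U r 0 w [(true, true), (true, true)]
      = evL U (0, 0) 0 w [(true, true), (true, true)] := by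
  have h := root_indep U (levels hw r.1 hr.1).1 (levels hw r.1 hr.1).2 r.2
    (by rw [osl_length]; exact hr.2)
  rw [List.take_append_drop, List.length_take, Nat.min_eq_left hr.1] at h
  exact h

private theorem PH_root {w : List Piece} (hw : OPath w [true] [true]) {x : Bool}
    (ha : AltPath w [x] [x]) (U : Finset ℕ)
    (hU : ∀ j ∈ U, j < w.length ∧ (pcOf w j).isX = true) (r r' : ℕ × ℕ)
    (hr : r.1 ≤ w.length ∧ r.2 < str (pcOf w) r.1)
    (hr' : r'.1 ≤ w.length ∧ r'.2 < str (pcOf w) r'.1) :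
    PH (pcOf w) w.length U r = PH (pcOf w) w.length U r' := by
  have key : ∀ r r' : ℕ × ℕ, (r.1 ≤ w.length ∧ r.2 < str (pcOf w) r.1) →
      (r'.1 ≤ w.length ∧ r'.2 < str (pcOf w) r'.1) →
      PH (pcOf w) w.length U r ⊆ PH (pcOf w) w.length U r' := by
    intro r r' hr hr' z hz
    have h1 := (mem_PH_iff hw ha U hU r hr (2 * z.1 - g0 0 w, 2 * z.2 - g0 0 w)).2 ⟨z, hz, rfl⟩
    rw [evL_root hw U r hr, ← evL_root hw U r' hr'] at h1
    obtain ⟨z', hz', he⟩ := (mem_PH_iff hw ha U hU r' hr' _).1 h1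
    have e1 : z.1 = z'.1 := by
      have := congrArg Prod.fst he
      simp only at this
      omega
    have e2 : z.2 = z'.2 := by
      have := congrArg Prod.snd he
      simp only at this
      omega
    have : z = z' := Prod.ext e1 e2
    rw [this]; exact hz'
  exact Set.Subset.antisymm (key r r' hr hr') (key r' r hr' hr)

private theorem C_spec {w : List Piece} (D : Dia) (hn : D.n = w.length) (hpc : D.pc = pcOf w)
    (j : ℕ) : j ∈ D.C ↔ j < w.length ∧ (pcOf w j).isX = true := by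
  rw [Dia.C, Finset.mem_filter, Finset.mem_range, hn, hpc]

theorem ri_dia {w : List Piece} (hw : OPath w [true] [true]) {x : Bool} (ha : AltPath w [x] [x])
    (D : Dia) (hn : D.n = w.length) (hpc : D.pc = pcOf w) : D.RI := by
  intro U hUC hU r r' hr hr'
  rw [← PH_eq_PK D U hUC hU r hr, ← PH_eq_PK D U hUC hU r' hr', hn, hpc]
  have h1 : r.1 ≤ w.length ∧ r.2 < str (pcOf w) r.1 := by
    rw [← hn, ← hpc]; exact hr
  have h2 : r'.1 ≤ w.length ∧ r'.2 < str (pcOf w) r'.1 := by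
    rw [← hn, ← hpc]; exact hr'
  exact PH_root hw ha U (fun j hj => (C_spec D hn hpc j).1 (hUC hj)) r r' h1 h2

theorem supp_LG {w : List Piece} (hw : OPath w [true] [true]) {x : Bool} (ha : AltPath w [x] [x])
    (D : Dia) (hn : D.n = w.length) (hpc : D.pc = pcOf w) (e : ℤ × ℤ) :
    (LG w).coeff e ≠ 0 ↔ ∃ z ∈ PH D.pc D.n D.C (0, 0), e = (2 * z.1 - g0 0 w, 2 * z.2 - g0 0 w) := by
  have hC : ∀ j k pos, w[j]? = some (Piece.cross k pos) → j ∈ D.C := by
    intro j k pos h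
    rw [C_spec D hn hpc j]
    obtain ⟨hj, he⟩ := List.getElem?_eq_some_iff.1 h
    refine ⟨hj, ?_⟩
    have : pcOf w j = Piece.cross k pos := by
      rw [pcOf, List.getD_eq_getElem _ _ hj, he]
    rw [this]; rfl
  rw [LG_eq_evU hw D.C hC, hn, hpc]
  exact mem_PH_iff hw ha D.C (fun j hj => (C_spec D hn hpc j).1 hj) (0, 0)
    ⟨Nat.zero_le _, by simp [str]⟩ e

end LGAlt
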