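import Pool.Agent.LGAlt2.ForestA

/-!
# Faces and components, second part

`alive` : if `ConnU U` then for every strand label `x` existing at the level `j` (`x = 0` or
`x = i + 1`, `i < j` a cup) there is a strand at this level in its component: otherwise the class of `x` does
not change any more (the merged classes contain strands), and at the level `n` it is different from the
class of the last strand.

`cap_distinct` : if `ConnU U` then every cap merges two different faces: otherwise by `cap_alone` after
the cap no strand is in the component of the strand label `sl j k`.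

`faces_card` : let `GLj j` be the set of the labels existing at the level `j`.  By induction, using
`cap_distinct` and `fre_fresh`, `(GLj j).image (fre j)` has `2 + #(active crossings < j) + (str j - 1) / 2`
elements.
-/

namespace LGAlt

lemma alive_step (D : Dia) (U : Finset ℕ) (j : ℕ) (hj : j < D.n) (x : ℕ) (hxj : x < j + 1)
    (h : ∀ i < str D.pc j, cmp D.pc U j (sl D.pc j i) ≠ cmp D.pc U j x) :
    ∀ i < str D.pc (j + 1), cmp D.pc U (j + 1) (sl D.pc (j + 1) i) ≠ cmp D.pc U (j + 1) x := by
  intro i hi
  have hpos := posOK D j hj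
  rcases hp : D.pc j with ⟨k, pos⟩ | ⟨k, s⟩ | ⟨k, s⟩
  · rw [hp] at hpos
    simp only at hpos
    have hstr : str D.pc (j + 1) = str D.pc j := by simp only [str, hp]
    have hsl : sl D.pc (j + 1) i = sl D.pc j i := by simp only [sl, hp]
    rw [hstr] at hi
    rw [hsl]
    by_cases hU : j ∈ U
    · simp only [cmp, hp, if_pos hU]
      rw [Ne, mrg_eq_iff]
      rintro (h1 | ⟨-, h1 | h1⟩)
      · exact h i hi h1
      · exact h k (by omega) h1.symm
      · exact h (k + 1) (by omega) h1.symm
    · simp only [cmp, hp, if_neg hU]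
      exact h i hi
  · rw [hp] at hpos
    simp only at hpos
    have hstr : str D.pc (j + 1) = str D.pc j + 2 := by simp only [str, hp]
    rw [hstr] at hi
    have hc : ∀ y, cmp D.pc U (j + 1) y = cmp D.pc U j y := by
      intro y; simp only [cmp, hp]
    rw [hc, hc]
    simp only [sl, hp]
    split_ifs with h1 h2
    · exact h i (by omega)
    · rw [cmp_fresh D.pc U D.n (posOK D) j hj.le (j + 1) le_rfl]
      have := cmp_le D.pc U j x
      omega
    · exact h (i - 2) (by omega)
  · rw [hp] at hpos
    simp only at hpos
    have hstr : str D.pc (j + 1) = str D.pc j - 2 := by simp only [str, hp]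
    rw [hstr] at hi
    simp only [cmp, sl, hp]
    rw [Ne, mrg_eq_iff]
    rintro (h1 | ⟨-, h1 | h1⟩)
    · split_ifs at h1 with h2
      · exact h i (by omega) h1
      · exact h (i + 2) (by omega) h1
    · exact h k (by omega) h1.symm
    · exact h (k + 1) (by omega) h1.symm

theorem alive (D : Dia) (U : Finset ℕ) (hU : D.ConnU U) (j : ℕ) (hj : j ≤ D.n) (x : ℕ)
    (hx : x ∈ D.SLb) (hxj : x < j + 1) :
    ∃ i < str D.pc j, cmp D.pc U j (sl D.pc j i) = cmp D.pc U j x := by
  by_contra hcon
  push Not at hcon
  have key : ∀ d, j + d ≤ D.n → ∀ i < str D.pc (j + d),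
      cmp D.pc U (j + d) (sl D.pc (j + d) i) ≠ cmp D.pc U (j + d) x := by
    intro d
    induction d with
    | zero => intro _; exact hcon
    | succ d ih =>
      intro hd
      exact alive_step D U (j + d) (by omega) x (by omega) (ih (by omega))
  have h1 := key (D.n - j) (by omega)
  rw [show j + (D.n - j) = D.n by omega] at h1
  have hs : 0 < str D.pc D.n := by rw [D.hfin]; exact Nat.one_pos
  exact h1 0 hs (hU _ (sl_mem D D.n le_rfl 0 hs) _ hx)

theorem cap_distinct (D : Dia) (U : Finset ℕ) (hU : D.ConnU U) (j : ℕ) (hj : j < D.n) (k : ℕ)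
    (s : Bool) (hp : D.pc j = .cap k s) :
    fre D.pc U j (gl D.pc j k) ≠ fre D.pc U j (gl D.pc j (k + 2)) := by
  intro hf
  have hpos := posOK D j hj
  rw [hp] at hpos
  simp only at hpos
  have hmem := sl_mem D j hj.le k (by omega)
  have hlt := sl_lt D.pc D.n (posOK D) j hj.le k (by omega)
  obtain ⟨i, hi, hic⟩ := alive D U hU (j + 1) (by omega) (sl D.pc j k) hmem (by omega)
  have hstr : str D.pc (j + 1) = str D.pc j - 2 := by simp only [str, hp]
  rw [hstr] at hi
  simp only [cmp, sl, hp] at hic
  rw [mrg_eq_iff] at hic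
  have ha := cap_alone D U j hj k s hp hf
  split_ifs at hic with h2
  · have := ha i (by omega) (by
      rcases hic with h1 | ⟨h1 | h1, -⟩
      · exact Or.inl h1
      · exact Or.inl h1
      · exact Or.inr h1)
    omega
  · have := ha (i + 2) (by omega) (by
      rcases hic with h1 | ⟨h1 | h1, -⟩
      · exact Or.inl h1
      · exact Or.inl h1
      · exact Or.inr h1)
    omega

/-- the gap labels existing at the level `j` -/
def Dia.GLj (D : Dia) (j : ℕ) : Finset ℕ := insert 0 (insert 1
  (((Finset.range j).filter (fun j => (D.pc j).isCap = false)).image (fun j => j + 2)))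

lemma mem_GLj (D : Dia) (j : ℕ) (hj : j ≤ D.n) (x : ℕ) :
    x ∈ D.GLj j ↔ x ∈ D.GLb ∧ x < j + 2 := by
  unfold Dia.GLj Dia.GLb
  simp only [Finset.mem_insert, Finset.mem_image, Finset.mem_filter, Finset.mem_range]
  constructor
  · rintro (h | h | ⟨i, ⟨hi, hc⟩, h⟩)
    · exact ⟨Or.inl h, by omega⟩
    · exact ⟨Or.inr (Or.inl h), by omega⟩
    · exact ⟨Or.inr (Or.inr ⟨i, ⟨by omega, hc⟩, h⟩), by omega⟩
  · rintro ⟨h | h | ⟨i, ⟨hi, hc⟩, h⟩, hx⟩
    · exact Or.inl h
    · exact Or.inr (Or.inl h)
    · exact Or.inr (Or.inr ⟨i, ⟨by omega, hc⟩, h⟩)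

lemma GLj_succ (D : Dia) (j : ℕ) (h : (D.pc j).isCap = false) :
    D.GLj (j + 1) = insert (j + 2) (D.GLj j) := by
  unfold Dia.GLj
  rw [Finset.range_add_one, Finset.filter_insert, if_pos h, Finset.image_insert,
    Finset.insert_comm (j + 2) 0, Finset.insert_comm (j + 2) 1]

lemma GLj_succ_cap (D : Dia) (j : ℕ) (h : (D.pc j).isCap = true) :
    D.GLj (j + 1) = D.GLj j := by
  unfold Dia.GLj
  rw [Finset.range_add_one, Finset.filter_insert, if_neg (by simp [h])]

lemma card_image_mrg (S : Finset ℕ) (a b : ℕ) (ha : a ∈ S) (hb : b ∈ S) (hab : a ≠ b) :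
    (S.image (mrg a b)).card + 1 = S.card := by
  have h1 : S.image (mrg a b) = S.erase (max a b) := by
    ext y
    simp only [Finset.mem_image, Finset.mem_erase]
    constructor
    · rintro ⟨x, hx, rfl⟩
      unfold mrg
      split_ifs with h
      · refine ⟨by omega, ?_⟩
        rcases le_total a b with h2 | h2
        · rw [min_eq_left h2]; exact ha
        · rw [min_eq_right h2]; exact hb
      · exact ⟨h, hx⟩
    · rintro ⟨h, hy⟩
      exact ⟨y, hy, by unfold mrg; rw [if_neg h]⟩
  rw [h1]
  apply Finset.card_erase_add_one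
  rcases le_total a b with h2 | h2
  · rw [max_eq_right h2]; exact hb
  · rw [max_eq_left h2]; exact ha

lemma fresh_not_mem (D : Dia) (U : Finset ℕ) (j : ℕ) (hj : j ≤ D.n) :
    j + 2 ∉ (D.GLj j).image (fre D.pc U j) := by
  intro h
  rw [Finset.mem_image] at h
  obtain ⟨x, hx, hxe⟩ := h
  have h1 := ((mem_GLj D j hj x).1 hx).2
  have h2 := fre_le D.pc U j x
  omega

theorem faces_card_level (D : Dia) (U : Finset ℕ) (hU : D.ConnU U) (j : ℕ) (hj : j ≤ D.n) :
    2 * ((D.GLj j).image (fre D.pc U j)).card
      = 3 + 2 * (((Finset.range j).filter (fun i => (D.pc i).isX = true ∧ i ∈ U)).card)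
        + str D.pc j := by
  induction j with
  | zero =>
    have h1 : D.GLj 0 = {0, 1} := by
      unfold Dia.GLj
      simp
    rw [h1]
    have h2 : ({0, 1} : Finset ℕ).image (fre D.pc U 0) = {0, 1} := by
      rw [Finset.image_insert, Finset.image_singleton]
      rfl
    rw [h2]
    simp [str]
  | succ j ih =>
    have hj' : j < D.n := hj
    have ih' := ih hj'.le
    have hpos := posOK D j hj'
    have hfresh := fre_fresh D.pc U D.n (posOK D) j hj'.le (j + 2) le_rfl
    have hnot := fresh_not_mem D U j hj'.le
    rcases hp : D.pc j with ⟨k, pos⟩ | ⟨k, s⟩ | ⟨k, s⟩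
    · rw [hp] at hpos
      simp only at hpos
      have hcap : (D.pc j).isCap = false := by rw [hp]; rfl
      have hX : (D.pc j).isX = true := by rw [hp]; rfl
      have hstr : str D.pc (j + 1) = str D.pc j := by simp only [str, hp]
      rw [GLj_succ D j hcap, hstr, Finset.range_add_one, Finset.filter_insert,
        Finset.image_insert]
      by_cases hjU : j ∈ U
      · have hf : fre D.pc U (j + 1) = fre D.pc U j := by
          funext x; simp only [fre, hp, if_pos hjU]
        rw [hf, hfresh, Finset.card_insert_of_notMem hnot, if_pos ⟨hX, hjU⟩,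
          Finset.card_insert_of_notMem (by simp)]
        omega
      · have hf : ∀ x, fre D.pc U (j + 1) x
            = mrg (j + 2) (fre D.pc U j (gl D.pc j (k + 1))) (fre D.pc U j x) := by
          intro x; simp only [fre, hp, if_neg hjU, hfresh]
        have hgl : gl D.pc j (k + 1) < j + 2 := gl_lt D.pc D.n (posOK D) j hj'.le (k + 1) (by omega)
        have hgm : gl D.pc j (k + 1) ∈ D.GLj j :=
          (mem_GLj D j hj'.le _).2 ⟨gl_mem D j hj'.le (k + 1) (by omega), hgl⟩
        have hfl := fre_le D.pc U j (gl D.pc j (k + 1))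
        have him : (D.GLj j).image (fre D.pc U (j + 1)) = (D.GLj j).image (fre D.pc U j) := by
          apply Finset.image_congr
          intro x hx
          have h1 := ((mem_GLj D j hj'.le x).1 (Finset.mem_coe.1 hx)).2
          have h2 := fre_le D.pc U j x
          rw [hf]
          unfold mrg
          rw [if_neg]
          omega
        have hnew : fre D.pc U (j + 1) (j + 2) = fre D.pc U j (gl D.pc j (k + 1)) := by
          rw [hf, hfresh, mrg_left]
          omega
        rw [him, hnew, Finset.insert_eq_of_mem (Finset.mem_image_of_mem _ hgm),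
          if_neg (by tauto)]
        exact ih'
    · rw [hp] at hpos
      simp only at hpos
      have hcap : (D.pc j).isCap = false := by rw [hp]; rfl
      have hX : (D.pc j).isX = false := by rw [hp]; rfl
      have hstr : str D.pc (j + 1) = str D.pc j + 2 := by simp only [str, hp]
      rw [GLj_succ D j hcap, hstr, Finset.range_add_one, Finset.filter_insert,
        Finset.image_insert]
      have hf : fre D.pc U (j + 1) = fre D.pc U j := by
        funext x; simp only [fre, hp]
      rw [hf, hfresh, Finset.card_insert_of_notMem hnot, if_neg (by simp [hX])]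
      omega
    · rw [hp] at hpos
      simp only at hpos
      have hcap : (D.pc j).isCap = true := by rw [hp]; rfl
      have hX : (D.pc j).isX = false := by rw [hp]; rfl
      have hstr : str D.pc (j + 1) = str D.pc j - 2 := by simp only [str, hp]
      rw [GLj_succ_cap D j hcap, hstr, Finset.range_add_one, Finset.filter_insert,
        if_neg (by simp [hX])]
      have hf : fre D.pc U (j + 1) = (mrg (fre D.pc U j (gl D.pc j k))
          (fre D.pc U j (gl D.pc j (k + 2)))) ∘ (fre D.pc U j) := by
        funext x; simp only [fre, hp, Function.comp]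
      have hm : ∀ g, g ≤ str D.pc j →
          fre D.pc U j (gl D.pc j g) ∈ (D.GLj j).image (fre D.pc U j) := by
        intro g hg
        exact Finset.mem_image_of_mem _ ((mem_GLj D j hj'.le _).2
          ⟨gl_mem D j hj'.le g hg, gl_lt D.pc D.n (posOK D) j hj'.le g hg⟩)
      have hc := card_image_mrg ((D.GLj j).image (fre D.pc U j)) _ _ (hm k (by omega))
        (hm (k + 2) (by omega)) (cap_distinct D U hU j hj' k s hp)
      rw [hf, ← Finset.image_image]
      omega

theorem faces_card (D : Dia) (U : Finset ℕ) (hUC : U ⊆ D.C) (hU : D.ConnU U) :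
    (D.GLb.image (D.F U)).card = U.card + 2 := by
  have h := faces_card_level D U hU D.n le_rfl
  have h1 : D.GLj D.n = D.GLb := rfl
  have h2 : (Finset.range D.n).filter (fun i => (D.pc i).isX = true ∧ i ∈ U) = U := by
    ext i
    simp only [Finset.mem_filter, Finset.mem_range]
    constructor
    · exact fun hi => hi.2.2
    · intro hi
      have := hUC hi
      unfold Dia.C at this
      simp only [Finset.mem_filter, Finset.mem_range] at this
      exact ⟨this.1, this.2, hi⟩
  have h3 : D.F U = fre D.pc U D.n := rfl
  rw [h1, h2, D.hfin] at h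
  rw [h3]
  omega

end LGAlt
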