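import Pool.Agent.LGAlt2.Univ

/-!
# Faces and components

`nc` (non-crossing property): at every level `j ≤ n`, if two gaps `g`, `g'` belong to the same face and two
strands `s`, `t` to the same component (both with respect to the pieces below the level), then
`[s < g] - [t < g] = [s < g'] - [t < g']`.  (Here `s < g` means that the strand `s` is on the left of the
gap `g`.)  Induction on `j`:
* `j = 0`: one strand.
* active crossing: the gap `k + 1` gets a new label, which is a face of its own (`fre_fresh`), so a pair with
  `g = k + 1` has `g' = k + 1`.  For `g ≠ k + 1` we have `[k < g] = [k + 1 < g]`, so merging the components of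
  the strands `k`, `k + 1` is harmless (write `s ~ k`, `k + 1 ~ t`).
* inactive crossing: the new label is identified with the label of the gap `k + 1`; nothing changes.
* cup: the two new strands form a component of their own, `[k < g] = [k + 1 < g]` for `g ≠ k + 1`; the gap
  `k + 1` is a face of its own; no old strand is between the gaps `k` and `k + 2`.
* cap: strands `k`, `k + 1` and the gap `k + 1` disappear, the components of `k` and `k + 1` are merged, the
  faces of the gaps `k` and `k + 2` are merged.  Same old face: as for crossings.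
  If `g ~ k` and `g' ~ k + 2` (old faces), `s ~ t` (new component): `δ(g) = δ(k)` and `δ(g') = δ(k + 2)` where
  `δ(g) = [s < g] - [t < g]`, and `δ(k) = δ(k + 2)` as `s, t` are not `k`, `k + 1`.

`cap_alone` : if at a cap the gaps `k` and `k + 2` belong already to the same face, then the components of
the strands `k` and `k + 1` contain no other strands of this level: if `s ∉ {k, k + 1}` is in the component
of `k`, then `nc` for `g = k`, `g' = k + 2` and `k`, `s` gives `0 - [s < k] = 1 - [s < k + 2]`.
-/

namespace LGAlt

/-- indicator -/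
def bi (p : Prop) [Decidable p] : ℤ := if p then 1 else 0

private theorem bi_shift (k g : ℕ) (h : g ≠ k + 1) : bi (k < g) = bi (k + 1 < g) := by
  unfold bi
  split_ifs <;> omega

private theorem core_merge (N k : ℕ) (F C : ℕ → ℕ) (hk : k + 1 < N)
    (P : ∀ g g' s t : ℕ, g ≤ N → g' ≤ N → s < N → t < N → F g = F g' → C s = C t →
      bi (s < g) - bi (t < g) = bi (s < g') - bi (t < g'))
    (g g' s t : ℕ) (hg : g ≤ N) (hg' : g' ≤ N) (hgk : g ≠ k + 1) (hgk' : g' ≠ k + 1)
    (hs : s < N) (ht : t < N) (hF : F g = F g')
    (hC : mrg (C k) (C (k + 1)) (C s) = mrg (C k) (C (k + 1)) (C t)) :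
    bi (s < g) - bi (t < g) = bi (s < g') - bi (t < g') := by
  rw [mrg_eq_iff] at hC
  have e := bi_shift k g hgk
  have e' := bi_shift k g' hgk'
  rcases hC with h | ⟨h1 | h1, h2 | h2⟩
  · exact P g g' s t hg hg' hs ht hF h
  · have a1 := P g g' s k hg hg' hs (by omega) hF h1
    have a2 := P g g' t k hg hg' ht (by omega) hF h2
    linarith
  · have a1 := P g g' s k hg hg' hs (by omega) hF h1
    have a2 := P g g' t (k + 1) hg hg' ht hk hF h2
    linarith
  · have a1 := P g g' s (k + 1) hg hg' hs hk hF h1
    have a2 := P g g' t k hg hg' ht (by omega) hF h2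
    linarith
  · have a1 := P g g' s (k + 1) hg hg' hs hk hF h1
    have a2 := P g g' t (k + 1) hg hg' ht hk hF h2
    linarith

private theorem bi_congr {p q : Prop} [Decidable p] [Decidable q] (h : p ↔ q) : bi p = bi q := by
  unfold bi
  split_ifs <;> tauto

theorem nc (D : Dia) (U : Finset ℕ) (j : ℕ) (hj : j ≤ D.n) (g g' s t : ℕ) (hg : g ≤ str D.pc j)
    (hg' : g' ≤ str D.pc j) (hs : s < str D.pc j) (ht : t < str D.pc j)
    (hgg : fre D.pc U j (gl D.pc j g) = fre D.pc U j (gl D.pc j g'))
    (hst : cmp D.pc U j (sl D.pc j s) = cmp D.pc U j (sl D.pc j t)) :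
    bi (s < g) - bi (t < g) = bi (s < g') - bi (t < g') := by
  induction j generalizing g g' s t with
  | zero =>
    simp only [str] at hs ht
    have : s = t := by omega
    subst this
    simp
  | succ j ih =>
    have hjn : j ≤ D.n := by omega
    have hjl : j < D.n := by omega
    have hp := posOK D
    have P : ∀ g g' s t : ℕ, g ≤ str D.pc j → g' ≤ str D.pc j → s < str D.pc j → t < str D.pc j →
        fre D.pc U j (gl D.pc j g) = fre D.pc U j (gl D.pc j g') →
        cmp D.pc U j (sl D.pc j s) = cmp D.pc U j (sl D.pc j t) →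
        bi (s < g) - bi (t < g) = bi (s < g') - bi (t < g') :=
      fun g g' s t h1 h2 h3 h4 h5 h6 => ih hjn g g' s t h1 h2 h3 h4 h5 h6
    have hfresh : fre D.pc U j (j + 2) = j + 2 := fre_fresh D.pc U D.n hp j hjn (j + 2) le_rfl
    have hold : ∀ g, g ≤ str D.pc j → fre D.pc U j (gl D.pc j g) < j + 2 := fun g hg =>
      lt_of_le_of_lt (fre_le D.pc U j _) (gl_lt D.pc D.n hp j hjn g hg)
    have cfresh : cmp D.pc U j (j + 1) = j + 1 := cmp_fresh D.pc U D.n hp j hjn (j + 1) le_rfl
    have cold : ∀ i, i < str D.pc j → cmp D.pc U j (sl D.pc j i) < j + 1 := fun i hi =>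
      lt_of_le_of_lt (cmp_le D.pc U j _) (sl_lt D.pc D.n hp j hjn i hi)
    have hpj := hp j hjl
    cases hpc : D.pc j with
    | cross k pos =>
      rw [hpc] at hpj
      simp only at hpj
      have eN : str D.pc (j + 1) = str D.pc j := by simp only [str, hpc]
      have egl : ∀ g, gl D.pc (j + 1) g = if g = k + 1 then j + 2 else gl D.pc j g := by
        intro g; simp only [gl, hpc]
      have esl : ∀ i, sl D.pc (j + 1) i = sl D.pc j i := by intro i; simp only [sl, hpc]
      rw [eN] at hg hg' hs ht
      by_cases hU : j ∈ U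
      · have ef : ∀ x, fre D.pc U (j + 1) x = fre D.pc U j x := by
          intro x; simp only [fre, hpc, if_pos hU]
        have ec : ∀ x, cmp D.pc U (j + 1) x =
            mrg (cmp D.pc U j (sl D.pc j k)) (cmp D.pc U j (sl D.pc j (k + 1)))
              (cmp D.pc U j x) := by
          intro x; simp only [cmp, hpc, if_pos hU]
        rw [ef, ef, egl, egl] at hgg
        rw [ec, ec, esl, esl] at hst
        by_cases h1 : g = k + 1
        · by_cases h2 : g' = k + 1
          · rw [h1, h2]
          · rw [if_pos h1, if_neg h2, hfresh] at hgg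
            have := hold g' hg'
            omega
        · by_cases h2 : g' = k + 1
          · rw [if_neg h1, if_pos h2, hfresh] at hgg
            have := hold g hg
            omega
          · rw [if_neg h1, if_neg h2] at hgg
            exact core_merge (str D.pc j) k (fun g => fre D.pc U j (gl D.pc j g))
              (fun i => cmp D.pc U j (sl D.pc j i)) (by omega) P g g' s t hg hg' h1 h2 hs ht
              hgg hst
      · have ec : ∀ x, cmp D.pc U (j + 1) x = cmp D.pc U j x := by
          intro x; simp only [cmp, hpc, if_neg hU]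
        have ef : ∀ g, g ≤ str D.pc j →
            fre D.pc U (j + 1) (gl D.pc (j + 1) g) = fre D.pc U j (gl D.pc j g) := by
          intro g hg
          have hk := hold (k + 1) (by omega)
          have e1 : fre D.pc U (j + 1) (gl D.pc (j + 1) g) =
              mrg (fre D.pc U j (j + 2)) (fre D.pc U j (gl D.pc j (k + 1)))
                (fre D.pc U j (gl D.pc (j + 1) g)) := by
            simp only [fre, hpc, if_neg hU]
          rw [e1, egl, hfresh]
          by_cases h1 : g = k + 1
          · rw [if_pos h1, hfresh, mrg_left, h1]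
            omega
          · rw [if_neg h1]
            have := hold g hg
            unfold mrg
            rw [if_neg (by omega)]
        rw [ef g hg, ef g' hg'] at hgg
        rw [ec, ec, esl, esl] at hst
        exact P g g' s t hg hg' hs ht hgg hst
    | cup k σ =>
      rw [hpc] at hpj
      simp only at hpj
      have eN : str D.pc (j + 1) = str D.pc j + 2 := by simp only [str, hpc]
      have egl : ∀ g, gl D.pc (j + 1) g =
          if g ≤ k then gl D.pc j g else if g = k + 1 then j + 2 else gl D.pc j (g - 2) := by
        intro g; simp only [gl, hpc]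
      have esl : ∀ i, sl D.pc (j + 1) i =
          if i < k then sl D.pc j i else if i < k + 2 then j + 1 else sl D.pc j (i - 2) := by
        intro i; simp only [sl, hpc]
      have ef : ∀ x, fre D.pc U (j + 1) x = fre D.pc U j x := by
        intro x; simp only [fre, hpc]
      have ec : ∀ x, cmp D.pc U (j + 1) x = cmp D.pc U j x := by
        intro x; simp only [cmp, hpc]
      rw [eN] at hg hg' hs ht
      rw [ef, ef] at hgg
      rw [ec, ec] at hst
      have G : ∀ g, g ≤ str D.pc j + 2 → g ≠ k + 1 → ∃ γ, γ ≤ str D.pc j ∧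
          gl D.pc (j + 1) g = gl D.pc j γ ∧ ((g ≤ k ∧ γ = g) ∨ (k + 2 ≤ g ∧ γ = g - 2)) := by
        intro g hg hne
        by_cases h1 : g ≤ k
        · exact ⟨g, by omega, by rw [egl, if_pos h1], Or.inl ⟨h1, rfl⟩⟩
        · exact ⟨g - 2, by omega, by rw [egl, if_neg h1, if_neg hne], Or.inr ⟨by omega, rfl⟩⟩
      have S : ∀ i, i < str D.pc j + 2 → ¬ (i = k ∨ i = k + 1) → ∃ γ, γ < str D.pc j ∧
          sl D.pc (j + 1) i = sl D.pc j γ ∧ ((i < k ∧ γ = i) ∨ (k + 2 ≤ i ∧ γ = i - 2)) := by
        intro i hi hne
        by_cases h1 : i < k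
        · exact ⟨i, by omega, by rw [esl, if_pos h1], Or.inl ⟨h1, rfl⟩⟩
        · exact ⟨i - 2, by omega, by rw [esl, if_neg h1, if_neg (by omega)],
            Or.inr ⟨by omega, rfl⟩⟩
      have Gn : gl D.pc (j + 1) (k + 1) = j + 2 := by
        rw [egl, if_neg (by omega), if_pos rfl]
      have Sn : ∀ i, (i = k ∨ i = k + 1) → sl D.pc (j + 1) i = j + 1 := by
        intro i hi
        rw [esl, if_neg (by omega), if_pos (by omega)]
      by_cases h1 : g = k + 1
      · by_cases h2 : g' = k + 1
        · rw [h1, h2]
        · obtain ⟨γ, hγ, e, -⟩ := G g' hg' h2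
          rw [h1, Gn, e, hfresh] at hgg
          have := hold γ hγ
          omega
      · by_cases h2 : g' = k + 1
        · obtain ⟨γ, hγ, e, -⟩ := G g hg h1
          rw [h2, Gn, e, hfresh] at hgg
          have := hold γ hγ
          omega
        · obtain ⟨γ, hγ, e, hc⟩ := G g hg h1
          obtain ⟨γ', hγ', e', hc'⟩ := G g' hg' h2
          rw [e, e'] at hgg
          by_cases h3 : s = k ∨ s = k + 1
          · by_cases h4 : t = k ∨ t = k + 1
            · have a1 : bi (s < g) = bi (t < g) := bi_congr (by omega)
              have a2 : bi (s < g') = bi (t < g') := bi_congr (by omega)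
              rw [a1, a2]
              ring
            · obtain ⟨τ, hτ, e2, -⟩ := S t ht h4
              rw [Sn s h3, e2, cfresh] at hst
              have := cold τ hτ
              omega
          · by_cases h4 : t = k ∨ t = k + 1
            · obtain ⟨τ, hτ, e2, -⟩ := S s hs h3
              rw [Sn t h4, e2, cfresh] at hst
              have := cold τ hτ
              omega
            · obtain ⟨σ1, hσ1, e2, hd⟩ := S s hs h3
              obtain ⟨τ, hτ, e3, hd'⟩ := S t ht h4
              rw [e2, e3] at hst
              have key := P γ γ' σ1 τ hγ hγ' hσ1 hτ hgg hst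
              have b1 : bi (s < g) = bi (σ1 < γ) := bi_congr (by omega)
              have b2 : bi (t < g) = bi (τ < γ) := bi_congr (by omega)
              have b3 : bi (s < g') = bi (σ1 < γ') := bi_congr (by omega)
              have b4 : bi (t < g') = bi (τ < γ') := bi_congr (by omega)
              rw [b1, b2, b3, b4]
              exact key
    | cap k σ =>
      rw [hpc] at hpj
      simp only at hpj
      have eN : str D.pc (j + 1) = str D.pc j - 2 := by simp only [str, hpc]
      have egl : ∀ g, gl D.pc (j + 1) g = if g ≤ k then gl D.pc j g else gl D.pc j (g + 2) := by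
        intro g; simp only [gl, hpc]
      have esl : ∀ i, sl D.pc (j + 1) i = if i < k then sl D.pc j i else sl D.pc j (i + 2) := by
        intro i; simp only [sl, hpc]
      have ef : ∀ x, fre D.pc U (j + 1) x = mrg (fre D.pc U j (gl D.pc j k))
          (fre D.pc U j (gl D.pc j (k + 2))) (fre D.pc U j x) := by
        intro x; simp only [fre, hpc]
      have ec : ∀ x, cmp D.pc U (j + 1) x = mrg (cmp D.pc U j (sl D.pc j k))
          (cmp D.pc U j (sl D.pc j (k + 1))) (cmp D.pc U j x) := by
        intro x; simp only [cmp, hpc]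
      rw [eN] at hg hg' hs ht
      rw [ef, ef] at hgg
      rw [ec, ec] at hst
      have G : ∀ g, g ≤ str D.pc j - 2 → ∃ γ, γ ≤ str D.pc j ∧
          gl D.pc (j + 1) g = gl D.pc j γ ∧ ((g ≤ k ∧ γ = g) ∨ (k + 1 ≤ g ∧ γ = g + 2)) := by
        intro g hg
        by_cases h1 : g ≤ k
        · exact ⟨g, by omega, by rw [egl, if_pos h1], Or.inl ⟨h1, rfl⟩⟩
        · exact ⟨g + 2, by omega, by rw [egl, if_neg h1], Or.inr ⟨by omega, rfl⟩⟩
      have S : ∀ i, i < str D.pc j - 2 → ∃ γ, γ < str D.pc j ∧
          sl D.pc (j + 1) i = sl D.pc j γ ∧ ((i < k ∧ γ = i) ∨ (k ≤ i ∧ γ = i + 2)) := by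
        intro i hi
        by_cases h1 : i < k
        · exact ⟨i, by omega, by rw [esl, if_pos h1], Or.inl ⟨h1, rfl⟩⟩
        · exact ⟨i + 2, by omega, by rw [esl, if_neg h1], Or.inr ⟨by omega, rfl⟩⟩
      obtain ⟨γ, hγ, e, hc⟩ := G g hg
      obtain ⟨γ', hγ', e', hc'⟩ := G g' hg'
      obtain ⟨σ1, hσ1, e2, hd⟩ := S s hs
      obtain ⟨τ, hτ, e3, hd'⟩ := S t ht
      rw [e, e'] at hgg
      rw [e2, e3] at hst
      have b1 : bi (s < g) = bi (σ1 < γ) := bi_congr (by omega)
      have b2 : bi (t < g) = bi (τ < γ) := bi_congr (by omega)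
      have b3 : bi (s < g') = bi (σ1 < γ') := bi_congr (by omega)
      have b4 : bi (t < g') = bi (τ < γ') := bi_congr (by omega)
      rw [b1, b2, b3, b4]
      have Q : ∀ h h' : ℕ, h ≤ str D.pc j → h' ≤ str D.pc j → h ≠ k + 1 → h' ≠ k + 1 →
          fre D.pc U j (gl D.pc j h) = fre D.pc U j (gl D.pc j h') →
          bi (σ1 < h) - bi (τ < h) = bi (σ1 < h') - bi (τ < h') := by
        intro h h' hh hh' hne hne' hF
        exact core_merge (str D.pc j) k (fun g => fre D.pc U j (gl D.pc j g))
          (fun i => cmp D.pc U j (sl D.pc j i)) (by omega) P h h' σ1 τ hh hh' hne hne' hσ1 hτ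
          hF hst
      have c1 : bi (σ1 < k) = bi (σ1 < k + 2) := bi_congr (by omega)
      have c2 : bi (τ < k) = bi (τ < k + 2) := bi_congr (by omega)
      rw [mrg_eq_iff] at hgg
      rcases hgg with h | ⟨h1 | h1, h2 | h2⟩
      · exact Q γ γ' hγ hγ' (by omega) (by omega) h
      · have a1 := Q γ k hγ (by omega) (by omega) (by omega) h1
        have a2 := Q γ' k hγ' (by omega) (by omega) (by omega) h2
        linarith
      · have a1 := Q γ k hγ (by omega) (by omega) (by omega) h1
        have a2 := Q γ' (k + 2) hγ' (by omega) (by omega) (by omega) h2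
        linarith
      · have a1 := Q γ (k + 2) hγ (by omega) (by omega) (by omega) h1
        have a2 := Q γ' k hγ' (by omega) (by omega) (by omega) h2
        linarith
      · have a1 := Q γ (k + 2) hγ (by omega) (by omega) (by omega) h1
        have a2 := Q γ' (k + 2) hγ' (by omega) (by omega) (by omega) h2
        linarith

theorem cap_alone (D : Dia) (U : Finset ℕ) (j : ℕ) (hj : j < D.n) (k : ℕ) (s : Bool)
    (hp : D.pc j = .cap k s)
    (h : fre D.pc U j (gl D.pc j k) = fre D.pc U j (gl D.pc j (k + 2))) (i : ℕ)
    (hi : i < str D.pc j) (hik : cmp D.pc U j (sl D.pc j i) = cmp D.pc U j (sl D.pc j k) ∨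
      cmp D.pc U j (sl D.pc j i) = cmp D.pc U j (sl D.pc j (k + 1))) : i = k ∨ i = k + 1 := by
  have hk := (D.hcap j hj k s hp).1
  rcases hik with hik | hik
  · have := nc D U j hj.le k (k + 2) i k (by omega) (by omega) hi (by omega) h hik
    unfold bi at this
    split_ifs at this <;> omega
  · have := nc D U j hj.le k (k + 2) i (k + 1) (by omega) (by omega) hi (by omega) h hik
    unfold bi at this
    split_ifs at this <;> omega

end LGAlt
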