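import Pool.Agent.LGAlt2.Graph

/-!
# Reversing a minimal dijoin

Let `(V, E)` be a digraph all of whose cuts have at least two edges, and let `J` be a dijoin which is
minimal with respect to inclusion.  Then the digraph in which the edges of `J` are reversed is
strongly connected.

Proof.  For `J' ⊆ J` let `D J'` be the digraph with the forward arcs of the edges in `E \ J'` and the
backward arcs of the edges in `J` (so it has the arcs `(tl e, hd e)`, `e ∈ E \ J'`, and `(hd e, tl e)`,
`e ∈ J`).  We show by induction on `J'` that from every nonempty proper `Y ⊆ V` some arc of `D J'`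
leaves.  `D J` is the claim.
* `J' = ∅`: if no arc of `D ∅` leaves `Y`, then in `E` no edge leaves `Y`, i.e. no edge enters
  `V \ Y`, so there is `e ∈ J` in this cut; it enters `Y`, and its backward arc leaves `Y`.
* `J' ∪ {f}`, `f ∈ J \ J'`, and suppose that no arc of `D (J' ∪ {f})` leaves `X`.  Then the only arc of
  `D J'` leaving `X` is the forward arc of `f`; so `tl f ∈ X`, `hd f ∉ X`.  As `J.erase f` is not a
  dijoin, there is `Z` such that no edge of `E` enters `Z` and `f` is the only edge of `J` in the cut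
  of `Z`: `tl f ∈ Z`, `hd f ∉ Z`.
  If `S = Z \ X ≠ ∅` (it is proper since `tl f ∉ S`) some arc `u → v` of `D J'` enters `S`.  If
  `u ∉ Z` then it is the backward arc of an edge of `J` in the cut of `Z`, so of `f`, and `v = tl f ∈ X`:
  contradiction.  If `u ∈ Z` then `u ∈ X`, so the arc leaves `X`, and it is the forward arc of `f`, but
  `v = hd f ∉ Z`: contradiction.  So `Z ⊆ X`.
  If `S = X \ Z ≠ ∅` some arc `u → v` of `D J'` leaves `S`.  If `v ∉ X` it leaves `X`, so it is the
  forward arc of `f`, but `u = tl f ∈ Z`.  If `v ∈ X` then `v ∈ Z`, `u ∉ Z`, and it is the backward arc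
  of `f`, but `u = hd f ∉ X`.  So `X = Z`.
  All edges of `E` in the cut of `Z` leave `Z = X`; their forward arcs are not in `D (J' ∪ {f})`, so
  they belong to `J`, so the cut of `Z` is `{f}`: contradiction.
-/

namespace LGAlt

namespace MG

variable (G : MG)

theorem frank (V E J : Finset ℕ) (hends : ∀ e ∈ E, G.tl e ∈ V ∧ G.hd e ∈ V) (hne : V.Nonempty)
    (hcut : ∀ Y ⊆ V, Y.Nonempty → Y ≠ V → 2 ≤ (E.filter (fun e => G.Sep Y e)).card)
    (hJ : G.Dijoin V E J) (hmin : ∀ f ∈ J, ¬ G.Dijoin V E (J.erase f)) :
    Strong (G.rsrc J) (G.rdst J) V E := by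
  have hJE : J ⊆ E := hJ.sub
  have key : ∀ J' : Finset ℕ, J' ⊆ J → ∀ Y ⊆ V, Y.Nonempty → Y ≠ V → ∃ e ∈ E,
      (e ∉ J' ∧ G.tl e ∈ Y ∧ G.hd e ∉ Y) ∨ (e ∈ J ∧ G.hd e ∈ Y ∧ G.tl e ∉ Y) := by
    intro J'
    induction J' using Finset.induction_on with
    | empty =>
      intro _ Y hY hYn hYV
      by_contra hcon
      push Not at hcon
      have h1 : ∀ e ∈ E, G.tl e ∈ Y → G.hd e ∈ Y := fun e he h =>
        (hcon e he).1 (Finset.notMem_empty e) h
      have h2 : ∀ e ∈ J, G.hd e ∈ Y → G.tl e ∈ Y := fun e he h =>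
        (hcon e (hJE he)).2 he h
      have h3 : (V \ Y).Nonempty := by
        rw [Finset.sdiff_nonempty]
        exact fun h => hYV (Finset.Subset.antisymm hY h)
      have h4 : V \ Y ≠ V := by
        intro h
        obtain ⟨y, hy⟩ := hYn
        have := hY hy
        rw [← h, Finset.mem_sdiff] at this
        exact this.2 hy
      obtain ⟨e, he, hs⟩ := hJ.hit (V \ Y) Finset.sdiff_subset h3 h4 (fun e he h => by
        rw [Finset.mem_sdiff] at h ⊢
        exact ⟨(hends e he).1, fun h' => h.2 (h1 e he h')⟩)
      apply hs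
      rw [Finset.mem_sdiff, Finset.mem_sdiff]
      have h5 := hends e (hJE he)
      have h6 := h1 e (hJE he)
      have h7 := h2 e he
      tauto
    | insert f J' hf ih =>
      intro hsub X hX hXn hXV
      have hfJ : f ∈ J := hsub (Finset.mem_insert_self f J')
      have hJ'J : J' ⊆ J := fun e he => hsub (Finset.mem_insert_of_mem he)
      have hfE : f ∈ E := hJE hfJ
      by_contra hcon
      push Not at hcon
      have hX1 : ∀ e ∈ E, e ∉ J' → G.tl e ∈ X → G.hd e ∉ X → e = f := by
        intro e he h1 h2 h3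
        by_contra h4
        refine h3 ((hcon e he).1 ?_ h2)
        rw [Finset.mem_insert]
        tauto
      have hX2 : ∀ e ∈ J, G.hd e ∈ X → G.tl e ∈ X := fun e he h =>
        (hcon e (hJE he)).2 he h
      have hfX : G.tl f ∈ X ∧ G.hd f ∉ X := by
        obtain ⟨e, he, h1 | h1⟩ := ih hJ'J X hX hXn hXV
        · have h2 := hX1 e he h1.1 h1.2.1 h1.2.2
          rw [h2] at h1
          exact h1.2
        · exact absurd (hX2 e h1.1 h1.2.1) h1.2.2
      obtain ⟨Z, hZ, hZn, hZV, hZ1, hZ2⟩ : ∃ Z ⊆ V, Z.Nonempty ∧ Z ≠ V ∧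
          (∀ e ∈ E, G.hd e ∈ Z → G.tl e ∈ Z) ∧ ∀ e ∈ J.erase f, ¬ G.Sep Z e := by
        by_contra h
        push Not at h
        exact hmin f hfJ ⟨(Finset.erase_subset f J).trans hJE, fun Y h1 h2 h3 h4 => h Y h1 h2 h3 h4⟩
      have hZ3 : ∀ e ∈ J, e ≠ f → (G.tl e ∈ Z ↔ G.hd e ∈ Z) := fun e he hne =>
        not_not.1 (hZ2 e (Finset.mem_erase.2 ⟨hne, he⟩))
      have hfZ : G.tl f ∈ Z ∧ G.hd f ∉ Z := by
        obtain ⟨e, he, hs⟩ := hJ.hit Z hZ hZn hZV hZ1
        have h1 : e = f := by
          by_contra h1
          exact hs (hZ3 e he h1)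
        rw [h1] at hs
        have h2 := hZ1 f hfE
        unfold Sep at hs
        tauto
      have hZX : Z ⊆ X := by
        by_contra hn
        have hS : (Z \ X).Nonempty := Finset.sdiff_nonempty.2 hn
        have h3 : (V \ (Z \ X)).Nonempty :=
          ⟨G.tl f, Finset.mem_sdiff.2 ⟨(hends f hfE).1, fun h => (Finset.mem_sdiff.1 h).2 hfX.1⟩⟩
        have h4 : V \ (Z \ X) ≠ V := by
          intro h
          obtain ⟨y, hy⟩ := hS
          have := hZ (Finset.mem_sdiff.1 hy).1
          rw [← h, Finset.mem_sdiff] at this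
          exact this.2 hy
        obtain ⟨e, he, h5⟩ := ih hJ'J _ Finset.sdiff_subset h3 h4
        simp only [Finset.mem_sdiff] at h5
        have h6 := hends e he
        have h7 := hZ1 e he
        rcases h5 with ⟨h8, h9, h10⟩ | ⟨h8, h9, h10⟩
        · have h11 : G.hd e ∈ Z ∧ G.hd e ∉ X := by tauto
          have h12 : G.tl e ∈ X := by tauto
          have h13 := hX1 e he h8 h12 h11.2
          rw [h13] at h11
          exact hfZ.2 h11.1
        · have h11 : G.tl e ∈ Z ∧ G.tl e ∉ X := by tauto
          have h12 := hX2 e h8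
          have h13 : G.hd e ∉ Z := by tauto
          have h14 : e = f := by
            by_contra h14
            exact h13 ((hZ3 e h8 h14).1 h11.1)
          rw [h14] at h11
          exact h11.2 hfX.1
      have hXZ : X ⊆ Z := by
        by_contra hn
        have hS : (X \ Z).Nonempty := Finset.sdiff_nonempty.2 hn
        have h4 : X \ Z ≠ V := by
          intro h
          have := (hends f hfE).1
          rw [← h, Finset.mem_sdiff] at this
          exact this.2 hfZ.1
        obtain ⟨e, he, h5⟩ := ih hJ'J _ (Finset.sdiff_subset.trans hX) hS h4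
        simp only [Finset.mem_sdiff] at h5
        have h7 := hZ1 e he
        rcases h5 with ⟨h8, h9, h10⟩ | ⟨h8, h9, h10⟩
        · by_cases h11 : G.hd e ∈ X
          · tauto
          · have h13 := hX1 e he h8 h9.1 h11
            rw [h13] at h9
            exact h9.2 hfZ.1
        · have h12 := hX2 e h8 h9.1
          have h13 : G.tl e ∈ Z := by tauto
          have h14 : e = f := by
            by_contra h14
            exact h9.2 ((hZ3 e h8 h14).1 h13)
          rw [h14] at h9
          exact hfX.2 h9.1
      have hEq : X = Z := Finset.Subset.antisymm hXZ hZX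
      subst hEq
      have h1 := hcut X hX hXn hXV
      have h2 : E.filter (fun e => G.Sep X e) ⊆ {f} := by
        intro e he
        rw [Finset.mem_filter] at he
        rw [Finset.mem_singleton]
        obtain ⟨heE, hs⟩ := he
        have h3 := hZ1 e heE
        unfold Sep at hs
        by_contra hne
        by_cases h4 : e ∈ J'
        · exact hs (hZ3 e (hJ'J h4) hne)
        · refine hne (hX1 e heE h4 ?_ ?_)
          · tauto
          · tauto
      have h3 := Finset.card_le_card h2
      rw [Finset.card_singleton] at h3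
      omega
  refine ⟨hne, fun e he => ?_, fun Y hY hYn hYV => ?_⟩
  · unfold rsrc rdst
    have h1 := hends e he
    split_ifs
    · exact ⟨h1.2, h1.1⟩
    · exact h1
  · obtain ⟨e, he, h1⟩ := key J (Finset.Subset.refl J) Y hY hYn hYV
    refine ⟨e, he, ?_⟩
    unfold rsrc rdst
    rcases h1 with h1 | h1
    · rw [if_neg h1.1, if_neg h1.1]
      exact h1.2
    · rw [if_pos h1.1, if_pos h1.1]
      exact h1.2

end MG

end LGAlt
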