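import Mathlib

/-!
# Directed signed multigraphs: definitions

The edges and the vertices are natural numbers.  Connectivity and strong connectivity are expressed
by cuts.
-/

namespace LGAlt

/-- A directed multigraph with signs. -/
structure MG where
  tl : ℕ → ℕ
  hd : ℕ → ℕ
  sg : ℕ → Bool

namespace MG

variable (G : MG)

/-- the edge `e` has exactly one end in `Y` -/
def Sep (Y : Finset ℕ) (e : ℕ) : Prop := ¬ (G.tl e ∈ Y ↔ G.hd e ∈ Y)

instance (Y : Finset ℕ) (e : ℕ) : Decidable (G.Sep Y e) := by unfold Sep; infer_instance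

/-- `v` is an end of `e` -/
def Touch (v e : ℕ) : Prop := G.tl e = v ∨ G.hd e = v

instance (v e : ℕ) : Decidable (G.Touch v e) := by unfold Touch; infer_instance

/-- the other end of `e` -/
def other (v e : ℕ) : ℕ := if G.tl e = v then G.hd e else G.tl e

/-- the edges which do not touch `v` -/
def del (E : Finset ℕ) (v : ℕ) : Finset ℕ := E.filter (fun e => ¬ G.Touch v e)

/-- the graph with the vertices `V` and the edges `E` is connected -/
structure Conn (V E : Finset ℕ) : Prop where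
  ne : V.Nonempty
  ends : ∀ e ∈ E, G.tl e ∈ V ∧ G.hd e ∈ V
  cut : ∀ Y ⊆ V, Y.Nonempty → Y ≠ V → ∃ e ∈ E, G.Sep Y e

/-- `J` is a dijoin: it meets every directed cut.  (The cut of `Y` is directed if no edge enters
`Y`.) -/
structure Dijoin (V E J : Finset ℕ) : Prop where
  sub : J ⊆ E
  hit : ∀ Y ⊆ V, Y.Nonempty → Y ≠ V → (∀ e ∈ E, G.hd e ∈ Y → G.tl e ∈ Y) → ∃ e ∈ J, G.Sep Y e

/-- `J` is a dijoin of minimal cardinality -/
structure MinDijoin (V E J : Finset ℕ) : Prop where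
  dj : G.Dijoin V E J
  min : ∀ J', G.Dijoin V E J' → J.card ≤ J'.card

/-- `e` is a bridge -/
def Bridge (V E : Finset ℕ) (e : ℕ) : Prop :=
  ∃ Y ⊆ V, Y.Nonempty ∧ Y ≠ V ∧ ∀ e' ∈ E, (G.Sep Y e' ↔ e' = e)

open Classical in
/-- number of edges with sign `p` which are not bridges -/
noncomputable def nb (V E : Finset ℕ) (p : Bool) : ℤ :=
  ((E.filter (fun e => G.sg e = p ∧ ¬ G.Bridge V E e)).card : ℤ)

/-- number of edges with sign `p` minus the number of those in `J` -/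
def nJ (E J : Finset ℕ) (p : Bool) : ℤ :=
  ((E.filter (fun e => G.sg e = p)).card : ℤ) - ((J.filter (fun e => G.sg e = p)).card : ℤ)

/-- the octagon -/
def Oct (V E J : Finset ℕ) : Set (ℤ × ℤ) :=
  {z | -(G.nb V E false) ≤ z.1 + z.2 ∧ z.1 + z.2 ≤ G.nb V E true ∧
    |z.1 - z.2| ≤ (E.card : ℤ) - V.card + 1 ∧
    -(G.nJ E J false) ≤ z.1 ∧ z.1 ≤ G.nJ E J true ∧ -(G.nJ E J false) ≤ z.2 ∧ z.2 ≤ G.nJ E J true}

/-- an ear with `k` edges `c 0, …, c (k - 1)` and the vertices `W 0, …, W k` -/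
structure IsEar (V₁ E₁ : Finset ℕ) (k : ℕ) (W c : ℕ → ℕ) : Prop where
  kpos : 1 ≤ k
  W0 : W 0 ∈ V₁
  Wk : W k ∈ V₁
  Wint : ∀ i, 0 < i → i < k → W i ∉ V₁
  Winj : ∀ i j, 0 < i → i < k → 0 < j → j < k → W i = W j → i = j
  cnot : ∀ i < k, c i ∉ E₁
  cinj : ∀ i < k, ∀ j < k, c i = c j → i = j
  ends : ∀ i < k, (G.tl (c i) = W i ∧ G.hd (c i) = W (i + 1)) ∨
    (G.hd (c i) = W i ∧ G.tl (c i) = W (i + 1))

/-- the vertices of the graph with the ear -/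
def earV (V₁ : Finset ℕ) (k : ℕ) (W : ℕ → ℕ) : Finset ℕ := V₁ ∪ (Finset.Ico 1 k).image W

/-- the edges of the graph with the ear -/
def earE (E₁ : Finset ℕ) (k : ℕ) (c : ℕ → ℕ) : Finset ℕ := E₁ ∪ (Finset.range k).image c

/-- strong connectivity of a digraph, expressed by cuts -/
structure Strong (src dst : ℕ → ℕ) (V E : Finset ℕ) : Prop where
  ne : V.Nonempty
  ends : ∀ e ∈ E, src e ∈ V ∧ dst e ∈ V
  cut : ∀ Y ⊆ V, Y.Nonempty → Y ≠ V → ∃ e ∈ E, src e ∈ Y ∧ dst e ∉ Y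

/-- source of an edge after the reversal of the edges in `J` -/
def rsrc (J : Finset ℕ) (e : ℕ) : ℕ := if e ∈ J then G.hd e else G.tl e

/-- target of an edge after the reversal of the edges in `J` -/
def rdst (J : Finset ℕ) (e : ℕ) : ℕ := if e ∈ J then G.tl e else G.hd e

/-- The properties of the sets `P V E` which are used in the proof of the lower bound. -/
structure LBHyp (ty : ℕ → Bool) (V₀ E₀ : Finset ℕ) (P : Finset ℕ → Finset ℕ → Set (ℤ × ℤ)) :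
    Prop where
  tyt : ∀ e ∈ E₀, ty (G.tl e) = true
  tyh : ∀ e ∈ E₀, ty (G.hd e) = false
  /-- edges of different signs at `W` lead to different components of the graph without `W` -/
  sepr : ∀ W, ∃ H : ℕ → ℤ, (∀ e ∈ E₀, G.tl e ≠ W → G.hd e ≠ W → H (G.tl e) = H (G.hd e)) ∧
    ∀ e ∈ E₀, ∀ e' ∈ E₀, G.Touch W e → G.Touch W e' → G.sg e ≠ G.sg e' →
      H (G.other W e) ≠ H (G.other W e')
  base : ∀ v ∈ V₀, (0, 0) ∈ P {v} ∅
  leaf : ∀ V E w c, V ⊆ V₀ → E ⊆ E₀ → G.Conn V E → w ∈ V₀ → w ∉ V → c ∈ E₀ → c ∉ E →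
    G.Touch w c → G.other w c ∈ V → P V E ⊆ P (insert w V) (insert c E)
  ear : ∀ V₁ E₁ k W c p, V₁ ⊆ V₀ → E₁ ⊆ E₀ → G.Conn V₁ E₁ → G.IsEar V₁ E₁ k W c →
    earV V₁ k W ⊆ V₀ → (∀ i < k, c i ∈ E₀ ∧ G.sg (c i) = p) → ∀ z ∈ P V₁ E₁, ∀ l, 1 ≤ l → l ≤ k →
      (z.1 + (if p then 1 else -1) * (((l + 1) / 2 : ℕ) : ℤ),
        z.2 + (if p then 1 else -1) * ((l / 2 : ℕ) : ℤ)) ∈ P (earV V₁ k W) (earE E₁ k c) ∧
      (z.1 + (if p then 1 else -1) * ((l / 2 : ℕ) : ℤ),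
        z.2 + (if p then 1 else -1) * (((l + 1) / 2 : ℕ) : ℤ)) ∈ P (earV V₁ k W) (earE E₁ k c)
  c0 : ∀ V E C p, V ⊆ V₀ → E ⊆ E₀ → G.Conn V E → C ∈ V → (∀ e ∈ E, G.Touch C e → G.sg e = p) →
    G.Conn (V.erase C) (G.del E C) → P (V.erase C) (G.del E C) ⊆ P V E

end MG

end LGAlt
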