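import Pool.Agent.LGAlt2.Base

/-!
# Histories and Kauffman states

`HK.hist_iff_kst36` : for a connected diagram the markings of the histories with the root `r` are exactly the
Kauffman states with the root `r`.

* `bound` (from histories to states): for every class `c` of gap labels at level `j`, the number of holes
  in the gaps of the class plus the number of marks of the class below the level `j` (and at the root) is at
  most `1`.
* `reach` (from states to histories): every configuration of holes at level `j` such that for every class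
  this number is `1` is the last configuration of a history.  Backward steps; at a cap one uses that the
  two merged gaps belong to different classes (`cap_ne`).  At the top level the condition holds because
  there are `U.card + 2` classes (`cl_card`) and the `U.card + 2` marks are in different classes
  (`sides_ne` : checkerboard colouring).
* `nc` (planar duality): if the gaps `g`, `g'` of a level belong to the same class, then
  `i < g xor i < g'` is a function of the component of the strand `i`, and it vanishes at the component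
  of the bottom strand.  So if a cap merges two gaps of the same class, then it closes a component
  (`dead`), and the diagram is not connected.
-/

namespace LGAlt

namespace HK

/-! ### Bounds for the labels -/

lemma mrg_cases (a b x : ℕ) : mrg a b x = x ∨ (mrg a b x = min a b ∧ x = max a b) := by
  unfold mrg
  split_ifs with h
  · exact Or.inr ⟨rfl, h⟩
  · exact Or.inl rfl

lemma mrg_self (a x : ℕ) : mrg a a x = x := by
  unfold mrg
  split_ifs with h
  · simpa using h.symm
  · rfl

lemma mrg_lt {a b x B : ℕ} (hx : x < B) : mrg a b x < B := by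
  rcases mrg_cases a b x with h | ⟨h, h'⟩
  · rw [h]; exact hx
  · rw [h]
    have : min a b ≤ max a b := min_le_max
    omega

section

variable {D : Dia} {U : Finset ℕ}

lemma str_cross {pc : ℕ → Piece} {j k : ℕ} {p : Bool} (h : pc j = .cross k p) :
    str pc (j + 1) = str pc j := by
  simp only [str, h]

lemma str_cup {pc : ℕ → Piece} {j k : ℕ} {s : Bool} (h : pc j = .cup k s) :
    str pc (j + 1) = str pc j + 2 := by
  simp only [str, h]

lemma str_cap {pc : ℕ → Piece} {j k : ℕ} {s : Bool} (h : pc j = .cap k s) :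
    str pc (j + 1) = str pc j - 2 := by
  simp only [str, h]

lemma gl_cross {pc : ℕ → Piece} {j k : ℕ} {p : Bool} (h : pc j = .cross k p) (g : ℕ) :
    gl pc (j + 1) g = if g = k + 1 then j + 2 else gl pc j g := by
  simp only [gl, h]

lemma gl_cup {pc : ℕ → Piece} {j k : ℕ} {s : Bool} (h : pc j = .cup k s) (g : ℕ) :
    gl pc (j + 1) g = if g ≤ k then gl pc j g else if g = k + 1 then j + 2 else gl pc j (g - 2) := by
  simp only [gl, h]

lemma gl_cap {pc : ℕ → Piece} {j k : ℕ} {s : Bool} (h : pc j = .cap k s) (g : ℕ) :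
    gl pc (j + 1) g = if g ≤ k then gl pc j g else gl pc j (g + 2) := by
  simp only [gl, h]

lemma sl_cross {pc : ℕ → Piece} {j k : ℕ} {p : Bool} (h : pc j = .cross k p) (i : ℕ) :
    sl pc (j + 1) i = sl pc j i := by
  simp only [sl, h]

lemma sl_cup {pc : ℕ → Piece} {j k : ℕ} {s : Bool} (h : pc j = .cup k s) (i : ℕ) :
    sl pc (j + 1) i = if i < k then sl pc j i else if i < k + 2 then j + 1 else sl pc j (i - 2) := by
  simp only [sl, h]

lemma sl_cap {pc : ℕ → Piece} {j k : ℕ} {s : Bool} (h : pc j = .cap k s) (i : ℕ) :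
    sl pc (j + 1) i = if i < k then sl pc j i else sl pc j (i + 2) := by
  simp only [sl, h]

lemma fre_crossU {pc : ℕ → Piece} {j k : ℕ} {p : Bool} (h : pc j = .cross k p) (hU : j ∈ U) (x : ℕ) :
    fre pc U (j + 1) x = fre pc U j x := by
  simp only [fre, h, if_pos hU]

lemma fre_crossN {pc : ℕ → Piece} {j k : ℕ} {p : Bool} (h : pc j = .cross k p) (hU : j ∉ U) (x : ℕ) :
    fre pc U (j + 1) x = mrg (fre pc U j (j + 2)) (fre pc U j (gl pc j (k + 1))) (fre pc U j x) := by
  simp only [fre, h, if_neg hU]

lemma fre_cup {pc : ℕ → Piece} {j k : ℕ} {s : Bool} (h : pc j = .cup k s) (x : ℕ) :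
    fre pc U (j + 1) x = fre pc U j x := by
  simp only [fre, h]

lemma fre_cap {pc : ℕ → Piece} {j k : ℕ} {s : Bool} (h : pc j = .cap k s) (x : ℕ) :
    fre pc U (j + 1) x = mrg (fre pc U j (gl pc j k)) (fre pc U j (gl pc j (k + 2)))
      (fre pc U j x) := by
  simp only [fre, h]

lemma cmp_crossU {pc : ℕ → Piece} {j k : ℕ} {p : Bool} (h : pc j = .cross k p) (hU : j ∈ U) (x : ℕ) :
    cmp pc U (j + 1) x = mrg (cmp pc U j (sl pc j k)) (cmp pc U j (sl pc j (k + 1)))
      (cmp pc U j x) := by
  simp only [cmp, h, if_pos hU]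

lemma cmp_crossN {pc : ℕ → Piece} {j k : ℕ} {p : Bool} (h : pc j = .cross k p) (hU : j ∉ U) (x : ℕ) :
    cmp pc U (j + 1) x = cmp pc U j x := by
  simp only [cmp, h, if_neg hU]

lemma cmp_cup {pc : ℕ → Piece} {j k : ℕ} {s : Bool} (h : pc j = .cup k s) (x : ℕ) :
    cmp pc U (j + 1) x = cmp pc U j x := by
  simp only [cmp, h]

lemma cmp_cap {pc : ℕ → Piece} {j k : ℕ} {s : Bool} (h : pc j = .cap k s) (x : ℕ) :
    cmp pc U (j + 1) x = mrg (cmp pc U j (sl pc j k)) (cmp pc U j (sl pc j (k + 1)))
      (cmp pc U j x) := by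
  simp only [cmp, h]

/-- labels of the gaps at level `j` are less than `j + 2` -/
lemma gl_lt {j g : ℕ} (hj : j ≤ D.n) (hg : g ≤ str D.pc j) : gl D.pc j g < j + 2 := by
  induction j generalizing g with
  | zero =>
    simp only [str] at hg
    simp only [gl]
    omega
  | succ j ih =>
    have hj' : j < D.n := hj
    match hp : D.pc j with
    | .cross k p =>
      rw [str_cross hp] at hg
      rw [gl_cross hp]
      split_ifs
      · omega
      · have := ih (by omega) hg
        omega
    | .cup k s =>
      have hk := (D.hcup j hj' k s hp).1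
      rw [str_cup hp] at hg
      rw [gl_cup hp]
      split_ifs
      · have := ih (g := g) (by omega) (by omega)
        omega
      · omega
      · have := ih (g := g - 2) (by omega) (by omega)
        omega
    | .cap k s =>
      have hk := (D.hcap j hj' k s hp).1
      rw [str_cap hp] at hg
      rw [gl_cap hp]
      split_ifs
      · have := ih (g := g) (by omega) (by omega)
        omega
      · have := ih (g := g + 2) (by omega) (by omega)
        omega

lemma fre_bd {j : ℕ} (hj : j ≤ D.n) : (∀ x, x < j + 2 → fre D.pc U j x < j + 2) ∧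
    ∀ y, j + 2 ≤ y → fre D.pc U j y = y := by
  induction j with
  | zero => exact ⟨fun x hx => by simpa [fre] using hx, fun y _ => rfl⟩
  | succ j ih =>
    have hj' : j < D.n := hj
    obtain ⟨ih1, ih2⟩ := ih (by omega)
    match hp : D.pc j with
    | .cross k p =>
      have hk := (D.hcross j hj' k p hp).1
      by_cases hU : j ∈ U
      · refine ⟨fun x hx => ?_, fun y hy => ?_⟩
        · rw [fre_crossU hp hU]
          rcases Nat.lt_or_ge x (j + 2) with h | h
          · have := ih1 x h
            omega
          · rw [ih2 x h]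
            exact hx
        · rw [fre_crossU hp hU, ih2 y (by omega)]
      · have e1 : fre D.pc U j (j + 2) = j + 2 := ih2 _ le_rfl
        have e2 : fre D.pc U j (gl D.pc j (k + 1)) < j + 2 :=
          ih1 _ (gl_lt (by omega) (by omega))
        refine ⟨fun x hx => ?_, fun y hy => ?_⟩
        · rw [fre_crossN hp hU]
          rcases Nat.lt_or_ge x (j + 2) with h | h
          · have := ih1 x h
            exact mrg_lt (by omega)
          · rw [ih2 x h]
            exact mrg_lt hx
        · rw [fre_crossN hp hU, ih2 y (by omega), e1]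
          rcases mrg_cases (j + 2) (fre D.pc U j (gl D.pc j (k + 1))) y with h | ⟨h, h'⟩
          · exact h
          · omega
    | .cup k s =>
      refine ⟨fun x hx => ?_, fun y hy => ?_⟩
      · rw [fre_cup hp]
        rcases Nat.lt_or_ge x (j + 2) with h | h
        · have := ih1 x h
          omega
        · rw [ih2 x h]
          exact hx
      · rw [fre_cup hp, ih2 y (by omega)]
    | .cap k s =>
      have hk := (D.hcap j hj' k s hp).1
      have e1 : fre D.pc U j (gl D.pc j k) < j + 2 := ih1 _ (gl_lt (by omega) (by omega))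
      have e2 : fre D.pc U j (gl D.pc j (k + 2)) < j + 2 := ih1 _ (gl_lt (by omega) (by omega))
      refine ⟨fun x hx => ?_, fun y hy => ?_⟩
      · rw [fre_cap hp]
        rcases Nat.lt_or_ge x (j + 2) with h | h
        · have := ih1 x h
          exact mrg_lt (by omega)
        · rw [ih2 x h]
          exact mrg_lt hx
      · rw [fre_cap hp, ih2 y (by omega)]
        rcases mrg_cases (fre D.pc U j (gl D.pc j k)) (fre D.pc U j (gl D.pc j (k + 2))) y
          with h | ⟨h, h'⟩
        · exact h
        · omega

lemma fre_lt {j x : ℕ} (hj : j ≤ D.n) (hx : x < j + 2) : fre D.pc U j x < j + 2 :=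
  (fre_bd hj).1 x hx

lemma fre_ge {j y : ℕ} (hj : j ≤ D.n) (hy : j + 2 ≤ y) : fre D.pc U j y = y :=
  (fre_bd hj).2 y hy

/-- at an omitted crossing the class of an old label does not change -/
lemma fre_crossN_lt {j k : ℕ} {p : Bool} (hj : j < D.n) (h : D.pc j = .cross k p) (hU : j ∉ U)
    {x : ℕ} (hx : x < j + 2) : fre D.pc U (j + 1) x = fre D.pc U j x := by
  have hk := (D.hcross j hj k p h).1
  rw [fre_crossN h hU, fre_ge (by omega) le_rfl]
  have e2 : fre D.pc U j (gl D.pc j (k + 1)) < j + 2 :=
    fre_lt (by omega) (gl_lt (by omega) (by omega))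
  have e3 : fre D.pc U j x < j + 2 := fre_lt (by omega) hx
  rcases mrg_cases (j + 2) (fre D.pc U j (gl D.pc j (k + 1))) (fre D.pc U j x) with h | ⟨h, h'⟩
  · exact h
  · omega

/-- at an omitted crossing the new label belongs to the class of the gap below -/
lemma fre_crossN_new {j k : ℕ} {p : Bool} (hj : j < D.n) (h : D.pc j = .cross k p) (hU : j ∉ U) :
    fre D.pc U (j + 1) (j + 2) = fre D.pc U j (gl D.pc j (k + 1)) := by
  have hk := (D.hcross j hj k p h).1
  rw [fre_crossN h hU, fre_ge (by omega) le_rfl]
  have e2 : fre D.pc U j (gl D.pc j (k + 1)) < j + 2 :=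
    fre_lt (by omega) (gl_lt (by omega) (by omega))
  unfold mrg
  rw [if_pos (by omega)]
  omega

/-! ### Bounds for the strand labels -/

lemma sl_lt {j i : ℕ} (hj : j ≤ D.n) (hi : i < str D.pc j) : sl D.pc j i < j + 1 := by
  induction j generalizing i with
  | zero => simp only [sl]; omega
  | succ j ih =>
    have hj' : j < D.n := hj
    match hp : D.pc j with
    | .cross k p =>
      rw [str_cross hp] at hi
      rw [sl_cross hp]
      have := ih (by omega) hi
      omega
    | .cup k s =>
      have hk := (D.hcup j hj' k s hp).1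
      rw [str_cup hp] at hi
      rw [sl_cup hp]
      split_ifs
      · have := ih (i := i) (by omega) (by omega)
        omega
      · omega
      · have := ih (i := i - 2) (by omega) (by omega)
        omega
    | .cap k s =>
      have hk := (D.hcap j hj' k s hp).1
      rw [str_cap hp] at hi
      rw [sl_cap hp]
      split_ifs
      · have := ih (i := i) (by omega) (by omega)
        omega
      · have := ih (i := i + 2) (by omega) (by omega)
        omega

lemma cmp_bd {j : ℕ} (hj : j ≤ D.n) : (∀ x, x < j + 1 → cmp D.pc U j x < j + 1) ∧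
    ∀ y, j + 1 ≤ y → cmp D.pc U j y = y := by
  induction j with
  | zero => exact ⟨fun x hx => by simpa [cmp] using hx, fun y _ => rfl⟩
  | succ j ih =>
    have hj' : j < D.n := hj
    obtain ⟨ih1, ih2⟩ := ih (by omega)
    have key : ∀ a b, a < j + 1 → b < j + 1 →
        (∀ x, x < j + 1 + 1 → mrg a b (cmp D.pc U j x) < j + 1 + 1) ∧
        ∀ y, j + 1 + 1 ≤ y → mrg a b (cmp D.pc U j y) = y := by
      intro a b ha hb
      refine ⟨fun x hx => ?_, fun y hy => ?_⟩
      · rcases Nat.lt_or_ge x (j + 1) with h | h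
        · have := ih1 x h
          exact mrg_lt (by omega)
        · rw [ih2 x h]
          exact mrg_lt hx
      · rw [ih2 y (by omega)]
        rcases mrg_cases a b y with h | ⟨h, h'⟩
        · exact h
        · omega
    match hp : D.pc j with
    | .cross k p =>
      have hk := (D.hcross j hj' k p hp).1
      by_cases hU : j ∈ U
      · simp only [cmp_crossU hp hU]
        exact key _ _ (ih1 _ (sl_lt (by omega) (by omega))) (ih1 _ (sl_lt (by omega) (by omega)))
      · simp only [cmp_crossN hp hU]
        refine ⟨fun x hx => ?_, fun y hy => ih2 y (by omega)⟩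
        rcases Nat.lt_or_ge x (j + 1) with h | h
        · have := ih1 x h
          omega
        · rw [ih2 x h]
          exact hx
    | .cup k s =>
      simp only [cmp_cup hp]
      refine ⟨fun x hx => ?_, fun y hy => ih2 y (by omega)⟩
      rcases Nat.lt_or_ge x (j + 1) with h | h
      · have := ih1 x h
        omega
      · rw [ih2 x h]
        exact hx
    | .cap k s =>
      have hk := (D.hcap j hj' k s hp).1
      simp only [cmp_cap hp]
      exact key _ _ (ih1 _ (sl_lt (by omega) (by omega))) (ih1 _ (sl_lt (by omega) (by omega)))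

lemma cmp_lt {j x : ℕ} (hj : j ≤ D.n) (hx : x < j + 1) : cmp D.pc U j x < j + 1 :=
  (cmp_bd hj).1 x hx

lemma cmp_ge {j y : ℕ} (hj : j ≤ D.n) (hy : j + 1 ≤ y) : cmp D.pc U j y = y :=
  (cmp_bd hj).2 y hy

lemma sl_mem {j i : ℕ} (hj : j ≤ D.n) (hi : i < str D.pc j) : sl D.pc j i ∈ D.SLb := by
  induction j generalizing i with
  | zero =>
    simp only [sl]
    exact Finset.mem_insert_self _ _
  | succ j ih =>
    have hj' : j < D.n := hj
    match hp : D.pc j with
    | .cross k p =>
      rw [str_cross hp] at hi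
      rw [sl_cross hp]
      exact ih (by omega) hi
    | .cup k s =>
      have hk := (D.hcup j hj' k s hp).1
      rw [str_cup hp] at hi
      rw [sl_cup hp]
      split_ifs
      · exact ih (by omega) (by omega)
      · refine Finset.mem_insert_of_mem (Finset.mem_image.2 ⟨j, ?_, rfl⟩)
        exact Finset.mem_filter.2 ⟨Finset.mem_range.2 hj', by rw [hp]; rfl⟩
      · exact ih (by omega) (by omega)
    | .cap k s =>
      have hk := (D.hcap j hj' k s hp).1
      rw [str_cap hp] at hi
      rw [sl_cap hp]
      split_ifs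
      · exact ih (by omega) (by omega)
      · exact ih (by omega) (by omega)

/-! ### The checkerboard colouring -/

/-- colour of a gap label -/
def colr (pc : ℕ → Piece) : ℕ → ℕ
  | 0 => 0
  | 1 => 1
  | j + 2 => ((pc j).at + 1) % 2

lemma colr_gl {j g : ℕ} (hj : j ≤ D.n) (hg : g ≤ str D.pc j) : colr D.pc (gl D.pc j g) = g % 2 := by
  induction j generalizing g with
  | zero =>
    simp only [str] at hg
    have : g = 0 ∨ g = 1 := by omega
    rcases this with rfl | rfl <;> rfl
  | succ j ih =>
    have hj' : j < D.n := hj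
    match hp : D.pc j with
    | .cross k p =>
      rw [str_cross hp] at hg
      rw [gl_cross hp]
      split_ifs with h
      · subst h
        simp [colr, hp, Piece.at]
      · exact ih (by omega) hg
    | .cup k s =>
      have hk := (D.hcup j hj' k s hp).1
      rw [str_cup hp] at hg
      rw [gl_cup hp]
      split_ifs with h h'
      · exact ih (by omega) (by omega)
      · subst h'
        simp [colr, hp, Piece.at]
      · rw [ih (by omega) (by omega)]
        omega
    | .cap k s =>
      have hk := (D.hcap j hj' k s hp).1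
      rw [str_cap hp] at hg
      rw [gl_cap hp]
      split_ifs with h
      · exact ih (by omega) (by omega)
      · rw [ih (by omega) (by omega)]
        omega

lemma mrg_colr {c : ℕ → ℕ} {a b x : ℕ} (h : c a = c b) : c (mrg a b x) = c x := by
  rcases mrg_cases a b x with h' | ⟨h', h''⟩
  · rw [h']
  · rw [h', h'']
    rcases le_total a b with h3 | h3
    · rw [min_eq_left h3, max_eq_right h3, h]
    · rw [min_eq_right h3, max_eq_left h3, h]

lemma colr_fre {j : ℕ} (hj : j ≤ D.n) (x : ℕ) : colr D.pc (fre D.pc U j x) = colr D.pc x := by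
  induction j generalizing x with
  | zero => rfl
  | succ j ih =>
    have hj' : j < D.n := hj
    have ih := ih (by omega)
    match hp : D.pc j with
    | .cross k p =>
      have hk := (D.hcross j hj' k p hp).1
      by_cases hU : j ∈ U
      · rw [fre_crossU hp hU, ih]
      · rw [fre_crossN hp hU, mrg_colr (c := colr D.pc), ih]
        rw [ih, ih, colr_gl (by omega) (by omega)]
        simp [colr, hp, Piece.at]
    | .cup k s => rw [fre_cup hp, ih]
    | .cap k s =>
      have hk := (D.hcap j hj' k s hp).1
      rw [fre_cap hp, mrg_colr (c := colr D.pc), ih]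
      rw [ih, ih, colr_gl (by omega) (by omega), colr_gl (by omega) (by omega)]
      omega

/-- the two sides of a strand belong to different faces -/
lemma sides_ne {j i : ℕ} (hj : j ≤ D.n) (hi : i < str D.pc j) :
    fre D.pc U D.n (gl D.pc j i) ≠ fre D.pc U D.n (gl D.pc j (i + 1)) := by
  intro h
  have := congrArg (colr D.pc) h
  rw [colr_fre le_rfl, colr_fre le_rfl, colr_gl hj (by omega), colr_gl hj (by omega)] at this
  omega

/-! ### Planar duality -/

lemma mrg_inv {a b : ℕ} {ρ : ℕ → Bool} (h : ρ a = ρ b) (x : ℕ) : ρ (mrg a b x) = ρ x := by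
  rcases mrg_cases a b x with h' | ⟨h', h''⟩
  · rw [h']
  · rw [h', h'']
    rcases le_total a b with h3 | h3
    · rw [min_eq_left h3, max_eq_right h3, h]
    · rw [min_eq_right h3, max_eq_left h3, h]

lemma mrg_eq {a b x y : ℕ} (h : mrg a b x = mrg a b y) :
    x = y ∨ ((x = a ∨ x = b) ∧ (y = a ∨ y = b)) := by
  unfold mrg at h
  split_ifs at h with h1 h2 h3
  · left; omega
  · right
    constructor <;> omega
  · right
    constructor <;> omega
  · left; exact h

/-- faces and components at a level -/
lemma nc {j : ℕ} (hj : j ≤ D.n) : ∀ g ≤ str D.pc j, ∀ g' ≤ str D.pc j,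
    fre D.pc U j (gl D.pc j g) = fre D.pc U j (gl D.pc j g') →
    ∃ ρ : ℕ → Bool, ρ (cmp D.pc U j 0) = false ∧
      ∀ i < str D.pc j, ρ (cmp D.pc U j (sl D.pc j i)) = xor (decide (i < g)) (decide (i < g')) := by
  induction j with
  | zero =>
    intro g hg g' hg' h
    simp only [fre, gl] at h
    subst h
    exact ⟨fun _ => false, rfl, fun i _ => by simp⟩
  | succ j ih =>
    have hj' : j < D.n := hj
    have ih := ih (by omega)
    intro g hg g' hg' h
    match hp : D.pc j with
    | .cross k p =>
      have hk := (D.hcross j hj' k p hp).1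
      rw [str_cross hp] at hg hg'
      by_cases hU : j ∈ U
      · rw [gl_cross hp, gl_cross hp, fre_crossU hp hU, fre_crossU hp hU] at h
        have e0 : fre D.pc U j (j + 2) = j + 2 := fre_ge (by omega) le_rfl
        by_cases h1 : g = k + 1
        · by_cases h2 : g' = k + 1
          · subst h1 h2
            exact ⟨fun _ => false, rfl, fun i _ => by simp⟩
          · rw [if_pos h1, if_neg h2, e0] at h
            have := fre_lt (U := U) (D := D) (j := j) (by omega) (gl_lt (by omega) hg')
            omega
        · by_cases h2 : g' = k + 1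
          · rw [if_neg h1, if_pos h2, e0] at h
            have := fre_lt (U := U) (D := D) (j := j) (by omega) (gl_lt (by omega) hg)
            omega
          · rw [if_neg h1, if_neg h2] at h
            obtain ⟨ρ, hρ0, hρ⟩ := ih g hg g' hg' h
            have hm : ρ (cmp D.pc U j (sl D.pc j k)) = ρ (cmp D.pc U j (sl D.pc j (k + 1))) := by
              rw [hρ _ (by omega), hρ _ (by omega)]
              have a1 : (k < g) ↔ (k + 1 < g) := by omega
              have a2 : (k < g') ↔ (k + 1 < g') := by omega
              simp only [a1, a2]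
            have hmr := mrg_inv hm
            refine ⟨ρ, ?_, fun i hi => ?_⟩
            · rw [cmp_crossU hp hU, hmr, hρ0]
            · rw [str_cross hp] at hi
              rw [cmp_crossU hp hU, hmr, sl_cross hp, hρ i hi]
      · have e1 : ∀ g ≤ str D.pc j, fre D.pc U (j + 1) (gl D.pc (j + 1) g)
            = fre D.pc U j (gl D.pc j g) := by
          intro g hg
          rw [gl_cross hp]
          split_ifs with h1
          · rw [fre_crossN_new hj' hp hU, h1]
          · rw [fre_crossN_lt hj' hp hU (gl_lt (by omega) hg)]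
        rw [e1 g hg, e1 g' hg'] at h
        obtain ⟨ρ, hρ0, hρ⟩ := ih g hg g' hg' h
        refine ⟨ρ, ?_, fun i hi => ?_⟩
        · rw [cmp_crossN hp hU, hρ0]
        · rw [str_cross hp] at hi
          rw [cmp_crossN hp hU, sl_cross hp, hρ i hi]
    | .cup k s =>
      have hk := (D.hcup j hj' k s hp).1
      rw [str_cup hp] at hg hg'
      rw [fre_cup hp, fre_cup hp] at h
      have e0 : fre D.pc U j (j + 2) = j + 2 := fre_ge (by omega) le_rfl
      by_cases h1 : g = k + 1
      · by_cases h2 : g' = k + 1
        · subst h1 h2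
          exact ⟨fun _ => false, rfl, fun i _ => by simp⟩
        · exfalso
          rw [gl_cup hp, gl_cup hp, if_neg (by omega), if_pos h1, e0, if_neg h2] at h
          split_ifs at h
          · have := fre_lt (U := U) (D := D) (j := j) (by omega) (gl_lt (D := D) (g := g') (by omega) (by omega))
            omega
          · have := fre_lt (U := U) (D := D) (j := j) (by omega)
              (gl_lt (D := D) (g := g' - 2) (by omega) (by omega))
            omega
      · by_cases h2 : g' = k + 1
        · exfalso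
          rw [gl_cup hp, gl_cup hp, if_neg h1, if_neg (show ¬ g' ≤ k by omega), if_pos h2, e0] at h
          split_ifs at h
          · have := fre_lt (U := U) (D := D) (j := j) (by omega) (gl_lt (D := D) (g := g) (by omega) (by omega))
            omega
          · have := fre_lt (U := U) (D := D) (j := j) (by omega)
              (gl_lt (D := D) (g := g - 2) (by omega) (by omega))
            omega
        · have e1 : ∀ x, x ≠ k + 1 → gl D.pc (j + 1) x = gl D.pc j (if x ≤ k then x else x - 2) := by
            intro x hx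
            rw [gl_cup hp]
            split_ifs <;> rfl
          rw [e1 g h1, e1 g' h2] at h
          obtain ⟨ρ, hρ0, hρ⟩ := ih _ (by split_ifs <;> omega) _ (by split_ifs <;> omega) h
          have c0 : cmp D.pc U j 0 ≠ j + 1 := by
            have := cmp_lt (U := U) (D := D) (j := j) (x := 0) (by omega) (by omega)
            omega
          have cj : cmp D.pc U j (j + 1) = j + 1 := cmp_ge (by omega) le_rfl
          have ci : ∀ i < str D.pc j, cmp D.pc U j (sl D.pc j i) ≠ j + 1 := by
            intro i hi
            have := cmp_lt (U := U) (D := D) (j := j) (by omega) (sl_lt (by omega) hi)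
            omega
          refine ⟨fun x => if x = j + 1 then xor (decide (k < g)) (decide (k < g')) else ρ x, ?_,
            fun i hi => ?_⟩
          · rw [cmp_cup hp]
            beta_reduce
            rw [if_neg c0, hρ0]
          · rw [str_cup hp] at hi
            rw [cmp_cup hp, sl_cup hp]
            beta_reduce
            by_cases i1 : i < k
            · rw [if_pos i1, if_neg (ci i (by omega)), hρ i (by omega)]
              have a1 : (i < if g ≤ k then g else g - 2) ↔ i < g := by split_ifs <;> omega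
              have a2 : (i < if g' ≤ k then g' else g' - 2) ↔ i < g' := by split_ifs <;> omega
              simp only [a1, a2]
            · rw [if_neg i1]
              by_cases i2 : i < k + 2
              · rw [if_pos i2, if_pos cj]
                have a1 : (k < g) ↔ (i < g) := by omega
                have a2 : (k < g') ↔ (i < g') := by omega
                simp only [a1, a2]
              · rw [if_neg i2, if_neg (ci (i - 2) (by omega)), hρ (i - 2) (by omega)]
                have a1 : (i - 2 < if g ≤ k then g else g - 2) ↔ i < g := by split_ifs <;> omega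
                have a2 : (i - 2 < if g' ≤ k then g' else g' - 2) ↔ i < g' := by
                  split_ifs <;> omega
                simp only [a1, a2]
    | .cap k s =>
      have hk := (D.hcap j hj' k s hp).1
      rw [str_cap hp] at hg hg'
      have e1 : ∀ x, gl D.pc (j + 1) x = gl D.pc j (if x ≤ k then x else x + 2) := by
        intro x
        rw [gl_cap hp]
        split_ifs <;> rfl
      rw [e1, e1] at h
      have hG : (if g ≤ k then g else g + 2) ≤ str D.pc j := by split_ifs <;> omega
      have hG' : (if g' ≤ k then g' else g' + 2) ≤ str D.pc j := by split_ifs <;> omega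
      have l1 : ∀ x i, i < k → ((i < if x ≤ k then x else x + 2) ↔ i < x) := by
        intro x i hi
        split_ifs <;> omega
      have l2 : ∀ x i, k ≤ i → ((i + 2 < if x ≤ k then x else x + 2) ↔ i < x) := by
        intro x i hi
        split_ifs <;> omega
      have l3 : ∀ x : ℕ, ((k < if x ≤ k then x else x + 2) ↔
          (k + 1 < if x ≤ k then x else x + 2)) := by
        intro x
        split_ifs <;> omega
      have m1 := l1 g
      have m2 := l2 g
      have m3 := l3 g
      have n1 := l1 g'
      have n2 := l2 g'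
      have n3 := l3 g'
      generalize (if g ≤ k then g else g + 2) = G at h hG m1 m2 m3
      generalize (if g' ≤ k then g' else g' + 2) = G' at h hG' n1 n2 n3
      rw [fre_cap hp, fre_cap hp] at h
      have key : ∃ (ρ : ℕ → Bool) (e : Bool), ρ (cmp D.pc U j 0) = false ∧
          ∀ i < str D.pc j, ρ (cmp D.pc U j (sl D.pc j i)) =
            xor (xor (decide (i < G)) (decide (i < G'))) (e && decide (k ≤ i ∧ i < k + 2)) := by
        have same : fre D.pc U j (gl D.pc j G) = fre D.pc U j (gl D.pc j G') →
            ∃ (ρ : ℕ → Bool) (e : Bool), ρ (cmp D.pc U j 0) = false ∧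
            ∀ i < str D.pc j, ρ (cmp D.pc U j (sl D.pc j i)) =
            xor (xor (decide (i < G)) (decide (i < G'))) (e && decide (k ≤ i ∧ i < k + 2)) := by
          intro hh
          obtain ⟨ρ, h0, h1⟩ := ih G hG G' hG' hh
          exact ⟨ρ, false, h0, fun i hi => by rw [h1 i hi]; simp⟩
        have dif : ∀ K K', (K = k ∧ K' = k + 2 ∨ K = k + 2 ∧ K' = k) →
            fre D.pc U j (gl D.pc j G) = fre D.pc U j (gl D.pc j K) →
            fre D.pc U j (gl D.pc j G') = fre D.pc U j (gl D.pc j K') →
            ∃ (ρ : ℕ → Bool) (e : Bool), ρ (cmp D.pc U j 0) = false ∧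
            ∀ i < str D.pc j, ρ (cmp D.pc U j (sl D.pc j i)) =
            xor (xor (decide (i < G)) (decide (i < G'))) (e && decide (k ≤ i ∧ i < k + 2)) := by
          intro K K' hK hh hh'
          obtain ⟨ρ, h0, h1⟩ := ih G hG K (by omega) hh
          obtain ⟨ρ', h0', h1'⟩ := ih G' hG' K' (by omega) hh'
          refine ⟨fun x => xor (ρ x) (ρ' x), true, by simp [h0, h0'], fun i hi => ?_⟩
          beta_reduce
          rw [h1 i hi, h1' i hi]
          have : decide (k ≤ i ∧ i < k + 2) = xor (decide (i < K)) (decide (i < K')) := by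
            rcases hK with ⟨rfl, rfl⟩ | ⟨rfl, rfl⟩
            · by_cases a : i < K
              · simp [a, show i < K + 2 by omega]
              · by_cases b : i < K + 2
                · simp [a, b, show K ≤ i by omega]
                · simp [a, b]
            · by_cases a : i < K'
              · simp [a, show i < K' + 2 by omega]
              · by_cases b : i < K' + 2
                · simp [a, b, show K' ≤ i by omega]
                · simp [a, b]
          rw [this]
          cases decide (i < G) <;> cases decide (i < G') <;> cases decide (i < K) <;>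
            cases decide (i < K') <;> rfl
        rcases mrg_eq h with hh | ⟨h1 | h1, h2 | h2⟩
        · exact same hh
        · exact same (h1.trans h2.symm)
        · exact dif k (k + 2) (Or.inl ⟨rfl, rfl⟩) h1 h2
        · exact dif (k + 2) k (Or.inr ⟨rfl, rfl⟩) h1 h2
        · exact same (h1.trans h2.symm)
      obtain ⟨ρ, e, hρ0, hρ⟩ := key
      have hm : ρ (cmp D.pc U j (sl D.pc j k)) = ρ (cmp D.pc U j (sl D.pc j (k + 1))) := by
        rw [hρ _ (by omega), hρ _ (by omega)]
        simp only [m3, n3]
        simp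
      have hmr := mrg_inv hm
      refine ⟨ρ, ?_, fun i hi => ?_⟩
      · rw [cmp_cap hp, hmr, hρ0]
      · rw [str_cap hp] at hi
        rw [cmp_cap hp, hmr, sl_cap hp]
        by_cases i1 : i < k
        · rw [if_pos i1, hρ i (by omega)]
          simp only [m1 i i1, n1 i i1]
          simp [show ¬ k ≤ i by omega]
        · rw [if_neg i1, hρ (i + 2) (by omega)]
          simp only [m2 i (by omega), n2 i (by omega)]
          simp [show ¬ i < k by omega]

/-- separated component -/
lemma dead {x j : ℕ} (hx : x < j + 1) (h : ∃ ρ : ℕ → Bool, ρ (cmp D.pc U j x) = true ∧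
    ρ (cmp D.pc U j 0) = false ∧ ∀ i < str D.pc j, ρ (cmp D.pc U j (sl D.pc j i)) = false) :
    ∀ l, j ≤ l → l ≤ D.n → ∃ ρ : ℕ → Bool, ρ (cmp D.pc U l x) = true ∧
    ρ (cmp D.pc U l 0) = false ∧ ∀ i < str D.pc l, ρ (cmp D.pc U l (sl D.pc l i)) = false := by
  intro l hl
  induction l, hl using Nat.le_induction with
  | base => intro _; exact h
  | succ l hl ih =>
    intro hln
    have hl' : l < D.n := hln
    obtain ⟨ρ, h1, h0, hs⟩ := ih (by omega)
    match hp : D.pc l with
    | .cross k p =>
      have hk := (D.hcross l hl' k p hp).1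
      by_cases hU : l ∈ U
      · have hmr := mrg_inv (ρ := ρ) (a := cmp D.pc U l (sl D.pc l k))
          (b := cmp D.pc U l (sl D.pc l (k + 1))) (by rw [hs _ (by omega), hs _ (by omega)])
        refine ⟨ρ, ?_, ?_, fun i hi => ?_⟩
        · rw [cmp_crossU hp hU, hmr, h1]
        · rw [cmp_crossU hp hU, hmr, h0]
        · rw [str_cross hp] at hi
          rw [cmp_crossU hp hU, hmr, sl_cross hp, hs i hi]
      · refine ⟨ρ, ?_, ?_, fun i hi => ?_⟩
        · rw [cmp_crossN hp hU, h1]
        · rw [cmp_crossN hp hU, h0]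
        · rw [str_cross hp] at hi
          rw [cmp_crossN hp hU, sl_cross hp, hs i hi]
    | .cup k s =>
      have hk := (D.hcup l hl' k s hp).1
      have c0 : cmp D.pc U l 0 ≠ l + 1 := by
        have := cmp_lt (U := U) (D := D) (j := l) (x := 0) (by omega) (by omega)
        omega
      have cx : cmp D.pc U l x ≠ l + 1 := by
        have := cmp_lt (U := U) (D := D) (j := l) (x := x) (by omega) (by omega)
        omega
      have cj : cmp D.pc U l (l + 1) = l + 1 := cmp_ge (by omega) le_rfl
      have ci : ∀ i < str D.pc l, cmp D.pc U l (sl D.pc l i) ≠ l + 1 := by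
        intro i hi
        have := cmp_lt (U := U) (D := D) (j := l) (by omega) (sl_lt (by omega) hi)
        omega
      refine ⟨fun y => if y = l + 1 then false else ρ y, ?_, ?_, fun i hi => ?_⟩
      · rw [cmp_cup hp]
        beta_reduce
        rw [if_neg cx, h1]
      · rw [cmp_cup hp]
        beta_reduce
        rw [if_neg c0, h0]
      · rw [str_cup hp] at hi
        rw [cmp_cup hp, sl_cup hp]
        beta_reduce
        by_cases i1 : i < k
        · rw [if_pos i1, if_neg (ci i (by omega))]
          exact hs _ (by omega)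
        · rw [if_neg i1]
          by_cases i2 : i < k + 2
          · rw [if_pos i2, if_pos cj]
          · rw [if_neg i2, if_neg (ci (i - 2) (by omega))]
            exact hs _ (by omega)
    | .cap k s =>
      have hk := (D.hcap l hl' k s hp).1
      have hmr := mrg_inv (ρ := ρ) (a := cmp D.pc U l (sl D.pc l k))
        (b := cmp D.pc U l (sl D.pc l (k + 1))) (by rw [hs _ (by omega), hs _ (by omega)])
      refine ⟨ρ, ?_, ?_, fun i hi => ?_⟩
      · rw [cmp_cap hp, hmr, h1]
      · rw [cmp_cap hp, hmr, h0]
      · rw [str_cap hp] at hi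
        rw [cmp_cap hp, hmr, sl_cap hp]
        split_ifs
        · exact hs _ (by omega)
        · exact hs _ (by omega)

/-- in a connected diagram the two gaps which are merged by a cap belong to different classes -/
lemma cap_ne (hc : D.ConnU U) {j k : ℕ} {s : Bool} (hj : j < D.n) (hp : D.pc j = .cap k s) :
    fre D.pc U j (gl D.pc j k) ≠ fre D.pc U j (gl D.pc j (k + 2)) := by
  intro h
  have hk := (D.hcap j hj k s hp).1
  obtain ⟨ρ, h0, h1⟩ := nc (U := U) hj.le k (by omega) (k + 2) (by omega) h
  have e : ∀ i, k ≤ i → i < k + 2 → ρ (cmp D.pc U j (sl D.pc j i)) = true := by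
    intro i hi hi'
    rw [h1 i (by omega)]
    simp [show ¬ i < k by omega, hi']
  have e' : ∀ i < str D.pc j, (i < k ∨ k + 2 ≤ i) → ρ (cmp D.pc U j (sl D.pc j i)) = false := by
    intro i hi hi'
    rw [h1 i hi]
    rcases hi' with hi' | hi'
    · simp [hi', show i < k + 2 by omega]
    · simp [show ¬ i < k by omega, show ¬ i < k + 2 by omega]
  have hmr := mrg_inv (ρ := ρ) (a := cmp D.pc U j (sl D.pc j k))
    (b := cmp D.pc U j (sl D.pc j (k + 1))) (by rw [e _ (by omega) (by omega), e _ (by omega) (by omega)])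
  have hx := sl_lt (D := D) (j := j) (i := k) hj.le (by omega)
  obtain ⟨ρ', a1, a0, -⟩ := dead (U := U) (D := D) (x := sl D.pc j k) (j := j + 1) (by omega)
    ⟨ρ, by rw [cmp_cap hp, hmr, e _ (by omega) (by omega)], by rw [cmp_cap hp, hmr, h0],
      fun i hi => by
        rw [str_cap hp] at hi
        rw [cmp_cap hp, hmr, sl_cap hp]
        split_ifs
        · exact e' _ (by omega) (by omega)
        · exact e' _ (by omega) (by omega)⟩ D.n hj le_rfl
  have := hc (sl D.pc j k) (sl_mem hj.le (by omega)) 0 (Finset.mem_insert_self _ _)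
  rw [this, a0] at a1
  exact Bool.false_ne_true a1

/-! ### Sums over holes and marks -/

/-- sum over the holes at level `j` -/
def hs (pc : ℕ → Piece) (U : Finset ℕ) (j : ℕ) (A : ℕ → Bool) (w : ℕ → ℕ) : ℕ :=
  ∑ g ∈ Finset.range (str pc j + 1), if A g = true then w (fre pc U j (gl pc j g)) else 0

/-- sum over the marks of the crossings below the level `j` -/
def ms (pc : ℕ → Piece) (U : Finset ℕ) (m : ℕ → Mk) (j : ℕ) (w : ℕ → ℕ) : ℕ :=
  ∑ i ∈ U.filter (fun i => i < j), w (fre pc U j (cor pc i (m i)))

/-- the root terms -/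
def rs (pc : ℕ → Piece) (U : Finset ℕ) (r : ℕ × ℕ) (b : Prop) [Decidable b] (j : ℕ)
    (w : ℕ → ℕ) : ℕ :=
  if b then w (fre pc U j (gl pc r.1 r.2)) + w (fre pc U j (gl pc r.1 (r.2 + 1))) else 0

lemma mrg_left (a b : ℕ) : mrg a b a = min a b := by
  unfold mrg
  split_ifs with h <;> omega

lemma mrg_right (a b : ℕ) : mrg a b b = min a b := by
  unfold mrg
  split_ifs with h <;> omega

lemma split3 (F : ℕ → ℕ) {N k : ℕ} (h : k + 2 ≤ N) :
    ∑ g ∈ Finset.range (N + 1), F g = ∑ g ∈ Finset.range k, F g + (F k + F (k + 1) + F (k + 2)) +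
      ∑ g ∈ Finset.range (N - 2 - k), F (k + 3 + g) := by
  have : N + 1 = (k + 3) + (N - 2 - k) := by omega
  rw [this, Finset.sum_range_add, Finset.sum_range_succ, Finset.sum_range_succ,
    Finset.sum_range_succ]
  ring

lemma split1 (F : ℕ → ℕ) {N k : ℕ} (h : k ≤ N) :
    ∑ g ∈ Finset.range (N + 1), F g = ∑ g ∈ Finset.range k, F g + F k +
      ∑ g ∈ Finset.range (N - k), F (k + 1 + g) := by
  have : N + 1 = (k + 1) + (N - k) := by omega
  rw [this, Finset.sum_range_add, Finset.sum_range_succ]

lemma sum_shift {F F' : ℕ → ℕ} {M a b u v : ℕ} (ha : a < M) (hb : b < M)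
    (h : ∀ g < M, F' g + (if g = a then u else 0) = F g + (if g = b then v else 0)) :
    ∑ g ∈ Finset.range M, F' g + u = ∑ g ∈ Finset.range M, F g + v := by
  have h1 : ∑ g ∈ Finset.range M, (F' g + (if g = a then u else 0)) =
      ∑ g ∈ Finset.range M, (F g + (if g = b then v else 0)) :=
    Finset.sum_congr rfl (fun g hg => h g (Finset.mem_range.1 hg))
  rw [Finset.sum_add_distrib, Finset.sum_add_distrib, Finset.sum_ite_eq', Finset.sum_ite_eq',
    if_pos (Finset.mem_range.2 ha), if_pos (Finset.mem_range.2 hb)] at h1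
  exact h1

lemma hs_crossU {j k : ℕ} {p : Bool} (hj : j < D.n) (hp : D.pc j = .cross k p) (hU : j ∈ U)
    {mk : Mk} {X Y : ℕ → Bool} (h : stp (D.pc j) (j ∈ U) mk (str D.pc j) X Y) (w : ℕ → ℕ) :
    hs D.pc U (j + 1) Y w + w (fre D.pc U (j + 1) (cor D.pc j mk)) = hs D.pc U j X w + w (j + 2) := by
  have hk := (D.hcross j hj k p hp).1
  rw [hp] at h
  have h := h.1 hU
  unfold hs
  rw [str_cross hp]
  have e0 : fre D.pc U (j + 1) (j + 2) = j + 2 := by
    rw [fre_crossU hp hU, fre_ge hj.le le_rfl]
  have eat : (D.pc j).at = k := by rw [hp]; rfl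
  have hne : ∀ g, g ≠ k + 1 → fre D.pc U (j + 1) (gl D.pc (j + 1) g) = fre D.pc U j (gl D.pc j g) := by
    intro g hg
    rw [fre_crossU hp hU, gl_cross hp, if_neg hg]
  have hnew : fre D.pc U (j + 1) (gl D.pc (j + 1) (k + 1)) = j + 2 := by
    rw [gl_cross hp, if_pos rfl, e0]
  cases mk with
  | T =>
    obtain ⟨h1, h2⟩ := h
    rw [show cor D.pc j .T = j + 2 from rfl, e0]
    refine sum_shift (a := k + 1) (b := k + 1) (by omega) (by omega) (fun g hg => ?_)
    by_cases hg1 : g = k + 1
    · subst hg1
      rw [h2 _ (by omega), h1]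
      simp
    · rw [h2 g (by omega), hne g hg1, if_neg hg1]
  | B =>
    obtain ⟨h1, h2⟩ := h
    rw [show cor D.pc j .B = gl D.pc j ((D.pc j).at + 1) from rfl, eat, fre_crossU hp hU]
    refine sum_shift (a := k + 1) (b := k + 1) (by omega) (by omega) (fun g hg => ?_)
    by_cases hg1 : g = k + 1
    · subst hg1
      rw [h2 _ (by omega), h1, hnew]
      simp only [if_true]
      exact add_comm _ _
    · rw [h2 g (by omega), hne g hg1, if_neg hg1]
      simp [hg1]
  | L =>
    obtain ⟨h1, h2, h3, h4, h5⟩ := h
    rw [show cor D.pc j .L = gl D.pc j ((D.pc j).at) from rfl, eat, fre_crossU hp hU]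
    refine sum_shift (a := k) (b := k + 1) (by omega) (by omega) (fun g hg => ?_)
    by_cases hg1 : g = k + 1
    · subst hg1
      rw [h4, h2, hnew]
      simp
    · by_cases hg2 : g = k
      · subst hg2
        rw [h3, h1]
        simp
      · rw [h5 g (by omega) hg2 hg1, hne g hg1, if_neg hg2]
        simp [hg1]
  | R =>
    obtain ⟨h1, h2, h3, h4, h5⟩ := h
    rw [show cor D.pc j .R = gl D.pc j ((D.pc j).at + 2) from rfl, eat, fre_crossU hp hU]
    refine sum_shift (a := k + 2) (b := k + 1) (by omega) (by omega) (fun g hg => ?_)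
    by_cases hg1 : g = k + 1
    · subst hg1
      rw [h4, h2, hnew]
      simp
    · by_cases hg2 : g = k + 2
      · subst hg2
        rw [h3, h1]
        simp
      · rw [h5 g (by omega) hg2 hg1, hne g hg1, if_neg hg2]
        simp [hg1]

lemma hs_crossN {j k : ℕ} {p : Bool} (hj : j < D.n) (hp : D.pc j = .cross k p) (hU : j ∉ U)
    {X Y : ℕ → Bool} (h : ∀ g ≤ str D.pc j, Y g = X g) (w : ℕ → ℕ) :
    hs D.pc U (j + 1) Y w = hs D.pc U j X w := by
  unfold hs
  rw [str_cross hp]
  refine Finset.sum_congr rfl (fun g hg => ?_)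
  have hg := Finset.mem_range.1 hg
  rw [h g (by omega), gl_cross hp]
  have hk := (D.hcross j hj k p hp).1
  have : fre D.pc U (j + 1) (if g = k + 1 then j + 2 else gl D.pc j g) = fre D.pc U j (gl D.pc j g) := by
    split_ifs with h1
    · rw [fre_crossN_new hj hp hU, h1]
    · exact fre_crossN_lt hj hp hU (gl_lt hj.le (by omega))
  rw [this]

lemma hs_cup {j k : ℕ} {s : Bool} (hj : j < D.n) (hp : D.pc j = .cup k s)
    {mk : Mk} {X Y : ℕ → Bool} (h : stp (D.pc j) (j ∈ U) mk (str D.pc j) X Y) (w : ℕ → ℕ) :
    hs D.pc U (j + 1) Y w = hs D.pc U j X w + w (j + 2) := by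
  have hk := (D.hcup j hj k s hp).1
  rw [hp] at h
  obtain ⟨h1, h2, h3, h4⟩ := h
  unfold hs
  rw [str_cup hp, split3 _ (show k + 2 ≤ str D.pc j + 2 by omega), split1 _ hk]
  have e0 : fre D.pc U j (j + 2) = j + 2 := fre_ge hj.le le_rfl
  have s1 : ∑ g ∈ Finset.range k, (if Y g = true then w (fre D.pc U (j + 1) (gl D.pc (j + 1) g)) else 0)
      = ∑ g ∈ Finset.range k, (if X g = true then w (fre D.pc U j (gl D.pc j g)) else 0) := by
    refine Finset.sum_congr rfl (fun g hg => ?_)
    have hg := Finset.mem_range.1 hg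
    rw [h3 g hg, fre_cup hp, gl_cup hp, if_pos hg.le]
  have s2 : ∑ g ∈ Finset.range (str D.pc j + 2 - 2 - k),
        (if Y (k + 3 + g) = true then w (fre D.pc U (j + 1) (gl D.pc (j + 1) (k + 3 + g))) else 0)
      = ∑ g ∈ Finset.range (str D.pc j - k),
        (if X (k + 1 + g) = true then w (fre D.pc U j (gl D.pc j (k + 1 + g))) else 0) := by
    rw [show str D.pc j + 2 - 2 - k = str D.pc j - k by omega]
    refine Finset.sum_congr rfl (fun g hg => ?_)
    have hg := Finset.mem_range.1 hg
    have e := h4 (k + 1 + g) (by omega) (by omega)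
    rw [show k + 1 + g + 2 = k + 3 + g by omega] at e
    have e2 : gl D.pc (j + 1) (k + 3 + g) = gl D.pc j (k + 1 + g) := by
      rw [gl_cup hp, if_neg (by omega), if_neg (by omega), show k + 3 + g - 2 = k + 1 + g by omega]
    rw [e, fre_cup hp, e2]
  rw [s1, s2, h1]
  have g1 : fre D.pc U (j + 1) (gl D.pc (j + 1) k) = fre D.pc U j (gl D.pc j k) := by
    rw [fre_cup hp, gl_cup hp, if_pos le_rfl]
  have g2 : fre D.pc U (j + 1) (gl D.pc (j + 1) (k + 2)) = fre D.pc U j (gl D.pc j k) := by
    rw [fre_cup hp, gl_cup hp, if_neg (by omega), if_neg (by omega), Nat.add_sub_cancel]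
  have g3 : fre D.pc U (j + 1) (gl D.pc (j + 1) (k + 1)) = j + 2 := by
    rw [fre_cup hp, gl_cup hp, if_neg (by omega), if_pos rfl, e0]
  rw [g1, g2, g3]
  cases hY : Y k <;> cases hY' : Y (k + 2) <;> cases hX : X k <;> simp [hY, hY', hX] at h2 ⊢ <;>
    omega

lemma hs_cap {j k : ℕ} {s : Bool} (hj : j < D.n) (hp : D.pc j = .cap k s)
    {mk : Mk} {X Y : ℕ → Bool} (h : stp (D.pc j) (j ∈ U) mk (str D.pc j) X Y) (w : ℕ → ℕ) :
    hs D.pc U (j + 1) Y w + w (min (fre D.pc U j (gl D.pc j k)) (fre D.pc U j (gl D.pc j (k + 2))))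
      = hs D.pc U j X (fun x => w (mrg (fre D.pc U j (gl D.pc j k))
        (fre D.pc U j (gl D.pc j (k + 2))) x)) := by
  have hk := (D.hcap j hj k s hp).1
  rw [hp] at h
  obtain ⟨h1, h2, h3, h4⟩ := h
  unfold hs
  rw [str_cap hp, split3 _ hk, split1 _ (show k ≤ str D.pc j - 2 by omega)]
  have s1 : ∑ g ∈ Finset.range k, (if Y g = true then w (fre D.pc U (j + 1) (gl D.pc (j + 1) g)) else 0)
      = ∑ g ∈ Finset.range k, (if X g = true then w (mrg (fre D.pc U j (gl D.pc j k))
        (fre D.pc U j (gl D.pc j (k + 2))) (fre D.pc U j (gl D.pc j g))) else 0) := by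
    refine Finset.sum_congr rfl (fun g hg => ?_)
    have hg := Finset.mem_range.1 hg
    rw [h3 g hg, fre_cap hp, gl_cap hp, if_pos hg.le]
  have s2 : ∑ g ∈ Finset.range (str D.pc j - 2 - k),
        (if Y (k + 1 + g) = true then w (fre D.pc U (j + 1) (gl D.pc (j + 1) (k + 1 + g))) else 0)
      = ∑ g ∈ Finset.range (str D.pc j - 2 - k),
        (if X (k + 3 + g) = true then w (mrg (fre D.pc U j (gl D.pc j k))
        (fre D.pc U j (gl D.pc j (k + 2))) (fre D.pc U j (gl D.pc j (k + 3 + g)))) else 0) := by
    refine Finset.sum_congr rfl (fun g hg => ?_)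
    have hg := Finset.mem_range.1 hg
    have e := h4 (k + 1 + g) (by omega) (by omega)
    rw [show k + 1 + g + 2 = k + 3 + g by omega] at e
    have e2 : gl D.pc (j + 1) (k + 1 + g) = gl D.pc j (k + 3 + g) := by
      rw [gl_cap hp, if_neg (by omega), show k + 1 + g + 2 = k + 3 + g by omega]
    rw [e, fre_cap hp, e2]
  rw [s1, s2, h1]
  have g1 : fre D.pc U (j + 1) (gl D.pc (j + 1) k) =
      min (fre D.pc U j (gl D.pc j k)) (fre D.pc U j (gl D.pc j (k + 2))) := by
    rw [fre_cap hp, gl_cap hp, if_pos le_rfl, mrg_left]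
  beta_reduce
  rw [g1, mrg_left, mrg_right]
  cases hY : Y k <;> cases hX : X k <;> cases hX' : X (k + 2) <;> simp [hY, hX', hX] at h2 ⊢ <;>
    omega

/-! ### Marks and root terms -/

lemma cor_lt (hU : U ⊆ D.C) {i : ℕ} (hi : i ∈ U) (mk : Mk) : cor D.pc i mk < i + 3 := by
  have h := Finset.mem_filter.1 (hU hi)
  have hin : i < D.n := Finset.mem_range.1 h.1
  match hp : D.pc i with
  | .cross k p =>
    have hk := (D.hcross i hin k p hp).1
    have eat : (D.pc i).at = k := by rw [hp]; rfl
    cases mk with
    | T => show i + 2 < i + 3; omega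
    | B =>
      show gl D.pc i ((D.pc i).at + 1) < i + 3
      rw [eat]
      have := gl_lt (D := D) (j := i) (g := k + 1) hin.le (by omega)
      omega
    | L =>
      show gl D.pc i ((D.pc i).at) < i + 3
      rw [eat]
      have := gl_lt (D := D) (j := i) (g := k) hin.le (by omega)
      omega
    | R =>
      show gl D.pc i ((D.pc i).at + 2) < i + 3
      rw [eat]
      have := gl_lt (D := D) (j := i) (g := k + 2) hin.le (by omega)
      omega
  | .cup k s => rw [hp] at h; exact absurd h.2 (by simp [Piece.isX])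
  | .cap k s => rw [hp] at h; exact absurd h.2 (by simp [Piece.isX])

lemma filter_succ_of_mem {j : ℕ} (h : j ∈ U) :
    U.filter (fun i => i < j + 1) = insert j (U.filter (fun i => i < j)) := by
  ext x
  simp only [Finset.mem_filter, Finset.mem_insert]
  constructor
  · rintro ⟨h1, h2⟩
    by_cases hx : x = j
    · exact Or.inl hx
    · exact Or.inr ⟨h1, by omega⟩
  · rintro (rfl | ⟨h1, h2⟩)
    · exact ⟨h, by omega⟩
    · exact ⟨h1, by omega⟩

lemma filter_succ_of_not {j : ℕ} (h : j ∉ U) :
    U.filter (fun i => i < j + 1) = U.filter (fun i => i < j) := by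
  ext x
  simp only [Finset.mem_filter]
  constructor
  · rintro ⟨h1, h2⟩
    refine ⟨h1, ?_⟩
    by_contra hx
    have : x = j := by omega
    exact h (this ▸ h1)
  · rintro ⟨h1, h2⟩
    exact ⟨h1, by omega⟩

/-- total weight of holes, marks and root terms -/
def tt (pc : ℕ → Piece) (U : Finset ℕ) (m : ℕ → Mk) (r : ℕ × ℕ) (b : Prop) [Decidable b] (j : ℕ)
    (A : ℕ → Bool) (w : ℕ → ℕ) : ℕ :=
  hs pc U j A w + ms pc U m j w + rs pc U r b j w

lemma rs_congr {r : ℕ × ℕ} (hr : D.IsRoot r) {j : ℕ} {b : Prop} [Decidable b] (hb : b → r.1 ≤ j)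
    {f : ℕ → ℕ} (hf : ∀ x < j + 2, fre D.pc U (j + 1) x = f (fre D.pc U j x)) (w : ℕ → ℕ) :
    rs D.pc U r b (j + 1) w = rs D.pc U r b j (fun x => w (f x)) := by
  unfold rs
  split_ifs with h
  · have := hb h
    have h1 := gl_lt (D := D) (j := r.1) (g := r.2) hr.1 hr.2.le
    have h2 := gl_lt (D := D) (j := r.1) (g := r.2 + 1) hr.1 hr.2
    rw [hf _ (by omega), hf _ (by omega)]
  · rfl

lemma ms_congr (hU : U ⊆ D.C) {m : ℕ → Mk} {j : ℕ}
    {f : ℕ → ℕ} (hf : ∀ x < j + 2, fre D.pc U (j + 1) x = f (fre D.pc U j x)) (w : ℕ → ℕ) :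
    ∑ i ∈ U.filter (fun i => i < j), w (fre D.pc U (j + 1) (cor D.pc i (m i))) =
      ms D.pc U m j (fun x => w (f x)) := by
  unfold ms
  refine Finset.sum_congr rfl (fun i hi => ?_)
  obtain ⟨hi1, hi2⟩ := Finset.mem_filter.1 hi
  have := cor_lt hU hi1 (m i)
  rw [hf _ (by omega)]

lemma not_mem_of_cup (hU : U ⊆ D.C) {j k : ℕ} {s : Bool} (hp : D.pc j = .cup k s) : j ∉ U := by
  intro h
  have := (Finset.mem_filter.1 (hU h)).2
  rw [hp] at this
  simp [Piece.isX] at this

lemma not_mem_of_cap (hU : U ⊆ D.C) {j k : ℕ} {s : Bool} (hp : D.pc j = .cap k s) : j ∉ U := by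
  intro h
  have := (Finset.mem_filter.1 (hU h)).2
  rw [hp] at this
  simp [Piece.isX] at this

/-- one step: active crossings and cups -/
lemma tt_new (hU : U ⊆ D.C) {m : ℕ → Mk} {r : ℕ × ℕ} (hr : D.IsRoot r) {j : ℕ} (hj : j < D.n)
    {b : Prop} [Decidable b] (hb : b → r.1 ≤ j) (hn : j ∈ U ∨ ∃ k s, D.pc j = .cup k s)
    {X Y : ℕ → Bool} (h : stp (D.pc j) (j ∈ U) (m j) (str D.pc j) X Y) (w : ℕ → ℕ) :
    tt D.pc U m r b (j + 1) Y w = tt D.pc U m r b j X w + w (j + 2) := by
  unfold tt
  match hp : D.pc j with
  | .cross k p =>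
    have hjU : j ∈ U := by
      rcases hn with hn | ⟨k', s', hk'⟩
      · exact hn
      · rw [hp] at hk'
        exact absurd hk' (by simp)
    have hf : ∀ x < j + 2, fre D.pc U (j + 1) x = id (fre D.pc U j x) :=
      fun x _ => fre_crossU hp hjU x
    have e1 := hs_crossU hj hp hjU h w
    have e2 : rs D.pc U r b (j + 1) w = rs D.pc U r b j w := rs_congr (U := U) hr hb hf w
    have e3 : ∑ i ∈ U.filter (fun i => i < j), w (fre D.pc U (j + 1) (cor D.pc i (m i))) =
      ms D.pc U m j w := ms_congr (m := m) hU hf w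
    have e4 : ms D.pc U m (j + 1) w = w (fre D.pc U (j + 1) (cor D.pc j (m j))) +
        ∑ i ∈ U.filter (fun i => i < j), w (fre D.pc U (j + 1) (cor D.pc i (m i))) := by
      unfold ms
      rw [filter_succ_of_mem hjU, Finset.sum_insert (by simp)]
    rw [e4, e3, e2]
    omega
  | .cup k s =>
    have hjU := not_mem_of_cup hU hp
    have hf : ∀ x < j + 2, fre D.pc U (j + 1) x = id (fre D.pc U j x) :=
      fun x _ => fre_cup hp x
    have e1 := hs_cup hj hp h w
    have e2 : rs D.pc U r b (j + 1) w = rs D.pc U r b j w := rs_congr (U := U) hr hb hf w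
    have e3 : ∑ i ∈ U.filter (fun i => i < j), w (fre D.pc U (j + 1) (cor D.pc i (m i))) =
      ms D.pc U m j w := ms_congr (m := m) hU hf w
    have e4 : ms D.pc U m (j + 1) w =
        ∑ i ∈ U.filter (fun i => i < j), w (fre D.pc U (j + 1) (cor D.pc i (m i))) := by
      unfold ms
      rw [filter_succ_of_not hjU]
    rw [e4, e3, e2, e1]
    omega
  | .cap k s =>
    exfalso
    rcases hn with hn | ⟨k', s', hk'⟩
    · exact not_mem_of_cap hU hp hn
    · rw [hp] at hk'
      exact absurd hk' (by simp)

/-- one step: omitted crossings -/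
lemma tt_omit (hU : U ⊆ D.C) {m : ℕ → Mk} {r : ℕ × ℕ} (hr : D.IsRoot r) {j : ℕ} (hj : j < D.n)
    {b : Prop} [Decidable b] (hb : b → r.1 ≤ j) {k : ℕ} {p : Bool} (hp : D.pc j = .cross k p)
    (hjU : j ∉ U)
    {X Y : ℕ → Bool} (h : ∀ g ≤ str D.pc j, Y g = X g) (w : ℕ → ℕ) :
    tt D.pc U m r b (j + 1) Y w = tt D.pc U m r b j X w := by
  unfold tt
  have hf : ∀ x < j + 2, fre D.pc U (j + 1) x = id (fre D.pc U j x) :=
    fun x hx => fre_crossN_lt hj hp hjU hx
  have e1 := hs_crossN hj hp hjU h w
  have e2 := rs_congr (U := U) hr hb hf w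
  have e3 := ms_congr (m := m) hU hf w
  have e4 : ms D.pc U m (j + 1) w =
      ∑ i ∈ U.filter (fun i => i < j), w (fre D.pc U (j + 1) (cor D.pc i (m i))) := by
    unfold ms
    rw [filter_succ_of_not hjU]
  rw [e4, e3, e2, e1]
  simp only [id]

/-- one step: caps -/
lemma tt_cap (hU : U ⊆ D.C) {m : ℕ → Mk} {r : ℕ × ℕ} (hr : D.IsRoot r) {j : ℕ} (hj : j < D.n)
    {b : Prop} [Decidable b] (hb : b → r.1 ≤ j) {k : ℕ} {s : Bool} (hp : D.pc j = .cap k s)
    {X Y : ℕ → Bool} (h : stp (D.pc j) (j ∈ U) (m j) (str D.pc j) X Y) (w : ℕ → ℕ) :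
    tt D.pc U m r b (j + 1) Y w +
      w (min (fre D.pc U j (gl D.pc j k)) (fre D.pc U j (gl D.pc j (k + 2)))) =
    tt D.pc U m r b j X (fun x => w (mrg (fre D.pc U j (gl D.pc j k))
        (fre D.pc U j (gl D.pc j (k + 2))) x)) := by
  unfold tt
  have hjU := not_mem_of_cap hU hp
  have hf : ∀ x < j + 2, fre D.pc U (j + 1) x = mrg (fre D.pc U j (gl D.pc j k))
        (fre D.pc U j (gl D.pc j (k + 2))) (fre D.pc U j x) :=
    fun x hx => fre_cap hp x
  have e1 := hs_cap hj hp h w
  have e2 := rs_congr (U := U) hr hb hf w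
  have e3 := ms_congr (m := m) hU hf w
  have e4 : ms D.pc U m (j + 1) w =
      ∑ i ∈ U.filter (fun i => i < j), w (fre D.pc U (j + 1) (cor D.pc i (m i))) := by
    unfold ms
    rw [filter_succ_of_not hjU]
  rw [e4, e3, e2]
  omega

/-- the root -/
lemma tt_abr {m : ℕ → Mk} {r : ℕ × ℕ} (hr : D.IsRoot r) {j : ℕ}
    {X : ℕ → Bool} (h : r.1 = j → X r.2 = true ∧ X (r.2 + 1) = true) (w : ℕ → ℕ) :
    tt D.pc U m r (r.1 ≤ j) j (abr r j X) w = tt D.pc U m r (r.1 < j) j X w := by
  unfold tt
  by_cases hj : r.1 = j
  · obtain ⟨h1, h2⟩ := h hj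
    have hr2 := hr.2
    rw [hj] at hr2
    have e : hs D.pc U j X w = hs D.pc U j (abr r j X) w + w (fre D.pc U j (gl D.pc j r.2)) +
        w (fre D.pc U j (gl D.pc j (r.2 + 1))) := by
      unfold hs
      have e1 : ∀ g ∈ Finset.range (str D.pc j + 1),
          (if X g = true then w (fre D.pc U j (gl D.pc j g)) else 0) =
          (if abr r j X g = true then w (fre D.pc U j (gl D.pc j g)) else 0) +
          (if g = r.2 then w (fre D.pc U j (gl D.pc j g)) else 0) +
          (if g = r.2 + 1 then w (fre D.pc U j (gl D.pc j g)) else 0) := by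
        intro g _
        by_cases hg : g = r.2
        · subst hg
          simp [abr, hj, h1]
        · by_cases hg' : g = r.2 + 1
          · subst hg'
            simp [abr, hj, h2]
          · have : abr r j X g = X g := by
              unfold abr
              rw [if_neg (by omega)]
            rw [this, if_neg hg, if_neg hg', Nat.add_zero]
      rw [Finset.sum_congr rfl e1, Finset.sum_add_distrib, Finset.sum_add_distrib,
        Finset.sum_ite_eq', Finset.sum_ite_eq', if_pos (Finset.mem_range.2 (by omega)),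
        if_pos (Finset.mem_range.2 (by omega))]
    have e2 : rs D.pc U r (r.1 ≤ j) j w = w (fre D.pc U j (gl D.pc j r.2)) +
        w (fre D.pc U j (gl D.pc j (r.2 + 1))) := by
      unfold rs
      rw [if_pos hj.le, hj]
    have e3 : rs D.pc U r (r.1 < j) j w = 0 := by
      unfold rs
      rw [if_neg (by omega)]
    rw [e, e2, e3]
    omega
  · have e : abr r j X = X := by
      funext g
      unfold abr
      rw [if_neg (fun hh => hj hh.1.symm)]
    have e2 : rs D.pc U r (r.1 ≤ j) j w = rs D.pc U r (r.1 < j) j w := by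
      unfold rs
      by_cases h1 : r.1 < j
      · rw [if_pos h1, if_pos h1.le]
      · rw [if_neg h1, if_neg (by omega)]
    rw [e, e2]

/-! ### Linearity and bounds -/

/-- indicator function -/
def dl (c : ℕ) : ℕ → ℕ := fun x => if x = c then 1 else 0

lemma tt_iff {m : ℕ → Mk} {r : ℕ × ℕ} {b b' : Prop} [Decidable b] [Decidable b'] (h : b ↔ b')
    (j : ℕ) (A : ℕ → Bool) (w : ℕ → ℕ) : tt D.pc U m r b j A w = tt D.pc U m r b' j A w := by
  unfold tt rs
  simp only [h]

lemma hs_mono {j : ℕ} {A : ℕ → Bool} {w w' : ℕ → ℕ} (h : ∀ x, w x ≤ w' x) :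
    hs D.pc U j A w ≤ hs D.pc U j A w' := by
  unfold hs
  refine Finset.sum_le_sum (fun g _ => ?_)
  split_ifs
  · exact h _
  · exact le_rfl

lemma tt_mono {m : ℕ → Mk} {r : ℕ × ℕ} {b : Prop} [Decidable b] {j : ℕ} {A : ℕ → Bool}
    {w w' : ℕ → ℕ} (h : ∀ x, w x ≤ w' x) : tt D.pc U m r b j A w ≤ tt D.pc U m r b j A w' := by
  unfold tt ms rs
  refine add_le_add (add_le_add (hs_mono h) (Finset.sum_le_sum (fun g _ => h _))) ?_
  split_ifs
  · exact add_le_add (h _) (h _)
  · exact le_rfl

lemma tt_add {m : ℕ → Mk} {r : ℕ × ℕ} {b : Prop} [Decidable b] {j : ℕ} {A : ℕ → Bool}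
    (w w' : ℕ → ℕ) : tt D.pc U m r b j A (fun x => w x + w' x) =
      tt D.pc U m r b j A w + tt D.pc U m r b j A w' := by
  unfold tt ms rs hs
  have h1 : ∀ g, (if A g = true then w (fre D.pc U j (gl D.pc j g)) + w' (fre D.pc U j (gl D.pc j g))
      else 0) = (if A g = true then w (fre D.pc U j (gl D.pc j g)) else 0) +
      (if A g = true then w' (fre D.pc U j (gl D.pc j g)) else 0) := by
    intro g
    split_ifs <;> rfl
  simp only [h1, Finset.sum_add_distrib]
  split_ifs <;> omega

lemma tt_zero (hU : U ⊆ D.C) {m : ℕ → Mk} {r : ℕ × ℕ} (hr : D.IsRoot r) {b : Prop} [Decidable b]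
    {j : ℕ} (hj : j ≤ D.n) (hb : b → r.1 ≤ j) {A : ℕ → Bool} {w : ℕ → ℕ}
    (h : ∀ x < j + 2, w x = 0) : tt D.pc U m r b j A w = 0 := by
  unfold tt
  have h1 : hs D.pc U j A w = 0 := by
    unfold hs
    refine Finset.sum_eq_zero (fun g hg => ?_)
    have hg := Finset.mem_range.1 hg
    split_ifs
    · exact h _ (fre_lt hj (gl_lt hj (by omega)))
    · rfl
  have h2 : ms D.pc U m j w = 0 := by
    unfold ms
    refine Finset.sum_eq_zero (fun i hi => ?_)
    obtain ⟨hi1, hi2⟩ := Finset.mem_filter.1 hi
    have := cor_lt hU hi1 (m i)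
    exact h _ (fre_lt hj (by omega))
  have h3 : rs D.pc U r b j w = 0 := by
    unfold rs
    split_ifs with hb'
    · have := hb hb'
      have h1 := gl_lt (D := D) (j := r.1) (g := r.2) hr.1 hr.2.le
      have h2 := gl_lt (D := D) (j := r.1) (g := r.2 + 1) hr.1 hr.2
      rw [h _ (fre_lt hj (by omega)), h _ (fre_lt hj (by omega))]
    · rfl
  rw [h1, h2, h3]

/-! ### From histories to Kauffman states -/

lemma bound (hU : U ⊆ D.C) {m : ℕ → Mk} {r : ℕ × ℕ} (hr : D.IsRoot r) {X : ℕ → ℕ → Bool}
    (h0 : X 0 0 = true) (h1 : X 0 1 = true) (hr0 : X r.1 r.2 = true) (hr1 : X r.1 (r.2 + 1) = true)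
    (hs : ∀ j < D.n, stp (D.pc j) (j ∈ U) (m j) (str D.pc j) (abr r j (X j)) (X (j + 1)))
    {j : ℕ} (hj : j ≤ D.n) (c : ℕ) :
    tt D.pc U m r (r.1 ≤ j) j (abr r j (X j)) (dl c) ≤ 1 := by
  induction j generalizing c with
  | zero =>
    rw [tt_abr hr (fun h => by rw [← h]; exact ⟨hr0, hr1⟩)]
    unfold tt HK.hs ms rs dl
    simp only [str, fre, gl, Finset.sum_range_succ, Finset.range_zero, Finset.sum_empty, h0, h1,
      if_true, Nat.not_lt_zero, if_false, Finset.filter_false]
    rcases (show c = 0 ∨ c = 1 ∨ 2 ≤ c by omega) with rfl | rfl | hc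
    · simp
    · simp
    · have c0 : ¬ 0 = c := by omega
      have c1 : ¬ 1 = c := by omega
      simp [c0, c1]
  | succ j ih =>
    rw [tt_abr hr (fun h => by rw [← h]; exact ⟨hr0, hr1⟩), tt_iff (Nat.lt_succ_iff)]
    have hj' : j < D.n := hj
    have ih := fun c => ih (by omega) c
    have hst := hs j hj'
    match hp : D.pc j with
    | .cross k p =>
      by_cases hjU : j ∈ U
      · rw [tt_new hU hr hj' (fun h => h) (Or.inl hjU) hst]
        by_cases hc : c = j + 2
        · subst hc
          rw [tt_zero hU hr hj'.le (fun h => h)]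
          · simp [dl]
          · intro x hx
            simp only [dl]
            rw [if_neg (by omega)]
        · have : dl c (j + 2) = 0 := by simp only [dl]; rw [if_neg (fun h => hc h.symm)]
          rw [this]
          exact ih c
      · rw [hp] at hst
        rw [tt_omit hU hr hj' (fun h => h) hp hjU (hst.2 hjU)]
        exact ih c
    | .cup k s =>
      rw [tt_new hU hr hj' (fun h => h) (Or.inr ⟨k, s, hp⟩) hst]
      by_cases hc : c = j + 2
      · subst hc
        rw [tt_zero hU hr hj'.le (fun h => h)]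
        · simp [dl]
        · intro x hx
          simp only [dl]
          rw [if_neg (by omega)]
      · have : dl c (j + 2) = 0 := by simp only [dl]; rw [if_neg (fun h => hc h.symm)]
        rw [this]
        exact ih c
    | .cap k s =>
      have e := tt_cap hU hr hj' (fun h => h) hp hst (dl c)
      generalize fre D.pc U j (gl D.pc j k) = a at e
      generalize fre D.pc U j (gl D.pc j (k + 2)) = b at e
      by_cases hc : c = min a b
      · have e1 : dl c (min a b) = 1 := by rw [hc]; simp [dl]
        rw [e1] at e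
        by_cases hab : a = b
        · subst hab
          have e2 : (fun x => dl c (mrg a a x)) = dl c := by
            funext x
            rw [mrg_self]
          rw [e2] at e
          have := ih c
          omega
        · have e3 : tt D.pc U m r (r.1 ≤ j) j (abr r j (X j)) (fun x => dl c (mrg a b x)) ≤
              tt D.pc U m r (r.1 ≤ j) j (abr r j (X j)) (fun x => dl a x + dl b x) := by
            refine tt_mono (fun x => ?_)
            simp only [dl]
            rcases mrg_cases a b x with h | ⟨h, h'⟩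
            · rw [h]
              split_ifs <;> omega
            · rw [h]
              split_ifs <;> omega
          rw [tt_add] at e3
          have := ih a
          have := ih b
          omega
      · have e3 : tt D.pc U m r (r.1 ≤ j) j (abr r j (X j)) (fun x => dl c (mrg a b x)) ≤
              tt D.pc U m r (r.1 ≤ j) j (abr r j (X j)) (dl c) := by
          refine tt_mono (fun x => ?_)
          simp only [dl]
          rcases mrg_cases a b x with h | ⟨h, h'⟩
          · rw [h]
          · rw [h, if_neg (fun h => hc h.symm)]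
            exact Nat.zero_le _
        have := ih c
        omega

theorem hist_kst (hU : U ⊆ D.C) {m : ℕ → Mk} {r : ℕ × ℕ} (hr : D.IsRoot r)
    (h : Hist D.pc D.n U r m) : Kst D.pc D.n U r m := by
  obtain ⟨X, h0, h1, hr0, hr1, hs, hf0, hf1⟩ := h
  have hb := fun c => bound hU hr h0 h1 hr0 hr1 hs le_rfl c
  have hfl : U.filter (fun i => i < D.n) = U := by
    refine Finset.filter_true_of_mem (fun i hi => ?_)
    exact Finset.mem_range.1 (Finset.mem_filter.1 (hU hi)).1
  have hm : ∀ c, ms D.pc U m D.n (dl c) + rs D.pc U r (r.1 ≤ D.n) D.n (dl c) ≤ 1 := by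
    intro c
    have := hb c
    unfold tt at this
    omega
  have hge : ∀ c ∈ U, 1 ≤ ms D.pc U m D.n (dl (fre D.pc U D.n (cor D.pc c (m c)))) := by
    intro c hc
    unfold ms
    rw [hfl]
    have := Finset.single_le_sum (f := fun i => dl (fre D.pc U D.n (cor D.pc c (m c)))
      (fre D.pc U D.n (cor D.pc i (m i)))) (fun i _ => Nat.zero_le _) hc
    refine le_trans ?_ this
    simp [dl]
  refine ⟨fun c hc c' hc' hcc => ?_, fun c hc hcc => ?_, fun c hc hcc => ?_⟩
  · by_contra hne
    have h2 : 2 ≤ ms D.pc U m D.n (dl (fre D.pc U D.n (cor D.pc c (m c)))) := by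
      unfold ms
      rw [hfl]
      have hsub : ({c, c'} : Finset ℕ) ⊆ U := by
        intro x hx
        rcases Finset.mem_insert.1 hx with rfl | hx
        · exact hc
        · rw [Finset.mem_singleton.1 hx]; exact hc'
      have := Finset.sum_le_sum_of_subset (f := fun i => dl (fre D.pc U D.n (cor D.pc c (m c)))
        (fre D.pc U D.n (cor D.pc i (m i)))) hsub
      rw [Finset.sum_pair hne] at this
      refine le_trans ?_ this
      simp [dl, hcc]
    have := hm (fre D.pc U D.n (cor D.pc c (m c)))
    omega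
  · have h1 := hge c hc
    have h2 := hm (fre D.pc U D.n (cor D.pc c (m c)))
    have h3 : 1 ≤ rs D.pc U r (r.1 ≤ D.n) D.n (dl (fre D.pc U D.n (cor D.pc c (m c)))) := by
      unfold rs
      rw [if_pos hr.1]
      simp only [dl, hcc, if_true]
      omega
    omega
  · have h1 := hge c hc
    have h2 := hm (fre D.pc U D.n (cor D.pc c (m c)))
    have h3 : 1 ≤ rs D.pc U r (r.1 ≤ D.n) D.n (dl (fre D.pc U D.n (cor D.pc c (m c)))) := by
      unfold rs
      rw [if_pos hr.1]
      simp only [dl, hcc, if_true]
      omega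
    omega

/-! ### Classes -/

/-- representatives of the classes at level `j` -/
def cl (D : Dia) (U : Finset ℕ) : ℕ → Finset ℕ
  | 0 => {0, 1}
  | j + 1 =>
    match D.pc j with
    | .cross _ _ => if j ∈ U then insert (j + 2) (cl D U j) else cl D U j
    | .cup _ _ => insert (j + 2) (cl D U j)
    | .cap k _ => (cl D U j).erase (max (fre D.pc U j (gl D.pc j k))
        (fre D.pc U j (gl D.pc j (k + 2))))

lemma cl_crossU {j k : ℕ} {p : Bool} (h : D.pc j = .cross k p) (hU : j ∈ U) :
    cl D U (j + 1) = insert (j + 2) (cl D U j) := by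
  simp only [cl, h, if_pos hU]

lemma cl_crossN {j k : ℕ} {p : Bool} (h : D.pc j = .cross k p) (hU : j ∉ U) :
    cl D U (j + 1) = cl D U j := by
  simp only [cl, h, if_neg hU]

lemma cl_cup {j k : ℕ} {s : Bool} (h : D.pc j = .cup k s) :
    cl D U (j + 1) = insert (j + 2) (cl D U j) := by
  simp only [cl, h]

lemma cl_cap {j k : ℕ} {s : Bool} (h : D.pc j = .cap k s) :
    cl D U (j + 1) = (cl D U j).erase (max (fre D.pc U j (gl D.pc j k))
        (fre D.pc U j (gl D.pc j (k + 2)))) := by
  simp only [cl, h]

lemma cl_lt {j : ℕ} : ∀ c ∈ cl D U j, c < j + 2 := by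
  induction j with
  | zero =>
    intro c hc
    simp only [cl, Finset.mem_insert, Finset.mem_singleton] at hc
    omega
  | succ j ih =>
    intro c hc
    match hp : D.pc j with
    | .cross k p =>
      by_cases hU : j ∈ U
      · rw [cl_crossU hp hU, Finset.mem_insert] at hc
        rcases hc with rfl | hc
        · omega
        · have := ih c hc
          omega
      · rw [cl_crossN hp hU] at hc
        have := ih c hc
        omega
    | .cup k s =>
      rw [cl_cup hp, Finset.mem_insert] at hc
      rcases hc with rfl | hc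
      · omega
      · have := ih c hc
        omega
    | .cap k s =>
      rw [cl_cap hp] at hc
      have := ih c (Finset.mem_erase.1 hc).2
      omega

lemma cl_step (hc : D.ConnU U) {j : ℕ} (hj : j < D.n) {x : ℕ} (hx : x < j + 2)
    (hg : ∀ g ≤ str D.pc j, fre D.pc U j (gl D.pc j g) ∈ cl D U j)
    (h : fre D.pc U j x ∈ cl D U j) : fre D.pc U (j + 1) x ∈ cl D U (j + 1) := by
  match hp : D.pc j with
  | .cross k p =>
    by_cases hU : j ∈ U
    · rw [cl_crossU hp hU, fre_crossU hp hU]
      exact Finset.mem_insert_of_mem h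
    · rw [cl_crossN hp hU, fre_crossN_lt hj hp hU hx]
      exact h
  | .cup k s =>
    rw [cl_cup hp, fre_cup hp]
    exact Finset.mem_insert_of_mem h
  | .cap k s =>
    have hk := (D.hcap j hj k s hp).1
    have hne := cap_ne hc hj hp
    have ha := hg k (by omega)
    have hb := hg (k + 2) (by omega)
    rw [cl_cap hp, fre_cap hp]
    generalize fre D.pc U j (gl D.pc j k) = a at *
    generalize fre D.pc U j (gl D.pc j (k + 2)) = b at *
    rw [Finset.mem_erase]
    rcases mrg_cases a b (fre D.pc U j x) with h' | ⟨h', h''⟩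
    · refine ⟨fun hh => ?_, by rw [h']; exact h⟩
      rw [hh] at h'
      have h3 : mrg a b (fre D.pc U j x) = min a b := by
        unfold mrg
        rw [if_pos h'.symm]
      omega
    · rw [h']
      refine ⟨by omega, ?_⟩
      rcases le_total a b with h3 | h3
      · rw [min_eq_left h3]; exact ha
      · rw [min_eq_right h3]; exact hb

lemma cl_gap (hc : D.ConnU U) {j : ℕ} (hj : j ≤ D.n) :
    ∀ g ≤ str D.pc j, fre D.pc U j (gl D.pc j g) ∈ cl D U j := by
  induction j with
  | zero =>
    intro g hg
    simp only [str] at hg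
    simp only [fre, gl, cl, Finset.mem_insert, Finset.mem_singleton]
    omega
  | succ j ih =>
    have hj' : j < D.n := hj
    have ih := ih (by omega)
    intro g hg
    have hst : ∀ x, x ≤ str D.pc j → fre D.pc U (j + 1) (gl D.pc j x) ∈ cl D U (j + 1) :=
      fun x hx => cl_step hc hj' (gl_lt (by omega) hx) ih (ih x hx)
    match hp : D.pc j with
    | .cross k p =>
      have hk := (D.hcross j hj' k p hp).1
      rw [str_cross hp] at hg
      by_cases hU : j ∈ U
      · rw [gl_cross hp]
        split_ifs
        · rw [fre_crossU hp hU, cl_crossU hp hU, fre_ge (by omega) le_rfl]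
          exact Finset.mem_insert_self _ _
        · exact hst g hg
      · rw [gl_cross hp]
        split_ifs
        · rw [fre_crossN_new hj' hp hU, cl_crossN hp hU]
          exact ih _ (by omega)
        · exact hst g hg
    | .cup k s =>
      have hk := (D.hcup j hj' k s hp).1
      rw [str_cup hp] at hg
      rw [gl_cup hp]
      split_ifs
      · exact hst g (by omega)
      · rw [fre_cup hp, cl_cup hp, fre_ge (by omega) le_rfl]
        exact Finset.mem_insert_self _ _
      · exact hst (g - 2) (by omega)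
    | .cap k s =>
      have hk := (D.hcap j hj' k s hp).1
      rw [str_cap hp] at hg
      rw [gl_cap hp]
      split_ifs
      · exact hst g (by omega)
      · exact hst (g + 2) (by omega)

lemma cl_old (hc : D.ConnU U) {i g : ℕ} (hi : i ≤ D.n) (hg : g ≤ str D.pc i) {j : ℕ} (hij : i ≤ j)
    (hj : j ≤ D.n) : fre D.pc U j (gl D.pc i g) ∈ cl D U j := by
  induction j, hij using Nat.le_induction with
  | base => exact cl_gap hc hi g hg
  | succ j hij ih =>
    have := gl_lt hi hg
    exact cl_step hc hj (by omega) (cl_gap hc (by omega)) (ih (by omega))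

lemma cl_cor (hc : D.ConnU U) (hU : U ⊆ D.C) {i : ℕ} (hi : i ∈ U) (mk : Mk) {j : ℕ} (hij : i < j)
    (hj : j ≤ D.n) : fre D.pc U j (cor D.pc i mk) ∈ cl D U j := by
  have h := Finset.mem_filter.1 (hU hi)
  have hin : i < D.n := Finset.mem_range.1 h.1
  match hp : D.pc i with
  | .cross k p =>
    have hk := (D.hcross i hin k p hp).1
    have eat : (D.pc i).at = k := by rw [hp]; rfl
    cases mk with
    | T =>
      have e : cor D.pc i .T = gl D.pc (i + 1) (k + 1) := by
        rw [gl_cross hp, if_pos rfl]
        rfl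
      rw [e]
      exact cl_old hc (i := i + 1) hin (by rw [str_cross hp]; omega) hij hj
    | B =>
      show fre D.pc U j (gl D.pc i ((D.pc i).at + 1)) ∈ _
      rw [eat]
      exact cl_old hc hin.le (by omega) hij.le hj
    | L =>
      show fre D.pc U j (gl D.pc i ((D.pc i).at)) ∈ _
      rw [eat]
      exact cl_old hc hin.le (by omega) hij.le hj
    | R =>
      show fre D.pc U j (gl D.pc i ((D.pc i).at + 2)) ∈ _
      rw [eat]
      exact cl_old hc hin.le (by omega) hij.le hj
  | .cup k s => rw [hp] at h; exact absurd h.2 (by simp [Piece.isX])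
  | .cap k s => rw [hp] at h; exact absurd h.2 (by simp [Piece.isX])

/-- number of classes -/
lemma cl_card (hc : D.ConnU U) (hU : U ⊆ D.C) {j : ℕ} (hj : j ≤ D.n) :
    2 * (cl D U j).card = 2 * (U.filter (fun i => i < j)).card + str D.pc j + 3 := by
  induction j with
  | zero =>
    simp [cl, str]
  | succ j ih =>
    have hj' : j < D.n := hj
    have ih := ih (by omega)
    have hnew : j + 2 ∉ cl D U j := fun h => by
      have := cl_lt _ h
      omega
    match hp : D.pc j with
    | .cross k p =>
      by_cases hjU : j ∈ U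
      · rw [cl_crossU hp hjU, Finset.card_insert_of_notMem hnew, filter_succ_of_mem hjU,
          Finset.card_insert_of_notMem (by simp), str_cross hp]
        omega
      · rw [cl_crossN hp hjU, filter_succ_of_not hjU, str_cross hp]
        exact ih
    | .cup k s =>
      rw [cl_cup hp, Finset.card_insert_of_notMem hnew, filter_succ_of_not (not_mem_of_cup hU hp),
        str_cup hp]
      omega
    | .cap k s =>
      have hk := (D.hcap j hj' k s hp).1
      have ha := cl_gap hc hj'.le k (by omega)
      have hb := cl_gap hc hj'.le (k + 2) (by omega)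
      rw [cl_cap hp, filter_succ_of_not (not_mem_of_cap hU hp), str_cap hp]
      generalize fre D.pc U j (gl D.pc j k) = a at *
      generalize fre D.pc U j (gl D.pc j (k + 2)) = b at *
      have hm : max a b ∈ cl D U j := by
        rcases le_total a b with h3 | h3
        · rw [max_eq_right h3]; exact hb
        · rw [max_eq_left h3]; exact ha
      rw [Finset.card_erase_of_mem hm]
      have : 0 < (cl D U j).card := Finset.card_pos.2 ⟨_, hm⟩
      omega

/-! ### Lower bounds for the sums -/

lemma hs_ge {j g : ℕ} {A : ℕ → Bool} (hg : g ≤ str D.pc j) (hA : A g = true) :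
    1 ≤ hs D.pc U j A (dl (fre D.pc U j (gl D.pc j g))) := by
  unfold hs
  have := Finset.single_le_sum (f := fun x => if A x = true then
    dl (fre D.pc U j (gl D.pc j g)) (fre D.pc U j (gl D.pc j x)) else 0)
    (fun i _ => Nat.zero_le _) (Finset.mem_range.2 (show g < str D.pc j + 1 by omega))
  refine le_trans ?_ this
  simp [dl, hA]

lemma hs_ge2 {j g g' : ℕ} {A : ℕ → Bool} (hg : g ≤ str D.pc j) (hA : A g = true)
    (hg' : g' ≤ str D.pc j) (hA' : A g' = true) (hne : g ≠ g')
    (hh : fre D.pc U j (gl D.pc j g) = fre D.pc U j (gl D.pc j g')) :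
    2 ≤ hs D.pc U j A (dl (fre D.pc U j (gl D.pc j g))) := by
  unfold hs
  have hsub : ({g, g'} : Finset ℕ) ⊆ Finset.range (str D.pc j + 1) := by
    intro x hx
    rcases Finset.mem_insert.1 hx with rfl | hx
    · exact Finset.mem_range.2 (by omega)
    · rw [Finset.mem_singleton.1 hx]; exact Finset.mem_range.2 (by omega)
  have := Finset.sum_le_sum_of_subset (f := fun x => if A x = true then
    dl (fre D.pc U j (gl D.pc j g)) (fre D.pc U j (gl D.pc j x)) else 0) hsub
  rw [Finset.sum_pair hne] at this
  refine le_trans ?_ this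
  simp [dl, hA, hA', hh]

lemma ms_ge {m : ℕ → Mk} {j i : ℕ} (hi : i ∈ U) (hij : i < j) :
    1 ≤ ms D.pc U m j (dl (fre D.pc U j (cor D.pc i (m i)))) := by
  unfold ms
  have := Finset.single_le_sum (f := fun x => dl (fre D.pc U j (cor D.pc i (m i)))
    (fre D.pc U j (cor D.pc x (m x)))) (s := U.filter (fun x => x < j))
    (fun i _ => Nat.zero_le _) (Finset.mem_filter.2 ⟨hi, hij⟩)
  refine le_trans ?_ this
  simp [dl]

/-- the class of the new label contains only the new gap -/
lemma new_class (hU : U ⊆ D.C) {m : ℕ → Mk} {r : ℕ × ℕ} (hr : D.IsRoot r) {b : Prop} [Decidable b]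
    {j k : ℕ} (hj : j < D.n) (hb : b → r.1 ≤ j) {A : ℕ → Bool}
    (hp : (∃ p, D.pc j = .cross k p) ∧ j ∈ U ∨ ∃ s, D.pc j = .cup k s)
    (hA : A (k + 1) = false) (hm : j ∈ U → m j ≠ .T) :
    tt D.pc U m r b (j + 1) A (dl (j + 2)) = 0 := by
  have hfre : ∀ x, fre D.pc U (j + 1) x = fre D.pc U j x := by
    intro x
    rcases hp with ⟨⟨p, hp⟩, hjU⟩ | ⟨s, hp⟩
    · exact fre_crossU hp hjU x
    · exact fre_cup hp x
  have hlt : ∀ x < j + 2, dl (j + 2) (fre D.pc U (j + 1) x) = 0 := by
    intro x hx
    have := fre_lt (U := U) hj.le hx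
    rw [hfre]
    simp only [dl]
    rw [if_neg (by omega)]
  unfold tt
  have h1 : hs D.pc U (j + 1) A (dl (j + 2)) = 0 := by
    unfold hs
    refine Finset.sum_eq_zero (fun g hg => ?_)
    have hg := Finset.mem_range.1 hg
    by_cases hgk : g = k + 1
    · subst hgk
      rw [hA]
      rfl
    · have : gl D.pc (j + 1) g < j + 2 := by
        rcases hp with ⟨⟨p, hp⟩, hjU⟩ | ⟨s, hp⟩
        · have hk := (D.hcross j hj k p hp).1
          rw [str_cross hp] at hg
          rw [gl_cross hp, if_neg hgk]
          exact gl_lt hj.le (by omega)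
        · have hk := (D.hcup j hj k s hp).1
          rw [str_cup hp] at hg
          rw [gl_cup hp]
          split_ifs
          · exact gl_lt hj.le (by omega)
          · exact gl_lt hj.le (by omega)
      rw [hlt _ this]
      simp
  have h2 : ms D.pc U m (j + 1) (dl (j + 2)) = 0 := by
    unfold ms
    refine Finset.sum_eq_zero (fun i hi => ?_)
    obtain ⟨hi1, hi2⟩ := Finset.mem_filter.1 hi
    refine hlt _ ?_
    by_cases hij : i = j
    · subst hij
      rcases hp with ⟨⟨p, hp⟩, hjU⟩ | ⟨s, hp⟩
      · have hk := (D.hcross i hj k p hp).1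
        have eat : (D.pc i).at = k := by rw [hp]; rfl
        have hmT := hm hi1
        cases hmi : m i with
        | T => exact absurd hmi hmT
        | B =>
          show gl D.pc i ((D.pc i).at + 1) < i + 2
          rw [eat]
          exact gl_lt hj.le (by omega)
        | L =>
          show gl D.pc i ((D.pc i).at) < i + 2
          rw [eat]
          exact gl_lt hj.le (by omega)
        | R =>
          show gl D.pc i ((D.pc i).at + 2) < i + 2
          rw [eat]
          exact gl_lt hj.le (by omega)
      · exact absurd hi1 (not_mem_of_cup hU hp)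
    · have := cor_lt hU hi1 (m i)
      omega
  have h3 : rs D.pc U r b (j + 1) (dl (j + 2)) = 0 := by
    unfold rs
    split_ifs with hb'
    · have := hb hb'
      have h1 := gl_lt (D := D) (j := r.1) (g := r.2) hr.1 hr.2.le
      have h2 := gl_lt (D := D) (j := r.1) (g := r.2 + 1) hr.1 hr.2
      rw [hlt _ (by omega), hlt _ (by omega)]
    · rfl
  rw [h1, h2, h3]

/-! ### Backward steps -/

lemma back_crossU (hU : U ⊆ D.C) {m : ℕ → Mk} {r : ℕ × ℕ} (hr : D.IsRoot r) {b : Prop} [Decidable b]
    {j k : ℕ} {p : Bool} (hj : j < D.n) (hb : b → r.1 ≤ j) (hp : D.pc j = .cross k p) (hjU : j ∈ U)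
    {Y : ℕ → Bool} (hgap : ∀ g ≤ str D.pc (j + 1),
      fre D.pc U (j + 1) (gl D.pc (j + 1) g) ∈ cl D U (j + 1))
    (hY : ∀ c ∈ cl D U (j + 1), tt D.pc U m r b (j + 1) Y (dl c) = 1) :
    ∃ B : ℕ → Bool, stp (D.pc j) (j ∈ U) (m j) (str D.pc j) B Y ∧
      ∀ c ∈ cl D U j, tt D.pc U m r b j B (dl c) = 1 := by
  have hk := (D.hcross j hj k p hp).1
  have eat : (D.pc j).at = k := by rw [hp]; rfl
  suffices h : ∃ B : ℕ → Bool, stp (D.pc j) (j ∈ U) (m j) (str D.pc j) B Y by
    obtain ⟨B, hB⟩ := h
    refine ⟨B, hB, fun c hc => ?_⟩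
    have e := tt_new hU hr hj hb (Or.inl hjU) hB (dl c)
    have hc' := cl_lt c hc
    have e1 : dl c (j + 2) = 0 := by simp only [dl]; rw [if_neg (by omega)]
    rw [e1, hY c (by rw [cl_crossU hp hjU]; exact Finset.mem_insert_of_mem hc)] at e
    exact e.symm
  have hnew : tt D.pc U m r b (j + 1) Y (dl (j + 2)) = 1 :=
    hY _ (by rw [cl_crossU hp hjU]; exact Finset.mem_insert_self _ _)
  have e0 : fre D.pc U (j + 1) (gl D.pc (j + 1) (k + 1)) = j + 2 := by
    rw [gl_cross hp, if_pos rfl, fre_crossU hp hjU, fre_ge hj.le le_rfl]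
  have hT : m j = .T → Y (k + 1) = false := by
    intro hm
    by_contra hcon
    have hcon : Y (k + 1) = true := by simpa using hcon
    have h1 := hs_ge (U := U) (j := j + 1) (g := k + 1) (A := Y) (by rw [str_cross hp]; omega) hcon
    have h2 := ms_ge (D := D) (U := U) (m := m) (j := j + 1) (i := j) hjU (by omega)
    rw [e0] at h1
    have e1 : fre D.pc U (j + 1) (cor D.pc j (m j)) = j + 2 := by
      rw [hm]
      show fre D.pc U (j + 1) (j + 2) = j + 2
      rw [fre_crossU hp hjU, fre_ge hj.le le_rfl]
    rw [e1] at h2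
    unfold tt at hnew
    omega
  have hnT : m j ≠ .T → Y (k + 1) = true := by
    intro hm
    by_contra hcon
    have hcon : Y (k + 1) = false := by simpa using hcon
    have := new_class hU hr (m := m) (A := Y) hj hb (Or.inl ⟨⟨p, hp⟩, hjU⟩) hcon (fun _ => hm)
    omega
  have hmk : ∀ g, g ≤ str D.pc j → g ≠ k + 1 → cor D.pc j (m j) = gl D.pc j g → Y g = false := by
    intro g hg hgk hcor
    by_contra hcon
    have hcon : Y g = true := by simpa using hcon
    have hg' : g ≤ str D.pc (j + 1) := by rw [str_cross hp]; exact hg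
    have h1 := hs_ge (U := U) (j := j + 1) (g := g) (A := Y) hg' hcon
    have h2 := ms_ge (D := D) (U := U) (m := m) (j := j + 1) (i := j) hjU (by omega)
    have h3 := hY _ (hgap g hg')
    have e1 : gl D.pc (j + 1) g = gl D.pc j g := by rw [gl_cross hp, if_neg hgk]
    rw [hcor] at h2
    rw [e1] at h1 h3
    unfold tt at h3
    omega
  cases hm : m j with
  | T =>
    refine ⟨Y, ?_⟩
    rw [hp]
    exact ⟨fun _ => ⟨hT hm, fun _ _ => rfl⟩, fun h => absurd hjU h⟩
  | B =>
    refine ⟨Y, ?_⟩
    rw [hp]
    exact ⟨fun _ => ⟨hnT (by rw [hm]; simp), fun _ _ => rfl⟩, fun h => absurd hjU h⟩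
  | L =>
    have hYk := hmk k (by omega) (by omega) (by
      rw [hm]
      show gl D.pc j ((D.pc j).at) = _
      rw [eat])
    refine ⟨fun g => if g = k then true else if g = k + 1 then false else Y g, ?_⟩
    rw [hp]
    refine ⟨fun _ => ⟨by simp, by simp, hYk, hnT (by rw [hm]; simp), fun g _ h1 h2 => ?_⟩,
      fun h => absurd hjU h⟩
    beta_reduce
    rw [if_neg h1, if_neg h2]
  | R =>
    have hYk := hmk (k + 2) (by omega) (by omega) (by
      rw [hm]
      show gl D.pc j ((D.pc j).at + 2) = _
      rw [eat])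
    refine ⟨fun g => if g = k + 2 then true else if g = k + 1 then false else Y g, ?_⟩
    rw [hp]
    refine ⟨fun _ => ⟨by simp, by simp, hYk, hnT (by rw [hm]; simp), fun g _ h1 h2 => ?_⟩,
      fun h => absurd hjU h⟩
    beta_reduce
    rw [if_neg h1, if_neg h2]

lemma back_cup (hU : U ⊆ D.C) {m : ℕ → Mk} {r : ℕ × ℕ} (hr : D.IsRoot r) {b : Prop} [Decidable b]
    {j k : ℕ} {s : Bool} (hj : j < D.n) (hb : b → r.1 ≤ j) (hp : D.pc j = .cup k s)
    {Y : ℕ → Bool} (hgap : ∀ g ≤ str D.pc (j + 1),
      fre D.pc U (j + 1) (gl D.pc (j + 1) g) ∈ cl D U (j + 1))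
    (hY : ∀ c ∈ cl D U (j + 1), tt D.pc U m r b (j + 1) Y (dl c) = 1) :
    ∃ B : ℕ → Bool, stp (D.pc j) (j ∈ U) (m j) (str D.pc j) B Y ∧
      ∀ c ∈ cl D U j, tt D.pc U m r b j B (dl c) = 1 := by
  have hk := (D.hcup j hj k s hp).1
  have hjU := not_mem_of_cup hU hp
  suffices h : ∃ B : ℕ → Bool, stp (D.pc j) (j ∈ U) (m j) (str D.pc j) B Y by
    obtain ⟨B, hB⟩ := h
    refine ⟨B, hB, fun c hc => ?_⟩
    have e := tt_new hU hr hj hb (Or.inr ⟨k, s, hp⟩) hB (dl c)
    have hc' := cl_lt c hc
    have e1 : dl c (j + 2) = 0 := by simp only [dl]; rw [if_neg (by omega)]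
    rw [e1, hY c (by rw [cl_cup hp]; exact Finset.mem_insert_of_mem hc)] at e
    exact e.symm
  have hnew : tt D.pc U m r b (j + 1) Y (dl (j + 2)) = 1 :=
    hY _ (by rw [cl_cup hp]; exact Finset.mem_insert_self _ _)
  have hk1 : Y (k + 1) = true := by
    by_contra hcon
    have hcon : Y (k + 1) = false := by simpa using hcon
    have := new_class hU hr (m := m) (A := Y) hj hb (Or.inr ⟨s, hp⟩) hcon (fun h => absurd h hjU)
    omega
  have hnot : ¬ (Y k = true ∧ Y (k + 2) = true) := by
    rintro ⟨h1, h2⟩
    have g1 : k ≤ str D.pc (j + 1) := by rw [str_cup hp]; omega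
    have g2 : k + 2 ≤ str D.pc (j + 1) := by rw [str_cup hp]; omega
    have h3 := hs_ge2 (U := U) (A := Y) g1 h1 g2 h2 (by omega) (by
      rw [gl_cup hp, gl_cup hp, if_pos le_rfl, if_neg (by omega), if_neg (by omega),
        Nat.add_sub_cancel])
    have h4 := hY _ (hgap k g1)
    unfold tt at h4
    omega
  refine ⟨fun g => if g < k then Y g else if g = k then (Y k || Y (k + 2)) else Y (g + 2), ?_⟩
  rw [hp]
  refine ⟨hk1, ?_, fun g hg => ?_, fun g hg _ => ?_⟩
  · simp only [lt_irrefl, if_false, if_true]
    cases h1 : Y k <;> cases h2 : Y (k + 2) <;> simp [h1, h2] at hnot ⊢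
  · beta_reduce
    rw [if_pos hg]
  · beta_reduce
    rw [if_neg (by omega), if_neg (by omega)]

/-- candidates for the configuration below a cap -/
def capB (k : ℕ) (Y : ℕ → Bool) (u v : Bool) : ℕ → Bool :=
  fun g => if g < k then Y g else if g = k then u else if g = k + 1 then false else
    if g = k + 2 then v else Y (g - 2)

lemma capB_stp {j k : ℕ} {s : Bool} (hp : D.pc j = .cap k s) {mk : Mk} {Y : ℕ → Bool} {u v : Bool}
    (h : (Y k).toNat + 1 = u.toNat + v.toNat) :
    stp (D.pc j) (j ∈ U) mk (str D.pc j) (capB k Y u v) Y := by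
  rw [hp]
  refine ⟨?_, ?_, fun g hg => ?_, fun g hg _ => ?_⟩
  · unfold capB
    rw [if_neg (by omega), if_neg (by omega), if_pos rfl]
  · have e1 : capB k Y u v k = u := by
      unfold capB
      rw [if_neg (by omega), if_pos rfl]
    have e2 : capB k Y u v (k + 2) = v := by
      unfold capB
      rw [if_neg (by omega), if_neg (by omega), if_neg (by omega), if_pos rfl]
    rw [e1, e2]
    exact h
  · unfold capB
    rw [if_pos hg]
  · unfold capB
    rw [if_neg (by omega), if_neg (by omega), if_neg (by omega), if_neg (by omega),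
      Nat.add_sub_cancel]

lemma capB_hs {j k : ℕ} (hk : k + 2 ≤ str D.pc j) (Y : ℕ → Bool) (u v : Bool) (w : ℕ → ℕ) :
    hs D.pc U j (capB k Y u v) w = hs D.pc U j (capB k Y false false) w +
      (if u = true then w (fre D.pc U j (gl D.pc j k)) else 0) +
      (if v = true then w (fre D.pc U j (gl D.pc j (k + 2))) else 0) := by
  unfold hs
  have e1 : ∀ g ∈ Finset.range (str D.pc j + 1),
      (if capB k Y u v g = true then w (fre D.pc U j (gl D.pc j g)) else 0) =
      (if capB k Y false false g = true then w (fre D.pc U j (gl D.pc j g)) else 0) +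
      (if g = k then (if u = true then w (fre D.pc U j (gl D.pc j k)) else 0) else 0) +
      (if g = k + 2 then (if v = true then w (fre D.pc U j (gl D.pc j (k + 2))) else 0) else 0) := by
    intro g _
    rcases (show g < k ∨ g = k ∨ g = k + 1 ∨ g = k + 2 ∨ k + 3 ≤ g by omega) with
      h | rfl | rfl | rfl | h
    · have h1 : capB k Y u v g = capB k Y false false g := by
        unfold capB
        rw [if_pos h, if_pos h]
      rw [h1, if_neg (show ¬ g = k by omega), if_neg (show ¬ g = k + 2 by omega)]
      rfl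
    · have h1 : capB g Y u v g = u := by
        unfold capB
        rw [if_neg (by omega), if_pos rfl]
      have h2 : capB g Y false false g = false := by
        unfold capB
        rw [if_neg (by omega), if_pos rfl]
      rw [h1, h2]
      simp
    · have h1 : capB k Y u v (k + 1) = false := by
        unfold capB
        rw [if_neg (by omega), if_neg (by omega), if_pos rfl]
      have h2 : capB k Y false false (k + 1) = false := by
        unfold capB
        rw [if_neg (by omega), if_neg (by omega), if_pos rfl]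
      rw [h1, h2]
      simp
    · have h1 : capB k Y u v (k + 2) = v := by
        unfold capB
        rw [if_neg (by omega), if_neg (by omega), if_neg (by omega), if_pos rfl]
      have h2 : capB k Y false false (k + 2) = false := by
        unfold capB
        rw [if_neg (by omega), if_neg (by omega), if_neg (by omega), if_pos rfl]
      rw [h1, h2]
      simp
    · have h1 : capB k Y u v g = capB k Y false false g := by
        unfold capB
        rw [if_neg (by omega), if_neg (by omega), if_neg (by omega), if_neg (by omega),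
          if_neg (by omega), if_neg (by omega), if_neg (by omega), if_neg (by omega)]
      rw [h1, if_neg (show ¬ g = k by omega), if_neg (show ¬ g = k + 2 by omega)]
      rfl
  rw [Finset.sum_congr rfl e1, Finset.sum_add_distrib, Finset.sum_add_distrib,
    Finset.sum_ite_eq', Finset.sum_ite_eq', if_pos (Finset.mem_range.2 (by omega)),
    if_pos (Finset.mem_range.2 (by omega))]

lemma back_cap (hc : D.ConnU U) (hU : U ⊆ D.C) {m : ℕ → Mk} {r : ℕ × ℕ} (hr : D.IsRoot r)
    {b : Prop} [Decidable b]
    {j k : ℕ} {s : Bool} (hj : j < D.n) (hb : b → r.1 ≤ j) (hp : D.pc j = .cap k s)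
    {Y : ℕ → Bool}
    (hY : ∀ c ∈ cl D U (j + 1), tt D.pc U m r b (j + 1) Y (dl c) = 1) :
    ∃ B : ℕ → Bool, stp (D.pc j) (j ∈ U) (m j) (str D.pc j) B Y ∧
      ∀ c ∈ cl D U j, tt D.pc U m r b j B (dl c) = 1 := by
  have hk := (D.hcap j hj k s hp).1
  have hne := cap_ne hc hj hp
  have ha := cl_gap hc hj.le k (by omega)
  have hbb := cl_gap hc hj.le (k + 2) (by omega)
  -- the identities
  have key : ∀ B : ℕ → Bool, stp (D.pc j) (j ∈ U) (m j) (str D.pc j) B Y →
      tt D.pc U m r b j B (dl (fre D.pc U j (gl D.pc j k))) +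
        tt D.pc U m r b j B (dl (fre D.pc U j (gl D.pc j (k + 2)))) = 2 ∧
      ∀ c ∈ cl D U j, c ≠ fre D.pc U j (gl D.pc j k) → c ≠ fre D.pc U j (gl D.pc j (k + 2)) →
        tt D.pc U m r b j B (dl c) = 1 := by
    intro B hB
    have e := tt_cap hU hr hj hb hp hB
    rw [cl_cap hp] at hY
    generalize fre D.pc U j (gl D.pc j k) = a at *
    generalize fre D.pc U j (gl D.pc j (k + 2)) = d at *
    constructor
    · have e1 := e (dl (min a d))
      have hmem : min a d ∈ (cl D U j).erase (max a d) := by
        rw [Finset.mem_erase]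
        refine ⟨by omega, ?_⟩
        rcases le_total a d with h3 | h3
        · rw [min_eq_left h3]; exact ha
        · rw [min_eq_right h3]; exact hbb
      rw [hY _ hmem] at e1
      have e2 : (fun x => dl (min a d) (mrg a d x)) = fun x => dl a x + dl d x := by
        funext x
        simp only [dl]
        rcases mrg_cases a d x with h | ⟨h, h'⟩
        · rw [h]
          by_cases hx : x = max a d
          · exfalso
            rw [hx] at h
            unfold mrg at h
            rw [if_pos rfl] at h
            omega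
          · split_ifs <;> omega
        · rw [h]
          split_ifs <;> omega
      rw [e2, tt_add] at e1
      have e3 : dl (min a d) (min a d) = 1 := by simp [dl]
      omega
    · intro c hcc h1 h2
      have e1 := e (dl c)
      have hmem : c ∈ (cl D U j).erase (max a d) := by
        rw [Finset.mem_erase]
        exact ⟨by omega, hcc⟩
      rw [hY _ hmem] at e1
      have e2 : (fun x => dl c (mrg a d x)) = dl c := by
        funext x
        simp only [dl]
        rcases mrg_cases a d x with h | ⟨h, h'⟩
        · rw [h]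
        · rw [h]
          split_ifs <;> omega
      have e3 : dl c (min a d) = 0 := by
        simp only [dl]
        rw [if_neg (by omega)]
      rw [e2, e3] at e1
      omega
  suffices h : ∃ B : ℕ → Bool, stp (D.pc j) (j ∈ U) (m j) (str D.pc j) B Y ∧
      tt D.pc U m r b j B (dl (fre D.pc U j (gl D.pc j k))) = 1 by
    obtain ⟨B, hB, h1⟩ := h
    obtain ⟨h2, h3⟩ := key B hB
    refine ⟨B, hB, fun c hcc => ?_⟩
    by_cases hc1 : c = fre D.pc U j (gl D.pc j k)
    · rw [hc1]; exact h1
    · by_cases hc2 : c = fre D.pc U j (gl D.pc j (k + 2))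
      · rw [hc2]; omega
      · exact h3 c hcc hc1 hc2
  cases hYk : Y k with
  | true =>
    have hB : stp (D.pc j) (j ∈ U) (m j) (str D.pc j) (capB k Y true true) Y :=
      capB_stp hp (by rw [hYk]; rfl)
    refine ⟨_, hB, ?_⟩
    have h1 := (key _ hB).1
    have e1 : capB k Y true true k = true := by
      unfold capB
      rw [if_neg (by omega), if_pos rfl]
    have e2 : capB k Y true true (k + 2) = true := by
      unfold capB
      rw [if_neg (by omega), if_neg (by omega), if_neg (by omega), if_pos rfl]
    have h2 := hs_ge (D := D) (U := U) (j := j) (g := k) (by omega) e1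
    have h3 := hs_ge (D := D) (U := U) (j := j) (g := k + 2) hk e2
    have h4 : tt D.pc U m r b j (capB k Y true true) (dl (fre D.pc U j (gl D.pc j k))) ≥
      hs D.pc U j (capB k Y true true) (dl (fre D.pc U j (gl D.pc j k))) := by
      unfold tt; omega
    have h5 : tt D.pc U m r b j (capB k Y true true) (dl (fre D.pc U j (gl D.pc j (k + 2)))) ≥
      hs D.pc U j (capB k Y true true) (dl (fre D.pc U j (gl D.pc j (k + 2)))) := by
      unfold tt; omega
    omega
  | false =>
    have hB1 : stp (D.pc j) (j ∈ U) (m j) (str D.pc j) (capB k Y true false) Y :=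
      capB_stp hp (by rw [hYk]; rfl)
    have hB2 : stp (D.pc j) (j ∈ U) (m j) (str D.pc j) (capB k Y false true) Y :=
      capB_stp hp (by rw [hYk]; rfl)
    have h1 := (key _ hB1).1
    have h2 := (key _ hB2).1
    have ef : ∀ (u v : Bool) (w : ℕ → ℕ), tt D.pc U m r b j (capB k Y u v) w =
        tt D.pc U m r b j (capB k Y false false) w +
        (if u = true then w (fre D.pc U j (gl D.pc j k)) else 0) +
        (if v = true then w (fre D.pc U j (gl D.pc j (k + 2))) else 0) := by
      intro u v w
      unfold tt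
      rw [capB_hs hk Y u v w]
      omega
    rw [ef, ef true false] at h1
    have d1 : dl (fre D.pc U j (gl D.pc j k)) (fre D.pc U j (gl D.pc j k)) = 1 := by simp [dl]
    have d2 : dl (fre D.pc U j (gl D.pc j (k + 2))) (fre D.pc U j (gl D.pc j k)) = 0 := by
      simp only [dl]
      rw [if_neg hne]
    have d3 : dl (fre D.pc U j (gl D.pc j k)) (fre D.pc U j (gl D.pc j (k + 2))) = 0 := by
      simp only [dl]
      rw [if_neg hne.symm]
    rw [d1, d2] at h1
    simp only [if_true, Bool.false_eq_true, if_false] at h1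
    by_cases ht : tt D.pc U m r b j (capB k Y false false) (dl (fre D.pc U j (gl D.pc j k))) = 0
    · refine ⟨_, hB1, ?_⟩
      rw [ef, d1, ht]
      simp
    · refine ⟨_, hB2, ?_⟩
      rw [ef, d3]
      simp only [if_true, Bool.false_eq_true, if_false]
      omega

lemma stp_congr {p : Piece} {act : Prop} {mk : Mk} {N : ℕ} {X X' Y : ℕ → Bool}
    (hv : ∀ k q, p = .cross k q → k + 2 ≤ N) (hv' : ∀ k q, p = .cup k q → k ≤ N)
    (hv'' : ∀ k q, p = .cap k q → k + 2 ≤ N)
    (h : ∀ g ≤ N, X' g = X g) (hst : stp p act mk N X Y) : stp p act mk N X' Y := by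
  match p, hst with
  | .cross k q, hst =>
    have hk := hv k q rfl
    obtain ⟨h1, h2⟩ := hst
    refine ⟨fun ha => ?_, fun hn g hg => by rw [h g hg]; exact h2 hn g hg⟩
    have h1 := h1 ha
    cases mk with
    | T =>
      obtain ⟨h3, h4⟩ := h1
      exact ⟨by rw [h _ (by omega)]; exact h3, fun g hg => by rw [h g hg]; exact h4 g hg⟩
    | B =>
      obtain ⟨h3, h4⟩ := h1
      exact ⟨by rw [h _ (by omega)]; exact h3, fun g hg => by rw [h g hg]; exact h4 g hg⟩
    | L =>
      obtain ⟨h3, h4, h5, h6, h7⟩ := h1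
      exact ⟨by rw [h _ (by omega)]; exact h3, by rw [h _ (by omega)]; exact h4, h5, h6,
        fun g hg g1 g2 => by rw [h g hg]; exact h7 g hg g1 g2⟩
    | R =>
      obtain ⟨h3, h4, h5, h6, h7⟩ := h1
      exact ⟨by rw [h _ (by omega)]; exact h3, by rw [h _ (by omega)]; exact h4, h5, h6,
        fun g hg g1 g2 => by rw [h g hg]; exact h7 g hg g1 g2⟩
  | .cup k q, hst =>
    have hk := hv' k q rfl
    obtain ⟨h1, h2, h3, h4⟩ := hst
    exact ⟨h1, by rw [h k hk]; exact h2, fun g hg => by rw [h g (by omega)]; exact h3 g hg,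
      fun g hg hg' => by rw [h g hg']; exact h4 g hg hg'⟩
  | .cap k q, hst =>
    have hk := hv'' k q rfl
    obtain ⟨h1, h2, h3, h4⟩ := hst
    exact ⟨by rw [h _ (by omega)]; exact h1, by rw [h k (by omega), h (k + 2) hk]; exact h2,
      fun g hg => by rw [h g (by omega)]; exact h3 g hg,
      fun g hg hg' => by rw [h (g + 2) hg']; exact h4 g hg hg'⟩

/-- undoing the root -/
lemma unabr (hc : D.ConnU U) {m : ℕ → Mk} {r : ℕ × ℕ} (hr : D.IsRoot r) {j : ℕ} (hj : j ≤ D.n)
    {A : ℕ → Bool} (hA : ∀ c ∈ cl D U j, tt D.pc U m r (r.1 ≤ j) j A (dl c) = 1) :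
    ∃ A' : ℕ → Bool, A = abr r j A' ∧ (r.1 = j → A' r.2 = true ∧ A' (r.2 + 1) = true) := by
  by_cases hrj : r.1 = j
  · have hr2 := hr.2
    rw [hrj] at hr2
    have hfalse : ∀ g, (g = r.2 ∨ g = r.2 + 1) → A g = false := by
      intro g hg
      by_contra hcon
      have hcon : A g = true := by simpa using hcon
      have hg' : g ≤ str D.pc j := by omega
      have h1 := hs_ge (D := D) (U := U) hg' hcon
      have h2 := hA _ (cl_gap hc hj g hg')
      have h3 : 1 ≤ rs D.pc U r (r.1 ≤ j) j (dl (fre D.pc U j (gl D.pc j g))) := by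
        unfold rs
        rw [if_pos hrj.le, hrj]
        rcases hg with rfl | rfl
        · simp only [dl, if_true]
          omega
        · simp only [dl, if_true]
          omega
      unfold tt at h2
      omega
    refine ⟨fun g => if g = r.2 ∨ g = r.2 + 1 then true else A g, ?_, fun _ => ?_⟩
    · funext g
      unfold abr
      by_cases hg : g = r.2 ∨ g = r.2 + 1
      · rw [if_pos ⟨hrj.symm, hg⟩, hfalse g hg]
      · rw [if_neg (fun h => hg h.2)]
        beta_reduce
        rw [if_neg hg]
    · simp
  · refine ⟨A, ?_, fun h => absurd h hrj⟩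
    funext g
    unfold abr
    rw [if_neg (fun h => hrj h.1.symm)]

/-- all configurations with the right numbers of holes are reachable -/
lemma reach (hc : D.ConnU U) (hU : U ⊆ D.C) {m : ℕ → Mk} {r : ℕ × ℕ} (hr : D.IsRoot r) {j : ℕ}
    (hj : j ≤ D.n) : ∀ A : ℕ → Bool,
    (∀ c ∈ cl D U j, tt D.pc U m r (r.1 ≤ j) j A (dl c) = 1) →
    ∃ X : ℕ → ℕ → Bool, X 0 0 = true ∧ X 0 1 = true ∧
      (r.1 ≤ j → X r.1 r.2 = true ∧ X r.1 (r.2 + 1) = true) ∧
      (∀ i < j, stp (D.pc i) (i ∈ U) (m i) (str D.pc i) (abr r i (X i)) (X (i + 1))) ∧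
      A = abr r j (X j) := by
  induction j with
  | zero =>
    intro A hA
    obtain ⟨A', h1, h2⟩ := unabr hc hr hj hA
    have h3 : ∀ c ∈ cl D U 0, tt D.pc U m r (r.1 < 0) 0 A' (dl c) = 1 := by
      intro c hc'
      rw [← tt_abr hr (fun h => h2 h), ← h1]
      exact hA c hc'
    have h4 : ∀ c ∈ cl D U 0, hs D.pc U 0 A' (dl c) = 1 := by
      intro c hc'
      have := h3 c hc'
      unfold tt ms rs at this
      simpa using this
    refine ⟨fun _ => A', ?_, ?_, fun hle => ?_, fun i hi => absurd hi (Nat.not_lt_zero _), h1⟩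
    · have := h4 0 (by simp [cl])
      by_contra hcon
      have hcon : A' 0 = false := by simpa using hcon
      unfold hs at this
      simp [str, Finset.sum_range_succ, fre, gl, dl, hcon] at this
    · have := h4 1 (by simp [cl])
      by_contra hcon
      have hcon : A' 1 = false := by simpa using hcon
      unfold hs at this
      simp [str, Finset.sum_range_succ, fre, gl, dl, hcon] at this
    · exact h2 (Nat.le_zero.1 hle)
  | succ j ih =>
    intro A hA
    have hj' : j < D.n := hj
    obtain ⟨A', h1, h2⟩ := unabr hc hr hj hA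
    have h3 : ∀ c ∈ cl D U (j + 1), tt D.pc U m r (r.1 ≤ j) (j + 1) A' (dl c) = 1 := by
      intro c hc'
      rw [tt_iff (Nat.lt_succ_iff.symm), ← tt_abr hr (fun h => h2 h), ← h1]
      exact hA c hc'
    have hB : ∃ B : ℕ → Bool, stp (D.pc j) (j ∈ U) (m j) (str D.pc j) B A' ∧
        ∀ c ∈ cl D U j, tt D.pc U m r (r.1 ≤ j) j B (dl c) = 1 := by
      match hp : D.pc j with
      | .cross k p =>
        by_cases hjU : j ∈ U
        · rw [← hp]
          exact back_crossU hU hr hj' (fun h => h) hp hjU (cl_gap hc hj) h3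
        · refine ⟨A', ⟨fun h => absurd h hjU, fun _ _ _ => rfl⟩, fun c hc' => ?_⟩
          rw [← tt_omit hU hr hj' (fun h => h) hp hjU (Y := A') (fun _ _ => rfl)]
          exact h3 c (by rw [cl_crossN hp hjU]; exact hc')
      | .cup k s =>
        rw [← hp]
        exact back_cup hU hr hj' (fun h => h) hp (cl_gap hc hj) h3
      | .cap k s =>
        rw [← hp]
        exact back_cap hc hU hr hj' (fun h => h) hp h3
    obtain ⟨B, hB1, hB2⟩ := hB
    obtain ⟨X, x0, x1, xr, xs, xe⟩ := ih (by omega) B hB2
    refine ⟨fun i => if i ≤ j then X i else A', ?_, ?_, fun hle => ?_, fun i hi => ?_, ?_⟩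
    · simpa using x0
    · simpa using x1
    · by_cases hle' : r.1 ≤ j
      · simp only [if_pos hle']
        exact xr hle'
      · simp only [if_neg hle']
        exact h2 (by omega)
    · by_cases hij : i < j
      · simp only [if_pos hij.le, if_pos (show i + 1 ≤ j from hij)]
        exact xs i hij
      · have : i = j := by omega
        subst this
        simp only [if_pos le_rfl, if_neg (show ¬ i + 1 ≤ i by omega)]
        rw [← xe]
        exact hB1
    · simp only [if_neg (show ¬ j + 1 ≤ j by omega)]
      exact h1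

theorem kst_hist (hc : D.ConnU U) (hU : U ⊆ D.C) {m : ℕ → Mk} {r : ℕ × ℕ} (hr : D.IsRoot r)
    (h : Kst D.pc D.n U r m) : Hist D.pc D.n U r m := by
  obtain ⟨k1, k2, k3⟩ := h
  have hfl : U.filter (fun i => i < D.n) = U := by
    refine Finset.filter_true_of_mem (fun i hi => ?_)
    exact Finset.mem_range.1 (Finset.mem_filter.1 (hU hi)).1
  have hside := sides_ne (U := U) hr.1 hr.2
  -- values of the sums
  have hval : ∀ c, tt D.pc U m r (r.1 ≤ D.n) D.n (fun _ => false) (dl c) =
      (∑ i ∈ U, dl c (fre D.pc U D.n (cor D.pc i (m i)))) +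
      (dl c (fre D.pc U D.n (gl D.pc r.1 r.2)) + dl c (fre D.pc U D.n (gl D.pc r.1 (r.2 + 1)))) := by
    intro c
    unfold tt hs ms rs
    rw [hfl, if_pos hr.1]
    simp
  have hle : ∀ c, tt D.pc U m r (r.1 ≤ D.n) D.n (fun _ => false) (dl c) ≤ 1 := by
    intro c
    rw [hval]
    by_cases hcu : ∃ i ∈ U, fre D.pc U D.n (cor D.pc i (m i)) = c
    · obtain ⟨i, hi, hic⟩ := hcu
      have e1 : ∑ x ∈ U, dl c (fre D.pc U D.n (cor D.pc x (m x))) = 1 := by
        rw [Finset.sum_eq_single i]
        · simp [dl, hic]
        · intro x hx hxi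
          simp only [dl]
          rw [if_neg]
          intro h
          exact hxi (k1 x hx i hi (h.trans hic.symm))
        · intro h
          exact absurd hi h
      have e2 : dl c (fre D.pc U D.n (gl D.pc r.1 r.2)) = 0 := by
        simp only [dl]
        rw [if_neg]
        intro h
        exact k2 i hi (hic.trans h.symm)
      have e3 : dl c (fre D.pc U D.n (gl D.pc r.1 (r.2 + 1))) = 0 := by
        simp only [dl]
        rw [if_neg]
        intro h
        exact k3 i hi (hic.trans h.symm)
      rw [e1, e2, e3]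
    · have e1 : ∑ x ∈ U, dl c (fre D.pc U D.n (cor D.pc x (m x))) = 0 := by
        refine Finset.sum_eq_zero (fun x hx => ?_)
        simp only [dl]
        rw [if_neg]
        intro h
        exact hcu ⟨x, hx, h⟩
      rw [e1]
      simp only [dl]
      split_ifs with h1 h2
      · exact absurd (h1.trans h2.symm) hside
      · omega
      · omega
      · omega
  -- the sum over all classes
  have hsum : ∑ c ∈ cl D U D.n, tt D.pc U m r (r.1 ≤ D.n) D.n (fun _ => false) (dl c) =
      (cl D U D.n).card := by
    simp only [hval, Finset.sum_add_distrib]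
    rw [Finset.sum_comm]
    have hone : ∀ x ∈ cl D U D.n, ∑ c ∈ cl D U D.n, dl c x = 1 := by
      intro x hx
      simp only [dl]
      rw [Finset.sum_ite_eq, if_pos hx]
    rw [Finset.sum_congr rfl (fun i hi => hone _ (cl_cor hc hU hi (m i)
      (Finset.mem_range.1 (Finset.mem_filter.1 (hU hi)).1) le_rfl)),
      hone _ (cl_old hc hr.1 hr.2.le hr.1 le_rfl), hone _ (cl_old hc hr.1 hr.2 hr.1 le_rfl)]
    have := cl_card hc hU (j := D.n) le_rfl
    rw [hfl, D.hfin] at this
    simp only [Finset.sum_const, smul_eq_mul, mul_one]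
    omega
  have hall : ∀ c ∈ cl D U D.n, tt D.pc U m r (r.1 ≤ D.n) D.n (fun _ => false) (dl c) = 1 := by
    have h1 : ∑ c ∈ cl D U D.n, tt D.pc U m r (r.1 ≤ D.n) D.n (fun _ => false) (dl c) =
        ∑ c ∈ cl D U D.n, 1 := by
      rw [hsum]
      simp
    exact (Finset.sum_eq_sum_iff_of_le (fun c _ => hle c)).1 h1
  obtain ⟨X, x0, x1, xr, xs, xe⟩ := reach hc hU hr le_rfl _ hall
  refine ⟨X, x0, x1, (xr hr.1).1, (xr hr.1).2, xs, ?_, ?_⟩
  · rw [← xe]
  · rw [← xe]

end

/-- The markings of the histories are the Kauffman states. -/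
theorem hist_iff_kst36 (D : Dia) (U : Finset ℕ) (hU : U ⊆ D.C) (hc : D.ConnU U) (r : ℕ × ℕ)
    (hr : D.IsRoot r) (m : ℕ → Mk) : Hist D.pc D.n U r m ↔ Kst D.pc D.n U r m :=
  ⟨HK.hist_kst hU hr, HK.kst_hist hc hU hr⟩

end HK

end LGAlt
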