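import Pool.Agent.LGAlt2.Circ

/-!
# Heights

* `hgt W j g` : the sum of the orientations of the strands of the circle `W` on the right of the gap `g`.
  `hgt_label` : there is a function `h` on labels such that `hgt W j g = h (gl j g)`: at a crossing nothing
  changes (put `h (j + 2) = hgt W (j + 1) (k + 1)`), at a cup or a cap the two strands belong to the same
  circle and have opposite orientations.  At a cap this shows `h (gl j k) = h (gl j (k + 2))`, at a crossing
  `h (j + 2) = h (gl j (k + 1))`.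
* `hgt_zero` : by `hgt_label` and `gl_zero` the height at the leftmost gap is the same at all levels;
  `last_circle` follows from this for `j = n` (where `str = 1`).
* `Hl W` : this function.  `Hl_F` : it is constant on faces (`fre_const`), for all `U`.
* `HC W` : the height of `W` at the other circles (constant on them by `circle_const`).
* `Eta W` : the smaller one of the heights on the two sides of the circle `W` (the one on the right-hand
  side).  It is constant along `W` by `circle_const`.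
-/

namespace LGAlt

/-- the height of the gap `g` at the level `j` with respect to the circle `W` -/
def Dia.hgt (D : Dia) (W j g : ℕ) : ℤ :=
  ∑ i ∈ (Finset.range (str D.pc j)).filter (fun i => g ≤ i ∧ D.ci (sl D.pc j i) = W),
    eps (ori D.pc j i)

/-- the contribution of one strand to the heights of the circle `W` -/
def Dia.wt (D : Dia) (W j i : ℕ) : ℤ :=
  if D.ci (sl D.pc j i) = W then eps (ori D.pc j i) else 0

lemma hgt_eq (D : Dia) (W j g : ℕ) :
    D.hgt W j g = ∑ i ∈ Finset.Ico g (str D.pc j), D.wt W j i := by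
  unfold Dia.hgt Dia.wt
  rw [← Finset.sum_filter]
  apply Finset.sum_congr _ (fun _ _ => rfl)
  ext i
  simp only [Finset.mem_filter, Finset.mem_range, Finset.mem_Ico]
  tauto

lemma hgt_step' (D : Dia) (W j i : ℕ) (hi : i < str D.pc j) :
    D.hgt W j i = D.hgt W j (i + 1) + D.wt W j i := by
  rw [hgt_eq, hgt_eq, Finset.sum_eq_sum_Ico_succ_bot hi]
  ring

lemma hgt_step (D : Dia) (W j i : ℕ) (hi : i < str D.pc j) :
    D.hgt W j i = D.hgt W j (i + 1) + (if D.ci (sl D.pc j i) = W then eps (ori D.pc j i) else 0) :=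
  hgt_step' D W j i hi

lemma eps_not (b : Bool) : eps b + eps (!b) = 0 := by
  cases b <;> simp [eps]

lemma str_cross (pc : ℕ → Piece) {j k : ℕ} {pos : Bool} (h : pc j = .cross k pos) :
    str pc (j + 1) = str pc j := by
  simp only [str, h]

lemma str_cup (pc : ℕ → Piece) {j k : ℕ} {s : Bool} (h : pc j = .cup k s) :
    str pc (j + 1) = str pc j + 2 := by
  simp only [str, h]

lemma str_cap (pc : ℕ → Piece) {j k : ℕ} {s : Bool} (h : pc j = .cap k s) :
    str pc (j + 1) = str pc j - 2 := by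
  simp only [str, h]

/-! ### Weights -/

lemma wt_cross (D : Dia) (W : ℕ) {j k : ℕ} {pos : Bool} (h : D.pc j = .cross k pos) (i : ℕ) :
    D.wt W (j + 1) i = D.wt W j i := by
  simp only [Dia.wt, sl, ori, h]

lemma wt_cup_lt (D : Dia) (W : ℕ) {j k : ℕ} {s : Bool} (h : D.pc j = .cup k s) {i : ℕ}
    (hi : i < k) : D.wt W (j + 1) i = D.wt W j i := by
  simp only [Dia.wt, sl, ori, h, hi, if_true]

lemma wt_cup_ge (D : Dia) (W : ℕ) {j k : ℕ} {s : Bool} (h : D.pc j = .cup k s) {i : ℕ}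
    (hi : k ≤ i) : D.wt W (j + 1) (i + 2) = D.wt W j i := by
  have h1 : ¬ i + 2 < k := by omega
  have h2 : ¬ i + 2 < k + 2 := by omega
  have h3 : ¬ i + 2 = k := by omega
  have h4 : ¬ i + 2 = k + 1 := by omega
  have h5 : i + 2 - 2 = i := by omega
  simp only [Dia.wt, sl, ori, h, h1, h2, h3, h4, h5, if_false]

lemma sl_cup (D : Dia) {j k : ℕ} {s : Bool} (h : D.pc j = .cup k s) :
    sl D.pc (j + 1) k = j + 1 ∧ sl D.pc (j + 1) (k + 1) = j + 1 := by
  have h1 : ¬ k + 1 < k := by omega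
  have h2 : k + 1 < k + 2 := by omega
  constructor
  · simp [sl, h]
  · simp [sl, h, h1]

lemma ori_cup (D : Dia) {j k : ℕ} {s : Bool} (h : D.pc j = .cup k s) :
    ori D.pc (j + 1) k = s ∧ ori D.pc (j + 1) (k + 1) = !s := by
  have h1 : ¬ k + 1 < k := by omega
  constructor
  · simp [ori, h]
  · simp [ori, h, h1]

lemma wt_cup_new (D : Dia) (W : ℕ) {j k : ℕ} {s : Bool} (h : D.pc j = .cup k s) :
    D.wt W (j + 1) k + D.wt W (j + 1) (k + 1) = 0 := by
  unfold Dia.wt
  rw [(sl_cup D h).1, (sl_cup D h).2, (ori_cup D h).1, (ori_cup D h).2]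
  split_ifs
  · exact eps_not s
  · rfl

lemma wt_cap_lt (D : Dia) (W : ℕ) {j k : ℕ} {s : Bool} (h : D.pc j = .cap k s) {i : ℕ}
    (hi : i < k) : D.wt W (j + 1) i = D.wt W j i := by
  simp only [Dia.wt, sl, ori, h, hi, if_true]

lemma wt_cap_ge (D : Dia) (W : ℕ) {j k : ℕ} {s : Bool} (h : D.pc j = .cap k s) {i : ℕ}
    (hi : k ≤ i) : D.wt W (j + 1) i = D.wt W j (i + 2) := by
  have h1 : ¬ i < k := by omega
  simp only [Dia.wt, sl, ori, h, h1, if_false]

lemma ci_cap (D : Dia) {j k : ℕ} {s : Bool} (hj : j < D.n) (h : D.pc j = .cap k s) :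
    D.ci (sl D.pc j (k + 1)) = D.ci (sl D.pc j k) :=
  (cre_cap D.pc j D.n hj k s h).symm

lemma wt_cap_old (D : Dia) (W : ℕ) {j k : ℕ} {s : Bool} (hj : j < D.n) (h : D.pc j = .cap k s) :
    D.wt W j k + D.wt W j (k + 1) = 0 := by
  obtain ⟨_, h1, h2, _⟩ := D.hcap j hj k s h
  unfold Dia.wt
  rw [ci_cap D hj h, h1, h2]
  split_ifs
  · exact eps_not s
  · rfl

/-! ### Heights -/

lemma hgt_cross (D : Dia) (W : ℕ) {j k : ℕ} {pos : Bool} (h : D.pc j = .cross k pos) (g : ℕ) :
    D.hgt W (j + 1) g = D.hgt W j g := by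
  rw [hgt_eq, hgt_eq, str_cross D.pc h]
  exact Finset.sum_congr rfl (fun i _ => wt_cross D W h i)

lemma hgt_cup_ge (D : Dia) (W : ℕ) {j k : ℕ} {s : Bool} (h : D.pc j = .cup k s) {g : ℕ}
    (hg : k ≤ g) : D.hgt W (j + 1) (g + 2) = D.hgt W j g := by
  rw [hgt_eq, hgt_eq, str_cup D.pc h]
  rw [← Finset.sum_Ico_add' (fun i => D.wt W (j + 1) i) g (str D.pc j) 2]
  apply Finset.sum_congr rfl
  intro i hi
  rw [Finset.mem_Ico] at hi
  exact wt_cup_ge D W h (by omega)

lemma hgt_cup_le (D : Dia) (W : ℕ) {j k : ℕ} {s : Bool} (hj : j < D.n) (h : D.pc j = .cup k s)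
    {g : ℕ} (hg : g ≤ k) : D.hgt W (j + 1) g = D.hgt W j g := by
  obtain ⟨hk, _⟩ := D.hcup j hj k s h
  have hs := str_cup D.pc h
  have e1 : D.hgt W (j + 1) k = D.hgt W j k := by
    rw [hgt_step' D W (j + 1) k (by omega), hgt_step' D W (j + 1) (k + 1) (by omega),
      show k + 1 + 1 = k + 2 from rfl, hgt_cup_ge D W h (le_refl k)]
    have := wt_cup_new D W h
    linarith
  have key : ∀ d, d ≤ k → D.hgt W (j + 1) (k - d) = D.hgt W j (k - d) := by
    intro d
    induction d with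
    | zero => intro _; exact e1
    | succ d ih =>
      intro hd
      have e2 : k - (d + 1) + 1 = k - d := by omega
      rw [hgt_step' D W (j + 1) (k - (d + 1)) (by omega), hgt_step' D W j (k - (d + 1)) (by omega),
        e2, ih (by omega), wt_cup_lt D W h (by omega)]
  have := key (k - g) (by omega)
  rwa [show k - (k - g) = g by omega] at this

lemma hgt_cap_ge (D : Dia) (W : ℕ) {j k : ℕ} {s : Bool} (hj : j < D.n) (h : D.pc j = .cap k s)
    {g : ℕ} (hg : k ≤ g) : D.hgt W (j + 1) g = D.hgt W j (g + 2) := by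
  obtain ⟨hk, _⟩ := D.hcap j hj k s h
  rw [hgt_eq, hgt_eq, str_cap D.pc h]
  have e : str D.pc j = (str D.pc j - 2) + 2 := by omega
  rw [e, ← Finset.sum_Ico_add' (fun i => D.wt W j i) g (str D.pc j - 2) 2]
  rw [← e]
  apply Finset.sum_congr rfl
  intro i hi
  rw [Finset.mem_Ico] at hi
  exact wt_cap_ge D W h (by omega)

lemma hgt_cap_old (D : Dia) (W : ℕ) {j k : ℕ} {s : Bool} (hj : j < D.n)
    (h : D.pc j = .cap k s) : D.hgt W j k = D.hgt W j (k + 2) := by
  obtain ⟨hk, _⟩ := D.hcap j hj k s h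
  rw [hgt_step' D W j k (by omega), hgt_step' D W j (k + 1) (by omega)]
  have := wt_cap_old D W hj h
  rw [show k + 1 + 1 = k + 2 from rfl]
  linarith

lemma hgt_cap_le (D : Dia) (W : ℕ) {j k : ℕ} {s : Bool} (hj : j < D.n) (h : D.pc j = .cap k s)
    {g : ℕ} (hg : g ≤ k) : D.hgt W (j + 1) g = D.hgt W j g := by
  obtain ⟨hk, _⟩ := D.hcap j hj k s h
  have hs := str_cap D.pc h
  have e1 : D.hgt W (j + 1) k = D.hgt W j k := by
    rw [hgt_cap_ge D W hj h (le_refl k), hgt_cap_old D W hj h]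
  have key : ∀ d, d ≤ k → D.hgt W (j + 1) (k - d) = D.hgt W j (k - d) := by
    intro d
    induction d with
    | zero => intro _; exact e1
    | succ d ih =>
      intro hd
      have e2 : k - (d + 1) + 1 = k - d := by omega
      rw [hgt_step' D W (j + 1) (k - (d + 1)) (by omega), hgt_step' D W j (k - (d + 1)) (by omega),
        e2, ih (by omega), wt_cap_lt D W h (by omega)]
  have := key (k - g) (by omega)
  rwa [show k - (k - g) = g by omega] at this

/-- the height function on labels -/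
def hlab (D : Dia) (W : ℕ) : ℕ → ℤ
  | 0 => D.hgt W 0 0
  | 1 => D.hgt W 0 1
  | j + 2 => D.hgt W (j + 1) ((D.pc j).at + 1)

lemma hgt_hlab (D : Dia) (W : ℕ) : ∀ j ≤ D.n, ∀ g ≤ str D.pc j,
    D.hgt W j g = hlab D W (gl D.pc j g) := by
  intro j
  induction j with
  | zero =>
    intro _ g hg
    have hg' : g ≤ 1 := hg
    interval_cases g <;> rfl
  | succ j ih =>
    intro hj g hg
    have hj' : j < D.n := by omega
    have ih' := ih (by omega)
    rcases hp : D.pc j with ⟨k, pos⟩ | ⟨k, s⟩ | ⟨k, s⟩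
    · have hs := str_cross D.pc hp
      have hgl : gl D.pc (j + 1) g = if g = k + 1 then j + 2 else gl D.pc j g := by
        simp only [gl, hp]
      rw [hgl]
      split_ifs with h1
      · subst h1
        simp only [hlab, hp, Piece.at]
      · rw [hgt_cross D W hp, ih' g (by omega)]
    · have hs := str_cup D.pc hp
      have hgl : gl D.pc (j + 1) g = if g ≤ k then gl D.pc j g else if g = k + 1 then j + 2
          else gl D.pc j (g - 2) := by
        simp only [gl, hp]
      rw [hgl]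
      have hk := (D.hcup j hj' k s hp).1
      split_ifs with h1 h2
      · rw [hgt_cup_le D W hj' hp h1, ih' g (by omega)]
      · subst h2
        simp only [hlab, hp, Piece.at]
      · obtain ⟨g', rfl⟩ : ∃ g', g = g' + 2 := ⟨g - 2, by omega⟩
        rw [hgt_cup_ge D W hp (by omega), ih' g' (by omega)]
        simp
    · have hs := str_cap D.pc hp
      have hgl : gl D.pc (j + 1) g = if g ≤ k then gl D.pc j g else gl D.pc j (g + 2) := by
        simp only [gl, hp]
      rw [hgl]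
      have hk := (D.hcap j hj' k s hp).1
      split_ifs with h1
      · rw [hgt_cap_le D W hj' hp h1, ih' g (by omega)]
      · rw [hgt_cap_ge D W hj' hp (by omega), ih' (g + 2) (by omega)]

theorem hgt_label (D : Dia) (W : ℕ) : ∃ h : ℕ → ℤ,
    (∀ j ≤ D.n, ∀ g ≤ str D.pc j, D.hgt W j g = h (gl D.pc j g)) ∧
    (∀ j < D.n, ∀ k pos, D.pc j = .cross k pos → h (j + 2) = h (gl D.pc j (k + 1))) ∧
    (∀ j < D.n, ∀ k s, D.pc j = .cap k s → h (gl D.pc j k) = h (gl D.pc j (k + 2))) := by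
  refine ⟨hlab D W, hgt_hlab D W, ?_, ?_⟩
  · intro j hj k pos hp
    have hk := (D.hcross j hj k pos hp).1
    rw [← hgt_hlab D W j hj.le (k + 1) (by omega), ← hgt_cross D W hp]
    simp only [hlab, hp, Piece.at]
  · intro j hj k s hp
    have hk := (D.hcap j hj k s hp).1
    rw [← hgt_hlab D W j hj.le k (by omega), ← hgt_hlab D W j hj.le (k + 2) (by omega),
      hgt_cap_old D W hj hp]

lemma hgt_zero (D : Dia) (W j : ℕ) (hj : j ≤ D.n) :
    D.hgt W j 0 = if W = D.ci 0 then 1 else 0 := by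
  rw [hgt_hlab D W j hj 0 (Nat.zero_le _), gl_zero D.pc D.n (posOK D) j hj]
  have h0 : (0 : ℕ) < str D.pc 0 := by simp [str]
  change D.hgt W 0 0 = _
  rw [hgt_step' D W 0 0 h0]
  have h1 : D.hgt W 0 (0 + 1) = 0 := by
    rw [hgt_eq]
    simp [str]
  rw [h1]
  simp only [Dia.wt, sl, ori, eps, if_true, zero_add]
  by_cases h : W = D.ci 0
  · rw [if_pos h, if_pos h.symm]
  · rw [if_neg h, if_neg (fun h' => h h'.symm)]

/-- the last strand belongs to the circle of the first one -/
lemma last_circle (D : Dia) : D.ci (sl D.pc D.n 0) = D.ci 0 ∧ ori D.pc D.n 0 = true := by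
  have h := hgt_zero D (D.ci 0) D.n le_rfl
  have h0 : (0 : ℕ) < str D.pc D.n := by rw [D.hfin]; omega
  rw [if_pos rfl, hgt_step' D (D.ci 0) D.n 0 h0] at h
  have h1 : D.hgt (D.ci 0) D.n (0 + 1) = 0 := by
    rw [hgt_eq, D.hfin]
    simp
  rw [h1, zero_add] at h
  unfold Dia.wt at h
  split_ifs at h with h2
  · refine ⟨h2, ?_⟩
    unfold eps at h
    split_ifs at h with h3
    · exact h3
  · exact absurd h (by norm_num)

/-- the height as a function of labels -/
noncomputable def Dia.Hl (D : Dia) (W : ℕ) : ℕ → ℤ := (hgt_label D W).choose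

lemma Hl_eq (D : Dia) (W j : ℕ) (hj : j ≤ D.n) (g : ℕ) (hg : g ≤ str D.pc j) :
    D.Hl W (gl D.pc j g) = D.hgt W j g := ((hgt_label D W).choose_spec.1 j hj g hg).symm

/-- heights are constant on faces -/
lemma Hl_F (D : Dia) (W : ℕ) (U : Finset ℕ) (x y : ℕ) (h : D.F U x = D.F U y) :
    D.Hl W x = D.Hl W y := by
  refine fre_const D.pc U D.n (D.Hl W) ?_ ?_ x y h
  · intro j hj k pos hp _
    exact (hgt_label D W).choose_spec.2.1 j hj k pos hp
  · exact (hgt_label D W).choose_spec.2.2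

/-- the data of a crossing -/
lemma C_data (D : Dia) {c : ℕ} (hc : c ∈ D.C) :
    c < D.n ∧ ∃ k pos, D.pc c = .cross k pos ∧ (D.pc c).at = k ∧ k + 2 ≤ str D.pc c ∧
      ori D.pc c k = true ∧ ori D.pc c (k + 1) = true := by
  unfold Dia.C at hc
  rw [Finset.mem_filter, Finset.mem_range] at hc
  refine ⟨hc.1, ?_⟩
  rcases hp : D.pc c with ⟨k, pos⟩ | ⟨k, s⟩ | ⟨k, s⟩
  · obtain ⟨h1, h2, h3, _⟩ := D.hcross c hc.1 k pos hp
    exact ⟨k, pos, rfl, rfl, h1, h2, h3⟩
  · rw [hp] at hc
    simp [Piece.isX] at hc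
  · rw [hp] at hc
    simp [Piece.isX] at hc

lemma Hl_T (D : Dia) (W c : ℕ) (hc : c ∈ D.C) : D.Hl W (cor D.pc c .T) = D.Hl W (cor D.pc c .B) := by
  obtain ⟨hn, k, pos, hp, hat, hk, ho1, ho2⟩ := C_data D hc
  simp only [cor, hat]
  exact (hgt_label D W).choose_spec.2.1 c hn k pos hp

lemma Hl_B' (D : Dia) (W : ℕ) {c k : ℕ} (hn : c < D.n) (hat : (D.pc c).at = k)
    (hk : k + 2 ≤ str D.pc c) : D.Hl W (cor D.pc c .B) = D.hgt W c (k + 1) := by
  simp only [cor, hat]
  exact Hl_eq D W c hn.le (k + 1) (by omega)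

lemma Hl_L (D : Dia) (W c : ℕ) (hc : c ∈ D.C) :
    D.Hl W (cor D.pc c .L) = D.Hl W (cor D.pc c .B) + (if D.cl c = W then 1 else 0) := by
  obtain ⟨hn, k, pos, hp, hat, hk, ho1, ho2⟩ := C_data D hc
  rw [Hl_B' D W hn hat hk]
  simp only [cor, hat, Dia.cl]
  rw [Hl_eq D W c hn.le k (by omega), hgt_step D W c k (by omega), ho1]
  simp [eps]

lemma Hl_R (D : Dia) (W c : ℕ) (hc : c ∈ D.C) :
    D.Hl W (cor D.pc c .B) = D.Hl W (cor D.pc c .R) + (if D.cr c = W then 1 else 0) := by
  obtain ⟨hn, k, pos, hp, hat, hk, ho1, ho2⟩ := C_data D hc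
  rw [Hl_B' D W hn hat hk]
  simp only [cor, hat, Dia.cr]
  rw [Hl_eq D W c hn.le (k + 2) (by omega), hgt_step D W c (k + 1) (by omega), ho2]
  simp [eps]

lemma Hl_root (D : Dia) (W : ℕ) (r : ℕ × ℕ) (hr : D.IsRoot r) :
    D.Hl W (gl D.pc r.1 r.2) = D.Hl W (gl D.pc r.1 (r.2 + 1))
      + (if D.rc r = W then eps (ori D.pc r.1 r.2) else 0) := by
  obtain ⟨h1, h2⟩ := hr
  rw [Hl_eq D W r.1 h1 r.2 (by omega), Hl_eq D W r.1 h1 (r.2 + 1) (by omega)]
  exact hgt_step D W r.1 r.2 h2

/-- the two faces at a root are different -/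
lemma star_ne (D : Dia) (U : Finset ℕ) (r : ℕ × ℕ) (hr : D.IsRoot r) :
    D.F U (gl D.pc r.1 r.2) ≠ D.F U (gl D.pc r.1 (r.2 + 1)) := by
  intro h
  have h1 := Hl_F D (D.rc r) U _ _ h
  have h2 := Hl_root D (D.rc r) r hr
  rw [h1, if_pos rfl] at h2
  have h3 : eps (ori D.pc r.1 r.2) = 0 := by linarith
  unfold eps at h3
  split_ifs at h3
  norm_num at h3

theorem HC_exists (D : Dia) (W : ℕ) : ∃ H : ℕ → ℤ, ∀ r, D.IsRoot r → D.rc r ≠ W →
    D.hgt W r.1 r.2 = H (D.rc r) := by
  classical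
  have key : ∀ A : ℕ, ∃ e : ℤ, ∀ r, D.IsRoot r → D.rc r = A → A ≠ W → D.hgt W r.1 r.2 = e := by
    intro A
    by_cases hex : ∃ r, D.IsRoot r ∧ D.rc r = A
    · obtain ⟨r0, hr0, hA0⟩ := hex
      refine ⟨D.hgt W r0.1 r0.2, fun r hr hA hAW => ?_⟩
      refine circle_const D A (fun j i => D.hgt W j i) ?_ ?_ ?_ r r0 hr hr0 hA hA0
      · intro j _ k pos hp i _ _
        exact hgt_cross D W hp i
      · intro j hj k s hp
        have hk := (D.hcup j hj k s hp).1
        have hs := str_cup D.pc hp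
        refine ⟨fun i hi _ => hgt_cup_le D W hj hp hi.le, fun i hi _ _ => hgt_cup_ge D W hp hi, ?_⟩
        intro hci
        have h1 : D.wt W (j + 1) k = 0 := by
          unfold Dia.wt
          rw [(sl_cup D hp).1, hci, if_neg hAW]
        have h2 := hgt_step' D W (j + 1) k (by omega)
        rw [h2, h1, add_zero]
      · intro j hj k s hp
        have hk := (D.hcap j hj k s hp).1
        refine ⟨fun i hi _ => hgt_cap_le D W hj hp hi.le, fun i hi _ _ => hgt_cap_ge D W hj hp hi, ?_⟩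
        intro hci
        have h1 : D.wt W j k = 0 := by
          unfold Dia.wt
          rw [hci, if_neg hAW]
        have h2 := hgt_step' D W j k (by omega)
        rw [h2, h1, add_zero]
    · exact ⟨0, fun r hr hA _ => absurd ⟨r, hr, hA⟩ hex⟩
  choose H hH using key
  exact ⟨H, fun r hr hne => hH (D.rc r) r hr rfl hne⟩

/-- the height of `W` at the circle `A ≠ W` -/
noncomputable def Dia.HC (D : Dia) (W : ℕ) : ℕ → ℤ := (HC_exists D W).choose

lemma HC_hgt (D : Dia) (W : ℕ) (r : ℕ × ℕ) (hr : D.IsRoot r) (h : D.rc r ≠ W) :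
    D.hgt W r.1 r.2 = D.HC W (D.rc r) := (HC_exists D W).choose_spec r hr h

lemma HC_root (D : Dia) (W : ℕ) (r : ℕ × ℕ) (hr : D.IsRoot r) (h : D.rc r ≠ W) :
    D.Hl W (gl D.pc r.1 r.2) = D.HC W (D.rc r) ∧
      D.Hl W (gl D.pc r.1 (r.2 + 1)) = D.HC W (D.rc r) := by
  have h1 := HC_hgt D W r hr h
  have h2 := Hl_root D W r hr
  rw [if_neg h, add_zero] at h2
  have h3 := Hl_eq D W r.1 hr.1 r.2 hr.2.le
  exact ⟨h3.trans h1, h2 ▸ (h3.trans h1)⟩

theorem Eta_exists (D : Dia) (W : ℕ) : ∃ e : ℤ, ∀ r, D.IsRoot r → D.rc r = W →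
    (if ori D.pc r.1 r.2 = true then D.hgt W r.1 (r.2 + 1) else D.hgt W r.1 r.2) = e := by
  by_cases hex : ∃ r, D.IsRoot r ∧ D.rc r = W
  · obtain ⟨r0, hr0, hA0⟩ := hex
    refine ⟨(if ori D.pc r0.1 r0.2 = true then D.hgt W r0.1 (r0.2 + 1) else D.hgt W r0.1 r0.2),
      fun r hr hA => ?_⟩
    refine circle_const D W (fun j i => if ori D.pc j i = true then D.hgt W j (i + 1)
      else D.hgt W j i) ?_ ?_ ?_ r r0 hr hr0 hA hA0
    · intro j _ k pos hp i _ _
      have ho : ori D.pc (j + 1) i = ori D.pc j i := by simp only [ori, hp]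
      rw [ho, hgt_cross D W hp, hgt_cross D W hp]
    · intro j hj k s hp
      have hk := (D.hcup j hj k s hp).1
      have hs := str_cup D.pc hp
      refine ⟨fun i hi _ => ?_, fun i hi _ _ => ?_, fun _ => ?_⟩
      · have ho : ori D.pc (j + 1) i = ori D.pc j i := by simp only [ori, hp, hi, if_true]
        rw [ho, hgt_cup_le D W hj hp hi, hgt_cup_le D W hj hp hi.le]
      · have h1 : ¬ i + 2 < k := by omega
        have h3 : ¬ i + 2 = k := by omega
        have h4 : ¬ i + 2 = k + 1 := by omega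
        have h5 : i + 2 - 2 = i := by omega
        have ho : ori D.pc (j + 1) (i + 2) = ori D.pc j i := by
          simp only [ori, hp, h1, h3, h4, h5, if_false]
        have e2 : D.hgt W (j + 1) (i + 2 + 1) = D.hgt W j (i + 1) :=
          hgt_cup_ge D W hp (g := i + 1) (by omega)
        rw [ho, e2, hgt_cup_ge D W hp hi]
      · have h1 := (ori_cup D hp).1
        have h2 := (ori_cup D hp).2
        rw [h1, h2]
        cases s
        · simp only [Bool.false_eq_true, if_false, Bool.not_false, if_true]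
          rw [hgt_cup_le D W hj hp le_rfl]
          exact (hgt_cup_ge D W hp (le_refl k)).symm
        · simp only [Bool.not_true, Bool.false_eq_true, if_false, if_true]
    · intro j hj k s hp
      obtain ⟨hk, ho1, ho2, _⟩ := D.hcap j hj k s hp
      refine ⟨fun i hi _ => ?_, fun i hi _ _ => ?_, fun _ => ?_⟩
      · have ho : ori D.pc (j + 1) i = ori D.pc j i := by simp only [ori, hp, hi, if_true]
        rw [ho, hgt_cap_le D W hj hp hi, hgt_cap_le D W hj hp hi.le]
      · have h1 : ¬ i < k := by omega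
        have ho : ori D.pc (j + 1) i = ori D.pc j (i + 2) := by
          simp only [ori, hp, h1, if_false]
        have e2 : D.hgt W (j + 1) (i + 1) = D.hgt W j (i + 2 + 1) :=
          hgt_cap_ge D W hj hp (g := i + 1) (by omega)
        rw [ho, e2, hgt_cap_ge D W hj hp hi]
      · rw [ho1, ho2]
        cases s
        · simp only [Bool.false_eq_true, if_false, Bool.not_false, if_true]
          exact hgt_cap_old D W hj hp
        · simp only [Bool.not_true, Bool.false_eq_true, if_false, if_true]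
  · exact ⟨0, fun r hr hA => absurd ⟨r, hr, hA⟩ hex⟩

/-- the height of `W` on its right-hand side -/
noncomputable def Dia.Eta (D : Dia) (W : ℕ) : ℤ := (Eta_exists D W).choose

/-- heights of `W` at a crossing of `W` -/
lemma Eta_cl (D : Dia) (W c : ℕ) (hc : c ∈ D.C) (h : D.cl c = W) :
    D.Hl W (cor D.pc c .B) = D.Eta W := by
  obtain ⟨hn, k, pos, hp, hat, hk, ho1, ho2⟩ := C_data D hc
  rw [Hl_B' D W hn hat hk]
  have h1 := (Eta_exists D W).choose_spec (c, k) ⟨hn.le, by simp only; omega⟩ (by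
    rw [← h]; simp only [Dia.rc, Dia.cl, hat])
  simp only [ho1, if_true] at h1
  exact h1

lemma Eta_cr (D : Dia) (W c : ℕ) (hc : c ∈ D.C) (h : D.cr c = W) :
    D.Hl W (cor D.pc c .B) = D.Eta W + 1 := by
  obtain ⟨hn, k, pos, hp, hat, hk, ho1, ho2⟩ := C_data D hc
  rw [Hl_B' D W hn hat hk]
  have h0 : D.ci (sl D.pc c (k + 1)) = W := by
    rw [← h]; simp only [Dia.cr, hat]
  have h1 := (Eta_exists D W).choose_spec (c, k + 1) ⟨hn.le, by simp only; omega⟩ h0
  simp only [ho2, if_true] at h1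
  rw [hgt_step D W c (k + 1) (by omega), if_pos h0, ho2]
  simp only [eps, if_true]
  rw [h1]
  rfl

/-- the height of `W` at the left circle of a crossing -/
lemma HC_left (D : Dia) (W c : ℕ) (hc : c ∈ D.C) (h : D.cl c ≠ W) :
    D.HC W (D.cl c) = D.Hl W (cor D.pc c .B) := by
  obtain ⟨hn, k, pos, hp, hat, hk, ho1, ho2⟩ := C_data D hc
  have h0 : D.rc (c, k) = D.cl c := by simp only [Dia.rc, Dia.cl, hat]
  have h1 := (HC_root D W (c, k) ⟨hn.le, by simp only; omega⟩ (by rw [h0]; exact h)).2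
  rw [h0] at h1
  rw [← h1]
  simp only [cor, hat]

/-- the height of `W` at the right circle of a crossing -/
lemma HC_right (D : Dia) (W c : ℕ) (hc : c ∈ D.C) (h : D.cr c ≠ W) :
    D.HC W (D.cr c) = D.Hl W (cor D.pc c .B) := by
  obtain ⟨hn, k, pos, hp, hat, hk, ho1, ho2⟩ := C_data D hc
  have h0 : D.rc (c, k + 1) = D.cr c := by simp only [Dia.rc, Dia.cr, hat]
  have h1 := (HC_root D W (c, k + 1) ⟨hn.le, by simp only; omega⟩ (by rw [h0]; exact h)).1
  rw [h0] at h1
  rw [← h1]
  simp only [cor, hat]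

/-- the height of `W` at the circle on the other side of a crossing of `W` -/
lemma HC_cl (D : Dia) (W c : ℕ) (hc : c ∈ D.C) (h : D.cl c = W) : D.HC W (D.cr c) = D.Eta W := by
  rw [HC_right D W c hc (fun h' => cl_ne_cr D c hc (h.trans h'.symm)), Eta_cl D W c hc h]

lemma HC_cr (D : Dia) (W c : ℕ) (hc : c ∈ D.C) (h : D.cr c = W) :
    D.HC W (D.cl c) = D.Eta W + 1 := by
  rw [HC_left D W c hc (fun h' => cl_ne_cr D c hc (h'.trans h.symm)), Eta_cr D W c hc h]

/-- crossings which do not touch `W` join circles with the same height -/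
lemma HC_edge (D : Dia) (W c : ℕ) (hc : c ∈ D.C) (h : D.cl c ≠ W) (h' : D.cr c ≠ W) :
    D.HC W (D.cl c) = D.HC W (D.cr c) := by
  rw [HC_left D W c hc h, HC_right D W c hc h']

end LGAlt
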