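import Pool.Agent.LGAlt.Check
import Pool.Agent.LGAlt.Word

/-!
# Isotopy invariance of the Links–Gould invariant

`Move m m'` : the words `m` and `m'` are related by one of the elementary moves of oriented tangle
diagrams all of whose crossings point upwards (planar isotopies and Reidemeister moves).
`LG_move` : `LG` does not change.  `LG_hopf`, `LG_trefoil` : two values.
-/

namespace LGAlt

/-- the piece moved `d` strands to the right -/
def Piece.up (d : ℕ) : Piece → Piece
  | .cross k pos => .cross (d + k) pos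
  | .cup k s => .cup (d + k) s
  | .cap k s => .cap (d + k) s

/-- the number of strands to the left of the piece -/
def Piece.lft : Piece → ℕ
  | .cross k _ => k
  | .cup k _ => k
  | .cap k _ => k

/-- the number of strands which enter the piece from below -/
def Piece.inw : Piece → ℕ
  | .cross _ _ => 2
  | .cup _ _ => 0
  | .cap _ _ => 2

/-- the number of strands which leave the piece at the top -/
def Piece.outw : Piece → ℕ
  | .cross _ _ => 2
  | .cup _ _ => 2
  | .cap _ _ => 0

/-- The elementary moves.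
`far` : two pieces which are far from each other change their heights;
`zig`, `zag` : a strand is straightened;
`rot` : a crossing of two downward strands, given as an upward crossing rotated to the left or to the
right, is the same;
`r1`, `r1'` : the first Reidemeister move;
`r2`, `r2'`, `r2''` : the second Reidemeister move for parallel and for antiparallel strands;
`r3` : the third Reidemeister move. -/
inductive Move : List Piece → List Piece → Prop
  | far (p q : Piece) : Move [p, q.up (p.lft + p.outw)] [q.up (p.lft + p.inw), p]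
  | zig (k : ℕ) (s : Bool) : Move [.cup (k + 1) (!s), .cap k s] []
  | zag (k : ℕ) (s : Bool) : Move [.cup k s, .cap (k + 1) (!s)] []
  | rot (k : ℕ) (pos : Bool) :
      Move [.cup (k + 2) true, .cup (k + 3) true, .cross (k + 2) pos, .cap (k + 1) false, .cap k false]
        [.cup k false, .cup (k + 1) false, .cross (k + 2) pos, .cap (k + 3) true, .cap (k + 2) true]
  | r1 (k : ℕ) (pos : Bool) : Move [.cup (k + 1) true, .cross k pos, .cap (k + 1) true] []
  | r1' (k : ℕ) (pos : Bool) : Move [.cup k false, .cross (k + 1) pos, .cap k false] []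
  | r2 (k : ℕ) (pos : Bool) : Move [.cross k pos, .cross k (!pos)] []
  | r2' (k : ℕ) (pos : Bool) :
      Move [.cup k false, .cross (k + 1) pos, .cap (k + 2) true, .cup (k + 2) true,
        .cross (k + 1) (!pos), .cap k false] []
  | r2'' (k : ℕ) (pos : Bool) :
      Move [.cup (k + 2) true, .cross (k + 1) pos, .cap k false, .cup k false,
        .cross (k + 1) (!pos), .cap (k + 2) true] []
  | r3 (k : ℕ) : Move [.cross k true, .cross (k + 1) true, .cross k true]
      [.cross (k + 1) true, .cross k true, .cross (k + 1) true]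

/-- the operator of a word -/
def wordT {K : Type*} [CommRing K] (a a' b b' : K) (w : List Piece) (F : List (Fin 4) → K) :
    List (Fin 4) → K :=
  w.foldr (pieceT a a' b b') F

section shift

variable {K : Type*} [CommRing K] (a a' b b' : K)

theorem crossT_up (M : (Fin 4 → Fin 4 → K) → Fin 4 → Fin 4 → K) (k : ℕ) (F : List (Fin 4) → K)
    (c v : List (Fin 4)) :
    crossT M (c.length + k) F (c ++ v) = crossT M k (fun u => F (c ++ u)) v := by
  induction c generalizing F with
  | nil => simp
  | cons x c ih =>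
    have e : (x :: c).length + k = (c.length + k) + 1 := by simp only [List.length_cons]; omega
    rw [e, List.cons_append]
    simp only [crossT]
    exact ih _

theorem cupT_up (w : Fin 4 → K) (k : ℕ) (F : List (Fin 4) → K)
    (c v : List (Fin 4)) :
    cupT w (c.length + k) F (c ++ v) = cupT w k (fun u => F (c ++ u)) v := by
  induction c generalizing F with
  | nil => simp
  | cons x c ih =>
    have e : (x :: c).length + k = (c.length + k) + 1 := by simp only [List.length_cons]; omega
    rw [e, List.cons_append]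
    simp only [cupT]
    exact ih _

theorem capT_up (w : Fin 4 → K) (k : ℕ) (F : List (Fin 4) → K)
    (c v : List (Fin 4)) :
    capT w (c.length + k) F (c ++ v) = capT w k (fun u => F (c ++ u)) v := by
  induction c generalizing F with
  | nil => simp
  | cons x c ih =>
    have e : (x :: c).length + k = (c.length + k) + 1 := by simp only [List.length_cons]; omega
    rw [e, List.cons_append]
    simp only [capT]
    exact ih _

theorem pieceT_up (p : Piece) (F : List (Fin 4) → K) (c v : List (Fin 4)) :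
    pieceT a a' b b' (p.up c.length) F (c ++ v) = pieceT a a' b b' p (fun u => F (c ++ u)) v := by
  cases p with
  | cross k pos => exact crossT_up _ k F c v
  | cup k s => exact cupT_up _ k F c v
  | cap k s => exact capT_up _ k F c v

theorem wordT_up (m : List Piece) (F : List (Fin 4) → K) (c v : List (Fin 4)) :
    wordT a a' b b' (m.map (Piece.up c.length)) F (c ++ v)
      = wordT a a' b b' m (fun u => F (c ++ u)) v := by
  induction m generalizing v with
  | nil => rfl
  | cons p m ih =>
    show pieceT a a' b b' (p.up c.length) (wordT a a' b b' (m.map (Piece.up c.length)) F) (c ++ v)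
      = pieceT a a' b b' p (wordT a a' b b' m (fun u => F (c ++ u))) v
    rw [pieceT_up]
    congr 1
    funext u
    exact ih u

theorem crossT_congr (M : (Fin 4 → Fin 4 → K) → Fin 4 → Fin 4 → K) (k : ℕ)
    (F G : List (Fin 4) → K) (v : List (Fin 4)) (h : ∀ u, u.length = v.length → F u = G u) :
    crossT M k F v = crossT M k G v := by
  induction k generalizing F G v with
  | zero =>
    match v with
    | [] => rfl
    | [_] => rfl
    | x :: y :: v =>
      simp only [crossT]
      congr 1
      funext i j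
      exact h _ (by simp)
  | succ k ih =>
    match v with
    | [] => rfl
    | x :: v =>
      simp only [crossT]
      exact ih _ _ v (fun u hu => h _ (by simp [hu]))

theorem cupT_congr (w : Fin 4 → K) (k : ℕ)
    (F G : List (Fin 4) → K) (v : List (Fin 4)) (h : ∀ u, u.length = v.length + 2 → F u = G u) :
    cupT w k F v = cupT w k G v := by
  induction k generalizing F G v with
  | zero =>
    simp only [cupT]
    refine Finset.sum_congr rfl fun x _ => ?_
    rw [h _ (by simp)]
  | succ k ih =>
    match v with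
    | [] => rfl
    | x :: v =>
      simp only [cupT]
      exact ih _ _ v (fun u hu => h _ (by simp [hu]))

theorem capT_congr (w : Fin 4 → K) (k : ℕ)
    (F G : List (Fin 4) → K) (v : List (Fin 4)) (h : ∀ u, u.length + 2 = v.length → F u = G u) :
    capT w k F v = capT w k G v := by
  induction k generalizing F G v with
  | zero =>
    match v with
    | [] => rfl
    | [_] => rfl
    | x :: y :: v =>
      simp only [capT]
      rw [h _ (by simp)]
  | succ k ih =>
    match v with
    | [] => rfl
    | x :: v =>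
      simp only [capT]
      exact ih _ _ v (fun u hu => h (x :: u) (by simp only [List.length_cons]; omega))

theorem OStep.len {p : Piece} {es es' : List Bool} (h : OStep p es es') :
    p.lft + p.inw ≤ es.length ∧ es'.length + p.inw = es.length + p.outw := by
  cases h with
  | cross l₁ l₂ pos =>
    refine ⟨?_, rfl⟩
    simp only [Piece.lft, Piece.inw, List.length_append, List.length_cons]
    omega
  | cup l₁ l₂ s => simp only [Piece.lft, Piece.inw, Piece.outw, List.length_append, List.length_cons]; omega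
  | cap l₁ l₂ s => simp only [Piece.lft, Piece.inw, Piece.outw, List.length_append, List.length_cons]; omega

theorem pieceT_congr {p : Piece} {es es' : List Bool} (hp : OStep p es es')
    (F G : List (Fin 4) → K) (v : List (Fin 4)) (hv : v.length = es.length)
    (h : ∀ u, u.length = es'.length → F u = G u) :
    pieceT a a' b b' p F v = pieceT a a' b b' p G v := by
  have hl := hp.len.2
  cases p with
  | cross k pos =>
    simp only [Piece.inw, Piece.outw] at hl
    exact crossT_congr _ k F G v (fun u hu => h u (by omega))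
  | cup k s =>
    simp only [Piece.inw, Piece.outw] at hl
    exact cupT_congr _ k F G v (fun u hu => h u (by omega))
  | cap k s =>
    simp only [Piece.inw, Piece.outw] at hl
    exact capT_congr _ k F G v (fun u hu => h u (by omega))

theorem wordT_congr {w : List Piece} {es es' : List Bool} (hw : OPath w es es')
    (F G : List (Fin 4) → K) (h : ∀ u, u.length = es'.length → F u = G u)
    (v : List (Fin 4)) (hv : v.length = es.length) :
    wordT a a' b b' w F v = wordT a a' b b' w G v := by
  induction hw generalizing v with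
  | nil x => exact h v hv
  | cons p w x y z hs _ ih => exact pieceT_congr a a' b b' hs _ _ v hv (fun u hu => ih h u hu)

theorem value_eq_wordT (w : List Piece) (v : List (Fin 4)) :
    value a a' b b' w v = wordT a a' b b' w (fun v => if v = [0] then 1 else 0) v := by
  induction w generalizing v with
  | nil => rfl
  | cons p w ih =>
    have e : value a a' b b' w = wordT a a' b b' w (fun v => if v = [0] then 1 else 0) := funext ih
    show pieceT a a' b b' p (value a a' b b' w) v = _
    rw [e]
    rfl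

theorem wordT_append (u w : List Piece) (F : List (Fin 4) → K) :
    wordT a a' b b' (u ++ w) F = wordT a a' b b' u (wordT a a' b b' w F) := by
  simp only [wordT, List.foldr_append]

theorem finL_crossT (pos : Bool) (k : ℕ) (X : List (Fin 4)) :
    FinL (fun f : List (Fin 4) → K => crossT (Rm a a' b b' pos) k f X) := by
  induction k generalizing X with
  | zero =>
    match X with
    | [] => simpa only [crossT] using FinL.zero
    | [_] => simpa only [crossT] using FinL.zero
    | x :: y :: xs =>
      simp only [crossT]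
      exact FinL.comp (M := fun (t : Fin 4 × Fin 4) (f : List (Fin 4) → K) => f (t.1 :: t.2 :: xs))
        (finL_Rm a a' b b' pos x y) (fun t => FinL.eval _)
  | succ k ih =>
    match X with
    | [] => simpa only [crossT] using FinL.zero
    | z :: xs =>
      simp only [crossT]
      obtain ⟨L, hL⟩ := ih xs
      exact ⟨L.map (fun c => (c.1, z :: c.2)), fun f => by rw [hL]; simp [List.map_map, Function.comp_def]⟩

theorem finL_cupT (w : Fin 4 → K) (k : ℕ) (X : List (Fin 4)) :
    FinL (fun f : List (Fin 4) → K => cupT w k f X) := by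
  induction k generalizing X with
  | zero =>
    simp only [cupT, Fin.sum_univ_four]
    repeat' first | exact FinL.eval _ | apply FinL.add | apply FinL.const_mul
  | succ k ih =>
    match X with
    | [] => simpa only [cupT] using FinL.zero
    | z :: xs =>
      simp only [cupT]
      obtain ⟨L, hL⟩ := ih xs
      exact ⟨L.map (fun c => (c.1, z :: c.2)), fun f => by rw [hL]; simp [List.map_map, Function.comp_def]⟩

theorem finL_capT (w : Fin 4 → K) (k : ℕ) (X : List (Fin 4)) :
    FinL (fun f : List (Fin 4) → K => capT w k f X) := by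
  induction k generalizing X with
  | zero =>
    match X with
    | [] => simpa only [capT] using FinL.zero
    | [_] => simpa only [capT] using FinL.zero
    | x :: y :: xs =>
      simp only [capT]
      split_ifs
      · exact FinL.const_mul _ (FinL.eval _)
      · exact FinL.zero
  | succ k ih =>
    match X with
    | [] => simpa only [capT] using FinL.zero
    | z :: xs =>
      simp only [capT]
      obtain ⟨L, hL⟩ := ih xs
      exact ⟨L.map (fun c => (c.1, z :: c.2)), fun f => by rw [hL]; simp [List.map_map, Function.comp_def]⟩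

theorem finL_pieceT (p : Piece) (X : List (Fin 4)) :
    FinL (fun f : List (Fin 4) → K => pieceT a a' b b' p f X) := by
  cases p with
  | cross k pos => exact finL_crossT a a' b b' pos k X
  | cup k s => exact finL_cupT _ k X
  | cap k s => exact finL_capT _ k X

theorem loc_far_cross (pos : Bool) (q : Piece) (F : List (Fin 4) → K) (x y : Fin 4)
    (v : List (Fin 4)) :
    wordT a a' b b' [.cross 0 pos, q.up 2] F (x :: y :: v)
      = wordT a a' b b' [q.up 2, .cross 0 pos] F (x :: y :: v) := by
  have h1 : ∀ (G : List (Fin 4) → K) (i j : Fin 4),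
      pieceT a a' b b' (q.up 2) G (i :: j :: v) = pieceT a a' b b' q (fun u => G (i :: j :: u)) v :=
    fun G i j => pieceT_up a a' b b' q G [i, j] v
  show Rm a a' b b' pos (fun i j => pieceT a a' b b' (q.up 2) F (i :: j :: v)) x y
    = pieceT a a' b b' (q.up 2) (crossT (Rm a a' b b' pos) 0 F) (x :: y :: v)
  rw [h1]
  simp only [h1, crossT]
  exact FinL.comm (finL_Rm a a' b b' pos x y) (finL_pieceT a a' b b' q v)
    (fun t u => F (t.1 :: t.2 :: u))

theorem loc_far_cup (s : Bool) (q : Piece) (F : List (Fin 4) → K) (v : List (Fin 4)) :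
    wordT a a' b b' [.cup 0 s, q.up 2] F v
      = wordT a a' b b' [q.up 0, .cup 0 s] F v := by
  have h1 : ∀ (G : List (Fin 4) → K) (i j : Fin 4),
      pieceT a a' b b' (q.up 2) G (i :: j :: v) = pieceT a a' b b' q (fun u => G (i :: j :: u)) v :=
    fun G i j => pieceT_up a a' b b' q G [i, j] v
  have h2 : ∀ (G : List (Fin 4) → K),
      pieceT a a' b b' (q.up 0) G v = pieceT a a' b b' q G v :=
    fun G => pieceT_up a a' b b' q G [] v
  show ∑ x, cupW a b' s x * pieceT a a' b b' (q.up 2) F (x :: x :: v)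
    = pieceT a a' b b' (q.up 0) (cupT (cupW a b' s) 0 F) v
  rw [h2]
  simp only [h1, cupT]
  have hl := finL_pieceT a a' b b' q v
  simp only [Fin.sum_univ_four]
  rw [hl.map_add, hl.map_add, hl.map_add, hl.map_mul, hl.map_mul, hl.map_mul, hl.map_mul]

theorem loc_far_cap (s : Bool) (q : Piece) (F : List (Fin 4) → K) (x y : Fin 4)
    (v : List (Fin 4)) :
    wordT a a' b b' [.cap 0 s, q.up 0] F (x :: y :: v)
      = wordT a a' b b' [q.up 2, .cap 0 s] F (x :: y :: v) := by
  have h1 : ∀ (G : List (Fin 4) → K) (i j : Fin 4),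
      pieceT a a' b b' (q.up 2) G (i :: j :: v) = pieceT a a' b b' q (fun u => G (i :: j :: u)) v :=
    fun G i j => pieceT_up a a' b b' q G [i, j] v
  have h2 : ∀ (G : List (Fin 4) → K),
      pieceT a a' b b' (q.up 0) G v = pieceT a a' b b' q G v :=
    fun G => pieceT_up a a' b b' q G [] v
  show (if x = y then capW a' b s x * pieceT a a' b b' (q.up 0) F v else 0)
    = pieceT a a' b b' (q.up 2) (capT (capW a' b s) 0 F) (x :: y :: v)
  rw [h1, h2]
  simp only [capT]
  have hl := finL_pieceT a a' b b' q v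
  split_ifs
  · rw [hl.map_mul]
  · rw [hl.map_zero]

end shift

section field

variable {K : Type*} [Field K] (a b : K)

set_option linter.unusedSimpArgs false

theorem loc_zig (ha : a ≠ 0) (hb : b ≠ 0) (s : Bool) (F : List (Fin 4) → K) (x : Fin 4)
    (v : List (Fin 4)) :
    wordT a a⁻¹ b b⁻¹ [.cup 1 (!s), .cap 0 s] F (x :: v) = F (x :: v) := by
  fin_cases x <;> cases s <;>
    simp [wordT, pieceT, cupT, capT, cupW, capW] <;> field_simp

theorem loc_zag (ha : a ≠ 0) (hb : b ≠ 0) (s : Bool) (F : List (Fin 4) → K) (x : Fin 4)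
    (v : List (Fin 4)) :
    wordT a a⁻¹ b b⁻¹ [.cup 0 s, .cap 1 (!s)] F (x :: v) = F (x :: v) := by
  fin_cases x <;> cases s <;>
    simp [wordT, pieceT, cupT, capT, cupW, capW] <;> field_simp

theorem loc_r1 (ha : a ≠ 0) (hb : b ≠ 0) (pos : Bool) (F : List (Fin 4) → K) (x : Fin 4)
    (v : List (Fin 4)) :
    wordT a a⁻¹ b b⁻¹ [.cup 1 true, .cross 0 pos, .cap 1 true] F (x :: v) = F (x :: v) := by
  simp only [wordT, List.foldr, pieceT]
  fin_cases x <;> cases pos <;>
    simp [Rm_eq, capT, cupT, crossT, Fin.sum_univ_four, cupW, capW, RmT, RposT, RnegT] <;>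
    (try field_simp) <;> (try ring)

theorem loc_r1' (ha : a ≠ 0) (hb : b ≠ 0) (pos : Bool) (F : List (Fin 4) → K) (x : Fin 4)
    (v : List (Fin 4)) :
    wordT a a⁻¹ b b⁻¹ [.cup 0 false, .cross 1 pos, .cap 0 false] F (x :: v) = F (x :: v) := by
  simp only [wordT, List.foldr, pieceT]
  fin_cases x <;> cases pos <;>
    simp [Rm_eq, capT, cupT, crossT, Fin.sum_univ_four, cupW, capW, RmT, RposT, RnegT] <;>
    (try field_simp) <;> (try ring)

theorem loc_r2 (ha : a ≠ 0) (hb : b ≠ 0) (pos : Bool) (F : List (Fin 4) → K) (x y : Fin 4)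
    (v : List (Fin 4)) :
    wordT a a⁻¹ b b⁻¹ [.cross 0 pos, .cross 0 (!pos)] F (x :: y :: v) = F (x :: y :: v) := by
  simp only [wordT, List.foldr, pieceT]
  fin_cases x <;> fin_cases y <;> cases pos <;>
    simp [Rm_eq, crossT, RmT, RposT, RnegT] <;> (try field_simp) <;> (try ring)

theorem loc_r2' (ha : a ≠ 0) (hb : b ≠ 0) (pos : Bool) (F : List (Fin 4) → K) (x y : Fin 4)
    (v : List (Fin 4)) :
    wordT a a⁻¹ b b⁻¹ [.cup 0 false, .cross 1 pos, .cap 2 true, .cup 2 true, .cross 1 (!pos),
      .cap 0 false] F (x :: y :: v) = F (x :: y :: v) := by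
  simp only [wordT, List.foldr, pieceT]
  fin_cases x <;> fin_cases y <;> cases pos <;>
    simp [Rm_eq, capT, cupT, crossT, Fin.sum_univ_four, cupW, capW, RmT, RposT, RnegT] <;>
    (try field_simp) <;> (try ring)

theorem loc_r2'' (ha : a ≠ 0) (hb : b ≠ 0) (pos : Bool) (F : List (Fin 4) → K) (x y : Fin 4)
    (v : List (Fin 4)) :
    wordT a a⁻¹ b b⁻¹ [.cup 2 true, .cross 1 pos, .cap 0 false, .cup 0 false, .cross 1 (!pos),
      .cap 2 true] F (x :: y :: v) = F (x :: y :: v) := by
  simp only [wordT, List.foldr, pieceT]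
  fin_cases x <;> fin_cases y <;> cases pos <;>
    simp [Rm_eq, capT, cupT, crossT, Fin.sum_univ_four, cupW, capW, RmT, RposT, RnegT] <;>
    (try field_simp) <;> (try ring)

theorem loc_rot (ha : a ≠ 0) (hb : b ≠ 0) (pos : Bool) (F : List (Fin 4) → K) (x y : Fin 4)
    (v : List (Fin 4)) :
    wordT a a⁻¹ b b⁻¹ [.cup 2 true, .cup 3 true, .cross 2 pos, .cap 1 false, .cap 0 false] F
        (x :: y :: v)
      = wordT a a⁻¹ b b⁻¹ [.cup 0 false, .cup 1 false, .cross 2 pos, .cap 3 true, .cap 2 true] F
        (x :: y :: v) := by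
  simp only [wordT, List.foldr, pieceT]
  fin_cases x <;> fin_cases y <;> cases pos <;>
    simp [Rm_eq, capT, cupT, crossT, Fin.sum_univ_four, cupW, capW, RmT, RposT, RnegT, ha, hb] <;>
    (try field_simp) <;> (try ring)

theorem loc_r3 (F : List (Fin 4) → K) (x y z : Fin 4) (v : List (Fin 4)) :
    wordT a a⁻¹ b b⁻¹ [.cross 0 true, .cross 1 true, .cross 0 true] F (x :: y :: z :: v)
      = wordT a a⁻¹ b b⁻¹ [.cross 1 true, .cross 0 true, .cross 1 true] F (x :: y :: z :: v) := by
  have h : Rm a a⁻¹ b b⁻¹ true = RposT a b := by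
    funext G
    rw [Rm_eq]
    rfl
  simp only [wordT, List.foldr, pieceT, crossT, h]
  exact braid a b (fun i j k => F (i :: j :: k :: v)) x y z

lemma split_list (v : List (Fin 4)) (k : ℕ) (h : k ≤ v.length) :
    ∃ c v', v = c ++ v' ∧ c.length = k :=
  ⟨v.take k, v.drop k, (List.take_append_drop k v).symm, by simp [h]⟩

lemma split1 (v : List (Fin 4)) (k : ℕ) (h : k + 1 ≤ v.length) :
    ∃ c x v', v = c ++ x :: v' ∧ c.length = k := by
  obtain ⟨c, v', rfl, hc⟩ := split_list v k (by omega)
  match v' with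
  | [] => simp at h; omega
  | x :: v' => exact ⟨c, x, v', rfl, hc⟩

lemma split2 (v : List (Fin 4)) (k : ℕ) (h : k + 2 ≤ v.length) :
    ∃ c x y v', v = c ++ x :: y :: v' ∧ c.length = k := by
  obtain ⟨c, v', rfl, hc⟩ := split_list v k (by omega)
  match v' with
  | [] => simp at h; omega
  | [_] => simp at h; omega
  | x :: y :: v' => exact ⟨c, x, y, v', rfl, hc⟩

lemma split3 (v : List (Fin 4)) (k : ℕ) (h : k + 3 ≤ v.length) :
    ∃ c x y z v', v = c ++ x :: y :: z :: v' ∧ c.length = k := by
  obtain ⟨c, v', rfl, hc⟩ := split_list v k (by omega)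
  match v' with
  | [] => simp at h; omega
  | [_] => simp at h; omega
  | [_, _] => simp at h; omega
  | x :: y :: z :: v' => exact ⟨c, x, y, z, v', rfl, hc⟩

lemma up_up (q : Piece) (d e : ℕ) : (q.up e).up d = q.up (d + e) := by
  cases q <;> simp [Piece.up, Nat.add_assoc]

/-- the number of strands needed at a level -/
lemma OPath.lens {p : Piece} {w : List Piece} {es es' : List Bool} (h : OPath (p :: w) es es') :
    ∃ es₁, OPath w es₁ es' ∧ p.lft + p.inw ≤ es.length ∧
      es₁.length + p.inw = es.length + p.outw := by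
  cases h with
  | cons _ _ _ y _ hs hw => exact ⟨y, hw, hs.len.1, hs.len.2⟩

theorem wordT_move (ha : a ≠ 0) (hb : b ≠ 0) {m m' : List Piece} (hm : Move m m')
    {es es' : List Bool} (h : OPath m es es') (F : List (Fin 4) → K) (v : List (Fin 4))
    (hv : v.length = es.length) :
    wordT a a⁻¹ b b⁻¹ m F v = wordT a a⁻¹ b b⁻¹ m' F v := by
  cases hm with
  | far p q =>
    obtain ⟨-, -, h1, -⟩ := h.lens
    cases p with
    | cross k pos =>
      simp only [Piece.lft, Piece.inw, Piece.outw] at h1 ⊢
      obtain ⟨c, x, y, v', rfl, rfl⟩ := split2 v k (by omega)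
      have e := wordT_up a a⁻¹ b b⁻¹ [.cross 0 pos, q.up 2] F c (x :: y :: v')
      have e' := wordT_up a a⁻¹ b b⁻¹ [q.up 2, .cross 0 pos] F c (x :: y :: v')
      simp only [List.map_cons, List.map_nil, up_up] at e e'
      rw [loc_far_cross, ← e'] at e
      exact e
    | cup k s =>
      simp only [Piece.lft, Piece.inw, Piece.outw] at h1 ⊢
      obtain ⟨c, v', rfl, rfl⟩ := split_list v k (by omega)
      have e := wordT_up a a⁻¹ b b⁻¹ [.cup 0 s, q.up 2] F c v'
      have e' := wordT_up a a⁻¹ b b⁻¹ [q.up 0, .cup 0 s] F c v'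
      simp only [List.map_cons, List.map_nil, up_up] at e e'
      rw [loc_far_cup, ← e'] at e
      exact e
    | cap k s =>
      simp only [Piece.lft, Piece.inw, Piece.outw] at h1 ⊢
      obtain ⟨c, x, y, v', rfl, rfl⟩ := split2 v k (by omega)
      have e := wordT_up a a⁻¹ b b⁻¹ [.cap 0 s, q.up 0] F c (x :: y :: v')
      have e' := wordT_up a a⁻¹ b b⁻¹ [q.up 2, .cap 0 s] F c (x :: y :: v')
      simp only [List.map_cons, List.map_nil, up_up] at e e'
      rw [loc_far_cap, ← e'] at e
      exact e
  | zig k s =>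
    obtain ⟨-, -, h1, -⟩ := h.lens
    simp only [Piece.lft, Piece.inw] at h1
    obtain ⟨c, x, v', rfl, rfl⟩ := split1 v k (by omega)
    exact (wordT_up a a⁻¹ b b⁻¹ [.cup 1 (!s), .cap 0 s] F c (x :: v')).trans
      (loc_zig a b ha hb s _ x v')
  | zag k s =>
    obtain ⟨es₁, h', h1, h2⟩ := h.lens
    obtain ⟨-, -, h3, -⟩ := h'.lens
    simp only [Piece.lft, Piece.inw, Piece.outw] at h1 h2 h3
    obtain ⟨c, x, v', rfl, rfl⟩ := split1 v k (by omega)
    exact (wordT_up a a⁻¹ b b⁻¹ [.cup 0 s, .cap 1 (!s)] F c (x :: v')).trans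
      (loc_zag a b ha hb s _ x v')
  | rot k pos =>
    obtain ⟨-, -, h1, -⟩ := h.lens
    simp only [Piece.lft, Piece.inw] at h1
    obtain ⟨c, x, y, v', rfl, rfl⟩ := split2 v k (by omega)
    exact ((wordT_up a a⁻¹ b b⁻¹ [.cup 2 true, .cup 3 true, .cross 2 pos, .cap 1 false, .cap 0 false]
      F c (x :: y :: v')).trans (loc_rot a b ha hb pos _ x y v')).trans
      (wordT_up a a⁻¹ b b⁻¹ [.cup 0 false, .cup 1 false, .cross 2 pos, .cap 3 true, .cap 2 true]
      F c (x :: y :: v')).symm
  | r1 k pos =>
    obtain ⟨-, -, h1, -⟩ := h.lens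
    simp only [Piece.lft, Piece.inw] at h1
    obtain ⟨c, x, v', rfl, rfl⟩ := split1 v k (by omega)
    exact (wordT_up a a⁻¹ b b⁻¹ [.cup 1 true, .cross 0 pos, .cap 1 true] F c (x :: v')).trans
      (loc_r1 a b ha hb pos _ x v')
  | r1' k pos =>
    obtain ⟨es₁, h', h1, h2⟩ := h.lens
    obtain ⟨-, -, h3, -⟩ := h'.lens
    simp only [Piece.lft, Piece.inw, Piece.outw] at h1 h2 h3
    obtain ⟨c, x, v', rfl, rfl⟩ := split1 v k (by omega)
    exact (wordT_up a a⁻¹ b b⁻¹ [.cup 0 false, .cross 1 pos, .cap 0 false] F c (x :: v')).trans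
      (loc_r1' a b ha hb pos _ x v')
  | r2 k pos =>
    obtain ⟨-, -, h1, -⟩ := h.lens
    simp only [Piece.lft, Piece.inw] at h1
    obtain ⟨c, x, y, v', rfl, rfl⟩ := split2 v k (by omega)
    exact (wordT_up a a⁻¹ b b⁻¹ [.cross 0 pos, .cross 0 (!pos)] F c (x :: y :: v')).trans
      (loc_r2 a b ha hb pos _ x y v')
  | r2' k pos =>
    obtain ⟨es₁, h', h1, h2⟩ := h.lens
    obtain ⟨es₂, h'', h3, h4⟩ := h'.lens
    obtain ⟨-, -, h5, -⟩ := h''.lens
    simp only [Piece.lft, Piece.inw, Piece.outw] at h1 h2 h3 h4 h5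
    obtain ⟨c, x, y, v', rfl, rfl⟩ := split2 v k (by omega)
    exact (wordT_up a a⁻¹ b b⁻¹ [.cup 0 false, .cross 1 pos, .cap 2 true, .cup 2 true,
      .cross 1 (!pos), .cap 0 false] F c (x :: y :: v')).trans (loc_r2' a b ha hb pos _ x y v')
  | r2'' k pos =>
    obtain ⟨-, -, h1, -⟩ := h.lens
    simp only [Piece.lft, Piece.inw] at h1
    obtain ⟨c, x, y, v', rfl, rfl⟩ := split2 v k (by omega)
    exact (wordT_up a a⁻¹ b b⁻¹ [.cup 2 true, .cross 1 pos, .cap 0 false, .cup 0 false,
      .cross 1 (!pos), .cap 2 true] F c (x :: y :: v')).trans (loc_r2'' a b ha hb pos _ x y v')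
  | r3 k =>
    obtain ⟨es₁, h', h1, h2⟩ := h.lens
    obtain ⟨-, -, h3, -⟩ := h'.lens
    simp only [Piece.lft, Piece.inw, Piece.outw] at h1 h2 h3
    obtain ⟨c, x, y, z, v', rfl, rfl⟩ := split3 v k (by omega)
    exact ((wordT_up a a⁻¹ b b⁻¹ [.cross 0 true, .cross 1 true, .cross 0 true] F c
      (x :: y :: z :: v')).trans (loc_r3 a b _ x y z v')).trans
      (wordT_up a a⁻¹ b b⁻¹ [.cross 1 true, .cross 0 true, .cross 1 true] F c
      (x :: y :: z :: v')).symm

lemma OPath.split {u w : List Piece} {es es' : List Bool} (h : OPath (u ++ w) es es') :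
    ∃ es₁, OPath u es es₁ ∧ OPath w es₁ es' := by
  induction u generalizing es with
  | nil => exact ⟨es, .nil _, h⟩
  | cons p u ih =>
    cases h with
    | cons _ _ _ y _ hs hw =>
      obtain ⟨es₁, h1, h2⟩ := ih hw
      exact ⟨es₁, .cons _ _ _ _ _ hs h1, h2⟩

theorem value_move (ha : a ≠ 0) (hb : b ≠ 0) {m m' u w : List Piece} (hm : Move m m')
    {es es' : List Bool} (h : OPath (u ++ m ++ w) es es') (v : List (Fin 4))
    (hv : v.length = es.length) :
    value a a⁻¹ b b⁻¹ (u ++ m ++ w) v = value a a⁻¹ b b⁻¹ (u ++ m' ++ w) v := by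
  rw [value_eq_wordT, value_eq_wordT, List.append_assoc, List.append_assoc, wordT_append,
    wordT_append, wordT_append, wordT_append]
  rw [List.append_assoc] at h
  obtain ⟨es₁, h1, h2⟩ := h.split
  obtain ⟨es₂, h3, -⟩ := h2.split
  exact wordT_congr _ _ _ _ h1 _ _ (fun u hu => wordT_move a b ha hb hm h3 _ u hu) v hv

/-- the eigenvalues of the R-matrix are `t₀ = a²`, `t₁ = b²` and `-1` -/
theorem cubic (F : List (Fin 4) → K) (x y : Fin 4) (v : List (Fin 4)) :
    wordT a a⁻¹ b b⁻¹ [.cross 0 true, .cross 0 true, .cross 0 true] F (x :: y :: v)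
      = (a ^ 2 + b ^ 2 - 1) * wordT a a⁻¹ b b⁻¹ [.cross 0 true, .cross 0 true] F (x :: y :: v)
        + (a ^ 2 + b ^ 2 - a ^ 2 * b ^ 2) * wordT a a⁻¹ b b⁻¹ [.cross 0 true] F (x :: y :: v)
        - a ^ 2 * b ^ 2 * F (x :: y :: v) := by
  simp only [wordT, List.foldr, pieceT]
  fin_cases x <;> fin_cases y <;>
    simp [Rm_eq, crossT, RmT, RposT] <;> (try ring)

/-- the closure of the positive two-braid with two crossings, with the left strand cut open -/
def hopf : List Piece := [.cup 1 true, .cross 0 true, .cross 0 true, .cap 1 true]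

/-- the closure of the positive two-braid with three crossings, with the left strand cut open -/
def trefoil : List Piece :=
  [.cup 1 true, .cross 0 true, .cross 0 true, .cross 0 true, .cap 1 true]

theorem value_hopf (ha : a ≠ 0) :
    value a a⁻¹ b b⁻¹ hopf [0] = -1 + a ^ 2 + b ^ 2 - a ^ 2 * b ^ 2 := by
  simp only [hopf, value, pieceT]
  simp [Rm_eq, capT, cupT, crossT, Fin.sum_univ_four, cupW, capW, RmT, RposT]
  field_simp
  ring

theorem value_trefoil (ha : a ≠ 0) :
    value a a⁻¹ b b⁻¹ trefoil [0] = 1 - a ^ 2 - b ^ 2 + a ^ 4 + 2 * a ^ 2 * b ^ 2 + b ^ 4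
      - a ^ 4 * b ^ 2 - a ^ 2 * b ^ 4 := by
  simp only [trefoil, value, pieceT]
  simp [Rm_eq, capT, cupT, crossT, Fin.sum_univ_four, cupW, capW, RmT, RposT]
  field_simp
  ring

end field

/-- the injection of `L` into its fraction field -/
private lemma iso_field : ∃ (K : Type) (_ : Field K) (φ : L →+* K), Function.Injective φ ∧
    φ (mon 1 0) ≠ 0 ∧ φ (mon 0 1) ≠ 0 ∧ φ (mon (-1) 0) = (φ (mon 1 0))⁻¹ ∧
    φ (mon 0 (-1)) = (φ (mon 0 1))⁻¹ := by
  let φ : L →+* FractionRing L := algebraMap L (FractionRing L)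
  have hφ : Function.Injective φ := IsFractionRing.injective L (FractionRing L)
  have h1 : mon 1 0 * mon (-1) 0 = (1 : L) := by rw [mon_mul']; rfl
  have h2 : mon 0 1 * mon 0 (-1) = (1 : L) := by rw [mon_mul']; rfl
  have ha : φ (mon 1 0) ≠ 0 := by
    intro h
    have : φ (mon 1 0 * mon (-1) 0) = 0 := by rw [map_mul, h, zero_mul]
    rw [h1, map_one] at this
    exact one_ne_zero this
  have hb : φ (mon 0 1) ≠ 0 := by
    intro h
    have : φ (mon 0 1 * mon 0 (-1)) = 0 := by rw [map_mul, h, zero_mul]
    rw [h2, map_one] at this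
    exact one_ne_zero this
  exact ⟨FractionRing L, inferInstance, φ, hφ, ha, hb,
    eq_inv_of_mul_eq_one_left (by rw [← map_mul, mul_comm, h1, map_one]),
    eq_inv_of_mul_eq_one_left (by rw [← map_mul, mul_comm, h2, map_one])⟩

/-- **The Links–Gould invariant does not change under the elementary moves.** -/
theorem LG_move {m m' u w : List Piece} {μ : ℕ} (h : IsDiagram (u ++ m ++ w) μ) (hm : Move m m') :
    LG (u ++ m ++ w) = LG (u ++ m' ++ w) := by
  obtain ⟨K, hK, φ, hφ, ha, hb, ha', hb'⟩ := iso_field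
  obtain ⟨c, n, k, hp, -⟩ := h
  have hp' : OPath (u ++ m ++ w) [true] [true] := hp.oPath
  apply hφ
  have e := value_move (φ (mon 1 0)) (φ (mon 0 1)) ha hb hm hp' [0] rfl
  rw [← ha', ← hb', map_value φ, map_value φ] at e
  exact e

theorem LG_hopf : LG hopf = -1 + mon 2 0 + mon 0 2 - mon 2 2 := by
  obtain ⟨K, hK, φ, hφ, ha, hb, ha', hb'⟩ := iso_field
  apply hφ
  have e := value_hopf (φ (mon 1 0)) (φ (mon 0 1)) ha
  rw [← ha', ← hb', map_value φ] at e
  have h1 : mon 2 0 = mon 1 0 ^ 2 := by rw [pow_two, mon_mul']; rfl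
  have h2 : mon 0 2 = mon 0 1 ^ 2 := by rw [pow_two, mon_mul']; rfl
  have h3 : mon 2 2 = mon 1 0 ^ 2 * mon 0 1 ^ 2 := by rw [← h1, ← h2, mon_mul']; rfl
  rw [LG, e, h3, h1, h2]
  simp only [map_add, map_sub, map_neg, map_one, map_mul, map_pow]

theorem LG_trefoil : LG trefoil = 1 - mon 2 0 - mon 0 2 + mon 4 0 + 2 * mon 2 2 + mon 0 4
    - mon 4 2 - mon 2 4 := by
  obtain ⟨K, hK, φ, hφ, ha, hb, ha', hb'⟩ := iso_field
  apply hφ
  have e := value_trefoil (φ (mon 1 0)) (φ (mon 0 1)) ha
  rw [← ha', ← hb', map_value φ] at e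
  have h1 : mon 2 0 = mon 1 0 ^ 2 := by rw [pow_two, mon_mul']; rfl
  have h2 : mon 0 2 = mon 0 1 ^ 2 := by rw [pow_two, mon_mul']; rfl
  have h3 : mon 2 2 = mon 1 0 ^ 2 * mon 0 1 ^ 2 := by rw [← h1, ← h2, mon_mul']; rfl
  have h4 : mon 4 0 = mon 1 0 ^ 4 := by
    rw [show mon 1 0 ^ 4 = (mon 1 0 ^ 2) * (mon 1 0 ^ 2) by ring, ← h1, mon_mul']; rfl
  have h5 : mon 0 4 = mon 0 1 ^ 4 := by
    rw [show mon 0 1 ^ 4 = (mon 0 1 ^ 2) * (mon 0 1 ^ 2) by ring, ← h2, mon_mul']; rfl
  have h6 : mon 4 2 = mon 1 0 ^ 4 * mon 0 1 ^ 2 := by rw [← h4, ← h2, mon_mul']; rfl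
  have h7 : mon 2 4 = mon 1 0 ^ 2 * mon 0 1 ^ 4 := by rw [← h5, ← h1, mon_mul']; rfl
  rw [LG, e, h6, h7, h3, h4, h5, h1, h2]
  simp only [map_add, map_sub, map_one, map_mul, map_pow, map_ofNat]
  ring

end LGAlt
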