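import Pool.Agent.LGAlt2.Graph

/-!
# Purity of bonds, first part

* `exists_noncut` : a connected graph with at least two vertices has a vertex `y` such that the graph
  without `y` is connected.  Proof: take a maximal proper nonempty `Z ⊆ V` such that `(Z, ind E Z)` is
  connected (singletons are connected); if `V \ Z` had two elements, some edge leads from `Z` to
  `y ∈ V \ Z`, and `insert y Z` is connected and proper.  So `V \ Z = {y}`.
* `const_of_conn` : cut condition for `{v ∈ V | f v = f x}`.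
* `pure_of_noncut` : take `H` from `SepHyp` for `W`; it is constant on `V.erase W`.
-/

namespace LGAlt

namespace MG

variable (G : MG)

/-- the edges with both ends in `Y` -/
def ind (E Y : Finset ℕ) : Finset ℕ := E.filter (fun e => G.tl e ∈ Y ∧ G.hd e ∈ Y)

/-- hypothesis: edges of different signs at `W` lead to different components of the graph without
`W` -/
def SepHyp (E₀ : Finset ℕ) : Prop :=
  ∀ W, ∃ H : ℕ → ℤ, (∀ e ∈ E₀, G.tl e ≠ W → G.hd e ≠ W → H (G.tl e) = H (G.hd e)) ∧
    ∀ e ∈ E₀, ∀ e' ∈ E₀, G.Touch W e → G.Touch W e' → G.sg e ≠ G.sg e' →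
      H (G.other W e) ≠ H (G.other W e')

theorem exists_noncut (V E : Finset ℕ) (h : G.Conn V E) (h2 : 2 ≤ V.card) :
    ∃ y ∈ V, G.Conn (V.erase y) (G.del E y) := by
  classical
  obtain ⟨v, hv⟩ := h.ne
  have hsing : G.Conn {v} (G.ind E {v}) := by
    refine ⟨Finset.singleton_nonempty v, fun e he => (Finset.mem_filter.1 he).2, ?_⟩
    intro Y hY hne hne'
    exfalso
    apply hne'
    rcases Finset.subset_singleton_iff.1 hY with h1 | h1
    · rw [h1] at hne
      exact absurd hne (by simp)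
    · exact h1
  have hv1 : ({v} : Finset ℕ) ≠ V := by
    intro h1
    rw [← h1, Finset.card_singleton] at h2
    omega
  obtain ⟨Z, hZ, hmax⟩ := Finset.exists_max_image
    (V.powerset.filter (fun Z => Z ≠ V ∧ G.Conn Z (G.ind E Z))) Finset.card
    ⟨{v}, Finset.mem_filter.2 ⟨Finset.mem_powerset.2 (Finset.singleton_subset_iff.2 hv), hv1, hsing⟩⟩
  obtain ⟨hZV, hZne, hZc⟩ := Finset.mem_filter.1 hZ
  rw [Finset.mem_powerset] at hZV
  obtain ⟨e, he, hsep⟩ := h.cut Z hZV hZc.ne hZne
  have hends := h.ends e he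
  -- the two ends of `e`
  obtain ⟨y, z, hy, hyZ, hz, hyz⟩ : ∃ y z, y ∈ V ∧ y ∉ Z ∧ z ∈ Z ∧
      ((G.tl e = y ∧ G.hd e = z) ∨ (G.tl e = z ∧ G.hd e = y)) := by
    unfold Sep at hsep
    by_cases h1 : G.tl e ∈ Z
    · refine ⟨G.hd e, G.tl e, hends.2, fun h3 => hsep ⟨fun _ => h3, fun _ => h1⟩, h1, Or.inr ⟨rfl, rfl⟩⟩
    · refine ⟨G.tl e, G.hd e, hends.1, h1, ?_, Or.inl ⟨rfl, rfl⟩⟩
      by_contra h3
      exact hsep ⟨fun h4 => absurd h4 h1, fun h4 => absurd h4 h3⟩
  have hzy : z ≠ y := fun h3 => hyZ (h3 ▸ hz)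
  have hins : insert y Z ⊆ V := Finset.insert_subset hy hZV
  have heI : e ∈ G.ind E (insert y Z) := by
    refine Finset.mem_filter.2 ⟨he, ?_⟩
    rcases hyz with ⟨a, b⟩ | ⟨a, b⟩
    · rw [a, b]
      exact ⟨Finset.mem_insert_self _ _, Finset.mem_insert_of_mem hz⟩
    · rw [a, b]
      exact ⟨Finset.mem_insert_of_mem hz, Finset.mem_insert_self _ _⟩
  have hconn : G.Conn (insert y Z) (G.ind E (insert y Z)) := by
    refine ⟨⟨y, Finset.mem_insert_self _ _⟩, fun e he => (Finset.mem_filter.1 he).2, ?_⟩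
    intro Y hY hne hne'
    by_cases hemp : (Y ∩ Z).Nonempty
    · by_cases hfull : Y ∩ Z = Z
      · -- `Y = Z`
        have hZY : Z ⊆ Y := Finset.inter_eq_right.1 hfull
        have hyY : y ∉ Y := by
          intro h3
          apply hne'
          exact Finset.Subset.antisymm hY (Finset.insert_subset h3 hZY)
        refine ⟨e, heI, ?_⟩
        unfold Sep
        rcases hyz with ⟨a, b⟩ | ⟨a, b⟩
        · rw [a, b]
          intro h3
          exact hyY (h3.2 (hZY hz))
        · rw [a, b]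
          intro h3
          exact hyY (h3.1 (hZY hz))
      · obtain ⟨e', he', hs'⟩ := hZc.cut (Y ∩ Z) Finset.inter_subset_right hemp hfull
        obtain ⟨he1, he2, he3⟩ := Finset.mem_filter.1 he'
        refine ⟨e', Finset.mem_filter.2 ⟨he1, Finset.mem_insert_of_mem he2,
          Finset.mem_insert_of_mem he3⟩, ?_⟩
        unfold Sep at hs' ⊢
        rw [Finset.mem_inter, Finset.mem_inter] at hs'
        intro h3
        exact hs' ⟨fun h4 => ⟨h3.1 h4.1, he3⟩, fun h4 => ⟨h3.2 h4.1, he2⟩⟩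
    · -- `Y = {y}`
      rw [Finset.not_nonempty_iff_eq_empty] at hemp
      have hzY : z ∉ Y := by
        intro h3
        have : z ∈ Y ∩ Z := Finset.mem_inter.2 ⟨h3, hz⟩
        rw [hemp] at this
        exact absurd this (Finset.notMem_empty z)
      have hyY : y ∈ Y := by
        obtain ⟨w, hw⟩ := hne
        rcases Finset.mem_insert.1 (hY hw) with h3 | h3
        · exact h3 ▸ hw
        · have : w ∈ Y ∩ Z := Finset.mem_inter.2 ⟨hw, h3⟩
          rw [hemp] at this
          exact absurd this (Finset.notMem_empty w)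
      refine ⟨e, heI, ?_⟩
      unfold Sep
      rcases hyz with ⟨a, b⟩ | ⟨a, b⟩
      · rw [a, b]
        intro h3
        exact hzY (h3.1 hyY)
      · rw [a, b]
        intro h3
        exact hzY (h3.2 hyY)
  have hall : insert y Z = V := by
    by_contra hcon
    have h3 := hmax (insert y Z) (Finset.mem_filter.2 ⟨Finset.mem_powerset.2 hins, hcon, hconn⟩)
    rw [Finset.card_insert_of_notMem hyZ] at h3
    omega
  have hVe : V.erase y = Z := by
    rw [← hall, Finset.erase_insert hyZ]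
  have hdel : G.del E y = G.ind E Z := by
    ext e'
    unfold del ind Touch
    rw [Finset.mem_filter, Finset.mem_filter]
    constructor
    · rintro ⟨h3, h4⟩
      rw [not_or] at h4
      obtain ⟨h5, h6⟩ := h.ends e' h3
      rw [← hVe]
      exact ⟨h3, Finset.mem_erase.2 ⟨h4.1, h5⟩, Finset.mem_erase.2 ⟨h4.2, h6⟩⟩
    · rintro ⟨h3, h4, h5⟩
      refine ⟨h3, ?_⟩
      rintro (h6 | h6)
      · exact hyZ (h6 ▸ h4)
      · exact hyZ (h6 ▸ h5)
  refine ⟨y, hy, ?_⟩
  rw [hVe, hdel]
  exact hZc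

/-- a function which is constant along the edges is constant on a connected graph -/
theorem const_of_conn {α : Type*} (V E : Finset ℕ) (h : G.Conn V E) (f : ℕ → α)
    (hf : ∀ e ∈ E, f (G.tl e) = f (G.hd e)) : ∀ x ∈ V, ∀ y ∈ V, f x = f y := by
  classical
  intro x hx y hy
  by_contra hne
  have hY : V.filter (fun v => f v = f x) ≠ V := by
    intro h1
    have h2 : y ∈ V.filter (fun v => f v = f x) := by rw [h1]; exact hy
    exact hne (Finset.mem_filter.1 h2).2.symm
  have hYn : (V.filter (fun v => f v = f x)).Nonempty := ⟨x, Finset.mem_filter.2 ⟨hx, rfl⟩⟩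
  obtain ⟨e, he, hs⟩ := h.cut _ (Finset.filter_subset _ _) hYn hY
  apply hs
  rw [Finset.mem_filter, Finset.mem_filter, hf e he]
  have h1 := h.ends e he
  exact ⟨fun h2 => ⟨h1.2, h2.2⟩, fun h2 => ⟨h1.1, h2.2⟩⟩

/-- if the graph without `W` is connected, all edges at `W` have the same sign -/
theorem pure_of_noncut (E₀ : Finset ℕ) (hs : G.SepHyp E₀) (V E : Finset ℕ) (hE : E ⊆ E₀)
    (h : G.Conn V E) (hnl : ∀ e ∈ E, G.tl e ≠ G.hd e) (W : ℕ)
    (hW : G.Conn (V.erase W) (G.del E W)) :
    ∀ e ∈ E, ∀ e' ∈ E, G.Touch W e → G.Touch W e' → G.sg e = G.sg e' := by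
  intro e he e' he' ht ht'
  by_contra hne
  obtain ⟨H, h1, h2⟩ := hs W
  have h3 := G.const_of_conn _ _ hW H fun e he => by
    obtain ⟨h4, h5⟩ := Finset.mem_filter.1 he
    unfold Touch at h5
    rw [not_or] at h5
    exact h1 e (hE h4) h5.1 h5.2
  have hmem : ∀ e ∈ E, G.Touch W e → G.other W e ∈ V.erase W := by
    intro e he ht
    have h4 := h.ends e he
    unfold other
    split_ifs with h5
    · refine Finset.mem_erase.2 ⟨?_, h4.2⟩
      intro h6
      exact hnl e he (h5.trans h6.symm)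
    · exact Finset.mem_erase.2 ⟨h5, h4.1⟩
  exact h2 e (hE he) e' (hE he') ht ht' hne (h3 _ (hmem e he ht) _ (hmem e' he' ht'))

end MG

end LGAlt
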