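import Pool.Agent.LGAlt2.Bal
import Pool.Agent.LGAlt2.Purity

/-!
# The graph of Seifert circles

* `MGr` : the vertices are the circles, the edges are the crossings; the tail of an edge is the circle of
  type `true` (the left one for positive crossings), the head is the circle of type `false`.
* `far W c` : the corner of `c` on the side of `W` which is not near the crossing: `L` if `W` is on the
  left, `R` if `W` is on the right.  Both bits of this mark are `!(ty W)`.
* `Adj V' x` : the gap label `x` is next to a strand of a circle in `V'`.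
* `sepHyp` : take `H = HC W`; crossings with different signs at `W` have `W` on different sides, so the heights
  of the other circles are `Eta W` and `Eta W + 1`.
* `connU_of_conn` : if the graph is connected then `ConnU U`: let `x ∈ SLb`, and `Y` the set of the circles `W`
  which contain a strand label in the component of `x` (`cmp_of_cre`).  No edge of `U` is separated by `Y`
  (`cmp_cross`), so `Y = V`.
* `adj_height` : if `(V', U)` is connected and `w ∉ V'` then the height of `w` has the same value at all labels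
  `x` with `Adj V' x` (`HC_root`, `HC_edge`, `const_of_conn`).
-/

namespace LGAlt

/-- the graph of Seifert circles -/
def Dia.MGr (D : Dia) : MG where
  tl := fun c => if (D.pc c).pos = true then D.cl c else D.cr c
  hd := fun c => if (D.pc c).pos = true then D.cr c else D.cl c
  sg := fun c => (D.pc c).pos

lemma touch_iff (D : Dia) (W c : ℕ) : D.MGr.Touch W c ↔ D.cl c = W ∨ D.cr c = W := by
  unfold MG.Touch Dia.MGr
  simp only
  split_ifs
  · rfl
  · exact or_comm

lemma other_cl (D : Dia) (W c : ℕ) (hc : c ∈ D.C) (h : D.cl c = W) :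
    D.MGr.other W c = D.cr c := by
  unfold MG.other Dia.MGr
  simp only
  have hne := cl_ne_cr D c hc
  by_cases hp : (D.pc c).pos = true
  · rw [if_pos hp, if_pos h, if_pos hp]
  · rw [if_neg hp, if_neg hp, if_neg (fun h3 => hne (h.trans h3.symm))]

lemma other_cr (D : Dia) (W c : ℕ) (hc : c ∈ D.C) (h : D.cr c = W) :
    D.MGr.other W c = D.cl c := by
  unfold MG.other Dia.MGr
  simp only
  have hne := cl_ne_cr D c hc
  by_cases hp : (D.pc c).pos = true
  · rw [if_pos hp, if_pos hp, if_neg (fun h3 => hne (h3.trans h.symm))]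
  · rw [if_neg hp, if_neg hp, if_pos h]

lemma ty_tl (D : Dia) (c : ℕ) (hc : c ∈ D.C) : D.ty (D.MGr.tl c) = true := by
  unfold Dia.MGr
  simp only
  split_ifs with h
  · rw [ty_cl D c hc, h]
  · rw [ty_cr D c hc]
    simp only [Bool.not_eq_true] at h
    rw [h]
    rfl

lemma ty_hd (D : Dia) (c : ℕ) (hc : c ∈ D.C) : D.ty (D.MGr.hd c) = false := by
  unfold Dia.MGr
  simp only
  split_ifs with h
  · rw [ty_cr D c hc, h]
    rfl
  · rw [ty_cl D c hc]
    simpa using h

lemma tl_ne_hd (D : Dia) (c : ℕ) (hc : c ∈ D.C) : D.MGr.tl c ≠ D.MGr.hd c := by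
  unfold Dia.MGr
  simp only
  split_ifs with h
  · exact cl_ne_cr D c hc
  · exact (cl_ne_cr D c hc).symm

theorem sepHyp (D : Dia) : D.MGr.SepHyp D.C := by
  intro W
  refine ⟨D.HC W, fun e he h1 h2 => ?_, fun e he e' he' ht ht' hs => ?_⟩
  · unfold Dia.MGr at h1 h2 ⊢
    simp only at h1 h2 ⊢
    split_ifs at h1 h2 ⊢ with h
    · exact HC_edge D W e he h1 h2
    · exact (HC_edge D W e he h2 h1).symm
  · rw [touch_iff] at ht ht'
    change (D.pc e).pos ≠ (D.pc e').pos at hs
    rcases ht with h | h <;> rcases ht' with h' | h'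
    · exfalso
      apply hs
      rw [← ty_cl D e he, ← ty_cl D e' he', h, h']
    · rw [other_cl D W e he h, other_cr D W e' he' h', HC_cl D W e he h, HC_cr D W e' he' h']
      intro h3
      linarith
    · rw [other_cr D W e he h, other_cl D W e' he' h', HC_cr D W e he h, HC_cl D W e' he' h']
      intro h3
      linarith
    · exfalso
      apply hs
      have h1 := ty_cr D e he
      have h2 := ty_cr D e' he'
      rw [h] at h1
      rw [h', h1] at h2
      exact Bool.not_inj h2

/-- crossings with the same sign at the circle `W` have `W` on the same side -/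
lemma same_side (D : Dia) (W c c' : ℕ) (hc : c ∈ D.C) (hc' : c' ∈ D.C) (h : D.MGr.Touch W c)
    (h' : D.MGr.Touch W c') (hs : D.MGr.sg c = D.MGr.sg c') : (D.cl c = W ↔ D.cl c' = W) := by
  rw [touch_iff] at h h'
  change (D.pc c).pos = (D.pc c').pos at hs
  have key : ∀ a b, a ∈ D.C → b ∈ D.C → (D.pc a).pos = (D.pc b).pos → D.cl a = W →
      (D.cl b = W ∨ D.cr b = W) → D.cl b = W := by
    intro a b ha hb hab h1 h2
    rcases h2 with h2 | h2
    · exact h2
    · exfalso
      have h3 := ty_cl D a ha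
      have h4 := ty_cr D b hb
      rw [h1] at h3
      rw [h2, h3, hab] at h4
      cases hq : (D.pc b).pos <;> rw [hq] at h4 <;> exact absurd h4 (by decide)
  exact ⟨fun h1 => key c c' hc hc' hs h1 h', fun h1 => key c' c hc' hc hs.symm h1 h⟩

theorem connU_of_conn (D : Dia) (U : Finset ℕ) (hUC : U ⊆ D.C) (h : D.MGr.Conn D.V U) :
    D.ConnU U := by
  classical
  have hf : ∃ f : ℕ → ℕ, ∀ z, f (D.ci z) = cmp D.pc U D.n z := by
    refine ⟨fun v => if h : ∃ z, D.ci z = v then cmp D.pc U D.n h.choose else 0, fun z => ?_⟩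
    have hz : ∃ z', D.ci z' = D.ci z := ⟨z, rfl⟩
    simp only
    rw [dif_pos hz]
    exact cmp_of_cre D.pc U D.n _ _ hz.choose_spec
  obtain ⟨f, hf⟩ := hf
  have hc := D.MGr.const_of_conn D.V U h f ?_
  · intro x hx y hy
    have h1 := hc (D.ci x) (Finset.mem_image_of_mem _ hx) (D.ci y) (Finset.mem_image_of_mem _ hy)
    rw [hf, hf] at h1
    exact h1
  · intro e he
    obtain ⟨hn, k, pos, hp⟩ := (mem_C_iff D e).mp (hUC he)
    have h1 : f (D.cl e) = f (D.cr e) := by
      unfold Dia.cl Dia.cr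
      rw [hf, hf, hp]
      simp only [Piece.at]
      exact cmp_cross D.pc U e D.n hn k pos hp he
    unfold Dia.MGr
    simp only
    split_ifs
    · exact h1
    · exact h1.symm

/-- the corner of `c` on the other side of the circle `W` -/
def Dia.far (D : Dia) (W c : ℕ) : Mk := if D.cl c = W then .L else .R

lemma ub_far (D : Dia) (W c : ℕ) (hc : c ∈ D.C) (h : D.MGr.Touch W c) :
    ub D.pc c (D.far W c) = !(D.ty W) := by
  rw [touch_iff] at h
  unfold Dia.far
  split_ifs with h1
  · rw [← h1, ty_cl D c hc]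
    rfl
  · have h2 := h.resolve_left h1
    rw [← h2, ty_cr D c hc, Bool.not_not]
    rfl

lemma vb_far (D : Dia) (W c : ℕ) (hc : c ∈ D.C) (h : D.MGr.Touch W c) :
    vb D.pc c (D.far W c) = !(D.ty W) := by
  rw [touch_iff] at h
  unfold Dia.far
  split_ifs with h1
  · rw [← h1, ty_cl D c hc]
    rfl
  · have h2 := h.resolve_left h1
    rw [← h2, ty_cr D c hc, Bool.not_not]
    rfl

/-- the label `x` is next to a circle in `V'` -/
def Dia.Adj (D : Dia) (V' : Finset ℕ) (x : ℕ) : Prop :=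
  ∃ r, D.IsRoot r ∧ D.rc r ∈ V' ∧ (x = gl D.pc r.1 r.2 ∨ x = gl D.pc r.1 (r.2 + 1))

lemma adj_cl (D : Dia) (V' : Finset ℕ) (c : ℕ) (hc : c ∈ D.C) (h : D.cl c ∈ V') :
    D.Adj V' (cor D.pc c .L) ∧ D.Adj V' (cor D.pc c .B) ∧ D.Adj V' (cor D.pc c .T) := by
  obtain ⟨hn, k, pos, hp, hat, hk, -, -⟩ := C_data D hc
  have hs : str D.pc (c + 1) = str D.pc c := by simp only [str, hp]
  have hsl : sl D.pc (c + 1) k = sl D.pc c k := by simp only [sl, hp]
  have hg : gl D.pc (c + 1) (k + 1) = c + 2 := by simp only [gl, hp, if_true]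
  unfold Dia.cl at h
  rw [hat] at h
  simp only [cor, hat]
  refine ⟨⟨(c, k), ⟨hn.le, ?_⟩, h, Or.inl rfl⟩, ⟨(c, k), ⟨hn.le, ?_⟩, h, Or.inr rfl⟩,
    ⟨(c + 1, k), ⟨hn, ?_⟩, ?_, Or.inr hg.symm⟩⟩
  · show k < str D.pc c
    omega
  · show k < str D.pc c
    omega
  · show k < str D.pc (c + 1)
    omega
  · show D.ci (sl D.pc (c + 1) k) ∈ V'
    rw [hsl]
    exact h

lemma adj_cr (D : Dia) (V' : Finset ℕ) (c : ℕ) (hc : c ∈ D.C) (h : D.cr c ∈ V') :
    D.Adj V' (cor D.pc c .R) ∧ D.Adj V' (cor D.pc c .B) ∧ D.Adj V' (cor D.pc c .T) := by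
  obtain ⟨hn, k, pos, hp, hat, hk, -, -⟩ := C_data D hc
  have hs : str D.pc (c + 1) = str D.pc c := by simp only [str, hp]
  have hsl : sl D.pc (c + 1) (k + 1) = sl D.pc c (k + 1) := by simp only [sl, hp]
  have hg : gl D.pc (c + 1) (k + 1) = c + 2 := by simp only [gl, hp, if_true]
  unfold Dia.cr at h
  rw [hat] at h
  simp only [cor, hat]
  refine ⟨⟨(c, k + 1), ⟨hn.le, ?_⟩, h, Or.inr rfl⟩, ⟨(c, k + 1), ⟨hn.le, ?_⟩, h, Or.inl rfl⟩,
    ⟨(c + 1, k + 1), ⟨hn, ?_⟩, ?_, Or.inl hg.symm⟩⟩
  · show k + 1 < str D.pc c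
    omega
  · show k + 1 < str D.pc c
    omega
  · show k + 1 < str D.pc (c + 1)
    omega
  · show D.ci (sl D.pc (c + 1) (k + 1)) ∈ V'
    rw [hsl]
    exact h

/-- the height of a circle outside a connected subdiagram is constant on it -/
theorem adj_height (D : Dia) (V' U : Finset ℕ) (hUC : U ⊆ D.C) (h : D.MGr.Conn V' U) (w : ℕ)
    (hw : w ∉ V') (x y : ℕ) (hx : D.Adj V' x) (hy : D.Adj V' y) : D.Hl w x = D.Hl w y := by
  have key : ∀ z, D.Adj V' z → ∃ A ∈ V', D.Hl w z = D.HC w A := by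
    rintro z ⟨r, hr, hrV, hz⟩
    have hne : D.rc r ≠ w := fun h1 => hw (h1 ▸ hrV)
    obtain ⟨h1, h2⟩ := HC_root D w r hr hne
    refine ⟨D.rc r, hrV, ?_⟩
    rcases hz with hz | hz
    · rw [hz, h1]
    · rw [hz, h2]
  obtain ⟨A, hA, hA'⟩ := key x hx
  obtain ⟨B, hB, hB'⟩ := key y hy
  rw [hA', hB']
  refine D.MGr.const_of_conn V' U h (D.HC w) ?_ A hA B hB
  intro e he
  obtain ⟨h1, h2⟩ := h.ends e he
  have h3 : D.MGr.tl e ≠ w := fun h3 => hw (h3 ▸ h1)
  have h4 : D.MGr.hd e ≠ w := fun h4 => hw (h4 ▸ h2)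
  unfold Dia.MGr at h3 h4 ⊢
  simp only at h3 h4 ⊢
  split_ifs at h3 h4 ⊢ with hh
  · exact HC_edge D w e (hUC he) h3 h4
  · exact (HC_edge D w e (hUC he) h4 h3).symm

lemma far_height (D : Dia) (w c : ℕ) (hc : c ∈ D.C) (h : D.MGr.Touch w c) :
    D.Hl w (cor D.pc c (D.far w c)) ≠ D.Hl w (cor D.pc c .B) := by
  rw [touch_iff] at h
  unfold Dia.far
  split_ifs with h1
  · rw [Hl_L D w c hc, if_pos h1]
    intro h2
    linarith
  · have h2 := h.resolve_left h1
    rw [Hl_R D w c hc, if_pos h2]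
    intro h3
    linarith

/-- The face of the far corner is not next to `V'`. -/
theorem far_excl (D : Dia) (V' U : Finset ℕ) (hUC : U ⊆ D.C) (h : D.MGr.Conn V' U) (w c : ℕ)
    (hw : w ∉ V') (hc : c ∈ D.C) (ht : D.MGr.Touch w c) (ho : D.MGr.other w c ∈ V') (U' : Finset ℕ)
    (x : ℕ) (hx : D.Adj V' x) : D.F U' x ≠ D.F U' (cor D.pc c (D.far w c)) := by
  intro hF
  have h1 := Hl_F D w U' _ _ hF
  have hB : D.Adj V' (cor D.pc c .B) := by
    rcases (touch_iff D w c).mp ht with h2 | h2
    · rw [other_cl D w c hc h2] at ho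
      exact (adj_cr D V' c hc ho).2.1
    · rw [other_cr D w c hc h2] at ho
      exact (adj_cl D V' c hc ho).2.1
  have h3 := adj_height D V' U hUC h w hw x _ hx hB
  exact far_height D w c hc ht (h1.symm.trans h3)

end LGAlt
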