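import Pool.Agent.LGAlt2.KFull

/-!
# Adding a circle all of whose crossings have the same sign

Let `(V', E)` be connected, `A ∈ V'` a circle such that all crossings of `E` touching `A` have the same sign,
and such that `(V'.erase A, U)`, `U = del E A`, is connected.  Let `EA = E \ U` be the set of the crossings of `E`
which touch `A`.
* By `same_side`, `A` is on the left of all crossings of `EA`, or on the right of all of them.
* `c0_const` : the labels `cor c T`, `cor c B`, `c ∈ EA`, belong all to the same face of `U` (`const_l` or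
  `const_r`, no crossing of `U` touches `A`; `F_inactive`).
* `c0_merge` : let `N` be the set of the faces of `E` of the labels `cor c T`, `cor c B`, `c ∈ EA`.  Two
  labels are in the same face of `U` iff they are in the same face of `E`, or their faces in `E` both belong to
  `N` (`fre_const` with `f x = if F E x ∈ N then none else some (F E x)`, `c0_const`, `fre_mono`).
* `c0_card` : by `faces_card'` for `(V', E)` and `(V'.erase A, U)`, `N.card = EA.card` (the faces of `U` are
  obtained from those of `E` by identifying the elements of `N`; `N` is not empty as `EA` is not empty).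
* `c0_img` : by `bal_l` or `bal_r` for `W = A` (the crossings outside `E` do not contribute), a face is in the
  image of `c ↦ F E (cor c T)`, `c ∈ EA`, iff it is in the image of `c ↦ F E (cor c B)`.  So both images are
  `N`, and both maps are injective on `EA`.
* `c0_ext` : let `m` be a state of `U` with the root `r`, `rc r ∈ V'.erase A`, and let `q` be `T` or `B`.  The
  face of `U` of the labels in `c0_const` is taken (`full`; it is next to `V'.erase A` since the other ends of
  the crossings of `EA` are there), say by the label `x` (a marked corner or a gap at the root); `F E x ∈ N`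
  by `c0_merge`, so there is exactly one `c' ∈ EA` with `F E (cor c' q) = F E x`.  Change the marks of `m` at
  the crossings of `EA`: the mark is `q` for `c ≠ c'` and `far A c'` for `c'`.  This is a state of `E`:
  the marks of `U` are in different faces (`fre_mono`); no mark of `U` and no gap at the root except `x` is in
  a face of `N` (it would be in the same face of `U` as `x`); the face of the far corner is different from all
  others by the heights of `A` (`far_excl` for the marks of `U`, the gaps at the root and the labels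
  `cor c q`, which are all next to `V'.erase A`).
* `c0_rel` : if `ty A = false` change `m₁` with `q = T` and `m₂` with `q = B`: all bits `ub (m₁ c)` and
  `vb (m₂ c)`, `c ∈ EA`, are `1` (`ub_far`, `vb_far`).  If `ty A = true` change `m₁` with `q = B` and `m₂` with
  `q = T`: all bits are `0`.  So the crossings of `EA` do not contribute.
-/

namespace LGAlt

/-- the situation of a circle all of whose crossings have the same sign -/
structure C0Ctx (D : Dia) (V' E : Finset ℕ) (A : ℕ) (p : Bool) : Prop where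
  hD : D.MGr.Conn D.V D.C
  V'V : V' ⊆ D.V
  EC : E ⊆ D.C
  conn : D.MGr.Conn V' E
  AV : A ∈ V'
  sg : ∀ c ∈ E, D.MGr.Touch A c → D.MGr.sg c = p
  conn' : D.MGr.Conn (V'.erase A) (D.MGr.del E A)

variable {D : Dia} {V' E : Finset ℕ} {A : ℕ} {p : Bool}

/-- the crossings of `E` which touch `A` -/
def Dia.EA (D : Dia) (E : Finset ℕ) (A : ℕ) : Finset ℕ := E.filter (fun c => D.MGr.Touch A c)

lemma EA_nonempty (h : C0Ctx D V' E A p) : (D.EA E A).Nonempty := by
  obtain ⟨y, hy⟩ := h.conn'.ne
  obtain ⟨hyA, hyV⟩ := Finset.mem_erase.1 hy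
  obtain ⟨e, he, hs⟩ := h.conn.cut {A} (Finset.singleton_subset_iff.2 h.AV)
    ⟨A, Finset.mem_singleton_self A⟩ (by
      intro heq
      rw [← heq, Finset.mem_singleton] at hyV
      exact hyA hyV)
  refine ⟨e, Finset.mem_filter.2 ⟨he, ?_⟩⟩
  unfold MG.Sep at hs
  rw [Finset.mem_singleton, Finset.mem_singleton] at hs
  unfold MG.Touch
  tauto

lemma EA_other (h : C0Ctx D V' E A p) (c : ℕ) (hc : c ∈ D.EA E A) :
    D.MGr.other A c ∈ V'.erase A := by
  obtain ⟨hcE, ht⟩ := Finset.mem_filter.1 hc
  obtain ⟨h1, h2⟩ := h.conn.ends c hcE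
  have hne := tl_ne_hd D c (h.EC hcE)
  unfold MG.other
  split_ifs with h3
  · exact Finset.mem_erase.2 ⟨fun h4 => hne (h3.trans h4.symm), h2⟩
  · exact Finset.mem_erase.2 ⟨h3, h1⟩

private lemma not_mem_del {c : ℕ} (hc : c ∈ D.EA E A) : c ∉ D.MGr.del E A :=
  fun hm => (Finset.mem_filter.1 hm).2 (Finset.mem_filter.1 hc).2

theorem c0_const (h : C0Ctx D V' E A p) (c c' : ℕ) (hc : c ∈ D.EA E A) (hc' : c' ∈ D.EA E A)
    (q q' : Mk) (hq : q = .T ∨ q = .B) (hq' : q' = .T ∨ q' = .B) :
    D.F (D.MGr.del E A) (cor D.pc c q) = D.F (D.MGr.del E A) (cor D.pc c' q') := by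
  have hcE := Finset.mem_filter.1 hc
  have hcE' := Finset.mem_filter.1 hc'
  have key : ∀ d ∈ D.EA E A, ∀ s, s = Mk.T ∨ s = Mk.B →
      D.F (D.MGr.del E A) (cor D.pc d s) = D.F (D.MGr.del E A) (cor D.pc d .T) := by
    intro d hd s hs
    rcases hs with rfl | rfl
    · rfl
    · exact (F_inactive D _ d (h.EC (Finset.mem_filter.1 hd).1) (not_mem_del hd)).symm
  rw [key c hc q hq, key c' hc' q' hq']
  have hss := same_side D A c c' (h.EC hcE.1) (h.EC hcE'.1) hcE.2 hcE'.2
    (by rw [h.sg c hcE.1 hcE.2, h.sg c' hcE'.1 hcE'.2])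
  by_cases hl : D.cl c = A
  · refine const_l D (D.MGr.del E A) A (fun d hd _ hdl => ?_) c c' (h.EC hcE.1) (h.EC hcE'.1) hl
      (hss.1 hl)
    exact (Finset.mem_filter.1 hd).2 ((touch_iff D A d).2 (Or.inl hdl))
  · have hr : D.cr c = A := ((touch_iff D A c).1 hcE.2).resolve_left hl
    have hr' : D.cr c' = A :=
      ((touch_iff D A c').1 hcE'.2).resolve_left (fun h1 => hl (hss.2 h1))
    refine const_r D (D.MGr.del E A) A (fun d hd _ hdl => ?_) c c' (h.EC hcE.1) (h.EC hcE'.1) hr hr'
    exact (Finset.mem_filter.1 hd).2 ((touch_iff D A d).2 (Or.inr hdl))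

/-- the faces above and below the crossings of `A` -/
def Dia.NA (D : Dia) (E : Finset ℕ) (A : ℕ) : Finset ℕ :=
  (D.EA E A).image (fun c => D.F E (cor D.pc c .T)) ∪
    (D.EA E A).image (fun c => D.F E (cor D.pc c .B))

private lemma mem_NA (z : ℕ) : z ∈ D.NA E A ↔
    ∃ c ∈ D.EA E A, ∃ q, (q = Mk.T ∨ q = Mk.B) ∧ D.F E (cor D.pc c q) = z := by
  unfold Dia.NA
  rw [Finset.mem_union, Finset.mem_image, Finset.mem_image]
  constructor
  · rintro (⟨c, hc, rfl⟩ | ⟨c, hc, rfl⟩)
    · exact ⟨c, hc, .T, Or.inl rfl, rfl⟩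
    · exact ⟨c, hc, .B, Or.inr rfl, rfl⟩
  · rintro ⟨c, hc, q, rfl | rfl, rfl⟩
    · exact Or.inl ⟨c, hc, rfl⟩
    · exact Or.inr ⟨c, hc, rfl⟩

/-- the identification of the faces in `N` -/
private def colf (N : Finset ℕ) (z : ℕ) : Option ℕ := if z ∈ N then none else some z

private lemma colf_eq (N : Finset ℕ) (a b : ℕ) :
    colf N a = colf N b ↔ a = b ∨ (a ∈ N ∧ b ∈ N) := by
  unfold colf
  split_ifs with h1 h2 h2
  · simp [h1, h2]
  · constructor
    · intro h
      exact absurd h (by simp)
    · rintro (h | h)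
      · exact absurd (h ▸ h1) h2
      · exact absurd h.2 h2
  · constructor
    · intro h
      exact absurd h (by simp)
    · rintro (h | h)
      · exact absurd (h ▸ h2) h1
      · exact absurd h.1 h1
  · constructor
    · intro h
      exact Or.inl (Option.some.inj h)
    · rintro (h | h)
      · rw [h]
      · exact absurd h.1 h1

theorem c0_merge (h : C0Ctx D V' E A p) (x y : ℕ) :
    D.F (D.MGr.del E A) x = D.F (D.MGr.del E A) y ↔
      D.F E x = D.F E y ∨ (D.F E x ∈ D.NA E A ∧ D.F E y ∈ D.NA E A) := by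
  have hm : ∀ a b, D.F E a = D.F E b → D.F (D.MGr.del E A) a = D.F (D.MGr.del E A) b :=
    fun a b hab => fre_mono D.pc D.n (Finset.filter_subset _ E) a b hab
  rw [← colf_eq]
  constructor
  · intro hxy
    refine fre_const D.pc (D.MGr.del E A) D.n (fun z => colf (D.NA E A) (D.F E z)) ?_ ?_ x y hxy
    · intro j hj k pos hp hjU
      by_cases hjE : j ∈ E
      · have hjA : j ∈ D.EA E A := by
          refine Finset.mem_filter.2 ⟨hjE, ?_⟩
          by_contra ht
          exact hjU (Finset.mem_filter.2 ⟨hjE, ht⟩)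
        rw [colf_eq]
        refine Or.inr ⟨?_, ?_⟩
        · exact (mem_NA _).2 ⟨j, hjA, .T, Or.inl rfl, rfl⟩
        · refine (mem_NA _).2 ⟨j, hjA, .B, Or.inr rfl, ?_⟩
          simp only [cor, hp, Piece.at]
      · have h2 : D.F E (j + 2) = D.F E (gl D.pc j (k + 1)) :=
          fre_cross D.pc E j D.n hj k pos hp hjE
        rw [h2]
    · intro j hj k s hp
      have h2 : D.F E (gl D.pc j k) = D.F E (gl D.pc j (k + 2)) :=
        fre_cap D.pc E j D.n hj k s hp
      rw [h2]
  · intro hxy
    rcases (colf_eq _ _ _).1 hxy with h1 | ⟨h1, h2⟩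
    · exact hm x y h1
    · obtain ⟨c, hc, q, hq, hcq⟩ := (mem_NA _).1 h1
      obtain ⟨c', hc', q', hq', hcq'⟩ := (mem_NA _).1 h2
      rw [← hm _ _ hcq, ← hm _ _ hcq']
      exact c0_const h c c' hc hc' q q' hq hq'

private lemma card_image_le_of' {α β : Type*} [DecidableEq α] [DecidableEq β] (S : Finset ℕ)
    (f : ℕ → α) (g : ℕ → β) (h : ∀ x ∈ S, ∀ y ∈ S, f x = f y → g x = g y) :
    (S.image g).card ≤ (S.image f).card := by
  classical
  have hex : ∀ b ∈ S.image g, ∃ x ∈ S, g x = b := fun b hb => Finset.mem_image.1 hb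
  choose! t ht using hex
  refine Finset.card_le_card_of_injOn (fun b => f (t b)) ?_ ?_
  · intro b hb
    exact Finset.mem_coe.2 (Finset.mem_image_of_mem f (ht b (Finset.mem_coe.1 hb)).1)
  · intro b hb b' hb' he
    have h1 := ht b (Finset.mem_coe.1 hb)
    have h2 := ht b' (Finset.mem_coe.1 hb')
    rw [← h1.2, ← h2.2]
    exact h _ h1.1 _ h2.1 he

private lemma card_colf (S N : Finset ℕ) (hNS : N ⊆ S) (hN : N.Nonempty) :
    (S.image (colf N)).card + N.card = S.card + 1 := by
  classical
  have h1 : S.image (colf N) = insert none ((S \ N).image some) := by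
    ext o
    rw [Finset.mem_image, Finset.mem_insert, Finset.mem_image]
    constructor
    · rintro ⟨z, hz, rfl⟩
      unfold colf
      split_ifs with h
      · exact Or.inl rfl
      · exact Or.inr ⟨z, Finset.mem_sdiff.2 ⟨hz, h⟩, rfl⟩
    · rintro (rfl | ⟨z, hz, rfl⟩)
      · obtain ⟨z, hz⟩ := hN
        exact ⟨z, hNS hz, if_pos hz⟩
      · exact ⟨z, (Finset.mem_sdiff.1 hz).1, if_neg (Finset.mem_sdiff.1 hz).2⟩
  rw [h1, Finset.card_insert_of_notMem (by simp),
    Finset.card_image_of_injective _ (Option.some_injective _)]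
  have h2 := Finset.card_sdiff_add_card_eq_card hNS
  omega

theorem c0_card (h : C0Ctx D V' E A p) : (D.NA E A).card = (D.EA E A).card := by
  classical
  have hU : D.MGr.del E A ⊆ D.C := (Finset.filter_subset _ E).trans h.EC
  have h1 := faces_card' D h.hD V' E h.conn h.V'V h.EC
  have h2 := faces_card' D h.hD (V'.erase A) (D.MGr.del E A) h.conn'
    ((Finset.erase_subset A V').trans h.V'V) hU
  have h3 := Finset.card_erase_add_one h.AV
  have h4 : (D.EA E A).card + (D.MGr.del E A).card = E.card := by
    unfold Dia.EA MG.del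
    exact Finset.card_filter_add_card_filter_not _
  have hsub : D.NA E A ⊆ D.GLb.image (D.F E) := by
    intro z hz
    obtain ⟨c, hc, q, hq, rfl⟩ := (mem_NA z).1 hz
    refine Finset.mem_image_of_mem _ ?_
    exact adj_mem D V' _ (mk_adj D V' E h.EC h.conn c (Finset.mem_filter.1 hc).1 q)
  have hne : (D.NA E A).Nonempty := by
    obtain ⟨c, hc⟩ := EA_nonempty h
    exact ⟨_, (mem_NA _).2 ⟨c, hc, .T, Or.inl rfl, rfl⟩⟩
  have h5 := card_colf (D.GLb.image (D.F E)) (D.NA E A) hsub hne
  rw [Finset.image_image] at h5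
  have h6 : (D.GLb.image (D.F (D.MGr.del E A))).card
      = (D.GLb.image (colf (D.NA E A) ∘ D.F E)).card := by
    refine le_antisymm ?_ ?_
    · refine card_image_le_of' _ _ _ (fun x _ y _ hxy => ?_)
      exact (c0_merge h x y).2 ((colf_eq _ _ _).1 hxy)
    · refine card_image_le_of' _ _ _ (fun x _ y _ hxy => ?_)
      exact (colf_eq _ _ _).2 ((c0_merge h x y).1 hxy)
  omega

private lemma cnt_eq (h : C0Ctx D V' E A p) (z : ℕ) :
    ((D.EA E A).filter (fun c => D.F E (cor D.pc c .T) = z)).card
      = ((D.EA E A).filter (fun c => D.F E (cor D.pc c .B) = z)).card := by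
  classical
  have hsum : ∑ c ∈ D.EA E A, ((if D.F E (cor D.pc c .T) = z then (1 : ℤ) else 0)
      - (if D.F E (cor D.pc c .B) = z then (1 : ℤ) else 0)) = 0 := by
    obtain ⟨c0, hc0⟩ := EA_nonempty h
    have hc0E := Finset.mem_filter.1 hc0
    have hside : ∀ c ∈ D.EA E A, (D.cl c0 = A ↔ D.cl c = A) := by
      intro c hc
      have hcE := Finset.mem_filter.1 hc
      exact same_side D A c0 c (h.EC hc0E.1) (h.EC hcE.1) hc0E.2 hcE.2
        (by rw [h.sg c0 hc0E.1 hc0E.2, h.sg c hcE.1 hcE.2])
    by_cases hl : D.cl c0 = A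
    · refine (Finset.sum_subset ?_ ?_).trans (bal_l D E A (fun w => if w = z then (1 : ℤ) else 0))
      · intro c hc
        exact Finset.mem_filter.2 ⟨h.EC (Finset.mem_filter.1 hc).1, (hside c hc).1 hl⟩
      · intro c hc hcn
        have hcC := Finset.mem_filter.1 hc
        have hcE : c ∉ E := fun hm => hcn (Finset.mem_filter.2
          ⟨hm, (touch_iff D A c).2 (Or.inl hcC.2)⟩)
        rw [F_inactive D E c hcC.1 hcE, sub_self]
    · refine (Finset.sum_subset ?_ ?_).trans (bal_r D E A (fun w => if w = z then (1 : ℤ) else 0))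
      · intro c hc
        refine Finset.mem_filter.2 ⟨h.EC (Finset.mem_filter.1 hc).1, ?_⟩
        exact ((touch_iff D A c).1 (Finset.mem_filter.1 hc).2).resolve_left
          (fun h1 => hl ((hside c hc).2 h1))
      · intro c hc hcn
        have hcC := Finset.mem_filter.1 hc
        have hcE : c ∉ E := fun hm => hcn (Finset.mem_filter.2
          ⟨hm, (touch_iff D A c).2 (Or.inr hcC.2)⟩)
        rw [F_inactive D E c hcC.1 hcE, sub_self]
  rw [Finset.sum_sub_distrib, Finset.sum_boole, Finset.sum_boole] at hsum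
  have := sub_eq_zero.1 hsum
  exact_mod_cast this

theorem c0_img (h : C0Ctx D V' E A p) (q : Mk) (hq : q = .T ∨ q = .B) :
    (D.EA E A).image (fun c => D.F E (cor D.pc c q)) = D.NA E A ∧
      ∀ c ∈ D.EA E A, ∀ c' ∈ D.EA E A, D.F E (cor D.pc c q) = D.F E (cor D.pc c' q) → c = c' := by
  classical
  have hTB : (D.EA E A).image (fun c => D.F E (cor D.pc c .T))
      = (D.EA E A).image (fun c => D.F E (cor D.pc c .B)) := by
    ext z
    rw [Finset.mem_image, Finset.mem_image]
    have h1 : (∃ a ∈ D.EA E A, D.F E (cor D.pc a .T) = z) ↔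
        0 < ((D.EA E A).filter (fun c => D.F E (cor D.pc c .T) = z)).card := by
      rw [Finset.card_pos, Finset.filter_nonempty_iff]
    have h2 : (∃ a ∈ D.EA E A, D.F E (cor D.pc a .B) = z) ↔
        0 < ((D.EA E A).filter (fun c => D.F E (cor D.pc c .B) = z)).card := by
      rw [Finset.card_pos, Finset.filter_nonempty_iff]
    rw [h1, h2, cnt_eq h z]
  have himg : (D.EA E A).image (fun c => D.F E (cor D.pc c q)) = D.NA E A := by
    unfold Dia.NA
    rcases hq with rfl | rfl
    · rw [← hTB, Finset.union_self]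
    · rw [hTB, Finset.union_self]
  refine ⟨himg, ?_⟩
  have hcard : ((D.EA E A).image (fun c => D.F E (cor D.pc c q))).card = (D.EA E A).card := by
    rw [himg, c0_card h]
  have hinj := Finset.card_image_iff.1 hcard
  intro c hc c' hc' he
  exact hinj (Finset.mem_coe.2 hc) (Finset.mem_coe.2 hc') he

end LGAlt
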