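import Pool.Agent.LGAlt2.KRe

/-!
# States of a diagram with an ear, first part

Let `(V₁, E₁)` be connected, and let `c 0, …, c (k - 1)` be an ear with the vertices `W 0, …, W k` and with all
crossings of the same sign, `V₂ = earV V₁ k W`, `E₂ = earE E₁ k c`.
* `vab a b`, `eab a b` : the subdiagram with the crossings `c i`, `i < a` and `b ≤ i < k`, and with the
  circles `W i`, `1 ≤ i ≤ a` and `b ≤ i < k`.
* `ab_pend_left` : if `a + 1 < b ≤ k`, then `Pend (vab a b) (eab a b) (W (a + 1)) (c a)` (the other end of `c a` is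
  `W a`); `ab_pend_right` : if `a < b`, `b + 1 ≤ k`: `Pend (vab a (b + 1)) (eab a (b + 1)) (W b) (c b)` (the
  other end of `c b` is `W (b + 1)`).
* `ab_kst` : so for `a < b ≤ k`, a state `m` of `E₁` such that `m (c i) = far (W (i + 1)) (c i)` for `i < a` and
  `m (c i) = far (W i) (c i)` for `b ≤ i < k` is a state of `eab a b` (`ext_kst`, induction on `a` and on
  `k - b`); `(vab a b, eab a b)` is connected (`pend_conn`).
* `vab j (j + 1) = V₂`, `eab j (j + 1) = E₂.erase (c j)`.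
* `ear_alt` : by `nonbridge_ne` `F E₂ (cor (c i) T) ≠ F E₂ (cor (c i) B)`.  For `0 < i < k` the crossings of
  `E₂` which touch `W i` are `c (i - 1)` and `c i`, with `W i` on the same side (`same_side`).  So `bal_l` or
  `bal_r` for `W i`, with `g` the indicator of `F E₂ (cor (c (i - 1)) T)` (resp. `B`), gives
  `F E₂ (cor (c i) B) = F E₂ (cor (c (i - 1)) T)` and `F E₂ (cor (c i) T) = F E₂ (cor (c (i - 1)) B)`.
* `ear_TB` : hence the faces of `cor (c i) T` and `cor (c i) B` are those of `c 0` if `i` is even, and they are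
  exchanged if `i` is odd.
* `root_below`, `root_above` : roots of the circle `W` next to the crossing `c`.
* `earA`, `earB` : the states of `E₂` for a root just below `c 0` (`b = true`) or just above `c 0`
  (`b = false`) at the circle `W 0`.  `stA` : the crossing `c 0` has the mark `T` (if `b = true`, `reinsert_T`)
  or `B` (if `b = false`, `reinsert_B`), and `c i`, `i > 0`, has the mark `far (W i) (c i)`.
  `stB j` : the crossing `c j` has the mark `T` if `b = true` and `j` is even, or if `b = false` and `j` is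
  odd, and the mark `B` otherwise; `c i` has the mark `far (W (i + 1)) (c i)` for `i < j` and `far (W i) (c i)`
  for `i > j`.  (`stA = stB 0`.)
-/

namespace LGAlt

/-- the circles of a partial ear -/
def vab (V₁ : Finset ℕ) (k : ℕ) (W : ℕ → ℕ) (a b : ℕ) : Finset ℕ :=
  V₁ ∪ ((Finset.Ico 1 k).filter (fun i => i ≤ a ∨ b ≤ i)).image W

/-- the crossings of a partial ear -/
def eab (E₁ : Finset ℕ) (k : ℕ) (c : ℕ → ℕ) (a b : ℕ) : Finset ℕ :=
  E₁ ∪ ((Finset.range k).filter (fun i => i < a ∨ b ≤ i)).image c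

/-- the situation of an ear -/
structure KEarCtx (D : Dia) (V₁ E₁ : Finset ℕ) (k : ℕ) (W c : ℕ → ℕ) (p : Bool) : Prop where
  hD : D.MGr.Conn D.V D.C
  V₁V : V₁ ⊆ D.V
  E₁C : E₁ ⊆ D.C
  conn : D.MGr.Conn V₁ E₁
  ear : D.MGr.IsEar V₁ E₁ k W c
  eV : MG.earV V₁ k W ⊆ D.V
  cC : ∀ i < k, c i ∈ D.C
  sg : ∀ i < k, D.MGr.sg (c i) = p

variable {D : Dia} {V₁ E₁ : Finset ℕ} {k : ℕ} {W c : ℕ → ℕ} {p : Bool}

lemma vab_full (V₁ : Finset ℕ) (k : ℕ) (W : ℕ → ℕ) (j : ℕ) (hj : j < k) :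
    vab V₁ k W j (j + 1) = MG.earV V₁ k W := by
  unfold vab MG.earV
  congr 2
  apply Finset.filter_true_of_mem
  intro i _
  omega

lemma eab_full (h : KEarCtx D V₁ E₁ k W c p) (j : ℕ) (hj : j < k) :
    eab E₁ k c j (j + 1) = (MG.earE E₁ k c).erase (c j) := by
  ext e
  unfold eab MG.earE
  simp only [Finset.mem_union, Finset.mem_image, Finset.mem_filter, Finset.mem_range,
    Finset.mem_erase]
  constructor
  · rintro (he | ⟨i, ⟨hi, hij⟩, rfl⟩)
    · exact ⟨fun h1 => h.ear.cnot j hj (h1 ▸ he), Or.inl he⟩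
    · refine ⟨fun h1 => ?_, Or.inr ⟨i, hi, rfl⟩⟩
      have := h.ear.cinj i hi j hj h1
      omega
  · rintro ⟨hne, he | ⟨i, hi, rfl⟩⟩
    · exact Or.inl he
    · refine Or.inr ⟨i, ⟨hi, ?_⟩, rfl⟩
      by_contra h1
      have : i = j := by omega
      exact hne (by rw [this])

/-- the ends of the crossings of the ear -/
lemma ear_touch (h : KEarCtx D V₁ E₁ k W c p) (i : ℕ) (hi : i < k) :
    D.MGr.Touch (W i) (c i) ∧ D.MGr.Touch (W (i + 1)) (c i) ∧ D.MGr.other (W i) (c i) = W (i + 1) ∧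
      D.MGr.other (W (i + 1)) (c i) = W i := by
  have hne := tl_ne_hd D (c i) (h.cC i hi)
  rcases h.ear.ends i hi with ⟨h1, h2⟩ | ⟨h1, h2⟩
  · refine ⟨Or.inl h1, Or.inr h2, ?_, ?_⟩
    · unfold MG.other
      rw [if_pos h1, h2]
    · unfold MG.other
      rw [if_neg, h1]
      intro h3
      exact hne (h3.trans h2.symm)
  · refine ⟨Or.inr h1, Or.inl h2, ?_, ?_⟩
    · unfold MG.other
      rw [if_neg, h2]
      intro h3
      exact hne (h3.trans h1.symm)
    · unfold MG.other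
      rw [if_pos h2, h1]

/-- the types alternate along the ear -/
lemma ear_ty (h : KEarCtx D V₁ E₁ k W c p) (i : ℕ) (hi : i < k) :
    D.ty (W (i + 1)) = !(D.ty (W i)) := by
  have h3 := ty_tl D (c i) (h.cC i hi)
  have h4 := ty_hd D (c i) (h.cC i hi)
  rcases h.ear.ends i hi with ⟨h1, h2⟩ | ⟨h1, h2⟩
  · rw [h1] at h3
    rw [h2] at h4
    rw [h3, h4]
    rfl
  · rw [h2] at h3
    rw [h1] at h4
    rw [h3, h4]
    rfl

private lemma mem_vab {V₁ : Finset ℕ} {k : ℕ} {W : ℕ → ℕ} {a b x : ℕ} :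
    x ∈ vab V₁ k W a b ↔ x ∈ V₁ ∨ ∃ i, (1 ≤ i ∧ i < k ∧ (i ≤ a ∨ b ≤ i)) ∧ W i = x := by
  unfold vab
  simp only [Finset.mem_union, Finset.mem_image, Finset.mem_filter, Finset.mem_Ico, and_assoc]

private lemma mem_eab {E₁ : Finset ℕ} {k : ℕ} {c : ℕ → ℕ} {a b x : ℕ} :
    x ∈ eab E₁ k c a b ↔ x ∈ E₁ ∨ ∃ i, (i < k ∧ (i < a ∨ b ≤ i)) ∧ c i = x := by
  unfold eab
  simp only [Finset.mem_union, Finset.mem_image, Finset.mem_filter, Finset.mem_range]

private lemma vab_zero (V₁ : Finset ℕ) (k : ℕ) (W : ℕ → ℕ) : vab V₁ k W 0 k = V₁ := by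
  ext x
  rw [mem_vab]
  constructor
  · rintro (h | ⟨i, ⟨h1, h2, h3⟩, _⟩)
    · exact h
    · omega
  · exact Or.inl

private lemma eab_zero (E₁ : Finset ℕ) (k : ℕ) (c : ℕ → ℕ) : eab E₁ k c 0 k = E₁ := by
  ext x
  rw [mem_eab]
  constructor
  · rintro (h | ⟨i, ⟨h1, h2⟩, _⟩)
    · exact h
    · omega
  · exact Or.inl

private lemma vab_sub (h : KEarCtx D V₁ E₁ k W c p) (a b : ℕ) : vab V₁ k W a b ⊆ D.V := by
  intro x hx
  rcases mem_vab.1 hx with h1 | ⟨i, ⟨h1, h2, _⟩, rfl⟩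
  · exact h.V₁V h1
  · exact h.eV (Finset.mem_union_right _ (Finset.mem_image_of_mem _ (Finset.mem_Ico.2 ⟨h1, h2⟩)))

private lemma eab_sub (h : KEarCtx D V₁ E₁ k W c p) (a b : ℕ) : eab E₁ k c a b ⊆ D.C := by
  intro x hx
  rcases mem_eab.1 hx with h1 | ⟨i, ⟨h1, _⟩, rfl⟩
  · exact h.E₁C h1
  · exact h.cC i h1

/-- an interior circle of the ear is in `vab a b` only if its number is in the range -/
private lemma W_notMem (h : KEarCtx D V₁ E₁ k W c p) (a b i : ℕ) (hi : 0 < i) (hik : i < k)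
    (ha : a < i) (hb : i < b) : W i ∉ vab V₁ k W a b := by
  intro h1
  rcases mem_vab.1 h1 with h2 | ⟨l, ⟨h2, h3, h4⟩, h5⟩
  · exact h.ear.Wint i hi hik h2
  · have := h.ear.Winj l i (by omega) h3 hi hik h5
    omega

private lemma c_notMem (h : KEarCtx D V₁ E₁ k W c p) (a b i : ℕ) (hik : i < k)
    (ha : a ≤ i) (hb : i < b) : c i ∉ eab E₁ k c a b := by
  intro h1
  rcases mem_eab.1 h1 with h2 | ⟨l, ⟨h2, h3⟩, h4⟩
  · exact h.ear.cnot i hik h2
  · have := h.ear.cinj l h2 i hik h4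
    omega

private lemma W_mem_V (h : KEarCtx D V₁ E₁ k W c p) (i : ℕ) (hi : i ≤ k) : W i ∈ D.V := by
  rcases Nat.eq_zero_or_pos i with h0 | h0
  · rw [h0]
    exact h.V₁V h.ear.W0
  · rcases hi.eq_or_lt with h1 | h1
    · rw [h1]
      exact h.V₁V h.ear.Wk
    · exact h.eV (Finset.mem_union_right _ (Finset.mem_image_of_mem _ (Finset.mem_Ico.2 ⟨h0, h1⟩)))

private theorem ab_pend_left (h : KEarCtx D V₁ E₁ k W c p) (a b : ℕ) (hab : a + 1 < b) (hb : b ≤ k)
    (hc : D.MGr.Conn (vab V₁ k W a b) (eab E₁ k c a b)) :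
    Pend D (vab V₁ k W a b) (eab E₁ k c a b) (W (a + 1)) (c a) where
  conn := hc
  V'V := vab_sub h a b
  UC := eab_sub h a b
  wV := W_mem_V h (a + 1) (by omega)
  wV' := W_notMem h a b (a + 1) (by omega) (by omega) (by omega) hab
  cC := h.cC a (by omega)
  cU := c_notMem h a b a (by omega) le_rfl (by omega)
  tch := (ear_touch h a (by omega)).2.1
  oth := by
    rw [(ear_touch h a (by omega)).2.2.2]
    rcases Nat.eq_zero_or_pos a with h0 | h0
    · rw [h0]
      exact mem_vab.2 (Or.inl h.ear.W0)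
    · exact mem_vab.2 (Or.inr ⟨a, ⟨h0, by omega, Or.inl le_rfl⟩, rfl⟩)

private theorem ab_pend_right (h : KEarCtx D V₁ E₁ k W c p) (a b : ℕ) (hab : a < b) (hb : b + 1 ≤ k)
    (hc : D.MGr.Conn (vab V₁ k W a (b + 1)) (eab E₁ k c a (b + 1))) :
    Pend D (vab V₁ k W a (b + 1)) (eab E₁ k c a (b + 1)) (W b) (c b) where
  conn := hc
  V'V := vab_sub h a (b + 1)
  UC := eab_sub h a (b + 1)
  wV := W_mem_V h b (by omega)
  wV' := W_notMem h a (b + 1) b (by omega) (by omega) hab (by omega)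
  cC := h.cC b (by omega)
  cU := c_notMem h a (b + 1) b (by omega) (by omega) (by omega)
  tch := (ear_touch h b (by omega)).1
  oth := by
    rw [(ear_touch h b (by omega)).2.2.1]
    rcases hb.eq_or_lt with h1 | h1
    · rw [h1]
      exact mem_vab.2 (Or.inl h.ear.Wk)
    · exact mem_vab.2 (Or.inr ⟨b + 1, ⟨by omega, h1, Or.inr le_rfl⟩, rfl⟩)

private lemma vab_insert_left (V₁ : Finset ℕ) (k : ℕ) (W : ℕ → ℕ) (a b : ℕ) (hab : a + 1 < b)
    (hb : b ≤ k) : insert (W (a + 1)) (vab V₁ k W a b) = vab V₁ k W (a + 1) b := by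
  ext x
  rw [Finset.mem_insert, mem_vab, mem_vab]
  constructor
  · rintro (h | h | ⟨i, ⟨h1, h2, h3⟩, h4⟩)
    · exact Or.inr ⟨a + 1, ⟨by omega, by omega, Or.inl le_rfl⟩, h.symm⟩
    · exact Or.inl h
    · exact Or.inr ⟨i, ⟨h1, h2, by omega⟩, h4⟩
  · rintro (h | ⟨i, ⟨h1, h2, h3⟩, h4⟩)
    · exact Or.inr (Or.inl h)
    · by_cases h5 : i = a + 1
      · left
        rw [← h4, h5]
      · exact Or.inr (Or.inr ⟨i, ⟨h1, h2, by omega⟩, h4⟩)

private lemma eab_insert_left (E₁ : Finset ℕ) (k : ℕ) (c : ℕ → ℕ) (a b : ℕ) (hab : a + 1 < b)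
    (hb : b ≤ k) : insert (c a) (eab E₁ k c a b) = eab E₁ k c (a + 1) b := by
  ext x
  rw [Finset.mem_insert, mem_eab, mem_eab]
  constructor
  · rintro (h | h | ⟨i, ⟨h1, h2⟩, h4⟩)
    · exact Or.inr ⟨a, ⟨by omega, Or.inl (by omega)⟩, h.symm⟩
    · exact Or.inl h
    · exact Or.inr ⟨i, ⟨h1, by omega⟩, h4⟩
  · rintro (h | ⟨i, ⟨h1, h2⟩, h4⟩)
    · exact Or.inr (Or.inl h)
    · by_cases h5 : i = a
      · left
        rw [← h4, h5]
      · exact Or.inr (Or.inr ⟨i, ⟨h1, by omega⟩, h4⟩)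

private lemma vab_insert_right (V₁ : Finset ℕ) (k : ℕ) (W : ℕ → ℕ) (a b : ℕ) (hab : a < b)
    (hb : b + 1 ≤ k) : insert (W b) (vab V₁ k W a (b + 1)) = vab V₁ k W a b := by
  ext x
  rw [Finset.mem_insert, mem_vab, mem_vab]
  constructor
  · rintro (h | h | ⟨i, ⟨h1, h2, h3⟩, h4⟩)
    · exact Or.inr ⟨b, ⟨by omega, by omega, Or.inr le_rfl⟩, h.symm⟩
    · exact Or.inl h
    · exact Or.inr ⟨i, ⟨h1, h2, by omega⟩, h4⟩
  · rintro (h | ⟨i, ⟨h1, h2, h3⟩, h4⟩)
    · exact Or.inr (Or.inl h)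
    · by_cases h5 : i = b
      · left
        rw [← h4, h5]
      · exact Or.inr (Or.inr ⟨i, ⟨h1, h2, by omega⟩, h4⟩)

private lemma eab_insert_right (E₁ : Finset ℕ) (k : ℕ) (c : ℕ → ℕ) (a b : ℕ) (hab : a < b)
    (hb : b + 1 ≤ k) : insert (c b) (eab E₁ k c a (b + 1)) = eab E₁ k c a b := by
  ext x
  rw [Finset.mem_insert, mem_eab, mem_eab]
  constructor
  · rintro (h | h | ⟨i, ⟨h1, h2⟩, h4⟩)
    · exact Or.inr ⟨b, ⟨by omega, Or.inr le_rfl⟩, h.symm⟩
    · exact Or.inl h
    · exact Or.inr ⟨i, ⟨h1, by omega⟩, h4⟩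
  · rintro (h | ⟨i, ⟨h1, h2⟩, h4⟩)
    · exact Or.inr (Or.inl h)
    · by_cases h5 : i = b
      · left
        rw [← h4, h5]
      · exact Or.inr (Or.inr ⟨i, ⟨h1, by omega⟩, h4⟩)

/-- induction over the partial ears -/
private lemma ab_ind (k : ℕ) (P : ℕ → ℕ → Prop) (h0 : P 0 k)
    (hl : ∀ a b, a + 1 < b → b ≤ k → P a b → P (a + 1) b)
    (hr : ∀ a b, a < b → b + 1 ≤ k → P a (b + 1) → P a b) (a b : ℕ) (hab : a < b) (hb : b ≤ k) :
    P a b := by
  have h1 : ∀ a, a < k → P a k := by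
    intro a
    induction a with
    | zero => exact fun _ => h0
    | succ a ih => exact fun ha => hl a k ha le_rfl (ih (by omega))
  have h2 : ∀ d b, b + d = k → a < b → P a b := by
    intro d
    induction d with
    | zero =>
      intro b hb hab
      have : b = k := by omega
      rw [this]
      exact h1 a (by omega)
    | succ d ih =>
      intro b hb hab
      exact hr a b hab (by omega) (ih (b + 1) (by omega) (by omega))
  exact h2 (k - b) b (by omega) hab

theorem ab_conn (h : KEarCtx D V₁ E₁ k W c p) (a b : ℕ) (hab : a < b) (hb : b ≤ k) :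
    D.MGr.Conn (vab V₁ k W a b) (eab E₁ k c a b) := by
  refine ab_ind k (fun a b => D.MGr.Conn (vab V₁ k W a b) (eab E₁ k c a b)) ?_ ?_ ?_ a b hab hb
  · show D.MGr.Conn (vab V₁ k W 0 k) (eab E₁ k c 0 k)
    rw [vab_zero, eab_zero]
    exact h.conn
  · intro a b hab hb hc
    have := pend_conn (ab_pend_left h a b hab hb hc)
    rwa [vab_insert_left V₁ k W a b hab hb, eab_insert_left E₁ k c a b hab hb] at this
  · intro a b hab hb hc
    have := pend_conn (ab_pend_right h a b hab hb hc)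
    rwa [vab_insert_right V₁ k W a b hab hb, eab_insert_right E₁ k c a b hab hb] at this

theorem ab_kst (h : KEarCtx D V₁ E₁ k W c p) (a b : ℕ) (hab : a < b) (hb : b ≤ k) (r : ℕ × ℕ)
    (hr : D.IsRoot r) (hrV : D.rc r ∈ V₁) (m : ℕ → Mk) (hm : Kst D.pc D.n E₁ r m)
    (h1 : ∀ i < a, m (c i) = D.far (W (i + 1)) (c i))
    (h2 : ∀ i, b ≤ i → i < k → m (c i) = D.far (W i) (c i)) :
    Kst D.pc D.n (eab E₁ k c a b) r m := by
  refine ab_ind k (fun a b => (∀ i < a, m (c i) = D.far (W (i + 1)) (c i)) →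
    (∀ i, b ≤ i → i < k → m (c i) = D.far (W i) (c i)) → Kst D.pc D.n (eab E₁ k c a b) r m)
    ?_ ?_ ?_ a b hab hb h1 h2
  · intro _ _
    show Kst D.pc D.n (eab E₁ k c 0 k) r m
    rw [eab_zero]
    exact hm
  · intro a b hab hb ih h1 h2
    have := ext_kst (ab_pend_left h a b hab hb (ab_conn h a b (by omega) hb)) r hr
      (mem_vab.2 (Or.inl hrV)) m (ih (fun i hi => h1 i (by omega)) h2) (h1 a (by omega))
    rwa [eab_insert_left E₁ k c a b hab hb] at this
  · intro a b hab hb ih h1 h2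
    have := ext_kst (ab_pend_right h a b hab hb (ab_conn h a (b + 1) (by omega) hb)) r hr
      (mem_vab.2 (Or.inl hrV)) m (ih h1 (fun i hi hik => h2 i (by omega) hik))
      (h2 b le_rfl (by omega))
    rwa [eab_insert_right E₁ k c a b hab hb] at this

private lemma erase_conn (h : KEarCtx D V₁ E₁ k W c p) (j : ℕ) (hj : j < k) :
    D.MGr.Conn (MG.earV V₁ k W) ((MG.earE E₁ k c).erase (c j)) := by
  have := ab_conn h j (j + 1) (by omega) (by omega)
  rwa [vab_full V₁ k W j hj, eab_full h j hj] at this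

private lemma W_mem_ear (h : KEarCtx D V₁ E₁ k W c p) (i : ℕ) (hi : i ≤ k) : W i ∈ MG.earV V₁ k W := by
  rcases Nat.eq_zero_or_pos i with h0 | h0
  · rw [h0]
    exact Finset.mem_union_left _ h.ear.W0
  · rcases hi.eq_or_lt with h1 | h1
    · rw [h1]
      exact Finset.mem_union_left _ h.ear.Wk
    · exact Finset.mem_union_right _ (Finset.mem_image_of_mem _ (Finset.mem_Ico.2 ⟨h0, h1⟩))

theorem ear_conn2 (h : KEarCtx D V₁ E₁ k W c p) :
    D.MGr.Conn (MG.earV V₁ k W) (MG.earE E₁ k c) := by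
  have h0 : 0 < k := h.ear.kpos
  have h1 := erase_conn h 0 h0
  refine ⟨h1.ne, ?_, ?_⟩
  · intro e he
    by_cases hec : e = c 0
    · rw [hec]
      rcases h.ear.ends 0 h0 with ⟨h2, h3⟩ | ⟨h2, h3⟩
      · rw [h2, h3]
        exact ⟨W_mem_ear h 0 (by omega), W_mem_ear h (0 + 1) (by omega)⟩
      · rw [h2, h3]
        exact ⟨W_mem_ear h (0 + 1) (by omega), W_mem_ear h 0 (by omega)⟩
    · exact h1.ends e (Finset.mem_erase.2 ⟨hec, he⟩)
  · intro Y hY hne hne'
    obtain ⟨e, he, hs⟩ := h1.cut Y hY hne hne'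
    exact ⟨e, Finset.mem_of_mem_erase he, hs⟩

private lemma earE_sub (h : KEarCtx D V₁ E₁ k W c p) : MG.earE E₁ k c ⊆ D.C := by
  intro e he
  rcases Finset.mem_union.1 he with h1 | h1
  · exact h.E₁C h1
  · obtain ⟨i, hi, rfl⟩ := Finset.mem_image.1 h1
    exact h.cC i (Finset.mem_range.1 hi)

private lemma c_mem_ear (i : ℕ) (hi : i < k) : c i ∈ MG.earE E₁ k c :=
  Finset.mem_union_right _ (Finset.mem_image_of_mem _ (Finset.mem_range.2 hi))

/-- the crossings of `E₂` touching an interior circle of the ear -/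
private lemma ear_only (h : KEarCtx D V₁ E₁ k W c p) (i : ℕ) (hi : i + 1 < k) (e : ℕ)
    (he : e ∈ MG.earE E₁ k c) (ht : D.MGr.Touch (W (i + 1)) e) : e = c i ∨ e = c (i + 1) := by
  rcases Finset.mem_union.1 he with h1 | h1
  · exfalso
    have h2 := h.conn.ends e h1
    have h3 := h.ear.Wint (i + 1) (by omega) hi
    rcases ht with h4 | h4
    · rw [h4] at h2
      exact h3 h2.1
    · rw [h4] at h2
      exact h3 h2.2
  · obtain ⟨l, hl, rfl⟩ := Finset.mem_image.1 h1
    have hl' := Finset.mem_range.1 hl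
    have h2 : W l = W (i + 1) ∨ W (l + 1) = W (i + 1) := by
      rcases h.ear.ends l hl' with ⟨h3, h4⟩ | ⟨h3, h4⟩
      · rcases ht with h5 | h5
        · exact Or.inl (h3.symm.trans h5)
        · exact Or.inr (h4.symm.trans h5)
      · rcases ht with h5 | h5
        · exact Or.inr (h4.symm.trans h5)
        · exact Or.inl (h3.symm.trans h5)
    have h3 := h.ear.Wint (i + 1) (by omega) hi
    rcases h2 with h2 | h2
    · right
      rcases Nat.eq_zero_or_pos l with h0 | h0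
      · exfalso
        rw [h0] at h2
        exact h3 (h2 ▸ h.ear.W0)
      · rw [h.ear.Winj l (i + 1) h0 hl' (by omega) hi h2]
    · left
      rcases (show l + 1 ≤ k from hl').eq_or_lt with h0 | h0
      · exfalso
        rw [h0] at h2
        exact h3 (h2 ▸ h.ear.Wk)
      · have := h.ear.Winj (l + 1) (i + 1) (by omega) h0 (by omega) hi h2
        have h6 : l = i := by omega
        rw [h6]

/-- the faces on the two sides of the two crossings, from the balance equations -/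
private lemma alt_of_bal (fT fB : ℕ → ℕ) (c₀ c₁ : ℕ) (hne : fT c₀ ≠ fB c₀)
    (hb : ∀ g : ℕ → ℤ, (g (fT c₀) - g (fB c₀)) + (g (fT c₁) - g (fB c₁)) = 0) :
    fB c₁ = fT c₀ ∧ fT c₁ = fB c₀ := by
  constructor
  · have h1 := hb (fun x => if x = fT c₀ then 1 else 0)
    simp only [if_true, if_neg hne.symm] at h1
    by_contra h2
    rw [if_neg h2] at h1
    split_ifs at h1 <;> omega
  · have h1 := hb (fun x => if x = fB c₀ then 1 else 0)
    simp only [if_true, if_neg hne] at h1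
    by_contra h2
    rw [if_neg h2] at h1
    split_ifs at h1 <;> omega

theorem ear_alt (h : KEarCtx D V₁ E₁ k W c p) (i : ℕ) (hi : i + 1 < k) :
    D.F (MG.earE E₁ k c) (cor D.pc (c (i + 1)) .B) = D.F (MG.earE E₁ k c) (cor D.pc (c i) .T) ∧
      D.F (MG.earE E₁ k c) (cor D.pc (c (i + 1)) .T)
        = D.F (MG.earE E₁ k c) (cor D.pc (c i) .B) := by
  have hcne : c i ≠ c (i + 1) := by
    intro h1
    have := h.ear.cinj i (by omega) (i + 1) hi h1
    omega
  have hne := nonbridge_ne D h.hD (MG.earV V₁ k W) (MG.earE E₁ k c) (ear_conn2 h) h.eV (earE_sub h)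
    (c i) (c_mem_ear i (by omega)) (erase_conn h i (by omega))
  have ht0 := (ear_touch h i (by omega)).2.1
  have ht1 := (ear_touch h (i + 1) hi).1
  have hside := same_side D (W (i + 1)) (c i) (c (i + 1)) (h.cC i (by omega)) (h.cC (i + 1) hi)
    ht0 ht1 ((h.sg i (by omega)).trans (h.sg (i + 1) hi).symm)
  refine alt_of_bal (fun x => D.F (MG.earE E₁ k c) (cor D.pc x .T))
    (fun x => D.F (MG.earE E₁ k c) (cor D.pc x .B)) (c i) (c (i + 1)) hne ?_
  intro g
  by_cases hcl : D.cl (c i) = W (i + 1)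
  · have hb := bal_l D (MG.earE E₁ k c) (W (i + 1)) g
    have hsub : ({c i, c (i + 1)} : Finset ℕ) ⊆ D.C.filter (fun c => D.cl c = W (i + 1)) := by
      intro x hx
      rcases Finset.mem_insert.1 hx with rfl | hx
      · exact Finset.mem_filter.2 ⟨h.cC i (by omega), hcl⟩
      · rw [Finset.mem_singleton.1 hx]
        exact Finset.mem_filter.2 ⟨h.cC (i + 1) hi, hside.1 hcl⟩
    rw [← Finset.sum_subset hsub, Finset.sum_pair hcne] at hb
    · exact hb
    · intro x hx hx'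
      obtain ⟨hxC, hxl⟩ := Finset.mem_filter.1 hx
      have hxE : x ∉ MG.earE E₁ k c := by
        intro h1
        rcases ear_only h i hi x h1 ((touch_iff D _ _).2 (Or.inl hxl)) with h2 | h2
        · exact hx' (by rw [h2]; exact Finset.mem_insert_self _ _)
        · exact hx' (by rw [h2]; exact Finset.mem_insert_of_mem (Finset.mem_singleton_self _))
      rw [F_inactive D _ x hxC hxE, sub_self]
  · have hcl' : ¬ D.cl (c (i + 1)) = W (i + 1) := fun h1 => hcl (hside.2 h1)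
    have hr0 : D.cr (c i) = W (i + 1) := ((touch_iff D _ _).1 ht0).resolve_left hcl
    have hr1 : D.cr (c (i + 1)) = W (i + 1) := ((touch_iff D _ _).1 ht1).resolve_left hcl'
    have hb := bal_r D (MG.earE E₁ k c) (W (i + 1)) g
    have hsub : ({c i, c (i + 1)} : Finset ℕ) ⊆ D.C.filter (fun c => D.cr c = W (i + 1)) := by
      intro x hx
      rcases Finset.mem_insert.1 hx with rfl | hx
      · exact Finset.mem_filter.2 ⟨h.cC i (by omega), hr0⟩
      · rw [Finset.mem_singleton.1 hx]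
        exact Finset.mem_filter.2 ⟨h.cC (i + 1) hi, hr1⟩
    rw [← Finset.sum_subset hsub, Finset.sum_pair hcne] at hb
    · exact hb
    · intro x hx hx'
      obtain ⟨hxC, hxl⟩ := Finset.mem_filter.1 hx
      have hxE : x ∉ MG.earE E₁ k c := by
        intro h1
        rcases ear_only h i hi x h1 ((touch_iff D _ _).2 (Or.inr hxl)) with h2 | h2
        · exact hx' (by rw [h2]; exact Finset.mem_insert_self _ _)
        · exact hx' (by rw [h2]; exact Finset.mem_insert_of_mem (Finset.mem_singleton_self _))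
      rw [F_inactive D _ x hxC hxE, sub_self]

theorem ear_TB (h : KEarCtx D V₁ E₁ k W c p) (i : ℕ) (hi : i < k) :
    D.F (MG.earE E₁ k c) (cor D.pc (c i) .T)
        = D.F (MG.earE E₁ k c) (cor D.pc (c 0) (if i % 2 = 0 then .T else .B)) ∧
      D.F (MG.earE E₁ k c) (cor D.pc (c i) .B)
        = D.F (MG.earE E₁ k c) (cor D.pc (c 0) (if i % 2 = 0 then .B else .T)) := by
  induction i with
  | zero => exact ⟨rfl, rfl⟩
  | succ i ih =>
    obtain ⟨h1, h2⟩ := ear_alt h i hi
    obtain ⟨h3, h4⟩ := ih (by omega)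
    rw [h2, h1, h4, h3]
    rcases Nat.mod_two_eq_zero_or_one i with h5 | h5
    · have h6 : (i + 1) % 2 = 1 := by omega
      rw [h5, h6]
      exact ⟨rfl, rfl⟩
    · have h6 : (i + 1) % 2 = 0 := by omega
      rw [h5, h6]
      exact ⟨rfl, rfl⟩

/-- a root of the circle `W` just below the crossing `c` (`b = true`) or just above it -/
theorem root_at (D : Dia) (W c : ℕ) (hc : c ∈ D.C) (h : D.MGr.Touch W c) (b : Bool) :
    ∃ r, D.IsRoot r ∧ D.rc r = W ∧ (gl D.pc r.1 r.2 = cor D.pc c (if b then .B else .T) ∨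
      gl D.pc r.1 (r.2 + 1) = cor D.pc c (if b then .B else .T)) := by
  obtain ⟨hcr, hX⟩ := Finset.mem_filter.1 hc
  have hcn := Finset.mem_range.1 hcr
  obtain ⟨q, pos, hpc⟩ : ∃ q pos, D.pc c = .cross q pos := by
    cases hp : D.pc c with
    | cross q pos => exact ⟨q, pos, rfl⟩
    | cup q s => rw [hp] at hX; exact absurd hX Bool.false_ne_true
    | cap q s => rw [hp] at hX; exact absurd hX Bool.false_ne_true
  have hk := (D.hcross c hcn q pos hpc).1
  have hat : (D.pc c).at = q := by rw [hpc]; rfl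
  rcases (touch_iff D W c).1 h with hW | hW
  · -- `W` on the left
    unfold Dia.cl at hW
    rw [hat] at hW
    cases b with
    | true =>
      refine ⟨(c, q), ⟨hcn.le, by show q < str D.pc c; omega⟩, hW, Or.inr ?_⟩
      show gl D.pc c (q + 1) = gl D.pc c ((D.pc c).at + 1)
      rw [hat]
    | false =>
      refine ⟨(c + 1, q), ⟨hcn, ?_⟩, ?_, Or.inr ?_⟩
      · show q < str D.pc (c + 1)
        simp only [str, hpc]
        omega
      · show D.ci (sl D.pc (c + 1) q) = W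
        simp only [sl, hpc]
        exact hW
      · show gl D.pc (c + 1) (q + 1) = c + 2
        simp only [gl, hpc, if_true]
  · unfold Dia.cr at hW
    rw [hat] at hW
    cases b with
    | true =>
      refine ⟨(c, q + 1), ⟨hcn.le, by show q + 1 < str D.pc c; omega⟩, hW, Or.inl ?_⟩
      show gl D.pc c (q + 1) = gl D.pc c ((D.pc c).at + 1)
      rw [hat]
    | false =>
      refine ⟨(c + 1, q + 1), ⟨hcn, ?_⟩, ?_, Or.inl ?_⟩
      · show q + 1 < str D.pc (c + 1)
        simp only [str, hpc]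
        omega
      · show D.ci (sl D.pc (c + 1) (q + 1)) = W
        simp only [sl, hpc]
        exact hW
      · show gl D.pc (c + 1) (q + 1) = c + 2
        simp only [gl, hpc, if_true]

/-- `m` is the state `stB j` -/
def IsStB (D : Dia) (k : ℕ) (W c : ℕ → ℕ) (b : Bool) (j : ℕ) (m : ℕ → Mk) : Prop :=
  m (c j) = (if (b = true ↔ j % 2 = 0) then .T else .B) ∧
    (∀ i < j, m (c i) = D.far (W (i + 1)) (c i)) ∧
    ∀ i, j < i → i < k → m (c i) = D.far (W i) (c i)

theorem earB (h : KEarCtx D V₁ E₁ k W c p) (b : Bool) (j : ℕ) (hj : j < k) (r : ℕ × ℕ)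
    (hr : D.IsRoot r) (hrW : D.rc r = W 0)
    (hs : gl D.pc r.1 r.2 = cor D.pc (c 0) (if b then .B else .T) ∨
      gl D.pc r.1 (r.2 + 1) = cor D.pc (c 0) (if b then .B else .T)) (m : ℕ → Mk)
    (hm : Kst D.pc D.n E₁ r m) (hB : IsStB D k W c b j m) :
    Kst D.pc D.n (MG.earE E₁ k c) r m := by
  obtain ⟨hmj, hml, hmr⟩ := hB
  have hrV : D.rc r ∈ V₁ := by
    rw [hrW]
    exact h.ear.W0
  have hm' : Kst D.pc D.n ((MG.earE E₁ k c).erase (c j)) r m := by
    have := ab_kst h j (j + 1) (by omega) (by omega) r hr hrV m hm hml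
      (fun i hi hik => hmr i (by omega) hik)
    rwa [eab_full h j hj] at this
  obtain ⟨hT, hB⟩ := ear_TB h j hj
  have hgap : ∀ q : Mk, D.F (MG.earE E₁ k c) (cor D.pc (c j) q)
      = D.F (MG.earE E₁ k c) (cor D.pc (c 0) (if b then .B else .T)) →
      D.F (MG.earE E₁ k c) (gl D.pc r.1 r.2) = D.F (MG.earE E₁ k c) (cor D.pc (c j) q) ∨
      D.F (MG.earE E₁ k c) (gl D.pc r.1 (r.2 + 1)) = D.F (MG.earE E₁ k c) (cor D.pc (c j) q) := by
    intro q hq
    rw [hq]
    rcases hs with hs | hs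
    · left
      rw [hs]
    · right
      rw [hs]
  by_cases hbj : (b = true ↔ j % 2 = 0)
  · rw [if_pos hbj] at hmj
    refine reinsert_T D h.hD (MG.earV V₁ k W) (MG.earE E₁ k c) (ear_conn2 h) h.eV (earE_sub h) (c j)
      (c_mem_ear j hj) (erase_conn h j hj) r hr (hgap .B ?_) m hm' hmj
    rw [hB]
    cases b with
    | true => rw [if_pos (hbj.1 rfl)]; rfl
    | false =>
      have h1 : ¬ j % 2 = 0 := fun h1 => absurd (hbj.2 h1) (by decide)
      rw [if_neg h1]
      rfl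
  · rw [if_neg hbj] at hmj
    refine reinsert_B D h.hD (MG.earV V₁ k W) (MG.earE E₁ k c) (ear_conn2 h) h.eV (earE_sub h) (c j)
      (c_mem_ear j hj) (erase_conn h j hj) r hr (hgap .T ?_) m hm' hmj
    rw [hT]
    cases b with
    | true =>
      have h1 : ¬ j % 2 = 0 := fun h1 => hbj ⟨fun _ => h1, fun _ => rfl⟩
      rw [if_neg h1]
      rfl
    | false =>
      have h1 : j % 2 = 0 := by
        by_contra h2
        exact hbj ⟨fun h3 => absurd h3 (by decide), fun h3 => absurd h3 h2⟩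
      rw [if_pos h1]
      rfl

end LGAlt
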