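import Pool.Agent.LGAlt2.KEar

/-!
# States of a diagram with an ear, second part

Let `z = Val E₁ m₁ m₂` for two states of `E₁` with the root `r` of the circle `W 0` just below (`b = true`) or
just above (`b = false`) the crossing `c 0` (`rik`).  Let `1 ≤ l ≤ k`.  Change the marks of `m₁` and `m₂` at the
crossings of the ear such that one of them is `stB 0` and the other one `stB (l - 1)` (`earB`).
Put `σ = 1` if `p = true`, `σ = -1` otherwise, and let `u i`, `v i` be the bits `ub (m₁ (c i))`, `vb (m₂ (c i))`.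
Then `Val E₂ m₁ m₂ = Val E₁ m₁ m₂ + ∑ i < k, (σ if u i = 1, v i = 0; σ if u i = 0, v i = 1)`.
The bits of `far (W i) (c i)` are `β i = !(ty (W i))`, they alternate (`ear_ty`).
For `i ≥ l` both bits are `β i`, so the contribution is `0`.
* `b = true`, `β 1 = 0` (or `l = 1`), `m₁ = stB 0`, `m₂ = stB (l - 1)`: for `i < l`: `u i = 1` iff `i` is even, and
  `v i = 1` iff `i` is odd (`i = 0`: mark `T` for `m₁`, and `β 1 = 0` for `m₂` if `l ≥ 2`;
  `0 < i < l - 1`: `u i = β i`, `v i = β (i + 1)`; `i = l - 1`: `u i = β i`, and the mark of `m₂` is `T` iff `i` is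
  even).  The contribution is `σ ((l + 1) / 2, l / 2)`.
* `b = true`, `β 1 = 1` (or `l = 1`), `m₁ = stB (l - 1)`, `m₂ = stB 0`: the same bits and the same contribution.
* `b = false`, `β 1 = 1` (or `l = 1`), `m₁ = stB 0`, `m₂ = stB (l - 1)`, and `b = false`, `β 1 = 0`,
  `m₁ = stB (l - 1)`, `m₂ = stB 0`: `u i = 1` iff `i` is odd, `v i = 1` iff `i` is even, the contribution is
  `σ (l / 2, (l + 1) / 2)`.
-/

namespace LGAlt

variable {D : Dia} {V₁ E₁ : Finset ℕ} {k : ℕ} {W c : ℕ → ℕ} {p : Bool}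

/-- the contribution of a crossing -/
def ctr (σ : ℤ) (u v : Bool) : ℤ × ℤ :=
  (if u = true ∧ v = false then σ else 0, if u = false ∧ v = true then σ else 0)

theorem val_ear (h : KEarCtx D V₁ E₁ k W c p) (m₁ m₂ : ℕ → Mk) :
    Val D.pc (MG.earE E₁ k c) m₁ m₂ = Val D.pc E₁ m₁ m₂
      + ∑ i ∈ Finset.range k, ctr (if p then 1 else -1) (ub D.pc (c i) (m₁ (c i)))
          (vb D.pc (c i) (m₂ (c i))) := by
  have hd : Disjoint E₁ ((Finset.range k).image c) := by
    rw [Finset.disjoint_right]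
    intro x hx
    obtain ⟨i, hi, rfl⟩ := Finset.mem_image.1 hx
    exact h.ear.cnot i (Finset.mem_range.1 hi)
  have hinj : Set.InjOn c (Finset.range k : Set ℕ) := by
    intro i hi j hj hij
    exact h.ear.cinj i (by simpa using hi) j (by simpa using hj) hij
  have hsg : ∀ i ∈ Finset.range k, sgc D.pc (c i) = (if p then 1 else -1) := by
    intro i hi
    have h1 : (D.pc (c i)).pos = p := h.sg i (Finset.mem_range.1 hi)
    unfold sgc
    rw [h1]
  unfold Val MG.earE
  rw [Finset.sum_union hd, Finset.sum_union hd, Finset.sum_image hinj, Finset.sum_image hinj]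
  ext
  · simp only [Prod.fst_add, Prod.fst_sum, ctr]
    congr 1
    apply Finset.sum_congr rfl
    intro i hi
    rw [hsg i hi]
  · simp only [Prod.snd_add, Prod.snd_sum, ctr]
    congr 1
    apply Finset.sum_congr rfl
    intro i hi
    rw [hsg i hi]

/-- the sum of the contributions: `b' = true` : the bit `u i` is true iff `i` is even -/
theorem ctr_sum (σ : ℤ) (k l : ℕ) (hl : l ≤ k) (b' : Bool) (u v : ℕ → Bool)
    (h1 : ∀ i < l, u i = (b' == (i % 2 == 0)) ∧ v i = !(u i)) (h2 : ∀ i, l ≤ i → i < k → u i = v i) :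
    ∑ i ∈ Finset.range k, ctr σ (u i) (v i)
      = if b' then (σ * (((l + 1) / 2 : ℕ) : ℤ), σ * ((l / 2 : ℕ) : ℤ))
        else (σ * ((l / 2 : ℕ) : ℤ), σ * (((l + 1) / 2 : ℕ) : ℤ)) := by
  have e1 : ∑ i ∈ Finset.range k, ctr σ (u i) (v i) = ∑ i ∈ Finset.range l, ctr σ (u i) (v i) := by
    symm
    apply Finset.sum_subset
    · intro i hi
      rw [Finset.mem_range] at hi ⊢
      omega
    · intro i hi hi'
      rw [Finset.mem_range] at hi hi'
      have h3 := h2 i (by omega) hi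
      unfold ctr
      rw [h3]
      cases v i <;> simp
  rw [e1]
  clear e1 h2 hl
  induction l with
  | zero => cases b' <;> simp <;> rfl
  | succ l ih =>
    rw [Finset.sum_range_succ, ih (fun i hi => h1 i (by omega))]
    obtain ⟨hu, hv⟩ := h1 l (by omega)
    rw [hv, hu]
    rcases Nat.even_or_odd' l with ⟨m, rfl | rfl⟩
    · have a1 : (2 * m) % 2 = 0 := by omega
      have a2 : (2 * m + 1 + 1) / 2 = m + 1 := by omega
      have a3 : (2 * m + 1) / 2 = m := by omega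
      have a4 : (2 * m) / 2 = m := by omega
      rw [a1, a2, a3, a4]
      cases b' <;> simp [ctr] <;> ring
    · have a1 : (2 * m + 1) % 2 = 1 := by omega
      have a2 : (2 * m + 1 + 1 + 1) / 2 = m + 1 := by omega
      have a3 : (2 * m + 1 + 1) / 2 = m + 1 := by omega
      have a4 : (2 * m + 1) / 2 = m := by omega
      rw [a1, a2, a3, a4]
      cases b' <;> simp [ctr] <;> ring

/-- a marking with given marks at the crossings of the ear -/
lemma mk_ear (h : KEarCtx D V₁ E₁ k W c p) (m : ℕ → Mk) (g : ℕ → Mk) :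
    ∃ m' : ℕ → Mk, (∀ x ∈ E₁, m' x = m x) ∧ ∀ i < k, m' (c i) = g i := by
  classical
  refine ⟨fun x => if hx : ∃ i < k, c i = x then g hx.choose else m x, ?_, ?_⟩
  · intro x hx
    have hn : ¬ ∃ i < k, c i = x := by
      rintro ⟨i, hi, rfl⟩
      exact h.ear.cnot i hi hx
    simp only [hn, dite_false]
  · intro i hi
    have hex : ∃ i' < k, c i' = c i := ⟨i, hi, rfl⟩
    simp only [hex, dite_true]
    have h1 := hex.choose_spec
    rw [h.ear.cinj _ h1.1 _ hi h1.2]

/-- the types along the ear -/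
lemma ear_ty' (h : KEarCtx D V₁ E₁ k W c p) (i : ℕ) (hi : i ≤ k) :
    D.ty (W i) = (D.ty (W 0) == (i % 2 == 0)) := by
  induction i with
  | zero => cases D.ty (W 0) <;> rfl
  | succ i ih =>
    rw [ear_ty h i (by omega), ih (by omega)]
    rcases Nat.even_or_odd' i with ⟨m, rfl | rfl⟩
    · have a1 : (2 * m) % 2 = 0 := by omega
      have a2 : (2 * m + 1) % 2 = 1 := by omega
      rw [a1, a2]
      cases D.ty (W 0) <;> rfl
    · have a1 : (2 * m + 1) % 2 = 1 := by omega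
      have a2 : (2 * m + 1 + 1) % 2 = 0 := by omega
      rw [a1, a2]
      cases D.ty (W 0) <;> rfl

/-- the state `stB j` -/
lemma exists_stB (h : KEarCtx D V₁ E₁ k W c p) (b : Bool) (j : ℕ) (hj : j < k) (r : ℕ × ℕ)
    (hr : D.IsRoot r) (hrW : D.rc r = W 0)
    (hs : gl D.pc r.1 r.2 = cor D.pc (c 0) (if b then .B else .T) ∨
      gl D.pc r.1 (r.2 + 1) = cor D.pc (c 0) (if b then .B else .T)) (m : ℕ → Mk)
    (hm : Kst D.pc D.n E₁ r m) :
    ∃ m' : ℕ → Mk, (∀ x ∈ E₁, m' x = m x) ∧ Kst D.pc D.n (MG.earE E₁ k c) r m' ∧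
      (ub D.pc (c j) (m' (c j)) = (b == (j % 2 == 0)) ∧
        vb D.pc (c j) (m' (c j)) = !(b == (j % 2 == 0))) ∧
      (∀ i < j, ub D.pc (c i) (m' (c i)) = (D.ty (W 0) == (i % 2 == 0)) ∧
        vb D.pc (c i) (m' (c i)) = (D.ty (W 0) == (i % 2 == 0))) ∧
      (∀ i, j < i → i < k → ub D.pc (c i) (m' (c i)) = !(D.ty (W 0) == (i % 2 == 0)) ∧
        vb D.pc (c i) (m' (c i)) = !(D.ty (W 0) == (i % 2 == 0))) := by
  obtain ⟨m', h1, h2⟩ := mk_ear h m (fun i => if i = j then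
    (if (b = true ↔ j % 2 = 0) then .T else .B) else if i < j then D.far (W (i + 1)) (c i)
      else D.far (W i) (c i))
  have hj1 : m' (c j) = (if (b = true ↔ j % 2 = 0) then .T else .B) := by
    rw [h2 j hj]
    simp
  have hlt : ∀ i < j, m' (c i) = D.far (W (i + 1)) (c i) := by
    intro i hi
    rw [h2 i (by omega)]
    have e1 : i ≠ j := by omega
    simp [e1, hi]
  have hgt : ∀ i, j < i → i < k → m' (c i) = D.far (W i) (c i) := by
    intro i hi hik
    rw [h2 i hik]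
    have e1 : i ≠ j := by omega
    have e2 : ¬ i < j := by omega
    simp [e1, e2]
  have hst : IsStB D k W c b j m' := ⟨hj1, hlt, hgt⟩
  have hm' : Kst D.pc D.n E₁ r m' := kst_congr D E₁ r m m' (fun x hx => (h1 x hx).symm) hm
  refine ⟨m', h1, earB h b j hj r hr hrW hs m' hm' hst, ?_, ?_, ?_⟩
  · rw [hj1]
    rcases Nat.even_or_odd' j with ⟨q, rfl | rfl⟩
    · have a1 : (2 * q) % 2 = 0 := by omega
      rw [a1]
      cases b <;> simp [ub, vb]
    · have a1 : (2 * q + 1) % 2 = 1 := by omega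
      rw [a1]
      cases b <;> simp [ub, vb]
  · intro i hi
    have ht := ear_touch h i (by omega)
    have e1 := ear_ty h i (by omega)
    have e2 := ear_ty' h i (by omega)
    have hcC := h.cC i (by omega)
    rw [hlt i hi, ub_far D _ _ hcC ht.2.1, vb_far D _ _ hcC ht.2.1, e1, e2]
    simp
  · intro i hi hik
    have ht := ear_touch h i hik
    have e2 := ear_ty' h i (by omega)
    have hcC := h.cC i hik
    rw [hgt i hi hik, ub_far D _ _ hcC ht.1, vb_far D _ _ hcC ht.1, e2]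
    simp

/-- The relation for ears.  (For `b = true` and `b = false` this gives the two relations of `LBHyp.ear`.) -/
theorem ear_rel (hRI : D.RI) (h : KEarCtx D V₁ E₁ k W c p) (r₀ : ℕ × ℕ) (hr₀ : D.IsRoot r₀)
    (hr₀V : D.rc r₀ ∈ V₁) (z : ℤ × ℤ) (hz : z ∈ PK D.pc D.n E₁ r₀) (b : Bool) (l : ℕ) (hl : 1 ≤ l)
    (hlk : l ≤ k) :
    ∃ r, D.IsRoot r ∧ D.rc r ∈ V₁ ∧
      (if b then (z.1 + (if p then 1 else -1) * (((l + 1) / 2 : ℕ) : ℤ),
          z.2 + (if p then 1 else -1) * ((l / 2 : ℕ) : ℤ))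
        else (z.1 + (if p then 1 else -1) * ((l / 2 : ℕ) : ℤ),
          z.2 + (if p then 1 else -1) * (((l + 1) / 2 : ℕ) : ℤ)))
        ∈ PK D.pc D.n (MG.earE E₁ k c) r := by
  have hk0 : 0 < k := by omega
  obtain ⟨r, hr, hrW, hs⟩ := root_at D (W 0) (c 0) (h.cC 0 hk0) (ear_touch h 0 hk0).1 b
  have hrV : D.rc r ∈ V₁ := by
    rw [hrW]
    exact h.ear.W0
  have hz' : z ∈ PK D.pc D.n E₁ r := by
    rw [← rik D hRI h.hD V₁ E₁ h.conn h.V₁V h.E₁C r₀ r hr₀ hr hr₀V hrV]
    exact hz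
  obtain ⟨m₁, m₂, hm₁, hm₂, hv⟩ := hz'
  refine ⟨r, hr, hrV, ?_⟩
  -- it suffices to find states with the right bits
  suffices hsuf : ∃ n₁ n₂ : ℕ → Mk, (∀ x ∈ E₁, n₁ x = m₁ x) ∧ (∀ x ∈ E₁, n₂ x = m₂ x) ∧
      Kst D.pc D.n (MG.earE E₁ k c) r n₁ ∧ Kst D.pc D.n (MG.earE E₁ k c) r n₂ ∧
      (∀ i < l, ub D.pc (c i) (n₁ (c i)) = (b == (i % 2 == 0)) ∧
        vb D.pc (c i) (n₂ (c i)) = !(ub D.pc (c i) (n₁ (c i)))) ∧
      (∀ i, l ≤ i → i < k → ub D.pc (c i) (n₁ (c i)) = vb D.pc (c i) (n₂ (c i))) by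
    obtain ⟨n₁, n₂, a1, a2, k1, k2, u1, u2⟩ := hsuf
    refine ⟨n₁, n₂, k1, k2, ?_⟩
    rw [val_ear h n₁ n₂, ctr_sum _ k l hlk b _ _ u1 u2, val_congr D E₁ n₁ n₂ m₁ m₂ a1 a2, ← hv]
    cases b <;> rfl
  by_cases ht : D.ty (W 0) = b
  · obtain ⟨n₁, a1, k1, j1, lt1, gt1⟩ := exists_stB h b (l - 1) (by omega) r hr hrW hs m₁ hm₁
    obtain ⟨n₂, a2, k2, j2, lt2, gt2⟩ := exists_stB h b 0 hk0 r hr hrW hs m₂ hm₂
    refine ⟨n₁, n₂, a1, a2, k1, k2, ?_, ?_⟩
    · intro i hi
      have e1 : ub D.pc (c i) (n₁ (c i)) = (b == (i % 2 == 0)) := by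
        rcases Nat.lt_or_ge i (l - 1) with h3 | h3
        · rw [(lt1 i h3).1, ht]
        · have h4 : i = l - 1 := by omega
          rw [h4]
          exact j1.1
      refine ⟨e1, ?_⟩
      rw [e1]
      rcases Nat.eq_zero_or_pos i with h3 | h3
      · rw [h3]
        exact j2.2
      · rw [(gt2 i h3 (by omega)).2, ht]
    · intro i hi hik
      rw [(gt1 i (by omega) hik).1, (gt2 i (by omega) hik).2]
  · have ht' : D.ty (W 0) = !b := by
      cases hb : b <;> cases ht2 : D.ty (W 0) <;> simp_all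
    obtain ⟨n₁, a1, k1, j1, lt1, gt1⟩ := exists_stB h b 0 hk0 r hr hrW hs m₁ hm₁
    obtain ⟨n₂, a2, k2, j2, lt2, gt2⟩ := exists_stB h b (l - 1) (by omega) r hr hrW hs m₂ hm₂
    refine ⟨n₁, n₂, a1, a2, k1, k2, ?_, ?_⟩
    · intro i hi
      have hx : ∀ x : Bool, ((!b) == x) = !(b == x) := by
        intro x
        cases b <;> cases x <;> rfl
      have e1 : ub D.pc (c i) (n₁ (c i)) = (b == (i % 2 == 0)) := by
        rcases Nat.eq_zero_or_pos i with h3 | h3
        · rw [h3]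
          exact j1.1
        · rw [(gt1 i h3 (by omega)).1, ht', hx, Bool.not_not]
      refine ⟨e1, ?_⟩
      rw [e1]
      rcases Nat.lt_or_ge i (l - 1) with h3 | h3
      · rw [(lt2 i h3).2, ht', hx]
      · have h4 : i = l - 1 := by omega
        rw [h4]
        exact j2.2
    · intro i hi hik
      rw [(gt1 i (by omega) hik).1, (gt2 i (by omega) hik).2]

end LGAlt
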