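import Pool.Agent.LGAlt2.KBase
import Pool.Agent.LGAlt2.Forest

/-!
# Faces of subdiagrams

* `F_insert` : if `F (insert c U)` identifies the labels `cor c T` and `cor c B` then `F (insert c U)` and `F U`
  give the same faces (`fre_mono`; `fre_const` for `f = F (insert c U)`).
* `TB_of_unique` : if `c` is the only crossing of `U'` which touches the circle `w` (or at least the only one with
  `w` on this side) then `F U' (cor c T) = F U' (cor c B)`: in `bal_l` (or `bal_r`) for `W = w`, with `g` the
  indicator of the face of `cor c T`, all other terms vanish (`F_inactive`).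
* `pend_F` : the case of a crossing `c` which joins a circle `w ∉ V'` to `(V', U)` (the ends of the crossings
  of `U` are in `V'`).
* `pend_exists` : a connected `(V', U)` with `V' ≠ V` has a crossing `c` which joins it to a circle
  `w ∉ V'`; `pend_conn` : then `(insert w V', insert c U)` is connected.
* `F_erase` : use `fre_const` with `f x = mrg (F U (cor c T)) (F U (cor c B)) (F U x)`.
* `faces_card'` : if `(V', U)` is connected there are `U.card + 2 + (V.card - V'.card)` faces.  Induction on
  `V.card - V'.card`: `connU_of_conn` and `faces_card` for `V' = V`; otherwise `pend_exists`, `pend_F`.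
* `nonbridge_ne` : if `(V', U)` and `(V', U.erase c)` are connected, `c ∈ U`, then
  `F U (cor c T) ≠ F U (cor c B)`: otherwise by `F_insert` the numbers of faces would be the same.
-/

namespace LGAlt

private lemma isX_cross (D : Dia) (c : ℕ) (hc : c ∈ D.C) :
    c < D.n ∧ ∃ k pos, D.pc c = .cross k pos := by
  unfold Dia.C at hc
  rw [Finset.mem_filter, Finset.mem_range] at hc
  refine ⟨hc.1, ?_⟩
  rcases h : D.pc c with ⟨k, pos⟩ | ⟨k, s⟩ | ⟨k, s⟩
  · exact ⟨k, pos, rfl⟩
  · rw [h] at hc
    exact absurd hc.2 (by simp [Piece.isX])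
  · rw [h] at hc
    exact absurd hc.2 (by simp [Piece.isX])

private lemma card_image_le_of (S : Finset ℕ) (f g : ℕ → ℕ)
    (h : ∀ x y, f x = f y → g x = g y) : (S.image g).card ≤ (S.image f).card := by
  classical
  have hex : ∀ z, ∃ u, ∀ x ∈ S, f x = z → g x = u := by
    intro z
    by_cases hz : ∃ x ∈ S, f x = z
    · obtain ⟨x, -, hx⟩ := hz
      exact ⟨g x, fun y _ hy => h y x (hy.trans hx.symm)⟩
    · exact ⟨0, fun x hx hxz => absurd ⟨x, hx, hxz⟩ hz⟩
  choose t ht using hex
  have hsub : S.image g ⊆ (S.image f).image t := by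
    intro u hu
    rw [Finset.mem_image] at hu
    obtain ⟨x, hx, rfl⟩ := hu
    rw [Finset.mem_image]
    exact ⟨f x, Finset.mem_image_of_mem _ hx, (ht (f x) x hx rfl).symm⟩
  exact (Finset.card_le_card hsub).trans Finset.card_image_le

private lemma card_image_eq_of (S : Finset ℕ) (f g : ℕ → ℕ)
    (h : ∀ x y, f x = f y ↔ g x = g y) : (S.image f).card = (S.image g).card :=
  le_antisymm (card_image_le_of S g f (fun x y => (h x y).2))
    (card_image_le_of S f g (fun x y => (h x y).1))

lemma F_insert (D : Dia) (U : Finset ℕ) (c : ℕ) (hc : c ∈ D.C)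
    (h : D.F (insert c U) (cor D.pc c .T) = D.F (insert c U) (cor D.pc c .B)) (x y : ℕ) :
    D.F (insert c U) x = D.F (insert c U) y ↔ D.F U x = D.F U y := by
  constructor
  · intro hxy
    exact fre_mono D.pc D.n (Finset.subset_insert c U) x y hxy
  · intro hxy
    refine fre_const D.pc U D.n (D.F (insert c U)) ?_ ?_ x y hxy
    · intro j hj k pos hp hjU
      by_cases hjc : j = c
      · subst hjc
        have h' := h
        simp only [cor, hp, Piece.at] at h'
        exact h'
      · exact fre_cross D.pc (insert c U) j D.n hj k pos hp (by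
          rw [Finset.mem_insert]
          tauto)
    · intro j hj k s hp
      exact fre_cap D.pc (insert c U) j D.n hj k s hp

lemma TB_of_unique (D : Dia) (U' : Finset ℕ) (hU' : U' ⊆ D.C) (w c : ℕ) (hc : c ∈ D.C)
    (ht : D.MGr.Touch w c) (hu : ∀ c' ∈ U', D.MGr.Touch w c' → c' = c) :
    D.F U' (cor D.pc c .T) = D.F U' (cor D.pc c .B) := by
  by_contra hne
  rcases (touch_iff D w c).1 ht with hcw | hcw
  · have hb := bal_l D U' w (fun z => if z = D.F U' (cor D.pc c .T) then 1 else 0)
    rw [Finset.sum_eq_single_of_mem c (Finset.mem_filter.2 ⟨hc, hcw⟩)] at hb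
    · simp only [if_true] at hb
      rw [if_neg (Ne.symm hne)] at hb
      norm_num at hb
    · intro c' hc' hcc'
      rw [Finset.mem_filter] at hc'
      have hnot : c' ∉ U' := fun hm => hcc' (hu c' hm ((touch_iff D w c').2 (Or.inl hc'.2)))
      rw [F_inactive D U' c' hc'.1 hnot, sub_self]
  · have hb := bal_r D U' w (fun z => if z = D.F U' (cor D.pc c .T) then 1 else 0)
    rw [Finset.sum_eq_single_of_mem c (Finset.mem_filter.2 ⟨hc, hcw⟩)] at hb
    · simp only [if_true] at hb
      rw [if_neg (Ne.symm hne)] at hb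
      norm_num at hb
    · intro c' hc' hcc'
      rw [Finset.mem_filter] at hc'
      have hnot : c' ∉ U' := fun hm => hcc' (hu c' hm ((touch_iff D w c').2 (Or.inr hc'.2)))
      rw [F_inactive D U' c' hc'.1 hnot, sub_self]

/-- `c` joins the circle `w` to the subdiagram `(V', U)` -/
structure Pend (D : Dia) (V' U : Finset ℕ) (w c : ℕ) : Prop where
  conn : D.MGr.Conn V' U
  V'V : V' ⊆ D.V
  UC : U ⊆ D.C
  wV : w ∈ D.V
  wV' : w ∉ V'
  cC : c ∈ D.C
  cU : c ∉ U
  tch : D.MGr.Touch w c
  oth : D.MGr.other w c ∈ V'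

theorem pend_F {D : Dia} {V' U : Finset ℕ} {w c : ℕ} (h : Pend D V' U w c) (x y : ℕ) :
    D.F (insert c U) x = D.F (insert c U) y ↔ D.F U x = D.F U y := by
  refine F_insert D U c h.cC ?_ x y
  refine TB_of_unique D (insert c U) (Finset.insert_subset h.cC h.UC) w c h.cC h.tch ?_
  intro c' hc' ht
  rcases Finset.mem_insert.1 hc' with h1 | h1
  · exact h1
  · exfalso
    have he := h.conn.ends c' h1
    rcases ht with h2 | h2
    · exact h.wV' (h2 ▸ he.1)
    · exact h.wV' (h2 ▸ he.2)

theorem pend_exists (D : Dia) (hD : D.MGr.Conn D.V D.C) (V' U : Finset ℕ)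
    (h : D.MGr.Conn V' U) (hV : V' ⊆ D.V) (hU : U ⊆ D.C) (hne : V' ≠ D.V) :
    ∃ w c, Pend D V' U w c := by
  obtain ⟨e, he, hs⟩ := hD.cut V' hV h.ne hne
  have hends := hD.ends e he
  have hsep : ¬ (D.MGr.tl e ∈ V' ↔ D.MGr.hd e ∈ V') := hs
  have heU : e ∉ U := fun hm => hsep ⟨fun _ => (h.ends e hm).2, fun _ => (h.ends e hm).1⟩
  by_cases ht : D.MGr.tl e ∈ V'
  · have hh : D.MGr.hd e ∉ V' := fun hm => hsep ⟨fun _ => hm, fun _ => ht⟩
    refine ⟨D.MGr.hd e, e, h, hV, hU, hends.2, hh, he, heU, Or.inr rfl, ?_⟩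
    have hneq : D.MGr.tl e ≠ D.MGr.hd e := fun heq => hh (heq ▸ ht)
    unfold MG.other
    rw [if_neg hneq]
    exact ht
  · have hh : D.MGr.hd e ∈ V' := by
      by_contra hm
      exact hsep ⟨fun h1 => absurd h1 ht, fun h1 => absurd h1 hm⟩
    refine ⟨D.MGr.tl e, e, h, hV, hU, hends.1, ht, he, heU, Or.inl rfl, ?_⟩
    unfold MG.other
    rw [if_pos rfl]
    exact hh

private lemma sep_of_touch (G : MG) (Y : Finset ℕ) (w c : ℕ) (ht : G.Touch w c)
    (h : ¬ (w ∈ Y ↔ G.other w c ∈ Y)) : G.Sep Y c := by
  unfold MG.Sep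
  unfold MG.other at h
  rcases ht with h1 | h1
  · rw [if_pos h1] at h
    rw [h1]
    exact h
  · split_ifs at h with h2
    · rw [h2]
      exact h
    · rw [h1]
      exact fun h3 => h ⟨h3.2, h3.1⟩

theorem pend_conn {D : Dia} {V' U : Finset ℕ} {w c : ℕ} (h : Pend D V' U w c) :
    D.MGr.Conn (insert w V') (insert c U) := by
  have hwo : D.MGr.other w c ≠ w := fun he => h.wV' (he ▸ h.oth)
  refine ⟨⟨w, Finset.mem_insert_self _ _⟩, ?_, ?_⟩
  · intro e he
    rcases Finset.mem_insert.1 he with h1 | h1
    · subst h1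
      have ho := h.oth
      unfold MG.other at ho
      rcases h.tch with h2 | h2
      · rw [if_pos h2] at ho
        exact ⟨Finset.mem_insert.2 (Or.inl h2), Finset.mem_insert.2 (Or.inr ho)⟩
      · split_ifs at ho with h3
        · exact ⟨Finset.mem_insert.2 (Or.inl h3), Finset.mem_insert.2 (Or.inr ho)⟩
        · exact ⟨Finset.mem_insert.2 (Or.inr ho), Finset.mem_insert.2 (Or.inl h2)⟩
    · have he' := h.conn.ends e h1
      exact ⟨Finset.mem_insert.2 (Or.inr he'.1), Finset.mem_insert.2 (Or.inr he'.2)⟩
  · intro Y hY hYne hYV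
    by_cases h1 : Y.erase w = ∅
    · refine ⟨c, Finset.mem_insert_self _ _, sep_of_touch _ Y w c h.tch ?_⟩
      obtain ⟨y, hy⟩ := hYne
      have hyw : y = w := by
        by_contra hyw
        have : y ∈ Y.erase w := Finset.mem_erase.2 ⟨hyw, hy⟩
        rw [h1] at this
        exact absurd this (Finset.notMem_empty y)
      subst hyw
      intro hiff
      have : D.MGr.other y c ∈ Y.erase y := Finset.mem_erase.2 ⟨hwo, hiff.1 hy⟩
      rw [h1] at this
      exact absurd this (Finset.notMem_empty _)
    · by_cases h2 : Y.erase w = V'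
      · refine ⟨c, Finset.mem_insert_self _ _, sep_of_touch _ Y w c h.tch ?_⟩
        intro hiff
        have ho : D.MGr.other w c ∈ Y := by
          have := h.oth
          rw [← h2] at this
          exact (Finset.mem_erase.1 this).2
        have hw := hiff.2 ho
        apply hYV
        rw [← h2, Finset.insert_erase hw]
      · obtain ⟨e, he, hs⟩ := h.conn.cut (Y.erase w) (by
          intro y hy
          rw [Finset.mem_erase] at hy
          rcases Finset.mem_insert.1 (hY hy.2) with h3 | h3
          · exact absurd h3 hy.1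
          · exact h3) (Finset.nonempty_iff_ne_empty.2 h1) h2
        refine ⟨e, Finset.mem_insert_of_mem he, ?_⟩
        have hends := h.conn.ends e he
        have ht : D.MGr.tl e ≠ w := fun heq => h.wV' (heq ▸ hends.1)
        have hh : D.MGr.hd e ≠ w := fun heq => h.wV' (heq ▸ hends.2)
        unfold MG.Sep at hs ⊢
        rw [Finset.mem_erase, Finset.mem_erase] at hs
        intro hiff
        apply hs
        constructor
        · exact fun h3 => ⟨hh, hiff.1 h3.2⟩
        · exact fun h3 => ⟨ht, hiff.2 h3.2⟩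

/-- making a crossing inactive merges the faces above and below it -/
theorem F_erase (D : Dia) (U : Finset ℕ) (c : ℕ) (hc : c ∈ D.C) (hcU : c ∈ U) (x y : ℕ) :
    D.F (U.erase c) x = D.F (U.erase c) y ↔ D.F U x = D.F U y ∨
      ((D.F U x = D.F U (cor D.pc c .T) ∨ D.F U x = D.F U (cor D.pc c .B)) ∧
        (D.F U y = D.F U (cor D.pc c .T) ∨ D.F U y = D.F U (cor D.pc c .B))) := by
  constructor
  · intro hxy
    rw [← mrg_eq_iff]
    refine fre_const D.pc (U.erase c) D.n
      (fun z => mrg (D.F U (cor D.pc c .T)) (D.F U (cor D.pc c .B)) (D.F U z)) ?_ ?_ x y hxy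
    · intro j hj k pos hp hjU
      by_cases hjc : j = c
      · subst hjc
        have e1 : j + 2 = cor D.pc j .T := rfl
        have e2 : gl D.pc j (k + 1) = cor D.pc j .B := by
          simp only [cor, hp, Piece.at]
        rw [e1, e2, mrg_left, mrg_right]
      · have hjU' : j ∉ U := fun hm => hjU (Finset.mem_erase.2 ⟨hjc, hm⟩)
        have := fre_cross D.pc U j D.n hj k pos hp hjU'
        have h2 : D.F U (j + 2) = D.F U (gl D.pc j (k + 1)) := this
        rw [h2]
    · intro j hj k s hp
      have h2 : D.F U (gl D.pc j k) = D.F U (gl D.pc j (k + 2)) :=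
        fre_cap D.pc U j D.n hj k s hp
      rw [h2]
  · have hm : ∀ a b, D.F U a = D.F U b → D.F (U.erase c) a = D.F (U.erase c) b :=
      fun a b hab => fre_mono D.pc D.n (Finset.erase_subset c U) a b hab
    have hTB := F_inactive D (U.erase c) c hc (Finset.notMem_erase c U)
    rintro (h | ⟨h1, h2⟩)
    · exact hm x y h
    · have hx : D.F (U.erase c) x = D.F (U.erase c) (cor D.pc c .B) := by
        rcases h1 with h1 | h1
        · rw [hm _ _ h1, hTB]
        · exact hm _ _ h1
      have hy : D.F (U.erase c) y = D.F (U.erase c) (cor D.pc c .B) := by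
        rcases h2 with h2 | h2
        · rw [hm _ _ h2, hTB]
        · exact hm _ _ h2
      rw [hx, hy]

private theorem faces_card_aux (D : Dia) (hD : D.MGr.Conn D.V D.C) (d : ℕ) :
    ∀ V' U : Finset ℕ, D.MGr.Conn V' U → V' ⊆ D.V → U ⊆ D.C → D.V.card - V'.card = d →
    (D.GLb.image (D.F U)).card + V'.card = U.card + 2 + D.V.card := by
  induction d with
  | zero =>
    intro V' U h hV hU hd
    have hle := Finset.card_le_card hV
    have hVV : V' = D.V := Finset.eq_of_subset_of_card_le hV (by omega)
    subst hVV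
    rw [faces_card D U hU (connU_of_conn D U hU h)]
  | succ d ih =>
    intro V' U h hV hU hd
    have hne : V' ≠ D.V := by
      rintro rfl
      omega
    obtain ⟨w, c, hp⟩ := pend_exists D hD V' U h hV hU hne
    have hcw : (insert w V').card = V'.card + 1 := Finset.card_insert_of_notMem hp.wV'
    have hcc : (insert c U).card = U.card + 1 := Finset.card_insert_of_notMem hp.cU
    have hih := ih (insert w V') (insert c U) (pend_conn hp)
      (Finset.insert_subset hp.wV hV) (Finset.insert_subset hp.cC hU) (by omega)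
    have hcard := card_image_eq_of D.GLb (D.F (insert c U)) (D.F U) (pend_F hp)
    omega

theorem faces_card' (D : Dia) (hD : D.MGr.Conn D.V D.C) (V' U : Finset ℕ)
    (h : D.MGr.Conn V' U) (hV : V' ⊆ D.V) (hU : U ⊆ D.C) :
    (D.GLb.image (D.F U)).card + V'.card = U.card + 2 + D.V.card :=
  faces_card_aux D hD _ V' U h hV hU rfl

theorem nonbridge_ne (D : Dia) (hD : D.MGr.Conn D.V D.C) (V' U : Finset ℕ)
    (h : D.MGr.Conn V' U) (hV : V' ⊆ D.V) (hU : U ⊆ D.C) (c : ℕ) (hc : c ∈ U)
    (h' : D.MGr.Conn V' (U.erase c)) : D.F U (cor D.pc c .T) ≠ D.F U (cor D.pc c .B) := by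
  intro he
  have hins : insert c (U.erase c) = U := Finset.insert_erase hc
  have hF : ∀ x y, D.F U x = D.F U y ↔ D.F (U.erase c) x = D.F (U.erase c) y := by
    intro x y
    have := F_insert D (U.erase c) c (hU hc) (by rw [hins]; exact he) x y
    rw [hins] at this
    exact this
  have h1 := faces_card' D hD V' U h hV hU
  have h2 := faces_card' D hD V' (U.erase c) h' hV ((Finset.erase_subset c U).trans hU)
  have h3 := card_image_eq_of D.GLb (D.F U) (D.F (U.erase c)) hF
  have h4 := Finset.card_erase_add_one hc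
  omega

end LGAlt
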