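import Pool.Agent.LGAlt2.KFace

/-!
# Kauffman states of connected subdiagrams

`(V', U)` is always a connected subdiagram, `r` a root with `rc r ∈ V'`.
* `Tak U r m f` : the face `f` is taken by the state `m` (by a crossing or by the root).
* `ext_kst` : if `Pend D V' U w c` and `m` is a state of `U` with `m c = far w c` then `m` is a state of
  `insert c U`: the faces are the same (`pend_F`), the marked corners of the crossings of `U` and the gaps at the
  root are next to `V'` (`mk_adj`), the face of the far corner is not (`far_excl`).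
* `full` : every face next to `V'` is taken.  Induction on `V.card - V'.card`.  If `V' = V` then all
  `U.card + 2` faces are taken (`faces_card'`; the two faces at the root are different by `star_ne`; labels
  which are next to a strand are in `GLb` by `gl_mem`).
  Otherwise take `Pend D V' U w c`, and apply the induction hypothesis to `(insert w V', insert c U)` and to
  the state `Function.update m c (far w c)`; the face is not the one of the far corner by `far_excl`.
* `pend_kst` : if `Pend D V' U w c` then `m` is a state of `insert c U` iff it is a state of `U` and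
  `m c = far w c`: by `full` the near corners `T`, `B` and the corner at `other w c` are taken by `U` or the
  root (they are next to `V'` by `adj_cl`, `adj_cr`).
* `pend_PK` : so the sets of exponents are the same (`ub_far`, `vb_far`: the crossing `c` contributes `0`).
* `rik` : the set of exponents does not depend on the root: for `V' = V` this is `D.RI`, otherwise use
  `pend_PK`.
-/

namespace LGAlt

/-- the face `f` is taken -/
def Tak (D : Dia) (U : Finset ℕ) (r : ℕ × ℕ) (m : ℕ → Mk) (f : ℕ) : Prop :=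
  (∃ c ∈ U, D.F U (cor D.pc c (m c)) = f) ∨ D.F U (gl D.pc r.1 r.2) = f ∨
    D.F U (gl D.pc r.1 (r.2 + 1)) = f

lemma kst_congr (D : Dia) (U : Finset ℕ) (r : ℕ × ℕ) (m m' : ℕ → Mk) (h : ∀ c ∈ U, m c = m' c)
    (hm : Kst D.pc D.n U r m) : Kst D.pc D.n U r m' := by
  refine ⟨?_, ?_, ?_⟩
  · intro c hc c' hc' e
    rw [← h c hc, ← h c' hc'] at e
    exact hm.1 c hc c' hc' e
  · intro c hc
    rw [← h c hc]
    exact hm.2.1 c hc
  · intro c hc
    rw [← h c hc]
    exact hm.2.2 c hc

lemma val_congr (D : Dia) (U : Finset ℕ) (m₁ m₂ m₁' m₂' : ℕ → Mk) (h₁ : ∀ c ∈ U, m₁ c = m₁' c)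
    (h₂ : ∀ c ∈ U, m₂ c = m₂' c) : Val D.pc U m₁ m₂ = Val D.pc U m₁' m₂' := by
  unfold Val
  refine Prod.ext ?_ ?_
  · exact Finset.sum_congr rfl fun c hc => by rw [h₁ c hc, h₂ c hc]
  · exact Finset.sum_congr rfl fun c hc => by rw [h₁ c hc, h₂ c hc]

lemma ends_cl (D : Dia) (V' U : Finset ℕ) (h : D.MGr.Conn V' U) (c : ℕ) (hc : c ∈ U) :
    D.cl c ∈ V' ∧ D.cr c ∈ V' := by
  obtain ⟨h1, h2⟩ := h.ends c hc
  unfold Dia.MGr at h1 h2
  simp only at h1 h2
  split_ifs at h1 h2 with hp
  · exact ⟨h1, h2⟩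
  · exact ⟨h2, h1⟩

/-- all corners of the crossings of `U` are next to `V'` -/
lemma mk_adj (D : Dia) (V' U : Finset ℕ) (hU : U ⊆ D.C) (h : D.MGr.Conn V' U) (c : ℕ)
    (hc : c ∈ U) (k : Mk) : D.Adj V' (cor D.pc c k) := by
  obtain ⟨h1, h2⟩ := ends_cl D V' U h c hc
  obtain ⟨a1, a2, a3⟩ := adj_cl D V' c (hU hc) h1
  obtain ⟨b1, b2, b3⟩ := adj_cr D V' c (hU hc) h2
  cases k
  · exact a3
  · exact a2
  · exact a1
  · exact b1

theorem ext_kst {D : Dia} {V' U : Finset ℕ} {w c : ℕ} (h : Pend D V' U w c) (r : ℕ × ℕ)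
    (hr : D.IsRoot r) (hrV : D.rc r ∈ V') (m : ℕ → Mk) (hm : Kst D.pc D.n U r m)
    (hmc : m c = D.far w c) : Kst D.pc D.n (insert c U) r m := by
  have hex : ∀ x, D.Adj V' x → D.F (insert c U) x ≠ D.F (insert c U) (cor D.pc c (D.far w c)) :=
    fun x hx => far_excl D V' U h.UC h.conn w c h.wV' h.cC h.tch h.oth (insert c U) x hx
  have hF := fun x y => (pend_F h x y).1
  refine ⟨?_, ?_, ?_⟩
  · intro c₁ h₁ c₂ h₂ e
    rcases Finset.mem_insert.1 h₁ with e₁ | e₁ <;> rcases Finset.mem_insert.1 h₂ with e₂ | e₂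
    · rw [e₁, e₂]
    · exfalso
      rw [e₁, hmc] at e
      exact hex _ (mk_adj D V' U h.UC h.conn c₂ e₂ (m c₂)) e.symm
    · exfalso
      rw [e₂, hmc] at e
      exact hex _ (mk_adj D V' U h.UC h.conn c₁ e₁ (m c₁)) e
    · exact hm.1 c₁ e₁ c₂ e₂ (hF _ _ e)
  · intro c₁ h₁ e
    rcases Finset.mem_insert.1 h₁ with e₁ | e₁
    · rw [e₁, hmc] at e
      exact hex _ ⟨r, hr, hrV, Or.inl rfl⟩ e.symm
    · exact hm.2.1 c₁ e₁ (hF _ _ e)
  · intro c₁ h₁ e
    rcases Finset.mem_insert.1 h₁ with e₁ | e₁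
    · rw [e₁, hmc] at e
      exact hex _ ⟨r, hr, hrV, Or.inr rfl⟩ e.symm
    · exact hm.2.2 c₁ e₁ (hF _ _ e)

lemma adj_mem (D : Dia) (V' : Finset ℕ) (x : ℕ) (hx : D.Adj V' x) : x ∈ D.GLb := by
  obtain ⟨r, hr, -, rfl | rfl⟩ := hx
  · exact gl_mem D r.1 hr.1 r.2 hr.2.le
  · exact gl_mem D r.1 hr.1 (r.2 + 1) hr.2

lemma adj_mono (D : Dia) {V' V'' : Finset ℕ} (hV : V' ⊆ V'') (x : ℕ) (hx : D.Adj V' x) :
    D.Adj V'' x := by
  obtain ⟨r, hr, h1, h2⟩ := hx
  exact ⟨r, hr, hV h1, h2⟩

lemma full_top (D : Dia) (hD : D.MGr.Conn D.V D.C) (U : Finset ℕ)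
    (h : D.MGr.Conn D.V U) (hU : U ⊆ D.C) (r : ℕ × ℕ) (hr : D.IsRoot r)
    (m : ℕ → Mk) (hm : Kst D.pc D.n U r m) (x : ℕ) (hx : D.Adj D.V x) :
    Tak D U r m (D.F U x) := by
  have hcard := faces_card' D hD D.V U h subset_rfl hU
  have hinj : ∀ c ∈ U, ∀ c' ∈ U, D.F U (cor D.pc c (m c)) = D.F U (cor D.pc c' (m c')) → c = c' :=
    hm.1
  have hc1 : (U.image (fun c => D.F U (cor D.pc c (m c)))).card = U.card :=
    Finset.card_image_of_injOn fun c hc c' hc' e => hinj c hc c' hc' e
  have hT : (insert (D.F U (gl D.pc r.1 r.2)) (insert (D.F U (gl D.pc r.1 (r.2 + 1)))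
      (U.image (fun c => D.F U (cor D.pc c (m c)))))).card = U.card + 2 := by
    rw [Finset.card_insert_of_notMem, Finset.card_insert_of_notMem, hc1]
    · rw [Finset.mem_image]
      rintro ⟨c, hc, e⟩
      exact hm.2.2 c hc e
    · rw [Finset.mem_insert, Finset.mem_image]
      rintro (e | ⟨c, hc, e⟩)
      · exact star_ne D U r hr e
      · exact hm.2.1 c hc e
  have hsub : (insert (D.F U (gl D.pc r.1 r.2)) (insert (D.F U (gl D.pc r.1 (r.2 + 1)))
      (U.image (fun c => D.F U (cor D.pc c (m c)))))) ⊆ D.GLb.image (D.F U) := by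
    intro f hf
    rw [Finset.mem_insert, Finset.mem_insert, Finset.mem_image] at hf
    rcases hf with rfl | rfl | ⟨c, hc, rfl⟩
    · exact Finset.mem_image_of_mem _ (gl_mem D r.1 hr.1 r.2 hr.2.le)
    · exact Finset.mem_image_of_mem _ (gl_mem D r.1 hr.1 (r.2 + 1) hr.2)
    · exact Finset.mem_image_of_mem _ (adj_mem D D.V _ (mk_adj D D.V U hU h c hc (m c)))
  have heq := Finset.eq_of_subset_of_card_le hsub (by omega)
  have hxm : D.F U x ∈ D.GLb.image (D.F U) := Finset.mem_image_of_mem _ (adj_mem D D.V x hx)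
  rw [← heq, Finset.mem_insert, Finset.mem_insert, Finset.mem_image] at hxm
  rcases hxm with e | e | ⟨c, hc, e⟩
  · exact Or.inr (Or.inl e.symm)
  · exact Or.inr (Or.inr e.symm)
  · exact Or.inl ⟨c, hc, e⟩

theorem full (D : Dia) (hD : D.MGr.Conn D.V D.C) (V' U : Finset ℕ)
    (h : D.MGr.Conn V' U) (hV : V' ⊆ D.V) (hU : U ⊆ D.C) (r : ℕ × ℕ) (hr : D.IsRoot r)
    (hrV : D.rc r ∈ V') (m : ℕ → Mk) (hm : Kst D.pc D.n U r m) (x : ℕ) (hx : D.Adj V' x) :
    Tak D U r m (D.F U x) := by
  induction hk : D.V.card - V'.card using Nat.strong_induction_on generalizing V' U m with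
  | _ k ih =>
    by_cases hVV : V' = D.V
    · subst hVV
      exact full_top D hD U h hU r hr m hm x hx
    · obtain ⟨w, c, hp⟩ := pend_exists D hD V' U h hV hU hVV
      have hsub : insert w V' ⊆ D.V := Finset.insert_subset hp.wV hV
      have hcard : (insert w V').card = V'.card + 1 := Finset.card_insert_of_notMem hp.wV'
      have hle := Finset.card_le_card hsub
      have hmU : ∀ c' ∈ U, m c' = Function.update m c (D.far w c) c' := by
        intro c' hc'
        rw [Function.update_of_ne]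
        rintro rfl
        exact hp.cU hc'
      have hm' := kst_congr D U r m (Function.update m c (D.far w c)) hmU hm
      have hm'' := ext_kst hp r hr hrV _ hm' (Function.update_self _ _ _)
      have hT := ih (D.V.card - (insert w V').card) (by omega) (insert w V') (insert c U)
        (pend_conn hp) hsub (Finset.insert_subset hp.cC hU) (Finset.mem_insert_of_mem hrV) _ hm''
        (adj_mono D (Finset.subset_insert _ _) x hx) rfl
      rcases hT with ⟨c', hc', e⟩ | e | e
      · rcases Finset.mem_insert.1 hc' with e₁ | e₁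
        · exfalso
          rw [e₁, Function.update_self] at e
          exact far_excl D V' U hU h w c hp.wV' hp.cC hp.tch hp.oth (insert c U) x hx e.symm
        · rw [← hmU c' e₁] at e
          exact Or.inl ⟨c', e₁, (pend_F hp _ _).1 e⟩
      · exact Or.inr (Or.inl ((pend_F hp _ _).1 e))
      · exact Or.inr (Or.inr ((pend_F hp _ _).1 e))

lemma near_adj {D : Dia} {V' U : Finset ℕ} {w c : ℕ} (h : Pend D V' U w c) (k : Mk)
    (hk : k ≠ D.far w c) : D.Adj V' (cor D.pc c k) := by
  by_cases hl : D.cl c = w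
  · have ho := h.oth
    rw [other_cl D w c h.cC hl] at ho
    obtain ⟨b1, b2, b3⟩ := adj_cr D V' c h.cC ho
    have hf : D.far w c = .L := if_pos hl
    cases k
    · exact b3
    · exact b2
    · exact absurd hf.symm hk
    · exact b1
  · have hr : D.cr c = w := ((touch_iff D w c).1 h.tch).resolve_left hl
    have ho := h.oth
    rw [other_cr D w c h.cC hr] at ho
    obtain ⟨b1, b2, b3⟩ := adj_cl D V' c h.cC ho
    have hf : D.far w c = .R := if_neg hl
    cases k
    · exact b3
    · exact b2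
    · exact b1
    · exact absurd hf.symm hk

theorem pend_kst (D : Dia) (hD : D.MGr.Conn D.V D.C) {V' U : Finset ℕ} {w c : ℕ}
    (h : Pend D V' U w c) (r : ℕ × ℕ) (hr : D.IsRoot r) (hrV : D.rc r ∈ V') (m : ℕ → Mk) :
    Kst D.pc D.n (insert c U) r m ↔ Kst D.pc D.n U r m ∧ m c = D.far w c := by
  constructor
  · intro hm
    have hF := fun x y => (pend_F h x y).2
    have hmU : Kst D.pc D.n U r m := by
      refine ⟨?_, ?_, ?_⟩
      · intro c₁ h₁ c₂ h₂ e
        exact hm.1 c₁ (Finset.mem_insert_of_mem h₁) c₂ (Finset.mem_insert_of_mem h₂) (hF _ _ e)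
      · intro c₁ h₁ e
        exact hm.2.1 c₁ (Finset.mem_insert_of_mem h₁) (hF _ _ e)
      · intro c₁ h₁ e
        exact hm.2.2 c₁ (Finset.mem_insert_of_mem h₁) (hF _ _ e)
    refine ⟨hmU, ?_⟩
    by_contra hne
    rcases full D hD V' U h.conn h.V'V h.UC r hr hrV m hmU _ (near_adj h (m c) hne) with
      ⟨c', hc', e⟩ | e | e
    · have := hm.1 c' (Finset.mem_insert_of_mem hc') c (Finset.mem_insert_self _ _) (hF _ _ e)
      rw [this] at hc'
      exact h.cU hc'
    · exact hm.2.1 c (Finset.mem_insert_self _ _) (hF _ _ e).symm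
    · exact hm.2.2 c (Finset.mem_insert_self _ _) (hF _ _ e).symm
  · rintro ⟨h1, h2⟩
    exact ext_kst h r hr hrV m h1 h2

/-- a crossing with the same far mark in both layers contributes nothing -/
lemma val_far (D : Dia) (U : Finset ℕ) (w c : ℕ) (hc : c ∈ D.C) (hcU : c ∉ U)
    (ht : D.MGr.Touch w c) (m₁ m₂ : ℕ → Mk) (h₁ : m₁ c = D.far w c) (h₂ : m₂ c = D.far w c) :
    Val D.pc (insert c U) m₁ m₂ = Val D.pc U m₁ m₂ := by
  have hu := ub_far D w c hc ht
  have hv := vb_far D w c hc ht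
  unfold Val
  rw [Finset.sum_insert hcU, Finset.sum_insert hcU, h₁, h₂, hu, hv]
  cases D.ty w <;> simp

theorem pend_PK (D : Dia) (hD : D.MGr.Conn D.V D.C) {V' U : Finset ℕ} {w c : ℕ}
    (h : Pend D V' U w c) (r : ℕ × ℕ) (hr : D.IsRoot r) (hrV : D.rc r ∈ V') :
    PK D.pc D.n (insert c U) r = PK D.pc D.n U r := by
  ext z
  constructor
  · rintro ⟨m₁, m₂, h₁, h₂, rfl⟩
    obtain ⟨a₁, b₁⟩ := (pend_kst D hD h r hr hrV m₁).1 h₁
    obtain ⟨a₂, b₂⟩ := (pend_kst D hD h r hr hrV m₂).1 h₂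
    exact ⟨m₁, m₂, a₁, a₂, val_far D U w c h.cC h.cU h.tch m₁ m₂ b₁ b₂⟩
  · rintro ⟨m₁, m₂, h₁, h₂, rfl⟩
    have hup : ∀ m : ℕ → Mk, ∀ c' ∈ U, m c' = Function.update m c (D.far w c) c' := by
      intro m c' hc'
      rw [Function.update_of_ne]
      rintro rfl
      exact h.cU hc'
    refine ⟨Function.update m₁ c (D.far w c), Function.update m₂ c (D.far w c),
      ext_kst h r hr hrV _ (kst_congr D U r _ _ (hup m₁) h₁) (Function.update_self _ _ _),
      ext_kst h r hr hrV _ (kst_congr D U r _ _ (hup m₂) h₂) (Function.update_self _ _ _), ?_⟩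
    rw [val_far D U w c h.cC h.cU h.tch _ _ (Function.update_self _ _ _)
      (Function.update_self _ _ _)]
    exact val_congr D U _ _ _ _ (hup m₁) (hup m₂)

theorem rik (D : Dia) (hRI : D.RI) (hD : D.MGr.Conn D.V D.C) (V' U : Finset ℕ)
    (h : D.MGr.Conn V' U) (hV : V' ⊆ D.V) (hU : U ⊆ D.C) (r r' : ℕ × ℕ) (hr : D.IsRoot r)
    (hr' : D.IsRoot r') (hrV : D.rc r ∈ V') (hrV' : D.rc r' ∈ V') :
    PK D.pc D.n U r = PK D.pc D.n U r' := by
  induction hk : D.V.card - V'.card using Nat.strong_induction_on generalizing V' U with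
  | _ k ih =>
    by_cases hVV : V' = D.V
    · subst hVV
      exact hRI U hU (connU_of_conn D U hU h) r r' hr hr'
    · obtain ⟨w, c, hp⟩ := pend_exists D hD V' U h hV hU hVV
      have hsub : insert w V' ⊆ D.V := Finset.insert_subset hp.wV hV
      have hcard : (insert w V').card = V'.card + 1 := Finset.card_insert_of_notMem hp.wV'
      have hle := Finset.card_le_card hsub
      have hT := ih (D.V.card - (insert w V').card) (by omega) (insert w V') (insert c U)
        (pend_conn hp) hsub (Finset.insert_subset hp.cC hU) (Finset.mem_insert_of_mem hrV)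
        (Finset.mem_insert_of_mem hrV') rfl
      rw [← pend_PK D hD hp r hr hrV, ← pend_PK D hD hp r' hr' hrV', hT]

end LGAlt
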