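import Pool.Agent.LGAlt2.KFull

/-!
# Inserting a crossing which is not a bridge

`(V', U)` is a connected subdiagram.
* `reinsert_T` : let `c ∈ U` such that `(V', U.erase c)` is connected, `m` a state of `U.erase c`.  If one of
  the gaps at the root belongs to the face `F U (cor c B)`, then `m` with `m c = T` is a state of `U`: in
  `F (U.erase c)` the faces of `cor c T` and `cor c B` are the same and it is a face at the root, so no
  crossing of `U.erase c` marks it; the other gap at the root is not in this face either (`star_ne` for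
  `U.erase c`); use `nonbridge_ne` and `fre_mono`.  `reinsert_B` is the same with `T` and `B` exchanged.
-/

namespace LGAlt

private theorem kre_aux (D : Dia) (U : Finset ℕ) (c : ℕ) (r : ℕ × ℕ) (hr : D.IsRoot r) (p q : Mk)
    (hne : D.F U (cor D.pc c p) ≠ D.F U (cor D.pc c q))
    (hmer : D.F (U.erase c) (cor D.pc c p) = D.F (U.erase c) (cor D.pc c q))
    (hs : D.F U (gl D.pc r.1 r.2) = D.F U (cor D.pc c q) ∨
      D.F U (gl D.pc r.1 (r.2 + 1)) = D.F U (cor D.pc c q)) (m : ℕ → Mk)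
    (hm : Kst D.pc D.n (U.erase c) r m) (hmc : m c = p) : Kst D.pc D.n U r m := by
  have mono : ∀ x y, D.F U x = D.F U y → D.F (U.erase c) x = D.F (U.erase c) y :=
    fun x y h => fre_mono D.pc D.n (Finset.erase_subset c U) x y h
  have hstar := star_ne D (U.erase c) r hr
  have hgap : D.F (U.erase c) (gl D.pc r.1 r.2) = D.F (U.erase c) (cor D.pc c p) ∨
      D.F (U.erase c) (gl D.pc r.1 (r.2 + 1)) = D.F (U.erase c) (cor D.pc c p) :=
    hs.imp (fun h => (mono _ _ h).trans hmer.symm) (fun h => (mono _ _ h).trans hmer.symm)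
  have hc' : ∀ c' ∈ U, c' ≠ c → D.F U (cor D.pc c p) ≠ D.F U (cor D.pc c' (m c')) := by
    intro c' hc' hne' h
    have h1 := mono _ _ h
    have h2 : c' ∈ U.erase c := Finset.mem_erase.2 ⟨hne', hc'⟩
    rcases hgap with h3 | h3
    · exact hm.2.1 c' h2 (h3.trans h1).symm
    · exact hm.2.2 c' h2 (h3.trans h1).symm
  refine ⟨?_, ?_, ?_⟩
  · intro c₁ h₁ c₂ h₂ h
    by_cases e₁ : c₁ = c
    · by_cases e₂ : c₂ = c
      · rw [e₁, e₂]
      · exfalso
        rw [e₁, hmc] at h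
        exact hc' c₂ h₂ e₂ h
    · by_cases e₂ : c₂ = c
      · exfalso
        rw [e₂, hmc] at h
        exact hc' c₁ h₁ e₁ h.symm
      · exact hm.1 c₁ (Finset.mem_erase.2 ⟨e₁, h₁⟩) c₂ (Finset.mem_erase.2 ⟨e₂, h₂⟩) (mono _ _ h)
  · intro c₁ h₁ h
    by_cases e₁ : c₁ = c
    · rw [e₁, hmc] at h
      have h' : D.F U (cor D.pc c p) = D.F U (gl D.pc r.1 r.2) := h
      rcases hs with h3 | h3
      · exact hne (h'.trans h3)
      · exact hstar ((mono _ _ h').symm.trans (hmer.trans (mono _ _ h3).symm))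
    · exact hm.2.1 c₁ (Finset.mem_erase.2 ⟨e₁, h₁⟩) (mono _ _ h)
  · intro c₁ h₁ h
    by_cases e₁ : c₁ = c
    · rw [e₁, hmc] at h
      have h' : D.F U (cor D.pc c p) = D.F U (gl D.pc r.1 (r.2 + 1)) := h
      rcases hs with h3 | h3
      · exact hstar ((mono _ _ h3).trans (hmer.symm.trans (mono _ _ h')))
      · exact hne (h'.trans h3)
    · exact hm.2.2 c₁ (Finset.mem_erase.2 ⟨e₁, h₁⟩) (mono _ _ h)

theorem reinsert_T (D : Dia) (hD : D.MGr.Conn D.V D.C) (V' U : Finset ℕ)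
    (h : D.MGr.Conn V' U) (hV : V' ⊆ D.V) (hU : U ⊆ D.C) (c : ℕ) (hc : c ∈ U)
    (h' : D.MGr.Conn V' (U.erase c)) (r : ℕ × ℕ) (hr : D.IsRoot r)
    (hs : D.F U (gl D.pc r.1 r.2) = D.F U (cor D.pc c .B) ∨
      D.F U (gl D.pc r.1 (r.2 + 1)) = D.F U (cor D.pc c .B)) (m : ℕ → Mk)
    (hm : Kst D.pc D.n (U.erase c) r m) (hmc : m c = .T) : Kst D.pc D.n U r m :=
  kre_aux D U c r hr .T .B (nonbridge_ne D hD V' U h hV hU c hc h')
    ((F_erase D U c (hU hc) hc _ _).2 (Or.inr ⟨Or.inl rfl, Or.inr rfl⟩)) hs m hm hmc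

theorem reinsert_B (D : Dia) (hD : D.MGr.Conn D.V D.C) (V' U : Finset ℕ)
    (h : D.MGr.Conn V' U) (hV : V' ⊆ D.V) (hU : U ⊆ D.C) (c : ℕ) (hc : c ∈ U)
    (h' : D.MGr.Conn V' (U.erase c)) (r : ℕ × ℕ) (hr : D.IsRoot r)
    (hs : D.F U (gl D.pc r.1 r.2) = D.F U (cor D.pc c .T) ∨
      D.F U (gl D.pc r.1 (r.2 + 1)) = D.F U (cor D.pc c .T)) (m : ℕ → Mk)
    (hm : Kst D.pc D.n (U.erase c) r m) (hmc : m c = .B) : Kst D.pc D.n U r m :=
  kre_aux D U c r hr .B .T (nonbridge_ne D hD V' U h hV hU c hc h').symm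
    ((F_erase D U c (hU hc) hc _ _).2 (Or.inr ⟨Or.inr rfl, Or.inl rfl⟩)) hs m hm hmc

end LGAlt
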