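import Mathlib

/-!
# The arithmetic of the octagons

`CC N M L m g` are the inequalities satisfied by the parameters of the octagon
`{(x, y) | -L ≤ x + y ≤ N, |x - y| ≤ g, -m ≤ x, y ≤ M}` of a diagram.

`arith_ear` : the larger octagon (except for its lower boundary `x + y = -L`) is covered by the
translates of the smaller one.  A good choice of `l` is `l₀` or `l₀ - 1`, where
`l₀ = min k (x + y + L) (2 * (min x y + m) + 1)`, with the first possibility if `y ≤ x` and with the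
second one if `x < y` (verified by brute force for small parameters).
-/

namespace LGAlt

/-- inequalities between the parameters of the octagon -/
def CC (N M L m g : ℤ) : Prop :=
  0 ≤ N ∧ 0 ≤ L ∧ N ≤ 2 * M ∧ L ≤ 2 * m ∧ (2 * M - N) + (2 * m - L) ≤ g ∧ g ≤ M + m ∧
    (0 < N + L → (2 * M - N) + (2 * m - L) + 1 ≤ g)

/-- the octagon -/
def InOct (N M L m g x y : ℤ) : Prop :=
  -L ≤ x + y ∧ x + y ≤ N ∧ x - y ≤ g ∧ y - x ≤ g ∧ -m ≤ x ∧ x ≤ M ∧ -m ≤ y ∧ y ≤ M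

private theorem arith_ear_aux (k : ℕ) (N M L m g x y : ℤ) (hk : 1 ≤ k) (h : CC N M L m g)
    (h' : CC (N - k) (M - ((k + 1) / 2 : ℕ)) L m (g - 1)) (hz : InOct N M L m g x y)
    (hS : -L < x + y) (hyx : y ≤ x) :
    ∃ l : ℕ, 1 ≤ l ∧ l ≤ k ∧
      InOct (N - k) (M - ((k + 1) / 2 : ℕ)) L m (g - 1) (x - ((l + 1) / 2 : ℕ)) (y - (l / 2 : ℕ)) := by
  unfold CC at h h'
  unfold InOct at hz ⊢
  obtain ⟨z1, z2, z3, z4, z5, z6, z7, z8⟩ := hz
  obtain ⟨a1, a2, a3, a4, a5, a6, a7⟩ := h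
  obtain ⟨b1, b2, b3, b4, b5, b6, b7⟩ := h'
  by_cases hA : 2 * (y + m) + 1 ≤ k ∧ 2 * (y + m) + 1 ≤ x + y + L
  · obtain ⟨l, hl⟩ : ∃ l : ℕ, (l : ℤ) = 2 * (y + m) + 1 :=
      ⟨(2 * (y + m) + 1).toNat, Int.toNat_of_nonneg (by omega)⟩
    refine ⟨l, by omega, by omega, ?_, ?_, ?_, ?_, ?_, ?_, ?_, ?_⟩ <;> omega
  · by_cases hB : x + y + L ≤ k
    · obtain ⟨l, hl⟩ : ∃ l : ℕ, (l : ℤ) = x + y + L :=
        ⟨(x + y + L).toNat, Int.toNat_of_nonneg (by omega)⟩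
      refine ⟨l, by omega, by omega, ?_, ?_, ?_, ?_, ?_, ?_, ?_, ?_⟩ <;> omega
    · by_cases hC : k % 2 = 0 ∧ x - y = g
      · refine ⟨k - 1, by omega, by omega, ?_, ?_, ?_, ?_, ?_, ?_, ?_, ?_⟩ <;> omega
      · refine ⟨k, by omega, by omega, ?_, ?_, ?_, ?_, ?_, ?_, ?_, ?_⟩ <;> omega

private theorem InOct.symm' {N M L m g x y : ℤ} (h : InOct N M L m g x y) : InOct N M L m g y x := by
  unfold InOct at h ⊢
  omega

theorem arith_ear (k : ℕ) (N M L m g x y : ℤ) (hk : 1 ≤ k) (h : CC N M L m g)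
    (h' : CC (N - k) (M - ((k + 1) / 2 : ℕ)) L m (g - 1)) (hz : InOct N M L m g x y)
    (hS : -L < x + y) :
    ∃ l : ℕ, 1 ≤ l ∧ l ≤ k ∧
      (InOct (N - k) (M - ((k + 1) / 2 : ℕ)) L m (g - 1) (x - ((l + 1) / 2 : ℕ)) (y - (l / 2 : ℕ)) ∨
       InOct (N - k) (M - ((k + 1) / 2 : ℕ)) L m (g - 1) (x - (l / 2 : ℕ)) (y - ((l + 1) / 2 : ℕ))) := by
  rcases le_total y x with hyx | hyx
  · obtain ⟨l, h1, h2, h3⟩ := arith_ear_aux k N M L m g x y hk h h' hz hS hyx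
    exact ⟨l, h1, h2, Or.inl h3⟩
  · obtain ⟨l, h1, h2, h3⟩ := arith_ear_aux k N M L m g y x hk h h' hz.symm' (by linarith) hyx
    exact ⟨l, h1, h2, Or.inr h3.symm'⟩

/-- the inequalities for the larger octagon -/
theorem CC_step (k : ℕ) (N M L m g : ℤ) (hk : 1 ≤ k)
    (h' : CC (N - k) (M - ((k + 1) / 2 : ℕ)) L m (g - 1))
    (hodd : k % 2 = 1 → 0 < (N - k) + L) : CC N M L m g := by
  obtain ⟨h1, h2, h3, h4, h5, h6, h7⟩ := h'
  refine ⟨by omega, by omega, by omega, by omega, by omega, by omega, fun _ => ?_⟩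
  rcases Nat.mod_two_eq_zero_or_one k with hk2 | hk2
  · omega
  · have := h7 (hodd hk2)
    omega

end LGAlt
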