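import Pool.Agent.LGAlt2.Graph

/-!
# The last ear of a strongly connected digraph

Proof.  Consider the pairs `(V₁, E₁)` with `a ∈ V₁ ⊆ V`, `E₁ ⊂ E` (proper) and `Strong src dst V₁ E₁`;
`({a}, ∅)` is one of them.  Choose one with `E₁.card + V₁.card` maximal.
* If there is `e ∈ E \ E₁` with both ends in `V₁`, this is an ear with `k = 1`:
  `Strong src dst V₁ (insert e E₁)`, so `insert e E₁ = E` by maximality, and then `V₁ = V` (otherwise no
  edge of `E` leaves `V₁`).
* Otherwise `V₁ ≠ V`, and there is an edge `e₀` from `V₁` to `W 1 = dst e₀ ∉ V₁`.  Let `L 0 = V₁` and let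
  `L (t + 1)` be the set of the vertices outside `L 0 ∪ … ∪ L t` with an edge into `L t`.  Every vertex of
  `V` belongs to some layer (cut condition for the complement of the union of the layers).
  Following edges to the layers with smaller index we get from `W 1` a path
  `W 1, …, W k` with `W k ∈ V₁` and with the other vertices distinct and outside `V₁`.
  The edges are distinct and not in `E₁`.  Adding the path with `e₀` to `(V₁, E₁)` gives a strongly
  connected digraph, so by maximality its edges are all of `E`, and then its vertices are all of `V`.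
-/

namespace LGAlt

namespace MG

/-- the ear is directed -/
structure IsDEar (src dst : ℕ → ℕ) (V₁ E₁ : Finset ℕ) (k : ℕ) (W c : ℕ → ℕ) : Prop where
  kpos : 1 ≤ k
  W0 : W 0 ∈ V₁
  Wk : W k ∈ V₁
  Wint : ∀ i, 0 < i → i < k → W i ∉ V₁
  Winj : ∀ i j, 0 < i → i < k → 0 < j → j < k → W i = W j → i = j
  cnot : ∀ i < k, c i ∉ E₁
  cinj : ∀ i < k, ∀ j < k, c i = c j → i = j
  ends : ∀ i < k, src (c i) = W i ∧ dst (c i) = W (i + 1)

/-- `x` reaches `V₁` by a walk of length `n` -/
private def rchLE (src dst : ℕ → ℕ) (V₁ E : Finset ℕ) : ℕ → ℕ → Prop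
  | 0, x => x ∈ V₁
  | n + 1, x => ∃ e ∈ E, src e = x ∧ rchLE src dst V₁ E n (dst e)

private theorem allReachLE {src dst : ℕ → ℕ} {V E V₁ : Finset ℕ} (h : Strong src dst V E) (hV : V₁ ⊆ V)
    (hne : V₁.Nonempty) : ∀ x ∈ V, ∃ n, rchLE src dst V₁ E n x := by
  classical
  by_contra hcon
  push Not at hcon
  obtain ⟨x, hx, hxn⟩ := hcon
  obtain ⟨v, hv⟩ := hne
  have hY : V.filter (fun x => ¬ ∃ n, rchLE src dst V₁ E n x) ≠ V := by
    intro h1
    have h2 : v ∈ V.filter (fun x => ¬ ∃ n, rchLE src dst V₁ E n x) := by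
      rw [h1]
      exact hV hv
    exact (Finset.mem_filter.1 h2).2 ⟨0, hv⟩
  obtain ⟨e, he, h1, h2⟩ := h.cut (V.filter (fun x => ¬ ∃ n, rchLE src dst V₁ E n x)) (Finset.filter_subset _ _)
    ⟨x, Finset.mem_filter.2 ⟨hx, fun ⟨n, hn⟩ => hxn n hn⟩⟩ hY
  have h3 : ∃ n, rchLE src dst V₁ E n (dst e) := by
    by_contra h4
    exact h2 (Finset.mem_filter.2 ⟨(h.ends e he).2, h4⟩)
  obtain ⟨n, hn⟩ := h3
  exact (Finset.mem_filter.1 h1).2 ⟨n + 1, e, he, rfl, hn⟩

private theorem pathLE {src dst : ℕ → ℕ} {E V₁ : Finset ℕ} : ∀ (m x : ℕ), rchLE src dst V₁ E m x →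
    (∀ m' < m, ¬ rchLE src dst V₁ E m' x) → ∃ X c : ℕ → ℕ, X 0 = x ∧
      (∀ i < m, c i ∈ E ∧ src (c i) = X i ∧ dst (c i) = X (i + 1)) ∧
      ∀ i ≤ m, rchLE src dst V₁ E (m - i) (X i) ∧ ∀ m' < m - i, ¬ rchLE src dst V₁ E m' (X i) := by
  intro m
  induction m with
  | zero =>
    intro x hx _
    refine ⟨fun _ => x, fun _ => 0, rfl, fun i hi => absurd hi (Nat.not_lt_zero i), fun i hi => ?_⟩
    obtain rfl := Nat.le_zero.1 hi
    exact ⟨hx, fun m' hm' => absurd hm' (Nat.not_lt_zero m')⟩
  | succ m ih =>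
    intro x hx hmin
    obtain ⟨e, he, hs, hr⟩ := hx
    obtain ⟨X, c, hX0, hc, hX⟩ := ih (dst e) hr fun m' hm' h1 =>
      hmin (m' + 1) (Nat.succ_lt_succ hm') ⟨e, he, hs, h1⟩
    refine ⟨fun i => Nat.casesOn i x X, fun i => Nat.casesOn i e c, rfl, fun i hi => ?_, fun i hi => ?_⟩
    · cases i with
      | zero => exact ⟨he, hs, hX0.symm⟩
      | succ i => exact hc i (Nat.lt_of_succ_lt_succ hi)
    · cases i with
      | zero => exact ⟨⟨e, he, hs, hr⟩, fun m' hm' => hmin m' hm'⟩
      | succ i =>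
        have h1 := hX i (Nat.le_of_succ_le_succ hi)
        rw [Nat.succ_sub_succ]
        exact h1

/-- adding an ear -/
private theorem strongEarLE {src dst : ℕ → ℕ} {V₁ E₁ : Finset ℕ} {k : ℕ} {W c : ℕ → ℕ}
    (h : Strong src dst V₁ E₁) (he : IsDEar src dst V₁ E₁ k W c) :
    Strong src dst (earV V₁ k W) (earE E₁ k c) := by
  have hsub : V₁ ⊆ earV V₁ k W := Finset.subset_union_left
  have hW : ∀ i ≤ k, W i ∈ earV V₁ k W := by
    intro i hi
    by_cases h0 : i = 0
    · rw [h0]
      exact hsub he.W0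
    · by_cases hk : i = k
      · rw [hk]
        exact hsub he.Wk
      · exact Finset.mem_union_right _ (Finset.mem_image.2 ⟨i, Finset.mem_Ico.2 ⟨by omega, by omega⟩, rfl⟩)
  have hcE : ∀ i < k, c i ∈ earE E₁ k c := fun i hi =>
    Finset.mem_union_right _ (Finset.mem_image.2 ⟨i, Finset.mem_range.2 hi, rfl⟩)
  refine ⟨?_, ?_, ?_⟩
  · obtain ⟨v, hv⟩ := h.ne
    exact ⟨v, hsub hv⟩
  · intro e hee
    rcases Finset.mem_union.1 hee with h1 | h1
    · exact ⟨hsub (h.ends e h1).1, hsub (h.ends e h1).2⟩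
    · obtain ⟨i, hi, rfl⟩ := Finset.mem_image.1 h1
      have hi' := Finset.mem_range.1 hi
      obtain ⟨h2, h3⟩ := he.ends i hi'
      rw [h2, h3]
      exact ⟨hW i hi'.le, hW (i + 1) hi'⟩
  · intro Y hY hYne hYV
    by_contra hcon
    push Not at hcon
    -- `Y` is closed
    have hstep : ∀ i < k, W i ∈ Y → W (i + 1) ∈ Y := by
      intro i hi hiY
      obtain ⟨h2, h3⟩ := he.ends i hi
      have h4 := hcon (c i) (hcE i hi) (by rw [h2]; exact hiY)
      rw [h3] at h4
      exact h4
    have hfrom : ∀ i j, i ≤ j → j ≤ k → W i ∈ Y → W j ∈ Y := by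
      intro i j hij
      induction j, hij using Nat.le_induction with
      | base => intro _ h1; exact h1
      | succ j _ ih =>
        intro hj h1
        exact hstep j hj (ih (Nat.le_of_succ_le hj) h1)
    have hmeet : (Y ∩ V₁).Nonempty := by
      obtain ⟨y, hy⟩ := hYne
      rcases Finset.mem_union.1 (hY hy) with h1 | h1
      · exact ⟨y, Finset.mem_inter.2 ⟨hy, h1⟩⟩
      · obtain ⟨i, hi, rfl⟩ := Finset.mem_image.1 h1
        have hi' := (Finset.mem_Ico.1 hi).2
        exact ⟨W k, Finset.mem_inter.2 ⟨hfrom i k hi'.le le_rfl hy, he.Wk⟩⟩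
    have hall : V₁ ⊆ Y := by
      by_contra h1
      have h2 : Y ∩ V₁ ≠ V₁ := fun h3 => h1 (by
        rw [← h3]
        exact Finset.inter_subset_left)
      obtain ⟨e, hee, h4, h5⟩ := h.cut (Y ∩ V₁) Finset.inter_subset_right hmeet h2
      have h6 := hcon e (Finset.mem_union_left _ hee) (Finset.mem_inter.1 h4).1
      exact h5 (Finset.mem_inter.2 ⟨h6, (h.ends e hee).2⟩)
    refine hYV (Finset.Subset.antisymm hY fun v hv => ?_)
    rcases Finset.mem_union.1 hv with h1 | h1
    · exact hall h1
    · obtain ⟨i, hi, rfl⟩ := Finset.mem_image.1 h1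
      exact hfrom 0 i (Nat.zero_le i) (Finset.mem_Ico.1 hi).2.le (hall he.W0)

/-- there is an ear -/
private theorem existsEarLE {src dst : ℕ → ℕ} {V E V₁ E₁ : Finset ℕ} (h : Strong src dst V E)
    (h₁ : Strong src dst V₁ E₁) (hV : V₁ ⊆ V) (hE : E₁ ⊆ E) (hne : E₁ ≠ E) :
    ∃ (k : ℕ) (W c : ℕ → ℕ), IsDEar src dst V₁ E₁ k W c ∧ earV V₁ k W ⊆ V ∧ earE E₁ k c ⊆ E := by
  by_cases hc : ∃ e ∈ E, e ∉ E₁ ∧ src e ∈ V₁ ∧ dst e ∈ V₁
  · obtain ⟨e, he, hn, hs, hd⟩ := hc
    refine ⟨1, fun i => if i = 0 then src e else dst e, fun _ => e, ⟨le_rfl, ?_, ?_, ?_, ?_, ?_, ?_, ?_⟩, ?_, ?_⟩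
    · simpa using hs
    · simpa using hd
    · intro i h1 h2
      omega
    · intro i j h1 h2
      omega
    · intro i _
      exact hn
    · intro i h1 j h2 _
      omega
    · intro i h1
      obtain rfl : i = 0 := by omega
      simp
    · intro v hv
      rcases Finset.mem_union.1 hv with h1 | h1
      · exact hV h1
      · obtain ⟨i, hi, _⟩ := Finset.mem_image.1 h1
        have := Finset.mem_Ico.1 hi
        omega
    · intro e' he'
      rcases Finset.mem_union.1 he' with h1 | h1
      · exact hE h1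
      · obtain ⟨i, _, rfl⟩ := Finset.mem_image.1 h1
        exact he
  · -- an edge with an end outside
    have h2 : ∃ e ∈ E, e ∉ E₁ := by
      by_contra h3
      push Not at h3
      exact hne (Finset.Subset.antisymm hE h3)
    obtain ⟨e, he, hen⟩ := h2
    have h3 : V₁ ≠ V := by
      rintro rfl
      exact hc ⟨e, he, hen, (h.ends e he).1, (h.ends e he).2⟩
    obtain ⟨e₀, he₀, hs₀, hd₀⟩ := h.cut V₁ hV h₁.ne h3
    have hR := allReachLE h hV h₁.ne (dst e₀) (h.ends e₀ he₀).2
    classical
    obtain ⟨X, c, hX0, hcX, hX⟩ := pathLE (Nat.find hR) (dst e₀) (Nat.find_spec hR)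
      fun m' hm' => Nat.find_min hR hm'
    set m := Nat.find hR with hm
    have hmem : X m ∈ V₁ := by
      have h4 := (hX m le_rfl).1
      rw [Nat.sub_self] at h4
      exact h4
    have hout : ∀ i < m, X i ∉ V₁ := by
      intro i hi h4
      exact (hX i hi.le).2 0 (by omega) h4
    have hinj : ∀ i j, i < m → j < m → X i = X j → i = j := by
      have haux : ∀ i j, i < j → j < m → X i ≠ X j := by
        intro i j hij hj h4
        have h5 := (hX j hj.le).1
        rw [← h4] at h5
        exact (hX i (hij.trans hj).le).2 (m - j) (by omega) h5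
      intro i j hi hj h4
      rcases Nat.lt_trichotomy i j with h5 | h5 | h5
      · exact absurd h4 (haux i j h5 hj)
      · exact h5
      · exact absurd h4.symm (haux j i h5 hi)
    refine ⟨m + 1, fun i => Nat.casesOn i (src e₀) X, fun i => Nat.casesOn i e₀ c,
      ⟨Nat.le_add_left 1 m, hs₀, hmem, ?_, ?_, ?_, ?_, ?_⟩, ?_, ?_⟩
    · intro i h0 hi
      cases i with
      | zero => omega
      | succ i => exact hout i (by omega)
    · intro i j h0 hi h0' hj hij
      cases i with
      | zero => omega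
      | succ i =>
        cases j with
        | zero => omega
        | succ j =>
          have := hinj i j (by omega) (by omega) hij
          omega
    · intro i hi
      cases i with
      | zero => exact fun h4 => hd₀ (h₁.ends e₀ h4).2
      | succ i =>
        intro h4
        have h5 := (h₁.ends (c i) h4).1
        rw [(hcX i (by omega)).2.1] at h5
        exact hout i (by omega) h5
    · intro i hi j hj hij
      cases i with
      | zero =>
        cases j with
        | zero => rfl
        | succ j =>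
          exfalso
          have h4 : src e₀ = src (c j) := congrArg src hij
          rw [(hcX j (by omega)).2.1] at h4
          exact hout j (by omega) (h4 ▸ hs₀)
      | succ i =>
        cases j with
        | zero =>
          exfalso
          have h4 : src (c i) = src e₀ := congrArg src hij
          rw [(hcX i (by omega)).2.1] at h4
          exact hout i (by omega) (h4 ▸ hs₀)
        | succ j =>
          have h4 : src (c i) = src (c j) := congrArg src hij
          rw [(hcX i (by omega)).2.1, (hcX j (by omega)).2.1] at h4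
          have := hinj i j (by omega) (by omega) h4
          omega
    · intro i hi
      cases i with
      | zero => exact ⟨rfl, hX0.symm⟩
      | succ i => exact (hcX i (by omega)).2
    · intro v hv
      rcases Finset.mem_union.1 hv with h1 | h1
      · exact hV h1
      · obtain ⟨i, hi, rfl⟩ := Finset.mem_image.1 h1
        have hi' := Finset.mem_Ico.1 hi
        cases i with
        | zero => omega
        | succ i =>
          have h4 := hcX i (by omega)
          have h5 := (h.ends (c i) h4.1).1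
          rw [h4.2.1] at h5
          exact h5
    · intro e' he'
      rcases Finset.mem_union.1 he' with h1 | h1
      · exact hE h1
      · obtain ⟨i, hi, rfl⟩ := Finset.mem_image.1 h1
        have hi' := Finset.mem_range.1 hi
        cases i with
        | zero => exact he₀
        | succ i => exact (hcX i (by omega)).1

theorem lastEar (src dst : ℕ → ℕ) (V E : Finset ℕ) (a : ℕ) (h : Strong src dst V E) (ha : a ∈ V)
    (hE : E.Nonempty) :
    ∃ (V₁ E₁ : Finset ℕ) (k : ℕ) (W c : ℕ → ℕ), a ∈ V₁ ∧ Strong src dst V₁ E₁ ∧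
      IsDEar src dst V₁ E₁ k W c ∧ V = earV V₁ k W ∧ E = earE E₁ k c := by
  classical
  -- the proper strong subgraphs
  have hex : ∃ q ∈ (V.powerset ×ˢ E.powerset).filter
      (fun q => a ∈ q.1 ∧ q.2 ≠ E ∧ Strong src dst q.1 q.2),
      ∀ q' ∈ (V.powerset ×ˢ E.powerset).filter (fun q => a ∈ q.1 ∧ q.2 ≠ E ∧ Strong src dst q.1 q.2),
        q'.2.card ≤ q.2.card := by
    apply Finset.exists_max_image
    refine ⟨({a}, ∅), Finset.mem_filter.2 ⟨Finset.mem_product.2 ⟨Finset.mem_powerset.2 ?_,
      Finset.mem_powerset.2 (Finset.empty_subset _)⟩, Finset.mem_singleton_self a, ?_, ⟨?_, ?_, ?_⟩⟩⟩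
    · exact Finset.singleton_subset_iff.2 ha
    · exact fun h1 => hE.ne_empty h1.symm
    · exact Finset.singleton_nonempty a
    · intro e he
      exact absurd he (Finset.notMem_empty e)
    · intro Y hY hYne hYV
      exact absurd (Finset.Nonempty.subset_singleton_iff hYne |>.1 hY) hYV
  obtain ⟨⟨V₁, E₁⟩, hq, hmax⟩ := hex
  obtain ⟨hq1, haV, hE1, hS⟩ := Finset.mem_filter.1 hq
  obtain ⟨hV1, hE1'⟩ := Finset.mem_product.1 hq1
  rw [Finset.mem_powerset] at hV1 hE1'
  obtain ⟨k, W, c, hear, hV2, hE2⟩ := existsEarLE h hS hV1 hE1' hE1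
  have hS2 := strongEarLE hS hear
  have hEE : earE E₁ k c = E := by
    by_contra hne
    have h1 := hmax (earV V₁ k W, earE E₁ k c) (Finset.mem_filter.2 ⟨Finset.mem_product.2
      ⟨Finset.mem_powerset.2 hV2, Finset.mem_powerset.2 hE2⟩, Finset.mem_union_left _ haV, hne, hS2⟩)
    have h2 : E₁ ⊂ earE E₁ k c := by
      refine (Finset.ssubset_iff_of_subset Finset.subset_union_left).2 ⟨c 0, ?_, hear.cnot 0 hear.kpos⟩
      exact Finset.mem_union_right _ (Finset.mem_image.2 ⟨0, Finset.mem_range.2 hear.kpos, rfl⟩)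
    have h3 := Finset.card_lt_card h2
    dsimp only at h1
    omega
  have hVV : earV V₁ k W = V := by
    by_contra hne
    obtain ⟨e, he, h1, h2⟩ := h.cut (earV V₁ k W) hV2 hS2.ne hne
    rw [← hEE] at he
    exact h2 (hS2.ends e he).2
  exact ⟨V₁, E₁, k, W, c, haV, hS, hear, hVV.symm, hEE.symm⟩

end MG

end LGAlt
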