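import Pool.Agent.LGAlt2.EndBlock
import Pool.Agent.LGAlt2.LastEar
import Pool.Agent.LGAlt2.Purity
import Pool.Agent.LGAlt2.LBarith

/-!
# The lower bound: definitions

* `CCG` : the inequalities `CC` for the parameters of a graph;
* `ECtx` : the situation after `endBlock`, `frank` and `lastEar`: `(insert a X, tch E X)` is the end block,
  `(VH, H)` is the end block without the last ear `c 0, …, c (k - 1)`;
* `EarData` : what is needed about the ear and the vertex `C` in the proof of the lower bound.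
-/

namespace LGAlt

namespace MG

variable (G : MG)

/-- the inequalities `CC` for the parameters of a graph -/
def CCG (V E J : Finset ℕ) : Prop :=
  CC (G.nb V E true) (G.nJ E J true) (G.nb V E false) (G.nJ E J false)
    ((E.card : ℤ) - V.card + 1)

/-- the edges of the ear -/
def earQ (k : ℕ) (c : ℕ → ℕ) : Finset ℕ := (Finset.range k).image c

/-- the inner vertices of the ear -/
def earI (k : ℕ) (W : ℕ → ℕ) : Finset ℕ := (Finset.Ico 1 k).image W

/-- The end block `(insert a X, tch E X)` of `(V, E)`, with the sign `p`, and its last ear. -/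
structure ECtx (ty : ℕ → Bool) (V E J : Finset ℕ) (p : Bool) (a : ℕ) (X VH H : Finset ℕ) (k : ℕ)
    (W c : ℕ → ℕ) : Prop where
  conn : G.Conn V E
  tyt : ∀ e ∈ E, ty (G.tl e) = true
  tyh : ∀ e ∈ E, ty (G.hd e) = false
  minJ : G.MinDijoin V E J
  aV : a ∈ V
  XV : X ⊆ V
  Xne : X.Nonempty
  aX : a ∉ X
  tchX : ∀ e ∈ G.tch E X, G.tl e ∈ insert a X ∧ G.hd e ∈ insert a X
  noncut : ∀ v ∈ X, G.Conn (V.erase v) (G.del E v)
  connB : G.Conn (insert a X) (G.tch E X)
  two : ∀ Y ⊆ insert a X, Y.Nonempty → Y ≠ insert a X →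
    2 ≤ ((G.tch E X).filter (fun e => G.Sep Y e)).card
  sgn : ∀ e ∈ G.tch E X, G.sg e = p
  aH : a ∈ VH
  strH : Strong (G.rsrc J) (G.rdst J) VH H
  ear : IsDEar (G.rsrc J) (G.rdst J) VH H k W c
  hV : insert a X = earV VH k W
  hE : G.tch E X = earE H k c

/-- what is needed about the ear and the vertex `C` -/
structure EarData (V E J : Finset ℕ) (p : Bool) (V₁ E₁ : Finset ℕ) (k : ℕ) (W c : ℕ → ℕ) (C : ℕ) :
    Prop where
  conn : G.Conn V₁ E₁
  ear : G.IsEar V₁ E₁ k W c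
  hV : V = earV V₁ k W
  hE : E = earE E₁ k c
  sgn : ∀ i < k, G.sg (c i) = p
  minJ : G.MinDijoin V₁ E₁ (J \ earQ k c)
  cardJ : (J ∩ earQ k c).card = k / 2
  nbp : G.nb V E p = G.nb V₁ E₁ p + k
  nbq : G.nb V E (!p) = G.nb V₁ E₁ (!p)
  odd : k % 2 = 1 → 0 < G.nb V₁ E₁ p
  hC : C ∈ V
  pureC : ∀ e ∈ E, G.Touch C e → G.sg e = p
  connC : G.Conn (V.erase C) (G.del E C)
  nbC : G.nb (V.erase C) (G.del E C) (!p) = G.nb V E (!p)
  dijC : ∃ J₂, G.MinDijoin (V.erase C) (G.del E C) J₂ ∧ G.nJ E J (!p) ≤ G.nJ (G.del E C) J₂ (!p)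

end MG

end LGAlt
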