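import Pool.Agent.LGAlt2.LBearA

/-!
# Bridges and the last ear

`V₁ = V \ earI k W`, `E₁ = E \ earQ k c`, `B = tch E X = H ∪ earQ k c`.
* The edges of `B` are not bridges of `(V, E)`: if `Y` separates `e ∈ B` then `Y ∩ insert a X` is a nonempty
  proper subset of `insert a X`, so at least two edges of `B` are separated (`two`).
* The edges of `H` are not bridges of `(V₁, E₁)`: if `Y` separates `e ∈ H` then `Y` separates `VH` and by
  `ear_sepH` there are an edge of `H` leaving `Y` and another one entering `Y` in the reversed digraph.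
* For `e ∈ E₁ \ H` (so `e ∉ B`): `e` is a bridge of `(V, E)` iff it is a bridge of `(V₁, E₁)`.  If `Y` is the
  cut of `e` in `(V, E)` then `Y ∩ V₁` is a cut in `(V₁, E₁)` (nonempty and proper since the ends of `e` are
  in `V₁`).  If `Y` is the cut in `(V₁, E₁)`, then `Y` does not separate `VH` (`ear_sepH`), and we put the inner
  vertices of the ear on the side of `VH`.
* So `nb V E p = nb V₁ E₁ p + k` (the edges of the ear have the sign `p`, there are `k` of them) and
  `nb V E (!p) = nb V₁ E₁ (!p)`.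
* If `k` is odd then `ty (W 0) ≠ ty (W k)`, so `W 0 ≠ W k` are two elements of `VH` and by `ear_sepH` for
  `{W 0}` there is an edge in `H`; it has the sign `p` and is not a bridge of `(V₁, E₁)`.
-/

namespace LGAlt

namespace MG

variable {G : MG} {ty : ℕ → Bool} {V E J : Finset ℕ} {p : Bool} {a : ℕ} {X VH H : Finset ℕ} {k : ℕ}
  {W c : ℕ → ℕ}

private theorem sep_iff_r (J Y : Finset ℕ) (e : ℕ) :
    G.Sep Y e ↔ ¬ (G.rsrc J e ∈ Y ↔ G.rdst J e ∈ Y) := by
  unfold Sep rsrc rdst
  split_ifs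
  · rw [not_iff_not]
    exact ⟨Iff.symm, Iff.symm⟩
  · exact Iff.rfl

private theorem sep_congr {Y Y' : Finset ℕ} {e : ℕ} (h1 : G.tl e ∈ Y ↔ G.tl e ∈ Y')
    (h2 : G.hd e ∈ Y ↔ G.hd e ∈ Y') : G.Sep Y e ↔ G.Sep Y' e := by
  unfold Sep
  rw [h1, h2]

/-- the edges of the end block are not bridges -/
private theorem blk_nobridge (h : G.ECtx ty V E J p a X VH H k W c) {e : ℕ}
    (he : e ∈ G.tch E X) : ¬ G.Bridge V E e := by
  rintro ⟨Y, hYV, -, -, hY⟩
  have hsep : ∀ e' ∈ G.tch E X, (G.Sep (Y ∩ insert a X) e' ↔ G.Sep Y e') := by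
    intro e' he'
    obtain ⟨h1, h2⟩ := h.tchX e' he'
    exact sep_congr (by simp only [Finset.mem_inter, h1, and_true])
      (by simp only [Finset.mem_inter, h2, and_true])
  have heE : e ∈ E := (Finset.mem_filter.1 he).1
  have hse : G.Sep (Y ∩ insert a X) e := (hsep e he).2 ((hY e heE).2 rfl)
  obtain ⟨h1, h2⟩ := h.tchX e he
  have hne : (Y ∩ insert a X).Nonempty := by
    by_contra hcon
    rw [Finset.not_nonempty_iff_eq_empty] at hcon
    rw [hcon] at hse
    exact hse (by simp)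
  have hne' : Y ∩ insert a X ≠ insert a X := by
    intro hcon
    rw [hcon] at hse
    exact hse (by simp only [h1, h2])
  have h3 := h.two (Y ∩ insert a X) Finset.inter_subset_right hne hne'
  have h4 : (G.tch E X).filter (fun e => G.Sep (Y ∩ insert a X) e) ⊆ {e} := by
    intro e' he'
    rw [Finset.mem_filter] at he'
    rw [Finset.mem_singleton]
    exact (hY e' (Finset.mem_filter.1 he'.1).1).1 ((hsep e' he'.1).1 he'.2)
  have h5 := Finset.card_le_card h4
  rw [Finset.card_singleton] at h5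
  omega

/-- the edges of `H` are not bridges of the graph without the last ear -/
private theorem H_nobridge (h : G.ECtx ty V E J p a X VH H k W c) {e : ℕ} (he : e ∈ H) :
    ¬ G.Bridge (V \ earI k W) (E \ earQ k c) e := by
  rintro ⟨Y, hYV, -, -, hY⟩
  have hHE := (ear_sub h).1
  have hse := (hY e (hHE he)).2 rfl
  rw [sep_iff_r J] at hse
  obtain ⟨h1, h2⟩ := h.strH.ends e he
  have h3 : (∃ x ∈ VH, x ∈ Y) ∧ ∃ x ∈ VH, x ∉ Y := by
    by_cases h4 : G.rsrc J e ∈ Y
    · refine ⟨⟨_, h1, h4⟩, ⟨_, h2, fun h5 => hse ?_⟩⟩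
      exact ⟨fun _ => h5, fun _ => h4⟩
    · refine ⟨⟨_, h2, ?_⟩, ⟨_, h1, h4⟩⟩
      by_contra h5
      exact hse ⟨fun h6 => absurd h6 h4, fun h6 => absurd h6 h5⟩
  obtain ⟨⟨e1, he1, h4, h5⟩, e2, he2, h6, h7⟩ := ear_sepH h Y h3.1 h3.2
  have h8 : e1 = e := (hY e1 (hHE he1)).1 ((sep_iff_r J Y e1).2 fun h9 => h5 (h9.1 h4))
  have h9 : e2 = e := (hY e2 (hHE he2)).1 ((sep_iff_r J Y e2).2 fun h9 => h6 (h9.2 h7))
  rw [h8] at h4
  rw [h9] at h6
  exact h6 h4

/-- the ends of the edges of the ear -/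
private theorem ear_endsQ (h : G.ECtx ty V E J p a X VH H k W c) {e : ℕ} (he : e ∈ earQ k c) :
    (G.tl e ∈ VH ∨ G.tl e ∈ earI k W) ∧ (G.hd e ∈ VH ∨ G.hd e ∈ earI k W) := by
  obtain ⟨i, hi, rfl⟩ := Finset.mem_image.1 he
  rw [Finset.mem_range] at hi
  have hW : ∀ j ≤ k, W j ∈ VH ∨ W j ∈ earI k W := by
    intro j hj
    rcases Nat.eq_zero_or_pos j with h0 | h0
    · rw [h0]
      exact Or.inl h.ear.W0
    · rcases Nat.lt_or_ge j k with h1 | h1
      · exact Or.inr (Finset.mem_image.2 ⟨j, Finset.mem_Ico.2 ⟨h0, h1⟩, rfl⟩)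
      · rw [Nat.le_antisymm hj h1]
        exact Or.inl h.ear.Wk
  obtain ⟨h1, h2⟩ := h.ear.ends i hi
  have h3 := hW i hi.le
  have h4 := hW (i + 1) hi
  unfold rsrc at h1
  unfold rdst at h2
  split_ifs at h1 h2
  · rw [h1, h2]
    exact ⟨h4, h3⟩
  · rw [h1, h2]
    exact ⟨h3, h4⟩

theorem ear_bridge (h : G.ECtx ty V E J p a X VH H k W c) (e : ℕ) (he : e ∈ E \ earQ k c) :
    G.Bridge V E e ↔ G.Bridge (V \ earI k W) (E \ earQ k c) e := by
  have hends := ear_ends h
  obtain ⟨hHE, hVHV, hIX, hQB, hBE⟩ := ear_sub h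
  constructor
  · rintro ⟨Y, hYV, -, -, hY⟩
    have hsep : ∀ e' ∈ E \ earQ k c, (G.Sep (Y ∩ (V \ earI k W)) e' ↔ G.Sep Y e') := by
      intro e' he'
      obtain ⟨h1, h2⟩ := hends e' he'
      exact sep_congr (by rw [Finset.mem_inter]; exact ⟨fun h => h.1, fun h => ⟨h, h1⟩⟩)
        (by rw [Finset.mem_inter]; exact ⟨fun h => h.1, fun h => ⟨h, h2⟩⟩)
    have hse : G.Sep (Y ∩ (V \ earI k W)) e :=
      (hsep e he).2 ((hY e (Finset.sdiff_subset he)).2 rfl)
    obtain ⟨h1, h2⟩ := hends e he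
    refine ⟨Y ∩ (V \ earI k W), Finset.inter_subset_right, ?_, ?_, fun e' he' => ?_⟩
    · by_contra hcon
      rw [Finset.not_nonempty_iff_eq_empty] at hcon
      rw [hcon] at hse
      exact hse (by simp)
    · intro hcon
      rw [hcon] at hse
      exact hse (by simp only [h1, h2])
    · rw [hsep e' he']
      exact hY e' (Finset.sdiff_subset he')
  · rintro ⟨Y, hYV, hYne, hYne', hY⟩
    have heH : e ∉ H := fun h1 => H_nobridge h h1 ⟨Y, hYV, hYne, hYne', hY⟩
    have hnsep : ¬ ((∃ x ∈ VH, x ∈ Y) ∧ ∃ x ∈ VH, x ∉ Y) := by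
      rintro ⟨h1, h2⟩
      obtain ⟨⟨e1, he1, h4, h5⟩, -⟩ := ear_sepH h Y h1 h2
      have h8 : e1 = e := (hY e1 (hHE he1)).1 ((sep_iff_r J Y e1).2 fun h9 => h5 (h9.1 h4))
      exact heH (h8 ▸ he1)
    have hIV : earI k W ⊆ V := hIX.trans h.XV
    have hYI : ∀ x ∈ Y, x ∉ earI k W := fun x hx => (Finset.mem_sdiff.1 (hYV hx)).2
    obtain ⟨x0, hx0, hx0'⟩ : ∃ x ∈ V \ earI k W, x ∉ Y := by
      by_contra hcon
      push Not at hcon
      exact hYne' (Finset.Subset.antisymm hYV hcon)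
    by_cases hVH : ∃ x ∈ VH, x ∈ Y
    · have hall : ∀ x ∈ VH, x ∈ Y := by
        intro x hx
        by_contra hcon
        exact hnsep ⟨hVH, x, hx, hcon⟩
      refine ⟨Y ∪ earI k W, Finset.union_subset (hYV.trans Finset.sdiff_subset) hIV,
        hYne.mono Finset.subset_union_left, ?_, fun e' he' => ?_⟩
      · intro hcon
        have h1 : x0 ∈ Y ∪ earI k W := by
          rw [hcon]
          exact Finset.sdiff_subset hx0
        rcases Finset.mem_union.1 h1 with h2 | h2
        · exact hx0' h2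
        · exact (Finset.mem_sdiff.1 hx0).2 h2
      · by_cases hq : e' ∈ earQ k c
        · obtain ⟨h1, h2⟩ := ear_endsQ h hq
          have hin : ∀ x, x ∈ VH ∨ x ∈ earI k W → x ∈ Y ∪ earI k W := fun x hx =>
            Finset.mem_union.2 (hx.imp (hall x) id)
          constructor
          · intro h3
            exact absurd ⟨fun _ => hin _ h2, fun _ => hin _ h1⟩ h3
          · intro h3
            exact absurd (h3 ▸ hq) (Finset.mem_sdiff.1 he).2
        · have he1 : e' ∈ E \ earQ k c := Finset.mem_sdiff.2 ⟨he', hq⟩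
          obtain ⟨h1, h2⟩ := hends e' he1
          have h3 : ∀ x ∈ V \ earI k W, (x ∈ Y ∪ earI k W ↔ x ∈ Y) := fun x hx => by
            rw [Finset.mem_union]
            exact ⟨fun h4 => h4.resolve_right (Finset.mem_sdiff.1 hx).2, Or.inl⟩
          rw [sep_congr (h3 _ h1) (h3 _ h2)]
          exact hY e' he1
    · have hall : ∀ x ∈ VH, x ∉ Y := fun x hx hcon => hVH ⟨x, hx, hcon⟩
      refine ⟨Y, hYV.trans Finset.sdiff_subset, hYne, ?_, fun e' he' => ?_⟩
      · intro hcon
        rw [hcon] at hx0'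
        exact hx0' (Finset.sdiff_subset hx0)
      · by_cases hq : e' ∈ earQ k c
        · obtain ⟨h1, h2⟩ := ear_endsQ h hq
          have hout : ∀ x, x ∈ VH ∨ x ∈ earI k W → x ∉ Y := fun x hx hxY =>
            hx.elim (fun h3 => hall x h3 hxY) fun h3 => hYI x hxY h3
          constructor
          · intro h3
            exact absurd ⟨fun h4 => absurd h4 (hout _ h1), fun h4 => absurd h4 (hout _ h2)⟩ h3
          · intro h3
            exact absurd (h3 ▸ hq) (Finset.mem_sdiff.1 he).2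
        · exact hY e' (Finset.mem_sdiff.2 ⟨he', hq⟩)

private theorem cardQ (h : G.ECtx ty V E J p a X VH H k W c) : (earQ k c).card = k := by
  unfold earQ
  rw [Finset.card_image_of_injOn, Finset.card_range]
  intro i hi j hj hij
  rw [Finset.mem_coe, Finset.mem_range] at hi hj
  exact h.ear.cinj i hi j hj hij

open Classical in
private theorem filt (h : G.ECtx ty V E J p a X VH H k W c) (q : Bool) :
    (E.filter (fun e => G.sg e = q ∧ ¬ G.Bridge V E e)) =
      ((E \ earQ k c).filter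
        (fun e => G.sg e = q ∧ ¬ G.Bridge (V \ earI k W) (E \ earQ k c) e)) ∪
        (if q = p then earQ k c else ∅) := by
  obtain ⟨hHE, hVHV, hIX, hQB, hBE⟩ := ear_sub h
  ext e
  rw [Finset.mem_union, Finset.mem_filter, Finset.mem_filter]
  constructor
  · rintro ⟨h1, h2, h3⟩
    by_cases hq : e ∈ earQ k c
    · right
      have h4 : q = p := by rw [← h2]; exact h.sgn e (hQB hq)
      rw [if_pos h4]
      exact hq
    · left
      have h4 : e ∈ E \ earQ k c := Finset.mem_sdiff.2 ⟨h1, hq⟩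
      exact ⟨h4, h2, fun h5 => h3 ((ear_bridge h e h4).2 h5)⟩
  · rintro (⟨h1, h2, h3⟩ | h1)
    · exact ⟨Finset.sdiff_subset h1, h2, fun h5 => h3 ((ear_bridge h e h1).1 h5)⟩
    · by_cases h4 : q = p
      · rw [if_pos h4] at h1
        exact ⟨hBE (hQB h1), by rw [h4]; exact h.sgn e (hQB h1), blk_nobridge h (hQB h1)⟩
      · rw [if_neg h4] at h1
        simp at h1

theorem ear_nbp (h : G.ECtx ty V E J p a X VH H k W c) :
    G.nb V E p = G.nb (V \ earI k W) (E \ earQ k c) p + k := by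
  classical
  unfold nb
  rw [filt h p, if_pos rfl, Finset.card_union_of_disjoint, cardQ h]
  · push_cast
    rfl
  · rw [Finset.disjoint_left]
    intro e h1 h2
    exact (Finset.mem_sdiff.1 (Finset.mem_filter.1 h1).1).2 h2

theorem ear_nbq (h : G.ECtx ty V E J p a X VH H k W c) :
    G.nb V E (!p) = G.nb (V \ earI k W) (E \ earQ k c) (!p) := by
  classical
  unfold nb
  rw [filt h (!p), if_neg (by simp), Finset.union_empty]

theorem ear_odd (h : G.ECtx ty V E J p a X VH H k W c) (hk : k % 2 = 1) :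
    0 < G.nb (V \ earI k W) (E \ earQ k c) p := by
  classical
  obtain ⟨hHE, hVHV, hIX, hQB, hBE⟩ := ear_sub h
  have halt : ∀ i < k, ty (W (i + 1)) = !ty (W i) := by
    intro i hi
    obtain ⟨h1, h2⟩ := h.ear.ends i hi
    have h3 : c i ∈ E := hBE (hQB (Finset.mem_image.2 ⟨i, Finset.mem_range.2 hi, rfl⟩))
    have h4 := h.tyt _ h3
    have h5 := h.tyh _ h3
    unfold rsrc at h1
    unfold rdst at h2
    split_ifs at h1 h2
    · rw [← h1, ← h2, h4, h5]
      rfl
    · rw [← h1, ← h2, h4, h5]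
      rfl
  have hpar : ∀ i ≤ k, ty (W i) = (ty (W 0) ^^ decide (i % 2 = 1)) := by
    intro i
    induction i with
    | zero => intro _; simp
    | succ i ih =>
      intro hi
      rw [halt i hi, ih (by omega)]
      rcases Nat.mod_two_eq_zero_or_one i with h1 | h1
      · have h2 : (i + 1) % 2 = 1 := by omega
        rw [h1, h2]
        cases ty (W 0) <;> rfl
      · have h2 : (i + 1) % 2 = 0 := by omega
        rw [h1, h2]
        cases ty (W 0) <;> rfl
  have hne : W k ≠ W 0 := by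
    intro hcon
    have h1 := hpar k le_rfl
    rw [hcon, hk] at h1
    cases h2 : ty (W 0) <;> rw [h2] at h1 <;> simp at h1
  obtain ⟨⟨e, he, -, -⟩, -⟩ := ear_sepH h {W 0} ⟨W 0, h.ear.W0, Finset.mem_singleton_self _⟩
    ⟨W k, h.ear.Wk, fun h1 => hne (Finset.mem_singleton.1 h1)⟩
  unfold nb
  have h1 : e ∈ G.tch E X := by
    rw [h.hE]
    exact Finset.mem_union_left _ he
  have h2 : 0 < ((E \ earQ k c).filter
      (fun e => G.sg e = p ∧ ¬ G.Bridge (V \ earI k W) (E \ earQ k c) e)).card :=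
    Finset.card_pos.2 ⟨e, Finset.mem_filter.2 ⟨hHE he, h.sgn e h1, H_nobridge h he⟩⟩
  exact_mod_cast h2

end MG

end LGAlt
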