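import Pool.Agent.LGAlt2.Purity

/-!
# Purity of bonds, second part

* `bond_pure` : Let `Y ⊆ V` be such that `Y` and `V \ Y` are connected (induced subgraphs).  Then all
  edges between `Y` and `V \ Y` have the same sign.  Induction on `Y.card`, for all graphs
  `(V, E)` (`E ⊆ E₀`).  `Y = {y}`: by `SepHyp` for `W = y` two edges at `y` with
  different signs lead to vertices with different values of `H`, but `H` is constant on the connected
  set `V \ {y}` (this is `pure_of_noncut`).  Otherwise let `y ∈ Y` such that `Y.erase y` is connected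
  (`exists_noncut`).
  - If both `y` and `Y.erase y` have edges to `V \ Y`: then `V.erase y` is connected, so all edges at `y`
    have the same sign (`pure_of_noncut`), say `p`, and `(Y.erase y, insert y (V \ Y))` is a bond, pure
    by induction, containing an edge at `y` (`Y` is connected); so everything has the sign `p`.
  - If `Y.erase y` has no edges to `V \ Y`: all edges of the bond are at `y`; `V \ Y` is connected and does
    not contain `y`, so `H` (for `W = y`) is constant there.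
  - If `y` has no edges to `V \ Y`: apply the induction hypothesis to the graph with the vertices
    `V.erase y` and the edges `del E y`, and to `Y.erase y`.
* `dijoin_of_pure` : if `J` meets every directed cut all of whose edges have the same sign, then `J` is a
  dijoin: let `Y` be a directed cut (no edge enters `Y`), let `Z` be a maximal connected nonempty subset of
  `Y` (i.e. `(Z, ind E Z)` is connected) and let `Y'` be a maximal connected nonempty subset of `V \ Z`.
  All edges in the cut of `Z` are in the cut of `Y`, they leave `Z`.  All edges in the cut of `Y'` lead to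
  `Z`, they enter `Y'`.  `V \ Y'` is connected (it consists of `Z` and of the other components of `V \ Z`,
  each of which is joined to `Z` by an edge).  So by `bond_pure` the edges in the cut of `Y'` have the same
  sign, and no edge enters `V \ Y'`; they belong to the cut of `Y`.
-/

namespace LGAlt

namespace MG

variable (G : MG)

private theorem pu2_mem_ind {E Y : Finset ℕ} {e : ℕ} :
    e ∈ G.ind E Y ↔ e ∈ E ∧ G.tl e ∈ Y ∧ G.hd e ∈ Y := by
  simp [ind]

private theorem pu2_mem_del {E : Finset ℕ} {v e : ℕ} :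
    e ∈ G.del E v ↔ e ∈ E ∧ G.tl e ≠ v ∧ G.hd e ≠ v := by
  simp [del, Touch]

/-- a set without separated edges contains a connected set or is disjoint from it -/
private theorem pu2_dich {A E C : Finset ℕ} (hA : G.Conn A E) (h : ∀ e ∈ E, ¬ G.Sep C e) :
    A ⊆ C ∨ ∀ x ∈ A, x ∉ C := by
  by_contra hcon
  rw [not_or] at hcon
  obtain ⟨h1, h2⟩ := hcon
  push Not at h2
  obtain ⟨x, hx, hxC⟩ := h2
  obtain ⟨e, he, hs⟩ := hA.cut (A ∩ C) Finset.inter_subset_left
    ⟨x, Finset.mem_inter.2 ⟨hx, hxC⟩⟩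
    (fun heq => h1 (by rw [← heq]; exact Finset.inter_subset_right))
  refine h e he fun hiff => hs ?_
  have h3 := hA.ends e he
  rw [Finset.mem_inter, Finset.mem_inter]
  exact ⟨fun h4 => ⟨h3.2, hiff.1 h4.2⟩, fun h4 => ⟨h3.1, hiff.2 h4.2⟩⟩

/-- two connected sets joined by an edge -/
private theorem pu2_union {A B E : Finset ℕ} (hA : G.Conn A (G.ind E A))
    (hB : G.Conn B (G.ind E B)) {e : ℕ} (he : e ∈ E)
    (h : (G.tl e ∈ A ∧ G.hd e ∈ B) ∨ (G.tl e ∈ B ∧ G.hd e ∈ A)) :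
    G.Conn (A ∪ B) (G.ind E (A ∪ B)) := by
  have hmono : ∀ {A' : Finset ℕ}, A' ⊆ A ∪ B → ∀ f ∈ G.ind E A', f ∈ G.ind E (A ∪ B) := by
    intro A' hA' f hf
    rw [pu2_mem_ind] at hf ⊢
    exact ⟨hf.1, hA' hf.2.1, hA' hf.2.2⟩
  refine ⟨hA.ne.mono Finset.subset_union_left, fun f hf => (G.pu2_mem_ind.1 hf).2,
    fun C hC hCne hCV => ?_⟩
  by_contra hcon
  push Not at hcon
  have hAC := G.pu2_dich hA fun f hf => hcon f (hmono Finset.subset_union_left f hf)
  have hBC := G.pu2_dich hB fun f hf => hcon f (hmono Finset.subset_union_right f hf)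
  have hjoin : ¬ G.Sep C e := by
    refine hcon e (G.pu2_mem_ind.2 ⟨he, ?_⟩)
    rcases h with h | h
    · exact ⟨Finset.mem_union_left _ h.1, Finset.mem_union_right _ h.2⟩
    · exact ⟨Finset.mem_union_right _ h.1, Finset.mem_union_left _ h.2⟩
  have hiff : G.tl e ∈ C ↔ G.hd e ∈ C := not_not.1 hjoin
  rcases hAC with hAC | hAC <;> rcases hBC with hBC | hBC
  · exact hCV (Finset.Subset.antisymm hC (Finset.union_subset hAC hBC))
  · rcases h with h | h
    · exact hBC _ h.2 (hiff.1 (hAC h.1))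
    · exact hBC _ h.1 (hiff.2 (hAC h.2))
  · rcases h with h | h
    · exact hAC _ h.1 (hiff.2 (hBC h.2))
    · exact hAC _ h.2 (hiff.1 (hBC h.1))
  · obtain ⟨x, hx⟩ := hCne
    rcases Finset.mem_union.1 (hC hx) with h' | h'
    · exact hAC x h' hx
    · exact hBC x h' hx

private theorem pu2_single (E : Finset ℕ) (v : ℕ) : G.Conn {v} (G.ind E {v}) := by
  refine ⟨Finset.singleton_nonempty v, fun f hf => (G.pu2_mem_ind.1 hf).2,
    fun C hC hCne hCV => ?_⟩
  exfalso
  rcases Finset.subset_singleton_iff.1 hC with h | h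
  · exact hCne.ne_empty h
  · exact hCV h

/-- two edges at `y` which lead to a connected set without `y` have the same sign -/
private theorem pu2_star {E₀ E D : Finset ℕ} (hs : G.SepHyp E₀) (hE : E ⊆ E₀)
    (hD : G.Conn D (G.ind E D)) {y e e' : ℕ} (hy : y ∉ D) (he : e ∈ E) (he' : e' ∈ E)
    (ht : G.Touch y e) (ht' : G.Touch y e') (ho : G.other y e ∈ D) (ho' : G.other y e' ∈ D) :
    G.sg e = G.sg e' := by
  obtain ⟨H, hH, hH'⟩ := hs y
  by_contra hne
  refine hH' e (hE he) e' (hE he') ht ht' hne ?_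
  refine const_of_conn G D (G.ind E D) hD H (fun f hf => ?_) _ ho _ ho'
  obtain ⟨h1, h2, h3⟩ := G.pu2_mem_ind.1 hf
  exact hH f (hE h1) (fun h => hy (h ▸ h2)) (fun h => hy (h ▸ h3))

/-- the other end of an edge -/
private theorem pu2_other {y e : ℕ} (ht : G.Touch y e) (hnl : G.tl e ≠ G.hd e) :
    (G.tl e = y ∧ G.other y e = G.hd e ∧ G.hd e ≠ y) ∨
      (G.hd e = y ∧ G.other y e = G.tl e ∧ G.tl e ≠ y) := by
  by_cases h : G.tl e = y
  · exact Or.inl ⟨h, by rw [other, if_pos h], fun h' => hnl (h.trans h'.symm)⟩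
  · exact Or.inr ⟨ht.resolve_left h, by rw [other, if_neg h], h⟩

/-- a maximal connected subset -/
private theorem pu2_comp {E Y : Finset ℕ} (hY : Y.Nonempty) :
    ∃ Z ⊆ Y, G.Conn Z (G.ind E Z) ∧ ∀ e ∈ E, (G.tl e ∈ Z → G.hd e ∈ Y → G.hd e ∈ Z) ∧
      (G.hd e ∈ Z → G.tl e ∈ Y → G.tl e ∈ Z) := by
  classical
  obtain ⟨v, hv⟩ := hY
  obtain ⟨Z, hZ, hmax⟩ := Finset.exists_max_image
    (Y.powerset.filter fun Z => G.Conn Z (G.ind E Z)) Finset.card
    ⟨{v}, Finset.mem_filter.2 ⟨Finset.mem_powerset.2 (Finset.singleton_subset_iff.2 hv),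
      G.pu2_single E v⟩⟩
  rw [Finset.mem_filter, Finset.mem_powerset] at hZ
  have key : ∀ e ∈ E, ∀ w ∈ Y, ((G.tl e ∈ Z ∧ G.hd e ∈ ({w} : Finset ℕ)) ∨
      (G.tl e ∈ ({w} : Finset ℕ) ∧ G.hd e ∈ Z)) → w ∈ Z := by
    intro e he w hw h
    by_contra hcon
    have h1 := G.pu2_union hZ.2 (G.pu2_single E w) he h
    have h2 := hmax (Z ∪ {w}) (Finset.mem_filter.2 ⟨Finset.mem_powerset.2
      (Finset.union_subset hZ.1 (Finset.singleton_subset_iff.2 hw)), h1⟩)
    rw [Finset.card_union_of_disjoint (Finset.disjoint_singleton_right.2 hcon),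
      Finset.card_singleton] at h2
    omega
  refine ⟨Z, hZ.1, hZ.2, fun e he => ⟨fun h1 h2 => ?_, fun h1 h2 => ?_⟩⟩
  · exact key e he _ h2 (Or.inl ⟨h1, Finset.mem_singleton_self _⟩)
  · exact key e he _ h2 (Or.inr ⟨Finset.mem_singleton_self _, h1⟩)

theorem bond_pure (E₀ : Finset ℕ) (hs : G.SepHyp E₀) (V E : Finset ℕ) (hE : E ⊆ E₀)
    (hends : ∀ e ∈ E, G.tl e ∈ V ∧ G.hd e ∈ V) (hnl : ∀ e ∈ E, G.tl e ≠ G.hd e)
    (Y : Finset ℕ) (hY : Y ⊆ V)
    (h1 : G.Conn Y (G.ind E Y)) (h2 : G.Conn (V \ Y) (G.ind E (V \ Y))) :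
    ∀ e ∈ E, ∀ e' ∈ E, G.Sep Y e → G.Sep Y e' → G.sg e = G.sg e' := by
  obtain ⟨n, hn⟩ : ∃ n, Y.card = n := ⟨_, rfl⟩
  induction n using Nat.strong_induction_on generalizing V E Y with
  | _ n ih =>
  by_cases hall : ∃ y ∈ Y, ∀ e ∈ E, G.Sep Y e → G.Touch y e
  · -- all edges of the cut are at `y`
    obtain ⟨y, hy, hall⟩ := hall
    have hoth : ∀ e ∈ E, G.Sep Y e → G.other y e ∈ V \ Y := by
      intro e he hse
      rcases G.pu2_other (hall e he hse) (hnl e he) with ⟨h3, h4, -⟩ | ⟨h3, h4, -⟩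
      · rw [h4, Finset.mem_sdiff]
        exact ⟨(hends e he).2, fun h5 => hse (iff_of_true (h3 ▸ hy) h5)⟩
      · rw [h4, Finset.mem_sdiff]
        exact ⟨(hends e he).1, fun h5 => hse (iff_of_true h5 (h3 ▸ hy))⟩
    intro e he e' he' hse hse'
    exact G.pu2_star hs hE h2 (fun h => (Finset.mem_sdiff.1 h).2 hy) he he' (hall e he hse)
      (hall e' he' hse') (hoth e he hse) (hoth e' he' hse')
  push Not at hall
  -- `Y` has at least two elements
  have hcard : 2 ≤ Y.card := by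
    have h3 : 0 < Y.card := Finset.card_pos.2 h1.ne
    by_contra h4
    have h5 : Y.card = 1 := by omega
    obtain ⟨y, rfl⟩ := Finset.card_eq_one.1 h5
    obtain ⟨e, -, hse, hte⟩ := hall y (Finset.mem_singleton_self y)
    refine hse (iff_of_false (fun h => hte ?_) fun h => hte ?_)
    · exact Or.inl (Finset.mem_singleton.1 h)
    · exact Or.inr (Finset.mem_singleton.1 h)
  obtain ⟨y, hy, hcy⟩ := exists_noncut G Y (G.ind E Y) h1 hcard
  have hind : G.del (G.ind E Y) y = G.ind E (Y.erase y) := by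
    ext e
    rw [pu2_mem_del, pu2_mem_ind, pu2_mem_ind, Finset.mem_erase, Finset.mem_erase]
    tauto
  rw [hind] at hcy
  have hcardy : (Y.erase y).card < n := by
    rw [← hn]
    exact Finset.card_erase_lt_of_mem hy
  have hsepe : ∀ e, ¬ G.Touch y e → (G.Sep (Y.erase y) e ↔ G.Sep Y e) := by
    intro e hte
    have h3 : G.tl e ≠ y := fun h => hte (Or.inl h)
    have h4 : G.hd e ≠ y := fun h => hte (Or.inr h)
    unfold Sep
    rw [Finset.mem_erase, Finset.mem_erase]
    tauto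
  obtain ⟨f, hf, hsf, htf⟩ := hall y hy
  by_cases hg : ∃ g ∈ E, G.Sep Y g ∧ G.Touch y g
  · -- the first case
    obtain ⟨g, hg, hsg, htg⟩ := hg
    have hyD : y ∉ Y.erase y ∪ (V \ Y) := by
      simp [hy]
    have hD : G.Conn (Y.erase y ∪ (V \ Y)) (G.ind E (Y.erase y ∪ (V \ Y))) := by
      refine G.pu2_union hcy h2 hf ?_
      have h3 := hends f hf
      have h4 : G.tl f ≠ y := fun h => htf (Or.inl h)
      have h5 : G.hd f ≠ y := fun h => htf (Or.inr h)
      have h6 : ¬ (G.tl f ∈ Y ↔ G.hd f ∈ Y) := hsf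
      simp only [Finset.mem_erase, Finset.mem_sdiff]
      tauto
    have hstar : ∀ e ∈ E, ∀ e' ∈ E, G.Touch y e → G.Touch y e' → G.sg e = G.sg e' := by
      have hoth : ∀ e ∈ E, G.Touch y e → G.other y e ∈ Y.erase y ∪ (V \ Y) := by
        intro e he hte
        have h3 := hends e he
        rcases G.pu2_other hte (hnl e he) with ⟨h4, h5, h6⟩ | ⟨h4, h5, h6⟩
        · rw [h5]
          simp only [Finset.mem_union, Finset.mem_erase, Finset.mem_sdiff]
          tauto
        · rw [h5]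
          simp only [Finset.mem_union, Finset.mem_erase, Finset.mem_sdiff]
          tauto
      exact fun e he e' he' ht ht' => G.pu2_star hs hE hD hyD he he' ht ht' (hoth e he ht)
        (hoth e' he' ht')
    have hsd : V \ (Y.erase y) = {y} ∪ (V \ Y) := by
      ext x
      simp only [Finset.mem_union, Finset.mem_erase, Finset.mem_sdiff, Finset.mem_singleton]
      have := hY hy
      constructor
      · rintro ⟨h3, h4⟩
        tauto
      · rintro (h3 | ⟨h3, h4⟩)
        · subst h3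
          exact ⟨this, fun h => h.1 rfl⟩
        · exact ⟨h3, fun h => h4 h.2⟩
    have hih := ih _ hcardy V E hE hends hnl (Y.erase y) ((Finset.erase_subset _ _).trans hY) hcy
      (by
        rw [hsd]
        refine G.pu2_union (G.pu2_single E y) h2 hg ?_
        have h3 := hends g hg
        have h6 : ¬ (G.tl g ∈ Y ↔ G.hd g ∈ Y) := hsg
        simp only [Finset.mem_singleton, Finset.mem_sdiff]
        rcases G.pu2_other htg (hnl g hg) with ⟨h4, h5, h7⟩ | ⟨h4, h5, h7⟩
        · rw [h4] at h6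
          exact Or.inl ⟨h4, h3.2, fun h => h6 (iff_of_true hy h)⟩
        · rw [h4] at h6
          exact Or.inr ⟨⟨h3.1, fun h => h6 (iff_of_true h hy)⟩, h4⟩) rfl
    obtain ⟨k, hk, hsk⟩ := h1.cut {y} (Finset.singleton_subset_iff.2 hy)
      (Finset.singleton_nonempty y) (fun h => by
        rw [← h, Finset.card_singleton] at hcard
        omega)
    obtain ⟨hkE, hk1, hk2⟩ := G.pu2_mem_ind.1 hk
    have hsk' : ¬ (G.tl k ∈ ({y} : Finset ℕ) ↔ G.hd k ∈ ({y} : Finset ℕ)) := hsk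
    rw [Finset.mem_singleton, Finset.mem_singleton] at hsk'
    have htk : G.Touch y k := by
      unfold Touch
      tauto
    have hsk2 : G.Sep (Y.erase y) k := by
      unfold Sep
      rw [Finset.mem_erase, Finset.mem_erase]
      tauto
    have hfin : ∀ e ∈ E, G.Sep Y e → G.sg e = G.sg k := by
      intro e he hse
      by_cases hte : G.Touch y e
      · exact hstar e he k hkE hte htk
      · exact hih e he k hkE ((hsepe e hte).2 hse) hsk2
    intro e he e' he' hse hse'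
    rw [hfin e he hse, hfin e' he' hse']
  · -- no edge of the cut is at `y`
    push Not at hg
    have hsd : (V.erase y) \ (Y.erase y) = V \ Y := by
      ext x
      simp only [Finset.mem_erase, Finset.mem_sdiff]
      constructor
      · rintro ⟨⟨h3, h4⟩, h5⟩
        exact ⟨h4, fun h => h5 ⟨h3, h⟩⟩
      · rintro ⟨h3, h4⟩
        exact ⟨⟨fun h => h4 (h ▸ hy), h3⟩, fun h => h4 h.2⟩
    have hi1 : G.ind (G.del E y) (Y.erase y) = G.ind E (Y.erase y) := by
      ext e
      rw [pu2_mem_ind, pu2_mem_del, pu2_mem_ind, Finset.mem_erase, Finset.mem_erase]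
      tauto
    have hi2 : G.ind (G.del E y) (V \ Y) = G.ind E (V \ Y) := by
      ext e
      rw [pu2_mem_ind, pu2_mem_del, pu2_mem_ind, Finset.mem_sdiff, Finset.mem_sdiff]
      constructor
      · rintro ⟨⟨h3, -, -⟩, h4, h5⟩
        exact ⟨h3, h4, h5⟩
      · rintro ⟨h3, h4, h5⟩
        exact ⟨⟨h3, fun h => h4.2 (h ▸ hy), fun h => h5.2 (h ▸ hy)⟩, h4, h5⟩
    have hih := ih _ hcardy (V.erase y) (G.del E y)
      (fun e he => hE (G.pu2_mem_del.1 he).1)
      (fun e he => by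
        obtain ⟨h3, h4, h5⟩ := G.pu2_mem_del.1 he
        exact ⟨Finset.mem_erase.2 ⟨h4, (hends e h3).1⟩, Finset.mem_erase.2 ⟨h5, (hends e h3).2⟩⟩)
      (fun e he => hnl e (G.pu2_mem_del.1 he).1) (Y.erase y)
      (Finset.erase_subset_erase _ hY) (by rw [hi1]; exact hcy) (by rw [hsd, hi2]; exact h2) rfl
    have hdel : ∀ e ∈ E, G.Sep Y e → e ∈ G.del E y ∧ G.Sep (Y.erase y) e := by
      intro e he hse
      have h3 := hg e he hse
      exact ⟨G.pu2_mem_del.2 ⟨he, fun h => h3 (Or.inl h), fun h => h3 (Or.inr h)⟩,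
        (hsepe e h3).2 hse⟩
    intro e he e' he' hse hse'
    exact hih e (hdel e he hse).1 e' (hdel e' he' hse').1 (hdel e he hse).2 (hdel e' he' hse').2

/-- `J` is a dijoin if it meets every directed bond all of whose edges have the same sign -/
theorem dijoin_of_pure (E₀ : Finset ℕ) (hs : G.SepHyp E₀) (V E : Finset ℕ) (hE : E ⊆ E₀)
    (h : G.Conn V E) (hnl : ∀ e ∈ E, G.tl e ≠ G.hd e) (J : Finset ℕ) (hJ : J ⊆ E)
    (hhit : ∀ Y ⊆ V, Y.Nonempty → Y ≠ V → (∀ e ∈ E, G.hd e ∈ Y → G.tl e ∈ Y) →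
      ∀ p, (∀ e ∈ E, G.Sep Y e → G.sg e = p) → ∃ e ∈ J, G.Sep Y e) :
    G.Dijoin V E J := by
  refine ⟨hJ, fun Y hYV hYne hYV' hdir => ?_⟩
  obtain ⟨Z, hZY, hZc, hZmax⟩ := G.pu2_comp (E := E) hYne
  -- the cut of `Z`
  have hZcut : ∀ e ∈ E, G.Sep Z e → G.tl e ∈ Z ∧ G.hd e ∉ Y := by
    intro e he hse
    have h1 := hZmax e he
    have h2 := hdir e he
    have h3 : ¬ (G.tl e ∈ Z ↔ G.hd e ∈ Z) := hse
    by_cases h4 : G.hd e ∈ Z
    · have h5 := h1.2 h4 (h2 (hZY h4))
      exact absurd (iff_of_true h5 h4) h3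
    · have h5 : G.tl e ∈ Z := by
        by_contra h6
        exact h3 (iff_of_false h6 h4)
      exact ⟨h5, fun h6 => h4 (h1.1 h5 h6)⟩
  have hVZ : (V \ Z).Nonempty := by
    rw [Finset.sdiff_nonempty]
    exact fun h1 => hYV' (Finset.Subset.antisymm hYV (h1.trans hZY))
  obtain ⟨Y', hY'V, hY'c, hY'max⟩ := G.pu2_comp (E := E) hVZ
  have hY'sub : Y' ⊆ V := hY'V.trans Finset.sdiff_subset
  have hdisj : ∀ x ∈ Z, x ∉ Y' := fun x hx hx' => (Finset.mem_sdiff.1 (hY'V hx')).2 hx
  -- the cut of `Y'`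
  have hY'cut : ∀ e ∈ E, G.Sep Y' e → G.tl e ∈ Z ∧ G.hd e ∈ Y' := by
    intro e he hse
    have h1 := hY'max e he
    have h2 := h.ends e he
    have h3 : ¬ (G.tl e ∈ Y' ↔ G.hd e ∈ Y') := hse
    by_cases h4 : G.tl e ∈ Y'
    · have h5 : G.hd e ∉ Y' := fun h6 => h3 (iff_of_true h4 h6)
      have h6 : G.hd e ∈ Z := by
        by_contra h7
        exact h5 (h1.1 h4 (Finset.mem_sdiff.2 ⟨h2.2, h7⟩))
      have h7 : G.Sep Z e := fun h8 => hdisj _ (h8.2 h6) h4
      exact absurd (hZY h6) (hZcut e he h7).2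
    · have h5 : G.hd e ∈ Y' := by
        by_contra h6
        exact h3 (iff_of_false h4 h6)
      refine ⟨?_, h5⟩
      by_contra h7
      exact h4 (h1.2 h5 (Finset.mem_sdiff.2 ⟨h2.1, h7⟩))
  have hZV : Z ⊆ V := hZY.trans hYV
  have hZsub : Z ⊆ V \ Y' := fun x hx => Finset.mem_sdiff.2 ⟨hZV hx, hdisj x hx⟩
  -- the complement of `Y'` is connected
  have hcomp : G.Conn (V \ Y') (G.ind E (V \ Y')) := by
    refine ⟨hZc.ne.mono hZsub, fun f hf => (G.pu2_mem_ind.1 hf).2, fun C hC hCne hCV => ?_⟩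
    by_contra hcon
    push Not at hcon
    -- no nonempty set disjoint from `Z`
    have key : ∀ D ⊆ V \ Y', D.Nonempty → (∀ x ∈ Z, x ∉ D) →
        (∀ e ∈ G.ind E (V \ Y'), ¬ G.Sep D e) → False := by
      intro D hD hDne hDZ hDs
      obtain ⟨z, hz⟩ := hZc.ne
      obtain ⟨e, he, hse⟩ := h.cut D (hD.trans Finset.sdiff_subset) hDne
        (fun h1 => hDZ z hz (h1 ▸ hZV hz))
      have h2 := h.ends e he
      have h3 : ¬ G.Sep Y' e := by
        intro h4
        obtain ⟨h5, h6⟩ := hY'cut e he h4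
        have h7 : G.hd e ∉ D := fun h8 => (Finset.mem_sdiff.1 (hD h8)).2 h6
        exact hse (iff_of_false (hDZ _ h5) h7)
      have h4 : G.tl e ∈ Y' ↔ G.hd e ∈ Y' := not_not.1 h3
      by_cases h5 : G.tl e ∈ Y'
      · have h6 : G.tl e ∉ D := fun h8 => (Finset.mem_sdiff.1 (hD h8)).2 h5
        have h7 : G.hd e ∉ D := fun h8 => (Finset.mem_sdiff.1 (hD h8)).2 (h4.1 h5)
        exact hse (iff_of_false h6 h7)
      · have h6 : G.hd e ∉ Y' := fun h8 => h5 (h4.2 h8)
        exact hDs e (G.pu2_mem_ind.2 ⟨he, Finset.mem_sdiff.2 ⟨h2.1, h5⟩,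
          Finset.mem_sdiff.2 ⟨h2.2, h6⟩⟩) hse
    have hZs : ∀ e ∈ G.ind E Z, ¬ G.Sep C e := by
      intro e he
      obtain ⟨h1, h2, h3⟩ := G.pu2_mem_ind.1 he
      exact hcon e (G.pu2_mem_ind.2 ⟨h1, hZsub h2, hZsub h3⟩)
    rcases G.pu2_dich hZc hZs with h1 | h1
    · -- the complement of `C`
      refine key ((V \ Y') \ C) Finset.sdiff_subset ?_ ?_ ?_
      · rw [Finset.sdiff_nonempty]
        exact fun h2 => hCV (Finset.Subset.antisymm hC h2)
      · exact fun x hx h2 => (Finset.mem_sdiff.1 h2).2 (h1 hx)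
      · intro e he h2
        have h3 : G.tl e ∈ C ↔ G.hd e ∈ C := not_not.1 (hcon e he)
        obtain ⟨h4, h5, h6⟩ := G.pu2_mem_ind.1 he
        exact h2 ⟨fun h7 => Finset.mem_sdiff.2
          ⟨h6, fun h8 => (Finset.mem_sdiff.1 h7).2 (h3.2 h8)⟩, fun h7 => Finset.mem_sdiff.2
          ⟨h5, fun h8 => (Finset.mem_sdiff.1 h7).2 (h3.1 h8)⟩⟩
    · exact key C hC hCne h1 hcon
  have hpure := G.bond_pure E₀ hs V E hE h.ends hnl Y' hY'sub hY'c hcomp
  have hsepc : ∀ e ∈ E, (G.Sep (V \ Y') e ↔ G.Sep Y' e) := by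
    intro e he
    have h2 := h.ends e he
    unfold Sep
    rw [Finset.mem_sdiff, Finset.mem_sdiff]
    tauto
  -- the sign
  obtain ⟨p, hp⟩ : ∃ p, ∀ e ∈ E, G.Sep Y' e → G.sg e = p := by
    by_cases h1 : ∃ e ∈ E, G.Sep Y' e
    · obtain ⟨e, he, hse⟩ := h1
      exact ⟨G.sg e, fun e' he' hse' => hpure e' he' e he hse' hse⟩
    · exact ⟨true, fun e he hse => absurd ⟨e, he, hse⟩ h1⟩
  obtain ⟨e, heJ, hse⟩ := hhit (V \ Y') Finset.sdiff_subset hcomp.ne
    (fun h1 => by
      obtain ⟨x, hx⟩ := hY'c.ne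
      have h2 : x ∈ V \ Y' := by rw [h1]; exact hY'sub hx
      exact (Finset.mem_sdiff.1 h2).2 hx)
    (fun e he h1 => by
      have h2 := h.ends e he
      refine Finset.mem_sdiff.2 ⟨h2.1, fun h3 => ?_⟩
      have h4 : G.Sep Y' e := fun h5 => (Finset.mem_sdiff.1 h1).2 (h5.1 h3)
      exact (Finset.mem_sdiff.1 h1).2 (hY'cut e he h4).2)
    p (fun e he h1 => hp e he ((hsepc e he).1 h1))
  have heE := hJ heJ
  obtain ⟨h1, h2⟩ := hY'cut e heE ((hsepc e heE).1 hse)
  refine ⟨e, heJ, fun h3 => ?_⟩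
  have h4 : G.Sep Z e := fun h5 => hdisj _ (h5.1 h1) h2
  exact (hZcut e heE h4).2 (h3.1 (hZY h1))

end MG

end LGAlt
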