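import Pool.Agent.LGAlt2.LBleaf
import Pool.Agent.LGAlt2.Purity2

/-!
# The graph without a vertex of the end block

Let `C ∈ X`, `V₂ = V.erase C`, `E₂ = del E C`; `(V₂, E₂)` is connected (`noncut`).  All edges touching `C`
belong to `B = tch E X`, so they have the sign `p`.
* `(*)` Let `Y ⊆ V₂` be such that no edge of `B ∩ E₂` is separated by `Y`.  Then `Y` does not separate
  `(insert a X).erase C`: if it does, replacing `Y` by its complement in `V₂` we may assume that
  `a ∉ Y`; then `Y ∩ X` is a nonempty subset of `V₂`, proper (`a ∈ V₂`, `a ∉ Y ∩ X`), and a separated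
  edge of `E₂` (it exists by the connectivity of `(V₂, E₂)`) touches `X`, so it belongs to `B`, both of its
  ends are in `insert a X`, so it is separated by `Y`: contradiction.
* An edge `e` of sign `!p` does not belong to `B`.  It is a bridge of `(V, E)` iff it is a bridge of
  `(V₂, E₂)`: if `Y` is the cut of `e` in `(V, E)`, then `Y.erase C` works in `(V₂, E₂)` (`e ∈ E₂`).
  If `Y` is the cut of `e` in `(V₂, E₂)`, then by `(*)` `Y` does not separate `(insert a X).erase C`, and all
  neighbours of `C` are in this set; put `C` on the same side.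
* Let `J₂` be a minimal dijoin of `(V₂, E₂)`.  The set `J₃ = {e ∈ J₂ | sg e = p} ∪ {e ∈ J | sg e ≠ p}` is a
  dijoin of `(V₂, E₂)` by `dijoin_of_pure`: let `Y` be a directed cut of `(V₂, E₂)` all of whose edges have
  the same sign.  If this sign is `p` then the edge in `J₂` belongs to `J₃`.  If it is `!p`, then no edge
  of `B` is separated, so by `(*)` we may put `C` on the side of `(insert a X).erase C` and we get a directed
  cut of `(V, E)`, with the same separated edges; `J` contains one of them, it has the sign `!p`.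
  So `J₂.card ≤ J₃.card`, i.e. `J₂` has at most as many edges of sign `!p` as `J`.  The edges of `E` of sign
  `!p` are in `E₂`.
-/

namespace LGAlt

namespace MG

variable {G : MG} {ty : ℕ → Bool} {V E J : Finset ℕ} {p : Bool} {a : ℕ} {X VH H : Finset ℕ} {k : ℕ}
  {W c : ℕ → ℕ}

private theorem side_lbc (h : G.ECtx ty V E J p a X VH H k W c) {C : ℕ} (hC : C ∈ X) (Y : Finset ℕ)
    (hY : Y ⊆ V.erase C) (hs : ∀ e ∈ G.del E C, G.sg e = p → ¬ G.Sep Y e) (haY : a ∉ Y) :
    ∀ x ∈ (insert a X).erase C, x ∉ Y := by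
  intro x hx hxY
  rw [Finset.mem_erase, Finset.mem_insert] at hx
  have hxa : x ≠ a := fun h0 => haY (h0 ▸ hxY)
  have hxX : x ∈ X := hx.2.resolve_left hxa
  have haC : a ≠ C := fun h0 => h.aX (h0 ▸ hC)
  have hconn := h.noncut C hC
  obtain ⟨e, he, hes⟩ := hconn.cut (Y ∩ X) (Finset.inter_subset_left.trans hY)
    ⟨x, Finset.mem_inter.mpr ⟨hxY, hxX⟩⟩
    (fun heq => haY (Finset.mem_inter.mp (show a ∈ Y ∩ X from by
      rw [heq, Finset.mem_erase]; exact ⟨haC, h.aV⟩)).1)
  have heE : e ∈ E := (Finset.mem_filter.mp he).1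
  have het : e ∈ G.tch E X := by
    unfold tch
    rw [Finset.mem_filter]
    refine ⟨heE, ?_⟩
    by_contra hcon
    push Not at hcon
    apply hes
    constructor
    · intro h0; exact absurd (Finset.mem_inter.mp h0).2 hcon.1
    · intro h0; exact absurd (Finset.mem_inter.mp h0).2 hcon.2
  have hends := h.tchX e het
  apply hs e he (h.sgn e het)
  unfold Sep at hes ⊢
  intro hiff
  apply hes
  rw [Finset.mem_inter, Finset.mem_inter]
  rw [Finset.mem_insert, Finset.mem_insert] at hends
  constructor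
  · rintro ⟨h1, h2⟩
    have h3 := hiff.mp h1
    refine ⟨h3, hends.2.resolve_left (fun h4 => haY (h4 ▸ h3))⟩
  · rintro ⟨h1, h2⟩
    have h3 := hiff.mpr h1
    refine ⟨h3, hends.1.resolve_left (fun h4 => haY (h4 ▸ h3))⟩

theorem blockC_side (h : G.ECtx ty V E J p a X VH H k W c) {C : ℕ} (hC : C ∈ X) (Y : Finset ℕ)
    (hY : Y ⊆ V.erase C) (hs : ∀ e ∈ G.del E C, G.sg e = p → ¬ G.Sep Y e) :
    ((insert a X).erase C ⊆ Y) ∨ ∀ x ∈ (insert a X).erase C, x ∉ Y := by
  by_cases haY : a ∈ Y
  · left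
    have hconn := h.noncut C hC
    have h1 := side_lbc h hC (V.erase C \ Y) Finset.sdiff_subset (fun e he hp hsep => by
      apply hs e he hp
      have hends := hconn.ends e he
      unfold Sep at hsep ⊢
      rw [Finset.mem_sdiff, Finset.mem_sdiff] at hsep
      tauto) (fun h0 => (Finset.mem_sdiff.mp h0).2 haY)
    intro x hx
    by_contra hxY
    apply h1 x hx
    rw [Finset.mem_sdiff, Finset.mem_erase]
    rw [Finset.mem_erase, Finset.mem_insert] at hx
    refine ⟨⟨hx.1, ?_⟩, hxY⟩
    rcases hx.2 with h2 | h2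
    · rw [h2]; exact h.aV
    · exact h.XV h2
  · right
    exact side_lbc h hC Y hY hs haY

/-- the vertex `C` can be put on the right side -/
private theorem ext_lbc (h : G.ECtx ty V E J p a X VH H k W c) {C : ℕ} (hC : C ∈ X) (Y : Finset ℕ)
    (hY : Y ⊆ V.erase C) (hs : ∀ e ∈ G.del E C, G.sg e = p → ¬ G.Sep Y e) :
    ∃ Y' ⊆ V, (∀ v, v ≠ C → (v ∈ Y' ↔ v ∈ Y)) ∧
      ∀ e ∈ E, G.Touch C e → (G.tl e ∈ Y' ↔ G.hd e ∈ Y') := by
  have htouch : ∀ e ∈ E, G.Touch C e → G.tl e ∈ insert a X ∧ G.hd e ∈ insert a X := by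
    intro e he ht
    apply h.tchX
    unfold tch
    rw [Finset.mem_filter]
    refine ⟨he, ?_⟩
    rcases ht with h1 | h1
    · left; rw [h1]; exact hC
    · right; rw [h1]; exact hC
  have hCY : C ∉ Y := fun h0 => (Finset.mem_erase.mp (hY h0)).1 rfl
  rcases blockC_side h hC Y hY hs with h1 | h1
  · refine ⟨insert C Y, ?_, ?_, ?_⟩
    · intro x hx
      rw [Finset.mem_insert] at hx
      rcases hx with h2 | h2
      · rw [h2]; exact h.XV hC
      · exact (Finset.mem_erase.mp (hY h2)).2
    · intro v hv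
      rw [Finset.mem_insert]
      tauto
    · intro e he ht
      have h2 := htouch e he ht
      have h3 : ∀ v ∈ insert a X, v ∈ insert C Y := by
        intro v hv
        rw [Finset.mem_insert]
        by_cases h4 : v = C
        · exact Or.inl h4
        · exact Or.inr (h1 (Finset.mem_erase.mpr ⟨h4, hv⟩))
      exact ⟨fun _ => h3 _ h2.2, fun _ => h3 _ h2.1⟩
  · refine ⟨Y, hY.trans (Finset.erase_subset _ _), fun v _ => Iff.rfl, ?_⟩
    intro e he ht
    have h2 := htouch e he ht
    have h3 : ∀ v ∈ insert a X, v ∉ Y := by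
      intro v hv
      by_cases h4 : v = C
      · rw [h4]; exact hCY
      · exact h1 v (Finset.mem_erase.mpr ⟨h4, hv⟩)
    exact ⟨fun h4 => absurd h4 (h3 _ h2.1), fun h4 => absurd h4 (h3 _ h2.2)⟩

private theorem mem_del_lbc {C e : ℕ} : e ∈ G.del E C ↔ e ∈ E ∧ G.tl e ≠ C ∧ G.hd e ≠ C := by
  unfold del Touch
  rw [Finset.mem_filter]
  push Not
  rfl

/-- the edges of the other sign do not touch `C` -/
private theorem other_lbc (h : G.ECtx ty V E J p a X VH H k W c) {C : ℕ} (hC : C ∈ X) {e : ℕ} (he : e ∈ E)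
    (hp : G.sg e = !p) : e ∈ G.del E C := by
  rw [mem_del_lbc]
  have hnt : e ∉ G.tch E X := by
    intro h1
    have h2 := h.sgn e h1
    rw [hp] at h2
    cases p <;> simp at h2
  refine ⟨he, fun h1 => hnt ?_, fun h1 => hnt ?_⟩
  · unfold tch
    rw [Finset.mem_filter]
    exact ⟨he, Or.inl (by rw [h1]; exact hC)⟩
  · unfold tch
    rw [Finset.mem_filter]
    exact ⟨he, Or.inr (by rw [h1]; exact hC)⟩

private theorem sep_ext_lbc {C : ℕ} {Y Y' : Finset ℕ} (hYY : ∀ v, v ≠ C → (v ∈ Y' ↔ v ∈ Y)) {e : ℕ}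
    (he : e ∈ G.del E C) : G.Sep Y' e ↔ G.Sep Y e := by
  rw [mem_del_lbc] at he
  unfold Sep
  rw [hYY _ he.2.1, hYY _ he.2.2]

/-- a cut which separates an edge with both ends in `V` is nonempty and proper -/
private theorem sep_proper_lbc {V Y : Finset ℕ} {e : ℕ} (h1 : G.tl e ∈ V) (h2 : G.hd e ∈ V)
    (hs : G.Sep Y e) : Y.Nonempty ∧ Y ≠ V := by
  unfold Sep at hs
  constructor
  · by_contra hcon
    rw [Finset.not_nonempty_iff_eq_empty] at hcon
    rw [hcon] at hs
    simp at hs
  · rintro rfl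
    exact hs ⟨fun _ => h2, fun _ => h1⟩

private theorem bridge_lbc (h : G.ECtx ty V E J p a X VH H k W c) {C : ℕ} (hC : C ∈ X) {e : ℕ}
    (he : e ∈ E) (hp : G.sg e = !p) :
    G.Bridge (V.erase C) (G.del E C) e ↔ G.Bridge V E e := by
  have hed := other_lbc h hC he hp
  constructor
  · rintro ⟨Y, hY, -, -, hcut⟩
    obtain ⟨Y', hY', hYY, htY⟩ := ext_lbc h hC Y hY (fun e' he' hp' hsep => by
      have h1 := (hcut e' he').mp hsep
      rw [h1, hp] at hp'
      cases p <;> simp at hp')
    have hsepe : G.Sep Y' e := (sep_ext_lbc hYY hed).mpr ((hcut e hed).mpr rfl)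
    have hends := h.conn.ends e he
    obtain ⟨h1, h2⟩ := sep_proper_lbc hends.1 hends.2 hsepe
    refine ⟨Y', hY', h1, h2, ?_⟩
    intro e' he'
    by_cases ht : G.Touch C e'
    · constructor
      · intro h3
        exact absurd (htY e' he' ht) h3
      · intro h3
        rw [mem_del_lbc] at hed
        rw [h3] at ht
        rcases ht with h4 | h4
        · exact absurd h4 hed.2.1
        · exact absurd h4 hed.2.2
    · have he2 : e' ∈ G.del E C := Finset.mem_filter.mpr ⟨he', ht⟩
      rw [sep_ext_lbc hYY he2]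
      exact hcut e' he2
  · rintro ⟨Y, hY, -, -, hcut⟩
    have hYY : ∀ v, v ≠ C → (v ∈ Y.erase C ↔ v ∈ Y) := by
      intro v hv
      rw [Finset.mem_erase]
      tauto
    have hsepe : G.Sep (Y.erase C) e := (sep_ext_lbc hYY hed).mpr ((hcut e he).mpr rfl)
    have hends := (h.noncut C hC).ends e hed
    obtain ⟨h1, h2⟩ := sep_proper_lbc hends.1 hends.2 hsepe
    refine ⟨Y.erase C, Finset.erase_subset_erase _ hY, h1, h2, ?_⟩
    intro e' he'
    rw [sep_ext_lbc hYY he']
    exact hcut e' (Finset.mem_filter.mp he').1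

theorem blockC_nb (h : G.ECtx ty V E J p a X VH H k W c) {C : ℕ} (hC : C ∈ X) :
    G.nb (V.erase C) (G.del E C) (!p) = G.nb V E (!p) := by
  unfold nb
  congr 2
  ext e
  simp only [Finset.mem_filter]
  constructor
  · rintro ⟨h1, h2, h3⟩
    have he : e ∈ E := (Finset.mem_filter.mp h1).1
    rw [bridge_lbc h hC he h2] at h3
    exact ⟨he, h2, h3⟩
  · rintro ⟨h1, h2, h3⟩
    rw [← bridge_lbc h hC h1 h2] at h3
    exact ⟨other_lbc h hC h1 h2, h2, h3⟩

theorem blockC_dij (E₀ : Finset ℕ) (hs : G.SepHyp E₀) (hE : E ⊆ E₀)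
    (h : G.ECtx ty V E J p a X VH H k W c) {C : ℕ} (hC : C ∈ X) :
    ∃ J₂, G.MinDijoin (V.erase C) (G.del E C) J₂ ∧ G.nJ E J (!p) ≤ G.nJ (G.del E C) J₂ (!p) := by
  have hconn := h.noncut C hC
  have hnl : ∀ e ∈ E, G.tl e ≠ G.hd e := by
    intro e he h1
    have h2 := h.tyt e he
    have h3 := h.tyh e he
    rw [h1, h3] at h2
    simp at h2
  obtain ⟨J₂, hJ₂⟩ := exists_minDijoin G (V.erase C) (G.del E C) hconn
  have hdelE : G.del E C ⊆ E := Finset.filter_subset _ _
  have hJE := h.minJ.dj.sub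
  have hbool : ∀ b q : Bool, b ≠ q → b = !q := by decide
  obtain ⟨J₃, hJ₃⟩ : ∃ J₃, J₃ = J₂.filter (fun e => G.sg e = p) ∪ J.filter (fun e => G.sg e = !p) := ⟨_, rfl⟩
  have hJ₃sub : J₃ ⊆ G.del E C := by
    rw [hJ₃]
    intro e he
    rw [Finset.mem_union, Finset.mem_filter, Finset.mem_filter] at he
    rcases he with he | he
    · exact hJ₂.dj.sub he.1
    · exact other_lbc h hC (hJE he.1) he.2
  have hdj : G.Dijoin (V.erase C) (G.del E C) J₃ := by
    apply dijoin_of_pure G E₀ hs (V.erase C) (G.del E C) (hdelE.trans hE) hconn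
      (fun e he => hnl e (hdelE he)) J₃ hJ₃sub
    intro Y hY hne hneV hdir q hq
    by_cases hqp : q = p
    · obtain ⟨e, he, hes⟩ := hJ₂.dj.hit Y hY hne hneV hdir
      refine ⟨e, ?_, hes⟩
      rw [hJ₃, Finset.mem_union, Finset.mem_filter]
      left
      refine ⟨he, ?_⟩
      rw [← hqp]
      exact hq e (hJ₂.dj.sub he) hes
    · have hqp' := hbool q p hqp
      obtain ⟨Y', hY', hYY, htY⟩ := ext_lbc h hC Y hY (fun e' he' hp' hsep => by
        have h1 := hq e' he' hsep
        rw [hp'] at h1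
        exact hqp h1.symm)
      obtain ⟨x, hx⟩ := hne
      have hxC : x ≠ C := (Finset.mem_erase.mp (hY hx)).1
      obtain ⟨v, hv, hvY⟩ : ∃ v ∈ V.erase C, v ∉ Y := by
        by_contra hcon
        push Not at hcon
        exact hneV (Finset.Subset.antisymm hY hcon)
      rw [Finset.mem_erase] at hv
      obtain ⟨e, he, hes⟩ := h.minJ.dj.hit Y' hY' ⟨x, (hYY x hxC).mpr hx⟩
        (fun heq => hvY ((hYY v hv.1).mp (by rw [heq]; exact hv.2)))
        (fun e he hhd => by
          by_cases ht : G.Touch C e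
          · exact (htY e he ht).mpr hhd
          · have he2 : e ∈ G.del E C := Finset.mem_filter.mpr ⟨he, ht⟩
            have he3 := mem_del_lbc.mp he2
            rw [hYY _ he3.2.1]
            rw [hYY _ he3.2.2] at hhd
            exact hdir e he2 hhd)
      have heE := hJE he
      have ht : ¬ G.Touch C e := fun ht => hes (htY e heE ht)
      have he2 : e ∈ G.del E C := Finset.mem_filter.mpr ⟨heE, ht⟩
      have hes2 : G.Sep Y e := (sep_ext_lbc hYY he2).mp hes
      refine ⟨e, ?_, hes2⟩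
      rw [hJ₃, Finset.mem_union, Finset.mem_filter, Finset.mem_filter]
      right
      refine ⟨he, ?_⟩
      rw [← hqp']
      exact hq e he2 hes2
  refine ⟨J₂, hJ₂, ?_⟩
  have hmin := hJ₂.min J₃ hdj
  have hc3 : J₃.card = (J₂.filter (fun e => G.sg e = p)).card + (J.filter (fun e => G.sg e = !p)).card := by
    rw [hJ₃, Finset.card_union_of_disjoint]
    rw [Finset.disjoint_left]
    intro e he he'
    rw [Finset.mem_filter] at he he'
    rw [he.2] at he'
    have := he'.2
    cases p <;> simp at this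
  have hc2 : J₂.card = (J₂.filter (fun e => G.sg e = p)).card + (J₂.filter (fun e => G.sg e = !p)).card := by
    rw [← Finset.card_filter_add_card_filter_not (s := J₂) (fun e => G.sg e = p)]
    congr 2
    ext e
    rw [Finset.mem_filter, Finset.mem_filter]
    constructor
    · rintro ⟨h1, h2⟩
      exact ⟨h1, hbool _ _ h2⟩
    · rintro ⟨h1, h2⟩
      refine ⟨h1, ?_⟩
      rw [h2]
      cases p <;> simp
  have hE2 : E.filter (fun e => G.sg e = !p) = (G.del E C).filter (fun e => G.sg e = !p) := by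
    ext e
    rw [Finset.mem_filter, Finset.mem_filter]
    constructor
    · rintro ⟨h1, h2⟩
      exact ⟨other_lbc h hC h1 h2, h2⟩
    · rintro ⟨h1, h2⟩
      exact ⟨hdelE h1, h2⟩
  unfold nJ
  rw [hE2]
  have hfin : (J₂.filter (fun e => G.sg e = !p)).card ≤ (J.filter (fun e => G.sg e = !p)).card := by omega
  have hfin' : ((J₂.filter (fun e => G.sg e = !p)).card : ℤ) ≤ ((J.filter (fun e => G.sg e = !p)).card : ℤ) := by
    exact_mod_cast hfin
  linarith

end MG

end LGAlt
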