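import Pool.Agent.LGAlt2.LBearA

/-!
# The minimal dijoin and the last ear

`V₁ = V \ earI k W`, `E₁ = E \ earQ k c`, `Q = earQ k c`.
* At an inner vertex `W i` of the ear (`0 < i < k`), the edges `c (i - 1)` and `c i` have the same type of end
  (tail, if `ty (W i) = true`, head otherwise), and in the digraph with `J` reversed `c (i - 1)` ends at `W i`
  and `c i` starts there.  So exactly one of them belongs to `J`.  Hence `(J ∩ Q).card` is `k / 2` (if
  `c 0 ∉ J`) or `(k + 1) / 2`.
* `J \ Q` is a dijoin of `(V₁, E₁)`: let `Y ⊆ V₁` be nonempty and proper such that no edge of `E₁` enters `Y`.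
  If `Y` separates `VH`, some arc of the reversed digraph `H` enters `Y` (`ear_sepH`); it is not a forward
  arc, so it belongs to `J`.  Otherwise put the inner vertices of the ear on the side of `VH`: no edge
  of `E` enters this set, and the separated edges are not in `Q`, so `J` contains a separated edge of `E₁`.
* if `J'` is a dijoin of `(V₁, E₁)` then `J'` with the edges `c i`, `i < k` odd, is a dijoin of `(V, E)`:
  let `Y` be such that no edge of `E` enters `Y`.  If `Y` separates `V₁` then `Y ∩ V₁` works.  Otherwise `Y`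
  or its complement is contained in `earI k W`.  Take a maximal interval `W i, …, W l` of inner vertices
  in this set, `0 < i ≤ l < k`: `c (i - 1)` and `c l` are separated, `W i` and `W l` are both tails of these
  edges (if `Y` is contained in `earI k W`), or both heads.  As the types alternate along the ear,
  `i ≡ l` mod 2 and one of `i - 1`, `l` is odd.
  (It is enough to take the first maximal interval.)
* So `J.card ≤ J'.card + k / 2`.  Together: `(J ∩ Q).card = k / 2` and `J \ Q` is minimal.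
-/

namespace LGAlt

namespace MG

variable {G : MG} {ty : ℕ → Bool} {V E J : Finset ℕ} {p : Bool} {a : ℕ} {X VH H : Finset ℕ} {k : ℕ}
  {W c : ℕ → ℕ}

/-- the ends of an edge of the ear -/
private theorem ends_ear (h : G.ECtx ty V E J p a X VH H k W c) {i : ℕ} (hi : i < k) :
    (G.tl (c i) = W i ∧ G.hd (c i) = W (i + 1) ∧ c i ∉ J) ∨
      (G.hd (c i) = W i ∧ G.tl (c i) = W (i + 1) ∧ c i ∈ J) := by
  have h1 := h.ear.ends i hi
  unfold rsrc rdst at h1
  by_cases hJ : c i ∈ J
  · rw [if_pos hJ, if_pos hJ] at h1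
    exact Or.inr ⟨h1.1, h1.2, hJ⟩
  · rw [if_neg hJ, if_neg hJ] at h1
    exact Or.inl ⟨h1.1, h1.2, hJ⟩

private theorem memQ {i : ℕ} (hi : i < k) : c i ∈ earQ k c :=
  Finset.mem_image_of_mem c (Finset.mem_range.2 hi)

private theorem memQ_iff {e : ℕ} : e ∈ earQ k c ↔ ∃ i < k, c i = e := by
  unfold earQ
  simp

private theorem memI_iff {v : ℕ} : v ∈ earI k W ↔ ∃ i, 0 < i ∧ i < k ∧ W i = v := by
  unfold earI
  simp only [Finset.mem_image, Finset.mem_Ico]
  constructor
  · rintro ⟨i, ⟨h1, h2⟩, h3⟩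
    exact ⟨i, h1, h2, h3⟩
  · rintro ⟨i, h1, h2, h3⟩
    exact ⟨i, ⟨h1, h2⟩, h3⟩

private theorem cE (h : G.ECtx ty V E J p a X VH H k W c) {i : ℕ} (hi : i < k) : c i ∈ E := by
  obtain ⟨-, -, -, h4, h5⟩ := ear_sub h
  exact h5 (h4 (memQ hi))

/-- the types alternate along the ear -/
private theorem ty_alt (h : G.ECtx ty V E J p a X VH H k W c) {i : ℕ} (hi : i < k) :
    ty (W (i + 1)) = !ty (W i) := by
  have h1 := h.tyt _ (cE h hi)
  have h2 := h.tyh _ (cE h hi)
  rcases ends_ear h hi with ⟨h3, h4, -⟩ | ⟨h3, h4, -⟩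
  · rw [h3] at h1
    rw [h4] at h2
    rw [h1, h2]
    rfl
  · rw [h4] at h1
    rw [h3] at h2
    rw [h1, h2]
    rfl

/-- exactly one of two consecutive edges of the ear is in `J` -/
private theorem J_alt (h : G.ECtx ty V E J p a X VH H k W c) {i : ℕ} (hi : i + 1 < k) :
    c i ∈ J ↔ c (i + 1) ∉ J := by
  have h1 := h.tyt _ (cE h (Nat.lt_of_succ_lt hi))
  have h2 := h.tyh _ (cE h (Nat.lt_of_succ_lt hi))
  have h1' := h.tyt _ (cE h hi)
  have h2' := h.tyh _ (cE h hi)
  rcases ends_ear h (Nat.lt_of_succ_lt hi) with ⟨h3, h4, h5⟩ | ⟨h3, h4, h5⟩ <;>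
    rcases ends_ear h hi with ⟨h6, h7, h8⟩ | ⟨h6, h7, h8⟩
  · rw [h4] at h2
    rw [h6] at h1'
    rw [h2] at h1'
    exact absurd h1' (by simp)
  · exact iff_of_false h5 (not_not.2 h8)
  · exact iff_of_true h5 h8
  · rw [h4] at h1
    rw [h6] at h2'
    rw [h1] at h2'
    exact absurd h2' (by simp)

private theorem W_VH_or (h : G.ECtx ty V E J p a X VH H k W c) {i : ℕ} (hi : i ≤ k) :
    W i ∈ VH ∨ W i ∈ earI k W := by
  rcases Nat.eq_zero_or_pos i with rfl | h0
  · exact Or.inl h.ear.W0
  · rcases hi.eq_or_lt with rfl | h1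
    · exact Or.inl h.ear.Wk
    · exact Or.inr (memI_iff.2 ⟨i, h0, h1, rfl⟩)

theorem ear_card (h : G.ECtx ty V E J p a X VH H k W c) :
    k / 2 ≤ (J ∩ earQ k c).card := by
  refine le_trans (le_of_eq (Finset.card_range (k / 2)).symm)
    (Finset.card_le_card_of_injOn (fun t => if c (2 * t) ∈ J then c (2 * t) else c (2 * t + 1))
      ?_ ?_)
  · intro t ht
    have ht' : t < k / 2 := Finset.mem_range.1 (Finset.mem_coe.1 ht)
    have h1 : 2 * t + 1 < k := by omega
    rw [Finset.mem_coe, Finset.mem_inter]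
    beta_reduce
    split_ifs with h2
    · exact ⟨h2, memQ (by omega)⟩
    · exact ⟨not_not.1 fun h3 => h2 ((J_alt h h1).2 h3), memQ h1⟩
  · intro t ht t' ht' he
    have h1 : t < k / 2 := Finset.mem_range.1 (Finset.mem_coe.1 ht)
    have h2 : t' < k / 2 := Finset.mem_range.1 (Finset.mem_coe.1 ht')
    beta_reduce at he
    split_ifs at he
    · have := h.ear.cinj _ (by omega) _ (by omega) he
      omega
    · have := h.ear.cinj _ (by omega) _ (by omega) he
      omega
    · have := h.ear.cinj _ (by omega) _ (by omega) he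
      omega
    · have := h.ear.cinj _ (by omega) _ (by omega) he
      omega

theorem ear_dijoin (h : G.ECtx ty V E J p a X VH H k W c) :
    G.Dijoin (V \ earI k W) (E \ earQ k c) (J \ earQ k c) := by
  obtain ⟨hHE, hVH, hIX, hQt, htE⟩ := ear_sub h
  have hends := ear_ends h
  refine ⟨Finset.sdiff_subset_sdiff h.minJ.dj.sub (Finset.Subset.refl _), fun Y hY hne hneq hin => ?_⟩
  by_cases hsep : (∃ x ∈ VH, x ∈ Y) ∧ ∃ x ∈ VH, x ∉ Y
  · obtain ⟨-, e, he, h1, h2⟩ := ear_sepH h Y hsep.1 hsep.2
    have he1 := hHE he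
    unfold rsrc at h1
    unfold rdst at h2
    by_cases hJ : e ∈ J
    · rw [if_pos hJ] at h1 h2
      exact ⟨e, Finset.mem_sdiff.2 ⟨hJ, (Finset.mem_sdiff.1 he1).2⟩, fun h3 => h1 (h3.1 h2)⟩
    · rw [if_neg hJ] at h1 h2
      exact absurd (hin e he1 h2) h1
  · -- all vertices of `VH` are on one side
    have hVHne : VH.Nonempty := ⟨a, h.aH⟩
    have hI : ∀ v ∈ earI k W, v ∉ V \ earI k W := fun v hv h' => (Finset.mem_sdiff.1 h').2 hv
    have hIV : earI k W ⊆ V := hIX.trans h.XV
    -- an auxiliary statement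
    have key : ∀ Y' ⊆ V, Y'.Nonempty → Y' ≠ V → (∀ v ∈ V \ earI k W, (v ∈ Y' ↔ v ∈ Y)) →
        (∀ i ≤ k, ∀ j ≤ k, (W i ∈ Y' ↔ W j ∈ Y')) →
        ∃ e ∈ J \ earQ k c, G.Sep Y e := by
      intro Y' hY' hne' hneq' hv hW
      obtain ⟨e, he, hs⟩ := h.minJ.dj.hit Y' hY' hne' hneq' (by
        intro e he hd
        by_cases hQ : e ∈ earQ k c
        · obtain ⟨i, hi, rfl⟩ := memQ_iff.1 hQ
          rcases ends_ear h hi with ⟨h3, h4, -⟩ | ⟨h3, h4, -⟩
          · rw [h3]
            rw [h4] at hd
            exact (hW _ (by omega) _ (by omega)).1 hd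
          · rw [h4]
            rw [h3] at hd
            exact (hW _ (by omega) _ (by omega)).1 hd
        · have he' := Finset.mem_sdiff.2 ⟨he, hQ⟩
          obtain ⟨h3, h4⟩ := hends e he'
          exact (hv _ h3).2 (hin e he' ((hv _ h4).1 hd)))
      have hQ : e ∉ earQ k c := by
        intro hQ
        obtain ⟨i, hi, rfl⟩ := memQ_iff.1 hQ
        refine hs ?_
        rcases ends_ear h hi with ⟨h3, h4, -⟩ | ⟨h3, h4, -⟩
        · rw [h3, h4]
          exact hW _ (by omega) _ (by omega)
        · rw [h3, h4]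
          exact hW _ (by omega) _ (by omega)
      have he' := Finset.mem_sdiff.2 ⟨h.minJ.dj.sub he, hQ⟩
      obtain ⟨h3, h4⟩ := hends e he'
      refine ⟨e, Finset.mem_sdiff.2 ⟨he, hQ⟩, fun h5 => hs ?_⟩
      rw [hv _ h3, hv _ h4]
      exact h5
    by_cases hc : ∃ x ∈ VH, x ∈ Y
    · have hall : ∀ x ∈ VH, x ∈ Y := by
        intro x hx
        by_contra h1
        exact hsep ⟨hc, x, hx, h1⟩
      have hWall : ∀ i ≤ k, W i ∈ Y ∪ earI k W := fun i hi => by
        rcases W_VH_or h hi with h1 | h1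
        · exact Finset.mem_union_left _ (hall _ h1)
        · exact Finset.mem_union_right _ h1
      refine key (Y ∪ earI k W) (Finset.union_subset (hY.trans Finset.sdiff_subset) hIV)
        (hne.mono Finset.subset_union_left) (fun h1 => hneq ?_) (fun v hv => ?_)
        fun i hi j hj => iff_of_true (hWall i hi) (hWall j hj)
      · refine Finset.Subset.antisymm hY fun v hv => ?_
        have h2 : v ∈ Y ∪ earI k W := h1 ▸ (Finset.mem_sdiff.1 hv).1
        rcases Finset.mem_union.1 h2 with h3 | h3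
        · exact h3
        · exact absurd h3 (Finset.mem_sdiff.1 hv).2
      · rw [Finset.mem_union]
        exact or_iff_left (Finset.mem_sdiff.1 hv).2
    · have hWall : ∀ i ≤ k, W i ∉ Y := fun i hi h1 => by
        rcases W_VH_or h hi with h2 | h2
        · exact hc ⟨_, h2, h1⟩
        · exact hI _ h2 (hY h1)
      refine key Y (hY.trans Finset.sdiff_subset) hne (fun h1 => ?_) (fun v _ => Iff.rfl)
        fun i hi j hj => iff_of_false (hWall i hi) (hWall j hj)
      obtain ⟨x, hx⟩ := hVHne
      have h2 : x ∈ V := (Finset.mem_sdiff.1 (hVH hx)).1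
      exact hc ⟨x, hx, h1 ▸ h2⟩

theorem ear_dijoin' (h : G.ECtx ty V E J p a X VH H k W c) (J' : Finset ℕ)
    (hJ' : G.Dijoin (V \ earI k W) (E \ earQ k c) J') :
    G.Dijoin V E (J' ∪ ((Finset.range k).filter (fun i => i % 2 = 1)).image c) := by
  obtain ⟨hHE, hVH, hIX, hQt, htE⟩ := ear_sub h
  have hends := ear_ends h
  refine ⟨Finset.union_subset (hJ'.sub.trans Finset.sdiff_subset) ?_, fun Y hY hne hneq hin => ?_⟩
  · intro e he
    obtain ⟨i, hi, rfl⟩ := Finset.mem_image.1 he
    exact cE h (Finset.mem_range.1 (Finset.mem_filter.1 hi).1)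
  by_cases hcase : (Y \ earI k W).Nonempty ∧ Y \ earI k W ≠ V \ earI k W
  · obtain ⟨e, he, hs⟩ := hJ'.hit (Y \ earI k W)
      (Finset.sdiff_subset_sdiff hY (Finset.Subset.refl _)) hcase.1 hcase.2 (by
        intro e he hd
        have h1 := hends e he
        exact Finset.mem_sdiff.2 ⟨hin e (Finset.mem_sdiff.1 he).1 (Finset.mem_sdiff.1 hd).1,
          (Finset.mem_sdiff.1 h1.1).2⟩)
    have h1 := hends e (hJ'.sub he)
    refine ⟨e, Finset.mem_union_left _ he, fun h2 => hs ?_⟩
    rw [Finset.mem_sdiff, Finset.mem_sdiff]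
    exact ⟨fun h3 => ⟨h2.1 h3.1, (Finset.mem_sdiff.1 h1.2).2⟩,
      fun h3 => ⟨h2.2 h3.1, (Finset.mem_sdiff.1 h1.1).2⟩⟩
  · -- all vertices outside the ear are on the same side
    obtain ⟨b, hb⟩ : ∃ b : Prop, ∀ v ∈ V \ earI k W, (v ∈ Y ↔ b) := by
      by_cases h1 : (Y \ earI k W).Nonempty
      · have h2 : Y \ earI k W = V \ earI k W := by
          by_contra h2
          exact hcase ⟨h1, h2⟩
        refine ⟨True, fun v hv => iff_of_true ?_ trivial⟩
        rw [← h2] at hv
        exact (Finset.mem_sdiff.1 hv).1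
      · refine ⟨False, fun v hv => iff_of_false (fun h2 => h1 ⟨v, ?_⟩) not_false⟩
        exact Finset.mem_sdiff.2 ⟨h2, (Finset.mem_sdiff.1 hv).2⟩
    have hWb0 : W 0 ∈ Y ↔ b := hb _ (hVH h.ear.W0)
    have hWbk : W k ∈ Y ↔ b := hb _ (hVH h.ear.Wk)
    -- some inner vertex is on the other side
    obtain ⟨i₀, hi₀, hi₀k, hi₀b⟩ : ∃ i, 0 < i ∧ i < k ∧ ¬ (W i ∈ Y ↔ b) := by
      by_contra hcon
      push Not at hcon
      have hall : ∀ v ∈ V, (v ∈ Y ↔ b) := by
        intro v hv
        by_cases h1 : v ∈ earI k W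
        · obtain ⟨i, h2, h3, rfl⟩ := memI_iff.1 h1
          exact hcon i h2 h3
        · exact hb v (Finset.mem_sdiff.2 ⟨hv, h1⟩)
      obtain ⟨y, hy⟩ := hne
      have hbt : b := (hall y (hY hy)).1 hy
      exact hneq (Finset.Subset.antisymm hY fun v hv => (hall v hv).2 hbt)
    by_contra hcon
    have hodd : ∀ i < k, i % 2 = 1 → ¬ G.Sep Y (c i) := by
      intro i hi hi2 hs
      refine hcon ⟨c i, Finset.mem_union_right _ (Finset.mem_image_of_mem c
        (Finset.mem_filter.2 ⟨Finset.mem_range.2 hi, hi2⟩)), hs⟩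
    -- a separated edge: `W i ∈ Y` iff `W i` has type `true`
    have hsep : ∀ i < k, ¬ (W i ∈ Y ↔ W (i + 1) ∈ Y) → i % 2 = 0 ∧ (W i ∈ Y ↔ ty (W i) = true) := by
      intro i hi hne'
      have h1 := h.tyt _ (cE h hi)
      have h2 := h.tyh _ (cE h hi)
      have h3 := hin _ (cE h hi)
      have hs : G.Sep Y (c i) := by
        intro h4
        rcases ends_ear h hi with ⟨h5, h6, -⟩ | ⟨h5, h6, -⟩
        · rw [h5, h6] at h4
          exact hne' h4
        · rw [h5, h6] at h4
          exact hne' h4.symm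
      refine ⟨?_, ?_⟩
      · by_contra h4
        exact hodd i hi (by omega) hs
      · rcases ends_ear h hi with ⟨h5, h6, -⟩ | ⟨h5, h6, -⟩
        · rw [h5] at h1 h3
          rw [h6] at h3
          refine iff_of_true ?_ h1
          by_contra h7
          by_cases h8 : W (i + 1) ∈ Y
          · exact h7 (h3 h8)
          · exact hne' (iff_of_false h7 h8)
        · rw [h5] at h2 h3
          rw [h6] at h3
          refine iff_of_false (fun h7 => hne' (iff_of_true h7 (h3 h7))) ?_
          rw [h2]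
          simp
    have htyE : ∀ i ≤ k, (i % 2 = 0 → ty (W i) = ty (W 0)) ∧ (i % 2 = 1 → ty (W i) = !ty (W 0)) := by
      intro i
      induction i with
      | zero => exact fun _ => ⟨fun _ => rfl, fun h1 => absurd h1 (by simp)⟩
      | succ i ih =>
        intro hi
        have h1 := ih (by omega)
        have h2 := ty_alt h (show i < k by omega)
        refine ⟨fun h3 => ?_, fun h3 => ?_⟩
        · rw [h2, h1.2 (by omega)]
          simp
        · rw [h2, h1.1 (by omega)]
    -- the type of `W 0` if some vertex is on the other side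
    have hQ : ∀ i ≤ k, ¬ (W i ∈ Y ↔ b) → (b ↔ ty (W 0) = true) := by
      intro i
      induction i with
      | zero => exact fun _ h1 => absurd hWb0 h1
      | succ i ih =>
        intro hi h1
        by_cases h2 : (W i ∈ Y ↔ b)
        · have h3 := hsep i (by omega) (fun h4 => h1 (h4.symm.trans h2))
          rw [← h2, h3.2, (htyE i (by omega)).1 h3.1]
        · exact ih (by omega) h2
    have h0 := hQ i₀ hi₀k.le hi₀b
    have hstay : ∀ d, i₀ + d ≤ k → ¬ (W (i₀ + d) ∈ Y ↔ b) := by
      intro d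
      induction d with
      | zero => exact fun _ => hi₀b
      | succ d ih =>
        intro hd h1
        have h2 := ih (by omega)
        have h3 := hsep (i₀ + d) (by omega) (fun h4 => h2 (h4.trans h1))
        refine h2 ?_
        rw [h3.2, (htyE (i₀ + d) (by omega)).1 h3.1]
        exact h0.symm
    have h1 := hstay (k - i₀) (by omega)
    rw [show i₀ + (k - i₀) = k by omega] at h1
    exact h1 hWbk

theorem ear_minJ (h : G.ECtx ty V E J p a X VH H k W c) :
    G.MinDijoin (V \ earI k W) (E \ earQ k c) (J \ earQ k c) ∧ (J ∩ earQ k c).card = k / 2 := by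
  have hcO : (((Finset.range k).filter (fun i => i % 2 = 1)).image c).card ≤ k / 2 := by
    refine Finset.card_image_le.trans ?_
    have h1 : (Finset.range k).filter (fun i => i % 2 = 1) ⊆
        (Finset.range (k / 2)).image fun t => 2 * t + 1 := by
      intro i hi
      obtain ⟨h2, h3⟩ := Finset.mem_filter.1 hi
      have h4 := Finset.mem_range.1 h2
      exact Finset.mem_image.2 ⟨i / 2, Finset.mem_range.2 (by omega), by omega⟩
    refine (Finset.card_le_card h1).trans (Finset.card_image_le.trans ?_)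
    rw [Finset.card_range]
  have hmain : ∀ J', G.Dijoin (V \ earI k W) (E \ earQ k c) J' → J.card ≤ J'.card + k / 2 := by
    intro J' hJ'
    refine (h.minJ.min _ (ear_dijoin' h J' hJ')).trans ((Finset.card_union_le _ _).trans ?_)
    omega
  have h1 := ear_card h
  have h2 := Finset.card_sdiff_add_card_inter J (earQ k c)
  have h3 := hmain _ (ear_dijoin h)
  refine ⟨⟨ear_dijoin h, fun J' hJ' => ?_⟩, ?_⟩
  · have h4 := hmain J' hJ'
    omega
  · omega

end MG

end LGAlt
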