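import Pool.Agent.LGAlt2.Frank
import Pool.Agent.LGAlt2.LBearJ
import Pool.Agent.LGAlt2.LBearB
import Pool.Agent.LGAlt2.LBearC

/-!
# The ear step

* Take `(a, X)` from `endBlock`, `B = tch E X`.
* All edges in `B` have the same sign `p`: for `v ∈ X` all edges at `v` have the same sign `s v`
  (`pure_of_noncut`), and `s` is constant on `X` since `X` is connected by the edges with both ends in `X`;
  every edge of `B` touches a vertex of `X`.
* `J ∩ B` is a dijoin of `(insert a X, B)`: let `Y ⊆ insert a X` be nonempty, proper and such that no edge of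
  `B` enters `Y`.  If `a ∉ Y` then `Y ⊆ X`, all edges of `E` touching `Y` are in `B`, so no edge of `E` enters
  `Y`, so `J` contains an edge in this cut; it is in `B`.  If `a ∈ Y` use `Y ∪ (V \ insert a X)` (an edge of
  `E` separated by this set touches `insert a X \ Y ⊆ X`).
* `J ∩ B` is minimal with respect to inclusion: let `f ∈ J ∩ B` such that `(J ∩ B).erase f` is a dijoin of
  `(insert a X, B)`.  Then `J.erase f` is a dijoin of `(V, E)`, contradicting `J.card` minimal: let `Y` be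
  a directed cut of `(V, E)`; if `Y` separates `insert a X` then `Y ∩ insert a X` is a directed cut of
  `(insert a X, B)`; otherwise the separated edges are not in `B`, one of them is in `J`, it is not `f`.
* `frank` for `(insert a X, B)` and `J ∩ B`, then replace `rsrc (J ∩ B)` by `rsrc J` (they agree on
  `B`), `lastEar` for `(insert a X, B)`.  This gives an `ECtx`.  `C` is any element of `X`.
-/

namespace LGAlt

namespace MG

variable (G : MG)

/-- all edges touching the end block have the same sign -/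
private theorem block_sign (E₀ : Finset ℕ) (hs : G.SepHyp E₀)
    (V E : Finset ℕ) (hE : E ⊆ E₀) (h : G.Conn V E) (hnl : ∀ e ∈ E, G.tl e ≠ G.hd e)
    (hdeg : ∀ v ∈ V, 2 ≤ (E.filter (fun e => G.Touch v e)).card) (X : Finset ℕ) (hXV : X ⊆ V)
    (hXne : X.Nonempty) (hnon : ∀ v ∈ X, G.Conn (V.erase v) (G.del E v))
    (hXc : ∀ Y ⊆ X, Y.Nonempty → Y ≠ X → ∃ e ∈ E, G.tl e ∈ X ∧ G.hd e ∈ X ∧ G.Sep Y e) :
    ∃ p, ∀ e ∈ G.tch E X, G.sg e = p := by
  classical
  obtain ⟨v0, hv0⟩ := hXne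
  obtain ⟨e0, he0⟩ : (E.filter (fun e => G.Touch v0 e)).Nonempty := by
    rw [← Finset.card_pos]
    have := hdeg v0 (hXV hv0)
    omega
  obtain ⟨he0E, he0t⟩ := Finset.mem_filter.1 he0
  have hpure := fun v (hv : v ∈ X) => G.pure_of_noncut E₀ hs V E hE h hnl v (hnon v hv)
  set Y := X.filter (fun v => ∀ e ∈ E, G.Touch v e → G.sg e = G.sg e0) with hY
  have hYX : Y = X := by
    by_contra hne
    obtain ⟨e, he, ht, hh, hsep⟩ := hXc Y (Finset.filter_subset _ _)
      ⟨v0, Finset.mem_filter.2 ⟨hv0, fun e he ht => hpure v0 hv0 e he e0 he0E ht he0t⟩⟩ hne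
    apply hsep
    constructor
    · intro h1
      have h3 := (Finset.mem_filter.1 h1).2 e he (Or.inl rfl)
      exact Finset.mem_filter.2 ⟨hh, fun e' he' ht' =>
        (hpure _ hh e' he' e he ht' (Or.inr rfl)).trans h3⟩
    · intro h1
      have h3 := (Finset.mem_filter.1 h1).2 e he (Or.inr rfl)
      exact Finset.mem_filter.2 ⟨ht, fun e' he' ht' =>
        (hpure _ ht e' he' e he ht' (Or.inl rfl)).trans h3⟩
  refine ⟨G.sg e0, fun e he => ?_⟩
  obtain ⟨heE, h1⟩ := Finset.mem_filter.1 he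
  rcases h1 with h1 | h1
  · rw [← hYX] at h1
    exact (Finset.mem_filter.1 h1).2 e heE (Or.inl rfl)
  · rw [← hYX] at h1
    exact (Finset.mem_filter.1 h1).2 e heE (Or.inr rfl)

/-- the restriction of a dijoin to the end block -/
private theorem block_dijoin (V E J : Finset ℕ) (h : G.Conn V E) (hJ : G.Dijoin V E J) (a : ℕ)
    (ha : a ∈ V) (X : Finset ℕ) (hXV : X ⊆ V)
    (htch : ∀ e ∈ G.tch E X, G.tl e ∈ insert a X ∧ G.hd e ∈ insert a X) :
    G.Dijoin (insert a X) (G.tch E X) (J ∩ G.tch E X) := by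
  have haXV : insert a X ⊆ V := Finset.insert_subset ha hXV
  have hmemB : ∀ e ∈ E, (G.tl e ∈ X ∨ G.hd e ∈ X) → e ∈ G.tch E X := fun e he h =>
    Finset.mem_filter.2 ⟨he, h⟩
  refine ⟨Finset.inter_subset_right, fun Y hY hne hYne hin => ?_⟩
  by_cases haY : a ∈ Y
  · have key : ∀ x ∈ insert a X, (x ∈ Y ∪ (V \ insert a X) ↔ x ∈ Y) := by
      intro x hx
      rw [Finset.mem_union, Finset.mem_sdiff]
      exact ⟨fun h' => h'.resolve_right fun h'' => h''.2 hx, Or.inl⟩
    have hout : ∀ e ∈ E, e ∉ G.tch E X → G.tl e ∈ Y ∪ (V \ insert a X) ∧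
        G.hd e ∈ Y ∪ (V \ insert a X) := by
      intro e he heB
      have h1 : ∀ x ∈ V, x ∉ X → x ∈ Y ∪ (V \ insert a X) := by
        intro x hxV hxX
        by_cases hxa : x = a
        · rw [hxa]
          exact Finset.mem_union_left _ haY
        · refine Finset.mem_union_right _ (Finset.mem_sdiff.2 ⟨hxV, ?_⟩)
          rw [Finset.mem_insert, not_or]
          exact ⟨hxa, hxX⟩
      have h3 := h.ends e he
      exact ⟨h1 _ h3.1 fun h' => heB (hmemB e he (Or.inl h')),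
        h1 _ h3.2 fun h' => heB (hmemB e he (Or.inr h'))⟩
    obtain ⟨e, he, hsep⟩ := hJ.hit (Y ∪ (V \ insert a X))
      (Finset.union_subset (hY.trans haXV) Finset.sdiff_subset)
      (hne.mono Finset.subset_union_left) (fun h' => by
        apply hYne
        refine Finset.Subset.antisymm hY fun x hx => ?_
        rw [← key x hx, h']
        exact haXV hx) (fun e he hd => by
        by_cases heB : e ∈ G.tch E X
        · obtain ⟨h1, h3⟩ := htch e heB
          rw [key _ h1]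
          exact hin e heB ((key _ h3).1 hd)
        · exact (hout e he heB).1)
    have heB : e ∈ G.tch E X := by
      by_contra heB
      have h1 := hout e (hJ.sub he) heB
      exact hsep (iff_of_true h1.1 h1.2)
    obtain ⟨h1, h3⟩ := htch e heB
    refine ⟨e, Finset.mem_inter.2 ⟨he, heB⟩, fun h4 => hsep ?_⟩
    rw [key _ h1, key _ h3]
    exact h4
  · have hYX : Y ⊆ X := fun y hy => by
      rcases Finset.mem_insert.1 (hY hy) with h1 | h1
      · rw [h1] at hy
        exact absurd hy haY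
      · exact h1
    obtain ⟨e, he, hsep⟩ := hJ.hit Y (hYX.trans hXV) hne (fun h' => haY (h' ▸ ha))
      (fun e he hd => hin e (hmemB e he (Or.inr (hYX hd))) hd)
    refine ⟨e, Finset.mem_inter.2 ⟨he, hmemB e (hJ.sub he) ?_⟩, hsep⟩
    by_contra hcon
    rw [not_or] at hcon
    exact hsep (iff_of_false (fun h' => hcon.1 (hYX h')) fun h' => hcon.2 (hYX h'))

/-- it is minimal with respect to inclusion -/
private theorem block_min (V E J : Finset ℕ) (hJ : G.MinDijoin V E J) (a : ℕ)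
    (X : Finset ℕ) (htch : ∀ e ∈ G.tch E X, G.tl e ∈ insert a X ∧ G.hd e ∈ insert a X) :
    ∀ f ∈ J ∩ G.tch E X, ¬ G.Dijoin (insert a X) (G.tch E X) ((J ∩ G.tch E X).erase f) := by
  intro f hf hD
  obtain ⟨hfJ, hfB⟩ := Finset.mem_inter.1 hf
  have hD' : G.Dijoin V E (J.erase f) := by
    refine ⟨(Finset.erase_subset f J).trans hJ.dj.sub, fun Y hY hne hYne hin => ?_⟩
    by_cases hsep : (∃ x ∈ insert a X, x ∈ Y) ∧ ∃ x ∈ insert a X, x ∉ Y
    · obtain ⟨⟨x, hx, hxY⟩, ⟨x', hx', hxY'⟩⟩ := hsep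
      obtain ⟨e, he, hs⟩ := hD.hit (Y ∩ insert a X) Finset.inter_subset_right
        ⟨x, Finset.mem_inter.2 ⟨hxY, hx⟩⟩ (fun h' => by
          rw [← h'] at hx'
          exact hxY' (Finset.mem_inter.1 hx').1) (fun e he hd => by
          have h1 := htch e he
          exact Finset.mem_inter.2 ⟨hin e (Finset.mem_filter.1 he).1 (Finset.mem_inter.1 hd).1,
            h1.1⟩)
      obtain ⟨hef, heJ⟩ := Finset.mem_erase.1 he
      obtain ⟨heJ, heB⟩ := Finset.mem_inter.1 heJ
      refine ⟨e, Finset.mem_erase.2 ⟨hef, heJ⟩, fun h' => hs ?_⟩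
      have h1 := htch e heB
      rw [Finset.mem_inter, Finset.mem_inter]
      exact ⟨fun h3 => ⟨h'.1 h3.1, h1.2⟩, fun h3 => ⟨h'.2 h3.1, h1.1⟩⟩
    · obtain ⟨e, he, hs⟩ := hJ.dj.hit Y hY hne hYne hin
      refine ⟨e, Finset.mem_erase.2 ⟨fun hef => ?_, he⟩, hs⟩
      rw [hef] at hs
      have h1 := htch f hfB
      apply hs
      by_contra hcon
      apply hsep
      by_cases h3 : G.tl f ∈ Y
      · by_cases h4 : G.hd f ∈ Y
        · exact absurd (iff_of_true h3 h4) hcon
        · exact ⟨⟨_, h1.1, h3⟩, ⟨_, h1.2, h4⟩⟩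
      · by_cases h4 : G.hd f ∈ Y
        · exact ⟨⟨_, h1.2, h4⟩, ⟨_, h1.1, h3⟩⟩
        · exact absurd (iff_of_false h3 h4) hcon
  have h1 := hJ.min _ hD'
  rw [Finset.card_erase_of_mem hfJ] at h1
  have h3 : 0 < J.card := Finset.card_pos.2 ⟨f, hfJ⟩
  omega

theorem ear_ctx (ty : ℕ → Bool) (E₀ : Finset ℕ) (hs : G.SepHyp E₀)
    (htl : ∀ e ∈ E₀, ty (G.tl e) = true) (hhd : ∀ e ∈ E₀, ty (G.hd e) = false)
    (V E : Finset ℕ) (hE : E ⊆ E₀) (h : G.Conn V E)
    (h2 : 2 ≤ V.card) (hdeg : ∀ v ∈ V, 2 ≤ (E.filter (fun e => G.Touch v e)).card)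
    (J : Finset ℕ) (hJ : G.MinDijoin V E J) :
    ∃ p a X VH H k W c, G.ECtx ty V E J p a X VH H k W c := by
  have hnl : ∀ e ∈ E, G.tl e ≠ G.hd e := by
    intro e he heq
    have h1 := htl e (hE he)
    rw [heq, hhd e (hE he)] at h1
    exact absurd h1 (by simp)
  obtain ⟨a, haV, X, hXV, hXne, haX, htch, hnon, hconnB, hXc, htwo⟩ :=
    G.endBlock V E h hnl h2 hdeg
  obtain ⟨p, hp⟩ := G.block_sign E₀ hs V E hE h hnl hdeg X hXV hXne hnon hXc
  have hdj := G.block_dijoin V E J h hJ.dj a haV X hXV htch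
  have hmin := G.block_min V E J hJ a X htch
  have hst := G.frank (insert a X) (G.tch E X) (J ∩ G.tch E X) htch
    ⟨a, Finset.mem_insert_self a X⟩ htwo hdj hmin
  have hiff : ∀ e ∈ G.tch E X, (e ∈ J ∩ G.tch E X ↔ e ∈ J) := fun e he => by
    rw [Finset.mem_inter]
    exact ⟨fun h' => h'.1, fun h' => ⟨h', he⟩⟩
  have hsrc : ∀ e ∈ G.tch E X, G.rsrc (J ∩ G.tch E X) e = G.rsrc J e ∧
      G.rdst (J ∩ G.tch E X) e = G.rdst J e := by
    intro e he
    unfold rsrc rdst
    simp only [hiff e he, and_self]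
  have hst' : Strong (G.rsrc J) (G.rdst J) (insert a X) (G.tch E X) := by
    refine ⟨hst.ne, fun e he => ?_, fun Y hY hne hYne => ?_⟩
    · rw [← (hsrc e he).1, ← (hsrc e he).2]
      exact hst.ends e he
    · obtain ⟨e, he, h1⟩ := hst.cut Y hY hne hYne
      refine ⟨e, he, ?_⟩
      rw [← (hsrc e he).1, ← (hsrc e he).2]
      exact h1
  have hBne : (G.tch E X).Nonempty := by
    obtain ⟨v, hv⟩ := hXne
    obtain ⟨e, he, -⟩ := hconnB.cut {a} (Finset.singleton_subset_iff.2 (Finset.mem_insert_self a X))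
      (Finset.singleton_nonempty a) (fun h' => by
        have h1 : v ∈ insert a X := Finset.mem_insert_of_mem hv
        rw [← h', Finset.mem_singleton] at h1
        rw [h1] at hv
        exact haX hv)
    exact ⟨e, he⟩
  obtain ⟨VH, H, k, W, c, haH, hsH, hear, hV, hBE⟩ := lastEar (G.rsrc J) (G.rdst J) (insert a X)
    (G.tch E X) a hst' (Finset.mem_insert_self a X) hBne
  exact ⟨p, a, X, VH, H, k, W, c, ⟨h, fun e he => htl e (hE he), fun e he => hhd e (hE he), hJ, haV,
    hXV, hXne, haX, htch, hnon, hconnB, htwo, hp, haH, hsH, hear, hV, hBE⟩⟩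

theorem ear_step (ty : ℕ → Bool) (E₀ : Finset ℕ) (hs : G.SepHyp E₀)
    (htl : ∀ e ∈ E₀, ty (G.tl e) = true) (hhd : ∀ e ∈ E₀, ty (G.hd e) = false)
    (V E : Finset ℕ) (hE : E ⊆ E₀) (h : G.Conn V E)
    (h2 : 2 ≤ V.card) (hdeg : ∀ v ∈ V, 2 ≤ (E.filter (fun e => G.Touch v e)).card)
    (J : Finset ℕ) (hJ : G.MinDijoin V E J) :
    ∃ p V₁ E₁ k W c C, G.EarData V E J p V₁ E₁ k W c C := by
  obtain ⟨p, a, X, VH, H, k, W, c, hc⟩ := G.ear_ctx ty E₀ hs htl hhd V E hE h h2 hdeg J hJ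
  obtain ⟨C, hC⟩ := hc.Xne
  obtain ⟨h3, h4, h5⟩ := ear_isEar hc
  obtain ⟨h6, h7⟩ := ear_minJ hc
  have hsub := ear_sub hc
  exact ⟨p, V \ earI k W, E \ earQ k c, k, W, c, C, ⟨ear_conn hc, h3, h4, h5,
    fun i hi => hc.sgn _ (hsub.2.2.2.1 (Finset.mem_image_of_mem c (Finset.mem_range.2 hi))),
    h6, h7, ear_nbp hc, ear_nbq hc, fun hk => ear_odd hc hk, hc.XV hC,
    fun e he ht => hc.sgn e (Finset.mem_filter.2 ⟨he, by
      rcases ht with ht | ht
      · exact Or.inl (by rw [ht]; exact hC)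
      · exact Or.inr (by rw [ht]; exact hC)⟩),
    hc.noncut C hC, blockC_nb hc hC, blockC_dij E₀ hs hE hc hC⟩⟩

end MG

end LGAlt
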