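import Pool.Agent.LGAlt2.LBdef

/-!
# The graph without the last ear

Let `V₁ = V \ earI k W`, `E₁ = E \ earQ k c`.  The inner vertices of the ear belong to `X` (they are not in
`VH ∋ a`), so all edges of `E` touching them belong to `tch E X = H ∪ earQ k c`, and the edges of `H` do not
touch them (the ends of the edges of `H` are in `VH`).  So the ends of the edges of `E₁` are in `V₁`.

* `ear_conn` : `(V₁, E₁)` is connected.  Let `Y ⊆ V₁` be nonempty and proper.  If `Y` separates `VH`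
  (i.e. `Y ∩ VH` is nonempty and proper in `VH`) then some edge of `H` is separated by `Y` (`strH`).  Otherwise
  put the inner vertices of the ear on the side of `VH` (note that `W 0, W k ∈ VH`): the edges of the ear are
  not separated, and some edge of `E` is, by `conn`; it belongs to `E₁`.
* `ear_isEar` : `(V₁, E₁)` and the ear (for each edge `rsrc`, `rdst` are the two ends).
* `H ⊆ E₁`, `VH ⊆ V₁`.
-/

namespace LGAlt

namespace MG

variable (G : MG)

variable {G} {ty : ℕ → Bool} {V E J : Finset ℕ} {p : Bool} {a : ℕ} {X VH H : Finset ℕ} {k : ℕ}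
  {W c : ℕ → ℕ}

private theorem rr_lba (G : MG) (J : Finset ℕ) (e : ℕ) :
    (G.rsrc J e = G.tl e ∧ G.rdst J e = G.hd e) ∨ (G.rsrc J e = G.hd e ∧ G.rdst J e = G.tl e) := by
  unfold rsrc rdst
  by_cases h : e ∈ J
  · right
    rw [if_pos h, if_pos h]
    exact ⟨rfl, rfl⟩
  · left
    rw [if_neg h, if_neg h]
    exact ⟨rfl, rfl⟩

private theorem hV_lba (h : G.ECtx ty V E J p a X VH H k W c) : insert a X = VH ∪ earI k W := h.hV

private theorem hE_lba (h : G.ECtx ty V E J p a X VH H k W c) : G.tch E X = H ∪ earQ k c := h.hE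

private theorem mem_earI_lba {x : ℕ} : x ∈ earI k W ↔ ∃ i, 0 < i ∧ i < k ∧ W i = x := by
  unfold earI
  rw [Finset.mem_image]
  constructor
  · rintro ⟨i, hi, rfl⟩
    rw [Finset.mem_Ico] at hi
    exact ⟨i, by omega, hi.2, rfl⟩
  · rintro ⟨i, h1, h2, rfl⟩
    exact ⟨i, Finset.mem_Ico.mpr ⟨by omega, h2⟩, rfl⟩

private theorem mem_earQ_lba {x : ℕ} : x ∈ earQ k c ↔ ∃ i, i < k ∧ c i = x := by
  unfold earQ
  rw [Finset.mem_image]
  constructor
  · rintro ⟨i, hi, rfl⟩
    exact ⟨i, Finset.mem_range.mp hi, rfl⟩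
  · rintro ⟨i, h1, rfl⟩
    exact ⟨i, Finset.mem_range.mpr h1, rfl⟩

private theorem W_mem_lba (h : G.ECtx ty V E J p a X VH H k W c) {i : ℕ} (hi : i ≤ k) :
    W i ∈ VH ∪ earI k W := by
  rw [Finset.mem_union]
  rcases Nat.eq_zero_or_pos i with h0 | h0
  · left; rw [h0]; exact h.ear.W0
  · rcases Nat.lt_or_ge i k with h1 | h1
    · right; exact mem_earI_lba.mpr ⟨i, h0, h1, rfl⟩
    · left
      have : i = k := by omega
      rw [this]; exact h.ear.Wk

private theorem insX_sub_lba (h : G.ECtx ty V E J p a X VH H k W c) : insert a X ⊆ V := by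
  intro x hx
  rw [Finset.mem_insert] at hx
  rcases hx with rfl | hx
  · exact h.aV
  · exact h.XV hx

/-- the ends of the edges of `H` are in `VH` -/
private theorem endsH_lba (h : G.ECtx ty V E J p a X VH H k W c) {e : ℕ} (he : e ∈ H) :
    G.tl e ∈ VH ∧ G.hd e ∈ VH := by
  have h1 := h.strH.ends e he
  rcases rr_lba G J e with ⟨h2, h3⟩ | ⟨h2, h3⟩
  · rw [h2, h3] at h1; exact h1
  · rw [h2, h3] at h1; exact ⟨h1.2, h1.1⟩

theorem ear_sub (h : G.ECtx ty V E J p a X VH H k W c) :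
    H ⊆ E \ earQ k c ∧ VH ⊆ V \ earI k W ∧ earI k W ⊆ X ∧ earQ k c ⊆ G.tch E X ∧ G.tch E X ⊆ E := by
  have hV := hV_lba h
  have hE := hE_lba h
  have hHt : H ⊆ G.tch E X := by rw [hE]; exact Finset.subset_union_left
  have hQt : earQ k c ⊆ G.tch E X := by rw [hE]; exact Finset.subset_union_right
  have htE : G.tch E X ⊆ E := Finset.filter_subset _ _
  refine ⟨?_, ?_, ?_, hQt, htE⟩
  · intro e he
    rw [Finset.mem_sdiff]
    refine ⟨htE (hHt he), fun hq => ?_⟩
    obtain ⟨i, hi, rfl⟩ := mem_earQ_lba.mp hq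
    exact h.ear.cnot i hi he
  · intro v hv
    rw [Finset.mem_sdiff]
    refine ⟨insX_sub_lba h (by rw [hV]; exact Finset.mem_union_left _ hv), fun hq => ?_⟩
    obtain ⟨i, hi1, hi2, rfl⟩ := mem_earI_lba.mp hq
    exact h.ear.Wint i hi1 hi2 hv
  · intro v hv
    have h1 : v ∈ insert a X := by rw [hV]; exact Finset.mem_union_right _ hv
    rw [Finset.mem_insert] at h1
    rcases h1 with h1 | h1
    · exfalso
      obtain ⟨i, hi1, hi2, hiv⟩ := mem_earI_lba.mp hv
      apply h.ear.Wint i hi1 hi2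
      rw [hiv, h1]
      exact h.aH
    · exact h1

theorem ear_ends (h : G.ECtx ty V E J p a X VH H k W c) :
    ∀ e ∈ E \ earQ k c, G.tl e ∈ V \ earI k W ∧ G.hd e ∈ V \ earI k W := by
  intro e he
  obtain ⟨-, -, hIX, -, -⟩ := ear_sub h
  rw [Finset.mem_sdiff] at he
  have hnot : ∀ v, v ∈ earI k W → (G.tl e = v ∨ G.hd e = v) → False := by
    intro v hv hev
    have hvX := hIX hv
    have het : e ∈ G.tch E X := by
      unfold tch
      rw [Finset.mem_filter]
      refine ⟨he.1, ?_⟩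
      rcases hev with h1 | h1
      · left; rw [h1]; exact hvX
      · right; rw [h1]; exact hvX
    rw [hE_lba h, Finset.mem_union] at het
    have heH : e ∈ H := het.resolve_right he.2
    have h2 := endsH_lba h heH
    obtain ⟨i, hi1, hi2, hiv⟩ := mem_earI_lba.mp hv
    apply h.ear.Wint i hi1 hi2
    rw [hiv]
    rcases hev with h1 | h1
    · rw [← h1]; exact h2.1
    · rw [← h1]; exact h2.2
  have hends := h.conn.ends e he.1
  rw [Finset.mem_sdiff, Finset.mem_sdiff]
  exact ⟨⟨hends.1, fun hv => hnot _ hv (Or.inl rfl)⟩, ⟨hends.2, fun hv => hnot _ hv (Or.inr rfl)⟩⟩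

theorem ear_conn (h : G.ECtx ty V E J p a X VH H k W c) :
    G.Conn (V \ earI k W) (E \ earQ k c) := by
  obtain ⟨hHE, hVHV, hIX, hQt, htE⟩ := ear_sub h
  have hends := ear_ends h
  refine ⟨⟨W 0, hVHV h.ear.W0⟩, hends, ?_⟩
  intro Y hY hne hneV
  by_cases h1 : ∃ x ∈ VH, x ∈ Y
  · by_cases h2 : ∃ x ∈ VH, x ∉ Y
    · obtain ⟨x, hx, hxY⟩ := h1
      obtain ⟨x', hx', hxY'⟩ := h2
      obtain ⟨e, he, he1, he2⟩ := h.strH.cut (VH ∩ Y) Finset.inter_subset_left
        ⟨x, Finset.mem_inter.mpr ⟨hx, hxY⟩⟩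
        (fun heq => hxY' (Finset.mem_inter.mp (show x' ∈ VH ∩ Y from by rw [heq]; exact hx')).2)
      refine ⟨e, hHE he, ?_⟩
      have h3 := h.strH.ends e he
      rw [Finset.mem_inter] at he1 he2
      have h4 : G.rdst J e ∉ Y := fun h5 => he2 ⟨h3.2, h5⟩
      unfold Sep
      rcases rr_lba G J e with ⟨h5, h6⟩ | ⟨h5, h6⟩
      · rw [h5] at he1
        rw [h6] at h4
        intro h7
        exact h4 (h7.mp he1.2)
      · rw [h5] at he1
        rw [h6] at h4
        intro h7
        exact h4 (h7.mpr he1.2)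
    · -- `VH ⊆ Y`
      push Not at h2
      have hIV : earI k W ⊆ V := hIX.trans h.XV
      obtain ⟨v, hv, hvY⟩ : ∃ v ∈ V \ earI k W, v ∉ Y := by
        by_contra hcon
        push Not at hcon
        exact hneV (Finset.Subset.antisymm hY hcon)
      obtain ⟨e, he, hes⟩ := h.conn.cut (Y ∪ earI k W)
        (Finset.union_subset (hY.trans Finset.sdiff_subset) hIV)
        (hne.mono Finset.subset_union_left)
        (fun heq => by
          have h3 : v ∈ Y ∪ earI k W := by rw [heq]; exact (Finset.mem_sdiff.mp hv).1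
          rw [Finset.mem_union] at h3
          rcases h3 with h3 | h3
          · exact hvY h3
          · exact (Finset.mem_sdiff.mp hv).2 h3)
      have hWin : ∀ i, i ≤ k → W i ∈ Y ∪ earI k W := by
        intro i hi
        have h3 := W_mem_lba h hi
        rw [Finset.mem_union] at h3 ⊢
        rcases h3 with h3 | h3
        · left; exact h2 _ h3
        · right; exact h3
      have heQ : e ∉ earQ k c := by
        intro hq
        obtain ⟨i, hi, rfl⟩ := mem_earQ_lba.mp hq
        have h3 := h.ear.ends i hi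
        apply hes
        rcases rr_lba G J (c i) with ⟨h5, h6⟩ | ⟨h5, h6⟩
        · rw [← h5, ← h6, h3.1, h3.2]
          exact ⟨fun _ => hWin _ hi, fun _ => hWin _ hi.le⟩
        · rw [← h5, ← h6, h3.1, h3.2]
          exact ⟨fun _ => hWin _ hi.le, fun _ => hWin _ hi⟩
      have heE : e ∈ E \ earQ k c := Finset.mem_sdiff.mpr ⟨he, heQ⟩
      refine ⟨e, heE, ?_⟩
      have h3 := hends e heE
      rw [Finset.mem_sdiff, Finset.mem_sdiff] at h3
      unfold Sep at hes ⊢
      rw [Finset.mem_union, Finset.mem_union] at hes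
      tauto
  · -- `VH ∩ Y = ∅`
    push Not at h1
    obtain ⟨e, he, hes⟩ := h.conn.cut Y (hY.trans Finset.sdiff_subset) hne
      (fun heq => h1 _ h.ear.W0 (by rw [heq]; exact (Finset.mem_sdiff.mp (hVHV h.ear.W0)).1))
    have hWin : ∀ i, i ≤ k → W i ∉ Y := by
      intro i hi hiY
      have h3 := W_mem_lba h hi
      rw [Finset.mem_union] at h3
      rcases h3 with h3 | h3
      · exact h1 _ h3 hiY
      · exact (Finset.mem_sdiff.mp (hY hiY)).2 h3
    have heQ : e ∉ earQ k c := by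
      intro hq
      obtain ⟨i, hi, rfl⟩ := mem_earQ_lba.mp hq
      have h3 := h.ear.ends i hi
      apply hes
      rcases rr_lba G J (c i) with ⟨h5, h6⟩ | ⟨h5, h6⟩
      · rw [← h5, ← h6, h3.1, h3.2]
        exact ⟨fun h4 => absurd h4 (hWin _ hi.le), fun h4 => absurd h4 (hWin _ hi)⟩
      · rw [← h5, ← h6, h3.1, h3.2]
        exact ⟨fun h4 => absurd h4 (hWin _ hi), fun h4 => absurd h4 (hWin _ hi.le)⟩
    exact ⟨e, Finset.mem_sdiff.mpr ⟨he, heQ⟩, hes⟩

theorem ear_isEar (h : G.ECtx ty V E J p a X VH H k W c) :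
    G.IsEar (V \ earI k W) (E \ earQ k c) k W c ∧ V = earV (V \ earI k W) k W ∧
      E = earE (E \ earQ k c) k c := by
  obtain ⟨hHE, hVHV, hIX, hQt, htE⟩ := ear_sub h
  have hIV : earI k W ⊆ V := hIX.trans h.XV
  refine ⟨?_, ?_, ?_⟩
  · exact
      { kpos := h.ear.kpos
        W0 := hVHV h.ear.W0
        Wk := hVHV h.ear.Wk
        Wint := fun i h1 h2 hcon => (Finset.mem_sdiff.mp hcon).2 (mem_earI_lba.mpr ⟨i, h1, h2, rfl⟩)
        Winj := h.ear.Winj
        cnot := fun i hi hcon => (Finset.mem_sdiff.mp hcon).2 (mem_earQ_lba.mpr ⟨i, hi, rfl⟩)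
        cinj := h.ear.cinj
        ends := fun i hi => by
          have h3 := h.ear.ends i hi
          rcases rr_lba G J (c i) with ⟨h5, h6⟩ | ⟨h5, h6⟩
          · left
            rw [← h5, ← h6]
            exact h3
          · right
            rw [← h5, ← h6]
            exact h3 }
  · exact (Finset.sdiff_union_of_subset hIV).symm
  · exact (Finset.sdiff_union_of_subset (hQt.trans htE)).symm

/-- a set which does not separate `(V₁, E₁)` within the strongly connected part: if `Y` separates `VH` then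
it separates an edge of `H` in both directions of the reversed digraph -/
theorem ear_sepH (h : G.ECtx ty V E J p a X VH H k W c) (Y : Finset ℕ) (hY : ∃ x ∈ VH, x ∈ Y)
    (hY' : ∃ x ∈ VH, x ∉ Y) :
    (∃ e ∈ H, G.rsrc J e ∈ Y ∧ G.rdst J e ∉ Y) ∧ ∃ e ∈ H, G.rsrc J e ∉ Y ∧ G.rdst J e ∈ Y := by
  obtain ⟨x, hx, hxY⟩ := hY
  obtain ⟨x', hx', hxY'⟩ := hY'
  constructor
  · obtain ⟨e, he, he1, he2⟩ := h.strH.cut (VH ∩ Y) Finset.inter_subset_left
      ⟨x, Finset.mem_inter.mpr ⟨hx, hxY⟩⟩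
      (fun heq => hxY' (Finset.mem_inter.mp (show x' ∈ VH ∩ Y from by rw [heq]; exact hx')).2)
    have h3 := h.strH.ends e he
    rw [Finset.mem_inter] at he1 he2
    exact ⟨e, he, he1.2, fun h5 => he2 ⟨h3.2, h5⟩⟩
  · obtain ⟨e, he, he1, he2⟩ := h.strH.cut (VH \ Y) Finset.sdiff_subset
      ⟨x', Finset.mem_sdiff.mpr ⟨hx', hxY'⟩⟩
      (fun heq => (Finset.mem_sdiff.mp (show x ∈ VH \ Y from by rw [heq]; exact hx)).2 hxY)
    have h3 := h.strH.ends e he
    rw [Finset.mem_sdiff] at he1 he2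
    refine ⟨e, he, he1.2, ?_⟩
    by_contra h5
    exact he2 ⟨h3.2, h5⟩

end MG

end LGAlt
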