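import Pool.Agent.LGAlt2.LBdef

/-!
# The lower bound: vertices of degree one

* `exists_minDijoin` : `E` is a dijoin of a connected graph (every cut contains an edge), so there is a
  dijoin of minimal cardinality.
* `nJ_le_nb` : a dijoin contains all bridges: if `Y` is the cut of the bridge `e`, then no edge enters `Y`
  or no edge enters `V \ Y`, so `J` contains an edge of this cut.
* `leaf_step` : let `w` be a vertex of degree at most one.  By the connectivity its degree is one, let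
  `c` be its edge.  `(V.erase w, E.erase c)` is connected (if `Y ⊆ V.erase w` then the edge in `E` in the cut
  of `Y`, or of `insert w Y`, whichever does not contain `c` ...).  `c` is a bridge of `(V, E)` (cut `{w}`),
  so `c ∈ J`.  An edge `e ≠ c` is a bridge of `(V, E)` iff it is a bridge of `(V.erase w, E.erase c)` (put `w`
  on the side of `other w c`).  `J'` is a dijoin of `(V.erase w, E.erase c)` iff `insert c J'` is a dijoin
  of `(V, E)` (a directed cut `Y` of `(V, E)` contains `c` or it is a cut `Y.erase w` of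
  `(V.erase w, E.erase c)`).
-/

namespace LGAlt

namespace MG

variable (G : MG)

theorem exists_minDijoin (V E : Finset ℕ) (h : G.Conn V E) : ∃ J, G.MinDijoin V E J := by
  have hex : {J : Finset ℕ | G.Dijoin V E J}.Nonempty := by
    refine ⟨E, Finset.Subset.refl E, fun Y hY hne hYne _ => h.cut Y hY hne hYne⟩
  obtain ⟨J, hJ, hmin⟩ := (measure fun J : Finset ℕ => J.card).wf.has_min _ hex
  exact ⟨J, hJ, fun J' hJ' => not_lt.1 (hmin J' hJ')⟩

private theorem lf_bridge {V E J : Finset ℕ} (h : G.Conn V E) (hJ : G.Dijoin V E J) {e : ℕ}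
    (he : e ∈ E) (hb : G.Bridge V E e) : e ∈ J := by
  obtain ⟨Y, hYV, hne, hYne, hY⟩ := hb
  have hs : ¬ (G.tl e ∈ Y ↔ G.hd e ∈ Y) := (hY e he).2 rfl
  by_cases h1 : G.tl e ∈ Y
  · have h2 : G.hd e ∉ Y := fun h3 => hs (iff_of_true h1 h3)
    obtain ⟨e', he', hs'⟩ := hJ.hit Y hYV hne hYne (by
      intro e' he' h3
      by_contra h4
      have h5 : G.Sep Y e' := fun h6 => h4 (h6.2 h3)
      rw [(hY e' he').1 h5] at h3
      exact h2 h3)
    rw [← (hY e' (hJ.sub he')).1 hs']
    exact he'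
  · have h2 : G.hd e ∈ Y := by
      by_contra h3
      exact hs (iff_of_false h1 h3)
    obtain ⟨y, hy⟩ := hne
    obtain ⟨e', he', hs'⟩ := hJ.hit (V \ Y) Finset.sdiff_subset
      ⟨G.tl e, Finset.mem_sdiff.2 ⟨(h.ends e he).1, h1⟩⟩
      (by
        intro h3
        have h4 := hYV hy
        rw [← h3] at h4
        exact (Finset.mem_sdiff.1 h4).2 hy)
      (by
        intro e' he' h3
        obtain ⟨h3, h4⟩ := Finset.mem_sdiff.1 h3
        rw [Finset.mem_sdiff]
        refine ⟨(h.ends e' he').1, fun h5 => ?_⟩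
        have h6 : G.Sep Y e' := fun h7 => h4 (h7.1 h5)
        rw [(hY e' he').1 h6] at h4
        exact h4 h2)
    have he'' := hJ.sub he'
    have h3 : G.Sep Y e' := by
      intro h4
      apply hs'
      rw [Finset.mem_sdiff, Finset.mem_sdiff]
      have := h.ends e' he''
      tauto
    rw [← (hY e' he'').1 h3]
    exact he'

/-- a dijoin contains all bridges -/
theorem nJ_le_nb (V E J : Finset ℕ) (h : G.Conn V E) (hJ : G.Dijoin V E J) (p : Bool) :
    G.nJ E J p ≤ G.nb V E p := by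
  classical
  unfold nJ nb
  have h1 : E.filter (fun e => G.sg e = p) ⊆
      E.filter (fun e => G.sg e = p ∧ ¬ G.Bridge V E e) ∪ J.filter (fun e => G.sg e = p) := by
    intro e he
    obtain ⟨he, hp⟩ := Finset.mem_filter.1 he
    rw [Finset.mem_union, Finset.mem_filter, Finset.mem_filter]
    by_cases hb : G.Bridge V E e
    · exact Or.inr ⟨G.lf_bridge h hJ he hb, hp⟩
    · exact Or.inl ⟨he, hp, hb⟩
  have h2 := (Finset.card_le_card h1).trans (Finset.card_union_le _ _)
  have h3 : ((E.filter (fun e => G.sg e = p)).card : ℤ) ≤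
      ((E.filter (fun e => G.sg e = p ∧ ¬ G.Bridge V E e)).card : ℤ) +
        ((J.filter (fun e => G.sg e = p)).card : ℤ) := by exact_mod_cast h2
  linarith

/-- the data of a vertex of degree one -/
private structure Lf (V E : Finset ℕ) (w c : ℕ) : Prop where
  conn : G.Conn V E
  wV : w ∈ V
  cE : c ∈ E
  tc : G.Touch w c
  oV : G.other w c ∈ V.erase w
  uniq : ∀ e ∈ E, e ≠ c → G.tl e ≠ w ∧ G.hd e ≠ w

/-- a set of vertices without `w` and the same side for `w` and its neighbour -/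
private def lift (w c : ℕ) (Y : Finset ℕ) : Finset ℕ := if G.other w c ∈ Y then insert w Y else Y

variable {G}

private theorem Lf.mem_lift {w c : ℕ} {Y : Finset ℕ} {x : ℕ} (hx : x ≠ w) :
    x ∈ G.lift w c Y ↔ x ∈ Y := by
  unfold lift
  split_ifs
  · rw [Finset.mem_insert]
    exact ⟨fun h => h.resolve_left hx, Or.inr⟩
  · rfl

private theorem Lf.w_lift {V E : Finset ℕ} {w c : ℕ} (_ : G.Lf V E w c) {Y : Finset ℕ}
    (hY : Y ⊆ V.erase w) : w ∈ G.lift w c Y ↔ G.other w c ∈ Y := by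
  have hw : w ∉ Y := fun h => (Finset.mem_erase.1 (hY h)).1 rfl
  unfold lift
  split_ifs with h1
  · exact iff_of_true (Finset.mem_insert_self w Y) h1
  · exact iff_of_false hw h1

private theorem Lf.ends_c {V E : Finset ℕ} {w c : ℕ} (L : G.Lf V E w c) (S : Finset ℕ) :
    G.Sep S c ↔ ¬ (w ∈ S ↔ G.other w c ∈ S) := by
  unfold Sep other
  rcases L.tc with h | h
  · rw [if_pos h, h]
  · split_ifs with h1
    · rw [h1]
    · rw [h]
      exact not_congr ⟨fun h => h.symm, fun h => h.symm⟩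

private theorem Lf.lift_sub {V E : Finset ℕ} {w c : ℕ} (L : G.Lf V E w c) {Y : Finset ℕ}
    (hY : Y ⊆ V.erase w) : G.lift w c Y ⊆ V := by
  unfold lift
  split_ifs
  · intro y hy
    rcases Finset.mem_insert.1 hy with h | h
    · rw [h]; exact L.wV
    · exact (Finset.mem_erase.1 (hY h)).2
  · exact fun y hy => (Finset.mem_erase.1 (hY hy)).2

private theorem Lf.lift_ne {w c : ℕ} {Y : Finset ℕ}
    (hne : Y.Nonempty) : (G.lift w c Y).Nonempty := by
  unfold lift
  split_ifs
  · exact Finset.insert_nonempty _ _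
  · exact hne

private theorem Lf.lift_neV {V E : Finset ℕ} {w c : ℕ} (L : G.Lf V E w c) {Y : Finset ℕ}
    (hY : Y ⊆ V.erase w) (hne : Y ≠ V.erase w) : G.lift w c Y ≠ V := by
  intro h
  apply hne
  apply Finset.Subset.antisymm hY
  intro x hx
  obtain ⟨h1, h2⟩ := Finset.mem_erase.1 hx
  rw [← h] at h2
  exact (Lf.mem_lift h1).1 h2

private theorem Lf.not_sep_c {V E : Finset ℕ} {w c : ℕ} (L : G.Lf V E w c) {Y : Finset ℕ}
    (hY : Y ⊆ V.erase w) : ¬ G.Sep (G.lift w c Y) c := by
  rw [L.ends_c, not_not, L.w_lift hY]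
  exact (Lf.mem_lift (Finset.mem_erase.1 L.oV).1).symm

private theorem Lf.sep_lift {V E : Finset ℕ} {w c : ℕ} (L : G.Lf V E w c) {Y : Finset ℕ} {e : ℕ}
    (he : e ∈ E) (hec : e ≠ c) : G.Sep (G.lift w c Y) e ↔ G.Sep Y e := by
  obtain ⟨h1, h2⟩ := L.uniq e he hec
  unfold Sep
  rw [Lf.mem_lift h1, Lf.mem_lift h2]

private theorem Lf.sep_erase {V E : Finset ℕ} {w c : ℕ} (L : G.Lf V E w c) {Y : Finset ℕ} {e : ℕ}
    (he : e ∈ E) (hec : e ≠ c) : G.Sep (Y.erase w) e ↔ G.Sep Y e := by
  obtain ⟨h1, h2⟩ := L.uniq e he hec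
  unfold Sep
  rw [Finset.mem_erase, Finset.mem_erase]
  tauto

private theorem Lf.conn' {V E : Finset ℕ} {w c : ℕ} (L : G.Lf V E w c) :
    G.Conn (V.erase w) (E.erase c) := by
  refine ⟨⟨_, L.oV⟩, ?_, ?_⟩
  · intro e he
    obtain ⟨h1, h2⟩ := Finset.mem_erase.1 he
    obtain ⟨h3, h4⟩ := L.uniq e h2 h1
    obtain ⟨h5, h6⟩ := L.conn.ends e h2
    exact ⟨Finset.mem_erase.2 ⟨h3, h5⟩, Finset.mem_erase.2 ⟨h4, h6⟩⟩
  · intro Y hY hne hYne
    obtain ⟨e, he, hs⟩ := L.conn.cut (G.lift w c Y) (L.lift_sub hY)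
      (Lf.lift_ne hne) (L.lift_neV hY hYne)
    have hec : e ≠ c := by
      rintro rfl
      exact L.not_sep_c hY hs
    exact ⟨e, Finset.mem_erase.2 ⟨hec, he⟩, (L.sep_lift he hec).1 hs⟩

private theorem Lf.bridge_c {V E : Finset ℕ} {w c : ℕ} (L : G.Lf V E w c) : G.Bridge V E c := by
  refine ⟨{w}, Finset.singleton_subset_iff.2 L.wV, Finset.singleton_nonempty w, ?_, ?_⟩
  · intro h
    obtain ⟨h1, h2⟩ := Finset.mem_erase.1 L.oV
    rw [← h] at h2
    exact h1 (Finset.mem_singleton.1 h2)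
  · intro e he
    constructor
    · intro hs
      by_contra hec
      obtain ⟨h1, h2⟩ := L.uniq e he hec
      apply hs
      rw [Finset.mem_singleton, Finset.mem_singleton]
      exact iff_of_false h1 h2
    · rintro rfl
      rw [L.ends_c, Finset.mem_singleton, Finset.mem_singleton]
      intro h
      exact (Finset.mem_erase.1 L.oV).1 (h.1 rfl)

private theorem Lf.bridge_iff {V E : Finset ℕ} {w c : ℕ} (L : G.Lf V E w c) {e : ℕ} (he : e ∈ E)
    (hec : e ≠ c) : G.Bridge V E e ↔ G.Bridge (V.erase w) (E.erase c) e := by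
  obtain ⟨h1, h2⟩ := L.uniq e he hec
  obtain ⟨h3, h4⟩ := L.conn.ends e he
  constructor
  · rintro ⟨Y, hYV, hne, hYne, hY⟩
    have hs : ¬ (G.tl e ∈ Y ↔ G.hd e ∈ Y) := (hY e he).2 rfl
    refine ⟨Y.erase w, Finset.erase_subset_erase w hYV, ?_, ?_, ?_⟩
    · by_cases h5 : G.tl e ∈ Y
      · exact ⟨_, Finset.mem_erase.2 ⟨h1, h5⟩⟩
      · have h6 : G.hd e ∈ Y := by
          by_contra h7
          exact hs (iff_of_false h5 h7)
        exact ⟨_, Finset.mem_erase.2 ⟨h2, h6⟩⟩
    · intro h5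
      have h6 : G.tl e ∈ Y.erase w := by rw [h5]; exact Finset.mem_erase.2 ⟨h1, h3⟩
      have h7 : G.hd e ∈ Y.erase w := by rw [h5]; exact Finset.mem_erase.2 ⟨h2, h4⟩
      exact hs (iff_of_true (Finset.mem_erase.1 h6).2 (Finset.mem_erase.1 h7).2)
    · intro e' he'
      obtain ⟨h5, h6⟩ := Finset.mem_erase.1 he'
      rw [L.sep_erase h6 h5]
      exact hY e' h6
  · rintro ⟨Y, hYV, hne, hYne, hY⟩
    refine ⟨G.lift w c Y, L.lift_sub hYV, Lf.lift_ne hne,
      L.lift_neV hYV hYne, ?_⟩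
    intro e' he'
    by_cases h5 : e' = c
    · rw [h5]
      exact iff_of_false (L.not_sep_c hYV) (fun h6 => hec h6.symm)
    · rw [L.sep_lift he' h5]
      exact hY e' (Finset.mem_erase.2 ⟨h5, he'⟩)

private theorem Lf.dij_insert {V E : Finset ℕ} {w c : ℕ} (L : G.Lf V E w c) {J : Finset ℕ}
    (hJ : G.Dijoin (V.erase w) (E.erase c) J) : G.Dijoin V E (insert c J) := by
  refine ⟨?_, ?_⟩
  · intro e he
    rcases Finset.mem_insert.1 he with h | h
    · rw [h]; exact L.cE
    · exact (Finset.mem_erase.1 (hJ.sub h)).2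
  · intro Y hY hne hYne hdir
    by_cases hsc : G.Sep Y c
    · exact ⟨c, Finset.mem_insert_self c J, hsc⟩
    · rw [L.ends_c, not_not] at hsc
      obtain ⟨e, he, hs⟩ := hJ.hit (Y.erase w) (Finset.erase_subset_erase w hY)
        (by
          by_cases h1 : w ∈ Y
          · exact ⟨_, Finset.mem_erase.2 ⟨(Finset.mem_erase.1 L.oV).1, hsc.1 h1⟩⟩
          · rw [Finset.erase_eq_of_notMem h1]
            exact hne)
        (by
          intro h1
          apply hYne
          have h2 := L.oV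
          rw [← h1] at h2
          have h3 : w ∈ Y := hsc.2 (Finset.mem_erase.1 h2).2
          rw [← Finset.insert_erase h3, h1, Finset.insert_erase L.wV])
        (by
          intro e he h1
          obtain ⟨h2, h3⟩ := Finset.mem_erase.1 he
          exact Finset.mem_erase.2 ⟨(L.uniq e h3 h2).1, hdir e h3 (Finset.mem_erase.1 h1).2⟩)
      obtain ⟨h2, h3⟩ := Finset.mem_erase.1 (hJ.sub he)
      exact ⟨e, Finset.mem_insert_of_mem he, (L.sep_erase h3 h2).1 hs⟩

private theorem Lf.dij_erase {V E : Finset ℕ} {w c : ℕ} (L : G.Lf V E w c) {J : Finset ℕ}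
    (hJ : G.Dijoin V E J) : G.Dijoin (V.erase w) (E.erase c) (J.erase c) := by
  refine ⟨Finset.erase_subset_erase c hJ.sub, ?_⟩
  intro Y hY hne hYne hdir
  obtain ⟨e, he, hs⟩ := hJ.hit (G.lift w c Y) (L.lift_sub hY) (Lf.lift_ne hne)
    (L.lift_neV hY hYne) (by
      intro e he h1
      by_cases hec : e = c
      · have h2 := L.not_sep_c hY
        unfold Sep at h2
        rw [not_not] at h2
        rw [hec] at h1 ⊢
        exact h2.2 h1
      · obtain ⟨h3, h4⟩ := L.uniq e he hec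
        rw [Lf.mem_lift h4] at h1
        rw [Lf.mem_lift h3]
        exact hdir e (Finset.mem_erase.2 ⟨hec, he⟩) h1)
  have hec : e ≠ c := by
    rintro rfl
    exact L.not_sep_c hY hs
  exact ⟨e, Finset.mem_erase.2 ⟨hec, he⟩, (L.sep_lift (hJ.sub he) hec).1 hs⟩

variable (G)

private theorem lf_card {S : Finset ℕ} {c : ℕ} (hc : c ∈ S) (p : Bool) :
    ((S.filter (fun e => G.sg e = p)).card : ℤ) =
      (((S.erase c).filter (fun e => G.sg e = p)).card : ℤ) + if G.sg c = p then 1 else 0 := by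
  rw [Finset.filter_erase]
  split_ifs with h
  · have h1 : c ∈ S.filter (fun e => G.sg e = p) := Finset.mem_filter.2 ⟨hc, h⟩
    rw [← Finset.card_erase_add_one h1]
    push_cast
    ring
  · have h1 : c ∉ S.filter (fun e => G.sg e = p) := fun h2 => h (Finset.mem_filter.1 h2).2
    rw [Finset.erase_eq_of_notMem h1]
    ring

theorem leaf_step (V E : Finset ℕ) (h : G.Conn V E) (hnl : ∀ e ∈ E, G.tl e ≠ G.hd e)
    (h2 : 2 ≤ V.card) (w : ℕ) (hw : w ∈ V) (hdeg : (E.filter (fun e => G.Touch w e)).card ≤ 1) :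
    ∃ c ∈ E, G.Touch w c ∧ G.other w c ∈ V.erase w ∧ G.Conn (V.erase w) (E.erase c) ∧
      (∀ p, G.nb V E p = G.nb (V.erase w) (E.erase c) p) ∧
      ∀ J, G.MinDijoin V E J → G.MinDijoin (V.erase w) (E.erase c) (J.erase c) ∧
        ∀ p, G.nJ E J p = G.nJ (E.erase c) (J.erase c) p := by
  classical
  obtain ⟨c, hc, hs⟩ := h.cut {w} (Finset.singleton_subset_iff.2 hw) (Finset.singleton_nonempty w)
    (by
      intro h1
      rw [← h1, Finset.card_singleton] at h2
      omega)
  have hs' : ¬ (G.tl c = w ↔ G.hd c = w) := by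
    unfold Sep at hs
    rwa [Finset.mem_singleton, Finset.mem_singleton] at hs
  have htc : G.Touch w c := by
    unfold Touch
    by_contra hcon
    rw [not_or] at hcon
    exact hs' (iff_of_false hcon.1 hcon.2)
  have ho : G.other w c ∈ V.erase w := by
    unfold other
    obtain ⟨h3, h4⟩ := h.ends c hc
    split_ifs with h1
    · exact Finset.mem_erase.2 ⟨fun h5 => hs' (iff_of_true h1 h5), h4⟩
    · exact Finset.mem_erase.2 ⟨h1, h3⟩
  have L : G.Lf V E w c := by
    refine ⟨h, hw, hc, htc, ho, fun e he hec => ?_⟩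
    rw [← not_or]
    intro h1
    apply hec
    exact Finset.card_le_one.1 hdeg e (Finset.mem_filter.2 ⟨he, h1⟩) c
      (Finset.mem_filter.2 ⟨hc, htc⟩)
  refine ⟨c, hc, htc, ho, L.conn', ?_, ?_⟩
  · intro p
    unfold nb
    congr 2
    ext e
    rw [Finset.mem_filter, Finset.mem_filter, Finset.mem_erase]
    constructor
    · rintro ⟨h1, h3, h4⟩
      have hec : e ≠ c := by
        rintro rfl
        exact h4 L.bridge_c
      exact ⟨⟨hec, h1⟩, h3, fun h5 => h4 ((L.bridge_iff h1 hec).2 h5)⟩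
    · rintro ⟨⟨h1, h5⟩, h3, h4⟩
      exact ⟨h5, h3, fun h6 => h4 ((L.bridge_iff h5 h1).1 h6)⟩
  · intro J hJ
    have hcJ : c ∈ J := G.lf_bridge h hJ.dj hc L.bridge_c
    refine ⟨⟨L.dij_erase hJ.dj, fun J' hJ' => ?_⟩, fun p => ?_⟩
    · have h1 := hJ.min _ (L.dij_insert hJ')
      rw [Finset.card_insert_of_notMem (fun h3 => (Finset.mem_erase.1 (hJ'.sub h3)).1 rfl)] at h1
      rw [Finset.card_erase_of_mem hcJ]
      omega
    · unfold nJ
      rw [G.lf_card hc p, G.lf_card hcJ p]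
      ring

end MG

end LGAlt
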