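import Pool.Agent.LGAlt2.DiaOf

/-!
# List form and function form of histories

* `LH_iff` : the list form and the function form of histories: a list of holes at the level `j` corresponds to
  a function by `getD`; a function gives the list of its values at `0, …, str pc j`.
* `VL_eq` : the exponents are the same.
-/

namespace LGAlt

namespace LHist

/-- a list as a function -/
def fn (X : List Bool) (g : ℕ) : Bool := X.getD g false

lemma fn_zero (x : Bool) (xs : List Bool) : fn (x :: xs) 0 = x := by simp [fn]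

lemma fn_succ (x : Bool) (xs : List Bool) (g : ℕ) : fn (x :: xs) (g + 1) = fn xs g := by simp [fn]

lemma fn_one (x y : Bool) (xs : List Bool) : fn (x :: y :: xs) 1 = y := by simp [fn]

lemma fn_two (x y z : Bool) (xs : List Bool) : fn (x :: y :: z :: xs) 2 = z := by simp [fn]

lemma fn_ext : ∀ (n : ℕ) (X Y : List Bool), X.length = n → Y.length = n →
    ((∀ g < n, fn Y g = fn X g) ↔ Y = X)
  | 0, X, Y, hX, hY => by
    rw [List.length_eq_zero_iff] at hX hY
    subst hX; subst hY; simp
  | n + 1, x :: xs, y :: ys, hX, hY => by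
    have h := fn_ext n xs ys (by simpa using hX) (by simpa using hY)
    constructor
    · intro h'
      have h0 := h' 0 (by omega)
      rw [fn_zero, fn_zero] at h0
      have h1 : ys = xs := h.1 fun g hg => by
        have := h' (g + 1) (by omega)
        rwa [fn_succ, fn_succ] at this
      rw [h0, h1]
    · intro h'; rw [h']; intro g _; rfl
  | n + 1, [], _, hX, _ => by simp at hX
  | n + 1, _ :: _, [], _, hY => by simp at hY

lemma fn_ext' (n : ℕ) (X Y : List Bool) (hX : X.length = n + 1) (hY : Y.length = n + 1) :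
    (∀ g ≤ n, fn Y g = fn X g) ↔ Y = X := by
  rw [← fn_ext (n + 1) X Y hX hY]
  simp only [Nat.lt_succ_iff]

lemma all_succ (N : ℕ) (P : ℕ → Prop) : (∀ g ≤ N + 1, P g) ↔ P 0 ∧ ∀ g ≤ N, P (g + 1) := by
  constructor
  · intro h; exact ⟨h 0 (by omega), fun g hg => h (g + 1) (by omega)⟩
  · rintro ⟨h0, h1⟩ g hg
    rcases g with _ | g
    · exact h0
    · exact h1 g (by omega)

lemma all_lt_succ (N : ℕ) (P : ℕ → Prop) : (∀ g < N + 1, P g) ↔ P 0 ∧ ∀ g < N, P (g + 1) := by
  constructor
  · intro h; exact ⟨h 0 (by omega), fun g hg => h (g + 1) (by omega)⟩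
  · rintro ⟨h0, h1⟩ g hg
    rcases g with _ | g
    · exact h0
    · exact h1 g (by omega)

lemma fn_map (n : ℕ) (f : ℕ → Bool) (g : ℕ) (hg : g ≤ n) :
    fn ((List.range (n + 1)).map f) g = f g := by
  unfold fn
  rw [List.getD_eq_getElem?_getD, List.getElem?_map, List.getElem?_range (by omega)]
  rfl

/-- the marks of a crossing, in function form -/
def cf (k : ℕ) (mk : Mk) (N : ℕ) (X Y : ℕ → Bool) : Prop :=
  match mk with
  | .T => X (k + 1) = false ∧ ∀ g ≤ N, Y g = X g
  | .B => X (k + 1) = true ∧ ∀ g ≤ N, Y g = X g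
  | .L => X k = true ∧ X (k + 1) = false ∧ Y k = false ∧ Y (k + 1) = true ∧
      ∀ g ≤ N, g ≠ k → g ≠ k + 1 → Y g = X g
  | .R => X (k + 2) = true ∧ X (k + 1) = false ∧ Y (k + 2) = false ∧ Y (k + 1) = true ∧
      ∀ g ≤ N, g ≠ k + 2 → g ≠ k + 1 → Y g = X g

lemma cf_zero (mk : Mk) (p x y p' x' y' : Bool) (xs xs' : List Bool)
    (h : xs'.length = xs.length) :
    cf 0 mk (xs.length + 2) (fn (p :: x :: y :: xs)) (fn (p' :: x' :: y' :: xs')) ↔
      loc1 mk p x y p' x' y' ∧ xs' = xs := by
  have e := fn_ext xs.length xs xs' rfl h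
  have e1 : (∀ g ≤ xs.length, fn (y' :: xs') g = fn (y :: xs) g) ↔ y' :: xs' = y :: xs :=
    fn_ext' xs.length (y :: xs) (y' :: xs') (by simp) (by simp [h])
  have e2 : (∀ g ≤ xs.length, g ≠ 0 → fn (y' :: xs') g = fn (y :: xs) g) ↔ xs' = xs := by
    rw [← e]
    constructor
    · intro h' g hg
      have := h' (g + 1) (by omega) (by omega)
      rwa [fn_succ, fn_succ] at this
    · intro h' g hg hg0
      obtain ⟨g, rfl⟩ : ∃ g', g = g' + 1 := ⟨g - 1, by omega⟩
      rw [fn_succ, fn_succ]
      exact h' g (by omega)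
  cases mk
  · show (fn (p :: x :: y :: xs) (0 + 1) = false ∧ ∀ g ≤ xs.length + 2, _) ↔ _
    rw [fn_ext' (xs.length + 2) _ _ (by simp) (by simp [h])]
    simp only [loc1, fn_succ, fn_zero, List.cons.injEq]
    tauto
  · show (fn (p :: x :: y :: xs) (0 + 1) = true ∧ ∀ g ≤ xs.length + 2, _) ↔ _
    rw [fn_ext' (xs.length + 2) _ _ (by simp) (by simp [h])]
    simp only [loc1, fn_succ, fn_zero, List.cons.injEq]
    tauto
  · simp only [cf, loc1]
    rw [all_succ, all_succ]
    simp only [fn_succ, fn_zero]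
    have e3 : (∀ g ≤ xs.length, g + 1 + 1 ≠ 0 → g + 1 + 1 ≠ 0 + 1 →
        fn (y' :: xs') g = fn (y :: xs) g) ↔ y' :: xs' = y :: xs := by
      rw [← e1]
      constructor
      · intro h' g hg; exact h' g hg (by omega) (by omega)
      · intro h' g hg _ _; exact h' g hg
    rw [e3]
    simp only [List.cons.injEq]
    tauto
  · simp only [cf, loc1]
    rw [all_succ, all_succ]
    simp only [fn_succ, fn_zero]
    have e3 : (∀ g ≤ xs.length, g + 1 + 1 ≠ 0 + 2 → g + 1 + 1 ≠ 0 + 1 →
        fn (y' :: xs') g = fn (y :: xs) g) ↔ xs' = xs := by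
      rw [← e2]
      constructor
      · intro h' g hg hg0; exact h' g hg (by omega) (by omega)
      · intro h' g hg hg0 _; exact h' g hg (by omega)
    rw [e3]
    simp only [zero_add]
    tauto

lemma cf_succ (mk : Mk) (k N : ℕ) (z z' : Bool) (xs xs' : List Bool) :
    cf (k + 1) mk (N + 1) (fn (z :: xs)) (fn (z' :: xs')) ↔ z' = z ∧ cf k mk N (fn xs) (fn xs') := by
  cases mk
  · simp only [cf]
    rw [all_succ]
    simp only [fn_succ, fn_zero]
    tauto
  · simp only [cf]
    rw [all_succ]
    simp only [fn_succ, fn_zero]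
    tauto
  · simp only [cf]
    rw [all_succ]
    simp only [fn_succ, fn_zero, ne_eq, Nat.add_right_cancel_iff]
    have e0 : ¬ (0 = k + 1) := by omega
    have e1 : ¬ (0 = k + 1 + 1) := by omega
    simp only [e0, e1, not_false_eq_true, true_implies]
    tauto
  · simp only [cf]
    rw [all_succ]
    have ek : k + 1 + 2 = k + 2 + 1 := by omega
    simp only [ek, fn_succ, fn_zero, ne_eq, Nat.add_right_cancel_iff]
    have e0 : ¬ (0 = k + 2 + 1) := by omega
    have e1 : ¬ (0 = k + 1 + 1) := by omega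
    simp only [e0, e1, not_false_eq_true, true_implies]
    tauto

lemma cstep_iff (mk : Mk) : ∀ (k N : ℕ) (X Y : List Bool), X.length = N + 1 → k + 2 ≤ N →
    (cstep k mk X Y ↔ Y.length = N + 1 ∧ cf k mk N (fn X) (fn Y))
  | 0, N, p :: x :: y :: xs, p' :: x' :: y' :: xs', hX, hk => by
    have hN : N = xs.length + 2 := by simp at hX; omega
    subst hN
    simp only [cstep]
    constructor
    · rintro ⟨h1, h2⟩
      subst h2
      exact ⟨by simp, (cf_zero mk p x y p' x' y' xs' xs' rfl).2 ⟨h1, rfl⟩⟩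
    · rintro ⟨h1, h2⟩
      exact (cf_zero mk p x y p' x' y' xs xs' (by simpa using h1)).1 h2
  | k + 1, N, z :: xs, z' :: xs', hX, hk => by
    obtain ⟨N, rfl⟩ : ∃ N', N = N' + 1 := ⟨N - 1, by omega⟩
    simp only [cstep]
    rw [cstep_iff mk k N xs xs' (by simpa using hX) (by omega), cf_succ]
    simp only [List.length_cons, Nat.add_right_cancel_iff]
    tauto
  | 0, N, [], _, hX, hk => by simp at hX
  | 0, N, [_], _, hX, hk => by simp at hX; omega
  | 0, N, [_, _], _, hX, hk => by simp at hX; omega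
  | 0, N, _ :: _ :: _ :: _, [], hX, hk => by simp [cstep]
  | 0, N, _ :: _ :: _ :: _, [_], hX, hk => by
    simp only [cstep, List.length_cons, List.length_nil, false_iff, not_and]
    intro h; omega
  | 0, N, _ :: _ :: _ :: _, [_, _], hX, hk => by
    simp only [cstep, List.length_cons, List.length_nil, false_iff, not_and]
    intro h; omega
  | k + 1, N, [], _, hX, hk => by simp at hX
  | k + 1, N, _ :: _, [], hX, hk => by simp [cstep]

/-- a cup in function form -/
def uf (k N : ℕ) (X Y : ℕ → Bool) : Prop :=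
  Y (k + 1) = true ∧ (Y k).toNat + (Y (k + 2)).toNat = (X k).toNat ∧
      (∀ g < k, Y g = X g) ∧ ∀ g, k < g → g ≤ N → Y (g + 2) = X g

lemma custep_iff : ∀ (k N : ℕ) (X Y : List Bool), X.length = N + 1 → k ≤ N →
    (custep k X Y ↔ Y.length = N + 2 + 1 ∧ uf k N (fn X) (fn Y))
  | 0, N, x :: xs, l :: f :: r :: xs', hX, hk => by
    have hN : N = xs.length := by simp at hX; omega
    subst hN
    simp only [custep, uf, fn_succ, fn_zero, zero_add]
    have e2 : xs'.length = xs.length →
        ((∀ g, 0 < g → g ≤ xs.length → fn (r :: xs') g = fn (x :: xs) g) ↔ xs' = xs) := by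
      intro h
      rw [← fn_ext xs.length xs xs' rfl h]
      constructor
      · intro h' g hg
        have := h' (g + 1) (by omega) (by omega)
        rwa [fn_succ, fn_succ] at this
      · intro h' g hg0 hg
        obtain ⟨g, rfl⟩ : ∃ g', g = g' + 1 := ⟨g - 1, by omega⟩
        rw [fn_succ, fn_succ]
        exact h' g (by omega)
    constructor
    · rintro ⟨h1, h2, h3⟩
      refine ⟨by simp [h3], h1, h2, by simp, ?_⟩
      exact (e2 (by rw [h3])).2 h3
    · rintro ⟨h0, h1, h2, _, h3⟩
      exact ⟨h1, h2, (e2 (by simpa using h0)).1 h3⟩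
  | k + 1, N, z :: xs, z' :: xs', hX, hk => by
    obtain ⟨N, rfl⟩ : ∃ N', N = N' + 1 := ⟨N - 1, by omega⟩
    simp only [custep]
    rw [custep_iff k N xs xs' (by simpa using hX) (by omega)]
    simp only [uf]
    rw [all_lt_succ]
    have ek : k + 1 + 2 = k + 2 + 1 := by omega
    simp only [ek, fn_succ, fn_zero, List.length_cons]
    have e3 : (∀ g, k + 1 < g → g ≤ N + 1 → fn xs' (g + 1) = fn (z :: xs) g) ↔
        ∀ g, k < g → g ≤ N → fn xs' (g + 2) = fn xs g := by
      constructor
      · intro h g h1 h2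
        have := h (g + 1) (by omega) (by omega)
        rwa [fn_succ] at this
      · intro h g h1 h2
        obtain ⟨g, rfl⟩ : ∃ g', g = g' + 1 := ⟨g - 1, by omega⟩
        rw [fn_succ]
        exact h g (by omega) (by omega)
    rw [e3]
    have e4 : xs'.length + 1 = N + 1 + 2 + 1 ↔ xs'.length = N + 2 + 1 := by omega
    rw [e4]
    tauto
  | 0, N, [], _, hX, hk => by simp at hX
  | 0, N, _ :: _, [], hX, hk => by simp [custep]
  | 0, N, _ :: _, [_], hX, hk => by simp [custep]
  | 0, N, _ :: _, [_, _], hX, hk => by simp [custep]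
  | k + 1, N, [], _, hX, hk => by simp at hX
  | k + 1, N, _ :: _, [], hX, hk => by simp [custep]

/-- a cap in function form -/
def af (k N : ℕ) (X Y : ℕ → Bool) : Prop :=
  X (k + 1) = false ∧ (Y k).toNat + 1 = (X k).toNat + (X (k + 2)).toNat ∧
      (∀ g < k, Y g = X g) ∧ ∀ g, k < g → g + 2 ≤ N → Y g = X (g + 2)

lemma castep_iff : ∀ (k N : ℕ) (X Y : List Bool), X.length = N + 1 → k + 2 ≤ N →
    (castep k X Y ↔ Y.length = N - 2 + 1 ∧ af k N (fn X) (fn Y))
  | 0, N, p :: x :: y :: xs, z :: xs', hX, hk => by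
    have hN : N = xs.length + 2 := by simp at hX; omega
    subst hN
    simp only [castep, af, fn_succ, fn_zero, zero_add]
    have e2 : xs'.length = xs.length →
        ((∀ g, 0 < g → g + 2 ≤ xs.length + 2 → fn (z :: xs') g = fn (y :: xs) g) ↔ xs' = xs) := by
      intro h
      rw [← fn_ext xs.length xs xs' rfl h]
      constructor
      · intro h' g hg
        have := h' (g + 1) (by omega) (by omega)
        rwa [fn_succ, fn_succ] at this
      · intro h' g hg0 hg
        obtain ⟨g, rfl⟩ : ∃ g', g = g' + 1 := ⟨g - 1, by omega⟩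
        rw [fn_succ, fn_succ]
        exact h' g (by omega)
    constructor
    · rintro ⟨h1, h2, h3⟩
      refine ⟨by simp [h3], h1, h2, by simp, ?_⟩
      exact (e2 (by rw [h3])).2 h3
    · rintro ⟨h0, h1, h2, _, h3⟩
      exact ⟨h1, h2, (e2 (by simpa using h0)).1 h3⟩
  | k + 1, N, z :: xs, z' :: xs', hX, hk => by
    obtain ⟨N, rfl⟩ : ∃ N', N = N' + 1 := ⟨N - 1, by omega⟩
    simp only [castep]
    rw [castep_iff k N xs xs' (by simpa using hX) (by omega)]
    simp only [af]
    rw [all_lt_succ]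
    have ek : k + 1 + 2 = k + 2 + 1 := by omega
    simp only [ek, fn_succ, fn_zero, List.length_cons]
    have e3 : (∀ g, k + 1 < g → g + 2 ≤ N + 1 → fn (z' :: xs') g = fn xs (g + 1)) ↔
        ∀ g, k < g → g + 2 ≤ N → fn xs' g = fn xs (g + 2) := by
      constructor
      · intro h g h1 h2
        have := h (g + 1) (by omega) (by omega)
        rwa [fn_succ] at this
      · intro h g h1 h2
        obtain ⟨g, rfl⟩ : ∃ g', g = g' + 1 := ⟨g - 1, by omega⟩
        rw [fn_succ]
        exact h g (by omega) (by omega)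
    rw [e3]
    have e4 : xs'.length + 1 = N + 1 - 2 + 1 ↔ xs'.length = N - 2 + 1 := by omega
    rw [e4]
    tauto
  | 0, N, [], _, hX, hk => by simp at hX
  | 0, N, [_], _, hX, hk => by simp at hX; omega
  | 0, N, [_, _], _, hX, hk => by simp at hX; omega
  | 0, N, _ :: _ :: _ :: _, [], hX, hk => by simp [castep]
  | k + 1, N, [], _, hX, hk => by simp at hX
  | k + 1, N, _ :: _, [], hX, hk => by simp [castep]

/-- a root in function form -/
lemma rstep_iff : ∀ (k N : ℕ) (X Y : List Bool), X.length = N + 1 → k < N →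
    (rstep k X Y ↔ Y.length = N + 1 ∧ fn X k = true ∧ fn X (k + 1) = true ∧
      fn Y k = false ∧ fn Y (k + 1) = false ∧ ∀ g ≤ N, g ≠ k → g ≠ k + 1 → fn Y g = fn X g)
  | 0, N, x :: y :: xs, x' :: y' :: xs', hX, hk => by
    have hN : N = xs.length + 1 := by simp at hX; omega
    subst hN
    simp only [rstep, fn_succ, fn_zero, zero_add]
    have e2 : xs'.length = xs.length →
        ((∀ g ≤ xs.length + 1, g ≠ 0 → g ≠ 1 → fn (x' :: y' :: xs') g = fn (x :: y :: xs) g) ↔
          xs' = xs) := by
      intro h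
      rw [← fn_ext xs.length xs xs' rfl h]
      constructor
      · intro h' g hg
        have := h' (g + 2) (by omega) (by omega) (by omega)
        rwa [fn_succ, fn_succ, fn_succ, fn_succ] at this
      · intro h' g hg hg0 hg1
        obtain ⟨g, rfl⟩ : ∃ g', g = g' + 1 + 1 := ⟨g - 2, by omega⟩
        rw [fn_succ, fn_succ, fn_succ, fn_succ]
        exact h' g (by omega)
    constructor
    · rintro ⟨h1, h2, h3, h4, h5⟩
      exact ⟨by simp [h5], h1, h2, h3, h4, (e2 (by rw [h5])).2 h5⟩
    · rintro ⟨h0, h1, h2, h3, h4, h5⟩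
      exact ⟨h1, h2, h3, h4, (e2 (by simpa using h0)).1 h5⟩
  | k + 1, N, z :: xs, z' :: xs', hX, hk => by
    obtain ⟨N, rfl⟩ : ∃ N', N = N' + 1 := ⟨N - 1, by omega⟩
    simp only [rstep]
    rw [rstep_iff k N xs xs' (by simpa using hX) (by omega), all_succ]
    simp only [fn_succ, fn_zero, List.length_cons, ne_eq, Nat.add_right_cancel_iff]
    have e0 : ¬ (0 = k + 1) := by omega
    have e1 : ¬ (0 = k + 1 + 1) := by omega
    simp only [e0, e1, not_false_eq_true, true_implies]
    tauto
  | 0, N, [], _, hX, hk => by simp at hX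
  | 0, N, [_], _, hX, hk => by simp at hX; omega
  | 0, N, _ :: _ :: _, [], hX, hk => by simp [rstep]
  | 0, N, _ :: _ :: _, [_], hX, hk => by
    simp only [rstep, List.length_cons, List.length_nil, false_iff, not_and]
    intro h; omega
  | k + 1, N, [], _, hX, hk => by simp at hX
  | k + 1, N, _ :: _, [], hX, hk => by simp [rstep]

/-- the piece fits -/
def okp (p : Piece) (N : ℕ) : Prop :=
  match p with
  | .cross k _ => k + 2 ≤ N
  | .cup k _ => k ≤ N
  | .cap k _ => k + 2 ≤ N

/-- the number of strands after the piece -/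
def nxt (p : Piece) (N : ℕ) : ℕ :=
  match p with
  | .cross _ _ => N
  | .cup _ _ => N + 2
  | .cap _ _ => N - 2

lemma str_succ (pc : ℕ → Piece) (j : ℕ) : str pc (j + 1) = nxt (pc j) (str pc j) := by
  rw [str]; cases pc j <;> rfl

lemma pstep_iff (p : Piece) (act : Prop) (mk : Mk) (N : ℕ) (X Y : List Bool)
    (hX : X.length = N + 1) (hp : okp p N) :
    pstep p act mk X Y ↔ Y.length = nxt p N + 1 ∧ stp p act mk N (fn X) (fn Y) := by
  cases p with
  | cross k pos =>
    have e1 := cstep_iff mk k N X Y hX hp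
    have e2 : stp (.cross k pos) act mk N (fn X) (fn Y) ↔
        (act → cf k mk N (fn X) (fn Y)) ∧ (¬ act → ∀ g ≤ N, fn Y g = fn X g) := by
      simp only [stp]; cases mk <;> rfl
    rw [e2]
    show ((act → cstep k mk X Y) ∧ (¬ act → Y = X)) ↔ _
    by_cases ha : act
    · simp only [ha, true_implies, not_true_eq_false, false_implies, and_true]
      exact e1
    · simp only [ha, false_implies, not_false_eq_true, true_implies, true_and]
      constructor
      · intro h; subst h; exact ⟨hX, fun g _ => rfl⟩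
      · rintro ⟨h1, h2⟩
        exact (fn_ext' N X Y hX h1).1 h2
  | cup k s => exact custep_iff k N X Y hX hp
  | cap k s => exact castep_iff k N X Y hX hp

lemma stp_congr {p : Piece} {act : Prop} {mk : Mk} {N : ℕ} {X X' Y Y' : ℕ → Bool}
    (hp : okp p N) (hX : ∀ g ≤ N, X g = X' g) (hY : ∀ g ≤ nxt p N, Y g = Y' g)
    (h : stp p act mk N X Y) : stp p act mk N X' Y' := by
  cases p with
  | cross k pos =>
    simp only [okp] at hp
    simp only [nxt] at hY
    have a0 := hX k (by omega)
    have a1 := hX (k + 1) (by omega)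
    have a2 := hX (k + 2) (by omega)
    have b0 := hY k (by omega)
    have b1 := hY (k + 1) (by omega)
    have b2 := hY (k + 2) (by omega)
    simp only [stp] at h ⊢
    refine ⟨fun ha => ?_, fun ha g hg => ?_⟩
    · have h1 := h.1 ha
      cases mk
      · exact ⟨a1 ▸ h1.1, fun g hg => by rw [← hX g hg, ← hY g hg]; exact h1.2 g hg⟩
      · exact ⟨a1 ▸ h1.1, fun g hg => by rw [← hX g hg, ← hY g hg]; exact h1.2 g hg⟩
      · obtain ⟨c1, c2, c3, c4, c5⟩ := h1
        exact ⟨a0 ▸ c1, a1 ▸ c2, b0 ▸ c3, b1 ▸ c4, fun g hg hg1 hg2 => by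
          rw [← hX g hg, ← hY g hg]; exact c5 g hg hg1 hg2⟩
      · obtain ⟨c1, c2, c3, c4, c5⟩ := h1
        exact ⟨a2 ▸ c1, a1 ▸ c2, b2 ▸ c3, b1 ▸ c4, fun g hg hg1 hg2 => by
          rw [← hX g hg, ← hY g hg]; exact c5 g hg hg1 hg2⟩
    · rw [← hX g hg, ← hY g hg]; exact h.2 ha g hg
  | cup k s =>
    simp only [okp] at hp
    simp only [nxt] at hY
    simp only [stp] at h ⊢
    obtain ⟨c1, c2, c3, c4⟩ := h
    refine ⟨?_, ?_, ?_, ?_⟩
    · rw [← hY (k + 1) (by omega)]; exact c1
    · rw [← hY k (by omega), ← hY (k + 2) (by omega), ← hX k hp]; exact c2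
    · intro g hg
      rw [← hY g (by omega), ← hX g (by omega)]; exact c3 g hg
    · intro g hg hg'
      rw [← hY (g + 2) (by omega), ← hX g (by omega)]; exact c4 g hg hg'
  | cap k s =>
    simp only [okp] at hp
    simp only [nxt] at hY
    simp only [stp] at h ⊢
    obtain ⟨c1, c2, c3, c4⟩ := h
    refine ⟨?_, ?_, ?_, ?_⟩
    · rw [← hX (k + 1) (by omega)]; exact c1
    · rw [← hY k (by omega), ← hX (k + 2) (by omega), ← hX k (by omega)]; exact c2
    · intro g hg
      rw [← hY g (by omega), ← hX g (by omega)]; exact c3 g hg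
    · intro g hg hg'
      rw [← hY g (by omega), ← hX (g + 2) (by omega)]; exact c4 g hg hg'

lemma rs_iff (r : ℕ × ℕ) (j N : ℕ) (X Y : List Bool) (hX : X.length = N + 1)
    (hr : r.1 = j → r.2 < N) :
    (if r.1 = j then rstep r.2 X Y else Y = X) ↔ Y.length = N + 1 ∧
      (r.1 = j → fn X r.2 = true ∧ fn X (r.2 + 1) = true) ∧
      ∀ g ≤ N, fn Y g = abr r j (fn X) g := by
  by_cases h : r.1 = j
  · have hN := hr h
    simp only [h, if_true, true_implies]
    rw [rstep_iff r.2 N X Y hX hN]
    constructor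
    · rintro ⟨c0, c1, c2, c3, c4, c5⟩
      refine ⟨c0, ⟨c1, c2⟩, fun g hg => ?_⟩
      unfold abr
      by_cases hg' : g = r.2 ∨ g = r.2 + 1
      · rw [if_pos ⟨h.symm, hg'⟩]
        rcases hg' with rfl | rfl
        · exact c3
        · exact c4
      · rw [if_neg (fun h' => hg' h'.2)]
        exact c5 g hg (fun h' => hg' (Or.inl h')) (fun h' => hg' (Or.inr h'))
    · rintro ⟨c0, ⟨c1, c2⟩, c3⟩
      refine ⟨c0, c1, c2, ?_, ?_, ?_⟩
      · rw [c3 r.2 (by omega)]; unfold abr; rw [if_pos ⟨h.symm, Or.inl rfl⟩]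
      · rw [c3 (r.2 + 1) (by omega)]; unfold abr; rw [if_pos ⟨h.symm, Or.inr rfl⟩]
      · intro g hg h1 h2
        rw [c3 g hg]; unfold abr
        rw [if_neg (by rintro ⟨_, h' | h'⟩; exacts [h1 h', h2 h'])]
  · simp only [h, if_false, false_implies, true_and]
    have e : ∀ g, abr r j (fn X) g = fn X g := by
      intro g; unfold abr; rw [if_neg]; rintro ⟨h1, _⟩; exact h h1.symm
    simp only [e]
    constructor
    · intro h'; subst h'; exact ⟨hX, fun _ _ => rfl⟩
    · rintro ⟨h1, h2⟩; exact (fn_ext' N X Y hX h1).1 h2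

lemma abr_congr (r : ℕ × ℕ) (j : ℕ) {X X' : ℕ → Bool} {g : ℕ} (h : X g = X' g) :
    abr r j X g = abr r j X' g := by
  unfold abr; rw [h]

lemma main (pc : ℕ → Piece) (U : Finset ℕ) (r : ℕ × ℕ) (m : ℕ → Mk) (n : ℕ)
    (hn : str pc n = 1) (hr1 : r.1 ≤ n) (hr2 : r.2 < str pc r.1)
    (hok : ∀ i < n, okp (pc i) (str pc i)) :
    ∀ (w : List Piece) (j : ℕ) (X : List Bool), j + w.length = n →
      (∀ i (hi : i < w.length), w[i] = pc (j + i)) → X.length = str pc j + 1 →
      (LH U r j w X m ↔ ∃ F : ℕ → ℕ → Bool, (∀ g ≤ str pc j, F j g = fn X g) ∧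
        (j ≤ r.1 → F r.1 r.2 = true ∧ F r.1 (r.2 + 1) = true) ∧
        (∀ i, j ≤ i → i < n → stp (pc i) (i ∈ U) (m i) (str pc i) (abr r i (F i)) (F (i + 1))) ∧
        abr r n (F n) 0 = false ∧ abr r n (F n) 1 = false) := by
  intro w
  induction w with
  | nil =>
    intro j X hj _ hX
    have hj' : j = n := by simpa using hj
    subst hj'
    have hrs : ∀ Y, _ := fun Y => rs_iff r j (str pc j) X Y hX (fun h => h ▸ hr2)
    simp only [LH]
    constructor
    · rintro ⟨X₁, h1, rfl⟩
      obtain ⟨c0, c1, c2⟩ := (hrs _).1 h1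
      refine ⟨fun _ => fn X, fun g _ => rfl, fun h => c1 (le_antisymm hr1 h), ?_, ?_, ?_⟩
      · intro i h h'; omega
      · rw [← c2 0 (by omega)]; rfl
      · rw [← c2 1 (by omega)]; rfl
    · rintro ⟨F, c1, c2, _, c3, c4⟩
      refine ⟨[false, false], (hrs _).2 ⟨by simp [hn], fun h => ?_, fun g hg => ?_⟩, rfl⟩
      · have h' := c2 (le_of_eq h.symm)
        rw [h] at h' hr2
        rw [c1 _ (by omega), c1 _ (by omega)] at h'
        exact h'
      · rw [hn] at hg
        rcases g with _ | g
        · rw [← abr_congr r j (c1 0 (by omega)), c3]; rfl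
        · obtain rfl : g = 0 := by omega
          rw [← abr_congr r j (c1 1 (by omega)), c4]; rfl
  | cons p w ih =>
    intro j X hj hw hX
    have hjn : j < n := by simp at hj; omega
    have hpc : p = pc j := hw 0 (by simp)
    have hrs : ∀ Y, _ := fun Y => rs_iff r j (str pc j) X Y hX (fun h => h ▸ hr2)
    have hokj := hok j hjn
    have hs := str_succ pc j
    have ih' : ∀ Y : List Bool, _ := fun Y => ih (j + 1) Y (by simp at hj; omega) (by
      intro i hi
      have := hw (i + 1) (by simpa using hi)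
      rw [show j + 1 + i = j + (i + 1) by omega]
      simpa using this)
    simp only [LH]
    subst hpc
    constructor
    · rintro ⟨X₁, Y, h1, h2, h3⟩
      obtain ⟨c0, c1, c2⟩ := (hrs _).1 h1
      rw [pstep_iff (pc j) (j ∈ U) (m j) (str pc j) X₁ Y c0 hokj] at h2
      obtain ⟨d0, d1⟩ := h2
      obtain ⟨F', f0, f1, f2, f3⟩ := (ih' Y (by rw [d0, hs])).1 h3
      refine ⟨fun i => if i ≤ j then fn X else F' i, fun g _ => by simp, ?_, ?_, ?_⟩
      · intro h
        rcases Nat.eq_or_lt_of_le h with h | h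
        · have h4 := c1 h.symm
          simpa [← h] using h4
        · have h4 := f1 h
          have h5 : ¬ r.1 ≤ j := by omega
          simpa [h5] using h4
      · intro i hi hin
        rcases Nat.eq_or_lt_of_le hi with h | h
        · subst h
          have h5 : ¬ (j + 1 ≤ j) := by omega
          simp only [le_refl, if_true, h5, if_false]
          refine stp_congr hokj ?_ ?_ d1
          · intro g hg; exact c2 g hg
          · intro g hg; exact (f0 g (by rw [hs]; exact hg)).symm
        · have h5 : ¬ i ≤ j := by omega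
          have h6 : ¬ i + 1 ≤ j := by omega
          simp only [h5, h6, if_false]
          exact f2 i h hin
      · have h5 : ¬ n ≤ j := by omega
        simp only [h5, if_false]
        exact f3
    · rintro ⟨F, f0, f1, f2, f3⟩
      refine ⟨(List.range (str pc j + 1)).map (abr r j (fn X)),
        (List.range (str pc (j + 1) + 1)).map (F (j + 1)), ?_, ?_, ?_⟩
      · refine (hrs _).2 ⟨by simp, fun h => ?_, fun g hg => fn_map _ _ g hg⟩
        have h' := f1 (le_of_eq h.symm)
        rw [h] at h' hr2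
        rw [f0 _ (by omega), f0 _ (by omega)] at h'
        exact h'
      · rw [pstep_iff (pc j) (j ∈ U) (m j) (str pc j) _ _ (by simp) hokj]
        refine ⟨by simp [hs], ?_⟩
        refine stp_congr hokj ?_ ?_ (f2 j le_rfl hjn)
        · intro g hg
          rw [fn_map _ _ g hg]
          exact abr_congr r j (f0 g hg)
        · intro g hg
          rw [fn_map _ _ g (by rw [hs]; exact hg)]
      · refine (ih' _ (by simp)).2 ⟨F, ?_, ?_, ?_, f3⟩
        · intro g hg; rw [fn_map _ _ g hg]
        · intro h; exact f1 (by omega)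
        · intro i hi hin; exact f2 i (by omega) hin

lemma ostep_ok {p : Piece} {x y : List Bool} (h : OStep p x y) : okp p x.length := by
  cases h with
  | cross l₁ l₂ pos => simp [okp]
  | cup l₁ l₂ s => simp [okp]
  | cap l₁ l₂ s => simp [okp]

lemma osl_length (pc : ℕ → Piece) (j : ℕ) : (osl pc j).length = str pc j := by simp [osl]

lemma ok_of_path {w : List Piece} (hw : OPath w [true] [true]) :
    ∀ i < w.length, okp (pcOf w i) (str (pcOf w) i) := by
  intro i hi
  have h := (levels hw i (le_of_lt hi)).2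
  have e : w.drop i = w[i] :: w.drop (i + 1) := (List.getElem_cons_drop hi).symm
  rw [e] at h
  have e2 : pcOf w i = w[i] := by
    unfold pcOf; rw [List.getD_eq_getElem?_getD, List.getElem?_eq_getElem hi]; rfl
  rw [e2, ← osl_length]
  cases h with
  | cons _ _ _ y _ h1 _ => exact ostep_ok h1

lemma str_end {w : List Piece} (hw : OPath w [true] [true]) : str (pcOf w) w.length = 1 := by
  have h := (levels hw w.length le_rfl).2
  rw [List.drop_length] at h
  generalize hz : osl (pcOf w) w.length = z at h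
  have hl := osl_length (pcOf w) w.length
  rw [hz] at hl
  rw [← hl]
  cases h with
  | nil => rfl

end LHist

open LHist in
theorem LH_iff {w : List Piece} (hw : OPath w [true] [true]) (U : Finset ℕ) (r : ℕ × ℕ)
    (hr : r.1 ≤ w.length ∧ r.2 < str (pcOf w) r.1) (m : ℕ → Mk) :
    LH U r 0 w [true, true] m ↔ Hist (pcOf w) w.length U r m := by
  rw [main (pcOf w) U r m w.length (str_end hw) hr.1 hr.2 (ok_of_path hw) w 0 [true, true]
    (by simp) (by
      intro i hi
      unfold pcOf
      rw [zero_add, List.getD_eq_getElem?_getD, List.getElem?_eq_getElem hi]; rfl) (by simp [str])]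
  unfold Hist
  constructor
  · rintro ⟨F, h1, h2, h3, h4⟩
    exact ⟨F, h1 0 (by simp), h1 1 (by simp [str]), (h2 (by omega)).1, (h2 (by omega)).2,
      fun j hj => h3 j (by omega) hj, h4⟩
  · rintro ⟨F, h1, h2, h3, h4, h5, h6⟩
    refine ⟨F, ?_, fun _ => ⟨h3, h4⟩, fun j _ hj => h5 j hj, h6⟩
    intro g hg
    rcases g with _ | g
    · rw [h1]; rfl
    · have hg' : g = 0 := by simp [str] at hg; omega
      subst hg'
      rw [h2]; rfl

namespace LHist

lemma VL_sum (U : Finset ℕ) (m₁ m₂ : ℕ → Mk) : ∀ (w : List Piece) (j : ℕ),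
    VL U j w m₁ m₂ = ∑ i ∈ Finset.range w.length,
      (if (pcOf w i).isX = true ∧ j + i ∈ U then cv (pcOf w i).pos (m₁ (j + i)) (m₂ (j + i))
        else 0)
  | [], j => by simp [VL]
  | p :: w, j => by
    rw [VL, VL_sum U m₁ m₂ w (j + 1), List.length_cons, Finset.sum_range_succ', add_comm]
    congr 1
    refine Finset.sum_congr rfl fun i _ => ?_
    have e : pcOf (p :: w) (i + 1) = pcOf w i := by simp [pcOf]
    rw [e, show j + (i + 1) = j + 1 + i by omega]

end LHist

open LHist in
theorem VL_eq (w : List Piece) (U : Finset ℕ)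
    (hU : ∀ j ∈ U, j < w.length ∧ (pcOf w j).isX = true) (m₁ m₂ : ℕ → Mk) :
    VL U 0 w m₁ m₂ = Val (pcOf w) U m₁ m₂ := by
  rw [VL_sum]
  simp only [zero_add]
  have e1 : ∑ i ∈ Finset.range w.length,
      (if (pcOf w i).isX = true ∧ i ∈ U then cv (pcOf w i).pos (m₁ i) (m₂ i) else 0) =
      ∑ i ∈ U, cv (pcOf w i).pos (m₁ i) (m₂ i) := by
    rw [← Finset.sum_filter]
    refine Finset.sum_congr ?_ fun _ _ => rfl
    ext i
    simp only [Finset.mem_filter, Finset.mem_range]
    constructor
    · exact fun h => h.2.2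
    · exact fun h => ⟨(hU i h).1, (hU i h).2, h⟩
  rw [e1]
  have hub : ∀ c mk, ub (pcOf w) c mk = ubp (pcOf w c).pos mk := by
    intro c mk; cases mk <;> rfl
  have hvb : ∀ c mk, vb (pcOf w) c mk = vbp (pcOf w c).pos mk := by
    intro c mk; cases mk <;> rfl
  unfold Val
  simp only [hub, hvb]
  refine Prod.ext ?_ ?_
  · rw [Prod.fst_sum]; rfl
  · rw [Prod.snd_sum]; rfl

end LGAlt
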