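import Pool.Agent.LGAlt2.RIlocC

/-!
# Root independence: the operators commute with the elementary pieces

`O` is one of `opD1`, `opD2`, `opE` (only `OpOK a b O` is used).

* `opT_eq` : `opT O (e :: es) G X = O.s e * op O es G X` if `X` is not empty.
* `op_three` : the operator for a list with at least three regions.
* `op_crossR`, `op_cupR`, `op_capR` : induction on `l₁` (generalizing `X` and `G`).  If `l₁ = e :: l₁'` then
  `X = w :: xs` and `op O (e :: es) (crossR (k+1) G) (w :: xs) = O.i w (fun y => crossR k (G (y :: ·)) xs)
  + O.k w * (O.s e * op O es (crossR k (G (w :: ·))) xs)`; use `FinL.comm` (`hO.fin`, `finL_crossR`) for the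
  first term, the induction hypothesis for the second one, and the linearity of `crossR` (`FinL.map_add`,
  `FinL.map_mul`, `crossR_congr`).  If `l₁ = []` use `op_three` and the local properties `XT`, `XTk` (resp.
  `ST`, `STk`, `MT`, `MTk`); in the terms with `opT O l₂` use `FinL.comm` (with `finL_opT`).
* `op_pre` : the operators commute with words (with omitted crossings).
* `op_delta`, `op_start` : they vanish at both ends.
-/

namespace LGAlt

variable {K : Type*} [Field K] (a b : K)

lemma opT_eq (O : OpD K) (e : Bool) (es : List Bool) (G : List St → K) (x : St) (xs : List St) :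
    opT O (e :: es) G (x :: xs) = O.s e * op O es G (x :: xs) := by
  simp only [opT, op]

lemma op_three (O : OpD K) (e₁ e₂ : Bool) (es : List Bool) (G : List St → K) (x y z : St)
    (xs : List St) :
    op O (e₁ :: e₂ :: es) G (x :: y :: z :: xs)
      = op3 O e₁ e₂ (fun x y z => G (x :: y :: z :: xs)) x y z
        + O.k x * O.s e₁ * O.k y * O.s e₂ * O.k z * opT O es (fun Xs => G (x :: y :: z :: Xs)) xs := by
  simp only [op, opT, op3]
  ring

private lemma finL_opT_aux (O : OpD K) (hf : ∀ x, FinL (O.i x)) (es : List Bool) (X : List St) :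
    FinL (fun G : List St → K => opT O es G X) := by
  induction es generalizing X with
  | nil => simpa only [opT] using FinL.zero
  | cons e es ih =>
    match X with
    | [] => simpa only [opT] using FinL.zero
    | x :: xs =>
      simp only [opT]
      refine FinL.const_mul _ (FinL.add ?_ (FinL.const_mul _ ?_))
      · exact FinL.comp (M := fun (y : St) (G : List St → K) => G (y :: xs)) (hf x)
          (fun y => FinL.eval _)
      · exact FinL.comp (M := fun (Y : List St) (G : List St → K) => G (x :: Y)) (ih xs)
          (fun Y => FinL.eval _)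

lemma finL_op (O : OpD K) (hf : ∀ x, FinL (O.i x)) (es : List Bool) (X : List St) :
    FinL (fun G : List St → K => op O es G X) := by
  match X with
  | [] => simpa only [op] using FinL.zero
  | x :: xs =>
    simp only [op]
    refine FinL.add ?_ (FinL.const_mul _ ?_)
    · exact FinL.comp (M := fun (y : St) (G : List St → K) => G (y :: xs)) (hf x)
        (fun y => FinL.eval _)
    · exact FinL.comp (M := fun (Y : List St) (G : List St → K) => G (x :: Y))
        (finL_opT_aux O hf es xs) (fun Y => FinL.eval _)

lemma finL_opT (O : OpD K) (hf : ∀ x, FinL (O.i x)) (es : List Bool) (X : List St) :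
    FinL (fun G : List St → K => opT O es G X) := finL_opT_aux O hf es X

private lemma opT_congr (O : OpD K) (es : List Bool) (X : List St)
    (G G' : List St → K) (h : ∀ X', X'.length = X.length → G X' = G' X') :
    opT O es G X = opT O es G' X := by
  induction es generalizing X G G' with
  | nil => simp only [opT]
  | cons e es ih =>
    match X with
    | [] => simp only [opT]
    | x :: xs =>
      simp only [opT]
      have h1 : (fun y => G (y :: xs)) = fun y => G' (y :: xs) := by
        funext y
        exact h _ (by simp)
      have h2 := ih xs (fun Y => G (x :: Y)) (fun Y => G' (x :: Y))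
        (fun X' h' => h _ (by simp [h']))
      rw [h1, h2]

lemma op_congr (O : OpD K) (hf : ∀ x, FinL (O.i x)) (es : List Bool) (X : List St)
    (G G' : List St → K) (h : ∀ X', X'.length = X.length → G X' = G' X') :
    op O es G X = op O es G' X := by
  match X with
  | [] => simp only [op]
  | x :: xs =>
    simp only [op]
    have h1 : (fun y => G (y :: xs)) = fun y => G' (y :: xs) := by
      funext y
      exact h _ (by simp)
    have h2 := opT_congr O es xs (fun Y => G (x :: Y)) (fun Y => G' (x :: Y))
      (fun X' h' => h _ (by simp [h']))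
    rw [h1, h2]

/-- the induction step for all three pieces -/
private lemma op_step (O : OpD K) (hf : ∀ x, FinL (O.i x)) (e : Bool) (es : List Bool) (w : St)
    {Λ : (List St → K) → K} (hΛ : FinL Λ) (m : ℕ)
    (hc : ∀ G G' : List St → K, (∀ X' : List St, X'.length = m + 1 → G X' = G' X') → Λ G = Λ G')
    (G : List St → K) :
    O.i w (fun y => Λ (fun Y => G (y :: Y))) + O.k w * (O.s e * Λ (op O es (fun Y => G (w :: Y))))
      = Λ (fun Y => op O (e :: es) G (w :: Y)) := by
  have h1 : Λ (fun Y => op O (e :: es) G (w :: Y))
      = Λ (fun Y => O.i w (fun y => G (y :: Y))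
          + O.k w * (O.s e * op O es (fun Y' => G (w :: Y')) Y)) := by
    apply hc
    intro X' hX'
    match X', hX' with
    | x :: xs, _ =>
      simp only [op]
      rw [opT_eq]
      simp only [op]
  rw [h1, FinL.map_add hΛ, FinL.map_mul hΛ, FinL.map_mul hΛ]
  congr 1
  exact FinL.comm (hf w) hΛ (fun y Y => G (y :: Y))

private lemma XT_add (pos : Bool) (p x y : St) (F G : St → St → St → K) :
    XT a a⁻¹ b b⁻¹ pos p x y (fun p x y => F p x y + G p x y)
      = XT a a⁻¹ b b⁻¹ pos p x y F + XT a a⁻¹ b b⁻¹ pos p x y G :=
  FinL.map_add (finL_XT a a⁻¹ b b⁻¹ pos p x y) (fun t => F t.1 t.2.1 t.2.2)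
    (fun t => G t.1 t.2.1 t.2.2)

private lemma XT_mul (pos : Bool) (p x y : St) (c : K) (G : St → St → St → K) :
    XT a a⁻¹ b b⁻¹ pos p x y (fun p x y => c * G p x y)
      = c * XT a a⁻¹ b b⁻¹ pos p x y G :=
  FinL.map_mul (finL_XT a a⁻¹ b b⁻¹ pos p x y) c (fun t => G t.1 t.2.1 t.2.2)

private lemma ST_add' (x : St) (F G : St → St → K) :
    ST a b x (fun l r => F l r + G l r) = ST a b x F + ST a b x G :=
  FinL.map_add (finL_ST a b x) (fun t => F t.1 t.2) (fun t => G t.1 t.2)

theorem op_crossR {O : OpD K} (hO : OpOK a b O) (pos : Bool) (l₁ l₂ : List Bool) (X : List St)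
    (hX : X.length = (l₁ ++ true :: true :: l₂).length + 1) (G : List St → K) :
    op O (l₁ ++ true :: true :: l₂) (crossR a a⁻¹ b b⁻¹ pos l₁.length G) X
      = crossR a a⁻¹ b b⁻¹ pos l₁.length (op O (l₁ ++ true :: true :: l₂) G) X := by
  induction l₁ generalizing X G with
  | nil =>
    match X, hX with
    | p :: x :: y :: xs, _ =>
      simp only [List.nil_append, List.length_nil, crossR]
      rw [op_three]
      simp only [crossR]
      rw [hO.XT pos p x y (fun p x y => G (p :: x :: y :: xs))]
      have h1 : opT O l₂ (fun Xs => XT a a⁻¹ b b⁻¹ pos p x y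
          (fun p x y => G (p :: x :: y :: Xs))) xs
          = XT a a⁻¹ b b⁻¹ pos p x y (fun p x y => opT O l₂ (fun Xs => G (p :: x :: y :: Xs)) xs) :=
        FinL.comm (finL_opT O hO.fin l₂ xs) (finL_XT a a⁻¹ b b⁻¹ pos p x y)
          (fun Xs t => G (t.1 :: t.2.1 :: t.2.2 :: Xs))
      rw [h1]
      have h2 : (fun p x y => op O (true :: true :: l₂) G (p :: x :: y :: xs))
          = fun p x y => op3 O true true (fun p x y => G (p :: x :: y :: xs)) p x y
            + O.s true * O.s true * (O.k p * O.k x * O.k y *
              opT O l₂ (fun Xs => G (p :: x :: y :: Xs)) xs) := by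
        funext p x y
        rw [op_three]
        ring
      rw [h2, XT_add, XT_mul, hO.XTk]
      ring
  | cons e l₁ ih =>
    match X, hX with
    | w :: x :: xs, hX =>
      have hX' : (x :: xs).length = (l₁ ++ true :: true :: l₂).length + 1 := by simpa using hX
      simp only [List.cons_append, List.length_cons, crossR]
      rw [← op_step O hO.fin e (l₁ ++ true :: true :: l₂) w
        (finL_crossR a a⁻¹ b b⁻¹ pos l₁.length (x :: xs)) xs.length
        (fun G G' h => crossR_congr _ _ _ _ _ _ _ _ _ (fun X' h' => h X' (by simpa using h'))) G]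
      rw [← ih (x :: xs) hX' (fun Y => G (w :: Y))]
      simp only [op, crossR]
      rw [opT_eq]
      simp only [op]

theorem op_cupR {O : OpD K} (hO : OpOK a b O) (s : Bool) (l₁ l₂ : List Bool) (X : List St)
    (hX : X.length = (l₁ ++ l₂).length + 1) (G : List St → K) :
    op O (l₁ ++ l₂) (cupR a b l₁.length G) X
      = cupR a b l₁.length (op O (l₁ ++ s :: (!s) :: l₂) G) X := by
  induction l₁ generalizing X G with
  | nil =>
    match X, hX with
    | x :: xs, _ =>
      simp only [List.nil_append, List.length_nil, cupR, op]
      rw [hO.ST s x (fun l m r => G (l :: m :: r :: xs))]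
      have h1 : opT O l₂ (fun Xs => ST a b x (fun l r => G (l :: (true, true) :: r :: Xs))) xs
          = ST a b x (fun l r => opT O l₂ (fun Xs => G (l :: (true, true) :: r :: Xs)) xs) :=
        FinL.comm (finL_opT O hO.fin l₂ xs) (finL_ST a b x)
          (fun Xs t => G (t.1 :: (true, true) :: t.2 :: Xs))
      rw [h1, ← hO.STk s x, ← ST_add']
      congr 1
      funext l r
      have h2 := op_three O s (!s) l₂ G l (true, true) r xs
      simp only [op] at h2
      rw [h2]
  | cons e l₁ ih =>
    match X, hX with
    | w :: x :: xs, hX =>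
      have hX' : (x :: xs).length = (l₁ ++ l₂).length + 1 := by simpa using hX
      simp only [List.cons_append, List.length_cons, cupR]
      rw [← op_step O hO.fin e (l₁ ++ s :: (!s) :: l₂) w
        (finL_cupR a b l₁.length (x :: xs)) (xs.length + 2)
        (fun G G' h => cupR_congr _ _ _ _ _ _ (fun X' h' => h X' (by simp at h'; omega))) G]
      rw [← ih (x :: xs) hX' (fun Y => G (w :: Y))]
      simp only [op, cupR]
      rw [opT_eq]
      simp only [op]
    | [_], hX => simp at hX

theorem op_capR {O : OpD K} (hO : OpOK a b O) (s : Bool) (l₁ l₂ : List Bool) (X : List St)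
    (hX : X.length = (l₁ ++ s :: (!s) :: l₂).length + 1) (G : List St → K) :
    op O (l₁ ++ s :: (!s) :: l₂) (capR a⁻¹ b⁻¹ l₁.length G) X
      = capR a⁻¹ b⁻¹ l₁.length (op O (l₁ ++ l₂) G) X := by
  induction l₁ generalizing X G with
  | nil =>
    match X, hX with
    | p :: x :: y :: xs, _ =>
      simp only [List.nil_append, List.length_nil]
      rw [op_three]
      simp only [capR, op]
      rw [hO.MT s p x y (fun z => G (z :: xs))]
      split_ifs with hx
      · have h1 : opT O l₂ (fun Xs => MT a⁻¹ b⁻¹ p y (fun z => G (z :: Xs))) xs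
            = MT a⁻¹ b⁻¹ p y (fun z => opT O l₂ (fun Xs => G (z :: Xs)) xs) :=
          FinL.comm (finL_opT O hO.fin l₂ xs) (finL_MT a⁻¹ b⁻¹ p y) (fun Xs z => G (z :: Xs))
        rw [h1, hx, hO.MTk s p y, ← FinL.map_add (finL_MT a⁻¹ b⁻¹ p y)]
      · rw [FinL.map_zero (finL_opT O hO.fin l₂ xs)]
        ring
  | cons e l₁ ih =>
    match X, hX with
    | w :: x :: y :: z :: xs, hX =>
      have hX' : (x :: y :: z :: xs).length = (l₁ ++ s :: (!s) :: l₂).length + 1 := by
        simpa using hX
      simp only [List.cons_append, List.length_cons, capR]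
      rw [← op_step O hO.fin e (l₁ ++ l₂) w
        (finL_capR a⁻¹ b⁻¹ l₁.length (x :: y :: z :: xs)) xs.length
        (fun G G' h => capR_congr _ _ _ _ _ _ (fun X' h' => h X' (by simp at h'; omega))) G]
      rw [← ih (x :: y :: z :: xs) hX' (fun Y => G (w :: Y))]
      simp only [op, capR]
      rw [opT_eq]
      simp only [op]
    | [_], hX => simp at hX
    | [_, _], hX => simp at hX
    | [_, _, _], hX =>
      simp at hX
      omega

lemma finL_pieceU (act : Prop) [Decidable act] (p : Piece) (X : List St) :
    FinL (fun G : List St → K => pieceU a a⁻¹ b b⁻¹ act p G X) := by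
  cases p with
  | cross k pos =>
    simp only [pieceU]
    split_ifs
    · exact finL_crossR _ _ _ _ _ _ _
    · exact FinL.eval _
  | cup k s => exact finL_cupR _ _ _ _
  | cap k s => exact finL_capR _ _ _ _

/-- `pieceU` depends only on the values of `G` on lists of the right length -/
lemma pieceU_congr (act : Prop) [Decidable act] {p : Piece} {es es' : List Bool} (h : OStep p es es')
    (X : List St) (hX : X.length = es.length + 1) (G G' : List St → K)
    (hG : ∀ X', X'.length = es'.length + 1 → G X' = G' X') :
    pieceU a a⁻¹ b b⁻¹ act p G X = pieceU a a⁻¹ b b⁻¹ act p G' X := by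
  cases h with
  | cross l₁ l₂ pos =>
    simp only [pieceU]
    split_ifs
    · exact crossR_congr _ _ _ _ _ _ _ _ _ (fun X' h' => hG X' (h'.trans hX))
    · exact hG X hX
  | cup l₁ l₂ s =>
    simp only [pieceU]
    refine cupR_congr _ _ _ _ _ _ (fun X' h' => hG X' ?_)
    simp at hX h' ⊢
    omega
  | cap l₁ l₂ s =>
    simp only [pieceU]
    refine capR_congr _ _ _ _ _ _ (fun X' h' => hG X' ?_)
    simp at hX h' ⊢
    omega

lemma finL_pre (U : Finset ℕ) (j : ℕ) (w : List Piece) (X : List St) :
    FinL (fun G : List St → K => pre a a⁻¹ b b⁻¹ U j w G X) := by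
  induction w generalizing j X with
  | nil => simpa only [pre] using FinL.eval X
  | cons p w ih =>
    simp only [pre]
    exact FinL.comp (M := fun (Y : List St) (G : List St → K) => pre a a⁻¹ b b⁻¹ U (j + 1) w G Y)
      (finL_pieceU a b (j ∈ U) p X) (fun Y => ih (j + 1) Y)

lemma pre_congr (U : Finset ℕ) (j : ℕ) {w : List Piece} {es es' : List Bool} (h : OPath w es es')
    (X : List St) (hX : X.length = es.length + 1) (G G' : List St → K)
    (hG : ∀ X', X'.length = es'.length + 1 → G X' = G' X') :
    pre a a⁻¹ b b⁻¹ U j w G X = pre a a⁻¹ b b⁻¹ U j w G' X := by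
  induction h generalizing j X with
  | nil x => simpa only [pre] using hG X hX
  | cons p w x y z hs hw ih =>
    simp only [pre]
    exact pieceU_congr a b (j ∈ U) hs X hX _ _ (fun X' h' => ih (j + 1) X' h' hG)

theorem op_pieceU {O : OpD K} (hO : OpOK a b O) (act : Prop) [Decidable act] {p : Piece}
    {es es' : List Bool} (h : OStep p es es') (X : List St) (hX : X.length = es.length + 1)
    (G : List St → K) :
    op O es (pieceU a a⁻¹ b b⁻¹ act p G) X = pieceU a a⁻¹ b b⁻¹ act p (op O es' G) X := by
  cases h with
  | cross l₁ l₂ pos =>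
    simp only [pieceU]
    split_ifs
    · exact op_crossR a b hO pos l₁ l₂ X hX G
    · rfl
  | cup l₁ l₂ s => exact op_cupR a b hO s l₁ l₂ X hX G
  | cap l₁ l₂ s => exact op_capR a b hO s l₁ l₂ X hX G

theorem op_pre {O : OpD K} (hO : OpOK a b O) (U : Finset ℕ) (j : ℕ) {w : List Piece}
    {es es' : List Bool} (h : OPath w es es') (X : List St) (hX : X.length = es.length + 1)
    (G : List St → K) :
    op O es (pre a a⁻¹ b b⁻¹ U j w G) X = pre a a⁻¹ b b⁻¹ U j w (op O es' G) X := by
  induction h generalizing j X with
  | nil x => simp only [pre]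
  | cons p w x y z hs hw ih =>
    simp only [pre]
    rw [op_pieceU a b hO (j ∈ U) hs X hX]
    exact pieceU_congr a b (j ∈ U) hs X hX _ _ (fun X' h' => ih (j + 1) X' h')

lemma op_delta {O : OpD K} (hO : OpOK a b O) (X : List St) (hX : X.length = 2) :
    op O [true] (fun X => if X = [(false, false), (false, false)] then 1 else 0) X = 0 := by
  match X, hX with
  | [x, y], _ =>
    simp only [op, opT, mul_zero, add_zero]
    have h1 : O.i x (fun x' => if [x', y] = [(false, false), (false, false)] then (1 : K) else 0)
        = 0 := by
      by_cases hy : y = (false, false)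
      · refine hO.empty x _ (by simp [hy]) (fun x' hx' => by simp [hx'])
      · have : (fun x' : St => if [x', y] = [(false, false), (false, false)] then (1 : K) else 0)
            = fun _ => 0 := by
          funext x'
          simp [hy]
        rw [this, FinL.map_zero (hO.fin x)]
    have h2 : O.i y (fun y' => if [x, y'] = [(false, false), (false, false)] then (1 : K) else 0)
        = 0 := by
      by_cases hx : x = (false, false)
      · refine hO.empty y _ (by simp [hx]) (fun y' hy' => by simp [hy'])
      · have : (fun y' : St => if [x, y'] = [(false, false), (false, false)] then (1 : K) else 0)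
            = fun _ => 0 := by
          funext y'
          simp [hx]
        rw [this, FinL.map_zero (hO.fin y)]
    rw [h1, h2]
    ring

lemma op_start {O : OpD K} (hO : OpOK a b O) (G : List St → K) :
    op O [true] G [(true, true), (true, true)] = 0 := by
  simp only [op, opT, hO.full]
  ring

/-- a word which ends with the last level is annihilated by the operators -/
theorem op_suffix {O : OpD K} (hO : OpOK a b O) (U : Finset ℕ) (j : ℕ) {w : List Piece}
    {es : List Bool} (h : OPath w es [true]) (X : List St) (hX : X.length = es.length + 1) :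
    op O es (pre a a⁻¹ b b⁻¹ U j w
      (fun X => if X = [(false, false), (false, false)] then 1 else 0)) X = 0 := by
  rw [op_pre a b hO U j h X hX, pre_congr a b U j h X hX _ (fun _ => 0)
    (fun X' h' => op_delta a b hO X' (by simpa using h'))]
  exact FinL.map_zero (finL_pre a b U j w X)

/-- a word which starts with the first level annihilates the image of the operators -/
theorem op_prefix {O : OpD K} (hO : OpOK a b O) (U : Finset ℕ) (j : ℕ) {w : List Piece}
    {es : List Bool} (h : OPath w [true] es) (G : List St → K) :
    pre a a⁻¹ b b⁻¹ U j w (op O es G) [(true, true), (true, true)] = 0 := by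
  rw [← op_pre a b hO U j h [(true, true), (true, true)] rfl]
  exact op_start a b hO _

end LGAlt
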