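import Pool.Agent.LGAlt.Word

/-!
# Root independence: definitions

`tw x` is the twist of a region state, `rootR i` the operator of a root at the strand `i`: the regions
`i` and `i + 1` have to be full, and are emptied, the regions on the right of them contribute their twists.

`evU` is the evaluation of a word, in which the crossings which are not in `U` are omitted, with a
root `r = (level, strand)`.  For the root `(0, 0)` and if all crossings are active, this is `regV`.

The operators `op O es` on functionals: `O = opD1`, `opD2`, `opE`.  They insert a hole of the first kind, a
hole of the second kind, or replace a hole of the second kind by a hole of the first kind, with factors.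

The tables `bD1`, `bD2`, `bE` contain local operators on three regions.
-/

namespace LGAlt

section

variable {K : Type*} [CommRing K] (a a' b b' : K)

/-- the twist of a region state -/
def tw (x : St) : K := (a * b) ^ (2 * x.1.toNat) * (a' * b') ^ (2 * x.2.toNat)

/-- the twist of a list of region states -/
def tws (xs : List St) : K := (xs.map (tw a a' b b')).prod

/-- the operator of a root at the strand `i` -/
def rootR : ℕ → (List St → K) → List St → K
  | 0, G, x :: y :: xs => if x = (true, true) ∧ y = (true, true) then
      tws a a' b b' xs * G ((false, false) :: (false, false) :: xs) else 0
  | k + 1, G, z :: xs => rootR k (fun X => G (z :: X)) xs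
  | 0, _, [_] => 0
  | _, _, [] => 0

/-- the operator of a piece, `act` : is the crossing active -/
def pieceU (act : Prop) [Decidable act] (p : Piece) (G : List St → K) : List St → K :=
  match p with
  | .cross k pos => if act then crossR a a' b b' pos k G else G
  | .cup k _ => cupR a b k G
  | .cap k _ => capR a' b' k G

/-- insertion of the root `r` at the level `j` -/
def rootAt (r : ℕ × ℕ) (j : ℕ) (G : List St → K) : List St → K :=
  if r.1 = j then rootR a a' b b' r.2 G else G

/-- evaluation of the word `w` starting at the level `j` -/
def evU (U : Finset ℕ) (r : ℕ × ℕ) : ℕ → List Piece → List St → K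
  | j, [] => rootAt a a' b b' r j (fun X => if X = [(false, false), (false, false)] then 1 else 0)
  | j, p :: w => rootAt a a' b b' r j (pieceU a a' b b' (j ∈ U) p (evU U r (j + 1) w))

/-- The word `w`, starting at the level `j`, applied to a functional `G`. -/
def pre (U : Finset ℕ) : ℕ → List Piece → (List St → K) → List St → K
  | _, [], G => G
  | j, p :: w, G => pieceU a a' b b' (j ∈ U) p (pre U (j + 1) w G)

end

/-- local data of an operator: `i` : action on a region, `k` : factor for skipping a region, `s` : factor
for skipping a strand -/
structure OpD (K : Type*) where
  i : St → (St → K) → K
  k : St → K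
  s : Bool → K

section

variable {K : Type*} [Field K]

/-- the part of the operator starting with a strand -/
def opT (O : OpD K) : List Bool → (List St → K) → List St → K
  | e :: es, G, x :: xs => O.s e * (O.i x (fun y => G (y :: xs)) +
      O.k x * opT O es (fun X => G (x :: X)) xs)
  | _, _, _ => 0

/-- the operator, `es` are the orientations of the strands -/
def op (O : OpD K) (es : List Bool) (G : List St → K) : List St → K
  | x :: xs => O.i x (fun y => G (y :: xs)) + O.k x * opT O es (fun X => G (x :: X)) xs
  | [] => 0

/-- the action on three neighbouring regions -/
def op3 (O : OpD K) (e₁ e₂ : Bool) (H : St → St → St → K) (x y z : St) : K :=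
  O.i x (fun x' => H x' y z) + O.k x * O.s e₁ * (O.i y (fun y' => H x y' z) +
    O.k y * O.s e₂ * O.i z (fun z' => H x y z'))

variable (a b : K)

/-- insertion of a hole of the first kind -/
def opD1 : OpD K where
  i := fun x H => match x with
    | (false, false) => H (true, false)
    | (false, true) => -(a⁻¹ * b⁻¹) * H (true, true)
    | _ => 0
  k := fun x => match x with
    | (false, false) => 1
    | (true, false) => -1
    | (false, true) => -(a⁻¹ * b⁻¹)
    | (true, true) => a⁻¹ * b⁻¹
  s := fun e => if e then a else b

/-- insertion of a hole of the second kind -/
def opD2 : OpD K where
  i := fun x H => match x with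
    | (false, false) => H (false, true)
    | (true, false) => H (true, true)
    | _ => 0
  k := fun x => match x with
    | (false, false) => 1
    | (true, false) => -(a * b)
    | (false, true) => -1
    | (true, true) => a * b
  s := fun e => if e then a⁻¹ else b⁻¹

/-- replacement of a hole of the second kind by a hole of the first kind -/
def opE : OpD K where
  i := fun x H => match x with
    | (false, true) => H (true, false)
    | _ => 0
  k := fun x => match x with
    | (true, false) => a⁻¹ * b⁻¹
    | (false, true) => a * b
    | _ => 1
  s := fun _ => 1

/-- coefficients of the local operator for `D1` -/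
def bD1 (e₁ e₂ : Bool) (x y z : St) (H : St → St → St → K) : K :=
  match e₁, e₂, x, y, z with
  | true, true, (true, false), (true, true), (true, true) =>
      (1 + a ^ 2 * b ^ 2 - b ^ 2 - a ^ 2) * H (false, false) (false, false) (false, false)
  | true, true, (true, true), (true, false), (true, true) =>
      (a ^ 2 * b ^ 3 - a ^ 2 * b) * H (false, false) (false, false) (false, false)
  | true, true, (true, true), (true, true), (true, true) =>
      (a ^ 2 * b - b) * H (false, false) (false, true) (false, false)
      + (a * b ^ 3 + a ^ 3 * b - a * b - a ^ 3 * b ^ 3) * H (false, true) (false, false) (false, false)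
  | true, false, (true, false), (true, true), (true, true) =>
      (1 + a ^ 2 * b ^ 2 - b ^ 2 - a ^ 2) * H (false, false) (false, false) (false, false)
  | true, false, (true, true), (true, false), (true, true) =>
      (a ^ 2 * b ^ 3 - a ^ 2 * b) * H (false, false) (false, false) (false, false)
  | true, false, (true, true), (true, true), (true, false) =>
      (a * b ^ 3 - a ^ 3 * b) * H (false, false) (false, false) (false, false)
  | true, false, (true, true), (true, true), (true, true) =>
      (a ^ 2 - b ^ 2) * H (false, false) (false, false) (false, true)
      + (a ^ 2 * b - b) * H (false, false) (false, true) (false, false)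
      + (a * b ^ 3 + a ^ 3 * b - a * b - a ^ 3 * b ^ 3) * H (false, true) (false, false) (false, false)
  | false, true, (true, false), (true, true), (true, true) =>
      (1 + a ^ 2 * b ^ 2 - b ^ 2 - a ^ 2) * H (false, false) (false, false) (false, false)
  | false, true, (true, true), (true, false), (true, true) =>
      (a ^ 3 * b ^ 2 - a * b ^ 2) * H (false, false) (false, false) (false, false)
  | false, true, (true, true), (true, true), (true, false) =>
      (a ^ 3 * b - a * b ^ 3) * H (false, false) (false, false) (false, false)
  | false, true, (true, true), (true, true), (true, true) =>
      (b ^ 2 - a ^ 2) * H (false, false) (false, false) (false, true)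
      + (a * b ^ 2 - a) * H (false, false) (false, true) (false, false)
      + (a * b ^ 3 + a ^ 3 * b - a * b - a ^ 3 * b ^ 3) * H (false, true) (false, false) (false, false)
  | false, false, (true, false), (true, true), (true, true) =>
      (1 + a ^ 2 * b ^ 2 - b ^ 2 - a ^ 2) * H (false, false) (false, false) (false, false)
  | false, false, (true, true), (true, false), (true, true) =>
      (a ^ 3 * b ^ 2 - a * b ^ 2) * H (false, false) (false, false) (false, false)
  | false, false, (true, true), (true, true), (true, true) =>
      (a * b ^ 2 - a) * H (false, false) (false, true) (false, false)
      + (a * b ^ 3 + a ^ 3 * b - a * b - a ^ 3 * b ^ 3) * H (false, true) (false, false) (false, false)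
  | _, _, _, _, _ => 0

/-- coefficients of the local operator for `D2` -/
def bD2 (e₁ e₂ : Bool) (x y z : St) (H : St → St → St → K) : K :=
  match e₁, e₂, x, y, z with
  | true, true, (true, true), (false, true), (true, true) =>
      (a ^ 2 * b⁻¹ - a ^ 2 * b) * H (false, false) (false, false) (false, false)
  | true, true, (true, true), (true, true), (false, true) =>
      (1 + a ^ 2 * b⁻¹ ^ 2 - b⁻¹ ^ 2 - a ^ 2) * H (false, false) (false, false) (false, false)
  | true, true, (true, true), (true, true), (true, true) =>
      (a ^ 2 * b ^ 2 + a ^ 4 - a ^ 2 - a ^ 4 * b ^ 2) * H (false, false) (false, false) (true, false)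
      + (a ^ 3 - a) * H (false, false) (true, false) (false, false)
  | true, false, (true, true), (false, true), (true, true) =>
      (a ^ 2 * b⁻¹ - a ^ 2 * b) * H (false, false) (false, false) (false, false)
  | true, false, (true, true), (true, true), (false, true) =>
      (2 * a * b⁻¹ - a⁻¹ * b⁻¹ - a * b) * H (false, false) (false, false) (false, false)
  | true, false, (true, true), (true, true), (true, true) =>
      (2 * a ^ 3 * b - a * b - a ^ 3 * b ^ 3) * H (false, false) (false, false) (true, false)
      + (a ^ 3 - a) * H (false, false) (true, false) (false, false)
  | false, true, (true, true), (false, true), (true, true) =>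
      (a⁻¹ * b ^ 2 - a * b ^ 2) * H (false, false) (false, false) (false, false)
  | false, true, (true, true), (true, true), (false, true) =>
      (2 * a⁻¹ * b - a⁻¹ * b⁻¹ - a * b) * H (false, false) (false, false) (false, false)
  | false, true, (true, true), (true, true), (true, true) =>
      (2 * a * b ^ 3 - a * b - a ^ 3 * b ^ 3) * H (false, false) (false, false) (true, false)
      + (b ^ 3 - b) * H (false, false) (true, false) (false, false)
  | false, false, (true, true), (false, true), (true, true) =>
      (a⁻¹ * b ^ 2 - a * b ^ 2) * H (false, false) (false, false) (false, false)
  | false, false, (true, true), (true, true), (false, true) =>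
      (a⁻¹ ^ 2 * b ^ 2 + 1 - a⁻¹ ^ 2 - b ^ 2) * H (false, false) (false, false) (false, false)
  | false, false, (true, true), (true, true), (true, true) =>
      (b ^ 4 + a ^ 2 * b ^ 2 - b ^ 2 - a ^ 2 * b ^ 4) * H (false, false) (false, false) (true, false)
      + (b ^ 3 - b) * H (false, false) (true, false) (false, false)
  | _, _, _, _, _ => 0

/-- coefficients of the local operator for `E` -/
def bE (e₁ e₂ : Bool) (x y z : St) (H : St → St → St → K) : K :=
  match e₁, e₂, x, y, z with
  | true, true, (true, false), (true, false), (true, true) =>
      (a * b ^ 2 - a) * H (false, false) (false, false) (false, false)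
  | true, true, (true, false), (true, true), (true, true) =>
      (a - a⁻¹) * H (false, false) (false, true) (false, false)
  | true, true, (true, true), (true, false), (true, false) =>
      (a - a * b ^ 2) * H (false, false) (false, false) (false, false)
  | true, true, (true, true), (true, false), (true, true) =>
      (b - b⁻¹) * H (false, false) (false, false) (false, true)
      + (a * b - a⁻¹ * b⁻¹) * H (false, false) (false, true) (false, false)
      + (b - b⁻¹) * H (false, true) (false, false) (false, false)
  | true, true, (true, true), (true, true), (true, false) =>
      (a - a⁻¹) * H (false, false) (false, true) (false, false)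
  | true, true, (true, true), (true, true), (true, true) =>
      (a⁻¹ ^ 2 * b⁻¹ - b⁻¹) * H (false, false) (false, true) (false, true)
      + (b⁻¹ - a⁻¹ ^ 2 * b⁻¹) * H (false, true) (false, true) (false, false)
  | true, false, (true, false), (true, false), (true, true) =>
      (a * b ^ 2 - a) * H (false, false) (false, false) (false, false)
  | true, false, (true, false), (true, true), (true, false) =>
      (b ^ 2 - a ^ 2) * H (false, false) (false, false) (false, false)
  | true, false, (true, false), (true, true), (true, true) =>
      (a * b⁻¹ - a⁻¹ * b) * H (false, false) (false, false) (false, true)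
      + (a - a⁻¹) * H (false, false) (false, true) (false, false)
  | true, false, (true, true), (true, false), (true, false) =>
      (b - a ^ 2 * b) * H (false, false) (false, false) (false, false)
  | true, false, (true, true), (true, false), (true, true) =>
      (a - a⁻¹) * H (false, false) (false, false) (false, true)
      + (a * b - a⁻¹ * b⁻¹) * H (false, false) (false, true) (false, false)
      + (b - b⁻¹) * H (false, true) (false, false) (false, false)
  | true, false, (true, true), (true, true), (true, false) =>
      (b - b⁻¹) * H (false, false) (false, true) (false, false)
      + (a⁻¹ * b - a * b⁻¹) * H (false, true) (false, false) (false, false)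
  | true, false, (true, true), (true, true), (true, true) =>
      (a⁻¹ * b⁻¹ ^ 2 - a⁻¹) * H (false, false) (false, true) (false, true)
      + (b⁻¹ ^ 2 - a⁻¹ ^ 2) * H (false, true) (false, false) (false, true)
      + (b⁻¹ - a⁻¹ ^ 2 * b⁻¹) * H (false, true) (false, true) (false, false)
  | false, true, (true, false), (true, false), (true, true) =>
      (a ^ 2 * b - b) * H (false, false) (false, false) (false, false)
  | false, true, (true, false), (true, true), (true, false) =>
      (a ^ 2 - b ^ 2) * H (false, false) (false, false) (false, false)
  | false, true, (true, false), (true, true), (true, true) =>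
      (a⁻¹ * b - a * b⁻¹) * H (false, false) (false, false) (false, true)
      + (b - b⁻¹) * H (false, false) (false, true) (false, false)
  | false, true, (true, true), (true, false), (true, false) =>
      (a - a * b ^ 2) * H (false, false) (false, false) (false, false)
  | false, true, (true, true), (true, false), (true, true) =>
      (b - b⁻¹) * H (false, false) (false, false) (false, true)
      + (a * b - a⁻¹ * b⁻¹) * H (false, false) (false, true) (false, false)
      + (a - a⁻¹) * H (false, true) (false, false) (false, false)
  | false, true, (true, true), (true, true), (true, false) =>
      (a - a⁻¹) * H (false, false) (false, true) (false, false)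
      + (a * b⁻¹ - a⁻¹ * b) * H (false, true) (false, false) (false, false)
  | false, true, (true, true), (true, true), (true, true) =>
      (a⁻¹ ^ 2 * b⁻¹ - b⁻¹) * H (false, false) (false, true) (false, true)
      + (a⁻¹ ^ 2 - b⁻¹ ^ 2) * H (false, true) (false, false) (false, true)
      + (a⁻¹ - a⁻¹ * b⁻¹ ^ 2) * H (false, true) (false, true) (false, false)
  | false, false, (true, false), (true, false), (true, true) =>
      (a ^ 2 * b - b) * H (false, false) (false, false) (false, false)
  | false, false, (true, false), (true, true), (true, true) =>
      (b - b⁻¹) * H (false, false) (false, true) (false, false)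
  | false, false, (true, true), (true, false), (true, false) =>
      (b - a ^ 2 * b) * H (false, false) (false, false) (false, false)
  | false, false, (true, true), (true, false), (true, true) =>
      (a - a⁻¹) * H (false, false) (false, false) (false, true)
      + (a * b - a⁻¹ * b⁻¹) * H (false, false) (false, true) (false, false)
      + (a - a⁻¹) * H (false, true) (false, false) (false, false)
  | false, false, (true, true), (true, true), (true, false) =>
      (b - b⁻¹) * H (false, false) (false, true) (false, false)
  | false, false, (true, true), (true, true), (true, true) =>
      (a⁻¹ * b⁻¹ ^ 2 - a⁻¹) * H (false, false) (false, true) (false, true)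
      + (a⁻¹ - a⁻¹ * b⁻¹ ^ 2) * H (false, true) (false, true) (false, false)
  | _, _, _, _, _ => 0

/-- The local operators with twist: `c` is one of the tables `bD1`, `bD2`, `bE` for the operator `O`.  The
regions on the left of the three regions contribute `(O.k w)⁻¹`, the strands there `(O.s e)⁻¹`, and the
regions on the right contribute their twists. -/
def bop (O : OpD K) (c : Bool → Bool → St → St → St → (St → St → St → K) → K) :
    ℕ → List Bool → (List St → K) → List St → K
  | 0, e₁ :: e₂ :: _, G, x :: y :: z :: xs =>
      c e₁ e₂ x y z (fun x' y' z' => tws a a⁻¹ b b⁻¹ xs * G (x' :: y' :: z' :: xs))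
  | k + 1, e :: es, G, w :: xs =>
      (O.s e)⁻¹ * (O.k w)⁻¹ * bop O c k es (fun X => G (w :: X)) xs
  | _, _, _, _ => 0

end

end LGAlt
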