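import Pool.Agent.LGAlt2.RIlocff
import Pool.Agent.LGAlt2.RIlocft
import Pool.Agent.LGAlt2.RIloctf
import Pool.Agent.LGAlt2.RIloctt

/-!
# Root independence: the local identity for moving a root

`s = -1` for `D1` and `D2`, `s = (a b)²` for `E`.
-/

namespace LGAlt

variable {K : Type*} [Field K] (a b : K)

theorem loc_move (ha : a ≠ 0) (hb : b ≠ 0) (e₁ e₂ : Bool) (x y z : St) (Z : St → St → St → K) :
    (op3 (opD1 a b) e₁ e₂ (fun x y z => bD1 a b e₁ e₂ x y z Z) x y z
        + bD1 a b e₁ e₂ x y z (op3 (opD1 a b) e₁ e₂ Z))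
      + (op3 (opD2 a b) e₁ e₂ (fun x y z => bD2 a b e₁ e₂ x y z Z) x y z
        + bD2 a b e₁ e₂ x y z (op3 (opD2 a b) e₁ e₂ Z))
      + (op3 (opE a b) e₁ e₂ (fun x y z => bE a b e₁ e₂ x y z Z) x y z
        - (a * b) ^ 2 * bE a b e₁ e₂ x y z (op3 (opE a b) e₁ e₂ Z))
      = (1 - a ^ 2) * (1 - b ^ 2) * ((if y = (true, true) ∧ z = (true, true) then
          Z x (false, false) (false, false) else 0)
        - (if x = (true, true) ∧ y = (true, true) then
          tw a a⁻¹ b b⁻¹ z * Z (false, false) (false, false) z else 0)) := by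
  rcases e₁ with _ | _ <;> rcases e₂ with _ | _
  · exact loc_move_ff a b ha hb x y z Z
  · exact loc_move_ft a b ha hb x y z Z
  · exact loc_move_tf a b ha hb x y z Z
  · exact loc_move_tt a b ha hb x y z Z

end LGAlt
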