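import Pool.Agent.LGAlt2.RIlocX

/-!
# Root independence: the operators commute with crossings, cups and caps, local form

`OpOK O` collects the local properties of the three operators.
-/

namespace LGAlt

variable {K : Type*} [Field K] (a b : K)

/-- the local properties of an operator which commutes with the elementary pieces -/
structure OpOK (O : OpD K) : Prop where
  /-- `O.i x` is a finite linear functional -/
  fin : ∀ x, FinL (O.i x)
  XT : ∀ (pos : Bool) (p x y : St) (G : St → St → St → K),
    op3 O true true (fun p x y => XT a a⁻¹ b b⁻¹ pos p x y G) p x y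
      = XT a a⁻¹ b b⁻¹ pos p x y (fun p x y => op3 O true true G p x y)
  XTk : ∀ (pos : Bool) (p x y : St) (G : St → St → St → K),
    LGAlt.XT a a⁻¹ b b⁻¹ pos p x y (fun p x y => O.k p * O.k x * O.k y * G p x y)
      = O.k p * O.k x * O.k y * LGAlt.XT a a⁻¹ b b⁻¹ pos p x y G
  ST : ∀ (s : Bool) (x : St) (G : St → St → St → K),
    O.i x (fun x' => ST a b x' (fun l r => G l (true, true) r))
      = LGAlt.ST a b x (fun l r => op3 O s (!s) G l (true, true) r)
  STk : ∀ (s : Bool) (x : St) (G : St → St → K),
    LGAlt.ST a b x (fun l r => O.k l * O.s s * O.k (true, true) * O.s (!s) * O.k r * G l r)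
      = O.k x * LGAlt.ST a b x G
  MT : ∀ (s : Bool) (p x y : St) (G : St → K),
    op3 O s (!s) (fun p x y => if x = (false, false) then MT a⁻¹ b⁻¹ p y G else 0) p x y
      = if x = (false, false) then LGAlt.MT a⁻¹ b⁻¹ p y (fun z => O.i z G) else 0
  MTk : ∀ (s : Bool) (p y : St) (G : St → K),
    O.k p * O.s s * O.k (false, false) * O.s (!s) * O.k y * LGAlt.MT a⁻¹ b⁻¹ p y G
      = LGAlt.MT a⁻¹ b⁻¹ p y (fun z => O.k z * G z)
  full : ∀ G : St → K, O.i (true, true) G = 0
  /-- the operators do not produce an empty region -/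
  empty : ∀ x (G : St → K), G (false, false) = 1 → (∀ y, y ≠ (false, false) → G y = 0) → O.i x G = 0

theorem opOK_D1 (ha : a ≠ 0) (hb : b ≠ 0) : OpOK a b (opD1 a b) where
  fin := by
    intro x
    rcases x with ⟨_ | _, _ | _⟩ <;> dsimp only [opD1] <;>
      repeat' first | exact FinL.eval _ | exact FinL.zero | apply FinL.const_mul
  XT := loc_XT_D1 a b ha hb
  XTk := by
    intro pos p x y G
    rcases p with ⟨_ | _, _ | _⟩ <;> rcases x with ⟨_ | _, _ | _⟩ <;> rcases y with ⟨_ | _, _ | _⟩ <;>
      cases pos <;> dsimp only [opD1, LGAlt.XT] <;>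
      first | ring1 | (field_simp; done) | (field_simp; ring1)
  ST := by
    intro s x G
    rcases x with ⟨_ | _, _ | _⟩ <;> cases s <;> dsimp only [op3, opD1, LGAlt.ST, Bool.not_true, Bool.not_false] <;>
      simp only [Bool.not_true, Bool.not_false, if_true, Bool.false_eq_true, if_false] <;>
      first | ring1 | (field_simp; done) | (field_simp; ring1)
  STk := by
    intro s x G
    rcases x with ⟨_ | _, _ | _⟩ <;> cases s <;> dsimp only [op3, opD1, LGAlt.ST, Bool.not_true, Bool.not_false] <;>
      simp only [Bool.not_true, Bool.not_false, if_true, Bool.false_eq_true, if_false] <;>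
      first | ring1 | (field_simp; done) | (field_simp; ring1)
  MT := by
    intro s p x y G
    rcases p with ⟨_ | _, _ | _⟩ <;> rcases x with ⟨_ | _, _ | _⟩ <;> rcases y with ⟨_ | _, _ | _⟩ <;>
      cases s <;> simp [op3, opD1, LGAlt.MT] <;>
      first | ring1 | (field_simp; done) | (field_simp; ring1)
  MTk := by
    intro s p y G
    rcases p with ⟨_ | _, _ | _⟩ <;> rcases y with ⟨_ | _, _ | _⟩ <;>
      cases s <;> simp only [opD1, LGAlt.MT, Bool.not_true, Bool.not_false, if_true, Bool.false_eq_true,
        if_false] <;>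
      first | ring1 | (field_simp; done) | (field_simp; ring1)
  full := fun G => rfl
  empty := by
    intro x G _ h
    rcases x with ⟨_ | _, _ | _⟩ <;> simp [opD1, h]

theorem opOK_D2 (ha : a ≠ 0) (hb : b ≠ 0) : OpOK a b (opD2 a b) where
  fin := by
    intro x
    rcases x with ⟨_ | _, _ | _⟩ <;> dsimp only [opD2] <;>
      repeat' first | exact FinL.eval _ | exact FinL.zero | apply FinL.const_mul
  XT := loc_XT_D2 a b ha hb
  XTk := by
    intro pos p x y G
    rcases p with ⟨_ | _, _ | _⟩ <;> rcases x with ⟨_ | _, _ | _⟩ <;> rcases y with ⟨_ | _, _ | _⟩ <;>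
      cases pos <;> dsimp only [opD2, LGAlt.XT] <;>
      first | ring1 | (field_simp; done) | (field_simp; ring1)
  ST := by
    intro s x G
    rcases x with ⟨_ | _, _ | _⟩ <;> cases s <;> dsimp only [op3, opD2, LGAlt.ST, Bool.not_true, Bool.not_false] <;>
      simp only [Bool.not_true, Bool.not_false, if_true, Bool.false_eq_true, if_false] <;>
      first | ring1 | (field_simp; done) | (field_simp; ring1)
  STk := by
    intro s x G
    rcases x with ⟨_ | _, _ | _⟩ <;> cases s <;> dsimp only [op3, opD2, LGAlt.ST, Bool.not_true, Bool.not_false] <;>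
      simp only [Bool.not_true, Bool.not_false, if_true, Bool.false_eq_true, if_false] <;>
      first | ring1 | (field_simp; done) | (field_simp; ring1)
  MT := by
    intro s p x y G
    rcases p with ⟨_ | _, _ | _⟩ <;> rcases x with ⟨_ | _, _ | _⟩ <;> rcases y with ⟨_ | _, _ | _⟩ <;>
      cases s <;> simp [op3, opD2, LGAlt.MT] <;>
      first | ring1 | (field_simp; done) | (field_simp; ring1)
  MTk := by
    intro s p y G
    rcases p with ⟨_ | _, _ | _⟩ <;> rcases y with ⟨_ | _, _ | _⟩ <;>
      cases s <;> simp only [opD2, LGAlt.MT, Bool.not_true, Bool.not_false, if_true, Bool.false_eq_true,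
        if_false] <;>
      first | ring1 | (field_simp; done) | (field_simp; ring1)
  full := fun G => rfl
  empty := by
    intro x G _ h
    rcases x with ⟨_ | _, _ | _⟩ <;> simp [opD2, h]

theorem opOK_E (ha : a ≠ 0) (hb : b ≠ 0) : OpOK a b (opE a b) where
  fin := by
    intro x
    rcases x with ⟨_ | _, _ | _⟩ <;> dsimp only [opE] <;>
      repeat' first | exact FinL.eval _ | exact FinL.zero | apply FinL.const_mul
  XT := loc_XT_E a b ha hb
  XTk := by
    intro pos p x y G
    rcases p with ⟨_ | _, _ | _⟩ <;> rcases x with ⟨_ | _, _ | _⟩ <;> rcases y with ⟨_ | _, _ | _⟩ <;>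
      cases pos <;> dsimp only [opE, LGAlt.XT] <;>
      first | ring1 | (field_simp; done) | (field_simp; ring1)
  ST := by
    intro s x G
    rcases x with ⟨_ | _, _ | _⟩ <;> cases s <;> dsimp only [op3, opE, LGAlt.ST] <;>
      first | ring1 | (field_simp; done) | (field_simp; ring1)
  STk := by
    intro s x G
    rcases x with ⟨_ | _, _ | _⟩ <;> cases s <;> dsimp only [op3, opE, LGAlt.ST] <;>
      first | ring1 | (field_simp; done) | (field_simp; ring1)
  MT := by
    intro s p x y G
    rcases p with ⟨_ | _, _ | _⟩ <;> rcases x with ⟨_ | _, _ | _⟩ <;> rcases y with ⟨_ | _, _ | _⟩ <;>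
      cases s <;> simp [op3, opE, LGAlt.MT] <;>
      first | ring1 | (field_simp; done) | (field_simp; ring1)
  MTk := by
    intro s p y G
    rcases p with ⟨_ | _, _ | _⟩ <;> rcases y with ⟨_ | _, _ | _⟩ <;>
      cases s <;> simp only [opE, LGAlt.MT, Bool.not_true, Bool.not_false, if_true, Bool.false_eq_true,
        if_false] <;>
      first | ring1 | (field_simp; done) | (field_simp; ring1)
  full := fun G => rfl
  empty := by
    intro x G _ h
    rcases x with ⟨_ | _, _ | _⟩ <;> simp [opE, h]

end LGAlt
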