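import Pool.Agent.LGAlt2.RIdef

/-!
# Root independence: the operators commute with crossings, cups and caps, local form

All statements are proved by case distinction and `field_simp; ring`.
-/

namespace LGAlt

variable {K : Type*} [Field K] (a b : K)

theorem loc_XT_D1 (ha : a ≠ 0) (hb : b ≠ 0) (pos : Bool) (p x y : St) (G : St → St → St → K) :
    op3 (opD1 a b) true true (fun p x y => XT a a⁻¹ b b⁻¹ pos p x y G) p x y
      = XT a a⁻¹ b b⁻¹ pos p x y (fun p x y => op3 (opD1 a b) true true G p x y) := by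
  rcases p with ⟨_ | _, _ | _⟩ <;> rcases x with ⟨_ | _, _ | _⟩ <;> rcases y with ⟨_ | _, _ | _⟩ <;>
    cases pos <;>
    ((try dsimp only [op3, opD1, XT]) <;> (try simp only [if_true]) <;>
      first | ring1 | (field_simp; done) | (field_simp; ring1))

theorem loc_XT_D2 (ha : a ≠ 0) (hb : b ≠ 0) (pos : Bool) (p x y : St) (G : St → St → St → K) :
    op3 (opD2 a b) true true (fun p x y => XT a a⁻¹ b b⁻¹ pos p x y G) p x y
      = XT a a⁻¹ b b⁻¹ pos p x y (fun p x y => op3 (opD2 a b) true true G p x y) := by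
  rcases p with ⟨_ | _, _ | _⟩ <;> rcases x with ⟨_ | _, _ | _⟩ <;> rcases y with ⟨_ | _, _ | _⟩ <;>
    cases pos <;>
    ((try dsimp only [op3, opD2, XT]) <;> (try simp only [if_true]) <;>
      first | ring1 | (field_simp; done) | (field_simp; ring1))

theorem loc_XT_E (ha : a ≠ 0) (hb : b ≠ 0) (pos : Bool) (p x y : St) (G : St → St → St → K) :
    op3 (opE a b) true true (fun p x y => XT a a⁻¹ b b⁻¹ pos p x y G) p x y
      = XT a a⁻¹ b b⁻¹ pos p x y (fun p x y => op3 (opE a b) true true G p x y) := by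
  rcases p with ⟨_ | _, _ | _⟩ <;> rcases x with ⟨_ | _, _ | _⟩ <;> rcases y with ⟨_ | _, _ | _⟩ <;>
    cases pos <;>
    ((try dsimp only [op3, opE, XT]) <;>
      first | ring1 | (field_simp; done) | (field_simp; ring1))

end LGAlt
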