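import Pool.Agent.LGAlt2.RIloct

/-!
# Root independence: the local identity for moving a root, orientations `false`, `false`
-/

namespace LGAlt

variable {K : Type*} [Field K] (a b : K)

theorem loc_move_ff (ha : a ≠ 0) (hb : b ≠ 0) (x y z : St) (Z : St → St → St → K) :
    (op3 (opD1 a b) false false (fun x y z => bD1 a b false false x y z Z) x y z
        + bD1 a b false false x y z (op3 (opD1 a b) false false Z))
      + (op3 (opD2 a b) false false (fun x y z => bD2 a b false false x y z Z) x y z
        + bD2 a b false false x y z (op3 (opD2 a b) false false Z))
      + (op3 (opE a b) false false (fun x y z => bE a b false false x y z Z) x y z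
        - (a * b) ^ 2 * bE a b false false x y z (op3 (opE a b) false false Z))
      = (1 - a ^ 2) * (1 - b ^ 2) * ((if y = (true, true) ∧ z = (true, true) then
          Z x (false, false) (false, false) else 0)
        - (if x = (true, true) ∧ y = (true, true) then
          tw a a⁻¹ b b⁻¹ z * Z (false, false) (false, false) z else 0)) := by
  rcases x with ⟨_ | _, _ | _⟩ <;> rcases y with ⟨_ | _, _ | _⟩ <;> rcases z with ⟨_ | _, _ | _⟩ <;>
    simp only [op3, opD1, opD2, opE, bD1, bD2, bE, tw_ff, tw_tf, tw_ft, tw_tt a b ha hb,
      Prod.mk.injEq, reduceCtorEq, and_true, and_false, and_self, if_true, Bool.false_eq_true,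
      if_false, false_and, true_and] <;>
      first | ring1 | (field_simp; done) | (field_simp; ring1)

end LGAlt
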