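import Pool.Agent.LGAlt2.RIdef

/-!
# Root independence: the values of the weights
-/

namespace LGAlt

variable {K : Type*} [Field K] (a b : K)

lemma tw_ff : tw a a⁻¹ b b⁻¹ (false, false) = 1 := by simp [tw]

lemma tw_tt (ha : a ≠ 0) (hb : b ≠ 0) : tw a a⁻¹ b b⁻¹ (true, true) = 1 := by
  simp only [tw, Bool.toNat_true, mul_one]
  field_simp

lemma tw_tf : tw a a⁻¹ b b⁻¹ (true, false) = a ^ 2 * b ^ 2 := by
  simp only [tw, Bool.toNat_true, Bool.toNat_false, mul_one, mul_zero, pow_zero]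
  ring

lemma tw_ft : tw a a⁻¹ b b⁻¹ (false, true) = a⁻¹ ^ 2 * b⁻¹ ^ 2 := by
  simp only [tw, Bool.toNat_true, Bool.toNat_false, mul_one, mul_zero, pow_zero]
  ring

end LGAlt
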