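import Pool.Agent.LGAlt2.RIdef
import Pool.Agent.LGAlt2.RIloc0

/-!
# Root independence: moving a root vertically

`Unt p i i'` : the piece `p` does not touch the strand `i` below it, which is the strand `i'` above it.

`root_piece` : a root at this strand can be moved across `p`.  Induction on the position (`k` or `i`, the
smaller one, both recursions peel off the first region).
* The twist of the regions on the right of the root is preserved by the pieces: `XT` preserves
  `tw p * tw x * tw y`, `tw l * tw (true, true) * tw r = tw x` for the terms of `ST`, and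
  `tw p * tw (false, false) * tw y = tw z` for the terms of `MT` (use `tw_tt`).
* If a region at the root is also adjacent to the piece (`i + 1 = k`, or `i = k + 2` for crossings and caps,
  `i = k` for cups): the crossing with `p = (true, true)`, restricted to the terms with
  `p' = (true, true)`, is the crossing with `p = (false, false)` (all terms of which have
  `p' = (false, false)`); the same for `y`.
  `ST (true, true)` restricted to `l = (true, true)` (or `r`) is `ST (false, false)`.
  `MT (false, false) y` and `MT (true, true) y` restricted to results `(true, true)`: both are nonzero only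
  for `y = (true, true)`.  All these are checked by case distinction.
-/

namespace LGAlt

/-- the piece `p` does not touch the strand `i` below it, which is the strand `i'` above it -/
def Unt : Piece → ℕ → ℕ → Prop
  | .cross k _, i, i' => (i < k ∨ k + 2 ≤ i) ∧ i' = i
  | .cup k _, i, i' => (i < k ∧ i' = i) ∨ (k ≤ i ∧ i' = i + 2)
  | .cap k _, i, i' => (i < k ∧ i' = i) ∨ (k + 2 ≤ i ∧ i' + 2 = i)

variable {K : Type*} [Field K] (a b : K)

lemma XT_tw (ha : a ≠ 0) (hb : b ≠ 0) (pos : Bool) (p x y : St) (G : St → St → St → K) :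
    XT a a⁻¹ b b⁻¹ pos p x y (fun p x y => tw a a⁻¹ b b⁻¹ p * tw a a⁻¹ b b⁻¹ x * tw a a⁻¹ b b⁻¹ y
        * G p x y)
      = tw a a⁻¹ b b⁻¹ p * tw a a⁻¹ b b⁻¹ x * tw a a⁻¹ b b⁻¹ y * XT a a⁻¹ b b⁻¹ pos p x y G := by
  rcases p with ⟨_ | _, _ | _⟩ <;> rcases x with ⟨_ | _, _ | _⟩ <;> rcases y with ⟨_ | _, _ | _⟩ <;>
    cases pos <;> simp only [XT, tw_ff, tw_tf, tw_ft, tw_tt a b ha hb] <;>
    first | ring1 | (field_simp; done) | (field_simp; ring1)

/-- the root is next to the crossing, on the left -/
lemma XT_left (pos : Bool) (x y : St) (G : St → St → K) :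
    XT a a⁻¹ b b⁻¹ pos (true, true) x y (fun p x y => if p = (true, true) then G x y else 0)
      = XT a a⁻¹ b b⁻¹ pos (false, false) x y (fun _ x y => G x y) := by
  rcases x with ⟨_ | _, _ | _⟩ <;> rcases y with ⟨_ | _, _ | _⟩ <;> cases pos <;> simp [XT]

/-- the root is next to the crossing, on the right -/
lemma XT_right (pos : Bool) (p x : St) (G : St → St → K) :
    XT a a⁻¹ b b⁻¹ pos p x (true, true) (fun p x y => if y = (true, true) then G p x else 0)
      = XT a a⁻¹ b b⁻¹ pos p x (false, false) (fun p x _ => G p x) := by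
  rcases p with ⟨_ | _, _ | _⟩ <;> rcases x with ⟨_ | _, _ | _⟩ <;> cases pos <;> simp [XT]

lemma RIvert_tws_cons (a a' b b' : K) (x : St) (xs : List St) :
    tws a a' b b' (x :: xs) = tw a a' b b' x * tws a a' b b' xs := by
  simp [tws]

lemma RIvert_finL_rootR (a a' b b' : K) (i : ℕ) (X : List St) :
    FinL (fun f : List St → K => rootR a a' b b' i f X) := by
  induction i generalizing X with
  | zero =>
    match X with
    | [] => simpa only [rootR] using FinL.zero
    | [_] => simpa only [rootR] using FinL.zero
    | x :: y :: xs =>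
      simp only [rootR]
      split_ifs
      · exact FinL.const_mul _ (FinL.eval _)
      · exact FinL.zero
  | succ k ih =>
    match X with
    | [] => simpa only [rootR] using FinL.zero
    | z :: xs =>
      simp only [rootR]
      obtain ⟨L, hL⟩ := ih xs
      exact ⟨L.map (fun c => (c.1, z :: c.2)), fun f => by
        rw [hL]; simp [List.map_map, Function.comp_def]⟩

/-! ### the crossing -/

lemma XT_left0 (pos : Bool) (p x y : St) (hp : p ≠ (true, true)) (G : St → St → K) :
    XT a a⁻¹ b b⁻¹ pos p x y (fun p x y => if p = (true, true) then G x y else 0) = 0 := by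
  rcases p with ⟨_ | _, _ | _⟩ <;> first | exact absurd rfl hp | skip
  all_goals
    rcases x with ⟨_ | _, _ | _⟩ <;> rcases y with ⟨_ | _, _ | _⟩ <;> cases pos <;> simp [XT]

lemma XT_right0 (pos : Bool) (p x y : St) (hy : y ≠ (true, true)) (G : St → St → K) :
    XT a a⁻¹ b b⁻¹ pos p x y (fun p x y => if y = (true, true) then G p x else 0) = 0 := by
  rcases y with ⟨_ | _, _ | _⟩ <;> first | exact absurd rfl hy | skip
  all_goals
    rcases x with ⟨_ | _, _ | _⟩ <;> rcases p with ⟨_ | _, _ | _⟩ <;> cases pos <;> simp [XT]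

lemma XT_p0 (pos : Bool) (x y : St) (H : St → St → St → K) :
    XT a a⁻¹ b b⁻¹ pos (false, false) x y H
      = XT a a⁻¹ b b⁻¹ pos (false, false) x y (fun _ x y => H (false, false) x y) := by
  rcases x with ⟨_ | _, _ | _⟩ <;> rcases y with ⟨_ | _, _ | _⟩ <;> cases pos <;> rfl

lemma XT_y0 (pos : Bool) (p x : St) (H : St → St → St → K) :
    XT a a⁻¹ b b⁻¹ pos p x (false, false) H
      = XT a a⁻¹ b b⁻¹ pos p x (false, false) (fun p x _ => H p x (false, false)) := by
  rcases x with ⟨_ | _, _ | _⟩ <;> rcases p with ⟨_ | _, _ | _⟩ <;> cases pos <;> rfl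

lemma RIvert_XT_mul (pos : Bool) (p x y : St) (c : K) (H : St → St → St → K) :
    XT a a⁻¹ b b⁻¹ pos p x y (fun p x y => c * H p x y)
      = c * XT a a⁻¹ b b⁻¹ pos p x y H :=
  (finL_XT a a⁻¹ b b⁻¹ pos p x y).map_mul c (fun t => H t.1 t.2.1 t.2.2)

lemma RIvert_XT_zero (pos : Bool) (p x y : St) :
    XT a a⁻¹ b b⁻¹ pos p x y (fun _ _ _ => 0) = 0 :=
  (finL_XT a a⁻¹ b b⁻¹ pos p x y).map_zero

lemma RIvert_cross_tws (ha : a ≠ 0) (hb : b ≠ 0) (pos : Bool) (k : ℕ) (X : List St)
    (hX : k + 3 ≤ X.length) (H : List St → K) :
    crossR a a⁻¹ b b⁻¹ pos k (fun Z => tws a a⁻¹ b b⁻¹ Z * H Z) X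
      = tws a a⁻¹ b b⁻¹ X * crossR a a⁻¹ b b⁻¹ pos k H X := by
  induction k generalizing X H with
  | zero =>
    match X, hX with
    | p :: x :: y :: xs, _ =>
      simp only [crossR, RIvert_tws_cons]
      have e : (fun p' x' y' : St => tw a a⁻¹ b b⁻¹ p' * (tw a a⁻¹ b b⁻¹ x' * (tw a a⁻¹ b b⁻¹ y' *
          tws a a⁻¹ b b⁻¹ xs)) * H (p' :: x' :: y' :: xs))
          = fun p' x' y' => tw a a⁻¹ b b⁻¹ p' * tw a a⁻¹ b b⁻¹ x' * tw a a⁻¹ b b⁻¹ y' *
            (tws a a⁻¹ b b⁻¹ xs * H (p' :: x' :: y' :: xs)) := by
        funext p' x' y'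
        ring
      rw [e, XT_tw a b ha hb pos p x y
        (fun p' x' y' => tws a a⁻¹ b b⁻¹ xs * H (p' :: x' :: y' :: xs)),
        RIvert_XT_mul a b pos p x y (tws a a⁻¹ b b⁻¹ xs) (fun p' x' y' => H (p' :: x' :: y' :: xs))]
      ring
  | succ k ih =>
    match X, hX with
    | z :: xs, hX =>
      simp only [crossR, RIvert_tws_cons]
      have e : (fun Z : List St => tw a a⁻¹ b b⁻¹ z * tws a a⁻¹ b b⁻¹ Z * H (z :: Z))
          = fun Z => tws a a⁻¹ b b⁻¹ Z * (tw a a⁻¹ b b⁻¹ z * H (z :: Z)) := by
        funext Z
        ring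
      rw [e, ih xs (by simp at hX; omega), (finL_crossR a a⁻¹ b b⁻¹ pos k xs).map_mul]
      ring

lemma RIvert_cross (ha : a ≠ 0) (hb : b ≠ 0) (pos : Bool) (k i : ℕ) (X : List St)
    (hik : i < k ∨ k + 2 ≤ i) (h1 : i + 2 ≤ X.length) (h2 : k + 3 ≤ X.length) (G : List St → K) :
    rootR a a⁻¹ b b⁻¹ i (crossR a a⁻¹ b b⁻¹ pos k G) X
      = crossR a a⁻¹ b b⁻¹ pos k (rootR a a⁻¹ b b⁻¹ i G) X := by
  induction k generalizing i X G with
  | zero =>
    match X, h2, h1 with
    | p :: x :: y :: xs, _, h1 =>
      obtain _ | _ | _ | j := i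
      · omega
      · omega
      · match xs, h1 with
        | z :: zs, _ =>
          simp only [rootR, crossR]
          by_cases hz : z = (true, true)
          · subst hz
            simp only [and_true]
            by_cases hy : y = (true, true)
            · subst hy
              rw [if_pos rfl, XT_right a b pos p x
                (fun p' x' => tws a a⁻¹ b b⁻¹ zs * G (p' :: x' :: (false, false) :: (false, false)
                  :: zs)), XT_y0 a b pos p x (fun p' x' y' => G (p' :: x' :: y' :: (false, false)
                  :: zs)), ← RIvert_XT_mul]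
            · rw [if_neg hy, XT_right0 a b pos p x y hy
                (fun p' x' => tws a a⁻¹ b b⁻¹ zs * G (p' :: x' :: (false, false) :: (false, false)
                  :: zs))]
          · simp only [hz, and_false, if_false]
            rw [RIvert_XT_zero]
      · simp only [rootR, crossR]
        exact FinL.comm (RIvert_finL_rootR a a⁻¹ b b⁻¹ j xs) (finL_XT a a⁻¹ b b⁻¹ pos p x y)
          (fun Z t => G (t.1 :: t.2.1 :: t.2.2 :: Z))
  | succ k ih =>
    obtain _ | i := i
    · obtain _ | k := k
      · match X, h2 with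
        | w :: p :: x :: y :: xs, _ =>
          simp only [rootR, crossR]
          by_cases hw : w = (true, true)
          · subst hw
            simp only [true_and]
            by_cases hp : p = (true, true)
            · subst hp
              rw [if_pos rfl, RIvert_tws_cons, RIvert_tws_cons]
              have e : (fun p' x' y' : St => if p' = (true, true) then
                  tws a a⁻¹ b b⁻¹ (x' :: y' :: xs) * G ((false, false) :: (false, false) :: x' ::
                    y' :: xs) else 0)
                  = fun p' x' y' => tw a a⁻¹ b b⁻¹ p' * tw a a⁻¹ b b⁻¹ x' * tw a a⁻¹ b b⁻¹ y' *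
                    (if p' = (true, true) then tws a a⁻¹ b b⁻¹ xs * G ((false, false) ::
                      (false, false) :: x' :: y' :: xs) else 0) := by
                funext p' x' y'
                split_ifs with h
                · subst h
                  rw [tw_tt a b ha hb, RIvert_tws_cons, RIvert_tws_cons]
                  ring
                · ring
              rw [e, XT_tw a b ha hb pos (true, true) x y (fun p' x' y' => if p' = (true, true) then
                tws a a⁻¹ b b⁻¹ xs * G ((false, false) :: (false, false) :: x' :: y' :: xs) else 0),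
                XT_left a b pos x y (fun x' y' => tws a a⁻¹ b b⁻¹ xs * G ((false, false) ::
                  (false, false) :: x' :: y' :: xs)), tw_tt a b ha hb,
                RIvert_XT_mul a b pos (false, false) x y (tws a a⁻¹ b b⁻¹ xs)
                  (fun _ x' y' => G ((false, false) :: (false, false) :: x' :: y' :: xs)),
                XT_p0 a b pos x y (fun p' x' y' => G ((false, false) :: p' :: x' :: y' :: xs))]
              ring
            · rw [if_neg hp]
              have e : (fun p' x' y' : St => if p' = (true, true) then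
                  tws a a⁻¹ b b⁻¹ (x' :: y' :: xs) * G ((false, false) :: (false, false) :: x' ::
                    y' :: xs) else 0)
                  = fun p' x' y' => if p' = (true, true) then
                    (fun x' y' => tws a a⁻¹ b b⁻¹ (x' :: y' :: xs) * G ((false, false) ::
                      (false, false) :: x' :: y' :: xs)) x' y' else 0 := rfl
              rw [e, XT_left0 a b pos p x y hp]
          · simp only [hw, false_and, if_false]
            rw [RIvert_XT_zero]
      · match X, h2 with
        | x :: y :: xs, h2 =>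
          simp only [rootR, crossR]
          by_cases hxy : x = (true, true) ∧ y = (true, true)
          · simp only [hxy, and_self, if_true]
            exact (RIvert_cross_tws a b ha hb pos k xs (by simp at h2; omega)
              (fun Z => G ((false, false) :: (false, false) :: Z))).symm
          · simp only [hxy, if_false]
            exact ((finL_crossR a a⁻¹ b b⁻¹ pos k xs).map_zero).symm
    · match X, h1, h2 with
      | z :: xs, h1, h2 =>
        simp only [rootR, crossR]
        exact ih i xs (by omega) (by simp at h1; omega) (by simp at h2; omega) (fun Z => G (z :: Z))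

/-! ### the cup -/

lemma RIvert_ST_tw (ha : a ≠ 0) (hb : b ≠ 0) (x : St) (G : St → St → K) :
    ST a b x (fun l r => tw a a⁻¹ b b⁻¹ l * tw a a⁻¹ b b⁻¹ r * G l r)
      = tw a a⁻¹ b b⁻¹ x * ST a b x G := by
  rcases x with ⟨_ | _, _ | _⟩ <;> simp only [ST, tw_ff, tw_tf, tw_ft, tw_tt a b ha hb] <;>
    first | ring1 | (field_simp; done) | (field_simp; ring1)

lemma RIvert_ST_mul (x : St) (c : K) (H : St → St → K) :
    ST a b x (fun l r => c * H l r) = c * ST a b x H :=
  (finL_ST a b x).map_mul c (fun t => H t.1 t.2)

lemma RIvert_ST_zero (x : St) : ST a b x (fun _ _ => 0) = 0 := (finL_ST a b x).map_zero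

lemma RIvert_cup_tws (ha : a ≠ 0) (hb : b ≠ 0) (k : ℕ) (X : List St)
    (hX : k + 1 ≤ X.length) (H : List St → K) :
    cupR a b k (fun Z => tws a a⁻¹ b b⁻¹ Z * H Z) X
      = tws a a⁻¹ b b⁻¹ X * cupR a b k H X := by
  induction k generalizing X H with
  | zero =>
    match X, hX with
    | x :: xs, _ =>
      simp only [cupR, RIvert_tws_cons, tw_tt a b ha hb]
      have e : (fun l r : St => tw a a⁻¹ b b⁻¹ l * (1 * (tw a a⁻¹ b b⁻¹ r *
          tws a a⁻¹ b b⁻¹ xs)) * H (l :: (true, true) :: r :: xs))
          = fun l r => tw a a⁻¹ b b⁻¹ l * tw a a⁻¹ b b⁻¹ r *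
            (tws a a⁻¹ b b⁻¹ xs * H (l :: (true, true) :: r :: xs)) := by
        funext l r
        ring
      rw [e, RIvert_ST_tw a b ha hb x
        (fun l r => tws a a⁻¹ b b⁻¹ xs * H (l :: (true, true) :: r :: xs)),
        RIvert_ST_mul a b x (tws a a⁻¹ b b⁻¹ xs) (fun l r => H (l :: (true, true) :: r :: xs))]
      ring
  | succ k ih =>
    match X, hX with
    | z :: xs, hX =>
      simp only [cupR, RIvert_tws_cons]
      have e : (fun Z : List St => tw a a⁻¹ b b⁻¹ z * tws a a⁻¹ b b⁻¹ Z * H (z :: Z))
          = fun Z => tws a a⁻¹ b b⁻¹ Z * (tw a a⁻¹ b b⁻¹ z * H (z :: Z)) := by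
        funext Z
        ring
      rw [e, ih xs (by simp at hX; omega), (finL_cupR a b k xs).map_mul]
      ring

/-- the root is on the left of the cup -/
lemma RIvert_cupL (ha : a ≠ 0) (hb : b ≠ 0) (k i : ℕ) (X : List St)
    (hik : i < k) (h2 : k + 1 ≤ X.length) (G : List St → K) :
    rootR a a⁻¹ b b⁻¹ i (cupR a b k G) X = cupR a b k (rootR a a⁻¹ b b⁻¹ i G) X := by
  induction k generalizing i X G with
  | zero => omega
  | succ k ih =>
    obtain _ | i := i
    · obtain _ | k := k
      · match X, h2 with
        | w :: p :: xs, _ =>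
          simp only [rootR, cupR]
          by_cases hw : w = (true, true)
          · subst hw
            rcases p with ⟨_ | _, _ | _⟩ <;>
              simp [ST, RIvert_tws_cons, tw_tt a b ha hb, tw_ff]
          · simp only [hw, false_and, if_false]
            rw [RIvert_ST_zero]
      · match X, h2 with
        | x :: y :: xs, h2 =>
          simp only [rootR, cupR]
          by_cases hxy : x = (true, true) ∧ y = (true, true)
          · simp only [hxy, and_self, if_true]
            exact (RIvert_cup_tws a b ha hb k xs (by simp at h2; omega)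
              (fun Z => G ((false, false) :: (false, false) :: Z))).symm
          · simp only [hxy, if_false]
            exact ((finL_cupR a b k xs).map_zero).symm
    · match X, h2 with
      | z :: xs, h2 =>
        simp only [rootR, cupR]
        exact ih i xs (by omega) (by simp at h2; omega) (fun Z => G (z :: Z))

/-- the root is on the right of the cup -/
lemma RIvert_cupRt (ha : a ≠ 0) (hb : b ≠ 0) (k i : ℕ) (X : List St)
    (hik : k ≤ i) (h1 : i + 2 ≤ X.length) (G : List St → K) :
    rootR a a⁻¹ b b⁻¹ i (cupR a b k G) X = cupR a b k (rootR a a⁻¹ b b⁻¹ (i + 2) G) X := by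
  induction k generalizing i X G with
  | zero =>
    obtain _ | j := i
    · match X, h1 with
      | x :: y :: xs, _ =>
        simp only [rootR, cupR]
        by_cases hy : y = (true, true)
        · subst hy
          rcases x with ⟨_ | _, _ | _⟩ <;> simp [ST]
        · simp only [hy, and_false, if_false]
          rw [RIvert_ST_zero]
    · match X, h1 with
      | x :: xs, _ =>
        simp only [rootR, cupR]
        exact FinL.comm (RIvert_finL_rootR a a⁻¹ b b⁻¹ j xs) (finL_ST a b x)
          (fun Z t => G (t.1 :: (true, true) :: t.2 :: Z))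
  | succ k ih =>
    obtain _ | i := i
    · omega
    · match X, h1 with
      | z :: xs, h1 =>
        simp only [rootR, cupR]
        exact ih i xs (by omega) (by simp at h1; omega) (fun Z => G (z :: Z))

/-! ### the cap -/

lemma RIvert_MT_tw (ha : a ≠ 0) (hb : b ≠ 0) (p y : St) (H : St → K) :
    MT a⁻¹ b⁻¹ p y (fun z => tw a a⁻¹ b b⁻¹ z * H z)
      = tw a a⁻¹ b b⁻¹ p * tw a a⁻¹ b b⁻¹ y * MT a⁻¹ b⁻¹ p y H := by
  rcases p with ⟨_ | _, _ | _⟩ <;> rcases y with ⟨_ | _, _ | _⟩ <;>
    simp only [MT, tw_ff, tw_tf, tw_ft, tw_tt a b ha hb] <;>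
    first | ring1 | (field_simp; done) | (field_simp; ring1)

lemma RIvert_MT_mul (p y : St) (c : K) (H : St → K) :
    MT a⁻¹ b⁻¹ p y (fun z => c * H z) = c * MT a⁻¹ b⁻¹ p y H :=
  (finL_MT a⁻¹ b⁻¹ p y).map_mul c H

lemma RIvert_MT_zero (p y : St) : MT a⁻¹ b⁻¹ p y (fun _ => 0) = 0 :=
  (finL_MT a⁻¹ b⁻¹ p y).map_zero

lemma RIvert_cap_tws (ha : a ≠ 0) (hb : b ≠ 0) (k : ℕ) (X : List St)
    (hX : k + 3 ≤ X.length) (H : List St → K) :
    capR a⁻¹ b⁻¹ k (fun Z => tws a a⁻¹ b b⁻¹ Z * H Z) X
      = tws a a⁻¹ b b⁻¹ X * capR a⁻¹ b⁻¹ k H X := by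
  induction k generalizing X H with
  | zero =>
    match X, hX with
    | p :: x :: y :: xs, _ =>
      simp only [capR, RIvert_tws_cons]
      split_ifs with hx
      · subst hx
        have e : (fun z : St => tw a a⁻¹ b b⁻¹ z * tws a a⁻¹ b b⁻¹ xs * H (z :: xs))
            = fun z => tw a a⁻¹ b b⁻¹ z * (tws a a⁻¹ b b⁻¹ xs * H (z :: xs)) := by
          funext z
          ring
        rw [e, RIvert_MT_tw a b ha hb p y (fun z => tws a a⁻¹ b b⁻¹ xs * H (z :: xs)),
          RIvert_MT_mul a b p y (tws a a⁻¹ b b⁻¹ xs) (fun z => H (z :: xs)), tw_ff]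
        ring
      · ring
  | succ k ih =>
    match X, hX with
    | z :: xs, hX =>
      simp only [capR, RIvert_tws_cons]
      have e : (fun Z : List St => tw a a⁻¹ b b⁻¹ z * tws a a⁻¹ b b⁻¹ Z * H (z :: Z))
          = fun Z => tws a a⁻¹ b b⁻¹ Z * (tw a a⁻¹ b b⁻¹ z * H (z :: Z)) := by
        funext Z
        ring
      rw [e, ih xs (by simp at hX; omega), (finL_capR a⁻¹ b⁻¹ k xs).map_mul]
      ring

/-- the root is on the left of the cap -/
lemma RIvert_capL (ha : a ≠ 0) (hb : b ≠ 0) (k i : ℕ) (X : List St)
    (hik : i < k) (h2 : k + 3 ≤ X.length) (G : List St → K) :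
    rootR a a⁻¹ b b⁻¹ i (capR a⁻¹ b⁻¹ k G) X = capR a⁻¹ b⁻¹ k (rootR a a⁻¹ b b⁻¹ i G) X := by
  induction k generalizing i X G with
  | zero => omega
  | succ k ih =>
    obtain _ | i := i
    · obtain _ | k := k
      · match X, h2 with
        | w :: p :: x :: y :: xs, _ =>
          simp only [rootR, capR]
          by_cases hw : w = (true, true)
          · subst hw
            by_cases hx : x = (false, false)
            · subst hx
              rcases p with ⟨_ | _, _ | _⟩ <;> rcases y with ⟨_ | _, _ | _⟩ <;>
                simp [MT, RIvert_tws_cons, tw_tt a b ha hb, tw_ff]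
            · simp [hx]
          · simp only [hw, false_and, if_false]
            rw [RIvert_MT_zero]
            simp
      · match X, h2 with
        | x :: y :: xs, h2 =>
          simp only [rootR, capR]
          by_cases hxy : x = (true, true) ∧ y = (true, true)
          · simp only [hxy, and_self, if_true]
            exact (RIvert_cap_tws a b ha hb k xs (by simp at h2; omega)
              (fun Z => G ((false, false) :: (false, false) :: Z))).symm
          · simp only [hxy, if_false]
            exact ((finL_capR a⁻¹ b⁻¹ k xs).map_zero).symm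
    · match X, h2 with
      | z :: xs, h2 =>
        simp only [rootR, capR]
        exact ih i xs (by omega) (by simp at h2; omega) (fun Z => G (z :: Z))

/-- the root is on the right of the cap -/
lemma RIvert_capRt (ha : a ≠ 0) (hb : b ≠ 0) (k i : ℕ) (X : List St)
    (hik : k ≤ i) (h1 : i + 4 ≤ X.length) (G : List St → K) :
    rootR a a⁻¹ b b⁻¹ (i + 2) (capR a⁻¹ b⁻¹ k G) X
      = capR a⁻¹ b⁻¹ k (rootR a a⁻¹ b b⁻¹ i G) X := by
  induction k generalizing i X G with
  | zero =>
    obtain _ | j := i
    · match X, h1 with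
      | p :: x :: y :: z :: zs, _ =>
        simp only [rootR, capR]
        by_cases hz : z = (true, true)
        · subst hz
          by_cases hx : x = (false, false)
          · subst hx
            rcases p with ⟨_ | _, _ | _⟩ <;> rcases y with ⟨_ | _, _ | _⟩ <;> simp [MT]
          · simp [hx]
        · simp only [hz, and_false, if_false]
          rw [RIvert_MT_zero]
          simp
    · match X, h1 with
      | p :: x :: y :: xs, _ =>
        simp only [rootR, capR]
        by_cases hx : x = (false, false)
        · simp only [hx, if_true]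
          exact FinL.comm (RIvert_finL_rootR a a⁻¹ b b⁻¹ j xs) (finL_MT a⁻¹ b⁻¹ p y)
            (fun Z w => G (w :: Z))
        · simp only [hx, if_false]
          exact (RIvert_finL_rootR a a⁻¹ b b⁻¹ j xs).map_zero
  | succ k ih =>
    obtain _ | i := i
    · omega
    · match X, h1 with
      | z :: xs, h1 =>
        simp only [rootR, capR]
        exact ih i xs (by omega) (by simp at h1; omega) (fun Z => G (z :: Z))

theorem root_piece (ha : a ≠ 0) (hb : b ≠ 0) (act : Prop) [Decidable act] {p : Piece}
    {es es' : List Bool} (h : OStep p es es') (i i' : ℕ) (hu : Unt p i i') (hi : i < es.length)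
    (X : List St) (hX : X.length = es.length + 1) (G : List St → K) :
    rootR a a⁻¹ b b⁻¹ i (pieceU a a⁻¹ b b⁻¹ act p G) X
      = pieceU a a⁻¹ b b⁻¹ act p (rootR a a⁻¹ b b⁻¹ i' G) X := by
  cases h with
  | cross l₁ l₂ pos =>
    obtain ⟨hik, rfl⟩ := hu
    simp only [pieceU]
    split_ifs
    · refine RIvert_cross a b ha hb pos _ _ X hik (by omega) ?_ G
      simp only [List.length_append, List.length_cons] at hX
      omega
    · rfl
  | cup l₁ l₂ s =>
    simp only [pieceU]
    simp only [List.length_append] at hX hi
    rcases hu with ⟨hik, rfl⟩ | ⟨hik, rfl⟩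
    · exact RIvert_cupL a b ha hb _ _ X hik (by omega) G
    · exact RIvert_cupRt a b ha hb _ _ X hik (by omega) G
  | cap l₁ l₂ s =>
    simp only [pieceU]
    simp only [List.length_append, List.length_cons] at hX hi
    rcases hu with ⟨hik, rfl⟩ | ⟨hik, rfl⟩
    · exact RIvert_capL a b ha hb _ _ X hik (by omega) G
    · exact RIvert_capRt a b ha hb _ _ X (by omega) (by omega) G

end LGAlt
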