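import Pool.Agent.LGAlt2.RImove
import Pool.Agent.LGAlt2.RIvert

/-!
# Root independence

* `evU_split` : for `w = w₁ ++ w₂` and a root at the level `w₁.length`,
  `evU U (w₁.length, i) 0 w = pre U 0 w₁ (rootR i (pre U w₁.length w₂ δ))` (more generally starting at a
  level `j`; the roots at other levels do nothing).
* `root_indep_field` : by `root_horiz` roots at the same level give the same value.  For every piece
  `OStep p es es'` with `es.length` odd there is an untouched strand (`Unt p i i'`, `i < es.length`,
  `i' < es'.length`): for cups any `i`; crossings and caps need `es.length ≥ 2`, so `≥ 3`.  The lengths of all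
  levels are odd.  By `root_piece` (and `pre_congr`, `pre` of an appended piece) roots at neighbouring levels
  give the same value.  So all roots give the same value as `(0, 0)`.
* `root_indep` : the same over `L`, via the injection of `L` into its fraction field (see `LG_eq_regV` in
  `LGAlt/Word.lean`, `map_regV`); `a² ≠ 1` and `b² ≠ 1` there (coefficients).
* `LG_eq_evU` : `LG w` is the value with all crossings active and the root `(0, 0)`: the root empties the
  two full regions of the level `0`, then `evU` is `regV` (`LG_eq_regV`).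
-/

namespace LGAlt

lemma opath_snoc {w : List Piece} {p : Piece} {x z : List Bool} (h : OPath (w ++ [p]) x z) :
    ∃ y, OPath w x y ∧ OStep p y z := by
  induction w generalizing x with
  | nil =>
    cases h with
    | cons _ _ _ y _ hs ht =>
      cases ht
      exact ⟨x, .nil _, hs⟩
  | cons q w ih =>
    cases h with
    | cons _ _ _ y _ hs ht =>
      obtain ⟨y', h1, h2⟩ := ih ht
      exact ⟨y', .cons _ _ _ _ _ hs h1, h2⟩

/-- the lengths of the levels are odd -/
lemma opath_odd {w : List Piece} {es : List Bool} (h : OPath w [true] es) : es.length % 2 = 1 := by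
  have := h.count
  simp only [List.length_cons, List.length_nil] at this
  omega

/-- there is an untouched strand -/
lemma exists_unt {p : Piece} {x y : List Bool} (h : OStep p x y) (hx : x.length % 2 = 1) :
    ∃ i i', Unt p i i' ∧ i < x.length ∧ i' < y.length := by
  cases h with
  | cross l₁ l₂ pos =>
    simp only [List.length_append, List.length_cons] at hx
    rcases Nat.eq_zero_or_pos l₁.length with h | h
    · refine ⟨2, 2, ⟨Or.inr (by omega), rfl⟩, ?_, ?_⟩
      · simp only [List.length_append, List.length_cons]; omega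
      · simp only [List.length_append, List.length_cons]; omega
    · refine ⟨0, 0, ⟨Or.inl h, rfl⟩, ?_, ?_⟩
      · simp only [List.length_append, List.length_cons]; omega
      · simp only [List.length_append, List.length_cons]; omega
  | cup l₁ l₂ s =>
    simp only [List.length_append] at hx
    rcases Nat.eq_zero_or_pos l₁.length with h | h
    · refine ⟨0, 2, Or.inr ⟨by omega, rfl⟩, ?_, ?_⟩
      · simp only [List.length_append]; omega
      · simp only [List.length_append, List.length_cons]; omega
    · refine ⟨0, 0, Or.inl ⟨h, rfl⟩, ?_, ?_⟩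
      · simp only [List.length_append]; omega
      · simp only [List.length_append, List.length_cons]; omega
  | cap l₁ l₂ s =>
    simp only [List.length_append, List.length_cons] at hx
    rcases Nat.eq_zero_or_pos l₁.length with h | h
    · refine ⟨2, 0, Or.inr ⟨by omega, rfl⟩, ?_, ?_⟩
      · simp only [List.length_append, List.length_cons]; omega
      · simp only [List.length_append]; omega
    · refine ⟨0, 0, Or.inl ⟨h, rfl⟩, ?_, ?_⟩
      · simp only [List.length_append, List.length_cons]; omega
      · simp only [List.length_append]; omega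

section

variable {K : Type*} [Field K] (a b : K)

/-- the delta functional at the last level -/
def dlt (K : Type*) [CommRing K] : List St → K :=
  fun X => if X = [(false, false), (false, false)] then 1 else 0

/-- a root at a lower level does nothing -/
lemma evU_past (U : Finset ℕ) (r : ℕ × ℕ) (w : List Piece) (j : ℕ) (hr : r.1 < j) :
    evU a a⁻¹ b b⁻¹ U r j w = pre a a⁻¹ b b⁻¹ U j w (dlt K) := by
  induction w generalizing j with
  | nil =>
    simp only [evU, pre, rootAt]
    rw [if_neg (by omega)]
    rfl
  | cons p w ih =>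
    simp only [evU, pre, rootAt]
    rw [if_neg (by omega), ih (j + 1) (by omega)]

lemma evU_split' (U : Finset ℕ) (w₁ w₂ : List Piece) (j i n : ℕ) (hn : n = j + w₁.length) :
    evU a a⁻¹ b b⁻¹ U (n, i) j (w₁ ++ w₂)
      = pre a a⁻¹ b b⁻¹ U j w₁ (rootR a a⁻¹ b b⁻¹ i
          (pre a a⁻¹ b b⁻¹ U n w₂ (dlt K))) := by
  induction w₁ generalizing j with
  | nil =>
    simp only [List.length_nil, Nat.add_zero] at hn
    subst hn
    cases w₂ with
    | nil =>
      simp only [List.nil_append, evU, pre, rootAt, if_true]
      rfl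
    | cons p w =>
      simp only [List.nil_append, evU, pre, rootAt, if_true]
      rw [evU_past a b U (n, i) w (n + 1) (Nat.lt_succ_self n)]
  | cons p w₁ ih =>
    simp only [List.length_cons] at hn
    simp only [List.cons_append, evU, pre, rootAt]
    rw [if_neg (by omega), ih (j + 1) (by omega)]

theorem evU_split (U : Finset ℕ) (w₁ w₂ : List Piece) (j i : ℕ) (X : List St) :
    evU a a⁻¹ b b⁻¹ U (j + w₁.length, i) j (w₁ ++ w₂) X
      = pre a a⁻¹ b b⁻¹ U j w₁ (rootR a a⁻¹ b b⁻¹ i
          (pre a a⁻¹ b b⁻¹ U (j + w₁.length) w₂ (dlt K))) X := by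
  rw [evU_split' a b U w₁ w₂ j i (j + w₁.length) rfl]

lemma pre_snoc (U : Finset ℕ) (w : List Piece) (p : Piece) (j n : ℕ) (hn : n = j + w.length)
    (G : List St → K) :
    pre a a⁻¹ b b⁻¹ U j (w ++ [p]) G
      = pre a a⁻¹ b b⁻¹ U j w (pieceU a a⁻¹ b b⁻¹ (n ∈ U) p G) := by
  induction w generalizing j with
  | nil =>
    simp only [List.length_nil, Nat.add_zero] at hn
    subst hn
    rfl
  | cons q w ih =>
    simp only [List.length_cons] at hn
    simp only [List.cons_append, pre]
    rw [ih (j + 1) (by omega)]

theorem root_indep_field (ha : a ≠ 0) (hb : b ≠ 0) (ha2 : a ^ 2 ≠ 1) (hb2 : b ^ 2 ≠ 1)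
    (U : Finset ℕ) {w₁ w₂ : List Piece} {es : List Bool} (h₁ : OPath w₁ [true] es)
    (h₂ : OPath w₂ es [true]) (i : ℕ) (hi : i < es.length) :
    evU a a⁻¹ b b⁻¹ U (w₁.length, i) 0 (w₁ ++ w₂) [(true, true), (true, true)]
      = evU a a⁻¹ b b⁻¹ U (0, 0) 0 (w₁ ++ w₂) [(true, true), (true, true)] := by
  induction w₁ using List.reverseRecOn generalizing w₂ es i with
  | nil =>
    cases h₁
    have : i = 0 := by simpa using hi
    subst this
    rfl
  | append_singleton w p ih =>
    obtain ⟨ys, hw, hp⟩ := opath_snoc h₁
    obtain ⟨i₀, i₁, hu, h0, h1⟩ := exists_unt hp (opath_odd hw)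
    have hw2 : OPath (p :: w₂) ys [true] := .cons _ _ _ _ _ hp h₂
    have e1 := root_horiz a b ha hb ha2 hb2 U h₁ h₂ 0 (w ++ [p]).length i i₁ hi h1
    have e2 : pre a a⁻¹ b b⁻¹ U 0 (w ++ [p]) (rootR a a⁻¹ b b⁻¹ i₁
          (pre a a⁻¹ b b⁻¹ U (w ++ [p]).length w₂ (dlt K))) [(true, true), (true, true)]
        = pre a a⁻¹ b b⁻¹ U 0 w (rootR a a⁻¹ b b⁻¹ i₀
          (pre a a⁻¹ b b⁻¹ U w.length (p :: w₂) (dlt K))) [(true, true), (true, true)] := by
      rw [pre_snoc a b U w p 0 w.length (Nat.zero_add _).symm]
      refine pre_congr a b U 0 hw _ rfl _ _ (fun X' hX' => ?_)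
      have e3 := root_piece a b ha hb (w.length ∈ U) hp i₀ i₁ hu h0 X' hX'
        (pre a a⁻¹ b b⁻¹ U (w.length + 1) w₂ (dlt K))
      simp only [pre, Nat.zero_add, List.length_append, List.length_cons, List.length_nil]
      rw [e3]
    have e4 := ih hw hw2 i₀ h0
    have e5 := evU_split a b U (w ++ [p]) w₂ 0 i [(true, true), (true, true)]
    have e6 := evU_split a b U w (p :: w₂) 0 i₀ [(true, true), (true, true)]
    simp only [Nat.zero_add] at e5 e6
    have e7 : w ++ p :: w₂ = w ++ [p] ++ w₂ := by simp
    rw [e5]
    refine e1.trans (e2.trans ?_)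
    rw [← e6, e4, e7]

end

/-- the evaluation over Laurent polynomials -/
noncomputable def evL (U : Finset ℕ) (r : ℕ × ℕ) (j : ℕ) (w : List Piece) : List St → L :=
  evU (mon 1 0) (mon (-1) 0) (mon 0 1) (mon 0 (-1)) U r j w

section natural

variable {R S : Type*} [CommRing R] [CommRing S] (φ : R →+* S) (a a' b b' : R)

lemma map_crossR (pos : Bool) (k : ℕ) (G : List St → R) (X : List St) :
    crossR (φ a) (φ a') (φ b) (φ b') pos k (fun X => φ (G X)) X = φ (crossR a a' b b' pos k G X) := by
  induction k generalizing X G with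
  | zero =>
    match X with
    | [] => simp [crossR]
    | [_] => simp [crossR]
    | [_, _] => simp [crossR]
    | p :: x :: y :: xs => simp only [crossR]; exact map_XT φ a a' b b' pos p x y _
  | succ k ih =>
    match X with
    | [] => simp [crossR]
    | z :: xs => simp only [crossR]; exact ih _ xs

lemma map_cupR (k : ℕ) (G : List St → R) (X : List St) :
    cupR (φ a) (φ b) k (fun X => φ (G X)) X = φ (cupR a b k G X) := by
  induction k generalizing X G with
  | zero =>
    match X with
    | [] => simp [cupR]
    | x :: xs => simp only [cupR]; exact map_ST φ a b x _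
  | succ k ih =>
    match X with
    | [] => simp [cupR]
    | z :: xs => simp only [cupR]; exact ih _ xs

lemma map_capR (k : ℕ) (G : List St → R) (X : List St) :
    capR (φ a') (φ b') k (fun X => φ (G X)) X = φ (capR a' b' k G X) := by
  induction k generalizing X G with
  | zero =>
    match X with
    | [] => simp [capR]
    | [_] => simp [capR]
    | [_, _] => simp [capR]
    | p :: x :: y :: xs =>
      simp only [capR]
      split_ifs
      · exact map_MT φ a' b' p y _
      · simp
  | succ k ih =>
    match X with
    | [] => simp [capR]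
    | z :: xs => simp only [capR]; exact ih _ xs

lemma map_tw (x : St) : tw (φ a) (φ a') (φ b) (φ b') x = φ (tw a a' b b' x) := by
  simp only [tw, map_mul, map_pow]

lemma map_tws (xs : List St) : tws (φ a) (φ a') (φ b) (φ b') xs = φ (tws a a' b b' xs) := by
  induction xs with
  | nil => simp [tws]
  | cons x xs ih =>
    simp only [tws, List.map_cons, List.prod_cons, map_mul] at ih ⊢
    rw [ih, map_tw]

lemma map_rootR (i : ℕ) (G : List St → R) (X : List St) :
    rootR (φ a) (φ a') (φ b) (φ b') i (fun X => φ (G X)) X = φ (rootR a a' b b' i G X) := by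
  induction i generalizing X G with
  | zero =>
    match X with
    | [] => simp [rootR]
    | [_] => simp [rootR]
    | x :: y :: xs =>
      simp only [rootR]
      split_ifs
      · rw [map_mul, map_tws]
      · simp
  | succ k ih =>
    match X with
    | [] => simp [rootR]
    | z :: xs => simp only [rootR]; exact ih _ xs

lemma map_pieceU (act : Prop) [Decidable act] (p : Piece) (G : List St → R) :
    pieceU (φ a) (φ a') (φ b) (φ b') act p (fun X => φ (G X))
      = fun X => φ (pieceU a a' b b' act p G X) := by
  funext X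
  cases p with
  | cross k pos =>
    simp only [pieceU]
    split_ifs
    · exact map_crossR φ a a' b b' pos k G X
    · rfl
  | cup k s => exact map_cupR φ a b k G X
  | cap k s => exact map_capR φ a' b' k G X

lemma map_rootAt (r : ℕ × ℕ) (j : ℕ) (G : List St → R) :
    rootAt (φ a) (φ a') (φ b) (φ b') r j (fun X => φ (G X))
      = fun X => φ (rootAt a a' b b' r j G X) := by
  funext X
  simp only [rootAt]
  split_ifs
  · exact map_rootR φ a a' b b' _ G X
  · rfl

theorem map_evU (U : Finset ℕ) (r : ℕ × ℕ) (j : ℕ) (w : List Piece) :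
    evU (φ a) (φ a') (φ b) (φ b') U r j w = fun X => φ (evU a a' b b' U r j w X) := by
  induction w generalizing j with
  | nil =>
    have e : (fun X : List St => if X = [(false, false), (false, false)] then (1 : S) else 0)
        = fun X => φ (if X = [(false, false), (false, false)] then (1 : R) else 0) := by
      funext X
      split_ifs <;> simp
    simp only [evU]
    rw [e]
    exact map_rootAt φ a a' b b' r j _
  | cons p w ih =>
    simp only [evU]
    rw [ih (j + 1), map_pieceU]
    exact map_rootAt φ a a' b b' r j _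

/-- the root at a lower level does nothing, all crossings are active -/
lemma evU_eq_regV (U : Finset ℕ) (r : ℕ × ℕ) (w : List Piece) (j : ℕ) (hr : r.1 < j)
    (hU : ∀ i k pos, w[i]? = some (Piece.cross k pos) → j + i ∈ U) :
    evU a a' b b' U r j w = regV a a' b b' w := by
  induction w generalizing j with
  | nil =>
    funext X
    simp only [evU, regV, rootAt]
    rw [if_neg (by omega)]
  | cons p w ih =>
    funext X
    simp only [evU, regV, rootAt]
    rw [if_neg (by omega), ih (j + 1) (by omega)
      (fun i k pos h => by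
        have := hU (i + 1) k pos (by simpa using h)
        have e : j + 1 + i = j + (i + 1) := by omega
        rw [e]; exact this)]
    cases p with
    | cross k pos =>
      have : j ∈ U := by simpa using hU 0 k pos (by simp)
      simp only [pieceU, pieceR, this, if_true]
    | cup k s => rfl
    | cap k s => rfl

end natural

lemma mon_ne_one (x y : ℤ) (h : (x, y) ≠ 0) : mon x y ≠ (1 : L) := by
  intro h5
  have h6 := congrArg (fun z : L => z.coeff ((x, y) : ℤ × ℤ)) h5
  simp [mon, AddMonoidAlgebra.one_def, Finsupp.single_apply] at h6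
  exact h h6.symm

/-- the injection of `L` into its fraction field -/
lemma exists_field : ∃ (K : Type) (_ : Field K) (φ : L →+* K), Function.Injective φ ∧
    φ (mon 1 0) ≠ 0 ∧ φ (mon 0 1) ≠ 0 ∧ φ (mon (-1) 0) = (φ (mon 1 0))⁻¹ ∧
    φ (mon 0 (-1)) = (φ (mon 0 1))⁻¹ ∧ φ (mon 1 0) ^ 2 ≠ 1 ∧ φ (mon 0 1) ^ 2 ≠ 1 := by
  let φ : L →+* FractionRing L := algebraMap L (FractionRing L)
  have hφ : Function.Injective φ := IsFractionRing.injective L (FractionRing L)
  have h1 : mon 1 0 * mon (-1) 0 = (1 : L) := by rw [mon_mul']; rfl
  have h2 : mon 0 1 * mon 0 (-1) = (1 : L) := by rw [mon_mul']; rfl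
  have ha : φ (mon 1 0) ≠ 0 := by
    intro h
    have : φ (mon 1 0 * mon (-1) 0) = 0 := by rw [map_mul, h, zero_mul]
    rw [h1, map_one] at this
    exact one_ne_zero this
  have hb : φ (mon 0 1) ≠ 0 := by
    intro h
    have : φ (mon 0 1 * mon 0 (-1)) = 0 := by rw [map_mul, h, zero_mul]
    rw [h2, map_one] at this
    exact one_ne_zero this
  have ha' : φ (mon (-1) 0) = (φ (mon 1 0))⁻¹ :=
    eq_inv_of_mul_eq_one_left (by rw [← map_mul, mul_comm, h1, map_one])
  have hb' : φ (mon 0 (-1)) = (φ (mon 0 1))⁻¹ :=
    eq_inv_of_mul_eq_one_left (by rw [← map_mul, mul_comm, h2, map_one])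
  have ha2 : φ (mon 1 0) ^ 2 ≠ 1 := by
    intro h
    have h3 : φ (mon 1 0 ^ 2) = φ 1 := by rw [map_pow, map_one, h]
    have h4 := hφ h3
    have : mon 1 0 ^ 2 = mon 2 0 := by rw [pow_two, mon_mul']; rfl
    rw [this] at h4
    exact mon_ne_one 2 0 (by decide) h4
  have hb2 : φ (mon 0 1) ^ 2 ≠ 1 := by
    intro h
    have h3 : φ (mon 0 1 ^ 2) = φ 1 := by rw [map_pow, map_one, h]
    have h4 := hφ h3
    have : mon 0 1 ^ 2 = mon 0 2 := by rw [pow_two, mon_mul']; rfl
    rw [this] at h4
    exact mon_ne_one 0 2 (by decide) h4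
  exact ⟨FractionRing L, inferInstance, φ, hφ, ha, hb, ha', hb', ha2, hb2⟩

theorem root_indep (U : Finset ℕ) {w₁ w₂ : List Piece} {es : List Bool} (h₁ : OPath w₁ [true] es)
    (h₂ : OPath w₂ es [true]) (i : ℕ) (hi : i < es.length) :
    evL U (w₁.length, i) 0 (w₁ ++ w₂) [(true, true), (true, true)]
      = evL U (0, 0) 0 (w₁ ++ w₂) [(true, true), (true, true)] := by
  obtain ⟨K, hK, φ, hφ, ha, hb, ha', hb', ha2, hb2⟩ := exists_field
  apply hφ
  have h := root_indep_field (φ (mon 1 0)) (φ (mon 0 1)) ha hb ha2 hb2 U h₁ h₂ i hi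
  rw [← ha', ← hb', map_evU φ, map_evU φ] at h
  exact h

theorem LG_eq_evU {w : List Piece} (hw : OPath w [true] [true]) (U : Finset ℕ)
    (hU : ∀ j k pos, w[j]? = some (Piece.cross k pos) → j ∈ U) :
    LG w = evL U (0, 0) 0 w [(true, true), (true, true)] := by
  rw [LG_eq_regV hw, evL]
  cases w with
  | nil => simp [evU, regV, rootAt, rootR, tws]
  | cons p w =>
    have e := evU_eq_regV (mon 1 0) (mon (-1) 0) (mon 0 1) (mon 0 (-1)) U (0, 0) w 1 (by simp)
      (fun i k pos h => by
        have := hU (i + 1) k pos (by simpa using h)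
        rw [Nat.add_comm 1 i]; exact this)
    simp only [evU, rootAt, if_true, Nat.zero_add, regV, rootR, and_self, tws, List.map_nil,
      List.prod_nil, one_mul]
    rw [e]
    cases p with
    | cross k pos =>
      have : 0 ∈ U := hU 0 k pos (by simp)
      simp only [pieceU, pieceR, this, if_true]
    | cup k s => rfl
    | cap k s => rfl

end LGAlt
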