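import Pool.Agent.LGAlt2.RIcomm
import Pool.Agent.LGAlt2.RIloc0

/-!
# Root independence: moving a root horizontally

`BOK O c sc t` collects the properties of `bop O c`.  `sc` is `-1` for `D1`, `D2` and `(a b)²` for `E`; `t` is
the change of the twist of a region under `O.i`: `(a b)²`, `(a b)⁻²`, `(a b)⁴`.

For an operator `O` with table `c` put `δ i es G X = op O es (bop O c i es G) X - sc * bop O c i es (op O es G) X`.
* `i = i' + 1`, `es = e :: es'`, `X = w :: xs`: from the definitions
  `op O es (bop O c (i'+1) es G) (w :: xs) = O.i w (fun y => (O.s e)⁻¹ * (O.k y)⁻¹ * bop i' es' (G (y :: ·)) xs)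
   + O.k w * O.s e * ((O.s e)⁻¹ * (O.k w)⁻¹ * op O es' (bop i' es' (G (w :: ·))) xs)` and
  `bop (i'+1) es (op O es G) (w :: xs) = (O.s e)⁻¹ * (O.k w)⁻¹ * (O.i w (fun y => bop i' es' (G (y :: ·)) xs)
   + O.k w * O.s e * bop i' es' (op O es' (G (w :: ·))) xs)`.
  The terms with `O.i` cancel in `δ` by `BOK.ik`, the other ones give `δ i' es' (G (w :: ·)) xs`.
* `i = 0`: with `op_three` and `BOK.fin`, the terms with `opT O es'` cancel by `BOK.tw` and `BOK.ck`; the
  rest is the local expression in `loc_move`, multiplied by the twist of `xs`.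
So the sum of `δ` for the three operators is `(1 - a²)(1 - b²)(rootR (i+1) - rootR i)` for `i = 0` by
`loc_move`, and then for all `i` by induction (`rootR (i'+1) G (w :: xs) = rootR i' (G (w :: ·)) xs`).

`root_horiz`: `pre (word from the first level) (rootR i (pre (word to the last level) δ))` at the full state
does not depend on `i`: by `op_suffix` the terms `bop i es (op O es G)` vanish (`bop_congr`), by `op_prefix`
the terms `op O es (bop i es G)` do not contribute.
-/

namespace LGAlt

variable {K : Type*} [Field K] (a b : K)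

structure BOK (O : OpD K) (c : Bool → Bool → St → St → St → (St → St → St → K) → K) (sc t : K) :
    Prop where
  /-- the skipping factors are not zero -/
  k0 : ∀ x, O.k x ≠ 0
  s0 : ∀ e, O.s e ≠ 0
  /-- `c e₁ e₂ x y z` is a finite linear functional -/
  fin : ∀ e₁ e₂ x y z, FinL (fun f : St × St × St → K => c e₁ e₂ x y z (fun x y z => f (x, y, z)))
  ik : ∀ (w : St) (Z : St → K), O.i w (fun y => (O.k y)⁻¹ * Z y) = sc * ((O.k w)⁻¹ * O.i w Z)
  tw : ∀ (w : St) (Z : St → K), O.i w (fun y => LGAlt.tw a a⁻¹ b b⁻¹ y * Z y)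
    = t * (LGAlt.tw a a⁻¹ b b⁻¹ w * O.i w Z)
  ck : ∀ (e₁ e₂ : Bool) (x y z : St) (Z : St → St → St → K),
    sc * c e₁ e₂ x y z (fun x' y' z' => O.k x' * O.k y' * O.k z' * Z x' y' z')
      = t * (O.k x * O.k y * O.k z) * c e₁ e₂ x y z Z

theorem bok_D1 (ha : a ≠ 0) (hb : b ≠ 0) :
    BOK a b (opD1 a b) (bD1 a b) (-1) ((a * b) ^ 2) := by
  refine ⟨?_, ?_, ?_, ?_, ?_, ?_⟩
  · intro x
    rcases x with ⟨_ | _, _ | _⟩ <;> simp [opD1, ha, hb]
  · intro e
    cases e <;> simp [opD1, ha, hb]
  · intro e₁ e₂ x y z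
    cases e₁ <;> cases e₂ <;> rcases x with ⟨_ | _, _ | _⟩ <;> rcases y with ⟨_ | _, _ | _⟩ <;>
      rcases z with ⟨_ | _, _ | _⟩ <;> dsimp only [bD1] <;>
      repeat' first | exact FinL.eval _ | exact FinL.zero | apply FinL.add | apply FinL.sub |
        apply FinL.neg | apply FinL.const_mul
  · intro w Z
    rcases w with ⟨_ | _, _ | _⟩ <;> simp only [opD1] <;>
      first | ring1 | (field_simp; done) | (field_simp; ring1)
  · intro w Z
    rcases w with ⟨_ | _, _ | _⟩ <;> simp only [opD1, tw_ff, tw_tf, tw_ft, tw_tt a b ha hb] <;>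
      first | ring1 | (field_simp; done) | (field_simp; ring1)
  · intro e₁ e₂ x y z Z
    cases e₁ <;> cases e₂ <;> rcases x with ⟨_ | _, _ | _⟩ <;> rcases y with ⟨_ | _, _ | _⟩ <;>
      rcases z with ⟨_ | _, _ | _⟩ <;> simp only [opD1, bD1] <;>
      first | ring1 | (field_simp; done) | (field_simp; ring1)

theorem bok_D2 (ha : a ≠ 0) (hb : b ≠ 0) :
    BOK a b (opD2 a b) (bD2 a b) (-1) ((a⁻¹ * b⁻¹) ^ 2) := by
  refine ⟨?_, ?_, ?_, ?_, ?_, ?_⟩
  · intro x
    rcases x with ⟨_ | _, _ | _⟩ <;> simp [opD2, ha, hb]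
  · intro e
    cases e <;> simp [opD2, ha, hb]
  · intro e₁ e₂ x y z
    cases e₁ <;> cases e₂ <;> rcases x with ⟨_ | _, _ | _⟩ <;> rcases y with ⟨_ | _, _ | _⟩ <;>
      rcases z with ⟨_ | _, _ | _⟩ <;> dsimp only [bD2] <;>
      repeat' first | exact FinL.eval _ | exact FinL.zero | apply FinL.add | apply FinL.sub |
        apply FinL.neg | apply FinL.const_mul
  · intro w Z
    rcases w with ⟨_ | _, _ | _⟩ <;> simp only [opD2] <;>
      first | ring1 | (field_simp; done) | (field_simp; ring1)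
  · intro w Z
    rcases w with ⟨_ | _, _ | _⟩ <;> simp only [opD2, tw_ff, tw_tf, tw_ft, tw_tt a b ha hb] <;>
      first | ring1 | (field_simp; done) | (field_simp; ring1)
  · intro e₁ e₂ x y z Z
    cases e₁ <;> cases e₂ <;> rcases x with ⟨_ | _, _ | _⟩ <;> rcases y with ⟨_ | _, _ | _⟩ <;>
      rcases z with ⟨_ | _, _ | _⟩ <;> simp only [opD2, bD2] <;>
      first | ring1 | (field_simp; done) | (field_simp; ring1)

theorem bok_E (ha : a ≠ 0) (hb : b ≠ 0) :
    BOK a b (opE a b) (bE a b) ((a * b) ^ 2) ((a * b) ^ 4) := by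
  refine ⟨?_, ?_, ?_, ?_, ?_, ?_⟩
  · intro x
    rcases x with ⟨_ | _, _ | _⟩ <;> simp [opE, ha, hb]
  · intro e
    cases e <;> simp [opE, ha, hb]
  · intro e₁ e₂ x y z
    cases e₁ <;> cases e₂ <;> rcases x with ⟨_ | _, _ | _⟩ <;> rcases y with ⟨_ | _, _ | _⟩ <;>
      rcases z with ⟨_ | _, _ | _⟩ <;> dsimp only [bE] <;>
      repeat' first | exact FinL.eval _ | exact FinL.zero | apply FinL.add | apply FinL.sub |
        apply FinL.neg | apply FinL.const_mul
  · intro w Z
    rcases w with ⟨_ | _, _ | _⟩ <;> simp only [opE] <;>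
      first | ring1 | (field_simp; done) | (field_simp; ring1)
  · intro w Z
    rcases w with ⟨_ | _, _ | _⟩ <;> simp only [opE, tw_ff, tw_tf, tw_ft, tw_tt a b ha hb] <;>
      first | ring1 | (field_simp; done) | (field_simp; ring1)
  · intro e₁ e₂ x y z Z
    cases e₁ <;> cases e₂ <;> rcases x with ⟨_ | _, _ | _⟩ <;> rcases y with ⟨_ | _, _ | _⟩ <;>
      rcases z with ⟨_ | _, _ | _⟩ <;> simp only [opE, bE] <;>
      first | ring1 | (field_simp; done) | (field_simp; ring1)

lemma bop_congr (O : OpD K) (c : Bool → Bool → St → St → St → (St → St → St → K) → K)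
    (i : ℕ) (es : List Bool) (X : List St) (G G' : List St → K)
    (h : ∀ X', X'.length = X.length → G X' = G' X') :
    bop a b O c i es G X = bop a b O c i es G' X := by
  induction i generalizing es X G G' with
  | zero =>
    match es, X with
    | [], _ => simp only [bop]
    | [_], _ => simp only [bop]
    | _ :: _ :: _, [] => simp only [bop]
    | _ :: _ :: _, [_] => simp only [bop]
    | _ :: _ :: _, [_, _] => simp only [bop]
    | e₁ :: e₂ :: es, x :: y :: z :: xs =>
      simp only [bop]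
      congr 1
      funext x' y' z'
      rw [h]
      simp
  | succ i ih =>
    match es, X with
    | [], _ => simp only [bop]
    | _ :: _, [] => simp only [bop]
    | e :: es, w :: xs =>
      simp only [bop]
      rw [ih es xs (fun X => G (w :: X)) (fun X => G' (w :: X)) fun X' hX' => h _ (by simp [hX'])]

private lemma finL_bop {O : OpD K} {c : Bool → Bool → St → St → St → (St → St → St → K) → K}
    {sc t : K} (hB : BOK a b O c sc t) (i : ℕ) (es : List Bool) (X : List St) :
    FinL (fun G : List St → K => bop a b O c i es G X) := by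
  induction i generalizing es X with
  | zero =>
    match es, X with
    | [], _ => simpa only [bop] using FinL.zero
    | [_], _ => simpa only [bop] using FinL.zero
    | _ :: _ :: _, [] => simpa only [bop] using FinL.zero
    | _ :: _ :: _, [_] => simpa only [bop] using FinL.zero
    | _ :: _ :: _, [_, _] => simpa only [bop] using FinL.zero
    | e₁ :: e₂ :: es, x :: y :: z :: xs =>
      simp only [bop]
      exact FinL.comp (M := fun (p : St × St × St) (G : List St → K) =>
        tws a a⁻¹ b b⁻¹ xs * G (p.1 :: p.2.1 :: p.2.2 :: xs)) (hB.fin e₁ e₂ x y z)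
        fun p => FinL.const_mul _ (FinL.eval _)
  | succ i ih =>
    match es, X with
    | [], _ => simpa only [bop] using FinL.zero
    | _ :: _, [] => simpa only [bop] using FinL.zero
    | e :: es, w :: xs =>
      simp only [bop]
      refine FinL.const_mul _ ?_
      obtain ⟨L, hL⟩ := ih es xs
      exact ⟨L.map (fun c => (c.1, w :: c.2)), fun f => by
        rw [hL]; simp [List.map_map, Function.comp_def]⟩

/-- the commutator of the two operators -/
private def del (O : OpD K) (c : Bool → Bool → St → St → St → (St → St → St → K) → K) (sc : K)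
    (i : ℕ) (es : List Bool) (G : List St → K) (X : List St) : K :=
  op O es (bop a b O c i es G) X - sc * bop a b O c i es (op O es G) X

private lemma del_succ {O : OpD K} {c : Bool → Bool → St → St → St → (St → St → St → K) → K}
    {sc t : K} (hB : BOK a b O c sc t) (hf : ∀ x, FinL (O.i x)) (i : ℕ) (e : Bool)
    (es : List Bool) (G : List St → K) (w x : St) (xs : List St) :
    del a b O c sc (i + 1) (e :: es) G (w :: x :: xs)
      = del a b O c sc i es (fun X => G (w :: X)) (x :: xs) := by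
  have hs := hB.s0 e
  have hk := hB.k0 w
  have e1 : op O (e :: es) (bop a b O c (i + 1) (e :: es) G) (w :: x :: xs)
      = (O.s e)⁻¹ * (sc * ((O.k w)⁻¹ *
          O.i w (fun y => bop a b O c i es (fun X => G (y :: X)) (x :: xs))))
        + op O es (bop a b O c i es (fun X => G (w :: X))) (x :: xs) := by
    have h1 : op O (e :: es) (bop a b O c (i + 1) (e :: es) G) (w :: x :: xs)
        = O.i w (fun y => bop a b O c (i + 1) (e :: es) G (y :: x :: xs))
          + O.k w * opT O (e :: es) (fun X => bop a b O c (i + 1) (e :: es) G (w :: X))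
            (x :: xs) := by
      simp only [op]
    rw [h1, opT_eq]
    have h2 : (fun y => bop a b O c (i + 1) (e :: es) G (y :: x :: xs))
        = fun y => (O.s e)⁻¹ * ((O.k y)⁻¹ *
          bop a b O c i es (fun X => G (y :: X)) (x :: xs)) := by
      funext y
      simp only [bop]
      ring
    have h3 : (fun X => bop a b O c (i + 1) (e :: es) G (w :: X))
        = fun X => ((O.s e)⁻¹ * (O.k w)⁻¹) * bop a b O c i es (fun X' => G (w :: X')) X := by
      funext X
      simp only [bop]
    rw [h2, h3, (hf w).map_mul, hB.ik, (finL_op O hf es (x :: xs)).map_mul]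
    field_simp
  have e2 : bop a b O c (i + 1) (e :: es) (op O (e :: es) G) (w :: x :: xs)
      = (O.s e)⁻¹ * (O.k w)⁻¹ *
          O.i w (fun y => bop a b O c i es (fun X => G (y :: X)) (x :: xs))
        + bop a b O c i es (op O es (fun X => G (w :: X))) (x :: xs) := by
    have h1 : bop a b O c (i + 1) (e :: es) (op O (e :: es) G) (w :: x :: xs)
        = (O.s e)⁻¹ * (O.k w)⁻¹ *
          bop a b O c i es (fun X => op O (e :: es) G (w :: X)) (x :: xs) := by
      simp only [bop]
    have h2 : bop a b O c i es (fun X => op O (e :: es) G (w :: X)) (x :: xs)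
        = bop a b O c i es (fun X => O.i w (fun y => G (y :: X))
            + (O.k w * O.s e) * op O es (fun X' => G (w :: X')) X) (x :: xs) := by
      refine bop_congr a b O c i es (x :: xs) _ _ fun X' hX' => ?_
      match X', hX' with
      | x' :: xs', _ =>
        have h3 : op O (e :: es) G (w :: x' :: xs')
            = O.i w (fun y => G (y :: x' :: xs'))
              + O.k w * opT O (e :: es) (fun X => G (w :: X)) (x' :: xs') := by
          simp only [op]
        rw [h3, opT_eq]
        ring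
    rw [h1, h2, (finL_bop a b hB i es (x :: xs)).map_add,
      (finL_bop a b hB i es (x :: xs)).map_mul,
      FinL.comm (finL_bop a b hB i es (x :: xs)) (hf w) (fun X y => G (y :: X))]
    field_simp
  unfold del
  rw [e1, e2]
  ring

private lemma tws_cons (x : St) (xs : List St) :
    tws a a⁻¹ b b⁻¹ (x :: xs) = tw a a⁻¹ b b⁻¹ x * tws a a⁻¹ b b⁻¹ xs := by
  simp [tws]

private lemma opT_tws {O : OpD K} {c : Bool → Bool → St → St → St → (St → St → St → K) → K}
    {sc t : K} (hB : BOK a b O c sc t) (hf : ∀ x, FinL (O.i x)) (es : List Bool)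
    (H : List St → K) (xs : List St) :
    opT O es (fun X => tws a a⁻¹ b b⁻¹ X * H X) xs
      = t * (tws a a⁻¹ b b⁻¹ xs * opT O es H xs) := by
  induction es generalizing H xs with
  | nil => simp only [opT, mul_zero]
  | cons e es ih =>
    match xs with
    | [] => simp only [opT, mul_zero]
    | x :: xs =>
      simp only [opT, tws_cons]
      have h1 : (fun y => tw a a⁻¹ b b⁻¹ y * tws a a⁻¹ b b⁻¹ xs * H (y :: xs))
          = fun y => tws a a⁻¹ b b⁻¹ xs * (tw a a⁻¹ b b⁻¹ y * H (y :: xs)) := by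
        funext y
        ring
      have h2 : (fun X => tw a a⁻¹ b b⁻¹ x * tws a a⁻¹ b b⁻¹ X * H (x :: X))
          = fun X => tw a a⁻¹ b b⁻¹ x * (tws a a⁻¹ b b⁻¹ X * H (x :: X)) := by
        funext X
        ring
      rw [h1, h2, (hf x).map_mul, hB.tw, (finL_opT O hf es xs).map_mul,
        ih (fun X => H (x :: X)) xs]
      ring

private lemma op3_mul {O : OpD K} (hf : ∀ x, FinL (O.i x)) (e₁ e₂ : Bool) (C : K)
    (Z : St → St → St → K) (x y z : St) :
    op3 O e₁ e₂ (fun x y z => C * Z x y z) x y z = C * op3 O e₁ e₂ Z x y z := by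
  unfold op3
  rw [(hf x).map_mul, (hf y).map_mul, (hf z).map_mul]
  ring

private lemma del_zero {O : OpD K} {c : Bool → Bool → St → St → St → (St → St → St → K) → K}
    {sc t : K} (hB : BOK a b O c sc t) (hf : ∀ x, FinL (O.i x)) (e₁ e₂ : Bool)
    (es : List Bool) (G : List St → K) (x y z : St) (xs : List St) :
    del a b O c sc 0 (e₁ :: e₂ :: es) G (x :: y :: z :: xs)
      = op3 O e₁ e₂ (fun x y z => c e₁ e₂ x y z (fun x' y' z' =>
          tws a a⁻¹ b b⁻¹ xs * G (x' :: y' :: z' :: xs))) x y z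
        - sc * c e₁ e₂ x y z (op3 O e₁ e₂ (fun x' y' z' =>
          tws a a⁻¹ b b⁻¹ xs * G (x' :: y' :: z' :: xs))) := by
  have hc := hB.fin e₁ e₂ x y z
  have e1 : op O (e₁ :: e₂ :: es) (bop a b O c 0 (e₁ :: e₂ :: es) G) (x :: y :: z :: xs)
      = op3 O e₁ e₂ (fun x y z => c e₁ e₂ x y z (fun x' y' z' =>
          tws a a⁻¹ b b⁻¹ xs * G (x' :: y' :: z' :: xs))) x y z
        + t * (O.k x * O.k y * O.k z) * c e₁ e₂ x y z (fun x' y' z' =>
          O.s e₁ * O.s e₂ * (tws a a⁻¹ b b⁻¹ xs *
            opT O es (fun X => G (x' :: y' :: z' :: X)) xs)) := by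
    rw [op_three]
    have h1 : ∀ (x y z : St) (X : List St), bop a b O c 0 (e₁ :: e₂ :: es) G (x :: y :: z :: X)
        = c e₁ e₂ x y z (fun x' y' z' => tws a a⁻¹ b b⁻¹ X * G (x' :: y' :: z' :: X)) := by
      intro x y z X
      simp only [bop]
    simp only [h1]
    have h2 := FinL.comm (finL_opT O hf es xs) hc (fun X p =>
      tws a a⁻¹ b b⁻¹ X * G (p.1 :: p.2.1 :: p.2.2 :: X))
    dsimp only at h2
    rw [h2]
    have h3 : (fun x' y' z' : St => opT O es (fun X => tws a a⁻¹ b b⁻¹ X *
        G (x' :: y' :: z' :: X)) xs) = fun x' y' z' => t * (tws a a⁻¹ b b⁻¹ xs *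
          opT O es (fun X => G (x' :: y' :: z' :: X)) xs) := by
      funext x' y' z'
      exact opT_tws a b hB hf es _ xs
    rw [h3]
    have h4 := hc.map_mul t (fun p => tws a a⁻¹ b b⁻¹ xs *
      opT O es (fun X => G (p.1 :: p.2.1 :: p.2.2 :: X)) xs)
    have h5 := hc.map_mul (O.s e₁ * O.s e₂) (fun p => tws a a⁻¹ b b⁻¹ xs *
      opT O es (fun X => G (p.1 :: p.2.1 :: p.2.2 :: X)) xs)
    dsimp only at h4 h5
    rw [h4, h5]
    ring
  have e2 : sc * bop a b O c 0 (e₁ :: e₂ :: es) (op O (e₁ :: e₂ :: es) G) (x :: y :: z :: xs)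
      = sc * c e₁ e₂ x y z (op3 O e₁ e₂ (fun x' y' z' =>
          tws a a⁻¹ b b⁻¹ xs * G (x' :: y' :: z' :: xs)))
        + t * (O.k x * O.k y * O.k z) * c e₁ e₂ x y z (fun x' y' z' =>
          O.s e₁ * O.s e₂ * (tws a a⁻¹ b b⁻¹ xs *
            opT O es (fun X => G (x' :: y' :: z' :: X)) xs)) := by
    have h1 : bop a b O c 0 (e₁ :: e₂ :: es) (op O (e₁ :: e₂ :: es) G) (x :: y :: z :: xs)
        = c e₁ e₂ x y z (fun x' y' z' => tws a a⁻¹ b b⁻¹ xs *
          op O (e₁ :: e₂ :: es) G (x' :: y' :: z' :: xs)) := by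
      simp only [bop]
    have h2 : (fun x' y' z' : St => tws a a⁻¹ b b⁻¹ xs *
          op O (e₁ :: e₂ :: es) G (x' :: y' :: z' :: xs))
        = fun x' y' z' => op3 O e₁ e₂ (fun x' y' z' =>
          tws a a⁻¹ b b⁻¹ xs * G (x' :: y' :: z' :: xs)) x' y' z'
          + O.k x' * O.k y' * O.k z' * (O.s e₁ * O.s e₂ * (tws a a⁻¹ b b⁻¹ xs *
            opT O es (fun X => G (x' :: y' :: z' :: X)) xs)) := by
      funext x' y' z'
      rw [op_three, op3_mul hf]
      ring
    have h3 := hc.map_add (fun p => op3 O e₁ e₂ (fun x' y' z' =>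
          tws a a⁻¹ b b⁻¹ xs * G (x' :: y' :: z' :: xs)) p.1 p.2.1 p.2.2)
      (fun p => O.k p.1 * O.k p.2.1 * O.k p.2.2 * (O.s e₁ * O.s e₂ * (tws a a⁻¹ b b⁻¹ xs *
            opT O es (fun X => G (p.1 :: p.2.1 :: p.2.2 :: X)) xs)))
    dsimp only at h3
    rw [h1, h2, h3, mul_add, hB.ck]
  unfold del
  rw [e1, e2]
  ring

private lemma op3_eta (O : OpD K) (e₁ e₂ : Bool) (Z : St → St → St → K) :
    (fun x y z => op3 O e₁ e₂ Z x y z) = op3 O e₁ e₂ Z := rfl

private lemma move' (ha : a ≠ 0) (hb : b ≠ 0) (i : ℕ) (es : List Bool) (hi : i + 1 < es.length)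
    (X : List St) (hX : X.length = es.length + 1) (G : List St → K) :
    (1 - a ^ 2) * (1 - b ^ 2) * (rootR a a⁻¹ b b⁻¹ (i + 1) G X - rootR a a⁻¹ b b⁻¹ i G X)
      = del a b (opD1 a b) (bD1 a b) (-1) i es G X + del a b (opD2 a b) (bD2 a b) (-1) i es G X
        + del a b (opE a b) (bE a b) ((a * b) ^ 2) i es G X := by
  induction i generalizing es X G with
  | zero =>
    match es, X, hi, hX with
    | e₁ :: e₂ :: es, x :: y :: z :: xs, _, _ =>
      rw [del_zero a b (bok_D1 a b ha hb) (opOK_D1 a b ha hb).fin,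
        del_zero a b (bok_D2 a b ha hb) (opOK_D2 a b ha hb).fin,
        del_zero a b (bok_E a b ha hb) (opOK_E a b ha hb).fin]
      have h := loc_move a b ha hb e₁ e₂ x y z (fun x' y' z' =>
        tws a a⁻¹ b b⁻¹ xs * G (x' :: y' :: z' :: xs))
      have h1 : rootR a a⁻¹ b b⁻¹ (0 + 1) G (x :: y :: z :: xs)
          = if y = (true, true) ∧ z = (true, true) then
            tws a a⁻¹ b b⁻¹ xs * G (x :: (false, false) :: (false, false) :: xs) else 0 := by
        simp only [rootR]
      have h2 : rootR a a⁻¹ b b⁻¹ 0 G (x :: y :: z :: xs)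
          = if x = (true, true) ∧ y = (true, true) then
            tw a a⁻¹ b b⁻¹ z * (tws a a⁻¹ b b⁻¹ xs *
              G ((false, false) :: (false, false) :: z :: xs)) else 0 := by
        simp only [rootR, tws_cons, mul_assoc]
      rw [h1, h2, ← h]
      ring
  | succ i ih =>
    match es, X, hi, hX with
    | e :: es, w :: x :: xs, hi, hX =>
      rw [del_succ a b (bok_D1 a b ha hb) (opOK_D1 a b ha hb).fin,
        del_succ a b (bok_D2 a b ha hb) (opOK_D2 a b ha hb).fin,
        del_succ a b (bok_E a b ha hb) (opOK_E a b ha hb).fin,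
        ← ih es (by simpa using hi) (x :: xs) (by simpa using hX) (fun X => G (w :: X))]
      simp only [rootR]

theorem move (ha : a ≠ 0) (hb : b ≠ 0) (i : ℕ) (es : List Bool) (hi : i + 1 < es.length)
    (X : List St) (hX : X.length = es.length + 1) (G : List St → K) :
    (1 - a ^ 2) * (1 - b ^ 2) * (rootR a a⁻¹ b b⁻¹ (i + 1) G X - rootR a a⁻¹ b b⁻¹ i G X)
      = (op (opD1 a b) es (bop a b (opD1 a b) (bD1 a b) i es G) X
          + bop a b (opD1 a b) (bD1 a b) i es (op (opD1 a b) es G) X)
        + (op (opD2 a b) es (bop a b (opD2 a b) (bD2 a b) i es G) X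
          + bop a b (opD2 a b) (bD2 a b) i es (op (opD2 a b) es G) X)
        + (op (opE a b) es (bop a b (opE a b) (bE a b) i es G) X
          - (a * b) ^ 2 * bop a b (opE a b) (bE a b) i es (op (opE a b) es G) X) := by
  rw [move' a b ha hb i es hi X hX G]
  unfold del
  ring

theorem root_horiz (ha : a ≠ 0) (hb : b ≠ 0) (ha2 : a ^ 2 ≠ 1) (hb2 : b ^ 2 ≠ 1) (U : Finset ℕ)
    {w₁ w₂ : List Piece} {es : List Bool} (h₁ : OPath w₁ [true] es) (h₂ : OPath w₂ es [true])
    (j j' : ℕ) (i i' : ℕ) (hi : i < es.length) (hi' : i' < es.length) :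
    pre a a⁻¹ b b⁻¹ U j w₁ (rootR a a⁻¹ b b⁻¹ i (pre a a⁻¹ b b⁻¹ U j' w₂
        (fun X => if X = [(false, false), (false, false)] then 1 else 0)))
        [(true, true), (true, true)]
      = pre a a⁻¹ b b⁻¹ U j w₁ (rootR a a⁻¹ b b⁻¹ i' (pre a a⁻¹ b b⁻¹ U j' w₂
        (fun X => if X = [(false, false), (false, false)] then 1 else 0)))
        [(true, true), (true, true)] := by
  have hpre : ∀ X : List St, FinL (fun G : List St → K => pre a a⁻¹ b b⁻¹ U j w₁ G X) :=
    finL_pre a b U j w₁
  have hC : (1 - a ^ 2) * (1 - b ^ 2) ≠ 0 := by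
    refine mul_ne_zero (fun h => ha2 ?_) (fun h => hb2 ?_)
    · exact (sub_eq_zero.1 h).symm
    · exact (sub_eq_zero.1 h).symm
  obtain ⟨G, hG⟩ : ∃ G : List St → K, G = pre a a⁻¹ b b⁻¹ U j' w₂
      (fun X => if X = [(false, false), (false, false)] then 1 else 0) := ⟨_, rfl⟩
  rw [← hG]
  -- the operators annihilate `G`
  have hann : ∀ {O : OpD K} {c : Bool → Bool → St → St → St → (St → St → St → K) → K}
      {sc t : K}, BOK a b O c sc t → OpOK a b O → ∀ (i : ℕ) (X : List St),
      X.length = es.length + 1 → bop a b O c i es (op O es G) X = 0 := by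
    intro O c sc t hB hO i X hX
    rw [bop_congr a b O c i es X (op O es G) (fun _ => 0) fun X' hX' => ?_]
    · exact (finL_bop a b hB i es X).map_zero
    · rw [hG]
      exact op_suffix a b hO U j' h₂ X' (hX'.trans hX)
  have key : ∀ i, i + 1 < es.length →
      pre a a⁻¹ b b⁻¹ U j w₁ (rootR a a⁻¹ b b⁻¹ (i + 1) G) [(true, true), (true, true)]
        = pre a a⁻¹ b b⁻¹ U j w₁ (rootR a a⁻¹ b b⁻¹ i G) [(true, true), (true, true)] := by
    intro i hi
    have h1 : pre a a⁻¹ b b⁻¹ U j w₁ (fun X => (1 - a ^ 2) * (1 - b ^ 2) *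
        (rootR a a⁻¹ b b⁻¹ (i + 1) G X + (-1) * rootR a a⁻¹ b b⁻¹ i G X))
          [(true, true), (true, true)]
        = pre a a⁻¹ b b⁻¹ U j w₁ (fun X =>
          (op (opD1 a b) es (bop a b (opD1 a b) (bD1 a b) i es G) X
          + op (opD2 a b) es (bop a b (opD2 a b) (bD2 a b) i es G) X)
          + op (opE a b) es (bop a b (opE a b) (bE a b) i es G) X)
          [(true, true), (true, true)] := by
      refine pre_congr a b U j h₁ _ (by simp) _ _ fun X hX => ?_
      have h2 := move a b ha hb i es hi X hX G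
      rw [hann (bok_D1 a b ha hb) (opOK_D1 a b ha hb) i X hX,
        hann (bok_D2 a b ha hb) (opOK_D2 a b ha hb) i X hX,
        hann (bok_E a b ha hb) (opOK_E a b ha hb) i X hX] at h2
      linear_combination h2
    rw [(hpre _).map_mul, (hpre _).map_add, (hpre _).map_mul, (hpre _).map_add,
      (hpre _).map_add, op_prefix a b (opOK_D1 a b ha hb) U j h₁,
      op_prefix a b (opOK_D2 a b ha hb) U j h₁, op_prefix a b (opOK_E a b ha hb) U j h₁,
      add_zero, add_zero] at h1
    rcases mul_eq_zero.1 h1 with h2 | h2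
    · exact absurd h2 hC
    · linear_combination h2
  have hall : ∀ i, i < es.length →
      pre a a⁻¹ b b⁻¹ U j w₁ (rootR a a⁻¹ b b⁻¹ i G) [(true, true), (true, true)]
        = pre a a⁻¹ b b⁻¹ U j w₁ (rootR a a⁻¹ b b⁻¹ 0 G) [(true, true), (true, true)] := by
    intro i
    induction i with
    | zero => exact fun _ => rfl
    | succ i ih => exact fun hi => (key i hi).trans (ih (Nat.lt_of_succ_lt hi))
  rw [hall i hi, hall i' hi']

end LGAlt
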