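import Pool.Agent.LGAlt2.SuppLdef

/-!
# Supports: crossings

See the proof in `SuppLdef.lean`.
-/

namespace LGAlt

private lemma gZ_cons (F1 F2 : ℤ × ℤ) (e : Bool) (es : List Bool) (z : St) (xs : List St) (h : xs ≠ []) :
    gZ F1 F2 (e :: es) (z :: xs) = z.1.toNat • F1 + z.2.toNat • F2 +
      gZ (F1 - zz e) (F2 + z.1.toNat • qz + zz e) es xs := by
  cases xs with
  | nil => exact absurd rfl h
  | cons x xs => simp only [gZ, gZT]

private lemma gZ_cross (F1 F2 : ℤ × ℤ) (es : List Bool) (p x y : St) (xs : List St) :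
    gZ F1 F2 (true :: true :: es) (p :: x :: y :: xs) =
      (cnt1 p x y • F1 + cnt2 p x y • F2 +
        gZT (F1 - zz true - zz true) (F2 + zz true + zz true + cnt1 p x y • qz) es xs)
      + locZ p x y := by
  simp only [gZ, gZT, locZ, cnt1, cnt2]
  have h1 : F2 + p.1.toNat • qz + zz true + x.1.toNat • qz + zz true + y.1.toNat • qz
      = F2 + zz true + zz true + (p.1.toNat + x.1.toNat + y.1.toNat) • qz := by
    rw [add_smul, add_smul]; abel
  have h2 : F2 + p.1.toNat • qz + zz true + x.1.toNat • qz + zz true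
      = F2 + (p.1.toNat + x.1.toNat) • qz + (2, 0) := by
    have : ((2, 0) : ℤ × ℤ) = zz true + zz true := by decide
    rw [add_smul, this]; abel
  have h3 : F2 + p.1.toNat • qz + zz true = F2 + (p.1.toNat • qz + (1, 0)) := by
    have : ((1, 0) : ℤ × ℤ) = zz true := by decide
    rw [this]; abel
  have h4 : F1 - zz true - zz true = F1 + -(2, 0) := by
    have : ((2, 0) : ℤ × ℤ) = zz true + zz true := by decide
    rw [this]; abel
  have h5 : F1 - zz true = F1 + -(1, 0) := by
    have : ((1, 0) : ℤ × ℤ) = zz true := by decide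
    rw [this]; abel
  rw [h1, h2, h3, h4, h5]
  module

private lemma list_map_pair {xs ys : List St} (h1 : ys.map Prod.fst = xs.map Prod.fst)
    (h2 : ys.map Prod.snd = xs.map Prod.snd) : ys = xs := by
  induction xs generalizing ys with
  | nil => simpa using h1
  | cons x xs ih =>
    cases ys with
    | nil => simp at h1
    | cons y ys =>
      simp only [List.map_cons, List.cons.injEq] at h1 h2
      rw [ih h1.2 h2.2, Prod.ext h1.1 h2.1]

theorem PS_crossR (pos : Bool) (l₁ l₂ m₁ m₂ : List Bool) (hl : l₁.length = m₁.length)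
    (hl' : l₂.length = m₂.length) (F1 F2 φ : Q) (F1z F2z γ : ℤ × ℤ)
    (X : List St) (hX : X.length = (l₁ ++ true :: true :: l₂).length + 1) (G : List St → L)
    (S : List St → Set (ℤ × ℤ))
    (hG : ∀ X', X'.length = X.length → N1 X' = N1 X →
      PS (φ + gR F1 F2 (l₁ ++ true :: true :: l₂) (m₁ ++ pos :: (!pos) :: m₂) X')
        (γ + gZ F1z F2z (l₁ ++ true :: true :: l₂) X') (S X') (G X')) :
    PS (φ + sg + gR F1 F2 (l₁ ++ true :: true :: l₂) (m₁ ++ pos :: (!pos) :: m₂) X)
      (γ + gZ F1z F2z (l₁ ++ true :: true :: l₂) X)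
      {z | ∃ n₁ n₂ X', cstep l₁.length n₁ (X.map Prod.fst) (X'.map Prod.fst) ∧
        cstep l₁.length n₂ (X.map Prod.snd) (X'.map Prod.snd) ∧ ∃ z' ∈ S X', z = cv pos n₁ n₂ + z'}
      (crossR (mon 1 0) (mon (-1) 0) (mon 0 1) (mon 0 (-1)) pos l₁.length G X) := by
  induction l₁ generalizing m₁ F1 F2 φ F1z F2z γ X G S with
  | nil =>
    match m₁, hl, X, hX with
    | [], _, p :: x :: y :: xs, hX =>
      simp only [List.nil_append, List.length_nil, crossR] at hG ⊢
      rw [gR_cross, gZ_cross]
      have h := PS_XT pos p x y (φ + (cnt1 p x y • F1 + cnt2 p x y • F2 +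
        gT (F1 - zph true - zph true + sg) (F2 + zph true + zph true + sg + cnt1 p x y • qq)
          l₂ m₂ xs)) (γ + (cnt1 p x y • F1z + cnt2 p x y • F2z +
        gZT (F1z - zz true - zz true) (F2z + zz true + zz true + cnt1 p x y • qz) l₂ xs))
          (fun p' x' y' => G (p' :: x' :: y' :: xs)) (fun p' x' y' => S (p' :: x' :: y' :: xs)) (by
          intro p' x' y' h1 h2
          have := hG (p' :: x' :: y' :: xs) (by simp) (by
            simp only [cnt1] at h1
            simp only [N1]
            omega)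
          rw [gR_cross, gZ_cross, h1, h2] at this
          rw [add_assoc, add_assoc γ]
          exact this)
      have e : φ + sg + (cnt1 p x y • F1 + cnt2 p x y • F2 +
        gT (F1 - zph true - zph true + sg) (F2 + zph true + zph true + sg + cnt1 p x y • qq)
          l₂ m₂ xs + loc3 pos p x y) = φ + (cnt1 p x y • F1 + cnt2 p x y • F2 +
        gT (F1 - zph true - zph true + sg) (F2 + zph true + zph true + sg + cnt1 p x y • qq)
          l₂ m₂ xs) + (sg + loc3 pos p x y) := by abel
      rw [e, ← add_assoc γ]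
      refine h.congr (fun z => ?_)
      constructor
      · rintro ⟨n₁, n₂, p', x', y', h1, h2, z', hz', rfl⟩
        exact ⟨n₁, n₂, p' :: x' :: y' :: xs, ⟨h1, rfl⟩, ⟨h2, rfl⟩, z', hz', rfl⟩
      · rintro ⟨n₁, n₂, X', h1, h2, z', hz', rfl⟩
        match X', h1, h2, hz' with
        | p' :: x' :: y' :: xs', h1, h2, hz' =>
          have e1 : xs' = xs := list_map_pair h1.2 h2.2
          subst e1
          exact ⟨n₁, n₂, p', x', y', h1.1, h2.1, z', hz', rfl⟩
        | [], h1, _, _ => exact h1.elim
        | [_], h1, _, _ => exact h1.elim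
        | [_, _], h1, _, _ => exact h1.elim
  | cons e l₁ ih =>
    match m₁, hl, X, hX with
    | l :: m₁, hl, z :: xs, hX =>
      simp only [List.cons_append, List.length_cons, crossR] at hG ⊢
      have hne : xs ≠ [] := by
        rintro rfl
        simp at hX
      rw [gR_cons _ _ _ _ _ _ _ _ hne, gZ_cons _ _ _ _ _ _ hne]
      have h := ih m₁ (by simpa using hl) (F1 - zph e + l.toNat • sg)
        (F2 + z.1.toNat • qq + zph e + (!l).toNat • sg) (φ + (z.1.toNat • F1 + z.2.toNat • F2))
        (F1z - zz e) (F2z + z.1.toNat • qz + zz e) (γ + (z.1.toNat • F1z + z.2.toNat • F2z)) xs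
        (by simpa using hX) (fun X => G (z :: X)) (fun X => S (z :: X)) (by
          intro X' h1 h2
          have := hG (z :: X') (by simp [h1]) (by simp [N1, h2])
          have hne' : X' ≠ [] := by
            rintro rfl
            simp at h1
            exact hne (List.length_eq_zero_iff.mp h1.symm)
          rw [gR_cons _ _ _ _ _ _ _ _ hne', gZ_cons _ _ _ _ _ _ hne', ← add_assoc,
            ← add_assoc γ] at this
          exact this)
      have e2 : ∀ (u v : Q), φ + sg + (u + v) = φ + u + sg + v := by intro u v; abel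
      rw [e2, ← add_assoc γ]
      refine h.congr (fun w => ?_)
      constructor
      · rintro ⟨n₁, n₂, X', h1, h2, z', hz', rfl⟩
        exact ⟨n₁, n₂, z :: X', ⟨rfl, h1⟩, ⟨rfl, h2⟩, z', hz', rfl⟩
      · rintro ⟨n₁, n₂, X', h1, h2, z', hz', rfl⟩
        cases X' with
        | nil => exact h1.elim
        | cons v X' =>
          obtain ⟨h1a, h1b⟩ := h1
          obtain ⟨h2a, h2b⟩ := h2
          have e1 : v = z := Prod.ext h1a h2a
          subst e1
          exact ⟨n₁, n₂, X', h1b, h2b, z', hz', rfl⟩

end LGAlt
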