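import Pool.Agent.LGAlt2.SuppLdef

/-!
# Supports: cups

See the proof in `SuppLdef.lean`.
-/

namespace LGAlt

lemma cupZ_gZT_shift (F1 F2 : ℤ × ℤ) (es : List Bool) (xs : List St) (h : xs.length ≤ es.length) :
    gZT (F1 + qz) F2 es xs = gZT F1 F2 es xs + N1 xs • qz := by
  induction xs generalizing F1 F2 es with
  | nil => cases es <;> simp [gZT, N1]
  | cons x xs ih =>
    match es, h with
    | e :: es, h =>
      simp only [gZT, N1]
      have h1 : F1 + qz - zz e = F1 - zz e + qz := by abel
      rw [h1, ih _ _ _ (by simpa using h)]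
      module

lemma cupZ_cons (F1 F2 : ℤ × ℤ) (e : Bool) (es : List Bool) (z : St) (xs : List St)
    (h : xs ≠ []) :
    gZ F1 F2 (e :: es) (z :: xs) = z.1.toNat • F1 + z.2.toNat • F2 +
      gZ (F1 - zz e) (F2 + z.1.toNat • qz + zz e) es xs := by
  cases xs with
  | nil => exact absurd rfl h
  | cons x xs => simp only [gZ, gZT]

lemma cupZ_zz (s : Bool) : zz s + zz (!s) = -qz := by cases s <;> decide

lemma cupZ_cup (F1 F2 : ℤ × ℤ) (s : Bool) (es : List Bool) (x l r : St) (xs : List St)
    (h1 : l.1.toNat + r.1.toNat = x.1.toNat) (h2 : l.2.toNat + r.2.toNat = x.2.toNat)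
    (hes : xs.length = es.length) :
    gZ F1 F2 (s :: (!s) :: es) (l :: (true, true) :: r :: xs) =
      gZ F1 F2 es (x :: xs) + F1 + F2 + N1 (x :: xs) • qz + (l.1.toNat * r.2.toNat) • qz := by
  simp only [gZ, gZT, N1, Bool.toNat_true, one_smul]
  have hz := cupZ_zz s
  have e1 : F1 - zz s - zz (!s) = F1 + qz := by
    rw [sub_sub, hz, sub_neg_eq_add]
  have e2 : F2 + l.1.toNat • qz + zz s + qz + zz (!s) = F2 + l.1.toNat • qz := by
    have : F2 + l.1.toNat • qz + zz s + qz + zz (!s)
      = F2 + l.1.toNat • qz + (zz s + zz (!s)) + qz := by abel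
    rw [this, hz]; abel
  have e3 : F2 + l.1.toNat • qz + r.1.toNat • qz = F2 + x.1.toNat • qz := by
    rw [← h1]; module
  rw [e1, e2, e3, cupZ_gZT_shift _ _ _ _ hes.le, ← h2, ← h1]
  module

lemma cupZ_ext (xs ys : List St) (h1 : xs.map Prod.fst = ys.map Prod.fst)
    (h2 : xs.map Prod.snd = ys.map Prod.snd) : xs = ys := by
  induction xs generalizing ys with
  | nil =>
    cases ys with
    | nil => rfl
    | cons y ys => simp at h1
  | cons x xs ih =>
    cases ys with
    | nil => simp at h1
    | cons y ys =>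
      simp only [List.map_cons, List.cons.injEq] at h1 h2
      rw [ih ys h1.2 h2.2, Prod.ext h1.1 h2.1]

theorem PS_cupR (s c : Bool) (l₁ l₂ m₁ m₂ : List Bool) (hl : l₁.length = m₁.length)
    (hl' : l₂.length = m₂.length) (F1 F2 φ : Q) (F1z F2z γ : ℤ × ℤ)
    (X : List St) (hX : X.length = (l₁ ++ l₂).length + 1) (G : List St → L)
    (S : List St → Set (ℤ × ℤ))
    (hG : ∀ X', X'.length = X.length + 2 → N1 X' = N1 X + 1 →
      PS (φ + gR F1 F2 (l₁ ++ s :: (!s) :: l₂) (m₁ ++ c :: (!c) :: m₂) X')
        (γ + gZ F1z F2z (l₁ ++ s :: (!s) :: l₂) X') (S X') (G X')) :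
    PS (φ + F1 + F2 + (l₁.length + 1) • sg + N1 X • qq + gR F1 F2 (l₁ ++ l₂) (m₁ ++ m₂) X)
      (γ + F1z + F2z + N1 X • qz + gZ F1z F2z (l₁ ++ l₂) X)
      {z | ∃ X', custep l₁.length (X.map Prod.fst) (X'.map Prod.fst) ∧
        custep l₁.length (X.map Prod.snd) (X'.map Prod.snd) ∧ z ∈ S X'}
      (cupR (mon 1 0) (mon 0 1) l₁.length G X) := by
  induction l₁ generalizing m₁ F1 F2 φ F1z F2z γ X G S with
  | nil =>
    match m₁, hl, X, hX with
    | [], _, x :: xs, hX =>
      simp only [List.nil_append, List.length_nil, cupR] at hG ⊢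
      refine (PS_ST x _ _ _ (fun l r => S (l :: (true, true) :: r :: xs)) ?_).congr ?_
      · intro l r h1 h2
        have h3 : xs.length = l₂.length := by simpa using hX
        have := hG (l :: (true, true) :: r :: xs) (by simp) (by simp [N1]; omega)
        rw [gR_cup F1 F2 s c l₂ m₂ x l r xs h1 h2 h3 (h3.trans hl'),
          cupZ_cup F1z F2z s l₂ x l r xs h1 h2 h3] at this
        have e : φ + F1 + F2 + (0 + 1) • sg + N1 (x :: xs) • qq + gR F1 F2 l₂ m₂ (x :: xs)
            + (l.1.toNat * r.2.toNat) • qq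
            = φ + (gR F1 F2 l₂ m₂ (x :: xs) + F1 + F2 + sg + N1 (x :: xs) • qq
              + (l.1.toNat * r.2.toNat) • qq) := by
          rw [zero_add, one_smul]; abel
        have e' : γ + F1z + F2z + N1 (x :: xs) • qz + gZ F1z F2z l₂ (x :: xs)
            + (l.1.toNat * r.2.toNat) • qz
            = γ + (gZ F1z F2z l₂ (x :: xs) + F1z + F2z + N1 (x :: xs) • qz
              + (l.1.toNat * r.2.toNat) • qz) := by
          abel
        rw [e, e']
        exact this
      · intro w
        constructor
        · rintro ⟨l, r, h1, h2, hw⟩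
          exact ⟨l :: (true, true) :: r :: xs, ⟨rfl, h1, rfl⟩, ⟨rfl, h2, rfl⟩, hw⟩
        · rintro ⟨X', h1, h2, hw⟩
          match X', h1, h2, hw with
          | l :: (f1, f2) :: r :: xs', h1, h2, hw =>
            obtain ⟨h11, h12, h13⟩ := h1
            obtain ⟨h21, h22, h23⟩ := h2
            have hx : xs' = xs := cupZ_ext _ _ h13 h23
            change f1 = true at h11
            change f2 = true at h21
            subst hx h11 h21
            exact ⟨l, r, h12, h22, hw⟩
  | cons e l₁ ih =>
    match m₁, hl, X, hX with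
    | l :: m₁, hl, z :: xs, hX =>
      simp only [List.cons_append, List.length_cons, cupR] at hG ⊢
      have hne : xs ≠ [] := by
        rintro rfl
        simp at hX
      rw [gR_cons _ _ _ _ _ _ _ _ hne, cupZ_cons _ _ _ _ _ _ hne]
      have h := ih m₁ (by simpa using hl) (F1 - zph e + l.toNat • sg)
        (F2 + z.1.toNat • qq + zph e + (!l).toNat • sg) (φ + (z.1.toNat • F1 + z.2.toNat • F2))
        (F1z - zz e) (F2z + z.1.toNat • qz + zz e) (γ + (z.1.toNat • F1z + z.2.toNat • F2z)) xs
        (by simpa using hX) (fun X => G (z :: X)) (fun X => S (z :: X)) (by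
          intro X' h1 h2
          have := hG (z :: X') (by simp [h1]) (by simp only [N1, h2]; omega)
          have hne' : X' ≠ [] := by
            rintro rfl
            simp at h1
          rw [gR_cons _ _ _ _ _ _ _ _ hne', cupZ_cons _ _ _ _ _ _ hne', ← add_assoc,
            ← add_assoc γ] at this
          exact this)
      have e1 : ∀ (u v w t : Q), φ + u + (F1 - zph e + l.toNat • sg)
          + (F2 + z.1.toNat • qq + zph e + (!l).toNat • sg) + v + w + t
          = φ + F1 + F2 + (v + sg) + (z.1.toNat • qq + w) + (u + t) := by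
        intro u v w t
        have h := sg_add l
        generalize l.toNat • sg = u at *
        generalize (!l).toNat • sg = v at *
        rw [← h]; abel
      have e1' : ∀ (u w t : ℤ × ℤ), γ + u + (F1z - zz e) + (F2z + z.1.toNat • qz + zz e) + w + t
          = γ + F1z + F2z + (z.1.toNat • qz + w) + (u + t) := by
        intro u w t
        abel
      rw [e1, e1'] at h
      have e2 : (l₁.length + 1 + 1) • sg = (l₁.length + 1) • sg + sg := by
        rw [add_smul (l₁.length + 1) 1 sg, one_smul]
      have e3 : N1 (z :: xs) • qq = z.1.toNat • qq + N1 xs • qq := by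
        simp only [N1, add_smul]
      have e3' : N1 (z :: xs) • qz = z.1.toNat • qz + N1 xs • qz := by
        simp only [N1, add_smul]
      rw [e2, e3, e3']
      refine h.congr ?_
      intro w
      constructor
      · rintro ⟨X', h1, h2, hw⟩
        exact ⟨z :: X', ⟨rfl, h1⟩, ⟨rfl, h2⟩, hw⟩
      · rintro ⟨X', h1, h2, hw⟩
        match X', h1, h2, hw with
        | z' :: X'', h1, h2, hw =>
          obtain ⟨h11, h12⟩ := h1
          obtain ⟨h21, h22⟩ := h2
          have hz : z' = z := Prod.ext h11 h21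
          subst hz
          exact ⟨X'', h12, h22, hw⟩

end LGAlt
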