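import Pool.Agent.LGAlt2.SuppLdef

/-!
# Supports: caps

See the proof in `SuppLdef.lean`.
-/

namespace LGAlt

private lemma capZ_gZT_shift (F1 F2 : ℤ × ℤ) (es : List Bool) (xs : List St)
    (h : xs.length ≤ es.length) :
    gZT (F1 + qz) F2 es xs = gZT F1 F2 es xs + N1 xs • qz := by
  induction xs generalizing F1 F2 es with
  | nil => cases es <;> simp [gZT, N1]
  | cons x xs ih =>
    match es, h with
    | e :: es, h =>
      simp only [gZT, N1]
      have h1 : F1 + qz - zz e = F1 - zz e + qz := by abel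
      rw [h1, ih _ _ _ (by simpa using h)]
      module

private lemma capZ_cons (F1 F2 : ℤ × ℤ) (e : Bool) (es : List Bool) (z : St) (xs : List St)
    (h : xs ≠ []) :
    gZ F1 F2 (e :: es) (z :: xs) = z.1.toNat • F1 + z.2.toNat • F2 +
      gZ (F1 - zz e) (F2 + z.1.toNat • qz + zz e) es xs := by
  cases xs with
  | nil => exact absurd rfl h
  | cons x xs => simp only [gZ, gZT]

private lemma capZ_zz (s : Bool) : zz s + zz (!s) = -qz := by cases s <;> decide

private lemma capZ_ext (xs ys : List St) (h1 : xs.map Prod.fst = ys.map Prod.fst)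
    (h2 : xs.map Prod.snd = ys.map Prod.snd) : xs = ys := by
  induction xs generalizing ys with
  | nil =>
    cases ys with
    | nil => rfl
    | cons y ys => simp at h1
  | cons x xs ih =>
    cases ys with
    | nil => simp at h1
    | cons y ys =>
      simp only [List.map_cons, List.cons.injEq] at h1 h2
      rw [ih ys h1.2 h2.2, Prod.ext h1.1 h2.1]

private lemma capZ_bool (a b : Bool) :
    (b.toNat : ℤ) * ((a.toNat : ℤ) - 1) = ((1 - a.toNat) * (1 - b.toNat) : ℕ) - 1 + a.toNat := by
  cases a <;> cases b <;> decide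

private lemma capZ_cap (F1 F2 : ℤ × ℤ) (s : Bool) (es : List Bool) (p y z : St) (xs : List St)
    (h1 : z.1.toNat + 1 = p.1.toNat + y.1.toNat) (h2 : z.2.toNat + 1 = p.2.toNat + y.2.toNat)
    (hes : xs.length = es.length) :
    gZ F1 F2 (s :: (!s) :: es) (p :: (false, false) :: y :: xs) =
      gZ F1 F2 es (z :: xs) + F1 + F2 + ((N1 (p :: (false, false) :: y :: xs) : ℤ) - 1) • qz
        + ((1 - p.1.toNat) * (1 - y.2.toNat)) • qz := by
  simp only [gZ, gZT, Bool.toNat_false, zero_smul, zero_add, add_zero]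
  have hz := capZ_zz s
  have e1 : F1 - zz s - zz (!s) = F1 + qz := by
    rw [sub_sub, hz, sub_neg_eq_add]
  have e2 : F2 + p.1.toNat • qz + zz s + zz (!s) = F2 + p.1.toNat • qz - qz := by
    have : F2 + p.1.toNat • qz + zz s + zz (!s)
      = F2 + p.1.toNat • qz + (zz s + zz (!s)) := by abel
    rw [this, hz]; abel
  have e3 : F2 + p.1.toNat • qz - qz + y.1.toNat • qz = F2 + z.1.toNat • qz := by
    have : F2 + p.1.toNat • qz - qz + y.1.toNat • qz
        = F2 + (p.1.toNat + y.1.toNat) • qz - qz := by rw [add_smul]; abel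
    rw [this, ← h1, add_smul, one_smul]; abel
  rw [e1, e2, e3, capZ_gZT_shift _ _ _ _ hes.le]
  have e4 : p.1.toNat • F1 + y.1.toNat • F1 = z.1.toNat • F1 + F1 := by
    rw [← add_smul, ← h1, add_smul, one_smul]
  have e5 : p.2.toNat • F2 + y.2.toNat • F2 = z.2.toNat • F2 + F2 := by
    rw [← add_smul, ← h2, add_smul, one_smul]
  have e7 : y.2.toNat • (p.1.toNat • qz - qz) = ((1 - p.1.toNat) * (1 - y.2.toNat)) • qz
      - qz + p.1.toNat • qz := by
    have h := capZ_bool p.1 y.2
    have e8 : y.2.toNat • (p.1.toNat • qz - qz)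
        = ((y.2.toNat : ℤ) * ((p.1.toNat : ℤ) - 1)) • qz := by
      rw [mul_smul, sub_smul, one_smul, natCast_zsmul, natCast_zsmul]
    rw [e8, h, add_smul, sub_smul, one_smul, natCast_zsmul, natCast_zsmul]
  have e9 : ((N1 (p :: (false, false) :: y :: xs) : ℤ) - 1) • qz
      = p.1.toNat • qz + y.1.toNat • qz + N1 xs • qz - qz := by
    rw [sub_smul, one_smul, natCast_zsmul]
    simp only [N1, Bool.toNat_false, zero_add, add_smul]
    abel
  rw [e9]
  have e6 : p.1.toNat • F1 + p.2.toNat • F2 + (y.1.toNat • (F1 + qz) +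
      y.2.toNat • (F2 + p.1.toNat • qz - qz) + (gZT F1 (F2 + z.1.toNat • qz) es xs + N1 xs • qz))
      = (p.1.toNat • F1 + y.1.toNat • F1) + (p.2.toNat • F2 + y.2.toNat • F2)
      + (y.1.toNat • qz + y.2.toNat • (p.1.toNat • qz - qz) +
        (gZT F1 (F2 + z.1.toNat • qz) es xs + N1 xs • qz)) := by
    rw [smul_add y.1.toNat, add_sub_assoc F2, smul_add y.2.toNat F2]
    abel
  rw [e6, e4, e5, e7]
  abel

theorem PS_capR (s c : Bool) (l₁ l₂ m₁ m₂ : List Bool) (hl : l₁.length = m₁.length)
    (hl' : l₂.length = m₂.length) (F1 F2 φ : Q) (F1z F2z γ : ℤ × ℤ)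
    (X : List St) (hX : X.length = (l₁ ++ s :: (!s) :: l₂).length + 1) (G : List St → L)
    (S : List St → Set (ℤ × ℤ))
    (hG : ∀ X', X'.length + 2 = X.length → N1 X' + 1 = N1 X →
      PS (φ + gR F1 F2 (l₁ ++ l₂) (m₁ ++ m₂) X') (γ + gZ F1z F2z (l₁ ++ l₂) X') (S X') (G X')) :
    PS (φ - F1 - F2 + l₁.length • sg + (N1 X + 1) • qq
        + gR F1 F2 (l₁ ++ s :: (!s) :: l₂) (m₁ ++ c :: (!c) :: m₂) X)
      (γ - F1z - F2z - ((N1 X : ℤ) - 1) • qz + gZ F1z F2z (l₁ ++ s :: (!s) :: l₂) X)
      {z | ∃ X', castep l₁.length (X.map Prod.fst) (X'.map Prod.fst) ∧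
        castep l₁.length (X.map Prod.snd) (X'.map Prod.snd) ∧ z ∈ S X'}
      (capR (mon (-1) 0) (mon 0 (-1)) l₁.length G X) := by
  induction l₁ generalizing m₁ F1 F2 φ F1z F2z γ X G S with
  | nil =>
    match m₁, hl, X, hX with
    | [], _, p :: x :: y :: xs, hX =>
      simp only [List.nil_append, List.length_nil, capR] at hG ⊢
      split_ifs with hx
      · subst hx
        have h3 : xs.length = l₂.length := by simpa using hX
        have h := PS_MT p y (φ + (gR F1 F2 (s :: (!s) :: l₂) (c :: (!c) :: m₂)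
            (p :: (false, false) :: y :: xs) - F1 - F2
            - (y.1.toNat + y.2.toNat * (1 + p.1.toNat) + N1 xs) • qq))
            (γ + (gZ F1z F2z (s :: (!s) :: l₂) (p :: (false, false) :: y :: xs) - F1z - F2z
            - ((N1 (p :: (false, false) :: y :: xs) : ℤ) - 1) • qz
            - ((1 - p.1.toNat) * (1 - y.2.toNat)) • qz)) (fun z => G (z :: xs))
            (fun z => S (z :: xs)) (by
          intro z h1 h2
          have := hG (z :: xs) (by simp) (by simp [N1]; omega)
          rw [gR_cap F1 F2 s c l₂ m₂ p y z xs h1 h2 h3 (h3.trans hl'),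
            capZ_cap F1z F2z s l₂ p y z xs h1 h2 h3]
          have e : φ + (gR F1 F2 l₂ m₂ (z :: xs) + F1 + F2 +
              (y.1.toNat + y.2.toNat * (1 + p.1.toNat) + N1 xs) • qq - F1 - F2
              - (y.1.toNat + y.2.toNat * (1 + p.1.toNat) + N1 xs) • qq)
              = φ + gR F1 F2 l₂ m₂ (z :: xs) := by abel
          have e' : γ + (gZ F1z F2z l₂ (z :: xs) + F1z + F2z
              + ((N1 (p :: (false, false) :: y :: xs) : ℤ) - 1) • qz
              + ((1 - p.1.toNat) * (1 - y.2.toNat)) • qz - F1z - F2z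
              - ((N1 (p :: (false, false) :: y :: xs) : ℤ) - 1) • qz
              - ((1 - p.1.toNat) * (1 - y.2.toNat)) • qz)
              = γ + gZ F1z F2z l₂ (z :: xs) := by abel
          rw [e, e']
          exact this)
        have e : φ - F1 - F2 + 0 • sg + (N1 (p :: (false, false) :: y :: xs) + 1) • qq
            + gR F1 F2 (s :: (!s) :: l₂) (c :: (!c) :: m₂) (p :: (false, false) :: y :: xs)
            = (φ + (gR F1 F2 (s :: (!s) :: l₂) (c :: (!c) :: m₂)
            (p :: (false, false) :: y :: xs) - F1 - F2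
            - (y.1.toNat + y.2.toNat * (1 + p.1.toNat) + N1 xs) • qq))
            + (y.1.toNat + y.2.toNat * (1 + p.1.toNat) + (p.1.toNat + y.1.toNat + 1)) • qq
            + N1 xs • ((2 : ℕ) • qq) := by
          simp only [N1, Bool.toNat_false]
          module
        have e' : γ - F1z - F2z - ((N1 (p :: (false, false) :: y :: xs) : ℤ) - 1) • qz
            + gZ F1z F2z (s :: (!s) :: l₂) (p :: (false, false) :: y :: xs)
            = γ + (gZ F1z F2z (s :: (!s) :: l₂) (p :: (false, false) :: y :: xs) - F1z - F2z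
            - ((N1 (p :: (false, false) :: y :: xs) : ℤ) - 1) • qz
            - ((1 - p.1.toNat) * (1 - y.2.toNat)) • qz)
            + ((1 - p.1.toNat) * (1 - y.2.toNat)) • qz := by
          abel
        rw [e, two_qq, smul_zero, add_zero, e']
        refine h.congr ?_
        intro w
        constructor
        · rintro ⟨t, h1, h2, hw⟩
          exact ⟨t :: xs, ⟨rfl, h1, rfl⟩, ⟨rfl, h2, rfl⟩, hw⟩
        · rintro ⟨X', h1, h2, hw⟩
          match X', h1, h2, hw with
          | t :: xs', h1, h2, hw =>
            obtain ⟨-, h12, h13⟩ := h1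
            obtain ⟨-, h22, h23⟩ := h2
            have hx : xs' = xs := capZ_ext _ _ h13 h23
            subst hx
            exact ⟨t, h12, h22, hw⟩
      · refine (PS.zero _ _).congr ?_
        intro w
        constructor
        · intro hw; exact hw.elim
        · rintro ⟨X', h1, h2, hw⟩
          match X', h1, h2, hw with
          | t :: xs', h1, h2, hw =>
            obtain ⟨h11, -, -⟩ := h1
            obtain ⟨h21, -, -⟩ := h2
            exact absurd (Prod.ext h11 h21) hx
  | cons e l₁ ih =>
    match m₁, hl, X, hX with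
    | l :: m₁, hl, z :: xs, hX =>
      simp only [List.cons_append, List.length_cons, capR] at hG ⊢
      have hne : xs ≠ [] := by
        rintro rfl
        simp at hX
      rw [gR_cons _ _ _ _ _ _ _ _ hne, capZ_cons _ _ _ _ _ _ hne]
      have h := ih m₁ (by simpa using hl) (F1 - zph e + l.toNat • sg)
        (F2 + z.1.toNat • qq + zph e + (!l).toNat • sg) (φ + (z.1.toNat • F1 + z.2.toNat • F2))
        (F1z - zz e) (F2z + z.1.toNat • qz + zz e) (γ + (z.1.toNat • F1z + z.2.toNat • F2z)) xs
        (by simpa using hX) (fun X => G (z :: X)) (fun X => S (z :: X)) (by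
          intro X' h1 h2
          have := hG (z :: X') (by simp; omega) (by simp only [N1]; omega)
          have hne' : X' ≠ [] := by
            rintro rfl
            simp at h1 hX
            omega
          rw [gR_cons _ _ _ _ _ _ _ _ hne', capZ_cons _ _ _ _ _ _ hne', ← add_assoc,
            ← add_assoc γ] at this
          exact this)
      have e1 : ∀ (u v w t : Q), φ + u - (F1 - zph e + l.toNat • sg)
          - (F2 + z.1.toNat • qq + zph e + (!l).toNat • sg) + v + w + t
          = φ - F1 - F2 + (v + sg) + (z.1.toNat • qq + w) + (u + t)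
            - (2 : ℕ) • sg - z.1.toNat • ((2 : ℕ) • qq) := by
        intro u v w t
        have h := sg_add l
        generalize l.toNat • sg = u at *
        generalize (!l).toNat • sg = v at *
        rw [← h]; module
      have e1' : ∀ (u w t : ℤ × ℤ), γ + u - (F1z - zz e) - (F2z + z.1.toNat • qz + zz e) - w + t
          = γ - F1z - F2z - (z.1.toNat • qz + w) + (u + t) := by
        intro u w t
        abel
      rw [e1, two_qq, two_sg, smul_zero, sub_zero, sub_zero, e1'] at h
      have e2 : (l₁.length + 1) • sg = l₁.length • sg + sg := by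
        rw [add_smul l₁.length 1 sg, one_smul]
      have e3 : (N1 (z :: xs) + 1) • qq = z.1.toNat • qq + (N1 xs + 1) • qq := by
        simp only [N1, add_smul, add_assoc]
      have e3' : ((N1 (z :: xs) : ℤ) - 1) • qz = z.1.toNat • qz + ((N1 xs : ℤ) - 1) • qz := by
        have : ((N1 (z :: xs) : ℤ) - 1) = (z.1.toNat : ℤ) + ((N1 xs : ℤ) - 1) := by
          simp only [N1]; push_cast; ring
        rw [this, add_smul, natCast_zsmul]
      rw [e2, e3, e3']
      refine h.congr ?_
      intro w
      constructor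
      · rintro ⟨X', h1, h2, hw⟩
        exact ⟨z :: X', ⟨rfl, h1⟩, ⟨rfl, h2⟩, hw⟩
      · rintro ⟨X', h1, h2, hw⟩
        match X', h1, h2, hw with
        | z' :: X'', h1, h2, hw =>
          obtain ⟨h11, h12⟩ := h1
          obtain ⟨h21, h22⟩ := h2
          have hz : z' = z := Prod.ext h11 h21
          subst hz
          exact ⟨X'', h12, h22, hw⟩

end LGAlt
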