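import Pool.Agent.LGAlt2.SuppLdef

/-!
# Supports: roots

See the proof in `SuppLdef.lean`.
-/

namespace LGAlt

private lemma map_fst_snd_inj {xs ys : List St} (h1 : xs.map Prod.fst = ys.map Prod.fst)
    (h2 : xs.map Prod.snd = ys.map Prod.snd) : xs = ys := by
  induction xs generalizing ys with
  | nil =>
    cases ys with
    | nil => rfl
    | cons y ys => simp at h1
  | cons x xs ih =>
    cases ys with
    | nil => simp at h1
    | cons y ys =>
      simp only [List.map_cons, List.cons.injEq] at h1 h2
      rw [ih h1.2 h2.2, Prod.ext h1.1 h2.1]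

private lemma gZ_cons' (F1 F2 : ℤ × ℤ) (e : Bool) (es : List Bool) (z : St) (xs : List St)
    (h : xs ≠ []) :
    gZ F1 F2 (e :: es) (z :: xs) = z.1.toNat • F1 + z.2.toNat • F2 +
      gZ (F1 - zz e) (F2 + z.1.toNat • qz + zz e) es xs := by
  cases xs with
  | nil => exact absurd rfl h
  | cons x xs => simp only [gZ, gZT]

/-- number of holes of the second kind -/
private def N2' : List St → ℕ
  | [] => 0
  | x :: xs => x.2.toNat + N2' xs

private lemma gZT_shift2 (F1 F2 c : ℤ × ℤ) (es : List Bool) (xs : List St)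
    (h : xs.length ≤ es.length) :
    gZT F1 (F2 + c) es xs = gZT F1 F2 es xs + N2' xs • c := by
  induction xs generalizing F1 F2 es with
  | nil => cases es <;> simp [gZT, N2']
  | cons x xs ih =>
    match es, h with
    | e :: es, h =>
      simp only [gZT, N2']
      have h1 : F2 + c + zz e + x.1.toNat • qz = F2 + zz e + x.1.toNat • qz + c := by abel
      rw [h1, ih _ _ _ (by simpa using h)]
      module

private lemma mon_pow' (p q : ℤ) (n : ℕ) : (mon p q) ^ n = mon (n * p) (n * q) := by
  induction n with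
  | zero => simp [mon_zero]
  | succ n ih =>
    rw [pow_succ, ih, mon_mul]
    congr 1 <;> push_cast <;> ring

private lemma tws_eq (xs : List St) :
    tws (mon 1 0) (mon (-1) 0) (mon 0 1) (mon 0 (-1)) xs =
      mon (2 * ((N1 xs : ℤ) - N2' xs)) (2 * ((N1 xs : ℤ) - N2' xs)) := by
  induction xs with
  | nil => simp [tws, N1, N2', mon_zero]
  | cons x xs ih =>
    have h1 : tws (mon 1 0) (mon (-1) 0) (mon 0 1) (mon 0 (-1)) (x :: xs) =
        tw (mon 1 0) (mon (-1) 0) (mon 0 1) (mon 0 (-1)) x *
          tws (mon 1 0) (mon (-1) 0) (mon 0 1) (mon 0 (-1)) xs := by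
      simp only [tws, List.map_cons, List.prod_cons]
    rw [h1, ih, tw, mon_mul, mon_mul, mon_pow', mon_pow', mon_mul, mon_mul]
    simp only [N1, N2']
    congr 1 <;> push_cast <;> ring

private lemma PS.mono_mul' {κ φ ψ : Q} {γ γ' : ℤ × ℤ} {S : Set (ℤ × ℤ)} {x : L} {p q : ℤ}
    (hx : PS φ γ S x) (hκ : κ = (((p + q : ℤ) : ZMod 4), ((q : ℤ) : ZMod 2))) (h : ψ = κ + φ)
    (h' : γ' = γ + (p, q)) : PS ψ γ' S (mon p q * x) := by
  refine ⟨Ph.mono_mul ⟨p, q, rfl, hκ⟩ hx.1 h, ?_⟩
  rintro ⟨r, s⟩
  rw [mon_mul_apply, hx.2, h']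
  constructor
  · rintro ⟨z, hz, he⟩
    refine ⟨z, hz, ?_⟩
    rw [Prod.mk.injEq] at he ⊢
    simp only [Prod.fst_add, Prod.snd_add]
    omega
  · rintro ⟨z, hz, he⟩
    refine ⟨z, hz, ?_⟩
    rw [Prod.mk.injEq] at he ⊢
    simp only [Prod.fst_add, Prod.snd_add] at he
    omega

private lemma four_zero (n : ℤ) :
    (0 : Q) = (((2 * n + 2 * n : ℤ) : ZMod 4), ((2 * n : ℤ) : ZMod 2)) := by
  have h4 : (4 : ZMod 4) = 0 := by decide
  have h2 : (2 : ZMod 2) = 0 := by decide
  ext
  · have : (2 * n + 2 * n : ℤ) = 4 * n := by ring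
    rw [this]
    push_cast
    rw [h4, zero_mul]
    rfl
  · push_cast
    rw [h2, zero_mul]
    rfl

private theorem PS_rootR_aux (i : ℕ) (es ls : List Bool) (hi : i < es.length)
    (hl : ls.length = es.length) (F1 F2 φ : Q) (F1z F2z γ : ℤ × ℤ) (G : List St → L)
    (S : List St → Set (ℤ × ℤ)) (X : List St) (hX : X.length = es.length + 1)
    (hG : ∀ X' : List St, X'.length = es.length + 1 → N1 X' + 2 = N1 X →
      PS (φ + gR F1 F2 es ls X') (γ + gZ F1z F2z es X') (S X') (G X')) :
    PS (φ - (2 : ℕ) • F1 - (2 : ℕ) • F2 - sg - qq + gR F1 F2 es ls X)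
      (γ - (2 : ℤ) • F1z - (2 : ℤ) • F2z - (2 * (N1 X : ℤ) - 3) • qz + gZ F1z F2z es X)
      {z | ∃ X', rstep i (X.map Prod.fst) (X'.map Prod.fst) ∧
        rstep i (X.map Prod.snd) (X'.map Prod.snd) ∧ z ∈ S X'}
      (rootR (mon 1 0) (mon (-1) 0) (mon 0 1) (mon 0 (-1)) i G X) := by
  induction i generalizing es ls F1 F2 φ F1z F2z γ G S X with
  | zero =>
    match es, ls, hi, hl, X, hX with
    | e :: es, l :: ls, _, hl, x :: y :: xs, hX =>
      have hxs : xs.length = es.length := by simpa using hX
      simp only [rootR]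
      split_ifs with hxy
      · obtain ⟨rfl, rfl⟩ := hxy
        have h1 := hG ((false, false) :: (false, false) :: xs) (by simpa using hX)
          (by simp only [N1, Bool.toNat_true, Bool.toNat_false]; omega)
        rw [tws_eq]
        have h2 := PS.mono_mul' (κ := 0) (ψ := φ - (2 : ℕ) • F1 - (2 : ℕ) • F2 - sg - qq +
            gR F1 F2 (e :: es) (l :: ls) ((true, true) :: (true, true) :: xs))
          (γ' := γ - (2 : ℤ) • F1z - (2 : ℤ) • F2z -
            (2 * (N1 ((true, true) :: (true, true) :: xs) : ℤ) - 3) • qz +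
            gZ F1z F2z (e :: es) ((true, true) :: (true, true) :: xs))
          (p := 2 * ((N1 xs : ℤ) - N2' xs)) (q := 2 * ((N1 xs : ℤ) - N2' xs)) h1
          (four_zero _) (by
            simp only [gR, gT, Bool.toNat_true, Bool.toNat_false, zero_smul, one_smul, zero_add,
              add_zero]
            have e1 : F2 + qq + zph e + (!l).toNat • sg + qq
                = F2 + zph e + (!l).toNat • sg + (2 : ℕ) • qq := by
              rw [two_smul]; abel
            rw [e1, two_qq, add_zero]
            have h := sg_add l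
            generalize l.toNat • sg = u at *
            generalize (!l).toNat • sg = v at *
            rw [← h, two_smul, two_smul]
            abel) (by
            simp only [gZ, gZT, Bool.toNat_true, Bool.toNat_false, zero_smul, one_smul, zero_add,
              add_zero, N1]
            have e1 : F2z + qz + zz e + qz = F2z + zz e + (qz + qz) := by abel
            rw [e1, gZT_shift2 _ _ _ _ _ hxs.le]
            generalize gZT (F1z - zz e) (F2z + zz e) es xs = T
            ext
            · simp only [Prod.fst_add, Prod.fst_sub, Prod.smul_fst]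
              simp only [smul_eq_mul, nsmul_eq_mul]
              push_cast
              ring
            · simp only [Prod.snd_add, Prod.snd_sub, Prod.smul_snd]
              simp only [smul_eq_mul, nsmul_eq_mul]
              push_cast
              ring)
        refine ⟨h2.1, fun c => ?_⟩
        rw [h2.2]
        constructor
        · rintro ⟨z, hz, he⟩
          exact ⟨z, ⟨(false, false) :: (false, false) :: xs, by simp [rstep], by simp [rstep], hz⟩,
            he⟩
        · rintro ⟨z, ⟨X', hr1, hr2, hz⟩, he⟩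
          refine ⟨z, ?_, he⟩
          match X', hr1, hr2, hz with
          | x' :: y' :: xs', hr1, hr2, hz =>
            simp only [List.map_cons, rstep] at hr1 hr2
            obtain ⟨-, -, a1, a2, a3⟩ := hr1
            obtain ⟨-, -, b1, b2, b3⟩ := hr2
            have ex : x' = (false, false) := Prod.ext a1 b1
            have ey : y' = (false, false) := Prod.ext a2 b2
            have exs : xs' = xs := map_fst_snd_inj a3 b3
            rw [ex, ey, exs] at hz
            exact hz
      · refine ⟨Ph.zero _, fun c => ?_⟩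
        constructor
        · intro h
          exact absurd rfl h
        · rintro ⟨z, ⟨X', hr1, hr2, hz⟩, he⟩
          exfalso
          apply hxy
          match X', hr1, hr2 with
          | x' :: y' :: xs', hr1, hr2 =>
            simp only [List.map_cons, rstep] at hr1 hr2
            exact ⟨Prod.ext hr1.1 hr2.1, Prod.ext hr1.2.1 hr2.2.1⟩
  | succ i ih =>
    match es, ls, hi, hl, X, hX with
    | e :: es, l :: ls, hi, hl, z :: xs, hX =>
      have hxs : xs.length = es.length + 1 := by simpa using hX
      have hne : xs ≠ [] := by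
        rintro rfl
        simp at hxs
      simp only [rootR]
      have h := ih es ls (by simpa using hi) (by simpa using hl) (F1 - zph e + l.toNat • sg)
        (F2 + z.1.toNat • qq + zph e + (!l).toNat • sg) (φ + (z.1.toNat • F1 + z.2.toNat • F2))
        (F1z - zz e) (F2z + z.1.toNat • qz + zz e) (γ + (z.1.toNat • F1z + z.2.toNat • F2z))
        (fun X => G (z :: X)) (fun X => S (z :: X)) xs hxs (by
          intro X' h1 h2
          have h3 := hG (z :: X') (by simp [h1]) (by simp only [N1]; omega)
          have hne' : X' ≠ [] := by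
            rintro rfl
            simp at h1
          rw [gR_cons _ _ _ _ _ _ _ _ hne', gZ_cons' _ _ _ _ _ _ hne'] at h3
          simpa only [add_assoc] using h3)
      have e1 : φ - (2 : ℕ) • F1 - (2 : ℕ) • F2 - sg - qq + gR F1 F2 (e :: es) (l :: ls) (z :: xs)
          = φ + (z.1.toNat • F1 + z.2.toNat • F2) - (2 : ℕ) • (F1 - zph e + l.toNat • sg)
            - (2 : ℕ) • (F2 + z.1.toNat • qq + zph e + (!l).toNat • sg) - sg - qq
            + gR (F1 - zph e + l.toNat • sg) (F2 + z.1.toNat • qq + zph e + (!l).toNat • sg)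
              es ls xs := by
        rw [gR_cons _ _ _ _ _ _ _ _ hne]
        generalize gR (F1 - zph e + l.toNat • sg) (F2 + z.1.toNat • qq + zph e + (!l).toNat • sg)
              es ls xs = R
        have h4 : (2 : ℕ) • (F1 - zph e + l.toNat • sg)
            + (2 : ℕ) • (F2 + z.1.toNat • qq + zph e + (!l).toNat • sg)
            = (2 : ℕ) • F1 + (2 : ℕ) • F2 + z.1.toNat • ((2 : ℕ) • qq)
              + (2 : ℕ) • (l.toNat • sg + (!l).toNat • sg) := by
          module
        rw [sg_add, two_qq, two_sg, smul_zero, add_zero, add_zero] at h4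
        generalize (2 : ℕ) • (F1 - zph e + l.toNat • sg) = A at *
        generalize (2 : ℕ) • (F2 + z.1.toNat • qq + zph e + (!l).toNat • sg) = B at *
        have h5 : ∀ c : Q, c - A - B = c - (A + B) := by intro c; abel
        rw [h5, h4]
        abel
      have e2 : γ - (2 : ℤ) • F1z - (2 : ℤ) • F2z - (2 * (N1 (z :: xs) : ℤ) - 3) • qz
            + gZ F1z F2z (e :: es) (z :: xs)
          = γ + (z.1.toNat • F1z + z.2.toNat • F2z) - (2 : ℤ) • (F1z - zz e)
            - (2 : ℤ) • (F2z + z.1.toNat • qz + zz e) - (2 * (N1 xs : ℤ) - 3) • qz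
            + gZ (F1z - zz e) (F2z + z.1.toNat • qz + zz e) es xs := by
        rw [gZ_cons' _ _ _ _ _ _ hne]
        generalize gZ (F1z - zz e) (F2z + z.1.toNat • qz + zz e) es xs = R
        simp only [N1]
        ext
        · simp only [Prod.fst_add, Prod.fst_sub, Prod.smul_fst]
          simp only [smul_eq_mul, nsmul_eq_mul]
          push_cast
          ring
        · simp only [Prod.snd_add, Prod.snd_sub, Prod.smul_snd]
          simp only [smul_eq_mul, nsmul_eq_mul]
          push_cast
          ring
      rw [e1, e2]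
      refine ⟨h.1, fun c => ?_⟩
      rw [h.2]
      constructor
      · rintro ⟨w, ⟨X', hr1, hr2, hw⟩, he⟩
        exact ⟨w, ⟨z :: X', by simpa [rstep] using hr1, by simpa [rstep] using hr2, hw⟩, he⟩
      · rintro ⟨w, ⟨X', hr1, hr2, hw⟩, he⟩
        match X', hr1, hr2, hw with
        | z' :: xs', hr1, hr2, hw =>
          simp only [List.map_cons, rstep] at hr1 hr2
          have ez : z' = z := Prod.ext hr1.1 hr2.1
          subst ez
          exact ⟨w, ⟨xs', hr1.2, hr2.2, hw⟩, he⟩

theorem PS_rootR (i : ℕ) (es ls : List Bool) (hi : i < es.length) (hl : ls.length = es.length)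
    (F1 F2 φ : Q) (F1z F2z γ : ℤ × ℤ) (N : ℕ) (G : List St → L) (S : List St → Set (ℤ × ℤ))
    (hG : ∀ X' : List St, X'.length = es.length + 1 → N1 X' + 2 = N →
      PS (φ + gR F1 F2 es ls X') (γ + gZ F1z F2z es X') (S X') (G X')) :
    ∃ φ' : Q, ∀ X : List St, X.length = es.length + 1 → N1 X = N →
      PS (φ' + gR F1 F2 es ls X)
        (γ - (2 : ℤ) • F1z - (2 : ℤ) • F2z - (2 * (N : ℤ) - 3) • qz + gZ F1z F2z es X)
        {z | ∃ X', rstep i (X.map Prod.fst) (X'.map Prod.fst) ∧
          rstep i (X.map Prod.snd) (X'.map Prod.snd) ∧ z ∈ S X'}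
        (rootR (mon 1 0) (mon (-1) 0) (mon 0 1) (mon 0 (-1)) i G X) := by
  refine ⟨φ - (2 : ℕ) • F1 - (2 : ℕ) • F2 - sg - qq, fun X hX hN => ?_⟩
  subst hN
  exact PS_rootR_aux i es ls hi hl F1 F2 φ F1z F2z γ G S X hX hG

end LGAlt
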