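import Pool.Agent.LGAlt2.SuppX

/-!
# Supports: elementary pieces and roots

`gZ` is the exact version of the gauge `gR`: a hole of the first kind in the gap `g` contributes
`F1 - Z g`, a hole of the second kind contributes `F2 + Z g + N qz`, where `Z g` is the sum of `zz e` over the
strands on the left of the gap, and `N` is the number of holes of the first kind in the gaps on the left of
`g`.

`PS_crossR`, `PS_cupR`, `PS_capR` : as `Ph_crossR`, `Ph_cupR`, `Ph_capR` in `LGAlt/Layer.lean`, with the same
proofs, using `PS_XT`, `PS_ST`, `PS_MT` instead of `Ph_XT`, `Ph_ST`, `Ph_MT`.  The exact constants (for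
`F1 = F2 = 0`) are `0` for crossings, `(N1 X) qz` for cups and `-(N1 X - 1) qz` for caps (`X` is the state below
the piece); with general `F1`, `F2` (they change in the induction): `F1 + F2 + (N1 X) qz` for cups and
`-F1 - F2 - (N1 X - 1) qz` for caps.
* cup: for the gaps on the right of the cup `Z` increases by `(1, 1) = -qz` and `N` by one, so only the holes
  of the first kind are shifted by `qz`; the regions `l`, `(true, true)`, `r` contribute
  `x`'s gauge, `F1 + F2 + (N + l.1) qz` for the full region, `(r.1) qz`, and `(l.1 * r.2) qz`.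
* cap: `gZ (p :: (false, false) :: y :: xs) = gZ (z :: xs) + F1 + F2 + (N1 - 1 + (1 - p.1) (1 - y.2)) qz`, where `N1`
  is the number of holes of the first kind in `p :: (false, false) :: y :: xs`.

`PS_rootR` : the root at the strand `i`; the exact constant is `-(2 N1 X - 3) qz` (for `F1 = F2 = 0`; in general
`-2 F1 - 2 F2 - (2 N1 X - 3) qz`), and the phase constant `sg + qq` (for `F1 = F2 = 0`, in general
`2 F1 + 2 F2 + sg + qq`; check): if `X'` is obtained from `X` by emptying the gaps `i`, `i + 1`, then
`gZ X = gZ X' + 2 F1 + 2 F2 + (2 N + 1) qz + 2 N₂ qz`, where `N` is the number of holes of the first kind on the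
left of the gap `i` and `N₂` the number of holes of the second kind on the right of the gap `i + 1`; the
twist of the regions on the right has the exponent `-2 N' qz + 2 N₂ qz`, `N'` the number of holes of the
first kind there, and `N1 X = N + 2 + N'`.  (Only the existence of a constant phase is stated.)
-/

namespace LGAlt

/-- exact gauge, starting with a strand -/
def gZT : ℤ × ℤ → ℤ × ℤ → List Bool → List St → ℤ × ℤ
  | F1, F2, e :: es, x :: xs =>
      x.1.toNat • (F1 - zz e) + x.2.toNat • (F2 + zz e) +
        gZT (F1 - zz e) (F2 + zz e + x.1.toNat • qz) es xs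
  | _, _, _, _ => 0

/-- exact gauge -/
def gZ (F1 F2 : ℤ × ℤ) (es : List Bool) : List St → ℤ × ℤ
  | x :: xs => x.1.toNat • F1 + x.2.toNat • F2 + gZT F1 (F2 + x.1.toNat • qz) es xs
  | [] => 0

/-- one layer of a crossing -/
def cstep : ℕ → Mk → List Bool → List Bool → Prop
  | 0, m, p :: x :: y :: xs, p' :: x' :: y' :: xs' => loc1 m p x y p' x' y' ∧ xs' = xs
  | k + 1, m, z :: xs, z' :: xs' => z' = z ∧ cstep k m xs xs'
  | _, _, _, _ => False

/-- one layer of a cup -/
def custep : ℕ → List Bool → List Bool → Prop
  | 0, x :: xs, l :: f :: r :: xs' => f = true ∧ l.toNat + r.toNat = x.toNat ∧ xs' = xs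
  | k + 1, z :: xs, z' :: xs' => z' = z ∧ custep k xs xs'
  | _, _, _ => False

/-- one layer of a cap -/
def castep : ℕ → List Bool → List Bool → Prop
  | 0, p :: x :: y :: xs, z :: xs' => x = false ∧ z.toNat + 1 = p.toNat + y.toNat ∧ xs' = xs
  | k + 1, z :: xs, z' :: xs' => z' = z ∧ castep k xs xs'
  | _, _, _ => False

/-- one layer of a root -/
def rstep : ℕ → List Bool → List Bool → Prop
  | 0, x :: y :: xs, x' :: y' :: xs' => x = true ∧ y = true ∧ x' = false ∧ y' = false ∧ xs' = xs
  | k + 1, z :: xs, z' :: xs' => z' = z ∧ rstep k xs xs'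
  | _, _, _ => False

end LGAlt
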