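import Pool.Agent.LGAlt2.SuppL1
import Pool.Agent.LGAlt2.SuppL2
import Pool.Agent.LGAlt2.SuppL3
import Pool.Agent.LGAlt2.SuppL4
import Pool.Agent.LGAlt2.RImain

/-!
# Supports: words

`LH U r j w X m` : `m` is the marking of one layer of a history which starts at the level `j` with the holes `X`
and follows the word `w`; `VL U j w m₁ m₂` : the exponent of a pair of markings.

`supp_word` : induction on `w`, as `Ph_regV` in `LGAlt/Main.lean`.  The exact constant is `g0 n w • qz` if the root
`r` has been passed (`r.1 < j`), where `2 n + 1` is the number of strands and `N1 X = n`, and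
`(g0 n w - (2 n + 1)) • qz` if the root is still to come (`j ≤ r.1`), where `N1 X = n + 2`.
* `g0` : crossings (active or not) do not change it; cups add `n`, caps subtract `n - 1` (`PS_cupR`, `PS_capR`
  with `N1 X = n`).
* if the root is still to come, then `N1 X = n + 2` and the cup adds `n + 2`, and
  `(g0 (n + 1) w - (2 (n + 1) + 1)) + (n + 2) = (g0 (n + 1) w + n) - (2 n + 1)`; the same for caps:
  `(g0 (n - 1) w - (2 (n - 1) + 1)) - (n + 1) = (g0 (n - 1) w - (n - 1)) - (2 n + 1)`.
* a root at the level `j`: `PS_rootR` with `N = n + 2` subtracts `2 (n + 2) - 3 = 2 n + 1`.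
`supp_evL` : for `w` from `[true]` to `[true]`; `gZ 0 0 [true] [(true, true), (true, true)] = qz`, so the
constant is `g0 0 w • qz`, for all roots.
-/

namespace LGAlt

/-- one layer of a piece, `act` : is the crossing active -/
def pstep (p : Piece) (act : Prop) (m : Mk) (X Y : List Bool) : Prop :=
  match p with
  | .cross k _ => (act → cstep k m X Y) ∧ (¬ act → Y = X)
  | .cup k _ => custep k X Y
  | .cap k _ => castep k X Y

/-- markings of histories, in list form -/
def LH (U : Finset ℕ) (r : ℕ × ℕ) : ℕ → List Piece → List Bool → (ℕ → Mk) → Prop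
  | j, [], X, _ => ∃ X₁, (if r.1 = j then rstep r.2 X X₁ else X₁ = X) ∧ X₁ = [false, false]
  | j, p :: w, X, m => ∃ X₁ Y, (if r.1 = j then rstep r.2 X X₁ else X₁ = X) ∧
      pstep p (j ∈ U) (m j) X₁ Y ∧ LH U r (j + 1) w Y m

/-- the exponent of a pair of markings -/
def VL (U : Finset ℕ) : ℕ → List Piece → (ℕ → Mk) → (ℕ → Mk) → ℤ × ℤ
  | _, [], _, _ => 0
  | j, p :: w, m₁, m₂ => (if p.isX = true ∧ j ∈ U then cv p.pos (m₁ j) (m₂ j) else 0)
      + VL U (j + 1) w m₁ m₂

/-- the exact constant -/
def g0 : ℤ → List Piece → ℤ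
  | _, [] => 0
  | n, .cross _ _ :: w => g0 n w
  | n, .cup _ _ :: w => g0 (n + 1) w + n
  | n, .cap _ _ :: w => g0 (n - 1) w - (n - 1)

/-- strand positions: the root is passed, or it is at a later level of the word -/
def RootOK (r : ℕ × ℕ) : ℕ → List Piece → List Bool → Prop
  | j, w, es => r.1 < j ∨ (j ≤ r.1 ∧ ∃ w₁ w₂ es', w = w₁ ++ w₂ ∧ j + w₁.length = r.1 ∧
      OPath w₁ es es' ∧ r.2 < es'.length)

/-! ### auxiliary statements -/

private lemma suppW_det {p : Piece} {x y y' : List Bool} (h : OStep p x y) (h' : OStep p x y') :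
    y = y' := by
  generalize hx : x = x' at h'
  generalize hp : p = p' at h'
  cases h with
  | cross l₁ l₂ pos =>
    cases h' with
    | cross m₁ m₂ pos' => exact hx
    | cup => cases hp
    | cap => cases hp
  | cup l₁ l₂ s =>
    cases h' with
    | cross => cases hp
    | cup m₁ m₂ s' =>
      injection hp with h1 h2
      subst h2
      obtain ⟨rfl, rfl⟩ := List.append_inj hx h1
      rfl
    | cap => cases hp
  | cap l₁ l₂ s =>
    cases h' with
    | cross => cases hp
    | cup => cases hp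
    | cap m₁ m₂ s' =>
      injection hp with h1 h2
      subst h2
      obtain ⟨rfl, h3⟩ := List.append_inj hx h1
      injection h3 with _ h4
      injection h4 with _ h5
      rw [h5]

/-- the markings of a level without its root -/
private def LK (U : Finset ℕ) (r : ℕ × ℕ) : ℕ → List Piece → List Bool → (ℕ → Mk) → Prop
  | _, [], X, _ => X = [false, false]
  | j, p :: w, X, m => ∃ Y, pstep p (j ∈ U) (m j) X Y ∧ LH U r (j + 1) w Y m

/-- the evaluation of a level without its root -/
private noncomputable def evK (U : Finset ℕ) (r : ℕ × ℕ) : ℕ → List Piece → List St → L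
  | _, [] => fun X => if X = [(false, false), (false, false)] then 1 else 0
  | j, p :: w => pieceU (mon 1 0) (mon (-1) 0) (mon 0 1) (mon 0 (-1)) (j ∈ U) p (evL U r (j + 1) w)

private lemma evL_evK (U : Finset ℕ) (r : ℕ × ℕ) (j : ℕ) (w : List Piece) :
    evL U r j w = rootAt (mon 1 0) (mon (-1) 0) (mon 0 1) (mon 0 (-1)) r j (evK U r j w) := by
  cases w <;> rfl

private lemma LH_LK (U : Finset ℕ) (r : ℕ × ℕ) (j : ℕ) (w : List Piece) (X : List Bool)
    (m : ℕ → Mk) : LH U r j w X m ↔
      ∃ X₁, (if r.1 = j then rstep r.2 X X₁ else X₁ = X) ∧ LK U r j w X₁ m := by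
  cases w with
  | nil => simp only [LH, LK]
  | cons p w =>
    simp only [LH, LK]
    constructor
    · rintro ⟨X₁, Y, h1, h2, h3⟩
      exact ⟨X₁, h1, Y, h2, h3⟩
    · rintro ⟨X₁, h1, Y, h2, h3⟩
      exact ⟨X₁, Y, h1, h2, h3⟩

private lemma LH_congr (U : Finset ℕ) (r : ℕ × ℕ) {m m' : ℕ → Mk} {w : List Piece} {j : ℕ}
    {X : List Bool} (h : ∀ i, j ≤ i → m i = m' i) (hm : LH U r j w X m) : LH U r j w X m' := by
  induction w generalizing j X with
  | nil => exact hm
  | cons p w ih =>
    obtain ⟨X₁, Y, h1, h2, h3⟩ := hm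
    refine ⟨X₁, Y, h1, ?_, ih (fun i hi => h i (by omega)) h3⟩
    rw [← h j le_rfl]
    exact h2

private lemma VL_congr (U : Finset ℕ) {m₁ m₂ m₁' m₂' : ℕ → Mk} {w : List Piece} {j : ℕ}
    (h₁ : ∀ i, j ≤ i → m₁ i = m₁' i) (h₂ : ∀ i, j ≤ i → m₂ i = m₂' i) :
    VL U j w m₁ m₂ = VL U j w m₁' m₂' := by
  induction w generalizing j with
  | nil => rfl
  | cons p w ih =>
    simp only [VL]
    rw [ih (fun i hi => h₁ i (by omega)) (fun i hi => h₂ i (by omega)), h₁ j le_rfl, h₂ j le_rfl]

private lemma cstep_len {k : ℕ} {m : Mk} {X Y : List Bool} (h : cstep k m X Y) :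
    Y.length = X.length := by
  induction k generalizing X Y with
  | zero =>
    match X, Y, h with
    | p :: x :: y :: xs, p' :: x' :: y' :: xs', h =>
      obtain ⟨-, rfl⟩ := h
      simp
  | succ k ih =>
    match X, Y, h with
    | z :: xs, z' :: xs', h =>
      simp only [List.length_cons, ih h.2]

private lemma custep_len {k : ℕ} {X Y : List Bool} (h : custep k X Y) :
    Y.length = X.length + 2 := by
  induction k generalizing X Y with
  | zero =>
    match X, Y, h with
    | x :: xs, l :: f :: r :: xs', h =>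
      obtain ⟨-, -, rfl⟩ := h
      simp
  | succ k ih =>
    match X, Y, h with
    | z :: xs, z' :: xs', h =>
      simp only [List.length_cons, ih h.2]

private lemma castep_len {k : ℕ} {X Y : List Bool} (h : castep k X Y) :
    Y.length + 2 = X.length := by
  induction k generalizing X Y with
  | zero =>
    match X, Y, h with
    | p :: x :: y :: xs, z :: xs', h =>
      obtain ⟨-, -, rfl⟩ := h
      simp
  | succ k ih =>
    match X, Y, h with
    | z :: xs, z' :: xs', h =>
      have := ih h.2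
      simp only [List.length_cons]
      omega

private lemma rstep_len {k : ℕ} {X Y : List Bool} (h : rstep k X Y) :
    Y.length = X.length := by
  induction k generalizing X Y with
  | zero =>
    match X, Y, h with
    | x :: y :: xs, x' :: y' :: xs', h =>
      obtain ⟨-, -, -, -, rfl⟩ := h
      simp
  | succ k ih =>
    match X, Y, h with
    | z :: xs, z' :: xs', h =>
      simp only [List.length_cons, ih h.2]

private lemma exists_zip {Y₁ Y₂ : List Bool} (h : Y₁.length = Y₂.length) :
    ∃ X : List St, X.map Prod.fst = Y₁ ∧ X.map Prod.snd = Y₂ :=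
  ⟨Y₁.zip Y₂, List.map_fst_zip h.le, List.map_snd_zip h.ge⟩

/-- the set of the exponents of a level -/
private def SH (U : Finset ℕ) (r : ℕ × ℕ) (j : ℕ) (w : List Piece) (X : List St) : Set (ℤ × ℤ) :=
  {z | ∃ m₁ m₂, LH U r j w (X.map Prod.fst) m₁ ∧ LH U r j w (X.map Prod.snd) m₂ ∧
    z = VL U j w m₁ m₂}

/-- the set of the exponents of a level without its root -/
private def SK (U : Finset ℕ) (r : ℕ × ℕ) (j : ℕ) (w : List Piece) (X : List St) : Set (ℤ × ℤ) :=
  {z | ∃ m₁ m₂, LK U r j w (X.map Prod.fst) m₁ ∧ LK U r j w (X.map Prod.snd) m₂ ∧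
    z = VL U j w m₁ m₂}

/-- insertion of the root -/
private lemma full_of_core (U : Finset ℕ) (r : ℕ × ℕ) (j : ℕ) (w : List Piece) (es ls : List Bool)
    (hl : ls.length = es.length) (hi : r.1 = j → r.2 < es.length) (N : ℕ) (c : ℤ)
    (h : ∃ φ : Q, ∀ X : List St, X.length = es.length + 1 → N1 X = N →
      PS (φ + gR 0 0 es ls X) (c • qz + gZ 0 0 es X) (SK U r j w X) (evK U r j w X)) :
    ∃ φ : Q, ∀ X : List St, X.length = es.length + 1 → N1 X = (if r.1 = j then N + 2 else N) →
      PS (φ + gR 0 0 es ls X) ((if r.1 = j then c - (2 * N + 1) else c) • qz + gZ 0 0 es X)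
        (SH U r j w X) (evL U r j w X) := by
  obtain ⟨φ, h⟩ := h
  rw [evL_evK]
  by_cases hr : r.1 = j
  · obtain ⟨φ', h'⟩ := PS_rootR r.2 es ls (hi hr) hl 0 0 φ 0 0 (c • qz) (N + 2) (evK U r j w)
      (SK U r j w) (fun X' h1 h2 => h X' h1 (by omega))
    refine ⟨φ', fun X hX hN => ?_⟩
    rw [if_pos hr] at hN ⊢
    have h2 := h' X hX hN
    have e : c • qz - (2 : ℤ) • (0 : ℤ × ℤ) - (2 : ℤ) • (0 : ℤ × ℤ) -
        (2 * ((N + 2 : ℕ) : ℤ) - 3) • qz + gZ 0 0 es X = (c - (2 * N + 1)) • qz + gZ 0 0 es X := by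
      rw [smul_zero, sub_zero, sub_zero, ← sub_smul]
      congr 2
      push_cast
      ring
    rw [e] at h2
    simp only [rootAt, if_pos hr]
    refine h2.congr (fun z => ?_)
    constructor
    · rintro ⟨X', h3, h4, m₁, m₂, h5, h6, h7⟩
      refine ⟨m₁, m₂, (LH_LK ..).2 ⟨_, ?_, h5⟩, (LH_LK ..).2 ⟨_, ?_, h6⟩, h7⟩
      · rw [if_pos hr]; exact h3
      · rw [if_pos hr]; exact h4
    · rintro ⟨m₁, m₂, h5, h6, h7⟩
      obtain ⟨X₁, h3, h5⟩ := (LH_LK ..).1 h5
      obtain ⟨X₂, h4, h6⟩ := (LH_LK ..).1 h6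
      rw [if_pos hr] at h3 h4
      obtain ⟨X', rfl, rfl⟩ := exists_zip (Y₁ := X₁) (Y₂ := X₂)
        (by rw [rstep_len h3, rstep_len h4, List.length_map, List.length_map])
      exact ⟨X', h3, h4, m₁, m₂, h5, h6, h7⟩
  · refine ⟨φ, fun X hX hN => ?_⟩
    rw [if_neg hr] at hN ⊢
    simp only [rootAt, if_neg hr]
    refine (h X hX hN).congr (fun z => ?_)
    have e : ∀ (Y : List Bool) (m : ℕ → Mk), LH U r j w Y m ↔ LK U r j w Y m := by
      intro Y m
      rw [LH_LK]
      simp only [if_neg hr]
      constructor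
      · rintro ⟨_, rfl, h⟩; exact h
      · intro h; exact ⟨_, rfl, h⟩
    simp only [SK, SH, Set.mem_ofPred_eq, e]

/-- one piece -/
private lemma core_of_full (U : Finset ℕ) (r : ℕ × ℕ) (j : ℕ) {p : Piece} (w : List Piece)
    {es es' ls ls' : List Bool} (hp : OStep p es es') (hlp : AltStep p ls ls')
    (hl : ls.length = es.length) (N N' : ℕ) (c c' : ℤ)
    (hN : match p with
      | .cross _ _ => N' = N ∧ c = c'
      | .cup _ _ => N' = N + 1 ∧ c = c' + N
      | .cap _ _ => N' + 1 = N ∧ c = c' - (N - 1))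
    (h : ∃ φ : Q, ∀ X : List St, X.length = es'.length + 1 → N1 X = N' →
      PS (φ + gR 0 0 es' ls' X) (c' • qz + gZ 0 0 es' X) (SH U r (j + 1) w X)
        (evL U r (j + 1) w X)) :
    ∃ φ : Q, ∀ X : List St, X.length = es.length + 1 → N1 X = N →
      PS (φ + gR 0 0 es ls X) (c • qz + gZ 0 0 es X) (SK U r j (p :: w) X)
        (evK U r j (p :: w) X) := by
  obtain ⟨φ, h⟩ := h
  cases hp with
  | cross l₁ l₂ pos =>
    obtain ⟨m₁, m₂, hm, rfl, rfl⟩ := hlp.cross_inv
    have hm2 : l₂.length = m₂.length := by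
      simp only [List.length_append, List.length_cons] at hl
      omega
    obtain ⟨rfl, rfl⟩ := hN
    by_cases hj : j ∈ U
    · refine ⟨φ + sg, fun X hX hNX => ?_⟩
      have h2 := PS_crossR pos l₁ l₂ m₁ m₂ hm.symm hm2 0 0 φ 0 0 (c • qz) X hX
        (evL U r (j + 1) w) (SH U r (j + 1) w) (fun X' h1 h2 => h X' (by rw [h1, hX])
          (h2.trans hNX))
      simp only [evK, pieceU, if_pos hj]
      refine h2.congr (fun z => ?_)
      constructor
      · rintro ⟨n₁, n₂, X', h3, h4, z', ⟨k₁, k₂, h5, h6, rfl⟩, rfl⟩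
        refine ⟨Function.update k₁ j n₁, Function.update k₂ j n₂, ?_, ?_, ?_⟩
        · refine ⟨X'.map Prod.fst, ⟨fun _ => ?_, fun hj' => absurd hj hj'⟩, ?_⟩
          · rw [Function.update_self]; exact h3
          · refine LH_congr U r (fun i hi => ?_) h5
            rw [Function.update_of_ne (by omega)]
        · refine ⟨X'.map Prod.snd, ⟨fun _ => ?_, fun hj' => absurd hj hj'⟩, ?_⟩
          · rw [Function.update_self]; exact h4
          · refine LH_congr U r (fun i hi => ?_) h6
            rw [Function.update_of_ne (by omega)]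
        · simp only [VL, Piece.isX, Piece.pos, hj, and_self, if_true, Function.update_self]
          rw [VL_congr U (m₁' := Function.update k₁ j n₁) (m₂' := Function.update k₂ j n₂)
            (fun i hi => by rw [Function.update_of_ne (by omega)])
            (fun i hi => by rw [Function.update_of_ne (by omega)])]
      · rintro ⟨k₁, k₂, ⟨Y₁, h3, h5⟩, ⟨Y₂, h4, h6⟩, rfl⟩
        have h3' := h3.1 hj
        have h4' := h4.1 hj
        obtain ⟨X', rfl, rfl⟩ := exists_zip (Y₁ := Y₁) (Y₂ := Y₂)
          (by rw [cstep_len h3', cstep_len h4', List.length_map, List.length_map])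
        refine ⟨k₁ j, k₂ j, X', h3', h4', _, ⟨k₁, k₂, h5, h6, rfl⟩, ?_⟩
        simp only [VL, Piece.isX, Piece.pos, hj, and_self, if_true]
    · refine ⟨φ, fun X hX hNX => ?_⟩
      simp only [evK, pieceU, if_neg hj]
      refine (h X hX hNX).congr (fun z => ?_)
      constructor
      · rintro ⟨k₁, k₂, h5, h6, rfl⟩
        refine ⟨k₁, k₂, ⟨_, ⟨fun h => absurd h hj, fun _ => rfl⟩, h5⟩,
          ⟨_, ⟨fun h => absurd h hj, fun _ => rfl⟩, h6⟩, ?_⟩
        simp only [VL, hj, and_false, if_false, zero_add]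
      · rintro ⟨k₁, k₂, ⟨Y₁, h3, h5⟩, ⟨Y₂, h4, h6⟩, rfl⟩
        rw [h3.2 hj] at h5
        rw [h4.2 hj] at h6
        refine ⟨k₁, k₂, h5, h6, ?_⟩
        simp only [VL, hj, and_false, if_false, zero_add]
  | cup l₁ l₂ s =>
    obtain ⟨m₁, m₂, c₀, hm, rfl, rfl⟩ := hlp.cup_inv
    have hm2 : l₂.length = m₂.length := by
      simp only [List.length_append] at hl
      omega
    obtain ⟨rfl, rfl⟩ := hN
    refine ⟨φ + (l₁.length + 1) • sg + N • qq, fun X hX hNX => ?_⟩
    have h2 := PS_cupR s c₀ l₁ l₂ m₁ m₂ hm.symm hm2 0 0 φ 0 0 (c' • qz) X hX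
      (evL U r (j + 1) w) (SH U r (j + 1) w) (fun X' h1 h2 => h X' (by
        rw [h1, hX]; simp only [List.length_append, List.length_cons]; omega) (by rw [h2, hNX]))
    rw [hNX, add_zero, add_zero, add_zero, add_zero] at h2
    have e : c' • qz + N • qz = (c' + (N : ℤ)) • qz := by rw [add_smul, natCast_zsmul]
    rw [e] at h2
    simp only [evK, pieceU]
    refine h2.congr (fun z => ?_)
    constructor
    · rintro ⟨X', h3, h4, k₁, k₂, h5, h6, rfl⟩
      refine ⟨k₁, k₂, ⟨_, h3, h5⟩, ⟨_, h4, h6⟩, ?_⟩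
      simp only [VL, Piece.isX, Bool.false_eq_true, false_and, if_false, zero_add]
    · rintro ⟨k₁, k₂, ⟨Y₁, h3, h5⟩, ⟨Y₂, h4, h6⟩, rfl⟩
      simp only [pstep] at h3 h4
      obtain ⟨X', rfl, rfl⟩ := exists_zip (Y₁ := Y₁) (Y₂ := Y₂)
        (by rw [custep_len h3, custep_len h4, List.length_map, List.length_map])
      refine ⟨X', h3, h4, k₁, k₂, h5, h6, ?_⟩
      simp only [VL, Piece.isX, Bool.false_eq_true, false_and, if_false, zero_add]
  | cap l₁ l₂ s =>
    obtain ⟨m₁, m₂, c₀, hm, rfl, rfl⟩ := hlp.cap_inv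
    have hm2 : l₂.length = m₂.length := by
      simp only [List.length_append, List.length_cons] at hl
      omega
    obtain ⟨hN', rfl⟩ := hN
    refine ⟨φ + l₁.length • sg + (N + 1) • qq, fun X hX hNX => ?_⟩
    have h2 := PS_capR s c₀ l₁ l₂ m₁ m₂ hm.symm hm2 0 0 φ 0 0 (c' • qz) X hX
      (evL U r (j + 1) w) (SH U r (j + 1) w) (fun X' h1 h2 => h X' (by
        rw [hX] at h1; simp only [List.length_append, List.length_cons] at h1 ⊢; omega) (by omega))
    rw [hNX, sub_zero, sub_zero, sub_zero, sub_zero, ← sub_smul] at h2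
    simp only [evK, pieceU]
    refine h2.congr (fun z => ?_)
    constructor
    · rintro ⟨X', h3, h4, k₁, k₂, h5, h6, rfl⟩
      refine ⟨k₁, k₂, ⟨_, h3, h5⟩, ⟨_, h4, h6⟩, ?_⟩
      simp only [VL, Piece.isX, Bool.false_eq_true, false_and, if_false, zero_add]
    · rintro ⟨k₁, k₂, ⟨Y₁, h3, h5⟩, ⟨Y₂, h4, h6⟩, rfl⟩
      simp only [pstep] at h3 h4
      obtain ⟨X', rfl, rfl⟩ := exists_zip (Y₁ := Y₁) (Y₂ := Y₂)
        (by
          have := castep_len h3
          have := castep_len h4
          simp only [List.length_map] at *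
          omega)
      refine ⟨X', h3, h4, k₁, k₂, h5, h6, ?_⟩
      simp only [VL, Piece.isX, Bool.false_eq_true, false_and, if_false, zero_add]

/-- the last level -/
private lemma core_nil (U : Finset ℕ) (r : ℕ × ℕ) (j : ℕ) (ls : List Bool) (hl : ls.length = 1) :
    ∃ φ : Q, ∀ X : List St, X.length = [true].length + 1 → N1 X = 0 →
      PS (φ + gR 0 0 [true] ls X) ((0 : ℤ) • qz + gZ 0 0 [true] X) (SK U r j [] X)
        (evK U r j [] X) := by
  refine ⟨0, fun X hX hN => ?_⟩
  by_cases h : X = [(false, false), (false, false)]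
  · subst h
    have e1 : (0 : Q) + gR 0 0 [true] ls [(false, false), (false, false)] = 0 := by
      match ls, hl with
      | [l], _ => simp [gR, gT]
    have e2 : (0 : ℤ) • qz + gZ 0 0 [true] [(false, false), (false, false)] = 0 := by
      simp [gZ, gZT]
    rw [e1, e2]
    simp only [evK, if_true]
    refine ⟨Ph.one, fun e => ?_⟩
    have h1 : (1 : L).coeff e = if e = 0 then 1 else 0 := by
      have h0 : (1 : L) = AddMonoidAlgebra.single ((0 : ℤ × ℤ)) 1 := rfl
      rw [h0, AddMonoidAlgebra.coeff_single, Finsupp.single_apply]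
      simp only [eq_comm]
    rw [h1]
    constructor
    · intro h2
      have h3 : e = 0 := by
        by_contra h4
        rw [if_neg h4] at h2
        exact h2 rfl
      subst h3
      exact ⟨0, ⟨fun _ => .T, fun _ => .T, rfl, rfl, rfl⟩, by simp; rfl⟩
    · rintro ⟨z, ⟨m₁, m₂, -, -, rfl⟩, rfl⟩
      simp [VL]
  · simp only [evK, if_neg h]
    refine (PS.zero _ _).congr (fun z => ?_)
    constructor
    · intro h1; exact h1.elim
    · rintro ⟨m₁, m₂, h1, h2, -⟩
      simp only [LK] at h1 h2
      refine absurd ?_ h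
      match X, h1, h2 with
      | [a, b], h1, h2 =>
        simp only [List.map_cons, List.map_nil, List.cons.injEq, and_true] at h1 h2
        rw [show a = (false, false) from Prod.ext h1.1 h2.1,
          show b = (false, false) from Prod.ext h1.2 h2.2]

private lemma suppW_finish (U : Finset ℕ) (r : ℕ × ℕ) (j : ℕ) (w : List Piece) (es ls : List Bool)
    (hl : ls.length = es.length) (hi : r.1 = j → r.2 < es.length) (n : ℕ) (g : ℤ)
    (h : ∃ φ : Q, ∀ X : List St, X.length = es.length + 1 →
      N1 X = (if r.1 < j + 1 then n else n + 2) →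
      PS (φ + gR 0 0 es ls X)
        ((if r.1 < j + 1 then g else g - (2 * n + 1)) • qz + gZ 0 0 es X)
        (SK U r j w X) (evK U r j w X)) :
    ∃ φ : Q, ∀ X : List St, X.length = es.length + 1 →
      N1 X = (if r.1 < j then n else n + 2) →
      PS (φ + gR 0 0 es ls X)
        ((if r.1 < j then g else g - (2 * n + 1)) • qz + gZ 0 0 es X)
        (SH U r j w X) (evL U r j w X) := by
  obtain ⟨φ, h1⟩ := full_of_core U r j w es ls hl hi _ _ h
  refine ⟨φ, fun X hX hN => ?_⟩
  rcases lt_trichotomy r.1 j with h2 | h2 | h2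
  · have h3 : r.1 < j + 1 := by omega
    have h4 : r.1 ≠ j := by omega
    simp only [h2, h3, h4, if_true, if_false] at hN h1 ⊢
    exact h1 X hX hN
  · have h3 : r.1 < j + 1 := by omega
    have h4 : ¬ r.1 < j := by omega
    simp only [h2, if_true, if_false, lt_irrefl, Nat.lt_succ_self] at hN h1 ⊢
    exact h1 X hX hN
  · have h3 : ¬ r.1 < j + 1 := by omega
    have h4 : ¬ r.1 < j := by omega
    have h5 : r.1 ≠ j := by omega
    simp only [h3, h4, h5, if_false] at hN h1 ⊢
    exact h1 X hX hN

private lemma rootOK_zero {r : ℕ × ℕ} {j : ℕ} {w : List Piece} {es : List Bool}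
    (hr : RootOK r j w es) (h : r.1 = j) : r.2 < es.length := by
  rcases hr with h1 | ⟨-, w₁, w₂, es', -, h2, h3, h4⟩
  · omega
  · have : w₁ = [] := List.length_eq_zero_iff.1 (by omega)
    subst this
    cases h3
    exact h4

private lemma rootOK_tail {r : ℕ × ℕ} {j : ℕ} {p : Piece} {w : List Piece} {es es' : List Bool}
    (hp : OStep p es es') (hr : RootOK r j (p :: w) es) : RootOK r (j + 1) w es' := by
  rcases lt_or_ge r.1 (j + 1) with h | h
  · exact Or.inl h
  · rcases hr with h1 | ⟨-, w₁, w₂, es₁, h0, h2, h3, h4⟩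
    · omega
    · refine Or.inr ⟨h, ?_⟩
      cases w₁ with
      | nil => simp only [List.length_nil] at h2; omega
      | cons q w₁ =>
        injection h0 with h5 h6
        subst h5
        cases h3 with
        | cons _ _ _ y _ hs ht =>
          rw [← suppW_det hp hs] at ht
          refine ⟨w₁, w₂, es₁, h6, ?_, ht, h4⟩
          simp only [List.length_cons] at h2
          omega

theorem supp_word (U : Finset ℕ) (r : ℕ × ℕ) {w : List Piece} {es : List Bool}
    (hw : OPath w es [true]) {ls : List Bool} {x : Bool} (ha : AltPath w ls [x])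
    (hl : ls.length = es.length) (n : ℕ) (hn : es.length = 2 * n + 1) (j : ℕ)
    (hr : RootOK r j w es) :
    ∃ φ : Q, ∀ X : List St, X.length = es.length + 1 → N1 X = (if r.1 < j then n else n + 2) →
      PS (φ + gR 0 0 es ls X)
        ((if r.1 < j then g0 n w else g0 n w - (2 * n + 1)) • qz + gZ 0 0 es X)
        {z | ∃ m₁ m₂, LH U r j w (X.map Prod.fst) m₁ ∧ LH U r j w (X.map Prod.snd) m₂ ∧
          z = VL U j w m₁ m₂}
        (evL U r j w X) := by
  induction w generalizing es ls n j with
  | nil =>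
    cases hw
    cases ha
    have hn0 : n = 0 := by simp only [List.length_cons, List.length_nil] at hn; omega
    subst hn0
    refine suppW_finish U r j [] [true] [x] hl (rootOK_zero hr) 0 _ ?_
    have h1 : r.1 < j + 1 := by
      rcases hr with h1 | ⟨-, w₁, w₂, es', h2, h3, -, -⟩
      · omega
      · have h4 := congrArg List.length h2
        simp only [List.length_nil, List.length_append] at h4
        omega
    simp only [h1, if_true]
    exact core_nil U r j [x] rfl
  | cons p w ih =>
    cases hw with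
    | cons _ _ _ es' _ hs ht =>
    cases ha with
    | cons _ _ _ ls' _ hls hlt =>
    have hr' := rootOK_tail hs hr
    refine suppW_finish U r j (p :: w) es ls hl (rootOK_zero hr) n _ ?_
    cases p with
    | cross k pos =>
      have hlen : es'.length = es.length := by
        generalize hp : Piece.cross k pos = p at hs
        cases hs <;> first | rfl | cases hp
      have hlen' : ls'.length = ls.length := by
        obtain ⟨m₁, m₂, -, -, rfl⟩ := hls.cross_inv
        rfl
      have h := ih ht hlt (by omega) n (by omega) (j + 1) hr'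
      refine core_of_full U r j w hs hls hl _ _ _ _ ⟨rfl, ?_⟩ h
      simp only [g0]
    | cup k s =>
      have hlen : es'.length = es.length + 2 := by
        generalize hp : Piece.cup k s = p at hs
        cases hs with
        | cross => cases hp
        | cup l₁ l₂ s' => simp only [List.length_append, List.length_cons]; omega
        | cap => cases hp
      have hlen' : ls'.length = ls.length + 2 := by
        obtain ⟨m₁, m₂, c, -, rfl, rfl⟩ := hls.cup_inv
        simp only [List.length_append, List.length_cons]; omega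
      have h := ih ht hlt (by omega) (n + 1) (by omega) (j + 1) hr'
      refine core_of_full U r j w hs hls hl _ _ _ _ ⟨?_, ?_⟩ h
      · split_ifs <;> omega
      · simp only [g0]
        split_ifs
        · push_cast; ring
        · push_cast; ring
    | cap k s =>
      have hlen : es'.length + 2 = es.length := by
        generalize hp : Piece.cap k s = p at hs
        cases hs with
        | cross => cases hp
        | cup => cases hp
        | cap l₁ l₂ s' => simp only [List.length_append, List.length_cons]; omega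
      have hlen' : ls'.length + 2 = ls.length := by
        obtain ⟨m₁, m₂, c, -, rfl, rfl⟩ := hls.cap_inv
        simp only [List.length_append, List.length_cons]; omega
      obtain ⟨n', rfl⟩ : ∃ n', n = n' + 1 := ⟨n - 1, by omega⟩
      have h := ih ht hlt (by omega) n' (by omega) (j + 1) hr'
      refine core_of_full U r j w hs hls hl _ _ _ _ ⟨?_, ?_⟩ h
      · split_ifs <;> omega
      · simp only [g0]
        have e : ((n' + 1 : ℕ) : ℤ) - 1 = (n' : ℤ) := by push_cast; ring
        rw [e]
        split_ifs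
        · push_cast; ring
        · push_cast; ring

theorem supp_evL (U : Finset ℕ) (r : ℕ × ℕ) {w : List Piece} (hw : OPath w [true] [true])
    {x : Bool} (ha : AltPath w [x] [x]) (hr : RootOK r 0 w [true]) (e : ℤ × ℤ) :
    (evL U r 0 w [(true, true), (true, true)]).coeff e ≠ 0 ↔
      ∃ m₁ m₂, LH U r 0 w [true, true] m₁ ∧ LH U r 0 w [true, true] m₂ ∧
        e = ((2 * (VL U 0 w m₁ m₂).1 - g0 0 w), (2 * (VL U 0 w m₁ m₂).2 - g0 0 w)) := by
  obtain ⟨φ, h⟩ := supp_word U r hw ha rfl 0 rfl 0 hr
  have h1 := (h [(true, true), (true, true)] rfl (by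
    rw [if_neg (Nat.not_lt_zero _)]; simp [N1])).2 e
  rw [h1, if_neg (Nat.not_lt_zero _)]
  have e1 : gZ 0 0 [true] [(true, true), (true, true)] = qz := by decide
  rw [e1]
  have e2 : (g0 ((0 : ℕ) : ℤ) w - (2 * ((0 : ℕ) : ℤ) + 1)) • qz + qz = (-g0 0 w, -g0 0 w) := by
    ext
    · simp only [Nat.cast_zero, Prod.fst_add, Prod.smul_fst, smul_eq_mul]; ring
    · simp only [Nat.cast_zero, Prod.snd_add, Prod.smul_snd, smul_eq_mul]; ring
  rw [e2]
  constructor
  · rintro ⟨z, ⟨m₁, m₂, h2, h3, rfl⟩, rfl⟩
    exact ⟨m₁, m₂, h2, h3, by simp only [sub_eq_add_neg]⟩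
  · rintro ⟨m₁, m₂, h2, h3, rfl⟩
    exact ⟨_, ⟨m₁, m₂, h2, h3, rfl⟩, by simp only [sub_eq_add_neg]⟩

end LGAlt
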