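import Pool.Agent.LGAlt.Main
import Pool.Agent.LGAlt2.RIdef
import Pool.Agent.LGAlt2.Base

/-!
# Supports: local statements

`PS φ γ S x` : all monomials of `x` have the phase `φ`, and the exponents of `x` are the elements
`2 z + γ`, `z ∈ S`.  Sums of elements with the same phase have no cancellation, so the supports are united.
-/

namespace LGAlt

/-- all monomials of `x` have the phase `φ` and the exponents of `x` are `2 z + γ`, `z ∈ S` -/
def PS (φ : Q) (γ : ℤ × ℤ) (S : Set (ℤ × ℤ)) (x : L) : Prop :=
  Ph φ x ∧ ∀ e : ℤ × ℤ, x.coeff e ≠ 0 ↔ ∃ z ∈ S, e = (2 * z.1 + γ.1, 2 * z.2 + γ.2)

/-- the exact version of `qq` -/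
abbrev qz : ℤ × ℤ := (-1, -1)

/-- the exact version of `zph` -/
def zz (e : Bool) : ℤ × ℤ := if e then (1, 0) else (0, 1)

/-- the first bit of a mark at a crossing with the sign `pos` -/
def ubp (pos : Bool) : Mk → Bool
  | .T => true
  | .B => false
  | .L => !pos
  | .R => pos

/-- the second bit of a mark at a crossing with the sign `pos` -/
def vbp (pos : Bool) : Mk → Bool
  | .T => false
  | .B => true
  | .L => !pos
  | .R => pos

/-- the contribution of a crossing to the exponent -/
def cv (pos : Bool) (m₁ m₂ : Mk) : ℤ × ℤ :=
  (if ubp pos m₁ = true ∧ vbp pos m₂ = false then (if pos then 1 else -1) else 0,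
   if ubp pos m₁ = false ∧ vbp pos m₂ = true then (if pos then 1 else -1) else 0)

/-- one layer of a crossing: `p`, `x`, `y` are the holes on the left, below and on the right of it,
`p'`, `x'`, `y'` on the left, above and on the right -/
def loc1 (m : Mk) (p x y p' x' y' : Bool) : Prop :=
  match m with
  | .T => x = false ∧ p' = p ∧ x' = x ∧ y' = y
  | .B => x = true ∧ p' = p ∧ x' = x ∧ y' = y
  | .L => p = true ∧ x = false ∧ p' = false ∧ x' = true ∧ y' = y
  | .R => y = true ∧ x = false ∧ y' = false ∧ x' = true ∧ p' = p

instance (m : Mk) (p x y p' x' y' : Bool) : Decidable (loc1 m p x y p' x' y') := by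
  unfold loc1; cases m <;> infer_instance

/-- the exact local gauge -/
def locZ (p x y : St) : ℤ × ℤ :=
  x.1.toNat • (-(1, 0)) + x.2.toNat • (p.1.toNat • qz + (1, 0)) + y.1.toNat • (-(2, 0)) +
    y.2.toNat • ((p.1.toNat + x.1.toNat) • qz + (2, 0))

/-- the exponents after a crossing -/
def XTS (pos : Bool) (p x y : St) (S : St → St → St → Set (ℤ × ℤ)) : Set (ℤ × ℤ) :=
  {z | ∃ m₁ m₂ p' x' y', loc1 m₁ p.1 x.1 y.1 p'.1 x'.1 y'.1 ∧ loc1 m₂ p.2 x.2 y.2 p'.2 x'.2 y'.2 ∧
    ∃ z' ∈ S p' x' y', z = cv pos m₁ m₂ + z'}

/-- the terms of a crossing: negative sign, exponent, states -/
def XTl : Bool → St → St → St → List (Bool × (ℤ × ℤ) × (St × St × St))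
  | true, (false, false), (false, false), (false, false) => [
      (false, (2, 0), ((false, false), (false, false), (false, false)))]
  | true, (false, false), (false, false), (true, false) => [
      (false, (2, 0), ((false, false), (false, false), (true, false))),
      (false, (1, 0), ((false, false), (true, false), (false, false)))]
  | true, (false, false), (false, false), (false, true) => [
      (false, (2, 0), ((false, false), (false, false), (false, true))),
      (false, (1, 0), ((false, false), (false, true), (false, false)))]
  | true, (false, false), (false, false), (true, true) => [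
      (false, (2, 0), ((false, false), (false, false), (true, true))),
      (false, (1, 0), ((false, false), (false, true), (true, false))),
      (true, (2, 1), ((false, false), (true, false), (false, true))),
      (false, (0, 0), ((false, false), (true, true), (false, false)))]
  | true, (false, false), (true, false), (false, false) => [
      (true, (0, 0), ((false, false), (true, false), (false, false)))]
  | true, (false, false), (true, false), (true, false) => [
      (true, (0, 0), ((false, false), (true, false), (true, false)))]
  | true, (false, false), (true, false), (false, true) => [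
      (true, (0, 0), ((false, false), (true, false), (false, true))),
      (false, (0, 1), ((false, false), (true, true), (false, false)))]
  | true, (false, false), (true, false), (true, true) => [
      (true, (0, 0), ((false, false), (true, false), (true, true))),
      (false, (0, 1), ((false, false), (true, true), (true, false)))]
  | true, (false, false), (false, true), (false, false) => [
      (true, (0, 0), ((false, false), (false, true), (false, false)))]
  | true, (false, false), (false, true), (true, false) => [
      (true, (0, 0), ((false, false), (false, true), (true, false))),
      (true, (-1, 0), ((false, false), (true, true), (false, false)))]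
  | true, (false, false), (false, true), (false, true) => [
      (true, (0, 0), ((false, false), (false, true), (false, true)))]
  | true, (false, false), (false, true), (true, true) => [
      (true, (0, 0), ((false, false), (false, true), (true, true))),
      (false, (0, 1), ((false, false), (true, true), (false, true)))]
  | true, (false, false), (true, true), (false, false) => [
      (false, (0, 2), ((false, false), (true, true), (false, false)))]
  | true, (false, false), (true, true), (true, false) => [
      (false, (0, 2), ((false, false), (true, true), (true, false)))]
  | true, (false, false), (true, true), (false, true) => [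
      (false, (0, 2), ((false, false), (true, true), (false, true)))]
  | true, (false, false), (true, true), (true, true) => [
      (false, (0, 2), ((false, false), (true, true), (true, true)))]
  | true, (true, false), (false, false), (false, false) => [
      (false, (2, 0), ((true, false), (false, false), (false, false))),
      (false, (1, 0), ((false, false), (true, false), (false, false)))]
  | true, (true, false), (false, false), (true, false) => [
      (false, (2, 0), ((true, false), (false, false), (true, false))),
      (false, (1, 0), ((false, false), (true, false), (true, false))),
      (false, (1, 0), ((true, false), (true, false), (false, false)))]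
  | true, (true, false), (false, false), (false, true) => [
      (false, (2, 0), ((true, false), (false, false), (false, true))),
      (false, (1, 0), ((true, false), (false, true), (false, false))),
      (false, (1, 0), ((false, false), (true, false), (false, true))),
      (true, (1, 1), ((false, false), (true, true), (false, false)))]
  | true, (true, false), (false, false), (true, true) => [
      (false, (2, 0), ((true, false), (false, false), (true, true))),
      (false, (1, 0), ((true, false), (false, true), (true, false))),
      (false, (1, 0), ((false, false), (true, false), (true, true))),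
      (true, (1, 1), ((false, false), (true, true), (true, false))),
      (true, (2, 1), ((true, false), (true, false), (false, true))),
      (false, (0, 0), ((true, false), (true, true), (false, false)))]
  | true, (true, false), (true, false), (false, false) => [
      (true, (0, 0), ((true, false), (true, false), (false, false)))]
  | true, (true, false), (true, false), (true, false) => [
      (true, (0, 0), ((true, false), (true, false), (true, false)))]
  | true, (true, false), (true, false), (false, true) => [
      (true, (0, 0), ((true, false), (true, false), (false, true))),
      (false, (0, 1), ((true, false), (true, true), (false, false)))]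
  | true, (true, false), (true, false), (true, true) => [
      (true, (0, 0), ((true, false), (true, false), (true, true))),
      (false, (0, 1), ((true, false), (true, true), (true, false)))]
  | true, (true, false), (false, true), (false, false) => [
      (true, (0, 0), ((true, false), (false, true), (false, false))),
      (false, (0, 1), ((false, false), (true, true), (false, false)))]
  | true, (true, false), (false, true), (true, false) => [
      (true, (0, 0), ((true, false), (false, true), (true, false))),
      (false, (0, 1), ((false, false), (true, true), (true, false))),
      (true, (-1, 0), ((true, false), (true, true), (false, false)))]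
  | true, (true, false), (false, true), (false, true) => [
      (true, (0, 0), ((true, false), (false, true), (false, true))),
      (false, (0, 1), ((false, false), (true, true), (false, true)))]
  | true, (true, false), (false, true), (true, true) => [
      (true, (0, 0), ((true, false), (false, true), (true, true))),
      (false, (0, 1), ((false, false), (true, true), (true, true))),
      (false, (0, 1), ((true, false), (true, true), (false, true)))]
  | true, (true, false), (true, true), (false, false) => [
      (false, (0, 2), ((true, false), (true, true), (false, false)))]
  | true, (true, false), (true, true), (true, false) => [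
      (false, (0, 2), ((true, false), (true, true), (true, false)))]
  | true, (true, false), (true, true), (false, true) => [
      (false, (0, 2), ((true, false), (true, true), (false, true)))]
  | true, (true, false), (true, true), (true, true) => [
      (false, (0, 2), ((true, false), (true, true), (true, true)))]
  | true, (false, true), (false, false), (false, false) => [
      (false, (2, 0), ((false, true), (false, false), (false, false))),
      (false, (1, 0), ((false, false), (false, true), (false, false)))]
  | true, (false, true), (false, false), (true, false) => [
      (false, (2, 0), ((false, true), (false, false), (true, false))),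
      (false, (1, 0), ((false, false), (false, true), (true, false))),
      (false, (1, 0), ((false, true), (true, false), (false, false))),
      (false, (0, 0), ((false, false), (true, true), (false, false)))]
  | true, (false, true), (false, false), (false, true) => [
      (false, (2, 0), ((false, true), (false, false), (false, true))),
      (false, (1, 0), ((false, false), (false, true), (false, true))),
      (false, (1, 0), ((false, true), (false, true), (false, false)))]
  | true, (false, true), (false, false), (true, true) => [
      (false, (2, 0), ((false, true), (false, false), (true, true))),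
      (false, (1, 0), ((false, false), (false, true), (true, true))),
      (false, (1, 0), ((false, true), (false, true), (true, false))),
      (true, (2, 1), ((false, true), (true, false), (false, true))),
      (true, (1, 1), ((false, false), (true, true), (false, true))),
      (false, (0, 0), ((false, true), (true, true), (false, false)))]
  | true, (false, true), (true, false), (false, false) => [
      (true, (0, 0), ((false, true), (true, false), (false, false))),
      (true, (-1, 0), ((false, false), (true, true), (false, false)))]
  | true, (false, true), (true, false), (true, false) => [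
      (true, (0, 0), ((false, true), (true, false), (true, false))),
      (true, (-1, 0), ((false, false), (true, true), (true, false)))]
  | true, (false, true), (true, false), (false, true) => [
      (true, (0, 0), ((false, true), (true, false), (false, true))),
      (true, (-1, 0), ((false, false), (true, true), (false, true))),
      (false, (0, 1), ((false, true), (true, true), (false, false)))]
  | true, (false, true), (true, false), (true, true) => [
      (true, (0, 0), ((false, true), (true, false), (true, true))),
      (true, (-1, 0), ((false, false), (true, true), (true, true))),
      (false, (0, 1), ((false, true), (true, true), (true, false)))]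
  | true, (false, true), (false, true), (false, false) => [
      (true, (0, 0), ((false, true), (false, true), (false, false)))]
  | true, (false, true), (false, true), (true, false) => [
      (true, (0, 0), ((false, true), (false, true), (true, false))),
      (true, (-1, 0), ((false, true), (true, true), (false, false)))]
  | true, (false, true), (false, true), (false, true) => [
      (true, (0, 0), ((false, true), (false, true), (false, true)))]
  | true, (false, true), (false, true), (true, true) => [
      (true, (0, 0), ((false, true), (false, true), (true, true))),
      (false, (0, 1), ((false, true), (true, true), (false, true)))]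
  | true, (false, true), (true, true), (false, false) => [
      (false, (0, 2), ((false, true), (true, true), (false, false)))]
  | true, (false, true), (true, true), (true, false) => [
      (false, (0, 2), ((false, true), (true, true), (true, false)))]
  | true, (false, true), (true, true), (false, true) => [
      (false, (0, 2), ((false, true), (true, true), (false, true)))]
  | true, (false, true), (true, true), (true, true) => [
      (false, (0, 2), ((false, true), (true, true), (true, true)))]
  | true, (true, true), (false, false), (false, false) => [
      (false, (2, 0), ((true, true), (false, false), (false, false))),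
      (true, (2, 1), ((true, false), (false, true), (false, false))),
      (false, (1, 0), ((false, true), (true, false), (false, false))),
      (false, (0, 0), ((false, false), (true, true), (false, false)))]
  | true, (true, true), (false, false), (true, false) => [
      (false, (2, 0), ((true, true), (false, false), (true, false))),
      (true, (2, 1), ((true, false), (false, true), (true, false))),
      (false, (1, 0), ((false, true), (true, false), (true, false))),
      (false, (0, 0), ((false, false), (true, true), (true, false))),
      (false, (1, 0), ((true, true), (true, false), (false, false))),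
      (true, (1, 1), ((true, false), (true, true), (false, false)))]
  | true, (true, true), (false, false), (false, true) => [
      (false, (2, 0), ((true, true), (false, false), (false, true))),
      (true, (2, 1), ((true, false), (false, true), (false, true))),
      (false, (1, 0), ((true, true), (false, true), (false, false))),
      (false, (1, 0), ((false, true), (true, false), (false, true))),
      (false, (0, 0), ((false, false), (true, true), (false, true))),
      (true, (1, 1), ((false, true), (true, true), (false, false)))]
  | true, (true, true), (false, false), (true, true) => [
      (false, (2, 0), ((true, true), (false, false), (true, true))),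
      (true, (2, 1), ((true, false), (false, true), (true, true))),
      (false, (1, 0), ((true, true), (false, true), (true, false))),
      (false, (1, 0), ((false, true), (true, false), (true, true))),
      (false, (0, 0), ((false, false), (true, true), (true, true))),
      (true, (1, 1), ((false, true), (true, true), (true, false))),
      (true, (2, 1), ((true, true), (true, false), (false, true))),
      (false, (2, 2), ((true, false), (true, true), (false, true))),
      (false, (0, 0), ((true, true), (true, true), (false, false)))]
  | true, (true, true), (true, false), (false, false) => [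
      (true, (0, 0), ((true, true), (true, false), (false, false))),
      (false, (0, 1), ((true, false), (true, true), (false, false)))]
  | true, (true, true), (true, false), (true, false) => [
      (true, (0, 0), ((true, true), (true, false), (true, false))),
      (false, (0, 1), ((true, false), (true, true), (true, false)))]
  | true, (true, true), (true, false), (false, true) => [
      (true, (0, 0), ((true, true), (true, false), (false, true))),
      (false, (0, 1), ((true, false), (true, true), (false, true))),
      (false, (0, 1), ((true, true), (true, true), (false, false)))]
  | true, (true, true), (true, false), (true, true) => [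
      (true, (0, 0), ((true, true), (true, false), (true, true))),
      (false, (0, 1), ((true, false), (true, true), (true, true))),
      (false, (0, 1), ((true, true), (true, true), (true, false)))]
  | true, (true, true), (false, true), (false, false) => [
      (true, (0, 0), ((true, true), (false, true), (false, false))),
      (false, (0, 1), ((false, true), (true, true), (false, false)))]
  | true, (true, true), (false, true), (true, false) => [
      (true, (0, 0), ((true, true), (false, true), (true, false))),
      (false, (0, 1), ((false, true), (true, true), (true, false))),
      (true, (-1, 0), ((true, true), (true, true), (false, false)))]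
  | true, (true, true), (false, true), (false, true) => [
      (true, (0, 0), ((true, true), (false, true), (false, true))),
      (false, (0, 1), ((false, true), (true, true), (false, true)))]
  | true, (true, true), (false, true), (true, true) => [
      (true, (0, 0), ((true, true), (false, true), (true, true))),
      (false, (0, 1), ((false, true), (true, true), (true, true))),
      (false, (0, 1), ((true, true), (true, true), (false, true)))]
  | true, (true, true), (true, true), (false, false) => [
      (false, (0, 2), ((true, true), (true, true), (false, false)))]
  | true, (true, true), (true, true), (true, false) => [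
      (false, (0, 2), ((true, true), (true, true), (true, false)))]
  | true, (true, true), (true, true), (false, true) => [
      (false, (0, 2), ((true, true), (true, true), (false, true)))]
  | true, (true, true), (true, true), (true, true) => [
      (false, (0, 2), ((true, true), (true, true), (true, true)))]
  | false, (false, false), (false, false), (false, false) => [
      (false, (-2, 0), ((false, false), (false, false), (false, false)))]
  | false, (false, false), (false, false), (true, false) => [
      (false, (-2, 0), ((false, false), (false, false), (true, false))),
      (false, (-1, 0), ((false, false), (true, false), (false, false)))]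
  | false, (false, false), (false, false), (false, true) => [
      (false, (-2, 0), ((false, false), (false, false), (false, true))),
      (false, (-1, 0), ((false, false), (false, true), (false, false)))]
  | false, (false, false), (false, false), (true, true) => [
      (false, (-2, 0), ((false, false), (false, false), (true, true))),
      (false, (-1, 0), ((false, false), (false, true), (true, false))),
      (true, (0, 1), ((false, false), (true, false), (false, true))),
      (false, (0, 0), ((false, false), (true, true), (false, false)))]
  | false, (false, false), (true, false), (false, false) => [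
      (true, (0, 0), ((false, false), (true, false), (false, false)))]
  | false, (false, false), (true, false), (true, false) => [
      (true, (0, 0), ((false, false), (true, false), (true, false)))]
  | false, (false, false), (true, false), (false, true) => [
      (true, (0, 0), ((false, false), (true, false), (false, true))),
      (false, (0, -1), ((false, false), (true, true), (false, false)))]
  | false, (false, false), (true, false), (true, true) => [
      (true, (0, 0), ((false, false), (true, false), (true, true))),
      (false, (0, -1), ((false, false), (true, true), (true, false)))]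
  | false, (false, false), (false, true), (false, false) => [
      (true, (0, 0), ((false, false), (false, true), (false, false)))]
  | false, (false, false), (false, true), (true, false) => [
      (true, (0, 0), ((false, false), (false, true), (true, false))),
      (true, (-1, -2), ((false, false), (true, true), (false, false)))]
  | false, (false, false), (false, true), (false, true) => [
      (true, (0, 0), ((false, false), (false, true), (false, true)))]
  | false, (false, false), (false, true), (true, true) => [
      (true, (0, 0), ((false, false), (false, true), (true, true))),
      (false, (0, -1), ((false, false), (true, true), (false, true)))]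
  | false, (false, false), (true, true), (false, false) => [
      (false, (0, -2), ((false, false), (true, true), (false, false)))]
  | false, (false, false), (true, true), (true, false) => [
      (false, (0, -2), ((false, false), (true, true), (true, false)))]
  | false, (false, false), (true, true), (false, true) => [
      (false, (0, -2), ((false, false), (true, true), (false, true)))]
  | false, (false, false), (true, true), (true, true) => [
      (false, (0, -2), ((false, false), (true, true), (true, true)))]
  | false, (true, false), (false, false), (false, false) => [
      (false, (-2, 0), ((true, false), (false, false), (false, false))),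
      (false, (-1, 0), ((false, false), (true, false), (false, false)))]
  | false, (true, false), (false, false), (true, false) => [
      (false, (-2, 0), ((true, false), (false, false), (true, false))),
      (false, (-1, 0), ((false, false), (true, false), (true, false))),
      (false, (-1, 0), ((true, false), (true, false), (false, false)))]
  | false, (true, false), (false, false), (false, true) => [
      (false, (-2, 0), ((true, false), (false, false), (false, true))),
      (false, (-1, 0), ((true, false), (false, true), (false, false))),
      (false, (-1, 0), ((false, false), (true, false), (false, true))),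
      (true, (-1, -1), ((false, false), (true, true), (false, false)))]
  | false, (true, false), (false, false), (true, true) => [
      (false, (-2, 0), ((true, false), (false, false), (true, true))),
      (false, (-1, 0), ((true, false), (false, true), (true, false))),
      (false, (-1, 0), ((false, false), (true, false), (true, true))),
      (true, (-1, -1), ((false, false), (true, true), (true, false))),
      (true, (0, 1), ((true, false), (true, false), (false, true))),
      (false, (0, 0), ((true, false), (true, true), (false, false)))]
  | false, (true, false), (true, false), (false, false) => [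
      (true, (0, 0), ((true, false), (true, false), (false, false)))]
  | false, (true, false), (true, false), (true, false) => [
      (true, (0, 0), ((true, false), (true, false), (true, false)))]
  | false, (true, false), (true, false), (false, true) => [
      (true, (0, 0), ((true, false), (true, false), (false, true))),
      (false, (0, -1), ((true, false), (true, true), (false, false)))]
  | false, (true, false), (true, false), (true, true) => [
      (true, (0, 0), ((true, false), (true, false), (true, true))),
      (false, (0, -1), ((true, false), (true, true), (true, false)))]
  | false, (true, false), (false, true), (false, false) => [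
      (true, (0, 0), ((true, false), (false, true), (false, false))),
      (false, (0, -1), ((false, false), (true, true), (false, false)))]
  | false, (true, false), (false, true), (true, false) => [
      (true, (0, 0), ((true, false), (false, true), (true, false))),
      (false, (0, -1), ((false, false), (true, true), (true, false))),
      (true, (-1, -2), ((true, false), (true, true), (false, false)))]
  | false, (true, false), (false, true), (false, true) => [
      (true, (0, 0), ((true, false), (false, true), (false, true))),
      (false, (0, -1), ((false, false), (true, true), (false, true)))]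
  | false, (true, false), (false, true), (true, true) => [
      (true, (0, 0), ((true, false), (false, true), (true, true))),
      (false, (0, -1), ((false, false), (true, true), (true, true))),
      (false, (0, -1), ((true, false), (true, true), (false, true)))]
  | false, (true, false), (true, true), (false, false) => [
      (false, (0, -2), ((true, false), (true, true), (false, false)))]
  | false, (true, false), (true, true), (true, false) => [
      (false, (0, -2), ((true, false), (true, true), (true, false)))]
  | false, (true, false), (true, true), (false, true) => [
      (false, (0, -2), ((true, false), (true, true), (false, true)))]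
  | false, (true, false), (true, true), (true, true) => [
      (false, (0, -2), ((true, false), (true, true), (true, true)))]
  | false, (false, true), (false, false), (false, false) => [
      (false, (-2, 0), ((false, true), (false, false), (false, false))),
      (false, (-1, 0), ((false, false), (false, true), (false, false)))]
  | false, (false, true), (false, false), (true, false) => [
      (false, (-2, 0), ((false, true), (false, false), (true, false))),
      (false, (-1, 0), ((false, false), (false, true), (true, false))),
      (false, (-1, 0), ((false, true), (true, false), (false, false))),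
      (false, (-2, -2), ((false, false), (true, true), (false, false)))]
  | false, (false, true), (false, false), (false, true) => [
      (false, (-2, 0), ((false, true), (false, false), (false, true))),
      (false, (-1, 0), ((false, false), (false, true), (false, true))),
      (false, (-1, 0), ((false, true), (false, true), (false, false)))]
  | false, (false, true), (false, false), (true, true) => [
      (false, (-2, 0), ((false, true), (false, false), (true, true))),
      (false, (-1, 0), ((false, false), (false, true), (true, true))),
      (false, (-1, 0), ((false, true), (false, true), (true, false))),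
      (true, (0, 1), ((false, true), (true, false), (false, true))),
      (true, (-1, -1), ((false, false), (true, true), (false, true))),
      (false, (0, 0), ((false, true), (true, true), (false, false)))]
  | false, (false, true), (true, false), (false, false) => [
      (true, (0, 0), ((false, true), (true, false), (false, false))),
      (true, (-1, -2), ((false, false), (true, true), (false, false)))]
  | false, (false, true), (true, false), (true, false) => [
      (true, (0, 0), ((false, true), (true, false), (true, false))),
      (true, (-1, -2), ((false, false), (true, true), (true, false)))]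
  | false, (false, true), (true, false), (false, true) => [
      (true, (0, 0), ((false, true), (true, false), (false, true))),
      (true, (-1, -2), ((false, false), (true, true), (false, true))),
      (false, (0, -1), ((false, true), (true, true), (false, false)))]
  | false, (false, true), (true, false), (true, true) => [
      (true, (0, 0), ((false, true), (true, false), (true, true))),
      (true, (-1, -2), ((false, false), (true, true), (true, true))),
      (false, (0, -1), ((false, true), (true, true), (true, false)))]
  | false, (false, true), (false, true), (false, false) => [
      (true, (0, 0), ((false, true), (false, true), (false, false)))]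
  | false, (false, true), (false, true), (true, false) => [
      (true, (0, 0), ((false, true), (false, true), (true, false))),
      (true, (-1, -2), ((false, true), (true, true), (false, false)))]
  | false, (false, true), (false, true), (false, true) => [
      (true, (0, 0), ((false, true), (false, true), (false, true)))]
  | false, (false, true), (false, true), (true, true) => [
      (true, (0, 0), ((false, true), (false, true), (true, true))),
      (false, (0, -1), ((false, true), (true, true), (false, true)))]
  | false, (false, true), (true, true), (false, false) => [
      (false, (0, -2), ((false, true), (true, true), (false, false)))]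
  | false, (false, true), (true, true), (true, false) => [
      (false, (0, -2), ((false, true), (true, true), (true, false)))]
  | false, (false, true), (true, true), (false, true) => [
      (false, (0, -2), ((false, true), (true, true), (false, true)))]
  | false, (false, true), (true, true), (true, true) => [
      (false, (0, -2), ((false, true), (true, true), (true, true)))]
  | false, (true, true), (false, false), (false, false) => [
      (false, (-2, 0), ((true, true), (false, false), (false, false))),
      (true, (0, 1), ((true, false), (false, true), (false, false))),
      (false, (-1, 0), ((false, true), (true, false), (false, false))),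
      (false, (0, 0), ((false, false), (true, true), (false, false)))]
  | false, (true, true), (false, false), (true, false) => [
      (false, (-2, 0), ((true, true), (false, false), (true, false))),
      (true, (0, 1), ((true, false), (false, true), (true, false))),
      (false, (-1, 0), ((false, true), (true, false), (true, false))),
      (false, (0, 0), ((false, false), (true, true), (true, false))),
      (false, (-1, 0), ((true, true), (true, false), (false, false))),
      (true, (-1, -1), ((true, false), (true, true), (false, false)))]
  | false, (true, true), (false, false), (false, true) => [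
      (false, (-2, 0), ((true, true), (false, false), (false, true))),
      (true, (0, 1), ((true, false), (false, true), (false, true))),
      (false, (-1, 0), ((true, true), (false, true), (false, false))),
      (false, (-1, 0), ((false, true), (true, false), (false, true))),
      (false, (0, 0), ((false, false), (true, true), (false, true))),
      (true, (-1, -1), ((false, true), (true, true), (false, false)))]
  | false, (true, true), (false, false), (true, true) => [
      (false, (-2, 0), ((true, true), (false, false), (true, true))),
      (true, (0, 1), ((true, false), (false, true), (true, true))),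
      (false, (-1, 0), ((true, true), (false, true), (true, false))),
      (false, (-1, 0), ((false, true), (true, false), (true, true))),
      (false, (0, 0), ((false, false), (true, true), (true, true))),
      (true, (-1, -1), ((false, true), (true, true), (true, false))),
      (true, (0, 1), ((true, true), (true, false), (false, true))),
      (false, (0, 0), ((true, false), (true, true), (false, true))),
      (false, (0, 0), ((true, true), (true, true), (false, false)))]
  | false, (true, true), (true, false), (false, false) => [
      (true, (0, 0), ((true, true), (true, false), (false, false))),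
      (false, (0, -1), ((true, false), (true, true), (false, false)))]
  | false, (true, true), (true, false), (true, false) => [
      (true, (0, 0), ((true, true), (true, false), (true, false))),
      (false, (0, -1), ((true, false), (true, true), (true, false)))]
  | false, (true, true), (true, false), (false, true) => [
      (true, (0, 0), ((true, true), (true, false), (false, true))),
      (false, (0, -1), ((true, false), (true, true), (false, true))),
      (false, (0, -1), ((true, true), (true, true), (false, false)))]
  | false, (true, true), (true, false), (true, true) => [
      (true, (0, 0), ((true, true), (true, false), (true, true))),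
      (false, (0, -1), ((true, false), (true, true), (true, true))),
      (false, (0, -1), ((true, true), (true, true), (true, false)))]
  | false, (true, true), (false, true), (false, false) => [
      (true, (0, 0), ((true, true), (false, true), (false, false))),
      (false, (0, -1), ((false, true), (true, true), (false, false)))]
  | false, (true, true), (false, true), (true, false) => [
      (true, (0, 0), ((true, true), (false, true), (true, false))),
      (false, (0, -1), ((false, true), (true, true), (true, false))),
      (true, (-1, -2), ((true, true), (true, true), (false, false)))]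
  | false, (true, true), (false, true), (false, true) => [
      (true, (0, 0), ((true, true), (false, true), (false, true))),
      (false, (0, -1), ((false, true), (true, true), (false, true)))]
  | false, (true, true), (false, true), (true, true) => [
      (true, (0, 0), ((true, true), (false, true), (true, true))),
      (false, (0, -1), ((false, true), (true, true), (true, true))),
      (false, (0, -1), ((true, true), (true, true), (false, true)))]
  | false, (true, true), (true, true), (false, false) => [
      (false, (0, -2), ((true, true), (true, true), (false, false)))]
  | false, (true, true), (true, true), (true, false) => [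
      (false, (0, -2), ((true, true), (true, true), (true, false)))]
  | false, (true, true), (true, true), (false, true) => [
      (false, (0, -2), ((true, true), (true, true), (false, true)))]
  | false, (true, true), (true, true), (true, true) => [
      (false, (0, -2), ((true, true), (true, true), (true, true)))]

lemma mon_pow (p q : ℤ) (n : ℕ) : mon p q ^ n = mon (n * p) (n * q) := by
  induction n with
  | zero => simp [mon_zero]
  | succ n ih =>
    rw [pow_succ, ih, mon_mul]
    congr 1 <;> push_cast <;> ring

/-- a term -/
noncomputable def tmv (G : St → St → St → L) (t : Bool × (ℤ × ℤ) × (St × St × St)) : L :=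
  if t.1 then -(mon t.2.1.1 t.2.1.2 * G t.2.2.1 t.2.2.2.1 t.2.2.2.2)
  else mon t.2.1.1 t.2.1.2 * G t.2.2.1 t.2.2.2.1 t.2.2.2.2

lemma XT_eq_list (pos : Bool) (p x y : St) (G : St → St → St → L) :
    XT (mon 1 0) (mon (-1) 0) (mon 0 1) (mon 0 (-1)) pos p x y G
      = ((XTl pos p x y).map (tmv G)).sum := by
  rcases p with ⟨_ | _, _ | _⟩ <;> rcases x with ⟨_ | _, _ | _⟩ <;> rcases y with ⟨_ | _, _ | _⟩ <;>
    cases pos <;> simp only [XT, XTl, tmv, List.map_cons, List.map_nil, List.sum_cons, List.sum_nil, mon_pow, mon_mul, mon_zero, if_true, Bool.false_eq_true, if_false] <;> norm_num [mon_zero] <;> ring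
/-- the mark of one layer -/
def mkOf (p x p' x' : Bool) : Mk :=
  if x then .B else if x' = false then .T else if p = true ∧ p' = false then .L else .R

/-- the phase of a signed monomial -/
def phm (neg : Bool) (e : ℤ × ℤ) : Q :=
  (((e.1 + e.2 : ℤ) : ZMod 4) + (if neg then 2 else 0), ((e.2 : ℤ) : ZMod 2))

/-- the conditions for a term -/
def tOK (pos : Bool) (p x y : St) (t : Bool × (ℤ × ℤ) × (St × St × St)) : Prop :=
  cnt1 t.2.2.1 t.2.2.2.1 t.2.2.2.2 = cnt1 p x y ∧ cnt2 t.2.2.1 t.2.2.2.1 t.2.2.2.2 = cnt2 p x y ∧
  sg + loc3 pos p x y = phm t.1 t.2.1 + loc3 pos t.2.2.1 t.2.2.2.1 t.2.2.2.2 ∧
  t.2.1 + locZ t.2.2.1 t.2.2.2.1 t.2.2.2.2 = locZ p x y +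
    (2 : ℤ) • cv pos (mkOf p.1 x.1 t.2.2.1.1 t.2.2.2.1.1) (mkOf p.2 x.2 t.2.2.1.2 t.2.2.2.1.2) ∧
  loc1 (mkOf p.1 x.1 t.2.2.1.1 t.2.2.2.1.1) p.1 x.1 y.1 t.2.2.1.1 t.2.2.2.1.1 t.2.2.2.2.1 ∧
  loc1 (mkOf p.2 x.2 t.2.2.1.2 t.2.2.2.1.2) p.2 x.2 y.2 t.2.2.1.2 t.2.2.2.1.2 t.2.2.2.2.2

instance (pos : Bool) (p x y : St) (t : Bool × (ℤ × ℤ) × (St × St × St)) :
    Decidable (tOK pos p x y t) := by unfold tOK; infer_instance

lemma XTl_ok : ∀ pos p x y, ∀ t ∈ XTl pos p x y, tOK pos p x y t := by
  intro pos p x y
  rcases p with ⟨_ | _, _ | _⟩ <;> rcases x with ⟨_ | _, _ | _⟩ <;> rcases y with ⟨_ | _, _ | _⟩ <;>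
    cases pos <;> decide

/-- the result of one layer -/
def res1 (m : Mk) (p x y : Bool) : Option (Bool × Bool × Bool) :=
  match m, p, x, y with
  | .T, p, false, y => some (p, false, y)
  | .B, p, true, y => some (p, true, y)
  | .L, true, false, y => some (false, true, y)
  | .R, p, false, true => some (p, true, false)
  | _, _, _, _ => none

lemma loc1_res1 : ∀ (m : Mk) (p x y p' x' y' : Bool), loc1 m p x y p' x' y' →
    res1 m p x y = some (p', x', y') := by
  intro m p x y p' x' y' h
  cases m <;> simp only [loc1] at h
  · obtain ⟨rfl, rfl, rfl, rfl⟩ := h; rfl
  · obtain ⟨rfl, rfl, rfl, rfl⟩ := h; rfl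
  · obtain ⟨rfl, rfl, rfl, rfl, rfl⟩ := h; rfl
  · obtain ⟨rfl, rfl, rfl, rfl, rfl⟩ := h; cases p' <;> rfl

/-- completeness of the list of terms -/
def cOK (pos : Bool) (p x y : St) (m₁ m₂ : Mk) : Prop :=
  match res1 m₁ p.1 x.1 y.1, res1 m₂ p.2 x.2 y.2 with
  | some a, some b => ((a.1, b.1), (a.2.1, b.2.1), (a.2.2, b.2.2)) ∈
      (XTl pos p x y).map (fun t => t.2.2) ∧ m₁ = mkOf p.1 x.1 a.1 a.2.1 ∧
      m₂ = mkOf p.2 x.2 b.1 b.2.1
  | _, _ => True

instance (pos : Bool) (p x y : St) (m₁ m₂ : Mk) : Decidable (cOK pos p x y m₁ m₂) := by
  unfold cOK; split <;> infer_instance

lemma cOK_all : ∀ pos p x y m₁ m₂, cOK pos p x y m₁ m₂ := by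
  intro pos p x y m₁ m₂
  rcases p with ⟨_ | _, _ | _⟩ <;> rcases x with ⟨_ | _, _ | _⟩ <;> rcases y with ⟨_ | _, _ | _⟩ <;>
    cases pos <;> revert m₁ m₂ <;> decide

lemma XTl_complete (pos : Bool) (p x y : St) (m₁ m₂ : Mk) (p' x' y' : St)
    (h₁ : loc1 m₁ p.1 x.1 y.1 p'.1 x'.1 y'.1) (h₂ : loc1 m₂ p.2 x.2 y.2 p'.2 x'.2 y'.2) :
    (p', x', y') ∈ (XTl pos p x y).map (fun t => t.2.2) ∧ m₁ = mkOf p.1 x.1 p'.1 x'.1 ∧
      m₂ = mkOf p.2 x.2 p'.2 x'.2 := by
  have h := cOK_all pos p x y m₁ m₂
  rw [cOK, loc1_res1 _ _ _ _ _ _ _ h₁, loc1_res1 _ _ _ _ _ _ _ h₂] at h
  exact h


lemma PS.zero (φ : Q) (γ : ℤ × ℤ) : PS φ γ ∅ 0 := by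
  refine ⟨Ph.zero φ, fun e => ?_⟩
  simp

lemma PS.congr {φ : Q} {γ : ℤ × ℤ} {S S' : Set (ℤ × ℤ)} {x : L} (hx : PS φ γ S x)
    (h : ∀ z, z ∈ S ↔ z ∈ S') : PS φ γ S' x := by
  have : S = S' := Set.ext h
  rwa [← this]

lemma PS.add {φ : Q} {γ : ℤ × ℤ} {S S' : Set (ℤ × ℤ)} {x y : L} (hx : PS φ γ S x)
    (hy : PS φ γ S' y) : PS φ γ (S ∪ S') (x + y) := by
  refine ⟨hx.1.add hy.1, fun e => ?_⟩
  have h3 : (x + y).coeff e = x.coeff e + y.coeff e := Finsupp.add_apply _ _ _
  have key : (x + y).coeff e ≠ 0 ↔ x.coeff e ≠ 0 ∨ y.coeff e ≠ 0 := by
    rw [h3]
    obtain ⟨p, q⟩ := e
    have h1 := hx.1 p q
    have h2 := hy.1 p q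
    have h4 : ∀ u : ZMod 4, u ≠ u + 2 := by decide
    have c1 : ¬ (0 < x.coeff (p, q) ∧ y.coeff (p, q) < 0) := by
      rintro ⟨ha, hb⟩
      have := (h1.1 ha).symm.trans (h2.2 hb)
      exact h4 _ (congrArg Prod.fst this)
    have c2 : ¬ (x.coeff (p, q) < 0 ∧ 0 < y.coeff (p, q)) := by
      rintro ⟨ha, hb⟩
      have := (h2.1 hb).symm.trans (h1.2 ha)
      exact h4 _ (congrArg Prod.fst this)
    omega
  rw [key, hx.2 e, hy.2 e]
  constructor
  · rintro (⟨z, hz, he⟩ | ⟨z, hz, he⟩)
    · exact ⟨z, Or.inl hz, he⟩
    · exact ⟨z, Or.inr hz, he⟩
  · rintro ⟨z, hz | hz, he⟩
    · exact Or.inl ⟨z, hz, he⟩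
    · exact Or.inr ⟨z, hz, he⟩

lemma PS.neg {φ : Q} {γ : ℤ × ℤ} {S : Set (ℤ × ℤ)} {x : L} (hx : PS (φ + (2, 0)) γ S x) :
    PS φ γ S (-x) := by
  refine ⟨hx.1.neg, fun e => ?_⟩
  have h3 : (-x).coeff e = -x.coeff e := Finsupp.neg_apply _ _
  rw [h3, neg_ne_zero]
  exact hx.2 e

lemma PS.mono {φ : Q} {γ : ℤ × ℤ} {S : Set (ℤ × ℤ)} {x : L} (p q : ℤ) (hx : PS φ γ S x) :
    PS (phm false (p, q) + φ) ((p, q) + γ) S (mon p q * x) := by
  refine ⟨Ph.mono_mul (κ := phm false (p, q)) ⟨p, q, rfl, by simp [phm]⟩ hx.1 rfl, fun e => ?_⟩
  obtain ⟨r, s⟩ := e
  rw [mon_mul_apply, hx.2]
  constructor
  · rintro ⟨z, hz, he⟩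
    simp only [Prod.mk.injEq] at he
    refine ⟨z, hz, ?_⟩
    simp only [Prod.mk.injEq, Prod.fst_add, Prod.snd_add]
    constructor <;> omega
  · rintro ⟨z, hz, he⟩
    simp only [Prod.mk.injEq, Prod.fst_add, Prod.snd_add] at he
    refine ⟨z, hz, ?_⟩
    simp only [Prod.mk.injEq]
    constructor <;> omega

lemma PS.shift {φ φ' : Q} {γ γ' : ℤ × ℤ} {S : Set (ℤ × ℤ)} {x : L} (v : ℤ × ℤ)
    (hx : PS φ γ S x) (h1 : φ' = φ) (h2 : γ = γ' + (2 : ℤ) • v) :
    PS φ' γ' {z | ∃ z' ∈ S, z = v + z'} x := by
  subst h1
  refine ⟨hx.1, fun e => ?_⟩
  rw [hx.2]
  constructor
  · rintro ⟨z, hz, he⟩
    refine ⟨v + z, ⟨z, hz, rfl⟩, ?_⟩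
    rw [he, h2]
    simp only [Prod.mk.injEq, Prod.fst_add, Prod.snd_add, Prod.smul_fst, Prod.smul_snd, smul_eq_mul]
    constructor <;> ring
  · rintro ⟨z, ⟨z', hz', rfl⟩, he⟩
    refine ⟨z', hz', ?_⟩
    rw [he, h2]
    simp only [Prod.mk.injEq, Prod.fst_add, Prod.snd_add, Prod.smul_fst, Prod.smul_snd, smul_eq_mul]
    constructor <;> ring

lemma PS_tmv {φ : Q} {γ : ℤ × ℤ} {S : Set (ℤ × ℤ)} (G : St → St → St → L)
    (t : Bool × (ℤ × ℤ) × (St × St × St)) (h : PS φ γ S (G t.2.2.1 t.2.2.2.1 t.2.2.2.2)) :
    PS (phm t.1 t.2.1 + φ) (t.2.1 + γ) S (tmv G t) := by
  obtain ⟨neg, ⟨p, q⟩, t⟩ := t
  cases neg with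
  | true =>
    simp only [tmv, if_true]
    refine PS.neg ?_
    have := PS.mono p q h
    have e : phm true (p, q) + φ + (2, 0) = phm false (p, q) + φ := by
      simp only [phm, if_true, Bool.false_eq_true, if_false, add_zero]
      ext
      · simp only [Prod.fst_add]
        have : (2 : ZMod 4) + 2 = 0 := by decide
        linear_combination this
      · simp
    rw [e]
    exact this
  | false =>
    simp only [tmv, Bool.false_eq_true, if_false]
    exact PS.mono p q h

lemma PS_list {φ : Q} {γ : ℤ × ℤ} (l : List (Bool × (ℤ × ℤ) × (St × St × St)))
    (f : Bool × (ℤ × ℤ) × (St × St × St) → L)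
    (S : Bool × (ℤ × ℤ) × (St × St × St) → Set (ℤ × ℤ))
    (h : ∀ t ∈ l, PS φ γ (S t) (f t)) : PS φ γ {z | ∃ t ∈ l, z ∈ S t} ((l.map f).sum) := by
  induction l with
  | nil =>
    simp only [List.map_nil, List.sum_nil]
    refine (PS.zero φ γ).congr (fun z => ?_)
    simp
  | cons t l ih =>
    simp only [List.map_cons, List.sum_cons]
    refine ((h t (by simp)).add (ih (fun t' ht' => h t' (by simp [ht'])))).congr (fun z => ?_)
    simp only [Set.mem_union, Set.mem_ofPred_eq, List.mem_cons]
    constructor
    · rintro (hz | ⟨t', ht', hz⟩)
      · exact ⟨t, Or.inl rfl, hz⟩
      · exact ⟨t', Or.inr ht', hz⟩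
    · rintro ⟨t', rfl | ht', hz⟩
      · exact Or.inl hz
      · exact Or.inr ⟨t', ht', hz⟩

theorem PS_XT (pos : Bool) (p x y : St) (ψ : Q) (χ : ℤ × ℤ) (G : St → St → St → L)
    (S : St → St → St → Set (ℤ × ℤ))
    (hG : ∀ p' x' y', cnt1 p' x' y' = cnt1 p x y → cnt2 p' x' y' = cnt2 p x y →
      PS (ψ + loc3 pos p' x' y') (χ + locZ p' x' y') (S p' x' y') (G p' x' y')) :
    PS (ψ + (sg + loc3 pos p x y)) (χ + locZ p x y) (XTS pos p x y S)
      (XT (mon 1 0) (mon (-1) 0) (mon 0 1) (mon 0 (-1)) pos p x y G) := by
  have hl := XTl_ok pos p x y
  rw [XT_eq_list]
  refine (PS_list (XTl pos p x y) (tmv G) (fun t => {z | ∃ z' ∈ S t.2.2.1 t.2.2.2.1 t.2.2.2.2,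
    z = cv pos (mkOf p.1 x.1 t.2.2.1.1 t.2.2.2.1.1) (mkOf p.2 x.2 t.2.2.1.2 t.2.2.2.1.2) + z'})
    (fun t ht => ?_)).congr (fun z => ?_)
  · obtain ⟨h1, h2, h3, h4, -, -⟩ := hl t ht
    refine PS.shift _ (PS_tmv G t (hG _ _ _ h1 h2)) ?_ ?_
    · rw [h3]; abel
    · rw [add_left_comm, h4]; abel
  · constructor
    · rintro ⟨t, ht, z', hz', rfl⟩
      obtain ⟨-, -, -, -, h5, h6⟩ := hl t ht
      exact ⟨_, _, _, _, _, h5, h6, z', hz', rfl⟩
    · rintro ⟨m₁, m₂, p', x', y', h5, h6, z', hz', rfl⟩
      obtain ⟨hmem, rfl, rfl⟩ := XTl_complete pos p x y m₁ m₂ p' x' y' h5 h6
      obtain ⟨t, ht, he⟩ := List.mem_map.mp hmem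
      refine ⟨t, ht, z', ?_, ?_⟩
      · rw [he]; exact hz'
      · rw [he]

/-- the exponents after a cup -/
def STS (x : St) (S : St → St → Set (ℤ × ℤ)) : Set (ℤ × ℤ) :=
  {z | ∃ l r : St, l.1.toNat + r.1.toNat = x.1.toNat ∧ l.2.toNat + r.2.toNat = x.2.toNat ∧ z ∈ S l r}

theorem PS_ST (x : St) (ψ : Q) (χ : ℤ × ℤ) (H : St → St → L) (S : St → St → Set (ℤ × ℤ))
    (hH : ∀ l r : St, l.1.toNat + r.1.toNat = x.1.toNat → l.2.toNat + r.2.toNat = x.2.toNat →
      PS (ψ + (l.1.toNat * r.2.toNat) • qq) (χ + (l.1.toNat * r.2.toNat) • qz) (S l r) (H l r)) :
    PS ψ χ (STS x S) (ST (mon 1 0) (mon 0 1) x H) := by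
  rcases x with ⟨_ | _, _ | _⟩
  · have h1 := hH (false, false) (false, false) rfl rfl
    simp only [Bool.toNat_false, mul_zero, zero_smul, add_zero] at h1
    refine h1.congr (fun z => ?_)
    constructor
    · intro hz
      exact ⟨_, _, rfl, rfl, hz⟩
    · rintro ⟨⟨_ | _, _ | _⟩, ⟨_ | _, _ | _⟩, h1, h2, hz⟩ <;> simp_all
  · have h1 := hH (false, true) (false, false) rfl rfl
    have h2 := hH (false, false) (false, true) rfl rfl
    simp only [Bool.toNat_false, mul_zero, zero_mul, zero_smul, add_zero] at h1 h2
    refine (h1.add h2).congr (fun z => ?_)
    constructor
    · rintro (hz | hz)
      · exact ⟨_, _, rfl, rfl, hz⟩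
      · exact ⟨_, _, rfl, rfl, hz⟩
    · rintro ⟨⟨_ | _, _ | _⟩, ⟨_ | _, _ | _⟩, h1, h2, hz⟩ <;> simp_all
  · have h1 := hH (true, false) (false, false) rfl rfl
    have h2 := hH (false, false) (true, false) rfl rfl
    simp only [Bool.toNat_false, mul_zero, zero_mul, zero_smul, add_zero] at h1 h2
    refine (h1.add h2).congr (fun z => ?_)
    constructor
    · rintro (hz | hz)
      · exact ⟨_, _, rfl, rfl, hz⟩
      · exact ⟨_, _, rfl, rfl, hz⟩
    · rintro ⟨⟨_ | _, _ | _⟩, ⟨_ | _, _ | _⟩, h1, h2, hz⟩ <;> simp_all
  · have h1 := hH (true, true) (false, false) rfl rfl
    have h2 := hH (true, false) (false, true) rfl rfl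
    have h3 := hH (false, true) (true, false) rfl rfl
    have h4 := hH (false, false) (true, true) rfl rfl
    simp only [Bool.toNat_false, Bool.toNat_true, mul_zero, zero_mul, mul_one, one_smul, zero_smul,
      add_zero] at h1 h2 h3 h4
    have h2' : PS ψ χ (S (true, false) (false, true))
        (-(mon 1 0 * mon 0 1 * H (true, false) (false, true))) := by
      refine PS.neg ?_
      rw [mon_mul]
      have := PS.mono (1 + 0) (0 + 1) h2
      have e1 : phm false (1 + 0, 0 + 1) + (ψ + qq) = ψ + (2, 0) := by
        have : phm false (1 + 0, 0 + 1) + qq = (2, 0) := by decide
        rw [← this]; abel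
      have e2 : ((1 + 0, 0 + 1) : ℤ × ℤ) + (χ + qz) = χ := by
        have : ((1 + 0, 0 + 1) : ℤ × ℤ) + qz = 0 := by decide
        rw [add_left_comm, this, add_zero]
      rwa [e1, e2] at this
    have e : ST (mon 1 0) (mon 0 1) (true, true) H = H (true, true) (false, false)
        + -(mon 1 0 * mon 0 1 * H (true, false) (false, true))
        + H (false, true) (true, false) + H (false, false) (true, true) := by
      simp only [ST]; ring
    rw [e]
    refine (((h1.add h2').add h3).add h4).congr (fun z => ?_)
    constructor
    · rintro (((hz | hz) | hz) | hz)
      · exact ⟨_, _, rfl, rfl, hz⟩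
      · exact ⟨_, _, rfl, rfl, hz⟩
      · exact ⟨_, _, rfl, rfl, hz⟩
      · exact ⟨_, _, rfl, rfl, hz⟩
    · rintro ⟨⟨_ | _, _ | _⟩, ⟨_ | _, _ | _⟩, h1, h2, hz⟩ <;> simp_all

/-- the exponents after a cap -/
def MTS (p y : St) (S : St → Set (ℤ × ℤ)) : Set (ℤ × ℤ) :=
  {z | ∃ t : St, t.1.toNat + 1 = p.1.toNat + y.1.toNat ∧ t.2.toNat + 1 = p.2.toNat + y.2.toNat ∧
    z ∈ S t}

theorem PS_MT (p y : St) (ψ : Q) (χ : ℤ × ℤ) (H : St → L) (S : St → Set (ℤ × ℤ))
    (hH : ∀ z : St, z.1.toNat + 1 = p.1.toNat + y.1.toNat →
      z.2.toNat + 1 = p.2.toNat + y.2.toNat → PS ψ χ (S z) (H z)) :
    PS (ψ + (y.1.toNat + y.2.toNat * (1 + p.1.toNat) + (p.1.toNat + y.1.toNat + 1)) • qq)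
      (χ + ((1 - p.1.toNat) * (1 - y.2.toNat)) • qz) (MTS p y S)
      (MT (mon (-1) 0) (mon 0 (-1)) p y H) := by
  have key : ∀ (z : St), z.1.toNat + 1 = p.1.toNat + y.1.toNat →
      z.2.toNat + 1 = p.2.toNat + y.2.toNat →
      ((y.1.toNat + y.2.toNat * (1 + p.1.toNat) + (p.1.toNat + y.1.toNat + 1)) • qq = 0) →
      (1 - p.1.toNat) * (1 - y.2.toNat) = 0 →
      PS (ψ + (y.1.toNat + y.2.toNat * (1 + p.1.toNat) + (p.1.toNat + y.1.toNat + 1)) • qq)
        (χ + ((1 - p.1.toNat) * (1 - y.2.toNat)) • qz) (MTS p y S) (H z) := by
    intro z h1 h2 h3 h4
    rw [h3, h4, zero_smul, add_zero, add_zero]
    refine (hH z h1 h2).congr (fun v => ?_)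
    constructor
    · intro hv
      exact ⟨z, h1, h2, hv⟩
    · rintro ⟨t, ht1, ht2, hv⟩
      have e1 : t.1.toNat = z.1.toNat := by omega
      have e2 : t.2.toNat = z.2.toNat := by omega
      have : t = z := by
        have hb : ∀ u v : Bool, u.toNat = v.toNat → u = v := by decide
        exact Prod.ext (hb _ _ e1) (hb _ _ e2)
      rwa [← this]
  have key0 : (∀ t : St, ¬ (t.1.toNat + 1 = p.1.toNat + y.1.toNat ∧
      t.2.toNat + 1 = p.2.toNat + y.2.toNat)) →
      PS (ψ + (y.1.toNat + y.2.toNat * (1 + p.1.toNat) + (p.1.toNat + y.1.toNat + 1)) • qq)
        (χ + ((1 - p.1.toNat) * (1 - y.2.toNat)) • qz) (MTS p y S) 0 := by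
    intro h
    refine (PS.zero _ _).congr (fun v => ?_)
    constructor
    · intro hv; exact hv.elim
    · rintro ⟨t, ht1, ht2, hv⟩
      exact h t ⟨ht1, ht2⟩
  rcases p with ⟨_ | _, _ | _⟩ <;> rcases y with ⟨_ | _, _ | _⟩ <;> dsimp only [MT] <;>
    first
      | exact key0 (by decide)
      | exact key _ (by decide) (by decide) (by decide) (by decide)
      | skip
  have h := hH (false, false) (by decide) (by decide)
  rw [neg_mul, mon_mul]
  refine PS.neg ?_
  have := PS.mono (-1 + 0) (0 + -1) h
  have e1 : phm false (-1 + 0, 0 + -1) + ψ = ψ + ((true, false).1.toNat + (true, false).2.toNat
      * (1 + (false, true).1.toNat) + ((false, true).1.toNat + (true, false).1.toNat + 1)) • qq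
        + (2, 0) := by
    have : phm false (-1 + 0, 0 + -1) = ((true, false).1.toNat + (true, false).2.toNat
      * (1 + (false, true).1.toNat) + ((false, true).1.toNat + (true, false).1.toNat + 1)) • qq
        + (2, 0) := by decide
    rw [this]; abel
  have e2 : ((-1 + 0, 0 + -1) : ℤ × ℤ) + χ = χ + ((1 - (false, true).1.toNat)
      * (1 - (true, false).2.toNat)) • qz := by
    have : ((-1 + 0, 0 + -1) : ℤ × ℤ) = ((1 - (false, true).1.toNat)
      * (1 - (true, false).2.toNat)) • qz := by decide
    rw [← this, add_comm]
  rw [e1, e2] at this
  refine this.congr (fun v => ?_)
  constructor
  · intro hv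
    exact ⟨_, by decide, by decide, hv⟩
  · rintro ⟨t, ht1, ht2, hv⟩
    have ht : t = (false, false) := by
      clear this hv h hH key key0
      revert ht1 ht2
      rcases t with ⟨_ | _, _ | _⟩ <;> decide
    rwa [ht] at hv

end LGAlt
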