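import Pool.Agent.LGAlt2.Index

/-!
# Far marks

`topV` : let `m` be a history of the full diagram with the root `(0, 0)`, and let `Y` be a nonempty set of
circles which does not contain the circle of the root.  Then there is a crossing with exactly one of its circles
in `Y` whose mark is on the far side of this circle: `L` if it is the left circle, `R` if it is the right circle.

Proof.  Suppose not.  The strands of the circles in `Y` cut every level into blocks of gaps.  `yl j g` is a label
of the gap `g` at the level `j` (a class of blocks):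
* `yl 0 g = 0`;
* crossing of two strands of `Y`: the gap `k + 1` gets the new label `j + 1`; otherwise nothing changes;
* cup of a circle of `Y`: the gap `k + 1` gets the new label `j + 1`, the gaps `k` and `k + 2` the old label of
  the gap `k`; cup of a circle not in `Y`: all three gaps get the label of the gap `k`;
* cap of a circle of `Y`: the labels of the gaps `k` and `k + 2` are identified (`mrg`); other caps: nothing.
Properties (induction on `j`):
* labels are `≤ j`; the leftmost and the rightmost gap have the label `0`; if the strand `i` is not in `Y` then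
  `yl j i = yl j (i + 1)`.
* `2 * (number of holes) + 1 = str j` (no hole at the level `0` after the absorption, where `str = 1`).
* let `val x = 2 * (number of holes in gaps with the label x) - (number of strands i not in Y with yl j i = x)`.
  Then `val x ≤ 2` for all `x` and `val 0 ≤ -1`.  At the level `0`: `val 0 = -1` (the strand `0` is not in `Y`),
  `val x = 0` for the other ones.
  Crossing, both strands in `Y`: the new label has the value `0` or `2`, the other values do not increase
  (`T`: nothing; `B`: the label of the old gap `k + 1` loses a hole; `L`, `R`: the label of the gap `k`, or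
  `k + 2`, loses a hole; the gap `k + 1` had no hole).
  Crossing, one strand or no strand in `Y`: a hole which moves stays in its block (the mark is not the far mark
  of the circle in `Y`), nothing changes.
  Cup in `Y`: the new label has the value `2`, the others do not change.  Cup not in `Y`: one new hole, two new
  strands, no change.
  Cap in `Y`: the gap `k + 1` has no hole; let `x`, `y` be the labels of the gaps `k` and `k + 2`.  If `x ≠ y`
  then the value of the merged label is `val x + val y - 2`; if `x = y` it is `val x - 2`.  Cap not in `Y`: one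
  hole and two strands less, no change.
* Consider the last piece `j` which is a cap of a circle in `Y` (exists: `Y` is not empty, so some level has
  strands in `Y`, the last level has not, as its only strand belongs to the circle of the root; only caps
  remove strands).  After it there are no strands of `Y` (the number of these strands can only decrease at
  caps in `Y`), so at the level `j` the strands in `Y` are `k` and `k + 1`.  All gaps `g ≤ k` have the label
  of the gap `0`, all gaps `g ≥ k + 2` the label of the last gap, i.e. `0`.  The gap `k + 1` has no hole.  So all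
  `(str j - 1) / 2` holes are in gaps with the label `0`, and there are `str j - 2` strands not in `Y`, so
  `val 0 = 1`: contradiction.
-/

namespace LGAlt

/-- the labels of the gaps with respect to the circles in `Y` -/
def Dia.yl (D : Dia) (Y : Finset ℕ) : ℕ → ℕ → ℕ
  | 0, _ => 0
  | j + 1, g =>
    match D.pc j with
    | .cross k _ => if g = k + 1 ∧ D.ci (sl D.pc j k) ∈ Y ∧ D.ci (sl D.pc j (k + 1)) ∈ Y then j + 1
        else D.yl Y j g
    | .cup k _ => if g ≤ k then D.yl Y j g else if g = k + 1 then
        (if D.ci (j + 1) ∈ Y then j + 1 else D.yl Y j k) else D.yl Y j (g - 2)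
    | .cap k _ => if D.ci (sl D.pc j k) ∈ Y then
        mrg (D.yl Y j k) (D.yl Y j (k + 2)) (if g ≤ k then D.yl Y j g else D.yl Y j (g + 2))
        else (if g ≤ k then D.yl Y j g else D.yl Y j (g + 2))

/-- the value of a label -/
noncomputable def Dia.yval (D : Dia) (Y : Finset ℕ) (j : ℕ) (X : ℕ → Bool) (x : ℕ) : ℤ :=
  2 * (((Finset.range (str D.pc j + 1)).filter (fun g => X g = true ∧ D.yl Y j g = x)).card : ℤ)
    - (((Finset.range (str D.pc j)).filter
        (fun i => D.ci (sl D.pc j i) ∉ Y ∧ D.yl Y j i = x)).card : ℤ)

lemma yl_le (D : Dia) (Y : Finset ℕ) (j : ℕ) (hj : j ≤ D.n) (g : ℕ) (hg : g ≤ str D.pc j) :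
    D.yl Y j g ≤ j := by
  clear hj hg
  induction j generalizing g with
  | zero => simp [Dia.yl]
  | succ j ih =>
    have h1 : ∀ g, D.yl Y j g ≤ j + 1 := fun g => (ih g).trans (Nat.le_succ j)
    unfold Dia.yl
    split
    · split_ifs
      · exact le_refl _
      · exact h1 _
    · split_ifs
      · exact h1 _
      · exact le_refl _
      · exact h1 _
      · exact h1 _
    · split_ifs
      · exact (mrg_le _ _ _).trans (h1 _)
      · exact (mrg_le _ _ _).trans (h1 _)
      · exact h1 _
      · exact h1 _

private lemma topA_mrg_zero (a b x : ℕ) (h : x = 0) : mrg a b x = 0 := by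
  subst h
  exact Nat.le_zero.mp (mrg_le a b 0)

lemma yl_first (D : Dia) (Y : Finset ℕ) (j : ℕ) (hj : j ≤ D.n) : D.yl Y j 0 = 0 := by
  clear hj
  induction j with
  | zero => simp [Dia.yl]
  | succ j ih =>
    unfold Dia.yl
    split
    · rw [if_neg (by omega), ih]
    · rw [if_pos (Nat.zero_le _), ih]
    · rw [if_pos (Nat.zero_le _), ih, topA_mrg_zero _ _ _ rfl]
      exact ite_self _

lemma yl_block (D : Dia) (Y : Finset ℕ) (j : ℕ) (hj : j ≤ D.n) (i : ℕ) (hi : i < str D.pc j)
    (h : D.ci (sl D.pc j i) ∉ Y) : D.yl Y j i = D.yl Y j (i + 1) := by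
  induction j generalizing i with
  | zero => simp [Dia.yl]
  | succ j ih =>
    have hj' : j < D.n := hj
    have ih' : ∀ i, i < str D.pc j → D.ci (sl D.pc j i) ∉ Y → D.yl Y j i = D.yl Y j (i + 1) :=
      fun i h1 h2 => ih hj'.le i h1 h2
    rcases hp : D.pc j with ⟨k, pos⟩ | ⟨k, s⟩ | ⟨k, s⟩
    · obtain ⟨hk, -⟩ := D.hcross j hj' k pos hp
      simp only [str, hp] at hi
      simp only [sl, hp] at h
      simp only [Dia.yl, hp]
      rw [if_neg, if_neg]
      · exact ih' i hi h
      · rintro ⟨h1, h2, h3⟩
        have h4 : i = k := by omega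
        subst h4
        exact h h2
      · rintro ⟨h1, h2, h3⟩
        subst h1
        exact h h3
    · obtain ⟨hk, -⟩ := D.hcup j hj' k s hp
      simp only [str, hp] at hi
      simp only [sl, hp] at h
      simp only [Dia.yl, hp]
      rcases lt_trichotomy i k with h1 | h1 | h1
      · rw [if_pos h1] at h
        rw [if_pos h1.le, if_pos (by omega)]
        exact ih' i (by omega) h
      · subst h1
        rw [if_neg (by omega), if_pos (by omega)] at h
        rw [if_pos le_rfl, if_neg (by omega), if_pos rfl, if_neg h]
      · rcases Nat.eq_or_lt_of_le h1 with h2 | h2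
        · have h3 : i = k + 1 := h2.symm
          subst h3
          rw [if_neg (by omega), if_pos (by omega)] at h
          rw [if_neg (by omega), if_pos rfl, if_neg h, if_neg (by omega), if_neg (by omega)]
          rfl
        · rw [if_neg (by omega), if_neg (by omega)] at h
          rw [if_neg (by omega), if_neg (by omega), if_neg (by omega), if_neg (by omega)]
          obtain ⟨t, rfl⟩ : ∃ t, i = t + 2 := ⟨i - 2, by omega⟩
          exact ih' t (by omega) h
    · obtain ⟨hk, -⟩ := D.hcap j hj' k s hp
      simp only [str, hp] at hi
      simp only [sl, hp] at h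
      simp only [Dia.yl, hp]
      have hc : D.ci (sl D.pc j k) = D.ci (sl D.pc j (k + 1)) := cre_cap D.pc j D.n hj' k s hp
      rcases lt_trichotomy i k with h1 | h1 | h1
      · rw [if_pos h1] at h
        rw [if_pos h1.le, if_pos (show i + 1 ≤ k by omega), ih' i (by omega) h]
      · subst h1
        rw [if_neg (by omega)] at h
        have h2 := ih' (i + 2) (by omega) h
        rw [if_pos le_rfl, if_neg (show ¬ (i + 1 ≤ i) by omega)]
        have h3 : D.yl Y j (i + 1 + 2) = D.yl Y j (i + 2) := h2.symm
        rw [h3]
        split_ifs with h4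
        · rw [mrg_left, mrg_right]
        · have h5 := ih' i (by omega) h4
          rw [hc] at h4
          exact h5.trans (ih' (i + 1) (by omega) h4)
      · rw [if_neg (by omega)] at h
        rw [if_neg (show ¬ (i ≤ k) by omega), if_neg (show ¬ (i + 1 ≤ k) by omega)]
        have h2 : D.yl Y j (i + 1 + 2) = D.yl Y j (i + 2) := (ih' (i + 2) (by omega) h).symm
        rw [h2]

lemma yl_last (D : Dia) (Y : Finset ℕ) (j : ℕ) (hj : j ≤ D.n) : D.yl Y j (str D.pc j) = 0 := by
  induction j with
  | zero => simp [Dia.yl]
  | succ j ih =>
    have hj' : j < D.n := hj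
    have ih' := ih hj'.le
    rcases hp : D.pc j with ⟨k, pos⟩ | ⟨k, s⟩ | ⟨k, s⟩
    · obtain ⟨hk, -⟩ := D.hcross j hj' k pos hp
      simp only [str, hp, Dia.yl]
      rw [if_neg (by omega), ih']
    · obtain ⟨hk, -⟩ := D.hcup j hj' k s hp
      simp only [str, hp, Dia.yl]
      rw [if_neg (by omega), if_neg (by omega)]
      exact ih'
    · obtain ⟨hk, -⟩ := D.hcap j hj' k s hp
      simp only [str, hp, Dia.yl]
      have hc : D.ci (sl D.pc j k) = D.ci (sl D.pc j (k + 1)) := cre_cap D.pc j D.n hj' k s hp
      by_cases h1 : str D.pc j - 2 ≤ k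
      · have h2 : str D.pc j = k + 2 := by omega
        rw [if_pos h1]
        rw [h2] at ih' ⊢
        have h3 : k + 2 - 2 = k := by omega
        rw [h3]
        split_ifs with h4
        · rw [mrg_left, ih']
          exact Nat.min_zero _
        · have h5 := yl_block D Y j hj'.le k (by omega) h4
          rw [hc] at h4
          have h6 := yl_block D Y j hj'.le (k + 1) (by omega) h4
          rw [h5, h6]
          exact ih'
      · rw [if_neg h1]
        have h3 : str D.pc j - 2 + 2 = str D.pc j := by omega
        rw [h3, ih', topA_mrg_zero _ _ _ rfl]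
        exact ite_self _

private lemma topA_cnt (X : ℕ → Bool) (n : ℕ) :
    ((Finset.range n).filter (fun g => X g = true)).card = ∑ g ∈ Finset.range n, (X g).toNat := by
  rw [Finset.card_filter]
  refine Finset.sum_congr rfl fun g _ => ?_
  cases X g <;> rfl

private lemma topA_split1 (f : ℕ → ℕ) (k a : ℕ) :
    ∑ g ∈ Finset.range (k + (a + 1)), f g
      = ∑ g ∈ Finset.range k, f g + f k + ∑ g ∈ Finset.range a, f (k + (g + 1)) := by
  rw [Finset.sum_range_add, Finset.sum_range_succ']
  simp only [add_zero]
  ring

private lemma topA_split3 (f : ℕ → ℕ) (k a : ℕ) :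
    ∑ g ∈ Finset.range (k + (a + 3)), f g
      = ∑ g ∈ Finset.range k, f g + (f k + f (k + 1) + f (k + 2))
        + ∑ g ∈ Finset.range a, f (k + (g + 3)) := by
  rw [Finset.sum_range_add, Finset.sum_range_succ', Finset.sum_range_succ',
    Finset.sum_range_succ']
  simp only [add_zero, zero_add]
  have h : ∀ g, k + (g + 1 + 1 + 1) = k + (g + 3) := fun g => rfl
  simp only [h]
  have h1 : k + (1 + 1) = k + 2 := rfl
  rw [h1]
  ring

/-- the number of holes -/
lemma holes_step (D : Dia) (U : Finset ℕ) (j : ℕ) (hj : j < D.n) (mk : Mk) (X Y : ℕ → Bool)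
    (h : stp (D.pc j) (j ∈ U) mk (str D.pc j) X Y)
    (hX : 2 * ((Finset.range (str D.pc j + 1)).filter (fun g => X g = true)).card + 1
      = str D.pc j) :
    2 * ((Finset.range (str D.pc (j + 1) + 1)).filter (fun g => Y g = true)).card + 1
      = str D.pc (j + 1) := by
  rw [topA_cnt] at hX ⊢
  rcases hp : D.pc j with ⟨k, pos⟩ | ⟨k, s⟩ | ⟨k, s⟩
  · obtain ⟨hk, -⟩ := D.hcross j hj k pos hp
    have hs : str D.pc (j + 1) = str D.pc j := by simp only [str, hp]
    rw [hs]
    rw [hp] at h
    obtain ⟨h1, h2⟩ := h
    have key : ∑ g ∈ Finset.range (str D.pc j + 1), (Y g).toNat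
        = ∑ g ∈ Finset.range (str D.pc j + 1), (X g).toNat := by
      have hsame : (∀ g ≤ str D.pc j, Y g = X g) →
          ∑ g ∈ Finset.range (str D.pc j + 1), (Y g).toNat
            = ∑ g ∈ Finset.range (str D.pc j + 1), (X g).toNat := by
        intro h3
        refine Finset.sum_congr rfl fun g hg => ?_
        rw [h3 g (by rw [Finset.mem_range] at hg; omega)]
      by_cases hU : j ∈ U
      · have h3 := h1 hU
        obtain ⟨a, ha⟩ : ∃ a, str D.pc j + 1 = k + (a + 3) := ⟨str D.pc j + 1 - k - 3, by omega⟩
        cases mk with
        | T => exact hsame h3.2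
        | B => exact hsame h3.2
        | L =>
          obtain ⟨x1, x2, y1, y2, h4⟩ := h3
          rw [ha, topA_split3, topA_split3]
          have e1 : ∑ g ∈ Finset.range k, (Y g).toNat = ∑ g ∈ Finset.range k, (X g).toNat := by
            refine Finset.sum_congr rfl fun g hg => ?_
            rw [Finset.mem_range] at hg
            rw [h4 g (by omega) (by omega) (by omega)]
          have e2 : ∑ g ∈ Finset.range a, (Y (k + (g + 3))).toNat
              = ∑ g ∈ Finset.range a, (X (k + (g + 3))).toNat := by
            refine Finset.sum_congr rfl fun g hg => ?_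
            rw [Finset.mem_range] at hg
            rw [h4 (k + (g + 3)) (by omega) (by omega) (by omega)]
          have e3 : Y (k + 2) = X (k + 2) := h4 (k + 2) (by omega) (by omega) (by omega)
          rw [e1, e2, e3, x1, x2, y1, y2]
          simp only [Bool.toNat_true, Bool.toNat_false]
        | R =>
          obtain ⟨x1, x2, y1, y2, h4⟩ := h3
          rw [ha, topA_split3, topA_split3]
          have e1 : ∑ g ∈ Finset.range k, (Y g).toNat = ∑ g ∈ Finset.range k, (X g).toNat := by
            refine Finset.sum_congr rfl fun g hg => ?_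
            rw [Finset.mem_range] at hg
            rw [h4 g (by omega) (by omega) (by omega)]
          have e2 : ∑ g ∈ Finset.range a, (Y (k + (g + 3))).toNat
              = ∑ g ∈ Finset.range a, (X (k + (g + 3))).toNat := by
            refine Finset.sum_congr rfl fun g hg => ?_
            rw [Finset.mem_range] at hg
            rw [h4 (k + (g + 3)) (by omega) (by omega) (by omega)]
          have e3 : Y k = X k := h4 k (by omega) (by omega) (by omega)
          rw [e1, e2, e3, x1, x2, y1, y2]
          simp only [Bool.toNat_true, Bool.toNat_false]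
      · exact hsame (h2 hU)
    rw [key]
    exact hX
  · obtain ⟨hk, -⟩ := D.hcup j hj k s hp
    have hs : str D.pc (j + 1) = str D.pc j + 2 := by simp only [str, hp]
    rw [hs]
    rw [hp] at h
    obtain ⟨h1, h2, h3, h4⟩ := h
    obtain ⟨a, ha⟩ : ∃ a, str D.pc j = k + a := ⟨str D.pc j - k, by omega⟩
    have hN : str D.pc j + 2 + 1 = k + (a + 3) := by omega
    have hN' : str D.pc j + 1 = k + (a + 1) := by omega
    rw [hN, topA_split3]
    rw [hN', topA_split1] at hX
    have e1 : ∑ g ∈ Finset.range k, (Y g).toNat = ∑ g ∈ Finset.range k, (X g).toNat := by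
      refine Finset.sum_congr rfl fun g hg => ?_
      rw [Finset.mem_range] at hg
      rw [h3 g hg]
    have e2 : ∑ g ∈ Finset.range a, (Y (k + (g + 3))).toNat
        = ∑ g ∈ Finset.range a, (X (k + (g + 1))).toNat := by
      refine Finset.sum_congr rfl fun g hg => ?_
      rw [Finset.mem_range] at hg
      have h5 := h4 (k + (g + 1)) (by omega) (by omega)
      have h6 : k + (g + 1) + 2 = k + (g + 3) := by ring
      rw [h6] at h5
      rw [h5]
    have e3 : (Y (k + 1)).toNat = 1 := by rw [h1]; rfl
    omega
  · obtain ⟨hk, -⟩ := D.hcap j hj k s hp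
    have hs : str D.pc (j + 1) = str D.pc j - 2 := by simp only [str, hp]
    rw [hs]
    rw [hp] at h
    obtain ⟨h1, h2, h3, h4⟩ := h
    obtain ⟨a, ha⟩ : ∃ a, str D.pc j = k + 2 + a := ⟨str D.pc j - k - 2, by omega⟩
    have hN : str D.pc j + 1 = k + (a + 3) := by omega
    have hN' : str D.pc j - 2 + 1 = k + (a + 1) := by omega
    rw [hN', topA_split1]
    rw [hN, topA_split3] at hX
    have e1 : ∑ g ∈ Finset.range k, (Y g).toNat = ∑ g ∈ Finset.range k, (X g).toNat := by
      refine Finset.sum_congr rfl fun g hg => ?_
      rw [Finset.mem_range] at hg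
      rw [h3 g hg]
    have e2 : ∑ g ∈ Finset.range a, (Y (k + (g + 1))).toNat
        = ∑ g ∈ Finset.range a, (X (k + (g + 3))).toNat := by
      refine Finset.sum_congr rfl fun g hg => ?_
      rw [Finset.mem_range] at hg
      have h5 := h4 (k + (g + 1)) (by omega) (by omega)
      have h6 : k + (g + 1) + 2 = k + (g + 3) := by ring
      rw [h6] at h5
      rw [h5]
    have e3 : (X (k + 1)).toNat = 0 := by rw [h1]; rfl
    omega

end LGAlt
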