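import Pool.Agent.LGAlt2.TopA

/-!
# Far marks: one step

`yval_step` : see the proof in `TopA.lean`.
-/

namespace LGAlt

private lemma topB_split1 (f : ℕ → ℤ) (k a : ℕ) :
    ∑ g ∈ Finset.range (k + (a + 1)), f g
      = ∑ g ∈ Finset.range k, f g + f k + ∑ g ∈ Finset.range a, f (k + (g + 1)) := by
  rw [Finset.sum_range_add, Finset.sum_range_succ']
  simp only [add_zero]
  ring

private lemma topB_split2 (f : ℕ → ℤ) (k a : ℕ) :
    ∑ g ∈ Finset.range (k + (a + 2)), f g
      = ∑ g ∈ Finset.range k, f g + (f k + f (k + 1))
        + ∑ g ∈ Finset.range a, f (k + (g + 2)) := by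
  rw [Finset.sum_range_add, Finset.sum_range_succ', Finset.sum_range_succ']
  simp only [add_zero, zero_add]
  have h : ∀ g, k + (g + 1 + 1) = k + (g + 2) := fun g => rfl
  simp only [h]
  ring

private lemma topB_split3 (f : ℕ → ℤ) (k a : ℕ) :
    ∑ g ∈ Finset.range (k + (a + 3)), f g
      = ∑ g ∈ Finset.range k, f g + (f k + f (k + 1) + f (k + 2))
        + ∑ g ∈ Finset.range a, f (k + (g + 3)) := by
  rw [Finset.sum_range_add, Finset.sum_range_succ', Finset.sum_range_succ',
    Finset.sum_range_succ']
  simp only [add_zero, zero_add]
  have h : ∀ g, k + (g + 1 + 1 + 1) = k + (g + 3) := fun g => rfl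
  simp only [h]
  have h1 : k + (1 + 1) = k + 2 := rfl
  rw [h1]
  ring

/-- the indicator of a hole with the label `x` -/
private def topB_f (X : ℕ → Bool) (l : ℕ → ℕ) (x g : ℕ) : ℤ :=
  if X g = true ∧ l g = x then 1 else 0

/-- the indicator of a strand not in `Y` with the label `x` -/
private def topB_h (D : Dia) (j : ℕ) (Y : Finset ℕ) (l : ℕ → ℕ) (x i : ℕ) : ℤ :=
  if D.ci (sl D.pc j i) ∉ Y ∧ l i = x then 1 else 0

private lemma topB_yval (D : Dia) (Y : Finset ℕ) (j : ℕ) (X : ℕ → Bool) (x : ℕ) :
    D.yval Y j X x = 2 * ∑ g ∈ Finset.range (str D.pc j + 1), topB_f X (D.yl Y j) x g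
      - ∑ i ∈ Finset.range (str D.pc j), topB_h D j Y (D.yl Y j) x i := by
  unfold Dia.yval topB_f topB_h
  rw [Finset.card_filter, Finset.card_filter]
  push_cast
  rfl

lemma yval_step (D : Dia) (Y : Finset ℕ) (j : ℕ) (hj : j < D.n) (mk : Mk) (X X' : ℕ → Bool)
    (h : stp (D.pc j) (j ∈ D.C) mk (str D.pc j) X X')
    (hno : ∀ k pos, D.pc j = .cross k pos →
      ¬ (D.cl j ∈ Y ∧ D.cr j ∉ Y ∧ mk = .L) ∧ ¬ (D.cr j ∈ Y ∧ D.cl j ∉ Y ∧ mk = .R))
    (hX : D.yval Y j X 0 ≤ -1 ∧ ∀ x, D.yval Y j X x ≤ 2) :
    D.yval Y (j + 1) X' 0 ≤ -1 ∧ ∀ x, D.yval Y (j + 1) X' x ≤ 2 := by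
  have hle : ∀ g, g ≤ str D.pc j → D.yl Y j g ≤ j := fun g hg => yl_le D Y j hj.le g hg
  have hbl : ∀ i, i < str D.pc j → D.ci (sl D.pc j i) ∉ Y → D.yl Y j i = D.yl Y j (i + 1) :=
    fun i hi h2 => yl_block D Y j hj.le i hi h2
  rcases hp : D.pc j with ⟨k, pos⟩ | ⟨k, s⟩ | ⟨k, s⟩
  · -- crossing
    obtain ⟨hk, -⟩ := D.hcross j hj k pos hp
    have hs : str D.pc (j + 1) = str D.pc j := by simp only [str, hp]
    have hact : j ∈ D.C := by
      unfold Dia.C
      rw [Finset.mem_filter, Finset.mem_range, hp]
      exact ⟨hj, rfl⟩
    have hsl : ∀ i, sl D.pc (j + 1) i = sl D.pc j i := by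
      intro i; simp only [sl, hp]
    have hcl : D.cl j = D.ci (sl D.pc j k) := by simp only [Dia.cl, hp, Piece.at]
    have hcr : D.cr j = D.ci (sl D.pc j (k + 1)) := by simp only [Dia.cr, hp, Piece.at]
    obtain ⟨hno1, hno2⟩ := hno k pos hp
    rw [hp] at h
    obtain ⟨h1, -⟩ := h
    have h1 := h1 hact
    obtain ⟨a, ha⟩ : ∃ a, str D.pc j + 1 = k + (a + 3) := ⟨str D.pc j + 1 - k - 3, by omega⟩
    obtain ⟨b, hb⟩ : ∃ b, str D.pc j = k + (b + 2) := ⟨str D.pc j - k - 2, by omega⟩
    by_cases hboth : D.ci (sl D.pc j k) ∈ Y ∧ D.ci (sl D.pc j (k + 1)) ∈ Y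
    · -- both circles in `Y`
      have hyl : ∀ g, D.yl Y (j + 1) g = if g = k + 1 then j + 1 else D.yl Y j g := by
        intro g
        simp only [Dia.yl, hp]
        by_cases hg : g = k + 1
        · rw [if_pos ⟨hg, hboth⟩, if_pos hg]
        · rw [if_neg (fun h => hg h.1), if_neg hg]
      -- holes do not increase away from `k + 1`
      have hmono : ∀ g, g ≤ str D.pc j → g ≠ k + 1 → (X' g = true → X g = true) := by
        intro g hg hgk hX'
        cases mk with
        | T => rw [← h1.2 g hg]; exact hX'
        | B => rw [← h1.2 g hg]; exact hX'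
        | L =>
          obtain ⟨x1, x2, y1, y2, h4⟩ := h1
          by_cases hgk' : g = k
          · rw [hgk']; exact x1
          · rw [← h4 g hg hgk' hgk]; exact hX'
        | R =>
          obtain ⟨x1, x2, y1, y2, h4⟩ := h1
          by_cases hgk' : g = k + 2
          · rw [hgk']; exact x1
          · rw [← h4 g hg hgk' hgk]; exact hX'
      have hstr : ∀ x, x ≠ j + 1 → D.yval Y (j + 1) X' x ≤ D.yval Y j X x := by
        intro x hx
        rw [topB_yval, topB_yval, hs]
        have e1 : ∑ i ∈ Finset.range (str D.pc j),
            topB_h D (j + 1) Y (D.yl Y (j + 1)) x i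
            = ∑ i ∈ Finset.range (str D.pc j),
            topB_h D j Y (D.yl Y j) x i := by
          refine Finset.sum_congr rfl fun i hi => ?_
          unfold topB_h
          simp only [hsl, hyl]
          by_cases hik : i = k + 1
          · subst hik
            rw [if_neg (fun h => h.1 hboth.2), if_neg (fun h => h.1 hboth.2)]
          · rw [if_neg hik]
        have e2 : ∑ g ∈ Finset.range (str D.pc j + 1), topB_f X' (D.yl Y (j + 1)) x g
            ≤ ∑ g ∈ Finset.range (str D.pc j + 1), topB_f X (D.yl Y j) x g := by
          refine Finset.sum_le_sum fun g hg => ?_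
          rw [Finset.mem_range] at hg
          unfold topB_f
          rw [hyl]
          by_cases hgk : g = k + 1
          · rw [if_pos hgk, if_neg (fun h => hx h.2.symm)]
            split_ifs <;> norm_num
          · rw [if_neg hgk]
            by_cases hc : X' g = true ∧ D.yl Y j g = x
            · rw [if_pos hc, if_pos ⟨hmono g (by omega) hgk hc.1, hc.2⟩]
            · rw [if_neg hc]
              split_ifs <;> norm_num
        rw [e1]
        linarith
      have hnew : D.yval Y (j + 1) X' (j + 1) ≤ 2 := by
        rw [topB_yval, hs]
        have e1 : ∑ i ∈ Finset.range (str D.pc j),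
            topB_h D (j + 1) Y (D.yl Y (j + 1)) (j + 1) i = 0 := by
          refine Finset.sum_eq_zero fun i hi => ?_
          rw [Finset.mem_range] at hi
          unfold topB_h
          simp only [hsl, hyl]
          by_cases hik : i = k + 1
          · subst hik
            rw [if_neg (fun h => h.1 hboth.2)]
          · rw [if_neg hik, if_neg]
            rintro ⟨-, h3⟩
            have := hle i hi.le
            omega
        have e2 : ∑ g ∈ Finset.range (str D.pc j + 1), topB_f X' (D.yl Y (j + 1)) (j + 1) g
            ≤ 1 := by
          rw [ha, topB_split3]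
          have f1 : ∀ g, g ≤ str D.pc j → g ≠ k + 1 →
              topB_f X' (D.yl Y (j + 1)) (j + 1) g = 0 := by
            intro g hg hgk
            unfold topB_f
            rw [hyl, if_neg hgk, if_neg]
            rintro ⟨-, h3⟩
            have := hle g hg
            omega
          have f2 : topB_f X' (D.yl Y (j + 1)) (j + 1) (k + 1) ≤ 1 := by
            unfold topB_f
            split_ifs <;> norm_num
          rw [Finset.sum_eq_zero (fun g hg => f1 g (by rw [Finset.mem_range] at hg; omega)
            (by rw [Finset.mem_range] at hg; omega)),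
            Finset.sum_eq_zero (fun g hg => f1 (k + (g + 3))
              (by rw [Finset.mem_range] at hg; omega) (by omega)),
            f1 k (by omega) (by omega), f1 (k + 2) (by omega) (by omega)]
          linarith
        rw [e1]
        linarith
      refine ⟨(hstr 0 (by omega)).trans hX.1, fun x => ?_⟩
      by_cases hx : x = j + 1
      · rw [hx]; exact hnew
      · exact (hstr x hx).trans (hX.2 x)
    · -- at most one circle in `Y`
      have hyl : ∀ g, D.yl Y (j + 1) g = D.yl Y j g := by
        intro g
        simp only [Dia.yl, hp]
        rw [if_neg (fun h => hboth h.2)]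
      have hval : ∀ x, D.yval Y (j + 1) X' x = D.yval Y j X x := by
        intro x
        rw [topB_yval, topB_yval, hs]
        have e1 : ∑ i ∈ Finset.range (str D.pc j),
            topB_h D (j + 1) Y (D.yl Y (j + 1)) x i
            = ∑ i ∈ Finset.range (str D.pc j),
            topB_h D j Y (D.yl Y j) x i := by
          refine Finset.sum_congr rfl fun i hi => ?_
          unfold topB_h
          simp only [hsl, hyl]
        have e2 : ∑ g ∈ Finset.range (str D.pc j + 1), topB_f X' (D.yl Y (j + 1)) x g
            = ∑ g ∈ Finset.range (str D.pc j + 1), topB_f X (D.yl Y j) x g := by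
          have hsame : (∀ g ≤ str D.pc j, X' g = X g) →
              ∑ g ∈ Finset.range (str D.pc j + 1), topB_f X' (D.yl Y (j + 1)) x g
              = ∑ g ∈ Finset.range (str D.pc j + 1), topB_f X (D.yl Y j) x g := by
            intro h3
            refine Finset.sum_congr rfl fun g hg => ?_
            rw [Finset.mem_range] at hg
            unfold topB_f
            rw [hyl, h3 g (by omega)]
          cases mk with
          | T => exact hsame h1.2
          | B => exact hsame h1.2
          | L =>
            obtain ⟨x1, x2, y1, y2, h4⟩ := h1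
            have hcY : D.ci (sl D.pc j k) ∉ Y := by
              intro hc
              exact hno1 ⟨by rw [hcl]; exact hc, by rw [hcr]; exact fun h5 => hboth ⟨hc, h5⟩, rfl⟩
            have h5 := hbl k (by omega) hcY
            rw [ha, topB_split3, topB_split3]
            have g1 : ∑ g ∈ Finset.range k, topB_f X' (D.yl Y (j + 1)) x g
                = ∑ g ∈ Finset.range k, topB_f X (D.yl Y j) x g := by
              refine Finset.sum_congr rfl fun g hg => ?_
              rw [Finset.mem_range] at hg
              unfold topB_f
              rw [hyl, h4 g (by omega) (by omega) (by omega)]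
            have g2 : ∑ g ∈ Finset.range a, topB_f X' (D.yl Y (j + 1)) x (k + (g + 3))
                = ∑ g ∈ Finset.range a, topB_f X (D.yl Y j) x (k + (g + 3)) := by
              refine Finset.sum_congr rfl fun g hg => ?_
              rw [Finset.mem_range] at hg
              unfold topB_f
              rw [hyl, h4 (k + (g + 3)) (by omega) (by omega) (by omega)]
            rw [g1, g2]
            unfold topB_f
            rw [hyl, hyl, hyl, x1, x2, y1, y2, h4 (k + 2) (by omega) (by omega) (by omega), ← h5]
            simp
          | R =>
            obtain ⟨x1, x2, y1, y2, h4⟩ := h1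
            have hcY : D.ci (sl D.pc j (k + 1)) ∉ Y := by
              intro hc
              exact hno2 ⟨by rw [hcr]; exact hc, by rw [hcl]; exact fun h5 => hboth ⟨h5, hc⟩, rfl⟩
            have h5 : D.yl Y j (k + 1) = D.yl Y j (k + 2) := hbl (k + 1) (by omega) hcY
            rw [ha, topB_split3, topB_split3]
            have g1 : ∑ g ∈ Finset.range k, topB_f X' (D.yl Y (j + 1)) x g
                = ∑ g ∈ Finset.range k, topB_f X (D.yl Y j) x g := by
              refine Finset.sum_congr rfl fun g hg => ?_
              rw [Finset.mem_range] at hg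
              unfold topB_f
              rw [hyl, h4 g (by omega) (by omega) (by omega)]
            have g2 : ∑ g ∈ Finset.range a, topB_f X' (D.yl Y (j + 1)) x (k + (g + 3))
                = ∑ g ∈ Finset.range a, topB_f X (D.yl Y j) x (k + (g + 3)) := by
              refine Finset.sum_congr rfl fun g hg => ?_
              rw [Finset.mem_range] at hg
              unfold topB_f
              rw [hyl, h4 (k + (g + 3)) (by omega) (by omega) (by omega)]
            rw [g1, g2]
            unfold topB_f
            rw [hyl, hyl, hyl, x1, x2, y1, y2, h4 k (by omega) (by omega) (by omega), ← h5]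
            simp
        rw [e1, e2]
      exact ⟨by rw [hval]; exact hX.1, fun x => by rw [hval]; exact hX.2 x⟩
  · -- cup
    obtain ⟨hk, -⟩ := D.hcup j hj k s hp
    have hs : str D.pc (j + 1) = str D.pc j + 2 := by simp only [str, hp]
    rw [hp] at h
    obtain ⟨h1, h2, h3, h4⟩ := h
    obtain ⟨a, ha⟩ : ∃ a, str D.pc j = k + a := ⟨str D.pc j - k, by omega⟩
    have hN : str D.pc j + 2 + 1 = k + (a + 3) := by omega
    have hN' : str D.pc j + 1 = k + (a + 1) := by omega
    have hM : str D.pc j + 2 = k + (a + 2) := by omega
    have hsl : ∀ i, sl D.pc (j + 1) i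
        = if i < k then sl D.pc j i else if i < k + 2 then j + 1 else sl D.pc j (i - 2) := by
      intro i; simp only [sl, hp]
    have hyl : ∀ g, D.yl Y (j + 1) g = if g ≤ k then D.yl Y j g else if g = k + 1 then
        (if D.ci (j + 1) ∈ Y then j + 1 else D.yl Y j k) else D.yl Y j (g - 2) := by
      intro g; simp only [Dia.yl, hp]
    -- the difference
    have hval : ∀ x, D.yval Y (j + 1) X' x
        = D.yval Y j X x + (if D.ci (j + 1) ∈ Y ∧ x = j + 1 then 2 else 0) := by
      intro x
      rw [topB_yval, topB_yval, hs, hN, hN', hM, topB_split3, topB_split2, topB_split1]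
      have hsplit : ∑ i ∈ Finset.range (str D.pc j),
          topB_h D j Y (D.yl Y j) x i
          = ∑ i ∈ Finset.range k, topB_h D j Y (D.yl Y j) x i
          + ∑ i ∈ Finset.range a, topB_h D j Y (D.yl Y j) x (k + i) := by
        rw [ha, Finset.sum_range_add]
      rw [hsplit]
      have g1 : ∑ g ∈ Finset.range k, topB_f X' (D.yl Y (j + 1)) x g
          = ∑ g ∈ Finset.range k, topB_f X (D.yl Y j) x g := by
        refine Finset.sum_congr rfl fun g hg => ?_
        rw [Finset.mem_range] at hg
        unfold topB_f
        rw [hyl, if_pos hg.le, h3 g hg]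
      have g2 : ∑ g ∈ Finset.range a, topB_f X' (D.yl Y (j + 1)) x (k + (g + 3))
          = ∑ g ∈ Finset.range a, topB_f X (D.yl Y j) x (k + (g + 1)) := by
        refine Finset.sum_congr rfl fun g hg => ?_
        rw [Finset.mem_range] at hg
        have h5 := h4 (k + (g + 1)) (by omega) (by omega)
        have h6 : k + (g + 1) + 2 = k + (g + 3) := by ring
        rw [h6] at h5
        unfold topB_f
        have h7 : k + (g + 3) - 2 = k + (g + 1) := by omega
        rw [hyl, if_neg (show ¬ (k + (g + 3) ≤ k) by omega),
          if_neg (show ¬ (k + (g + 3) = k + 1) by omega), h5, h7]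
      have g3 : ∑ i ∈ Finset.range k,
          topB_h D (j + 1) Y (D.yl Y (j + 1)) x i
          = ∑ i ∈ Finset.range k, topB_h D j Y (D.yl Y j) x i := by
        refine Finset.sum_congr rfl fun g hg => ?_
        rw [Finset.mem_range] at hg
        unfold topB_h
        rw [hyl, if_pos hg.le, hsl, if_pos hg]
      have g4 : ∑ i ∈ Finset.range a,
          topB_h D (j + 1) Y (D.yl Y (j + 1)) x (k + (i + 2))
          = ∑ i ∈ Finset.range a, topB_h D j Y (D.yl Y j) x (k + i) := by
        refine Finset.sum_congr rfl fun g hg => ?_
        rw [Finset.mem_range] at hg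
        unfold topB_h
        have h7 : k + (g + 2) - 2 = k + g := by omega
        rw [hyl, if_neg (show ¬ (k + (g + 2) ≤ k) by omega),
          if_neg (show ¬ (k + (g + 2) = k + 1) by omega), hsl,
          if_neg (show ¬ (k + (g + 2) < k) by omega),
          if_neg (show ¬ (k + (g + 2) < k + 2) by omega), h7]
      rw [g1, g2, g3, g4]
      have e0 : D.yl Y (j + 1) k = D.yl Y j k := by rw [hyl, if_pos le_rfl]
      have e1 : D.yl Y (j + 1) (k + 1) = if D.ci (j + 1) ∈ Y then j + 1 else D.yl Y j k := by
        rw [hyl, if_neg (by omega), if_pos rfl]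
      have e2 : D.yl Y (j + 1) (k + 2) = D.yl Y j k := by
        rw [hyl, if_neg (by omega), if_neg (by omega)]
        rfl
      have s0 : sl D.pc (j + 1) k = j + 1 := by
        rw [hsl, if_neg (by omega), if_pos (by omega)]
      have s1 : sl D.pc (j + 1) (k + 1) = j + 1 := by
        rw [hsl, if_neg (by omega), if_pos (by omega)]
      have k1 : topB_f X' (D.yl Y (j + 1)) x k + topB_f X' (D.yl Y (j + 1)) x (k + 2)
          = topB_f X (D.yl Y j) x k := by
        unfold topB_f
        rw [e0, e2]
        by_cases hx : D.yl Y j k = x
        · simp only [hx, and_true]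
          have h2' := h2
          cases hx1 : X' k <;> cases hx2 : X' (k + 2) <;> cases hx3 : X k <;>
            simp [hx1, hx2, hx3] at h2' ⊢
        · simp [hx]
      have hlk := hle k (by omega)
      by_cases hY : D.ci (j + 1) ∈ Y
      · rw [if_pos hY] at e1
        have k2 : topB_f X' (D.yl Y (j + 1)) x (k + 1) = if x = j + 1 then 1 else 0 := by
          unfold topB_f
          rw [e1, h1]
          by_cases hx : x = j + 1
          · rw [if_pos hx, if_pos ⟨rfl, hx.symm⟩]
          · rw [if_neg hx, if_neg (fun h => hx h.2.symm)]
        have k3 : topB_h D (j + 1) Y (D.yl Y (j + 1)) x k = 0 := by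
          unfold topB_h
          rw [s0, if_neg (fun h => h.1 hY)]
        have k4 : topB_h D (j + 1) Y (D.yl Y (j + 1)) x (k + 1)
            = 0 := by
          unfold topB_h
          rw [s1, if_neg (fun h => h.1 hY)]
        have k5 : (if D.ci (j + 1) ∈ Y ∧ x = j + 1 then (2 : ℤ) else 0)
            = 2 * (if x = j + 1 then 1 else 0) := by
          by_cases hx : x = j + 1
          · rw [if_pos ⟨hY, hx⟩, if_pos hx]; norm_num
          · rw [if_neg (fun h => hx h.2), if_neg hx]; norm_num
        rw [k5, k2, k3, k4]
        linarith
      · rw [if_neg hY] at e1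
        have k2 : topB_f X' (D.yl Y (j + 1)) x (k + 1) = if D.yl Y j k = x then 1 else 0 := by
          unfold topB_f
          rw [e1, h1]
          simp
        have k3 : topB_h D (j + 1) Y (D.yl Y (j + 1)) x k
            = if D.yl Y j k = x then 1 else 0 := by
          unfold topB_h
          rw [s0, e0]
          simp [hY]
        have k4 : topB_h D (j + 1) Y (D.yl Y (j + 1)) x (k + 1)
            = if D.yl Y j k = x then 1 else 0 := by
          unfold topB_h
          rw [s1, e1]
          simp [hY]
        rw [if_neg (fun h => hY h.1), k2, k3, k4]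
        linarith
    have hz : D.yval Y j X (j + 1) = 0 := by
      rw [topB_yval]
      rw [Finset.sum_eq_zero, Finset.sum_eq_zero]
      · norm_num
      · intro i hi
        rw [Finset.mem_range] at hi
        unfold topB_h
        rw [if_neg]
        rintro ⟨-, h5⟩
        have := hle i hi.le
        omega
      · intro i hi
        rw [Finset.mem_range] at hi
        unfold topB_f
        rw [if_neg]
        rintro ⟨-, h5⟩
        have := hle i (by omega)
        omega
    refine ⟨?_, fun x => ?_⟩
    · rw [hval, if_neg (by omega)]
      linarith [hX.1]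
    · rw [hval]
      by_cases hx : x = j + 1
      · rw [hx, hz]
        split_ifs <;> norm_num
      · rw [if_neg (fun h => hx h.2)]
        linarith [hX.2 x]
  · -- cap
    obtain ⟨hk, -⟩ := D.hcap j hj k s hp
    have hs : str D.pc (j + 1) = str D.pc j - 2 := by simp only [str, hp]
    have hc : D.ci (sl D.pc j k) = D.ci (sl D.pc j (k + 1)) := cre_cap D.pc j D.n hj k s hp
    rw [hp] at h
    obtain ⟨h1, h2, h3, h4⟩ := h
    obtain ⟨a, ha⟩ : ∃ a, str D.pc j = k + 2 + a := ⟨str D.pc j - k - 2, by omega⟩
    have hN : str D.pc j + 1 = k + (a + 3) := by omega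
    have hN' : str D.pc j - 2 + 1 = k + (a + 1) := by omega
    have hM : str D.pc j = k + (a + 2) := by omega
    have hM' : str D.pc j - 2 = k + a := by omega
    have hsl : ∀ i, sl D.pc (j + 1) i = if i < k then sl D.pc j i else sl D.pc j (i + 2) := by
      intro i; simp only [sl, hp]
    by_cases hY : D.ci (sl D.pc j k) ∈ Y
    · -- cap of a circle in `Y`
      have hY' : D.ci (sl D.pc j (k + 1)) ∈ Y := by rw [← hc]; exact hY
      obtain ⟨p, hpk⟩ : ∃ p, p = D.yl Y j k := ⟨_, rfl⟩
      obtain ⟨q, hqk⟩ : ∃ q, q = D.yl Y j (k + 2) := ⟨_, rfl⟩
      have hyl : ∀ g, D.yl Y (j + 1) g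
          = mrg p q (if g ≤ k then D.yl Y j g else D.yl Y j (g + 2)) := by
        intro g; simp only [Dia.yl, hp]
        rw [if_pos hY, hpk, hqk]
      have hmk : mrg p q (D.yl Y j (k + 2)) = mrg p q (D.yl Y j k) := by
        rw [← hqk, ← hpk, mrg_left, mrg_right]
      -- sums over the labels after the identification
      have hval : ∀ x, D.yval Y (j + 1) X' x
          = 2 * ∑ g ∈ Finset.range (str D.pc j + 1), topB_f X (fun g => mrg p q (D.yl Y j g)) x g
            - ∑ i ∈ Finset.range (str D.pc j),
                topB_h D j Y (fun g => mrg p q (D.yl Y j g)) x i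
            - (if min p q = x then 2 else 0) := by
        intro x
        rw [topB_yval, hs, hN', hM', hN, topB_split3, topB_split1]
        have hsplit : ∑ i ∈ Finset.range (str D.pc j),
            topB_h D j Y (fun g => mrg p q (D.yl Y j g)) x i
            = ∑ i ∈ Finset.range k, topB_h D j Y (fun g => mrg p q (D.yl Y j g)) x i
            + (topB_h D j Y (fun g => mrg p q (D.yl Y j g)) x k
              + topB_h D j Y (fun g => mrg p q (D.yl Y j g)) x (k + 1))
            + ∑ i ∈ Finset.range a,
                topB_h D j Y (fun g => mrg p q (D.yl Y j g)) x (k + (i + 2)) := by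
          rw [hM, topB_split2]
        rw [hsplit, Finset.sum_range_add]
        have g1 : ∑ g ∈ Finset.range k, topB_f X' (D.yl Y (j + 1)) x g
            = ∑ g ∈ Finset.range k, topB_f X (fun g => mrg p q (D.yl Y j g)) x g := by
          refine Finset.sum_congr rfl fun g hg => ?_
          rw [Finset.mem_range] at hg
          unfold topB_f
          rw [hyl, if_pos hg.le, h3 g hg]
        have g2 : ∑ g ∈ Finset.range a, topB_f X' (D.yl Y (j + 1)) x (k + (g + 1))
            = ∑ g ∈ Finset.range a,
                topB_f X (fun g => mrg p q (D.yl Y j g)) x (k + (g + 3)) := by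
          refine Finset.sum_congr rfl fun g hg => ?_
          rw [Finset.mem_range] at hg
          have h5 := h4 (k + (g + 1)) (by omega) (by omega)
          have h6 : k + (g + 1) + 2 = k + (g + 3) := by ring
          rw [h6] at h5
          unfold topB_f
          rw [hyl, if_neg (show ¬ (k + (g + 1) ≤ k) by omega), h5, h6]
        have g3 : ∑ i ∈ Finset.range k, topB_h D (j + 1) Y (D.yl Y (j + 1)) x i
            = ∑ i ∈ Finset.range k, topB_h D j Y (fun g => mrg p q (D.yl Y j g)) x i := by
          refine Finset.sum_congr rfl fun g hg => ?_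
          rw [Finset.mem_range] at hg
          unfold topB_h
          rw [hyl, if_pos hg.le, hsl, if_pos hg]
        have g4 : ∑ i ∈ Finset.range a, topB_h D (j + 1) Y (D.yl Y (j + 1)) x (k + i)
            = ∑ i ∈ Finset.range a,
                topB_h D j Y (fun g => mrg p q (D.yl Y j g)) x (k + (i + 2)) := by
          refine Finset.sum_congr rfl fun g hg => ?_
          rw [Finset.mem_range] at hg
          unfold topB_h
          have h6 : k + g + 2 = k + (g + 2) := by ring
          rw [hsl, if_neg (show ¬ (k + g < k) by omega), hyl, h6]
          by_cases hg0 : g = 0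
          · subst hg0
            rw [if_pos (show k + 0 ≤ k by omega)]
            have h8 : k + (0 + 2) = k + 2 := rfl
            rw [h8]
            simp only [hmk, add_zero]
          · rw [if_neg (show ¬ (k + g ≤ k) by omega)]
        rw [g1, g2, g3, g4]
        have e0 : D.yl Y (j + 1) k = mrg p q (D.yl Y j k) := by rw [hyl, if_pos le_rfl]
        have hmin : mrg p q (D.yl Y j k) = min p q := by rw [← hpk, mrg_left]
        have k3 : topB_h D j Y (fun g => mrg p q (D.yl Y j g)) x k = 0 := by
          unfold topB_h
          rw [if_neg (fun h => h.1 hY)]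
        have k4 : topB_h D j Y (fun g => mrg p q (D.yl Y j g)) x (k + 1) = 0 := by
          unfold topB_h
          rw [if_neg (fun h => h.1 hY')]
        have k5 : topB_f X (fun g => mrg p q (D.yl Y j g)) x (k + 1) = 0 := by
          unfold topB_f
          rw [if_neg]
          rintro ⟨h9, -⟩
          rw [h1] at h9
          exact Bool.noConfusion h9
        have k1 : topB_f X' (D.yl Y (j + 1)) x k + (if min p q = x then 1 else 0)
            = topB_f X (fun g => mrg p q (D.yl Y j g)) x k
              + topB_f X (fun g => mrg p q (D.yl Y j g)) x (k + 2) := by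
          unfold topB_f
          simp only [e0, hmk, hmin]
          by_cases hx : min p q = x
          · simp only [hx, and_true]
            have h2' := h2
            cases hx1 : X' k <;> cases hx2 : X k <;> cases hx3 : X (k + 2) <;>
              simp [hx1, hx2, hx3] at h2' ⊢
          · simp [hx]
        have k6 : (if min p q = x then (2 : ℤ) else 0) = 2 * (if min p q = x then 1 else 0) := by
          split_ifs <;> norm_num
        rw [k3, k4, k5, k6]
        linarith
      by_cases hpq : p = q
      · -- the same label
        have hm : ∀ y, mrg p q y = y := by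
          intro y
          subst hpq
          unfold mrg
          rw [max_self, min_self]
          split_ifs with h9
          · exact h9.symm
          · rfl
        have hval2 : ∀ x, D.yval Y (j + 1) X' x ≤ D.yval Y j X x := by
          intro x
          rw [hval, topB_yval]
          simp only [hm]
          split_ifs <;> linarith
        exact ⟨(hval2 0).trans hX.1, fun x => (hval2 x).trans (hX.2 x)⟩
      · -- two labels are identified
        have hlt : min p q < max p q := by
          rcases lt_or_gt_of_ne hpq with h9 | h9
          · rw [min_eq_left h9.le, max_eq_right h9.le]; exact h9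
          · rw [min_eq_right h9.le, max_eq_left h9.le]; exact h9
        have hf : ∀ x g, topB_f X (fun g => mrg p q (D.yl Y j g)) x g
            = if x = max p q then 0 else if x = min p q then
                topB_f X (D.yl Y j) (min p q) g + topB_f X (D.yl Y j) (max p q) g
              else topB_f X (D.yl Y j) x g := by
          intro x g
          unfold topB_f mrg
          by_cases hX1 : X g = true
          · simp only [hX1, true_and]
            by_cases h9 : D.yl Y j g = max p q
            · rw [if_pos h9, h9]
              split_ifs <;> omega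
            · rw [if_neg h9]
              split_ifs <;> omega
          · simp [hX1]
        have hh : ∀ x i, topB_h D j Y (fun g => mrg p q (D.yl Y j g)) x i
            = if x = max p q then 0 else if x = min p q then
                topB_h D j Y (D.yl Y j) (min p q) i + topB_h D j Y (D.yl Y j) (max p q) i
              else topB_h D j Y (D.yl Y j) x i := by
          intro x i
          unfold topB_h mrg
          by_cases hX1 : D.ci (sl D.pc j i) ∉ Y
          · simp only [hX1, true_and, not_false_eq_true]
            by_cases h9 : D.yl Y j i = max p q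
            · rw [if_pos h9, h9]
              split_ifs <;> omega
            · rw [if_neg h9]
              split_ifs <;> omega
          · simp [hX1]
        have hval2 : ∀ x, D.yval Y (j + 1) X' x = if x = max p q then 0 else
            if x = min p q then D.yval Y j X (min p q) + D.yval Y j X (max p q) - 2
            else D.yval Y j X x := by
          intro x
          rw [hval]
          simp only [hf, hh]
          by_cases h9 : x = max p q
          · simp only [if_pos h9]
            rw [if_neg (by omega)]
            simp
          · simp only [if_neg h9]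
            by_cases h10 : x = min p q
            · simp only [if_pos h10]
              rw [if_pos h10.symm, topB_yval, topB_yval, Finset.sum_add_distrib,
                Finset.sum_add_distrib]
              ring
            · simp only [if_neg h10]
              rw [if_neg (fun h => h10 h.symm), topB_yval]
              ring
        have hm1 := hX.2 (min p q)
        have hm2 := hX.2 (max p q)
        refine ⟨?_, fun x => ?_⟩
        · rw [hval2, if_neg (by omega)]
          by_cases h10 : 0 = min p q
          · rw [if_pos h10, ← h10]
            linarith [hX.1]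
          · rw [if_neg h10]
            exact hX.1
        · rw [hval2]
          split_ifs
          · norm_num
          · linarith
          · exact hX.2 x
    · -- cap of another circle
      have hY' : D.ci (sl D.pc j (k + 1)) ∉ Y := by rw [← hc]; exact hY
      have hyl : ∀ g, D.yl Y (j + 1) g = if g ≤ k then D.yl Y j g else D.yl Y j (g + 2) := by
        intro g; simp only [Dia.yl, hp]
        rw [if_neg hY]
      have hb1 := hbl k (by omega) hY
      have hb2 : D.yl Y j (k + 1) = D.yl Y j (k + 2) := hbl (k + 1) (by omega) hY'
      have hval : ∀ x, D.yval Y (j + 1) X' x = D.yval Y j X x := by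
        intro x
        rw [topB_yval, topB_yval, hs, hN', hM', hN, topB_split3, topB_split1]
        have hsplit : ∑ i ∈ Finset.range (str D.pc j), topB_h D j Y (D.yl Y j) x i
            = ∑ i ∈ Finset.range k, topB_h D j Y (D.yl Y j) x i
            + (topB_h D j Y (D.yl Y j) x k + topB_h D j Y (D.yl Y j) x (k + 1))
            + ∑ i ∈ Finset.range a, topB_h D j Y (D.yl Y j) x (k + (i + 2)) := by
          rw [hM, topB_split2]
        rw [hsplit, Finset.sum_range_add]
        have g1 : ∑ g ∈ Finset.range k, topB_f X' (D.yl Y (j + 1)) x g
            = ∑ g ∈ Finset.range k, topB_f X (D.yl Y j) x g := by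
          refine Finset.sum_congr rfl fun g hg => ?_
          rw [Finset.mem_range] at hg
          unfold topB_f
          rw [hyl, if_pos hg.le, h3 g hg]
        have g2 : ∑ g ∈ Finset.range a, topB_f X' (D.yl Y (j + 1)) x (k + (g + 1))
            = ∑ g ∈ Finset.range a, topB_f X (D.yl Y j) x (k + (g + 3)) := by
          refine Finset.sum_congr rfl fun g hg => ?_
          rw [Finset.mem_range] at hg
          have h5 := h4 (k + (g + 1)) (by omega) (by omega)
          have h6 : k + (g + 1) + 2 = k + (g + 3) := by ring
          rw [h6] at h5
          unfold topB_f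
          rw [hyl, if_neg (show ¬ (k + (g + 1) ≤ k) by omega), h5, h6]
        have g3 : ∑ i ∈ Finset.range k, topB_h D (j + 1) Y (D.yl Y (j + 1)) x i
            = ∑ i ∈ Finset.range k, topB_h D j Y (D.yl Y j) x i := by
          refine Finset.sum_congr rfl fun g hg => ?_
          rw [Finset.mem_range] at hg
          unfold topB_h
          rw [hyl, if_pos hg.le, hsl, if_pos hg]
        have g4 : ∑ i ∈ Finset.range a, topB_h D (j + 1) Y (D.yl Y (j + 1)) x (k + i)
            = ∑ i ∈ Finset.range a, topB_h D j Y (D.yl Y j) x (k + (i + 2)) := by
          refine Finset.sum_congr rfl fun g hg => ?_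
          rw [Finset.mem_range] at hg
          unfold topB_h
          have h6 : k + g + 2 = k + (g + 2) := by ring
          rw [hsl, if_neg (show ¬ (k + g < k) by omega), hyl, h6]
          by_cases hg0 : g = 0
          · subst hg0
            rw [if_pos (show k + 0 ≤ k by omega)]
            have h8 : k + (0 + 2) = k + 2 := rfl
            have h9 : k + 0 = k := rfl
            rw [h8, h9, hb1, hb2]
          · rw [if_neg (show ¬ (k + g ≤ k) by omega)]
        rw [g1, g2, g3, g4]
        have e0 : D.yl Y (j + 1) k = D.yl Y j k := by rw [hyl, if_pos le_rfl]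
        have k3 : topB_h D j Y (D.yl Y j) x k = if D.yl Y j k = x then 1 else 0 := by
          unfold topB_h
          simp [hY]
        have k4 : topB_h D j Y (D.yl Y j) x (k + 1) = if D.yl Y j k = x then 1 else 0 := by
          unfold topB_h
          rw [← hb1]
          simp [hY']
        have k5 : topB_f X (D.yl Y j) x (k + 1) = 0 := by
          unfold topB_f
          rw [if_neg]
          rintro ⟨h9, -⟩
          rw [h1] at h9
          exact Bool.noConfusion h9
        have k1 : topB_f X' (D.yl Y (j + 1)) x k + (if D.yl Y j k = x then 1 else 0)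
            = topB_f X (D.yl Y j) x k + topB_f X (D.yl Y j) x (k + 2) := by
          unfold topB_f
          rw [e0, ← hb2, ← hb1]
          by_cases hx : D.yl Y j k = x
          · simp only [hx, and_true]
            have h2' := h2
            cases hx1 : X' k <;> cases hx2 : X k <;> cases hx3 : X (k + 2) <;>
              simp [hx1, hx2, hx3] at h2' ⊢
          · simp [hx]
        rw [k3, k4, k5]
        linarith
      exact ⟨by rw [hval]; exact hX.1, fun x => by rw [hval]; exact hX.2 x⟩

end LGAlt
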