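import Pool.Agent.LGAlt2.TopB

/-!
# Far marks

`last_cap`, `topV` : see the proof in `TopA.lean`.
-/

namespace LGAlt

/-- strand `i` at the level `j` belongs to a circle in `Y` -/
private def topVin (D : Dia) (Y : Finset ℕ) (j : ℕ) : Prop :=
  ∃ i < str D.pc j, D.ci (sl D.pc j i) ∈ Y

private lemma topV_some (D : Dia) (Y : Finset ℕ) (hY : Y ⊆ D.V) (hne : Y.Nonempty)
    (h0 : D.rc (0, 0) ∉ Y) : ∃ j ≤ D.n, topVin D Y j := by
  obtain ⟨y, hy⟩ := hne
  have h1 := hY hy
  unfold Dia.V at h1
  rw [Finset.mem_image] at h1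
  obtain ⟨x, hx, rfl⟩ := h1
  unfold Dia.SLb at hx
  rw [Finset.mem_insert, Finset.mem_image] at hx
  rcases hx with rfl | ⟨j, hj, rfl⟩
  · exact absurd hy h0
  · rw [Finset.mem_filter, Finset.mem_range] at hj
    obtain ⟨hj, hc⟩ := hj
    rcases hp : D.pc j with ⟨k, pos⟩ | ⟨k, s⟩ | ⟨k, s⟩
    · rw [hp] at hc
      simp [Piece.isCup] at hc
    · obtain ⟨hk, -⟩ := D.hcup j hj k s hp
      refine ⟨j + 1, hj, k, ?_, ?_⟩
      · rw [str_cup D.pc hp]
        omega
      · rw [(sl_cup D hp).1]
        exact hy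
    · rw [hp] at hc
      simp [Piece.isCup] at hc

/-- the last cap of a circle in `Y` -/
lemma last_cap (D : Dia) (Y : Finset ℕ) (hY : Y ⊆ D.V) (hne : Y.Nonempty) (h0 : D.rc (0, 0) ∉ Y) :
    ∃ j < D.n, ∃ k s, D.pc j = .cap k s ∧ ∀ i < str D.pc j,
      (D.ci (sl D.pc j i) ∈ Y ↔ i = k ∨ i = k + 1) := by
  classical
  obtain ⟨j0, hj0, hin0⟩ := topV_some D Y hY hne h0
  have hn : ¬ topVin D Y D.n := by
    rintro ⟨i, hi, h⟩
    rw [D.hfin] at hi
    have h1 : i = 0 := by omega
    subst h1
    rw [(last_circle D).1] at h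
    exact h0 h
  -- the last level with strands in Y
  have key : ∀ d, ∀ j, j + d = D.n → topVin D Y j → ∃ j < D.n, topVin D Y j ∧ ¬ topVin D Y (j + 1) := by
    intro d
    induction d with
    | zero =>
      intro j hj h
      rw [add_zero] at hj
      rw [hj] at h
      exact absurd h hn
    | succ d ih =>
      intro j hj h
      by_cases h1 : topVin D Y (j + 1)
      · exact ih (j + 1) (by omega) h1
      · exact ⟨j, by omega, h, h1⟩
  obtain ⟨j, hj, ⟨i, hi, hiY⟩, hno⟩ := key (D.n - j0) j0 (by omega) hin0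
  have hno' : ∀ i < str D.pc (j + 1), D.ci (sl D.pc (j + 1) i) ∉ Y :=
    fun i hi h => hno ⟨i, hi, h⟩
  rcases hp : D.pc j with ⟨k, pos⟩ | ⟨k, s⟩ | ⟨k, s⟩
  · exfalso
    apply hno' i
    · rw [str_cross D.pc hp]
      exact hi
    · simp only [sl, hp]
      exact hiY
  · exfalso
    obtain ⟨hk, -⟩ := D.hcup j hj k s hp
    rcases Nat.lt_or_ge i k with h1 | h1
    · apply hno' i
      · rw [str_cup D.pc hp]
        omega
      · simp only [sl, hp, h1, if_true]
        exact hiY
    · apply hno' (i + 2)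
      · rw [str_cup D.pc hp]
        omega
      · have h2 : ¬ i + 2 < k := by omega
        have h3 : ¬ i + 2 < k + 2 := by omega
        have h4 : i + 2 - 2 = i := by omega
        simp only [sl, hp, h2, h3, h4, if_false]
        exact hiY
  · obtain ⟨hk, -⟩ := D.hcap j hj k s hp
    have hout : ∀ i < str D.pc j, i ≠ k → i ≠ k + 1 → D.ci (sl D.pc j i) ∉ Y := by
      intro i hi h1 h2
      rcases Nat.lt_or_ge i k with h3 | h3
      · have h4 := hno' i (by rw [str_cap D.pc hp]; omega)
        simp only [sl, hp, h3, if_true] at h4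
        exact h4
      · obtain ⟨t, rfl⟩ : ∃ t, i = t + 2 := ⟨i - 2, by omega⟩
        have h4 := hno' t (by rw [str_cap D.pc hp]; omega)
        have h5 : ¬ t < k := by omega
        simp only [sl, hp, h5, if_false] at h4
        exact h4
    have hc := ci_cap D hj hp
    have hkY : D.ci (sl D.pc j k) ∈ Y := by
      by_cases h1 : i = k
      · rw [← h1]
        exact hiY
      · by_cases h2 : i = k + 1
        · rw [← hc, ← h2]
          exact hiY
        · exact absurd hiY (hout i hi h1 h2)
    refine ⟨j, hj, k, s, hp, fun i hi => ⟨fun h => ?_, fun h => ?_⟩⟩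
    · by_contra hcon
      rw [not_or] at hcon
      exact hout i hi hcon.1 hcon.2 h
    · rcases h with h | h
      · rw [h]
        exact hkY
      · rw [h, hc]
        exact hkY

theorem topV (D : Dia) (m : ℕ → Mk) (hm : Hist D.pc D.n D.C (0, 0) m) (Y : Finset ℕ)
    (hY : Y ⊆ D.V) (hne : Y.Nonempty) (h0 : D.rc (0, 0) ∉ Y) :
    ∃ c ∈ D.C, (D.cl c ∈ Y ∧ D.cr c ∉ Y ∧ m c = .L) ∨ (D.cr c ∈ Y ∧ D.cl c ∉ Y ∧ m c = .R) := by
  classical
  by_contra hcon
  push Not at hcon
  obtain ⟨X, -, -, -, -, hst, -⟩ := hm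
  -- the holes after the absorption
  have hZ : ∀ j, abr (0, 0) (j + 1) (X (j + 1)) = X (j + 1) := by
    intro j
    funext g
    unfold abr
    rw [if_neg]
    rintro ⟨h1, -⟩
    simp at h1
  have hinv : ∀ j ≤ D.n, (2 * ((Finset.range (str D.pc j + 1)).filter
      (fun g => abr (0, 0) j (X j) g = true)).card + 1 = str D.pc j) ∧
      D.yval Y j (abr (0, 0) j (X j)) 0 ≤ -1 ∧ ∀ x, D.yval Y j (abr (0, 0) j (X j)) x ≤ 2 := by
    intro j
    induction j with
    | zero =>
      intro _
      have hz : ∀ g ∈ Finset.range (str D.pc 0 + 1), ¬ (abr (0, 0) 0 (X 0) g = true) := by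
        intro g hg
        rw [Finset.mem_range] at hg
        have hs : str D.pc 0 = 1 := rfl
        rw [hs] at hg
        unfold abr
        rw [if_pos ⟨rfl, by simp only; omega⟩]
        simp
      have hz' : ∀ x, (Finset.range (str D.pc 0 + 1)).filter
          (fun g => abr (0, 0) 0 (X 0) g = true ∧ D.yl Y 0 g = x) = ∅ := by
        intro x
        rw [Finset.filter_eq_empty_iff]
        exact fun g hg h => hz g hg h.1
      refine ⟨?_, ?_, ?_⟩
      · rw [Finset.filter_eq_empty_iff.2 hz]
        rfl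
      · unfold Dia.yval
        rw [hz' 0]
        have h1 : (0 : ℕ) ∈ (Finset.range (str D.pc 0)).filter
            (fun i => D.ci (sl D.pc 0 i) ∉ Y ∧ D.yl Y 0 i = 0) := by
          rw [Finset.mem_filter, Finset.mem_range]
          exact ⟨one_pos, h0, rfl⟩
        have h2 := Finset.card_pos.2 ⟨0, h1⟩
        simp only [Finset.card_empty, Nat.cast_zero, mul_zero, zero_sub]
        have h3 : (1 : ℤ) ≤ (((Finset.range (str D.pc 0)).filter
            (fun i => D.ci (sl D.pc 0 i) ∉ Y ∧ D.yl Y 0 i = 0)).card : ℤ) := by exact_mod_cast h2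
        linarith
      · intro x
        unfold Dia.yval
        rw [hz' x]
        simp only [Finset.card_empty, Nat.cast_zero, mul_zero, zero_sub]
        have h3 : (0 : ℤ) ≤ (((Finset.range (str D.pc 0)).filter
            (fun i => D.ci (sl D.pc 0 i) ∉ Y ∧ D.yl Y 0 i = x)).card : ℤ) := Int.natCast_nonneg _
        linarith
    | succ j ih =>
      intro hj
      obtain ⟨ih1, ih2⟩ := ih (by omega)
      have hs := hst j hj
      rw [hZ j]
      refine ⟨holes_step D D.C j hj (m j) _ _ hs ih1, ?_⟩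
      refine yval_step D Y j hj (m j) _ _ hs ?_ ih2
      intro k pos hp
      have hC : j ∈ D.C := by
        unfold Dia.C
        rw [Finset.mem_filter, Finset.mem_range]
        exact ⟨hj, by rw [hp]; rfl⟩
      have h1 := hcon j hC
      exact ⟨fun h => h1.1 h.1 h.2.1 h.2.2, fun h => h1.2 h.1 h.2.1 h.2.2⟩
  obtain ⟨j, hj, k, s, hp, hiff⟩ := last_cap D Y hY hne h0
  obtain ⟨i1, i2, -⟩ := hinv j hj.le
  obtain ⟨hk, -⟩ := D.hcap j hj k s hp
  have hs := hst j hj
  rw [hp] at hs
  have hk1 : abr (0, 0) j (X j) (k + 1) = false := hs.1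
  have hlow : ∀ g ≤ k, D.yl Y j g = 0 := by
    intro g
    induction g with
    | zero => exact fun _ => yl_first D Y j hj.le
    | succ g ih =>
      intro hg
      rw [← yl_block D Y j hj.le g (by omega)]
      · exact ih (by omega)
      · rw [hiff g (by omega)]
        omega
  have hhigh : ∀ d, ∀ g, g + d = str D.pc j → k + 2 ≤ g → D.yl Y j g = 0 := by
    intro d
    induction d with
    | zero =>
      intro g hg _
      rw [add_zero] at hg
      rw [hg]
      exact yl_last D Y j hj.le
    | succ d ih =>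
      intro g hg hg2
      rw [yl_block D Y j hj.le g (by omega)]
      · exact ih (g + 1) (by omega) (by omega)
      · rw [hiff g (by omega)]
        omega
  have hyl : ∀ g ≤ str D.pc j, g ≠ k + 1 → D.yl Y j g = 0 := by
    intro g hg h1
    rcases Nat.lt_or_ge k g with h2 | h2
    · exact hhigh (str D.pc j - g) g (by omega) (by omega)
    · exact hlow g h2
  have e1 : (Finset.range (str D.pc j + 1)).filter
      (fun g => abr (0, 0) j (X j) g = true ∧ D.yl Y j g = 0) =
      (Finset.range (str D.pc j + 1)).filter (fun g => abr (0, 0) j (X j) g = true) := by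
    apply Finset.filter_congr
    intro g hg
    rw [Finset.mem_range] at hg
    refine ⟨fun h => h.1, fun h => ⟨h, hyl g (by omega) ?_⟩⟩
    rintro rfl
    rw [hk1] at h
    exact Bool.false_ne_true h
  have e2 : (Finset.range (str D.pc j)).filter
      (fun i => D.ci (sl D.pc j i) ∉ Y ∧ D.yl Y j i = 0) =
      Finset.range (str D.pc j) \ {k, k + 1} := by
    ext i
    rw [Finset.mem_filter, Finset.mem_sdiff, Finset.mem_range, Finset.mem_insert,
      Finset.mem_singleton]
    constructor
    · rintro ⟨h1, h2, -⟩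
      rw [hiff i h1] at h2
      exact ⟨h1, h2⟩
    · rintro ⟨h1, h2⟩
      refine ⟨h1, ?_, hyl i h1.le ?_⟩
      · rw [hiff i h1]
        exact h2
      · exact fun h => h2 (Or.inr h)
  have e3 : (Finset.range (str D.pc j) \ {k, k + 1}).card = str D.pc j - 2 := by
    rw [Finset.card_sdiff_of_subset]
    · rw [Finset.card_range, Finset.card_pair (by omega)]
    · intro i hi
      rw [Finset.mem_insert, Finset.mem_singleton] at hi
      rw [Finset.mem_range]
      omega
  have h4 := i2
  unfold Dia.yval at h4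
  rw [e1, e2, e3] at h4
  have h5 : ((str D.pc j - 2 : ℕ) : ℤ) = (str D.pc j : ℤ) - 2 := by
    rw [Nat.cast_sub (by omega)]
    rfl
  rw [h5] at h4
  have h6 : 2 * (((Finset.range (str D.pc j + 1)).filter
      (fun g => abr (0, 0) j (X j) g = true)).card : ℤ) + 1 = (str D.pc j : ℤ) := by
    exact_mod_cast i1
  linarith

end LGAlt
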