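import Pool.Agent.LGAlt2.TopV
import Pool.Agent.LGAlt2.KBase
import Pool.Agent.LGAlt2.Purity2

/-!
# The upper bound

Let `m₁`, `m₂` be histories of the full diagram with the root `(0, 0)`, `R₀ = rc (0, 0)`, `z = Val C m₁ m₂`.
`u c = ub (m₁ c)`, `v c = vb (m₂ c)`.
* `no_hist` : if the graph is not connected there is no history: some `Y ⊆ V`, nonempty and proper, has no
  separated crossings; we may assume `R₀ ∉ Y` (complement); contradiction to `topV`.
* `sum_le` : every crossing contributes `0` or its sign to `z.1 + z.2`.  A bridge contributes `0`: let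
  `Y` be its cut, `R₀ ∉ Y` (otherwise take the complement in `V`); by `topV` the mark of the bridge is the far
  mark of its circle `W ∈ Y`, in both layers, so `u c = v c = !(ty W)`.
  So `-(nb false) ≤ z.1 + z.2 ≤ nb true`.
* `x_le` : let `X₁` be the set of the crossings of sign `p` which contribute to `z.1` (`u c = 1`, `v c = 0`).
  Then `J' = {c | sg c = p, c ∉ X₁} ∪ {c ∈ J | sg c ≠ p}` is a dijoin by `dijoin_of_pure`: let `Y` be a directed
  cut (no edge enters `Y`) whose edges have the same sign.  If it is `!p`, the edge of `J` in the cut belongs to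
  `J'`.  If it is `p`: if `R₀ ∉ Y`, by `topV` for `m₁` there is a separated crossing `c` with the far mark of its
  circle in `Y`, which is the tail of `c`, of type `true`, so `u c = 0` and `c ∉ X₁`.  If `R₀ ∈ Y`, apply `topV`
  for `m₂` to the complement: there is a separated crossing `c` with the far mark of its head, of type
  `false`, so `v c = 1` and `c ∉ X₁`.
  Hence `J.card ≤ J'.card` and `X₁.card ≤ nJ C J p`.
* `y_le` : the same for `z.2` (`u c = 0`, `v c = 1`), use `m₂` in the first case and `m₁` in the second one.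
-/

namespace LGAlt

private lemma uba_sep (D : Dia) (Y : Finset ℕ) (c : ℕ) :
    D.MGr.Sep Y c ↔ ¬ (D.cl c ∈ Y ↔ D.cr c ∈ Y) := by
  unfold MG.Sep Dia.MGr
  by_cases h : (D.pc c).pos = true
  · simp [h]
  · simp [h]
    tauto

private lemma uba_root (D : Dia) : D.rc (0, 0) ∈ D.V := by
  unfold Dia.V Dia.rc
  refine Finset.mem_image_of_mem _ ?_
  simp [Dia.SLb, sl]

private lemma uba_compl (D : Dia) {Y : Finset ℕ} (hY' : Y ≠ D.V) (hY : Y ⊆ D.V)
    (h0 : D.rc (0, 0) ∈ Y) : (D.V \ Y).Nonempty ∧ D.V \ Y ⊆ D.V ∧ D.V \ Y ≠ D.V ∧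
      D.rc (0, 0) ∉ D.V \ Y := by
  refine ⟨?_, Finset.sdiff_subset, ?_, fun h => (Finset.mem_sdiff.1 h).2 h0⟩
  · rw [Finset.sdiff_nonempty]
    exact fun h => hY' (Finset.Subset.antisymm hY h)
  · intro h
    have h1 := uba_root D
    rw [← h] at h1
    exact (Finset.mem_sdiff.1 h1).2 h0

private lemma uba_sep_compl (D : Dia) {Y : Finset ℕ} {c : ℕ} (hc : c ∈ D.C) :
    D.MGr.Sep (D.V \ Y) c ↔ D.MGr.Sep Y c := by
  rw [uba_sep, uba_sep, Finset.mem_sdiff, Finset.mem_sdiff]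
  have h1 := cl_mem D c hc
  have h2 := cr_mem D c hc
  tauto

/-- we may assume that the root is not in the set -/
private lemma uba_wlog (D : Dia) {Y : Finset ℕ} (hY : Y ⊆ D.V) (hne : Y.Nonempty) (hY' : Y ≠ D.V) :
    ∃ Z ⊆ D.V, Z.Nonempty ∧ D.rc (0, 0) ∉ Z ∧ ∀ c ∈ D.C, (D.MGr.Sep Z c ↔ D.MGr.Sep Y c) := by
  by_cases h0 : D.rc (0, 0) ∈ Y
  · obtain ⟨h1, h2, -, h4⟩ := uba_compl D hY' hY h0
    exact ⟨D.V \ Y, h2, h1, h4, fun c hc => uba_sep_compl D hc⟩
  · exact ⟨Y, hY, hne, h0, fun c _ => Iff.rfl⟩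

theorem no_hist (D : Dia) (h : ¬ D.MGr.Conn D.V D.C) (m : ℕ → Mk) :
    ¬ Hist D.pc D.n D.C (0, 0) m := by
  intro hm
  apply h
  refine ⟨⟨_, uba_root D⟩, ?_, ?_⟩
  · intro e he
    have h1 := cl_mem D e he
    have h2 := cr_mem D e he
    unfold Dia.MGr
    by_cases h : (D.pc e).pos = true <;> simp [h, h1, h2]
  · intro Y hY hne hY'
    by_contra hcon
    push Not at hcon
    obtain ⟨Z, hZ, hZne, hZ0, hZs⟩ := uba_wlog D hY hne hY'
    obtain ⟨c, hc, h1⟩ := topV D m hm Z hZ hZne hZ0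
    refine hcon c hc ((hZs c hc).1 ?_)
    rw [uba_sep]
    tauto

/-- the two marks of a bridge -/
private lemma uba_bridge (D : Dia) (m₁ m₂ : ℕ → Mk)
    (h₁ : Hist D.pc D.n D.C (0, 0) m₁) (h₂ : Hist D.pc D.n D.C (0, 0) m₂) (e : ℕ)
    (hb : D.MGr.Bridge D.V D.C e) : ub D.pc e (m₁ e) = vb D.pc e (m₂ e) := by
  obtain ⟨Y, hY, hne, hY', hs⟩ := hb
  obtain ⟨Z, hZ, hZne, hZ0, hZs⟩ := uba_wlog D hY hne hY'
  obtain ⟨c, hc, h3⟩ := topV D m₁ h₁ Z hZ hZne hZ0
  obtain ⟨c', hc', h4⟩ := topV D m₂ h₂ Z hZ hZne hZ0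
  have e1 : c = e := by
    refine (hs c hc).1 ((hZs c hc).1 ?_)
    rw [uba_sep]
    tauto
  have e2 : c' = e := by
    refine (hs c' hc').1 ((hZs c' hc').1 ?_)
    rw [uba_sep]
    tauto
  subst e1
  subst e2
  rcases h3 with ⟨a1, a2, a3⟩ | ⟨a1, a2, a3⟩ <;> rcases h4 with ⟨b1, b2, b3⟩ | ⟨b1, b2, b3⟩
  · rw [a3, b3]; rfl
  · exact absurd b1 a2
  · exact absurd b1 a2
  · rw [a3, b3]; rfl

theorem sum_le (D : Dia) (hD : D.MGr.Conn D.V D.C) (m₁ m₂ : ℕ → Mk)
    (h₁ : Hist D.pc D.n D.C (0, 0) m₁) (h₂ : Hist D.pc D.n D.C (0, 0) m₂) :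
    -(D.MGr.nb D.V D.C false) ≤ (Val D.pc D.C m₁ m₂).1 + (Val D.pc D.C m₁ m₂).2 ∧
      (Val D.pc D.C m₁ m₂).1 + (Val D.pc D.C m₁ m₂).2 ≤ D.MGr.nb D.V D.C true := by
  classical
  have hnb : ∀ p, D.MGr.nb D.V D.C p = ∑ c ∈ D.C,
      (if (D.MGr.sg c = p ∧ ¬ D.MGr.Bridge D.V D.C c) then (1 : ℤ) else 0) := by
    intro p
    unfold MG.nb
    rw [Finset.card_filter]
    push_cast
    exact Finset.sum_congr rfl fun c _ => by congr
  rw [hnb, hnb]
  unfold Val
  simp only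
  rw [← Finset.sum_add_distrib, ← Finset.sum_neg_distrib]
  constructor
  · refine Finset.sum_le_sum fun c hc => ?_
    by_cases hb : D.MGr.Bridge D.V D.C c
    · have h3 := uba_bridge D m₁ m₂ h₁ h₂ c hb
      rw [h3]
      cases vb D.pc c (m₂ c) <;> simp [hb]
    · have hsg : D.MGr.sg c = (D.pc c).pos := rfl
      rw [hsg]
      unfold sgc
      cases ub D.pc c (m₁ c) <;> cases vb D.pc c (m₂ c) <;> cases (D.pc c).pos <;> simp [hb]
  · refine Finset.sum_le_sum fun c hc => ?_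
    by_cases hb : D.MGr.Bridge D.V D.C c
    · have h3 := uba_bridge D m₁ m₂ h₁ h₂ c hb
      rw [h3]
      cases vb D.pc c (m₂ c) <;> simp [hb]
    · have hsg : D.MGr.sg c = (D.pc c).pos := rfl
      rw [hsg]
      unfold sgc
      cases ub D.pc c (m₁ c) <;> cases vb D.pc c (m₂ c) <;> cases (D.pc c).pos <;> simp [hb]

/-- the crossings of sign `p` which contribute to the first (`b = true`) or second (`b = false`) exponent -/
noncomputable def Dia.XS (D : Dia) (m₁ m₂ : ℕ → Mk) (p b : Bool) : Finset ℕ :=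
  D.C.filter (fun c => (D.pc c).pos = p ∧ ub D.pc c (m₁ c) = b ∧ vb D.pc c (m₂ c) = !b)

/-- a separated crossing with both bits `false`, if the root is not in the set -/
private lemma uba_out (D : Dia) (m : ℕ → Mk) (h : Hist D.pc D.n D.C (0, 0) m) {Y : Finset ℕ}
    (hY : Y ⊆ D.V) (hne : Y.Nonempty) (h0 : D.rc (0, 0) ∉ Y)
    (hd : ∀ e ∈ D.C, D.MGr.hd e ∈ Y → D.MGr.tl e ∈ Y) :
    ∃ c ∈ D.C, D.MGr.Sep Y c ∧ ub D.pc c (m c) = false ∧ vb D.pc c (m c) = false := by
  obtain ⟨c, hc, h1⟩ := topV D m h Y hY hne h0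
  refine ⟨c, hc, ?_, ?_⟩
  · rw [uba_sep]
    tauto
  · have h2 := hd c hc
    unfold Dia.MGr at h2
    simp only at h2
    cases hp : (D.pc c).pos
    · simp only [hp, Bool.false_eq_true, if_false] at h2
      rcases h1 with ⟨a1, a2, a3⟩ | ⟨a1, a2, a3⟩
      · exact absurd (h2 a1) a2
      · rw [a3]
        simp [ub, vb, hp]
    · simp only [hp, if_true] at h2
      rcases h1 with ⟨a1, a2, a3⟩ | ⟨a1, a2, a3⟩
      · rw [a3]
        simp [ub, vb, hp]
      · exact absurd (h2 a1) a2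

/-- a separated crossing with both bits `true`, if the root is in the set -/
private lemma uba_in (D : Dia) (m : ℕ → Mk) (h : Hist D.pc D.n D.C (0, 0) m) {Y : Finset ℕ}
    (hY : Y ⊆ D.V) (hY' : Y ≠ D.V) (h0 : D.rc (0, 0) ∈ Y)
    (hd : ∀ e ∈ D.C, D.MGr.hd e ∈ Y → D.MGr.tl e ∈ Y) :
    ∃ c ∈ D.C, D.MGr.Sep Y c ∧ ub D.pc c (m c) = true ∧ vb D.pc c (m c) = true := by
  obtain ⟨g1, g2, -, g4⟩ := uba_compl D hY' hY h0
  obtain ⟨c, hc, h1⟩ := topV D m h (D.V \ Y) g2 g1 g4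
  have hl := cl_mem D c hc
  have hr := cr_mem D c hc
  simp only [Finset.mem_sdiff, hl, hr, true_and, not_not] at h1
  refine ⟨c, hc, ?_, ?_⟩
  · rw [uba_sep]
    tauto
  · have h2 := hd c hc
    unfold Dia.MGr at h2
    simp only at h2
    cases hp : (D.pc c).pos
    · simp only [hp, Bool.false_eq_true, if_false] at h2
      rcases h1 with ⟨a1, a2, a3⟩ | ⟨a1, a2, a3⟩
      · rw [a3]
        simp [ub, vb, hp]
      · exact absurd (h2 a2) a1
    · simp only [hp, if_true] at h2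
      rcases h1 with ⟨a1, a2, a3⟩ | ⟨a1, a2, a3⟩
      · exact absurd (h2 a2) a1
      · rw [a3]
        simp [ub, vb, hp]

theorem XS_le (D : Dia) (hD : D.MGr.Conn D.V D.C) (m₁ m₂ : ℕ → Mk)
    (h₁ : Hist D.pc D.n D.C (0, 0) m₁) (h₂ : Hist D.pc D.n D.C (0, 0) m₂) (J : Finset ℕ)
    (hJ : D.MGr.MinDijoin D.V D.C J) (p b : Bool) :
    ((D.XS m₁ m₂ p b).card : ℤ) ≤ D.MGr.nJ D.C J p := by
  classical
  set J' : Finset ℕ := ((D.C.filter (fun c => D.MGr.sg c = p)) \ D.XS m₁ m₂ p b) ∪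
    J.filter (fun c => ¬ D.MGr.sg c = p) with hJ'
  have hJC : J ⊆ D.C := hJ.dj.sub
  have hmemX : ∀ c, c ∈ D.XS m₁ m₂ p b ↔ c ∈ D.C ∧ (D.pc c).pos = p ∧ ub D.pc c (m₁ c) = b ∧
      vb D.pc c (m₂ c) = !b := by
    intro c
    simp only [Dia.XS, Finset.mem_filter]
  have hdj : D.MGr.Dijoin D.V D.C J' := by
    refine MG.dijoin_of_pure D.MGr D.C (sepHyp D) D.V D.C (Finset.Subset.refl _) hD
      (fun e he => tl_ne_hd D e he) J' ?_ ?_
    · intro c hc
      rcases Finset.mem_union.1 hc with h | h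
      · exact (Finset.mem_filter.1 (Finset.mem_sdiff.1 h).1).1
      · exact hJC (Finset.mem_filter.1 h).1
    · intro Y hY hne hY' hd q hq
      by_cases hqp : q = p
      · subst hqp
        -- a crossing which does not belong to `XS`
        have key : ∃ c ∈ D.C, D.MGr.Sep Y c ∧ c ∉ D.XS m₁ m₂ q b := by
          by_cases h0 : D.rc (0, 0) ∈ Y
          · cases b
            · obtain ⟨c, hc, h3, h4, h5⟩ := uba_in D m₁ h₁ hY hY' h0 hd
              refine ⟨c, hc, h3, fun h6 => ?_⟩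
              have h7 := ((hmemX c).1 h6).2.2.1
              rw [h4] at h7
              simp at h7
            · obtain ⟨c, hc, h3, h4, h5⟩ := uba_in D m₂ h₂ hY hY' h0 hd
              refine ⟨c, hc, h3, fun h6 => ?_⟩
              have h7 := ((hmemX c).1 h6).2.2.2
              rw [h5] at h7
              simp at h7
          · cases b
            · obtain ⟨c, hc, h3, h4, h5⟩ := uba_out D m₂ h₂ hY hne h0 hd
              refine ⟨c, hc, h3, fun h6 => ?_⟩
              have h7 := ((hmemX c).1 h6).2.2.2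
              rw [h5] at h7
              simp at h7
            · obtain ⟨c, hc, h3, h4, h5⟩ := uba_out D m₁ h₁ hY hne h0 hd
              refine ⟨c, hc, h3, fun h6 => ?_⟩
              have h7 := ((hmemX c).1 h6).2.2.1
              rw [h4] at h7
              simp at h7
        obtain ⟨c, hc, h3, h4⟩ := key
        refine ⟨c, ?_, h3⟩
        refine Finset.mem_union_left _ (Finset.mem_sdiff.2 ⟨Finset.mem_filter.2 ⟨hc, hq c hc h3⟩, h4⟩)
      · obtain ⟨e, he, hs⟩ := hJ.dj.hit Y hY hne hY' hd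
        refine ⟨e, Finset.mem_union_right _ (Finset.mem_filter.2 ⟨he, ?_⟩), hs⟩
        rw [hq e (hJC he) hs]
        exact hqp
  have h3 := hJ.min J' hdj
  have h4 : J'.card ≤ ((D.C.filter (fun c => D.MGr.sg c = p)) \ D.XS m₁ m₂ p b).card +
      (J.filter (fun c => ¬ D.MGr.sg c = p)).card := Finset.card_union_le _ _
  have h5 : D.XS m₁ m₂ p b ⊆ D.C.filter (fun c => D.MGr.sg c = p) := by
    intro c hc
    have h6 := (hmemX c).1 hc
    exact Finset.mem_filter.2 ⟨h6.1, h6.2.1⟩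
  have h6 := Finset.card_sdiff_add_card_eq_card h5
  have h7 := Finset.card_filter_add_card_filter_not (s := J) (fun c => D.MGr.sg c = p)
  unfold MG.nJ
  omega

lemma val_XS (D : Dia) (m₁ m₂ : ℕ → Mk) :
    (Val D.pc D.C m₁ m₂).1 = (D.XS m₁ m₂ true true).card - (D.XS m₁ m₂ false true).card ∧
      (Val D.pc D.C m₁ m₂).2 = (D.XS m₁ m₂ true false).card - (D.XS m₁ m₂ false false).card := by
  classical
  unfold Val Dia.XS
  simp only [Finset.card_filter, Nat.cast_sum]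
  rw [← Finset.sum_sub_distrib, ← Finset.sum_sub_distrib]
  constructor
  · refine Finset.sum_congr rfl fun c _ => ?_
    unfold sgc
    cases ub D.pc c (m₁ c) <;> cases vb D.pc c (m₂ c) <;> cases (D.pc c).pos <;> simp
  · refine Finset.sum_congr rfl fun c _ => ?_
    unfold sgc
    cases ub D.pc c (m₁ c) <;> cases vb D.pc c (m₂ c) <;> cases (D.pc c).pos <;> simp

end LGAlt
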